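import Mathlib
set_option autoImplicit false
open Set Filter Topology
open scoped ContDiff

namespace Pool.Agent.Helper107.LC

abbrev E (m : ℕ) := EuclideanSpace ℝ (Fin m)
/-- ambient space `ℝ^{m+2}`; the model space has dimension `n = m+1` -/
abbrev V (m : ℕ) := ℝ × E m × ℝ

/-- `B κ`: the metric (on tangent vectors) -/
noncomputable def B (κ : ℝ) {m : ℕ} (x y : V m) : ℝ :=
  -(x.1 * y.1) + inner ℝ x.2.1 y.2.1 + κ * (x.2.2 * y.2.2)
/-- `Q κ`: the form defining the model space -/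
noncomputable def Q (κ : ℝ) {m : ℕ} (x y : V m) : ℝ :=
  κ * (-(x.1 * y.1) + inner ℝ x.2.1 y.2.1) + x.2.2 * y.2.2
section basic
variable {κ : ℝ} {m : ℕ}
theorem B_comm (x y : V m) : B κ x y = B κ y x := by
  simp only [B, real_inner_comm]; ring
theorem Q_comm (x y : V m) : Q κ x y = Q κ y x := by
  simp only [Q, real_inner_comm]; ring
theorem B_add_left (x y z : V m) : B κ (x + y) z = B κ x z + B κ y z := by
  simp only [B, Prod.fst_add, Prod.snd_add, inner_add_left]; ring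
theorem B_add_right (x y z : V m) : B κ x (y + z) = B κ x y + B κ x z := by
  simp only [B, Prod.fst_add, Prod.snd_add, inner_add_right]; ring
theorem B_smul_left (a : ℝ) (x y : V m) : B κ (a • x) y = a * B κ x y := by
  simp only [B, Prod.smul_fst, Prod.smul_snd, real_inner_smul_left, smul_eq_mul]; ring
theorem B_smul_right (a : ℝ) (x y : V m) : B κ x (a • y) = a * B κ x y := by
  simp only [B, Prod.smul_fst, Prod.smul_snd, real_inner_smul_right, smul_eq_mul]; ring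
theorem B_neg_left (x y : V m) : B κ (-x) y = -B κ x y := by
  simp only [B, Prod.fst_neg, Prod.snd_neg, inner_neg_left]; ring
theorem B_neg_right (x y : V m) : B κ x (-y) = -B κ x y := by
  simp only [B, Prod.fst_neg, Prod.snd_neg, inner_neg_right]; ring
theorem B_sub_left (x y z : V m) : B κ (x - y) z = B κ x z - B κ y z := by
  rw [sub_eq_add_neg, B_add_left, B_neg_left]; ring
theorem B_sub_right (x y z : V m) : B κ x (y - z) = B κ x y - B κ x z := by
  rw [sub_eq_add_neg, B_add_right, B_neg_right]; ring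
theorem B_zero_left (x : V m) : B κ 0 x = 0 := by simp [B]
theorem B_zero_right (x : V m) : B κ x 0 = 0 := by simp [B]
theorem Q_add_left (x y z : V m) : Q κ (x + y) z = Q κ x z + Q κ y z := by
  simp only [Q, Prod.fst_add, Prod.snd_add, inner_add_left]; ring
theorem Q_add_right (x y z : V m) : Q κ x (y + z) = Q κ x y + Q κ x z := by
  simp only [Q, Prod.fst_add, Prod.snd_add, inner_add_right]; ring
theorem Q_smul_left (a : ℝ) (x y : V m) : Q κ (a • x) y = a * Q κ x y := by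
  simp only [Q, Prod.smul_fst, Prod.smul_snd, real_inner_smul_left, smul_eq_mul]; ring
theorem Q_smul_right (a : ℝ) (x y : V m) : Q κ x (a • y) = a * Q κ x y := by
  simp only [Q, Prod.smul_fst, Prod.smul_snd, real_inner_smul_right, smul_eq_mul]; ring
theorem Q_neg_left (x y : V m) : Q κ (-x) y = -Q κ x y := by
  simp only [Q, Prod.fst_neg, Prod.snd_neg, inner_neg_left]; ring
theorem Q_neg_right (x y : V m) : Q κ x (-y) = -Q κ x y := by
  simp only [Q, Prod.fst_neg, Prod.snd_neg, inner_neg_right]; ring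
theorem Q_sub_left (x y z : V m) : Q κ (x - y) z = Q κ x z - Q κ y z := by
  rw [sub_eq_add_neg, Q_add_left, Q_neg_left]; ring
theorem Q_sub_right (x y z : V m) : Q κ x (y - z) = Q κ x y - Q κ x z := by
  rw [sub_eq_add_neg, Q_add_right, Q_neg_right]; ring
theorem Q_zero_left (x : V m) : Q κ 0 x = 0 := by simp [Q]
theorem Q_zero_right (x : V m) : Q κ x 0 = 0 := by simp [Q]
theorem Q_eq_B (x y : V m) : Q κ x y = κ * B κ x y + (1 - κ ^ 2) * (x.2.2 * y.2.2) := by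
  simp only [B, Q]; ring
end basic

/-- model space of constant curvature `κ ∈ {-1,0,1}` (anti-de Sitter, Minkowski, de Sitter) -/
noncomputable def X (κ : ℝ) (m : ℕ) : Set (V m) := {x | Q κ x x = 1}
/-- tangential projection at `x` -/
noncomputable def tg (κ : ℝ) {m : ℕ} (x w : V m) : V m := w - Q κ x w • x
section basic2
variable {κ : ℝ} {m : ℕ}
theorem Q_tg {x : V m} (hx : x ∈ X κ m) (w : V m) : Q κ x (tg κ x w) = 0 := by
  have : Q κ x x = 1 := hx
  rw [tg, Q_sub_right, Q_smul_right, this]; ring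
theorem tg_of_tan {x w : V m} (hw : Q κ x w = 0) : tg κ x w = w := by
  rw [tg, hw]; simp
theorem tg_add_normal (x w : V m) : tg κ x w + Q κ x w • x = w := by
  rw [tg]; simp
/-- for tangent vectors `Q = κ B` -/
theorem Q_tan (hκ : κ = -1 ∨ κ = 0 ∨ κ = 1) {x v : V m} (hx : x ∈ X κ m) (hv : Q κ x v = 0)
    (w : V m) (hw : Q κ x w = 0) : Q κ v w = κ * B κ v w := by
  have h1 : Q κ x x = 1 := hx
  rcases hκ with h | h | h
  · subst h; rw [Q_eq_B]; ring
  · subst h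
    have hx2 : x.2.2 * x.2.2 = 1 := by simpa [Q] using h1
    have hv2 : x.2.2 * v.2.2 = 0 := by simpa [Q] using hv
    have : x.2.2 ≠ 0 := by intro h; rw [h] at hx2; norm_num at hx2
    have hv3 : v.2.2 = 0 := by
      rcases mul_eq_zero.mp hv2 with h | h
      · exact absurd h this
      · exact h
    rw [Q_eq_B, hv3]; ring
  · subst h; rw [Q_eq_B]; ring
/-- key degenerate identity -/
theorem QB_zero (hκ : κ = -1 ∨ κ = 0 ∨ κ = 1) {x v u : V m} (hx : x ∈ X κ m) (hv : Q κ x v = 0)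
    (hu : Q κ x u = 0) (w : V m) : Q κ v w * B κ u x = 0 := by
  have h1 : Q κ x x = 1 := hx
  rcases hκ with h | h | h
  · subst h
    have : B (-1) u x = 0 := by
      have h2 := Q_eq_B (κ := (-1:ℝ)) x u
      rw [hu] at h2; rw [B_comm]; linarith
    rw [this]; ring
  · subst h
    have hx2 : x.2.2 * x.2.2 = 1 := by simpa [Q] using h1
    have hv2 : x.2.2 * v.2.2 = 0 := by simpa [Q] using hv
    have : x.2.2 ≠ 0 := by intro h; rw [h] at hx2; norm_num at hx2
    have hv3 : v.2.2 = 0 := by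
      rcases mul_eq_zero.mp hv2 with h | h
      · exact absurd h this
      · exact h
    rw [Q_eq_B, hv3]; ring
  · subst h
    have : B 1 u x = 0 := by
      have h2 := Q_eq_B (κ := (1:ℝ)) x u
      rw [hu] at h2; rw [B_comm]; linarith
    rw [this]; ring
end basic2

/-- square of the positive definite norm attached to `x ∈ X` and a unit timelike tangent vector `t` -/
noncomputable def N2 (κ : ℝ) {m : ℕ} (x t w : V m) : ℝ :=
  B κ (tg κ x w) (tg κ x w) + 2 * (B κ (tg κ x w) t) ^ 2 + (Q κ x w) ^ 2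

/-- `cos / 1 / cosh` and `sin / t / sinh` for `κ = -1, 0, 1` -/
noncomputable def ck (κ t : ℝ) : ℝ := if κ = -1 then Real.cos t else if κ = 0 then 1 else Real.cosh t
noncomputable def sk (κ t : ℝ) : ℝ := if κ = -1 then Real.sin t else if κ = 0 then t else Real.sinh t
/-- timelike unit speed geodesic of the model space, and its velocity -/
noncomputable def ray (κ : ℝ) {m : ℕ} (x u : V m) (t : ℝ) : V m := ck κ t • x + sk κ t • u
noncomputable def vel (κ : ℝ) {m : ℕ} (x u : V m) (t : ℝ) : V m := (κ * sk κ t) • x + ck κ t • u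
/-- orthographic chart of the model space at `x` (for tangent `v` with `κ * B κ v v < 1`) -/
noncomputable def og (κ : ℝ) {m : ℕ} (x v : V m) : V m := Real.sqrt (1 - κ * B κ v v) • x + v

/-- `Y` with a local homeomorphism to the model space (developing map) -/
structure Dev (κ : ℝ) (m : ℕ) (Y : Type*) [TopologicalSpace Y] where
  p : Y → V m
  mem : ∀ y, p y ∈ X κ m
  lh : IsLocalHomeomorph (fun y => (⟨p y, mem y⟩ : X κ m))

variable {κ : ℝ} {m : ℕ} {Y : Type*} [TopologicalSpace Y]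

/-- smooth map on `Y` -/
def Dev.Sm (P : Dev κ m Y) {W : Type*} [NormedAddCommGroup W] [NormedSpace ℝ W] (F : Y → W) : Prop :=
  ∀ y, ∃ G : V m → W, ContDiff ℝ ∞ G ∧ ∀ᶠ y' in 𝓝 y, F y' = G (P.p y')

open Classical in
/-- derivative of a smooth map on `Y` (meaningful on tangent vectors) -/
noncomputable def Dev.d (P : Dev κ m Y) {W : Type*} [NormedAddCommGroup W] [NormedSpace ℝ W]
    (F : Y → W) (y : Y) : V m →L[ℝ] W :=
  if h : ∃ G : V m → W, ContDiff ℝ ∞ G ∧ ∀ᶠ y' in 𝓝 y, F y' = G (P.p y') then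
    fderiv ℝ h.choose (P.p y) else 0

/-- holonomy data -/
structure Hol (P : Dev κ m Y) (Γ : Type*) [Group Γ] [MulAction Γ Y] where
  ρ : Γ →* (V m ≃ₗ[ℝ] V m)
  Qinv : ∀ γ v w, Q κ (ρ γ v) (ρ γ w) = Q κ v w
  Binv : ∀ γ x v w, x ∈ X κ m → Q κ x v = 0 → Q κ x w = 0 → B κ (ρ γ v) (ρ γ w) = B κ v w
  eqv : ∀ γ y, P.p (γ • y) = ρ γ (P.p y)

/-- unit timelike field on `Y`, equivariant up to sign -/
structure TF {P : Dev κ m Y} {Γ : Type*} [Group Γ] [MulAction Γ Y] (H : Hol P Γ) where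
  T : Y → V m
  sm : P.Sm T
  tan : ∀ y, Q κ (P.p y) (T y) = 0
  unit : ∀ y, B κ (T y) (T y) = -1
  eqv : ∀ γ y, T (γ • y) = H.ρ γ (T y) ∨ T (γ • y) = -H.ρ γ (T y)

/-- geodesics of the metric `e^{2f} g₀` on `Y`, where `g₀` is the pull back of the model metric:
`∇_{x'} x' + 2 df(x') x' = g₀(x',x') grad f` with `x = p ∘ c`. -/
def Dev.IsGeod (P : Dev κ m Y) (f : Y → ℝ) (c : ℝ → Y) (I : Set ℝ) : Prop :=
  ContinuousOn c I ∧ ∀ t ∈ I, DifferentiableAt ℝ (P.p ∘ c) t ∧ DifferentiableAt ℝ (deriv (P.p ∘ c)) t ∧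
    ∀ w, Q κ (P.p (c t)) w = 0 →
      B κ (deriv (deriv (P.p ∘ c)) t) w
        + 2 * P.d f (c t) (deriv (P.p ∘ c) t) * B κ (deriv (P.p ∘ c) t) w
      = B κ (deriv (P.p ∘ c) t) (deriv (P.p ∘ c) t) * P.d f (c t) w

/-- cocompactness -/
def Coc (Γ : Type*) (Y : Type*) [TopologicalSpace Y] [Group Γ] [MulAction Γ Y] : Prop :=
  ∃ K : Set Y, IsCompact K ∧ ∀ y, ∃ γ : Γ, γ • y ∈ K

section cksk
variable {κ : ℝ} {m : ℕ}
theorem hasDerivAt_ck (hκ : κ = -1 ∨ κ = 0 ∨ κ = 1) (t : ℝ) : HasDerivAt (ck κ) (κ * sk κ t) t := by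
  rcases hκ with h | h | h <;> subst h
  · have := Real.hasDerivAt_cos t
    have e : ck (-1) = Real.cos := by ext s; simp [ck]
    rw [e]; simpa [sk] using this
  · have e : ck 0 = fun _ => (1:ℝ) := by ext s; simp [ck]
    rw [e]; simpa using hasDerivAt_const t (1:ℝ)
  · have e : ck 1 = Real.cosh := by
      ext s; simp only [ck]; rw [if_neg (by norm_num), if_neg (by norm_num)]
    have e2 : sk 1 = Real.sinh := by
      ext s; simp only [sk]; rw [if_neg (by norm_num), if_neg (by norm_num)]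
    rw [e, e2, one_mul]; exact Real.hasDerivAt_cosh t
theorem hasDerivAt_sk (hκ : κ = -1 ∨ κ = 0 ∨ κ = 1) (t : ℝ) : HasDerivAt (sk κ) (ck κ t) t := by
  rcases hκ with h | h | h <;> subst h
  · have := Real.hasDerivAt_sin t
    have e : sk (-1) = Real.sin := by ext s; simp [sk]
    rw [e]; simpa [ck] using this
  · have e : sk 0 = fun s => s := by ext s; simp [sk]
    have e3 : ck (0:ℝ) t = 1 := by simp [ck]
    rw [e, e3]; exact hasDerivAt_id t
  · have e : ck 1 = Real.cosh := by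
      ext s; simp only [ck]; rw [if_neg (by norm_num), if_neg (by norm_num)]
    have e2 : sk 1 = Real.sinh := by
      ext s; simp only [sk]; rw [if_neg (by norm_num), if_neg (by norm_num)]
    rw [e, e2]; exact Real.hasDerivAt_sinh t
theorem ck_sq (hκ : κ = -1 ∨ κ = 0 ∨ κ = 1) (t : ℝ) : ck κ t ^ 2 - κ * sk κ t ^ 2 = 1 := by
  rcases hκ with h | h | h <;> subst h
  · simp only [ck, sk, if_true]; nlinarith [Real.sin_sq_add_cos_sq t]
  · simp [ck, sk]
  · simp only [ck, sk]; rw [if_neg (by norm_num), if_neg (by norm_num), if_neg (by norm_num), if_neg (by norm_num)]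
    nlinarith [Real.cosh_sq t]
theorem ck_zero (hκ : κ = -1 ∨ κ = 0 ∨ κ = 1) : ck κ 0 = 1 := by
  rcases hκ with h | h | h <;> subst h <;> simp [ck]
theorem sk_zero (hκ : κ = -1 ∨ κ = 0 ∨ κ = 1) : sk κ 0 = 0 := by
  rcases hκ with h | h | h <;> subst h <;> simp [sk]
theorem ray_zero (hκ : κ = -1 ∨ κ = 0 ∨ κ = 1) (x u : V m) : ray κ x u 0 = x := by
  rw [ray, ck_zero hκ, sk_zero hκ]; simp
theorem vel_zero (hκ : κ = -1 ∨ κ = 0 ∨ κ = 1) (x u : V m) : vel κ x u 0 = u := by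
  rw [vel, ck_zero hκ, sk_zero hκ]; simp
theorem Q_uu (hκ : κ = -1 ∨ κ = 0 ∨ κ = 1) {x u : V m} (hx : x ∈ X κ m) (hu : Q κ x u = 0)
    (hB : B κ u u = -1) : Q κ u u = -κ := by
  rw [Q_tan hκ hx hu u hu, hB]; ring
theorem ray_mem (hκ : κ = -1 ∨ κ = 0 ∨ κ = 1) {x u : V m} (hx : x ∈ X κ m) (hu : Q κ x u = 0)
    (hB : B κ u u = -1) (t : ℝ) : ray κ x u t ∈ X κ m := by
  have h1 : Q κ x x = 1 := hx
  show Q κ (ray κ x u t) (ray κ x u t) = 1
  simp only [ray, Q_add_left, Q_add_right, Q_smul_left, Q_smul_right, Q_comm u x, hu, h1,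
    Q_uu hκ hx hu hB]
  nlinarith [ck_sq hκ t]
theorem vel_tan (hκ : κ = -1 ∨ κ = 0 ∨ κ = 1) {x u : V m} (hx : x ∈ X κ m) (hu : Q κ x u = 0)
    (hB : B κ u u = -1) (t : ℝ) : Q κ (ray κ x u t) (vel κ x u t) = 0 := by
  have h1 : Q κ x x = 1 := hx
  simp only [ray, vel, Q_add_left, Q_add_right, Q_smul_left, Q_smul_right, Q_comm u x, hu, h1,
    Q_uu hκ hx hu hB]
  ring
theorem vel_unit (hκ : κ = -1 ∨ κ = 0 ∨ κ = 1) {x u : V m} (hx : x ∈ X κ m) (hu : Q κ x u = 0)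
    (hB : B κ u u = -1) (t : ℝ) : B κ (vel κ x u t) (vel κ x u t) = -1 := by
  have h1 : Q κ x x = 1 := hx
  have h3 := ck_sq hκ t
  simp only [vel, B_add_left, B_add_right, B_smul_left, B_smul_right, B_comm u x, hB]
  rcases hκ with h | h | h <;> subst h
  · have e1 : B (-1) x x = -1 := by have := Q_eq_B (κ := (-1:ℝ)) x x; rw [h1] at this; linarith
    have e2 : B (-1) x u = 0 := by have := Q_eq_B (κ := (-1:ℝ)) x u; rw [hu] at this; linarith
    rw [e1, e2]; nlinarith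
  · nlinarith
  · have e1 : B 1 x x = 1 := by have := Q_eq_B (κ := (1:ℝ)) x x; rw [h1] at this; linarith
    have e2 : B 1 x u = 0 := by have := Q_eq_B (κ := (1:ℝ)) x u; rw [hu] at this; linarith
    rw [e1, e2]; nlinarith
theorem hasDerivAt_ray (hκ : κ = -1 ∨ κ = 0 ∨ κ = 1) (x u : V m) (t : ℝ) :
    HasDerivAt (ray κ x u) (vel κ x u t) t := by
  have h1 := ((hasDerivAt_ck hκ t).smul_const x).add ((hasDerivAt_sk hκ t).smul_const u)
  exact h1
theorem hasDerivAt_vel (hκ : κ = -1 ∨ κ = 0 ∨ κ = 1) (x u : V m) (t : ℝ) :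
    HasDerivAt (vel κ x u) (κ • ray κ x u t) t := by
  have h1 := (((hasDerivAt_sk hκ t).const_mul κ).smul_const x).add ((hasDerivAt_ck hκ t).smul_const u)
  have e : κ • ray κ x u t = (κ * ck κ t) • x + (κ * sk κ t) • u := by
    rw [ray, smul_add, smul_smul, smul_smul]
  rw [e]; exact h1
end cksk

section defs2
variable {κ : ℝ} {m : ℕ} {Y : Type*} [TopologicalSpace Y]
/-- future unit timelike vectors at `y` with respect to the field `T` -/
def Dev.Fut (P : Dev κ m Y) (T : Y → V m) (y : Y) (u : V m) : Prop :=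
  Q κ (P.p y) u = 0 ∧ B κ u u = -1 ∧ B κ u (T y) < 0
/-- the path `g` in the model space lifts to `Y` over `[0,b]`, starting at `y` -/
def Dev.LiftsTo (P : Dev κ m Y) (y : Y) (g : ℝ → V m) (b : ℝ) : Prop :=
  ∃ σ : ℝ → Y, ContinuousOn σ (Icc 0 b) ∧ σ 0 = y ∧ ∀ t ∈ Icc 0 b, P.p (σ t) = g t
/-- the timelike geodesic from `y` in direction `u` fails (leaves `Y`) at time `b`, and the field `T`
blows up there in the null direction `ν` -/
def Dev.FailsAt (P : Dev κ m Y) (T : Y → V m) (y : Y) (u : V m) (b : ℝ) (ν : V m) : Prop :=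
  0 < b ∧ (∃ σ : ℝ → Y, ContinuousOn σ (Ico 0 b) ∧ σ 0 = y ∧
    (∀ t ∈ Ico 0 b, P.p (σ t) = ray κ (P.p y) u t) ∧
    Tendsto (fun t => -B κ (vel κ (P.p y) u t) (T (σ t))) (𝓝[<] b) atTop ∧
    Tendsto (fun t => (-B κ (vel κ (P.p y) u t) (T (σ t)))⁻¹ • T (σ t)) (𝓝[<] b) (𝓝 ν)) ∧
  B κ ν ν = 0 ∧ Q κ (ray κ (P.p y) u b) ν = 0 ∧ B κ (vel κ (P.p y) u b) ν = -1
/-- all timelike geodesics of the model metric on `Y` are complete -/
def Dev.TC (P : Dev κ m Y) : Prop :=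
  ∀ y u, Q κ (P.p y) u = 0 → B κ u u = -1 → ∀ b ≥ 0, P.LiftsTo y (ray κ (P.p y) u) b
/-- local exponential map data with uniform radius `ε` (in the `T`-norm) -/
structure ExData {P : Dev κ m Y} {Γ : Type*} [Group Γ] [MulAction Γ Y] {H : Hol P Γ} (TT : TF H) where
  ε : ℝ
  ε_pos : 0 < ε
  C : ℝ
  ex : Y → V m → Y
  lt_one : ∀ y v, Q κ (P.p y) v = 0 → N2 κ (P.p y) (TT.T y) v < ε ^ 2 → κ * B κ v v < 1
  pex : ∀ y v, Q κ (P.p y) v = 0 → N2 κ (P.p y) (TT.T y) v < ε ^ 2 → P.p (ex y v) = og κ (P.p y) v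
  Tex : ∀ y v, Q κ (P.p y) v = 0 → N2 κ (P.p y) (TT.T y) v < ε ^ 2 →
    N2 κ (P.p y) (TT.T y) (TT.T (ex y v)) ≤ C
  ex_zero : ∀ y, ex y 0 = y
  cont : ContinuousOn (fun q : Y × V m => ex q.1 q.2)
    {q | Q κ (P.p q.1) q.2 = 0 ∧ N2 κ (P.p q.1) (TT.T q.1) q.2 < ε ^ 2}
  /-- derivative bound for `T` -/
  C1 : ℝ
  dT : ∀ y v, Q κ (P.p y) v = 0 →
    N2 κ (P.p y) (TT.T y) (P.d TT.T y v) ≤ C1 * N2 κ (P.p y) (TT.T y) v
end defs2

section vldefs
variable {κ : ℝ} {m : ℕ} {Y : Type*} [TopologicalSpace Y]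
/-- coordinate space of dimension `n = m+1` -/
abbrev R (m : ℕ) := EuclideanSpace ℝ (Fin (m + 1))
/-- pull back of the volume form `v ↦ D(x,v₁,…,vₙ)` by a map `s` -/
noncomputable def J (Dt : (V m) [⋀^Fin (m + 2)]→ₗ[ℝ] ℝ) (s : R m → V m) (ξ : R m) : ℝ :=
  Dt (Fin.cons (s ξ) (fun i => fderiv ℝ s ξ (EuclideanSpace.single i 1)))
/-- a coordinate chart of `Y` -/
structure Dev.Ch (P : Dev κ m Y) where
  x0 : V m
  hx0 : x0 ∈ X κ m
  L : R m →ₗ[ℝ] V m
  inj : Function.Injective L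
  tan : ∀ ξ, Q κ x0 (L ξ) = 0
  r : ℝ
  r_pos : 0 < r
  lt : ∀ ξ ∈ Metric.ball (0 : R m) r, κ * B κ (L ξ) (L ξ) < 1
  e : R m → Y
  cont : ContinuousOn e (Metric.ball 0 r)
  isOpen : IsOpen (e '' Metric.ball 0 r)
  pe : ∀ ξ ∈ Metric.ball (0 : R m) r, P.p (e ξ) = og κ x0 (L ξ)
/-- finite family of charts whose translates cover, with an invariant partition of unity -/
structure ChFam (P : Dev κ m Y) (Γ : Type*) [Group Γ] [MulAction Γ Y] where
  N : ℕ
  c : Fin N → P.Ch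
  χ : Fin N → Y → ℝ
  K : Fin N → Set (R m)
  Kc : ∀ j, IsCompact (K j)
  Ksub : ∀ j, K j ⊆ Metric.ball 0 (c j).r
  sm : ∀ j, P.Sm (χ j)
  nn : ∀ j y, 0 ≤ χ j y
  supp : ∀ j y, y ∉ (c j).e '' K j → χ j y = 0
  disj : ∀ j (γ : Γ), γ ≠ 1 → ∀ y ∈ (c j).e '' Metric.ball 0 (c j).r,
    γ • y ∉ (c j).e '' Metric.ball 0 (c j).r
  sum : ∀ y, ∑ j, ∑ᶠ γ : Γ, χ j (γ • y) = 1
end vldefs

end Pool.Agent.Helper107.LC
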