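import Mathlib
import Pool.Agent.Helper107.LC.Base
set_option autoImplicit false
open Set Filter Topology
open scoped ContDiff

namespace Pool.Agent.Helper107.LC

section afacts
variable {κ : ℝ} {m : ℕ}

private theorem lor_ker3 (a b c a' b' c' : ℝ) : ∃ α β γ : ℝ, ¬(α = 0 ∧ β = 0 ∧ γ = 0) ∧
    α * a + β * b + γ * c = 0 ∧ α * a' + β * b' + γ * c' = 0 := by
  let f : (Fin 3 → ℝ) →ₗ[ℝ] (Fin 2 → ℝ) :=
    Matrix.toLin' !![a, b, c; a', b', c']
  have hf : LinearMap.ker f ≠ ⊥ := by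
    apply LinearMap.ker_ne_bot_of_finrank_lt
    simp
  obtain ⟨z, hz, hz0⟩ := Submodule.exists_mem_ne_zero_of_ne_bot hf
  have h1 : f z = 0 := hz
  have h2 := congrFun h1 0
  have h3 := congrFun h1 1
  simp [f, Matrix.toLin'_apply, Matrix.mulVec, dotProduct, Fin.sum_univ_three] at h2 h3
  refine ⟨z 0, z 1, z 2, ?_, by linarith, by linarith⟩
  rintro ⟨e1, e2, e3⟩
  apply hz0
  funext i
  fin_cases i
  · exact e1
  · exact e2
  · exact e3

private theorem lor_pos (hκ : κ = -1 ∨ κ = 0 ∨ κ = 1) {x t v : V m} (hx : x ∈ X κ m)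
    (ht : Q κ x t = 0) (htt : B κ t t < 0) (hv : Q κ x v = 0) (hvt : B κ v t = 0) (hv0 : v ≠ 0) :
    0 < B κ v v := by
  have hxx : Q κ x x = 1 := hx
  have hsq : ∀ y : V m, B κ y y = -(y.1 * y.1) + ‖y.2.1‖ ^ 2 + κ * (y.2.2 * y.2.2) := by
    intro y
    simp only [B, real_inner_self_eq_norm_sq]
  -- the case of Lorentzian `B`
  have main : (κ = 0 ∧ v.2.2 = 0) ∨ κ = 1 → 0 < B κ v v := by
    intro hk
    have hk0 : 0 ≤ κ := by
      rcases hk with h | h
      · exact h.1.ge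
      · rw [h]; norm_num
    have ht1 : t.1 ≠ 0 := by
      intro h
      rw [hsq, h] at htt
      have h1 : 0 ≤ ‖t.2.1‖ ^ 2 := by positivity
      have h2 : 0 ≤ κ * (t.2.2 * t.2.2) := mul_nonneg hk0 (mul_self_nonneg _)
      linarith
    set w : V m := v.1 • t - t.1 • v with hw
    have hw1 : w.1 = 0 := by
      simp only [hw, Prod.fst_sub, Prod.smul_fst, smul_eq_mul]; ring
    have hww : B κ w w = v.1 ^ 2 * B κ t t + t.1 ^ 2 * B κ v v := by
      rw [hw]
      simp only [B_sub_left, B_sub_right, B_smul_left, B_smul_right, B_comm t v, hvt]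
      ring
    have hww2 : B κ w w = ‖w.2.1‖ ^ 2 + κ * (w.2.2 * w.2.2) := by
      rw [hsq, hw1]; ring
    have hww0 : 0 ≤ B κ w w := by
      rw [hww2]
      have h2 : 0 ≤ κ * (w.2.2 * w.2.2) := mul_nonneg hk0 (mul_self_nonneg _)
      positivity
    have ht2 : 0 < t.1 ^ 2 := by positivity
    have hv1 : 0 ≤ v.1 ^ 2 * (-B κ t t) := mul_nonneg (sq_nonneg _) (by linarith)
    by_contra hcon
    have hcon' : B κ v v ≤ 0 := not_lt.1 hcon
    have h3 : t.1 ^ 2 * B κ v v ≤ 0 := mul_nonpos_of_nonneg_of_nonpos ht2.le hcon'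
    have h4 : v.1 ^ 2 * (-B κ t t) = 0 := by linarith
    have h5 : v.1 = 0 := by
      rcases mul_eq_zero.1 h4 with h | h
      · exact pow_eq_zero_iff (two_ne_zero) |>.1 h
      · linarith
    have h6 : B κ v v = 0 := by
      have h7 : t.1 ^ 2 * B κ v v = 0 := by linarith
      rcases mul_eq_zero.1 h7 with h | h
      · exact absurd h ht2.ne'
      · exact h
    rw [hsq, h5] at h6
    have h8 : 0 ≤ ‖v.2.1‖ ^ 2 := by positivity
    have h9 : 0 ≤ κ * (v.2.2 * v.2.2) := mul_nonneg hk0 (mul_self_nonneg _)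
    have h10 : ‖v.2.1‖ ^ 2 = 0 := by linarith
    have h11 : v.2.1 = 0 := by
      have := pow_eq_zero_iff (two_ne_zero) |>.1 h10
      exact norm_eq_zero.1 this
    have h12 : v.2.2 = 0 := by
      rcases hk with ⟨_, h⟩ | h
      · exact h
      · have h13 : κ * (v.2.2 * v.2.2) = 0 := by linarith
        rw [h, one_mul] at h13
        exact mul_self_eq_zero.1 h13
    apply hv0
    exact Prod.ext h5 (Prod.ext h11 h12)
  rcases hκ with hk | hk | hk
  · -- anti de Sitter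
    subst hk
    have hxB : B (-1) x x = -1 := by
      have := Q_eq_B (κ := (-1:ℝ)) x x
      rw [hxx] at this; linarith
    have hxt : B (-1) x t = 0 := by
      have := Q_eq_B (κ := (-1:ℝ)) x t
      rw [ht] at this; linarith
    have hxv : B (-1) x v = 0 := by
      have := Q_eq_B (κ := (-1:ℝ)) x v
      rw [hv] at this; linarith
    obtain ⟨α, β, γ, hne, h1, h2⟩ := lor_ker3 x.1 t.1 v.1 x.2.2 t.2.2 v.2.2
    set w : V m := α • x + β • t + γ • v with hw
    have hw1 : w.1 = 0 := by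
      simp only [hw, Prod.fst_add, Prod.smul_fst, smul_eq_mul]; exact h1
    have hw2 : w.2.2 = 0 := by
      simp only [hw, Prod.snd_add, Prod.smul_snd, smul_eq_mul]; exact h2
    have hww : B (-1) w w = -α ^ 2 + β ^ 2 * B (-1) t t + γ ^ 2 * B (-1) v v := by
      rw [hw]
      simp only [B_add_left, B_add_right, B_smul_left, B_smul_right, B_comm t v, B_comm t x,
        B_comm v x, hvt, hxt, hxv, hxB]
      ring
    have hww2 : B (-1) w w = ‖w.2.1‖ ^ 2 := by
      rw [hsq, hw1, hw2]; ring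
    by_contra hcon
    have hcon' : B (-1) v v ≤ 0 := not_lt.1 hcon
    have h3 : γ ^ 2 * B (-1) v v ≤ 0 := mul_nonpos_of_nonneg_of_nonpos (sq_nonneg _) hcon'
    have h4 : β ^ 2 * B (-1) t t ≤ 0 := mul_nonpos_of_nonneg_of_nonpos (sq_nonneg _) htt.le
    have h5 : 0 ≤ α ^ 2 := sq_nonneg _
    have h6 : 0 ≤ ‖w.2.1‖ ^ 2 := by positivity
    have hα : α = 0 := by
      have : α ^ 2 = 0 := by linarith
      exact pow_eq_zero_iff (two_ne_zero) |>.1 this
    have hβ : β = 0 := by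
      have : β ^ 2 * B (-1) t t = 0 := by linarith
      rcases mul_eq_zero.1 this with h | h
      · exact pow_eq_zero_iff (two_ne_zero) |>.1 h
      · linarith
    have hγ : γ ≠ 0 := fun h => hne ⟨hα, hβ, h⟩
    have h7 : ‖w.2.1‖ ^ 2 = 0 := by linarith
    have h8 : w.2.1 = 0 := by
      have := pow_eq_zero_iff (two_ne_zero) |>.1 h7
      exact norm_eq_zero.1 this
    have h9 : w = 0 := Prod.ext hw1 (Prod.ext h8 hw2)
    rw [hw, hα, hβ, zero_smul, zero_smul, zero_add, zero_add] at h9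
    rcases smul_eq_zero.1 h9 with h | h
    · exact hγ h
    · exact hv0 h
  · -- Minkowski
    refine main (Or.inl ⟨hk, ?_⟩)
    subst hk
    have hx2 : x.2.2 * x.2.2 = 1 := by simpa [Q] using hxx
    have hv2 : x.2.2 * v.2.2 = 0 := by simpa [Q] using hv
    have : x.2.2 ≠ 0 := by intro h; rw [h] at hx2; norm_num at hx2
    rcases mul_eq_zero.mp hv2 with h | h
    · exact absurd h this
    · exact h
  · exact main (Or.inr hk)

theorem B_nonneg_of_orth (hκ : κ = -1 ∨ κ = 0 ∨ κ = 1) {x t v : V m} (hx : x ∈ X κ m)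
    (ht : Q κ x t = 0) (htt : B κ t t < 0) (hv : Q κ x v = 0) (hvt : B κ v t = 0) :
    0 ≤ B κ v v := by
  by_cases hv0 : v = 0
  · rw [hv0, B_zero_left]
  · exact (lor_pos hκ hx ht htt hv hvt hv0).le

theorem B_pos_of_orth (hκ : κ = -1 ∨ κ = 0 ∨ κ = 1) {x t v : V m} (hx : x ∈ X κ m)
    (ht : Q κ x t = 0) (htt : B κ t t < 0) (hv : Q κ x v = 0) (hvt : B κ v t = 0) (hv0 : v ≠ 0) :
    0 < B κ v v := lor_pos hκ hx ht htt hv hvt hv0

private theorem lor_psd (hκ : κ = -1 ∨ κ = 0 ∨ κ = 1) {x t p q : V m} (hx : x ∈ X κ m)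
    (ht : Q κ x t = 0) (htt : B κ t t < 0) (hp : Q κ x p = 0) (hpt : B κ p t = 0)
    (hq : Q κ x q = 0) (hqt : B κ q t = 0) : (B κ p q) ^ 2 ≤ B κ p p * B κ q q := by
  have h : ∀ r : ℝ, 0 ≤ B κ q q * (r * r) + (2 * B κ p q) * r + B κ p p := by
    intro r
    have h1 := B_nonneg_of_orth hκ hx ht htt (v := p + r • q)
      (by rw [Q_add_right, Q_smul_right, hp, hq]; ring)
      (by rw [B_add_left, B_smul_left, hpt, hqt]; ring)
    simp only [B_add_left, B_add_right, B_smul_left, B_smul_right, B_comm q p] at h1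
    linarith
  have h2 := discrim_le_zero h
  unfold discrim at h2
  nlinarith

/-- the component orthogonal to `t` -/
private theorem lor_split (hκ : κ = -1 ∨ κ = 0 ∨ κ = 1) {x t : V m} (hx : x ∈ X κ m)
    (ht : Q κ x t = 0) (htt : B κ t t = -1) {v w : V m} (hv : Q κ x v = 0) (hw : Q κ x w = 0) :
    Q κ x (v + B κ v t • t) = 0 ∧ B κ (v + B κ v t • t) t = 0 ∧
    B κ (v + B κ v t • t) (w + B κ w t • t) = B κ v w + B κ v t * B κ w t := by
  refine ⟨?_, ?_, ?_⟩
  · rw [Q_add_right, Q_smul_right, hv, ht]; ring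
  · rw [B_add_left, B_smul_left, htt]; ring
  · simp only [B_add_left, B_add_right, B_smul_left, B_smul_right, B_comm t w, htt]
    ring

private theorem lor_nonneg (hκ : κ = -1 ∨ κ = 0 ∨ κ = 1) {x t : V m} (hx : x ∈ X κ m)
    (ht : Q κ x t = 0) (htt : B κ t t = -1) {v : V m} (hv : Q κ x v = 0) :
    0 ≤ B κ v v + B κ v t ^ 2 := by
  obtain ⟨h1, h2, h3⟩ := lor_split hκ hx ht htt hv hv
  have h4 := B_nonneg_of_orth hκ hx ht (by rw [htt]; norm_num) h1 h2
  rw [h3] at h4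
  linarith

private theorem lor_pos' (hκ : κ = -1 ∨ κ = 0 ∨ κ = 1) {x t : V m} (hx : x ∈ X κ m)
    (ht : Q κ x t = 0) (htt : B κ t t = -1) {v : V m} (hv : Q κ x v = 0) (hv0 : v ≠ 0) :
    0 < B κ v v + 2 * B κ v t ^ 2 := by
  obtain ⟨h1, h2, h3⟩ := lor_split hκ hx ht htt hv hv
  by_cases hs : v + B κ v t • t = 0
  · have hb : B κ v t ≠ 0 := by
      intro h
      rw [h, zero_smul, add_zero] at hs
      exact hv0 hs
    have h4 := lor_nonneg hκ hx ht htt hv
    have h5 : 0 < B κ v t ^ 2 := by positivity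
    linarith
  · have h4 := B_pos_of_orth hκ hx ht (by rw [htt]; norm_num) h1 h2 hs
    rw [h3] at h4
    nlinarith [sq_nonneg (B κ v t)]

private theorem lor_N2 {x t v : V m} (hv : Q κ x v = 0) :
    N2 κ x t v = B κ v v + 2 * B κ v t ^ 2 := by
  unfold N2
  rw [tg_of_tan hv, hv]; ring

/-- Cauchy-Schwarz for the positive definite form attached to `(x,t)` -/
theorem CS_N2 (hκ : κ = -1 ∨ κ = 0 ∨ κ = 1) {x t : V m} (hx : x ∈ X κ m)
    (ht : Q κ x t = 0) (htt : B κ t t = -1) {v w : V m} (hv : Q κ x v = 0) (hw : Q κ x w = 0) :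
    (B κ v w) ^ 2 ≤ N2 κ x t v * N2 κ x t w := by
  rw [lor_N2 hv, lor_N2 hw]
  obtain ⟨h1, h2, h3⟩ := lor_split hκ hx ht htt hv hv
  obtain ⟨k1, k2, k3⟩ := lor_split hκ hx ht htt hw hw
  obtain ⟨-, -, l3⟩ := lor_split hκ hx ht htt hv hw
  have htt' : B κ t t < 0 := by rw [htt]; norm_num
  have hpsd := lor_psd hκ hx ht htt' h1 h2 k1 k2
  rw [h3, k3, l3] at hpsd
  have hS := lor_nonneg hκ hx ht htt hv
  have hS' := lor_nonneg hκ hx ht htt hw
  set a := B κ v t
  set a' := B κ w t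
  set σ := B κ v w + a * a' with hσ
  set S := B κ v v + a * a with hSd
  set S' := B κ w w + a' * a' with hSd'
  have e1 : B κ v w = σ - a * a' := by rw [hσ]; ring
  have e2 : B κ v v + 2 * a ^ 2 = S + a ^ 2 := by rw [hSd]; ring
  have e3 : B κ w w + 2 * a' ^ 2 = S' + a' ^ 2 := by rw [hSd']; ring
  have hS0 : 0 ≤ S := by rw [hSd]; nlinarith
  have hS0' : 0 ≤ S' := by rw [hSd']; nlinarith
  rw [e1, e2, e3]
  have h5 : |2 * (a * a' * σ)| ≤ a ^ 2 * S' + a' ^ 2 * S := by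
    apply abs_le_of_sq_le_sq
    · have h6 : (a * a') ^ 2 * σ ^ 2 ≤ (a * a') ^ 2 * (S * S') :=
        mul_le_mul_of_nonneg_left hpsd (sq_nonneg _)
      nlinarith [sq_nonneg (a ^ 2 * S' - a' ^ 2 * S)]
    · positivity
  have h7 := neg_abs_le (2 * (a * a' * σ))
  nlinarith

theorem N2_nonneg (hκ : κ = -1 ∨ κ = 0 ∨ κ = 1) {x t : V m} (hx : x ∈ X κ m)
    (ht : Q κ x t = 0) (htt : B κ t t = -1) (w : V m) : 0 ≤ N2 κ x t w := by
  unfold N2
  have h1 := lor_nonneg hκ hx ht htt (Q_tg hx w)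
  nlinarith [sq_nonneg (B κ (tg κ x w) t), sq_nonneg (Q κ x w)]

theorem N2_pos (hκ : κ = -1 ∨ κ = 0 ∨ κ = 1) {x t : V m} (hx : x ∈ X κ m)
    (ht : Q κ x t = 0) (htt : B κ t t = -1) {w : V m} (hw : w ≠ 0) : 0 < N2 κ x t w := by
  unfold N2
  by_cases h : tg κ x w = 0
  · have h1 : Q κ x w ≠ 0 := by
      intro h2
      apply hw
      have h3 := tg_add_normal (κ := κ) x w
      rw [h, h2, zero_smul, add_zero] at h3
      exact h3.symm
    rw [h, B_zero_left, B_zero_left]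
    have : 0 < Q κ x w ^ 2 := by positivity
    linarith
  · have h1 := lor_pos' hκ hx ht htt (Q_tg hx w) h
    have h2 := sq_nonneg (Q κ x w)
    linarith

/-- unit timelike vectors have `|B| ≥ 1` -/
theorem one_le_sq_B (hκ : κ = -1 ∨ κ = 0 ∨ κ = 1) {x t u : V m} (hx : x ∈ X κ m)
    (ht : Q κ x t = 0) (htt : B κ t t = -1) (hu : Q κ x u = 0) (huu : B κ u u = -1) :
    1 ≤ (B κ u t) ^ 2 := by
  have h1 := lor_nonneg hκ hx ht htt hu
  rw [huu] at h1
  linarith

/-- a timelike and a nonzero null vector are never orthogonal -/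
theorem timelike_null_ne (hκ : κ = -1 ∨ κ = 0 ∨ κ = 1) {x t a : V m} (hx : x ∈ X κ m)
    (ht : Q κ x t = 0) (htt : B κ t t < 0) (ha : Q κ x a = 0) (haa : B κ a a = 0) (ha0 : a ≠ 0) :
    B κ a t ≠ 0 := by
  intro h
  have := B_pos_of_orth hκ hx ht htt ha h ha0
  rw [haa] at this
  exact lt_irrefl _ this

/-- two orthogonal null vectors are parallel -/
theorem null_null_par (hκ : κ = -1 ∨ κ = 0 ∨ κ = 1) {x t a b : V m} (hx : x ∈ X κ m)
    (ht : Q κ x t = 0) (htt : B κ t t < 0) (ha : Q κ x a = 0) (haa : B κ a a = 0) (ha0 : a ≠ 0)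
    (hb : Q κ x b = 0) (hbb : B κ b b = 0) (hab : B κ a b = 0) : ∃ c : ℝ, b = c • a := by
  have h1 := timelike_null_ne hκ hx ht htt ha haa ha0
  refine ⟨B κ b t / B κ a t, ?_⟩
  by_contra hne
  have hd0 : b - (B κ b t / B κ a t) • a ≠ 0 := sub_ne_zero.2 hne
  have h2 : Q κ x (b - (B κ b t / B κ a t) • a) = 0 := by
    rw [Q_sub_right, Q_smul_right, ha, hb]; ring
  have h3 : B κ (b - (B κ b t / B κ a t) • a) t = 0 := by
    rw [B_sub_left, B_smul_left]; field_simp; ring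
  have h4 := B_pos_of_orth hκ hx ht htt h2 h3 hd0
  have h5 : B κ (b - (B κ b t / B κ a t) • a) (b - (B κ b t / B κ a t) • a) = 0 := by
    simp only [B_sub_left, B_sub_right, B_smul_left, B_smul_right, B_comm b a, haa, hbb, hab]
    ring
  rw [h5] at h4
  exact lt_irrefl _ h4

/-- transitivity of the same time cone -/
theorem fut_trans (hκ : κ = -1 ∨ κ = 0 ∨ κ = 1) {x t u s : V m} (hx : x ∈ X κ m)
    (ht : Q κ x t = 0) (htt : B κ t t < 0) (hu : Q κ x u = 0) (huu : B κ u u < 0)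
    (hs : Q κ x s = 0) (hss : B κ s s < 0) (hut : B κ u t < 0) (hst : B κ s t < 0) :
    B κ u s < 0 := by
  set τ := B κ t t with hτ
  set α := B κ u t / τ with hα
  set β := B κ s t / τ with hβ
  have hα0 : 0 < α := div_pos_of_neg_of_neg hut htt
  have hβ0 : 0 < β := div_pos_of_neg_of_neg hst htt
  have hut' : B κ u t = α * τ := by rw [hα, div_mul_cancel₀ _ htt.ne]
  have hst' : B κ s t = β * τ := by rw [hβ, div_mul_cancel₀ _ htt.ne]
  have p1 : Q κ x (u - α • t) = 0 := by rw [Q_sub_right, Q_smul_right, hu, ht]; ring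
  have q1 : Q κ x (s - β • t) = 0 := by rw [Q_sub_right, Q_smul_right, hs, ht]; ring
  have p2 : B κ (u - α • t) t = 0 := by rw [B_sub_left, B_smul_left, hut', ← hτ]; ring
  have q2 : B κ (s - β • t) t = 0 := by rw [B_sub_left, B_smul_left, hst', ← hτ]; ring
  have hpsd := lor_psd hκ hx ht htt p1 p2 q1 q2
  have hpp := B_nonneg_of_orth hκ hx ht htt p1 p2
  have hqq := B_nonneg_of_orth hκ hx ht htt q1 q2
  have e1 : B κ (u - α • t) (u - α • t) = B κ u u - α ^ 2 * τ := by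
    simp only [B_sub_left, B_sub_right, B_smul_left, B_smul_right, B_comm t u, hut', ← hτ]
    ring
  have e2 : B κ (s - β • t) (s - β • t) = B κ s s - β ^ 2 * τ := by
    simp only [B_sub_left, B_sub_right, B_smul_left, B_smul_right, B_comm t s, hst', ← hτ]
    ring
  have e3 : B κ (u - α • t) (s - β • t) = B κ u s - α * β * τ := by
    simp only [B_sub_left, B_sub_right, B_smul_left, B_smul_right, B_comm t s, hst', hut', ← hτ]
    ring
  rw [e1, e2, e3] at hpsd
  rw [e1] at hpp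
  rw [e2] at hqq
  have h1 : B κ u u - α ^ 2 * τ < α ^ 2 * (-τ) := by linarith
  have h2 : B κ s s - β ^ 2 * τ < β ^ 2 * (-τ) := by linarith
  have h3 : 0 < β ^ 2 * (-τ) := mul_pos (by positivity) (by linarith)
  have h4 : (B κ u u - α ^ 2 * τ) * (B κ s s - β ^ 2 * τ) < (α ^ 2 * (-τ)) * (β ^ 2 * (-τ)) :=
    lt_of_le_of_lt (mul_le_mul_of_nonneg_left h2.le hpp) (mul_lt_mul_of_pos_right h1 h3)
  have h5 : (B κ u s - α * β * τ) ^ 2 < (α * β * (-τ)) ^ 2 := by
    refine lt_of_le_of_lt hpsd (h4.trans_eq ?_)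
    ring
  have h6 : 0 ≤ α * β * (-τ) := mul_nonneg (mul_pos hα0 hβ0).le (by linarith)
  have h7 := abs_lt_of_sq_lt_sq h5 h6
  have h8 := (abs_lt.1 h7).2
  linarith
end afacts

end Pool.Agent.Helper107.LC
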