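import Mathlib
import Pool.Agent.Helper107.LC.Afacts
set_option autoImplicit false
open Set Filter Topology
open scoped ContDiff

namespace Pool.Agent.Helper107.LC

section dlem
variable {κ : ℝ} {m : ℕ} {Y : Type*} [TopologicalSpace Y]

/-- local lifting of paths -/
theorem Dev.exists_local_lift (P : Dev κ m Y) (y : Y) (g : ℝ → V m) (t0 : ℝ)
    (hg : ContinuousAt g t0) (hgc : ∀ᶠ t in 𝓝 t0, ContinuousAt g t) (hgX : ∀ᶠ t in 𝓝 t0, g t ∈ X κ m)
    (h0 : g t0 = P.p y) :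
    ∃ δ > 0, ∃ c : ℝ → Y, ContinuousOn c (Ioo (t0 - δ) (t0 + δ)) ∧ c t0 = y ∧
      ∀ t ∈ Ioo (t0 - δ) (t0 + δ), P.p (c t) = g t := by
  classical
  obtain ⟨e, hy, he⟩ := P.lh y
  obtain ⟨d1, hd1, h1⟩ := Metric.eventually_nhds_iff.mp (hgc.and hgX)
  set g1 : ℝ → X κ m := fun t => if h : g t ∈ X κ m then ⟨g t, h⟩ else ⟨P.p y, P.mem y⟩ with hg1
  have hv1 : ∀ t, dist t t0 < d1 → (g1 t : V m) = g t := by
    intro t ht
    rw [hg1]; simp only
    rw [dif_pos (h1 ht).2]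
  have hcg1 : ∀ t, dist t t0 < d1 → ContinuousAt g1 t := by
    intro t ht
    rw [Topology.IsInducing.subtypeVal.continuousAt_iff]
    have h2 : (Subtype.val ∘ g1) =ᶠ[𝓝 t] g := by
      have : {s : ℝ | dist s t0 < d1} ∈ 𝓝 t := Metric.isOpen_ball.mem_nhds ht
      filter_upwards [this] with s hs
      exact hv1 s hs
    exact (h1 ht).1.congr h2.symm
  have ht00 : dist t0 t0 < d1 := by simpa using hd1
  have hg10 : g1 t0 = e y := by
    rw [← he]
    apply Subtype.ext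
    rw [hv1 t0 ht00, h0]
  have htar : g1 t0 ∈ e.target := by rw [hg10]; exact e.map_source hy
  have h3 : ∀ᶠ t in 𝓝 t0, g1 t ∈ e.target := (hcg1 t0 ht00) (e.open_target.mem_nhds htar)
  obtain ⟨d2, hd2, h4⟩ := Metric.eventually_nhds_iff.mp h3
  refine ⟨min d1 d2, lt_min hd1 hd2, fun t => e.symm (g1 t), ?_, ?_, ?_⟩
  · have hmem : ∀ t ∈ Ioo (t0 - min d1 d2) (t0 + min d1 d2), dist t t0 < d1 ∧ dist t t0 < d2 := by
      intro t ht
      rw [← Real.ball_eq_Ioo, Metric.mem_ball] at ht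
      exact ⟨lt_of_lt_of_le ht (min_le_left _ _), lt_of_lt_of_le ht (min_le_right _ _)⟩
    apply e.continuousOn_symm.comp
    · intro t ht
      exact (hcg1 t (hmem t ht).1).continuousWithinAt
    · intro t ht
      exact h4 (hmem t ht).2
  · simp only
    rw [hg10, e.left_inv hy]
  · intro t ht
    rw [← Real.ball_eq_Ioo, Metric.mem_ball] at ht
    have t1 : dist t t0 < d1 := lt_of_lt_of_le ht (min_le_left _ _)
    have t2 : dist t t0 < d2 := lt_of_lt_of_le ht (min_le_right _ _)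
    have h5 : e (e.symm (g1 t)) = g1 t := e.right_inv (h4 t2)
    have h6 : (⟨P.p (e.symm (g1 t)), P.mem _⟩ : X κ m) = e (e.symm (g1 t)) := by
      rw [← he]
    have h7 : P.p (e.symm (g1 t)) = (e (e.symm (g1 t)) : V m) := by rw [← h6]
    simp only
    rw [h7, h5, hv1 t t1]

theorem exists_curve_aux (hκ : κ = -1 ∨ κ = 0 ∨ κ = 1) (P : Dev κ m Y) (y : Y) (v : V m)
    (hv : Q κ (P.p y) v = 0) :
    ∃ c : ℝ → Y, ContinuousAt c 0 ∧ c 0 = y ∧ HasDerivAt (P.p ∘ c) v 0 := by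
  set g : ℝ → V m := fun t => Real.sqrt (1 - κ * (t ^ 2 * B κ v v)) • P.p y + t • v with hg
  have hgcont : Continuous g := by
    rw [hg]
    exact ((by fun_prop : Continuous fun t : ℝ => Real.sqrt (1 - κ * (t ^ 2 * B κ v v))).smul
      continuous_const).add (continuous_id.smul continuous_const)
  have hev : ∀ᶠ t in 𝓝 (0:ℝ), 0 < 1 - κ * (t ^ 2 * B κ v v) := by
    have hc : ContinuousAt (fun t : ℝ => 1 - κ * (t ^ 2 * B κ v v)) 0 := by fun_prop
    have h0 : (0:ℝ) < 1 - κ * ((0:ℝ) ^ 2 * B κ v v) := by simp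
    exact hc.eventually (lt_mem_nhds h0)
  have hgX : ∀ᶠ t in 𝓝 (0:ℝ), g t ∈ X κ m := by
    filter_upwards [hev] with t ht
    have hp : Q κ (P.p y) (P.p y) = 1 := P.mem y
    have hvv := Q_tan hκ (P.mem y) hv v hv
    show Q κ (g t) (g t) = 1
    rw [hg]
    simp only [Q_add_left, Q_add_right, Q_smul_left, Q_smul_right, Q_comm v (P.p y), hv, hp, hvv]
    have hs := Real.mul_self_sqrt ht.le
    nlinarith
  have hg0 : g 0 = P.p y := by rw [hg]; simp
  obtain ⟨δ, hδ, c, hc1, hc2, hc3⟩ := P.exists_local_lift y g 0 hgcont.continuousAt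
    (Filter.Eventually.of_forall fun t => hgcont.continuousAt) hgX hg0
  have hnh : Ioo (0 - δ) (0 + δ) ∈ 𝓝 (0:ℝ) := Ioo_mem_nhds (by linarith) (by linarith)
  refine ⟨c, hc1.continuousAt hnh, hc2, ?_⟩
  have hE : (P.p ∘ c) =ᶠ[𝓝 0] g := by
    filter_upwards [hnh] with t ht
    exact hc3 t ht
  refine HasDerivAt.congr_of_eventuallyEq ?_ hE
  have hd1 : HasDerivAt (fun t : ℝ => 1 - κ * (t ^ 2 * B κ v v)) 0 0 := by
    have h := (((hasDerivAt_pow 2 (0:ℝ)).mul_const (B κ v v)).const_mul κ).const_sub 1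
    simpa using h
  have hd2 : HasDerivAt (fun t : ℝ => Real.sqrt (1 - κ * (t ^ 2 * B κ v v))) 0 0 := by
    have h := hd1.sqrt (by simp)
    simpa using h
  have hd3 := (hd2.smul_const (P.p y)).add ((hasDerivAt_id (0:ℝ)).smul_const v)
  have hd4 : HasDerivAt g ((0:ℝ) • P.p y + (1:ℝ) • v) 0 := hd3
  simpa using hd4

/-- the derivative of a smooth map does not depend on the local representative -/
theorem Dev.d_eq (hκ : κ = -1 ∨ κ = 0 ∨ κ = 1) (P : Dev κ m Y) {W : Type*} [NormedAddCommGroup W]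
    [NormedSpace ℝ W] (F : Y → W) (y : Y) (G : V m → W) (hG : ContDiff ℝ ∞ G)
    (h : ∀ᶠ y' in 𝓝 y, F y' = G (P.p y')) (v : V m) (hv : Q κ (P.p y) v = 0) :
    P.d F y v = fderiv ℝ G (P.p y) v := by
  have hex : ∃ G : V m → W, ContDiff ℝ ∞ G ∧ ∀ᶠ y' in 𝓝 y, F y' = G (P.p y') := ⟨G, hG, h⟩
  unfold Dev.d
  rw [dif_pos hex]
  obtain ⟨h1, h2⟩ := hex.choose_spec
  set G0 := hex.choose with hG0
  obtain ⟨c, hc1, hc2, hc3⟩ := exists_curve_aux hκ P y v hv
  have e0 : (P.p ∘ c) 0 = P.p y := by simp [hc2]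
  have hd0 : HasFDerivAt G0 (fderiv ℝ G0 (P.p y)) ((P.p ∘ c) 0) := by
    rw [e0]
    exact (h1.differentiable (by simp)).differentiableAt.hasFDerivAt
  have hd1 : HasFDerivAt G (fderiv ℝ G (P.p y)) ((P.p ∘ c) 0) := by
    rw [e0]
    exact (hG.differentiable (by simp)).differentiableAt.hasFDerivAt
  have k0 := hd0.comp_hasDerivAt 0 hc3
  have k1 := hd1.comp_hasDerivAt 0 hc3
  have hE : (G ∘ (P.p ∘ c)) =ᶠ[𝓝 0] (G0 ∘ (P.p ∘ c)) := by
    rw [ContinuousAt, hc2] at hc1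
    filter_upwards [hc1.eventually h, hc1.eventually h2] with t ht1 ht2
    simp only [Function.comp]
    rw [← ht1, ← ht2]
  exact (k0.congr_of_eventuallyEq hE).unique k1

theorem Dev.continuous_p (P : Dev κ m Y) : Continuous P.p := by
  exact continuous_subtype_val.comp P.lh.continuous

theorem Dev.Sm.continuous {P : Dev κ m Y} {W : Type*} [NormedAddCommGroup W]
    [NormedSpace ℝ W] {F : Y → W} (hF : P.Sm F) : Continuous F := by
  rw [continuous_iff_continuousAt]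
  intro y
  obtain ⟨G, hG, h⟩ := hF y
  have h1 : ContinuousAt (fun y' => G (P.p y')) y :=
    (hG.continuous.comp P.continuous_p).continuousAt
  refine h1.congr ?_
  filter_upwards [h] with y' hy'
  exact hy'.symm

/-- chain rule along curves -/
theorem Dev.hasDerivAt_comp (P : Dev κ m Y) {W : Type*} [NormedAddCommGroup W]
    [NormedSpace ℝ W] {F : Y → W} (hF : P.Sm F) (c : ℝ → Y) (t : ℝ) (hc : ContinuousAt c t)
    (x' : V m) (hx : HasDerivAt (P.p ∘ c) x' t) : HasDerivAt (F ∘ c) (P.d F (c t) x') t := by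
  have hex := hF (c t)
  unfold Dev.d
  rw [dif_pos hex]
  obtain ⟨h1, h2⟩ := hex.choose_spec
  set G0 := hex.choose with hG0
  have hd0 : HasFDerivAt G0 (fderiv ℝ G0 (P.p (c t))) ((P.p ∘ c) t) :=
    (h1.differentiable (by simp)).differentiableAt.hasFDerivAt
  have k0 := hd0.comp_hasDerivAt t hx
  refine k0.congr_of_eventuallyEq ?_
  have hc' : Tendsto c (𝓝 t) (𝓝 (c t)) := hc
  filter_upwards [hc'.eventually h2] with s hs
  exact hs

/-- velocities of curves in the model space are tangent -/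
theorem tangent_of_hasDerivAt (x : ℝ → V m) (t : ℝ) (x' : V m)
    (hx : ∀ᶠ s in 𝓝 t, x s ∈ X κ m) (h : HasDerivAt x x' t) : Q κ (x t) x' = 0 := by
  have a1 : HasDerivAt (fun s => (x s).1) x'.1 t :=
    (ContinuousLinearMap.fst ℝ ℝ (E m × ℝ)).hasFDerivAt.comp_hasDerivAt t h
  have a2 : HasDerivAt (fun s => (x s).2) x'.2 t :=
    (ContinuousLinearMap.snd ℝ ℝ (E m × ℝ)).hasFDerivAt.comp_hasDerivAt t h
  have a3 : HasDerivAt (fun s => (x s).2.1) x'.2.1 t :=
    (ContinuousLinearMap.fst ℝ (E m) ℝ).hasFDerivAt.comp_hasDerivAt t a2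
  have a4 : HasDerivAt (fun s => (x s).2.2) x'.2.2 t :=
    (ContinuousLinearMap.snd ℝ (E m) ℝ).hasFDerivAt.comp_hasDerivAt t a2
  have b1 := ((((a1.mul a1).neg).add (a3.inner ℝ a3)).const_mul κ).add (a4.mul a4)
  have b2 : HasDerivAt (fun s => Q κ (x s) (x s)) (κ * (-(x'.1 * (x t).1 + (x t).1 * x'.1) +
      (inner ℝ (x t).2.1 x'.2.1 + inner ℝ x'.2.1 (x t).2.1)) +
      (x'.2.2 * (x t).2.2 + (x t).2.2 * x'.2.2)) t := b1
  have b3 : HasDerivAt (fun s => Q κ (x s) (x s)) 0 t := by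
    refine (hasDerivAt_const t (1:ℝ)).congr_of_eventuallyEq ?_
    filter_upwards [hx] with s hs
    exact hs
  have b4 := b2.unique b3
  rw [real_inner_comm (x t).2.1 x'.2.1] at b4
  have e : Q κ (x t) x' = κ * (-((x t).1 * x'.1) + inner ℝ (x t).2.1 x'.2.1) +
    (x t).2.2 * x'.2.2 := rfl
  rw [e]
  linarith

/-- invariance of the derivative under the holonomy -/
theorem Dev.d_smul (hκ : κ = -1 ∨ κ = 0 ∨ κ = 1) (P : Dev κ m Y) {Γ : Type*} [Group Γ]
    [MulAction Γ Y] [ContinuousConstSMul Γ Y] (H : Hol P Γ) {W : Type*} [NormedAddCommGroup W]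
    [NormedSpace ℝ W] {F : Y → W} (hF : P.Sm F) (L : W →L[ℝ] W) (γ : Γ)
    (hL : ∀ y, F (γ • y) = L (F y)) (y : Y) (v : V m) (hv : Q κ (P.p y) v = 0) :
    P.d F (γ • y) (H.ρ γ v) = L (P.d F y v) := by
  obtain ⟨c, hc1, hc2, hc3⟩ := exists_curve_aux hκ P y v hv
  have k1 := P.hasDerivAt_comp hF c 0 hc1 v hc3
  have hc1' : ContinuousAt (fun t => γ • c t) 0 := hc1.const_smul γ
  have hR : HasFDerivAt (fun w => H.ρ γ w) (LinearMap.toContinuousLinearMap (H.ρ γ : V m →ₗ[ℝ] V m))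
      ((P.p ∘ c) 0) := (LinearMap.toContinuousLinearMap (H.ρ γ : V m →ₗ[ℝ] V m)).hasFDerivAt
  have hc3' : HasDerivAt (P.p ∘ (fun t => γ • c t)) (H.ρ γ v) 0 := by
    have h1 := hR.comp_hasDerivAt 0 hc3
    have e : (P.p ∘ (fun t => γ • c t)) = (fun w => H.ρ γ w) ∘ (P.p ∘ c) := by
      ext1 t; exact H.eqv γ (c t)
    rw [e]
    exact h1
  have k2 := P.hasDerivAt_comp hF (fun t => γ • c t) 0 hc1' _ hc3'
  have k3 := L.hasFDerivAt.comp_hasDerivAt 0 k1
  have e : F ∘ (fun t => γ • c t) = L ∘ (F ∘ c) := by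
    ext1 t; exact hL (c t)
  rw [e] at k2
  have k4 := k2.unique k3
  simp only [hc2] at k4
  exact k4
end dlem

end Pool.Agent.Helper107.LC
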