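import Mathlib
import Pool.Agent.Helper107.LC.Dlem
set_option autoImplicit false
open Set Filter Topology
open scoped ContDiff

namespace Pool.Agent.Helper107.LC

section topo
variable {κ : ℝ} {m : ℕ} {Y : Type*} [TopologicalSpace Y]

theorem Dev.lift_unique [T2Space Y] (P : Dev κ m Y) {S : Set ℝ} (hS : IsPreconnected S)
    {σ₁ σ₂ : ℝ → Y} (h1 : ContinuousOn σ₁ S) (h2 : ContinuousOn σ₂ S)
    (h : ∀ t ∈ S, P.p (σ₁ t) = P.p (σ₂ t)) {t0 : ℝ} (ht0 : t0 ∈ S) (h0 : σ₁ t0 = σ₂ t0) :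
    EqOn σ₁ σ₂ S :=
  (T2Space.isSeparatedMap (fun y => (⟨P.p y, P.mem y⟩ : X κ m))).eqOn_of_comp_eqOn
    P.lh.isLocallyInjective hS h1 h2 (fun t ht => Subtype.ext (h t ht)) ht0 h0

theorem lift_glue {Y : Type*} [TopologicalSpace Y] {a t' b' : ℝ} {σ c : ℝ → Y}
    (h1 : ContinuousOn σ (Icc a t')) (h2 : ContinuousOn c (Icc t' b')) (h : σ t' = c t') :
    ContinuousOn (fun t => if t ≤ t' then σ t else c t) (Icc a b') := by
  have e1 : ContinuousOn (fun t => if t ≤ t' then σ t else c t) (Icc a t') := by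
    refine h1.congr ?_
    intro t ht
    simp only [if_pos ht.2]
  have e2 : ContinuousOn (fun t => if t ≤ t' then σ t else c t) (Icc t' b') := by
    refine h2.congr ?_
    intro t ht
    by_cases htt : t ≤ t'
    · have : t = t' := le_antisymm htt ht.1
      simp only [if_pos htt]
      rw [this, h]
    · simp only [if_neg htt]
  refine (e1.union_of_isClosed e2 isClosed_Icc isClosed_Icc).mono ?_
  intro t ht
  by_cases htt : t ≤ t'
  · exact Or.inl ⟨ht.1, htt⟩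
  · exact Or.inr ⟨(not_le.mp htt).le, ht.2⟩

/-- a lift that converges at the right end extends past it -/
theorem Dev.ext_lim [T2Space Y] (P : Dev κ m Y) (g : ℝ → V m) (hg : Continuous g)
    (hgX : ∀ t, g t ∈ X κ m) {a b : ℝ} (hab : a < b) (σ : ℝ → Y)
    (hσ : ContinuousOn σ (Ico a b)) (hl : ∀ t ∈ Ico a b, P.p (σ t) = g t) {y₁ : Y}
    (hlim : Tendsto σ (𝓝[<] b) (𝓝 y₁)) :
    ∃ δ > 0, ∃ c : ℝ → Y, ContinuousOn c (Ioo (b - δ) (b + δ)) ∧ c b = y₁ ∧
      (∀ t ∈ Ioo (b - δ) (b + δ), P.p (c t) = g t) ∧ ∀ t ∈ Ioo (max a (b - δ)) b, σ t = c t := by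
  have hp : P.p y₁ = g b := by
    have e1 : Tendsto (fun t => P.p (σ t)) (𝓝[<] b) (𝓝 (P.p y₁)) :=
      (P.continuous_p.tendsto y₁).comp hlim
    have e2 : Tendsto (fun t => P.p (σ t)) (𝓝[<] b) (𝓝 (g b)) := by
      have e3 : Tendsto g (𝓝[<] b) (𝓝 (g b)) := hg.continuousAt.tendsto.mono_left nhdsWithin_le_nhds
      refine e3.congr' ?_
      filter_upwards [Ico_mem_nhdsLT hab] with t ht
      exact (hl t ht).symm
    exact tendsto_nhds_unique e1 e2
  obtain ⟨δ, hδ, c, hc1, hc2, hc3⟩ := P.exists_local_lift y₁ g b hg.continuousAt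
    (Eventually.of_forall fun t => hg.continuousAt) (Eventually.of_forall hgX) hp.symm
  refine ⟨δ, hδ, c, hc1, hc2, hc3, ?_⟩
  obtain ⟨U, hUo, hyU, hinj⟩ := P.lh.isLocallyInjective y₁
  have ev1 : ∀ᶠ t in 𝓝[<] b, σ t ∈ U := hlim (hUo.mem_nhds hyU)
  have hcb : ContinuousAt c b := hc1.continuousAt (Ioo_mem_nhds (by linarith) (by linarith))
  have ev2 : ∀ᶠ t in 𝓝[<] b, c t ∈ U := by
    have : Tendsto c (𝓝[<] b) (𝓝 y₁) := by
      rw [← hc2]
      exact hcb.tendsto.mono_left nhdsWithin_le_nhds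
    exact this (hUo.mem_nhds hyU)
  have hmx : max a (b - δ) < b := max_lt hab (by linarith)
  have ev3 : ∀ᶠ t in 𝓝[<] b, t ∈ Ioo (max a (b - δ)) b := Ioo_mem_nhdsLT hmx
  obtain ⟨t', h1, h2, h3⟩ := (ev1.and (ev2.and ev3)).exists
  have hsub1 : ∀ t ∈ Ioo (max a (b - δ)) b, t ∈ Ico a b := fun t ht =>
    ⟨(le_max_left _ _).trans ht.1.le, ht.2⟩
  have hsub2 : ∀ t ∈ Ioo (max a (b - δ)) b, t ∈ Ioo (b - δ) (b + δ) := fun t ht =>
    ⟨lt_of_le_of_lt (le_max_right _ _) ht.1, by linarith [ht.2]⟩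
  have heq : σ t' = c t' := by
    apply hinj h1 h2
    apply Subtype.ext
    show P.p (σ t') = P.p (c t')
    rw [hl t' (hsub1 t' h3), hc3 t' (hsub2 t' h3)]
  exact P.lift_unique (S := Ioo (max a (b - δ)) b) isPreconnected_Ioo (hσ.mono hsub1)
    (hc1.mono hsub2) (fun t ht => by rw [hl t (hsub1 t ht), hc3 t (hsub2 t ht)]) h3 heq

theorem Dev.lift_further_aux [T2Space Y] (P : Dev κ m Y) (y : Y) (g : ℝ → V m) (hg : Continuous g)
    (hgX : ∀ t, g t ∈ X κ m) {b : ℝ} (hb : 0 ≤ b) (h : P.LiftsTo y g b) :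
    ∃ b' > b, P.LiftsTo y g b' := by
  obtain ⟨σ, h1, h2, h3⟩ := h
  obtain ⟨δ, hδ, c, hc1, hc2, hc3⟩ := P.exists_local_lift (σ b) g b hg.continuousAt
    (Eventually.of_forall fun t => hg.continuousAt) (Eventually.of_forall hgX)
    (h3 b (right_mem_Icc.mpr hb)).symm
  refine ⟨b + δ / 2, by linarith, fun t => if t ≤ b then σ t else c t, ?_, ?_, ?_⟩
  · exact lift_glue h1 (hc1.mono (fun t ht => ⟨by linarith [ht.1], by linarith [ht.2]⟩)) hc2.symm
  · simp only [if_pos hb, h2]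
  · intro t ht
    by_cases htb : t ≤ b
    · simp only [if_pos htb]
      exact h3 t ⟨ht.1, htb⟩
    · simp only [if_neg htb]
      exact hc3 t ⟨by linarith [not_le.mp htb], by linarith [ht.2]⟩

/-- either a path lifts for all times, or there is a maximal lift that does not converge -/
theorem Dev.lift_dichotomy [T2Space Y] (P : Dev κ m Y) (y : Y) (g : ℝ → V m) (hg : Continuous g)
    (hgX : ∀ t, g t ∈ X κ m) (h0 : g 0 = P.p y) :
    (∀ b ≥ 0, P.LiftsTo y g b) ∨ ∃ b > 0, ∃ σ : ℝ → Y, ContinuousOn σ (Ico 0 b) ∧ σ 0 = y ∧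
      (∀ t ∈ Ico 0 b, P.p (σ t) = g t) ∧ ¬ ∃ y₁, Tendsto σ (𝓝[<] b) (𝓝 y₁) := by
  by_cases hall : ∀ b ≥ 0, P.LiftsTo y g b
  · exact Or.inl hall
  right
  push Not at hall
  obtain ⟨b1, hb1, hnb1⟩ := hall
  have hdown : ∀ b b', 0 ≤ b → b ≤ b' → P.LiftsTo y g b' → P.LiftsTo y g b := by
    rintro b b' hb hbb ⟨σ, h1, h2, h3⟩
    exact ⟨σ, h1.mono (Icc_subset_Icc_right hbb), h2, fun t ht => h3 t ⟨ht.1, ht.2.trans hbb⟩⟩
  have hzero : P.LiftsTo y g 0 := ⟨fun _ => y, continuousOn_const, rfl, fun t ht => by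
    have : t = 0 := le_antisymm ht.2 ht.1
    rw [this, h0]⟩
  obtain ⟨b2, hb2, hl2⟩ := P.lift_further_aux y g hg hgX le_rfl hzero
  obtain ⟨S, hS⟩ : ∃ S : Set ℝ, S = {b | 0 ≤ b ∧ P.LiftsTo y g b} := ⟨_, rfl⟩
  have hSm : ∀ b, b ∈ S ↔ 0 ≤ b ∧ P.LiftsTo y g b := by intro b; rw [hS]; rfl
  have hSb : BddAbove S := ⟨b1, fun b hb => by
    by_contra hcon
    push Not at hcon
    exact hnb1 (hdown b1 b hb1 hcon.le ((hSm b).mp hb).2)⟩
  have hSne : S.Nonempty := ⟨0, (hSm 0).mpr ⟨le_rfl, hzero⟩⟩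
  obtain ⟨b, hb⟩ : ∃ b, b = sSup S := ⟨_, rfl⟩
  have hble : ∀ b' ∈ S, b' ≤ b := fun b' hb' => hb ▸ le_csSup hSb hb'
  have hb0 : 0 < b := lt_of_lt_of_le hb2 (hble b2 ((hSm b2).mpr ⟨(show (0:ℝ) < b2 from hb2).le, hl2⟩))
  have hlt : ∀ t < b, ∃ b' ∈ S, t < b' := fun t ht => exists_lt_of_lt_csSup hSne (hb ▸ ht)
  have hch : ∀ b' : ℝ, ∃ σ : ℝ → Y, b' ∈ S →
      ContinuousOn σ (Icc 0 b') ∧ σ 0 = y ∧ ∀ t ∈ Icc 0 b', P.p (σ t) = g t := by
    intro b'
    by_cases h : b' ∈ S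
    · obtain ⟨σ, h1, h2, h3⟩ := ((hSm b').mp h).2
      exact ⟨σ, fun _ => ⟨h1, h2, h3⟩⟩
    · exact ⟨fun _ => y, fun h' => absurd h' h⟩
  choose L hL using hch
  have hagree : ∀ b' ∈ S, ∀ b'' ∈ S, ∀ t, 0 ≤ t → t ≤ b' → t ≤ b'' → L b' t = L b'' t := by
    intro b' hb' b'' hb'' t ht h1 h2
    obtain ⟨a1, a2, a3⟩ := hL b' hb'
    obtain ⟨c1, c2, c3⟩ := hL b'' hb''
    have := P.lift_unique (S := Icc 0 t) isPreconnected_Icc (a1.mono (Icc_subset_Icc_right h1))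
      (c1.mono (Icc_subset_Icc_right h2))
      (fun r hr => by rw [a3 r ⟨hr.1, hr.2.trans h1⟩, c3 r ⟨hr.1, hr.2.trans h2⟩])
      (left_mem_Icc.mpr ht) (by rw [a2, c2])
    exact this (right_mem_Icc.mpr ht)
  have hpick : ∀ t : ℝ, ∃ b' : ℝ, t < b → b' ∈ S ∧ t < b' := by
    intro t
    by_cases h : t < b
    · obtain ⟨b', h1, h2⟩ := hlt t h
      exact ⟨b', fun _ => ⟨h1, h2⟩⟩
    · exact ⟨0, fun h' => absurd h' h⟩
  choose β hβ using hpick
  have hσeq : ∀ b' ∈ S, ∀ t, 0 ≤ t → t ≤ b' → t < b → L (β t) t = L b' t :=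
    fun b' hb' t h1 h2 h3 => hagree _ (hβ t h3).1 b' hb' t h1 (hβ t h3).2.le h2
  have hσl : ∀ t ∈ Ico 0 b, P.p (L (β t) t) = g t := by
    intro t ht
    obtain ⟨h1, h2⟩ := hβ t ht.2
    exact (hL _ h1).2.2 t ⟨ht.1, h2.le⟩
  have hσc : ContinuousOn (fun t => L (β t) t) (Ico 0 b) := by
    intro t ht
    obtain ⟨b', hb'S, htb'⟩ := hlt t ht.2
    have hmem : Icc 0 b' ∈ 𝓝[Ico 0 b] t := by
      have : Ico 0 b ∩ Iio b' ∈ 𝓝[Ico 0 b] t :=
        inter_mem self_mem_nhdsWithin (mem_nhdsWithin_of_mem_nhds (Iio_mem_nhds htb'))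
      exact mem_of_superset this (fun r hr => ⟨hr.1.1, (show r < b' from hr.2).le⟩)
    have h1 : ContinuousWithinAt (L b') (Ico 0 b) t :=
      ((hL b' hb'S).1 t ⟨ht.1, htb'.le⟩).mono_of_mem_nhdsWithin hmem
    refine h1.congr_of_eventuallyEq ?_ (hσeq b' hb'S t ht.1 htb'.le ht.2)
    filter_upwards [hmem, self_mem_nhdsWithin] with r hr hr'
    exact hσeq b' hb'S r hr.1 hr.2 hr'.2
  refine ⟨b, hb0, fun t => L (β t) t, hσc, ?_, hσl, ?_⟩
  · exact (hL _ (hβ 0 hb0).1).2.1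
  · rintro ⟨y₁, hy₁⟩
    obtain ⟨δ, hδ, c, hc1, hc2, hc3, hc4⟩ := P.ext_lim g hg hgX hb0 _ hσc hσl hy₁
    have hmx : max 0 (b - δ) < b := max_lt hb0 (by linarith)
    obtain ⟨t', ht'1, ht'2⟩ := exists_between hmx
    have ht'0 : 0 ≤ t' := (le_max_left _ _).trans ht'1.le
    have ht'd : b - δ < t' := lt_of_le_of_lt (le_max_right _ _) ht'1
    have hlift : P.LiftsTo y g (b + δ / 2) := by
      refine ⟨fun t => if t ≤ t' then L (β t) t else c t, ?_, ?_, ?_⟩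
      · apply lift_glue (σ := fun t => L (β t) t)
        · exact hσc.mono (fun t ht => ⟨ht.1, lt_of_le_of_lt ht.2 ht'2⟩)
        · exact hc1.mono (fun t ht => ⟨by linarith [ht.1], by linarith [ht.2]⟩)
        · exact hc4 t' ⟨ht'1, ht'2⟩
      · simp only [if_pos ht'0]
        exact (hL _ (hβ 0 hb0).1).2.1
      · intro t ht
        by_cases htt : t ≤ t'
        · simp only [if_pos htt]
          exact hσl t ⟨ht.1, lt_of_le_of_lt htt ht'2⟩
        · simp only [if_neg htt]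
          exact hc3 t ⟨by linarith [not_le.mp htt], by linarith [ht.2]⟩
    have := hble (b + δ / 2) ((hSm _).mpr ⟨by linarith, hlift⟩)
    linarith

/-- if a path lifts over `[0,b]` then it lifts a bit further -/
theorem Dev.lift_further [T2Space Y] (P : Dev κ m Y) (y : Y) (g : ℝ → V m) (hg : Continuous g)
    (hgX : ∀ t, g t ∈ X κ m) {b : ℝ} (hb : 0 ≤ b) (h : P.LiftsTo y g b) :
    ∃ b' > b, P.LiftsTo y g b' :=
  P.lift_further_aux y g hg hgX hb h

/-- openness of the set of liftable geodesics, with continuity of the end point -/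
theorem Dev.lifts_open (hκ : κ = -1 ∨ κ = 0 ∨ κ = 1) [T2Space Y] (P : Dev κ m Y) {y0 : Y} {u0 : V m}
    {b : ℝ} (hb : 0 ≤ b) (hu0 : Q κ (P.p y0) u0 = 0) (hu1 : B κ u0 u0 = -1) (σ0 : ℝ → Y)
    (hσ : ContinuousOn σ0 (Icc 0 b)) (h0 : σ0 0 = y0)
    (hl : ∀ t ∈ Icc 0 b, P.p (σ0 t) = ray κ (P.p y0) u0 t) {t0 : ℝ} (ht0 : t0 ∈ Icc 0 b)
    {U : Set Y} (hU : U ∈ 𝓝 (σ0 t0)) :
    ∀ᶠ q : Y × V m in 𝓝 (y0, u0), Q κ (P.p q.1) q.2 = 0 → B κ q.2 q.2 = -1 →
      ∃ σ : ℝ → Y, ContinuousOn σ (Icc 0 b) ∧ σ 0 = q.1 ∧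
        (∀ t ∈ Icc 0 b, P.p (σ t) = ray κ (P.p q.1) q.2 t) ∧ σ t0 ∈ U := by
  classical
  rcases hb.eq_or_lt with hb0 | hbpos
  · subst hb0
    have ht00 : t0 = 0 := le_antisymm ht0.2 ht0.1
    rw [ht00, h0] at hU
    have hU' : ∀ᶠ q : Y × V m in 𝓝 (y0, u0), q.1 ∈ U :=
      (continuous_fst.tendsto (y0, u0)).eventually hU
    filter_upwards [hU'] with q hq _ _
    refine ⟨fun _ => q.1, continuousOn_const, rfl, ?_, hq⟩
    intro t ht
    have : t = 0 := le_antisymm ht.2 ht.1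
    rw [this, ray_zero hκ]
  · let A0 : Type _ := {q : Y × V m // Q κ (P.p q.1) q.2 = 0 ∧ B κ q.2 q.2 = -1}
    let a0 : A0 := ⟨(y0, u0), hu0, hu1⟩
    have hck : Continuous (ck κ) := continuous_iff_continuousAt.mpr
      (fun t => (hasDerivAt_ck hκ t).continuousAt)
    have hsk : Continuous (sk κ) := continuous_iff_continuousAt.mpr
      (fun t => (hasDerivAt_sk hκ t).continuousAt)
    let F : unitInterval × A0 → X κ m := fun z =>
      ⟨ray κ (P.p z.2.1.1) z.2.1.2 (z.1.1 * b), ray_mem hκ (P.mem _) z.2.2.1 z.2.2.2 _⟩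
    have hF : Continuous F := by
      apply Continuous.subtype_mk
      unfold ray
      have e1 : Continuous (fun z : unitInterval × A0 => z.1.1 * b) := by fun_prop
      have e2 : Continuous (fun z : unitInterval × A0 => P.p z.2.1.1) :=
        P.continuous_p.comp (continuous_fst.comp (continuous_subtype_val.comp continuous_snd))
      have e3 : Continuous (fun z : unitInterval × A0 => z.2.1.2) :=
        continuous_snd.comp (continuous_subtype_val.comp continuous_snd)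
      exact ((hck.comp e1).smul e2).add ((hsk.comp e1).smul e3)
    let qm : Y → X κ m := fun y => ⟨P.p y, P.mem y⟩
    have hqm : IsLocalHomeomorph qm := P.lh
    have hRo : IsOpen (range qm) := hqm.isOpenMap.isOpen_range
    have hmem0 : ∀ t : unitInterval, t.1 * b ∈ Icc 0 b := fun t =>
      ⟨mul_nonneg t.2.1 hb, by nlinarith [t.2.2]⟩
    have hFa0 : ∀ t : unitInterval, F (t, a0) = qm (σ0 (t.1 * b)) := by
      intro t
      apply Subtype.ext
      exact (hl _ (hmem0 t)).symm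
    have hN1 : ∀ᶠ a in 𝓝 a0, ∀ t ∈ (univ : Set unitInterval), F (t, a) ∈ range qm := by
      apply isCompact_univ.eventually_forall_of_forall_eventually
      intro t _
      have hcc : Continuous (fun z : A0 × unitInterval => F (z.2, z.1)) :=
        hF.comp (continuous_snd.prodMk continuous_fst)
      apply (hcc.tendsto (a0, t)).eventually
      apply hRo.mem_nhds
      show F (t, a0) ∈ range qm
      rw [hFa0]
      exact ⟨_, rfl⟩
    let N1 : Set A0 := {a | ∀ t ∈ (univ : Set unitInterval), F (t, a) ∈ range qm}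
    have hN1' : N1 ∈ 𝓝 a0 := hN1
    have ha0N : a0 ∈ N1 := mem_of_mem_nhds hN1'
    let a1 : N1 := ⟨a0, ha0N⟩
    let f : C(unitInterval × N1, X κ m) :=
      ⟨fun z => F (z.1, z.2.1), hF.comp (continuous_fst.prodMk
        (continuous_subtype_val.comp continuous_snd))⟩
    let g : unitInterval × N1 → Y := fun z =>
      if z.2 = a1 then σ0 (z.1.1 * b) else if z.1 = 0 then z.2.1.1.1
      else Classical.choose (z.2.2 z.1 (mem_univ _))
    have hlift : qm ∘ g = f := by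
      funext z
      obtain ⟨t, a⟩ := z
      show qm (g (t, a)) = F (t, a.1)
      by_cases h1 : a = a1
      · have : g (t, a) = σ0 (t.1 * b) := if_pos h1
        rw [this, h1]
        exact (hFa0 t).symm
      · by_cases h2 : t = 0
        · have : g (t, a) = a.1.1.1 := by
            show (if a = a1 then _ else if t = 0 then _ else _) = _
            rw [if_neg h1, if_pos h2]
          rw [this, h2]
          apply Subtype.ext
          show P.p a.1.1.1 = ray κ (P.p a.1.1.1) a.1.1.2 ((0 : unitInterval).1 * b)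
          have e : ((0 : unitInterval).1 * b) = 0 := by
            show (0:ℝ) * b = 0
            rw [zero_mul]
          rw [e, ray_zero hκ]
        · have : g (t, a) = Classical.choose (a.2 t (mem_univ _)) := by
            show (if a = a1 then _ else if t = 0 then _ else _) = _
            rw [if_neg h1, if_neg h2]
          rw [this]
          exact Classical.choose_spec (a.2 t (mem_univ _))
    have hg0 : ∀ a : N1, g (0, a) = a.1.1.1 := by
      intro a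
      by_cases h1 : a = a1
      · have : g (0, a) = σ0 ((0 : unitInterval).1 * b) := if_pos h1
        rw [this, h1]
        have e : ((0 : unitInterval).1 * b) = 0 := by
          show (0:ℝ) * b = 0
          rw [zero_mul]
        rw [e, h0]
      · show (if a = a1 then _ else if (0 : unitInterval) = 0 then _ else _) = _
        rw [if_neg h1, if_pos rfl]
    have hga : ∀ t : unitInterval, g (t, a1) = σ0 (t.1 * b) := fun t => if_pos rfl
    have cont0 : Continuous (fun a : N1 => g (0, a)) := by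
      have : (fun a : N1 => g (0, a)) = fun a => a.1.1.1 := funext hg0
      rw [this]
      exact continuous_fst.comp (continuous_subtype_val.comp continuous_subtype_val)
    have conta : Continuous (fun t : unitInterval => g (t, a1)) := by
      have : (fun t : unitInterval => g (t, a1)) = fun t => σ0 (t.1 * b) := funext hga
      rw [this]
      exact hσ.comp_continuous (by fun_prop) hmem0
    obtain ⟨N, hN, g', hg'c, hg'l, hg'0, hg'a⟩ := hqm.exists_lift_nhds hlift cont0 a1 conta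
    -- the end point
    have hr0 : t0 / b ∈ Icc (0:ℝ) 1 := ⟨div_nonneg ht0.1 hb, (div_le_one hbpos).mpr ht0.2⟩
    let r0 : unitInterval := ⟨t0 / b, hr0⟩
    have hval : g' (r0, a1) = σ0 t0 := by
      rw [hg'a, hga]
      congr 1
      show t0 / b * b = t0
      field_simp
    have hca : ContinuousAt g' (r0, a1) :=
      hg'c.continuousAt (prod_mem_nhds univ_mem hN)
    have hev : ∀ᶠ a : N1 in 𝓝 a1, g' (r0, a) ∈ U := by
      have h1 : Tendsto (fun a : N1 => g' (r0, a)) (𝓝 a1) (𝓝 (g' (r0, a1))) :=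
        hca.tendsto.comp ((continuous_const.prodMk continuous_id).tendsto a1)
      rw [hval] at h1
      exact h1.eventually hU
    have hset : {a : N1 | a ∈ N ∧ g' (r0, a) ∈ U} ∈ 𝓝 a1 := (show ∀ᶠ a in 𝓝 a1, a ∈ N from hN).and hev
    obtain ⟨u1, hu1m, hu1s⟩ := (mem_nhds_subtype N1 a1 _).mp hset
    have hu2 : u1 ∩ N1 ∈ 𝓝 a0 := inter_mem hu1m hN1'
    obtain ⟨u2, hu2m, hu2s⟩ := (mem_nhds_subtype
      {q : Y × V m | Q κ (P.p q.1) q.2 = 0 ∧ B κ q.2 q.2 = -1} a0 _).mp hu2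
    filter_upwards [hu2m] with q hq hq1 hq2
    let aq : A0 := ⟨q, hq1, hq2⟩
    have haq : aq ∈ u1 ∩ N1 := hu2s hq
    let bq : N1 := ⟨aq, haq.2⟩
    have hbq : bq ∈ N ∧ g' (r0, bq) ∈ U := hu1s haq.1
    refine ⟨fun t => g' (projIcc 0 1 zero_le_one (t / b), bq), ?_, ?_, ?_, ?_⟩
    · apply Continuous.continuousOn
      have : Continuous (fun t : ℝ => ((projIcc (0:ℝ) 1 zero_le_one (t / b), bq) : unitInterval × N1)) :=
        (continuous_projIcc.comp (by fun_prop)).prodMk continuous_const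
      exact hg'c.comp_continuous this (fun t => ⟨mem_univ _, hbq.1⟩)
    · show g' (projIcc 0 1 zero_le_one (0 / b), bq) = q.1
      have e : projIcc (0:ℝ) 1 zero_le_one (0 / b) = (0 : unitInterval) := by
        rw [zero_div]
        exact projIcc_left (zero_le_one : (0:ℝ) ≤ 1)
      rw [e, hg'0, hg0]
    · intro t ht
      have hr : t / b ∈ Icc (0:ℝ) 1 := ⟨div_nonneg ht.1 hb, (div_le_one hbpos).mpr ht.2⟩
      have e : projIcc (0:ℝ) 1 zero_le_one (t / b) = (⟨t / b, hr⟩ : unitInterval) :=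
        projIcc_of_mem zero_le_one hr
      have h1 := congrFun hg'l ((⟨t / b, hr⟩ : unitInterval), bq)
      have h2 : P.p (g' ((⟨t / b, hr⟩ : unitInterval), bq)) =
          ray κ (P.p q.1) q.2 (t / b * b) := congrArg Subtype.val h1
      show P.p (g' (projIcc 0 1 zero_le_one (t / b), bq)) = _
      rw [e, h2]
      congr 1
      field_simp
    · show g' (projIcc 0 1 zero_le_one (t0 / b), bq) ∈ U
      have e : projIcc (0:ℝ) 1 zero_le_one (t0 / b) = r0 := projIcc_of_mem zero_le_one hr0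
      rw [e]
      exact hbq.2

/-- Suppose `ζ` lifts the reparametrised path `g ∘ s` on `[t1,b0)`, starts on the lift `ρ` of `g`, and does
not converge at `b0`. If `ρ` is a maximal lift of `g` on `[0,bmax)` (it does not converge at `bmax`),
then `s b0 = bmax`. -/
theorem Dev.reparam_max [T2Space Y] (P : Dev κ m Y) (g : ℝ → V m) (hg : Continuous g)
    (hgX : ∀ t, g t ∈ X κ m) {bmax : ℝ} (ρ : ℝ → Y)
    (hρ : ContinuousOn ρ (Ico 0 bmax)) (hρl : ∀ t ∈ Ico 0 bmax, P.p (ρ t) = g t)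
    (hρn : ¬ ∃ y₁, Tendsto ρ (𝓝[<] bmax) (𝓝 y₁))
    {t1 b0 : ℝ} (ht : t1 < b0) (s : ℝ → ℝ) (hs : ContinuousOn s (Icc t1 b0))
    (hs0 : ∀ t ∈ Icc t1 b0, 0 ≤ s t) (hs1 : s t1 < bmax) (ζ : ℝ → Y) (hζ : ContinuousOn ζ (Ico t1 b0))
    (hζl : ∀ t ∈ Ico t1 b0, P.p (ζ t) = g (s t)) (hζ1 : ζ t1 = ρ (s t1))
    (hζn : ¬ ∃ y₁, Tendsto ζ (𝓝[<] b0) (𝓝 y₁)) :
    s b0 = bmax ∧ (∀ t ∈ Ico t1 b0, s t < bmax ∧ ζ t = ρ (s t)) := by
  have hbm : 0 < bmax := lt_of_le_of_lt (hs0 t1 (left_mem_Icc.mpr ht.le)) hs1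
  -- agreement as long as `s < bmax`
  have hag : ∀ t2 ≤ b0, t1 < t2 → (∀ t ∈ Ico t1 t2, s t < bmax) →
      ∀ t ∈ Ico t1 t2, ζ t = ρ (s t) := by
    intro t2 ht2 ht12 hlt
    have hsub : ∀ t ∈ Ico t1 t2, t ∈ Ico t1 b0 := fun t h => ⟨h.1, lt_of_lt_of_le h.2 ht2⟩
    have hmaps : MapsTo s (Ico t1 t2) (Ico 0 bmax) := fun t h =>
      ⟨hs0 t ⟨h.1, (hsub t h).2.le⟩, hlt t h⟩
    have hsc : ContinuousOn s (Ico t1 t2) := hs.mono (fun t h => ⟨h.1, (hsub t h).2.le⟩)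
    exact P.lift_unique (S := Ico t1 t2) isPreconnected_Ico (hζ.mono hsub)
      (hρ.comp hsc hmaps) (fun t h => by
        show P.p (ζ t) = P.p (ρ (s t))
        rw [hζl t (hsub t h), hρl (s t) (hmaps h)]) (left_mem_Ico.mpr ht12) hζ1
  have hA : ∀ t ∈ Ico t1 b0, s t < bmax := by
    by_contra hcon
    push Not at hcon
    obtain ⟨tc, htc, htcs⟩ := hcon
    -- first time
    let Z : Set ℝ := {t | t ∈ Icc t1 tc ∧ bmax ≤ s t}
    have hZc : IsClosed Z := by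
      have h1 : ContinuousOn s (Icc t1 tc) := hs.mono (Icc_subset_Icc_right htc.2.le)
      exact h1.preimage_isClosed_of_isClosed isClosed_Icc isClosed_Ici
    have hZne : Z.Nonempty := ⟨tc, ⟨htc.1, le_rfl⟩, htcs⟩
    have hZb : BddBelow Z := ⟨t1, fun t h => h.1.1⟩
    have hm := hZc.csInf_mem hZne hZb
    obtain ⟨ts, hts⟩ : ∃ ts, ts = sInf Z := ⟨_, rfl⟩
    rw [← hts] at hm
    have hbefore : ∀ t ∈ Ico t1 ts, s t < bmax := by
      intro t h
      by_contra hc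
      push Not at hc
      have : t ∈ Z := ⟨⟨h.1, h.2.le.trans hm.1.2⟩, hc⟩
      have := csInf_le hZb this
      rw [← hts] at this
      linarith [h.2]
    have hts1 : t1 < ts := by
      rcases hm.1.1.eq_or_lt with h | h
      · have := hm.2
        rw [← h] at this
        linarith
      · exact h
    have htsb : ts < b0 := lt_of_le_of_lt hm.1.2 htc.2
    have hstc : ContinuousAt s ts :=
      hs.continuousAt (Icc_mem_nhds hts1 htsb)
    have hζtc : ContinuousAt ζ ts := hζ.continuousAt (Ico_mem_nhds hts1 htsb)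
    have hstl : Tendsto s (𝓝[<] ts) (𝓝 (s ts)) := hstc.tendsto.mono_left nhdsWithin_le_nhds
    have hsts : s ts = bmax := by
      apply le_antisymm _ hm.2
      refine le_of_tendsto hstl ?_
      filter_upwards [Ico_mem_nhdsLT hts1] with t h
      exact (hbefore t h).le
    have hagr := hag ts htsb.le hts1 hbefore
    have hρt : Tendsto (fun t => ρ (s t)) (𝓝[<] ts) (𝓝 (ζ ts)) := by
      refine (hζtc.tendsto.mono_left nhdsWithin_le_nhds).congr' ?_
      filter_upwards [Ico_mem_nhdsLT hts1] with t h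
      exact hagr t h
    have hpz : P.p (ζ ts) = g bmax := by rw [hζl ts ⟨hts1.le, htsb⟩, hsts]
    obtain ⟨δ, hδ, c, hc1, hc2, hc3⟩ := P.exists_local_lift (ζ ts) g bmax hg.continuousAt
      (Eventually.of_forall fun t => hg.continuousAt) (Eventually.of_forall hgX) hpz.symm
    obtain ⟨U, hUo, hyU, hinj⟩ := P.lh.isLocallyInjective (ζ ts)
    have ev1 : ∀ᶠ t in 𝓝[<] ts, ρ (s t) ∈ U := hρt (hUo.mem_nhds hyU)
    have hcb : ContinuousAt c bmax := hc1.continuousAt (Ioo_mem_nhds (by linarith) (by linarith))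
    have hcs : Tendsto (fun t => c (s t)) (𝓝[<] ts) (𝓝 (ζ ts)) := by
      rw [← hc2]
      have : Tendsto s (𝓝[<] ts) (𝓝 bmax) := by rw [← hsts]; exact hstl
      exact hcb.tendsto.comp this
    have ev2 : ∀ᶠ t in 𝓝[<] ts, c (s t) ∈ U := hcs (hUo.mem_nhds hyU)
    have hmx : max 0 (bmax - δ) < bmax := max_lt hbm (by linarith)
    have ev3 : ∀ᶠ t in 𝓝[<] ts, max 0 (bmax - δ) < s t := by
      apply hstl.eventually_const_lt
      rw [hsts]; exact hmx
    have ev4 : ∀ᶠ t in 𝓝[<] ts, t ∈ Ico t1 ts := Ico_mem_nhdsLT hts1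
    obtain ⟨t', h1, h2, h3, h4⟩ := (ev1.and (ev2.and (ev3.and ev4))).exists
    have hin : s t' ∈ Ioo (max 0 (bmax - δ)) bmax := ⟨h3, hbefore t' h4⟩
    have hsub1 : ∀ r ∈ Ioo (max 0 (bmax - δ)) bmax, r ∈ Ico 0 bmax := fun r hr =>
      ⟨(le_max_left _ _).trans hr.1.le, hr.2⟩
    have hsub2 : ∀ r ∈ Ioo (max 0 (bmax - δ)) bmax, r ∈ Ioo (bmax - δ) (bmax + δ) := fun r hr =>
      ⟨lt_of_le_of_lt (le_max_right _ _) hr.1, by linarith [hr.2]⟩
    have heq : ρ (s t') = c (s t') := by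
      apply hinj h1 h2
      apply Subtype.ext
      show P.p (ρ (s t')) = P.p (c (s t'))
      rw [hρl _ (hsub1 _ hin), hc3 _ (hsub2 _ hin)]
    have hEq := P.lift_unique (S := Ioo (max 0 (bmax - δ)) bmax) isPreconnected_Ioo
      (hρ.mono hsub1) (hc1.mono hsub2)
      (fun r hr => by rw [hρl r (hsub1 r hr), hc3 r (hsub2 r hr)]) hin heq
    apply hρn
    refine ⟨ζ ts, ?_⟩
    have hcl : Tendsto c (𝓝[<] bmax) (𝓝 (ζ ts)) := by
      rw [← hc2]
      exact hcb.tendsto.mono_left nhdsWithin_le_nhds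
    refine hcl.congr' ?_
    filter_upwards [Ioo_mem_nhdsLT hmx] with r hr
    exact (hEq hr).symm
  have hB := hag b0 le_rfl ht hA
  have hsl : Tendsto s (𝓝[<] b0) (𝓝 (s b0)) := by
    have h1 : ContinuousWithinAt s (Icc t1 b0) b0 := hs b0 (right_mem_Icc.mpr ht.le)
    have h2 : 𝓝[<] b0 ≤ 𝓝[Icc t1 b0] b0 := by
      rw [nhdsWithin_le_iff]
      exact mem_of_superset (Ico_mem_nhdsLT ht) (fun t h => ⟨h.1, h.2.le⟩)
    exact h1.tendsto.mono_left h2
  have hle : s b0 ≤ bmax := by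
    refine le_of_tendsto hsl ?_
    filter_upwards [Ico_mem_nhdsLT ht] with t h
    exact (hA t h).le
  refine ⟨?_, fun t h => ⟨hA t h, hB t h⟩⟩
  by_contra hne
  have hlt : s b0 < bmax := lt_of_le_of_ne hle hne
  have hin : s b0 ∈ Ico 0 bmax := ⟨hs0 b0 (right_mem_Icc.mpr ht.le), hlt⟩
  apply hζn
  refine ⟨ρ (s b0), ?_⟩
  have h1 : Tendsto s (𝓝[<] b0) (𝓝[Ico 0 bmax] (s b0)) := by
    apply tendsto_nhdsWithin_of_tendsto_nhds_of_eventually_within _ hsl
    filter_upwards [Ico_mem_nhdsLT ht] with t h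
    exact ⟨hs0 t ⟨h.1, h.2.le⟩, hA t h⟩
  have h2 : Tendsto (fun t => ρ (s t)) (𝓝[<] b0) (𝓝 (ρ (s b0))) := (hρ _ hin).tendsto.comp h1
  refine h2.congr' ?_
  filter_upwards [Ico_mem_nhdsLT ht] with t h
  exact (hB t h).symm

/-- Same situation, but `g` is assumed to lift for all times: impossible. -/
theorem Dev.reparam_absurd [T2Space Y] (P : Dev κ m Y) (y : Y) (g : ℝ → V m) (hg : Continuous g)
    (hgX : ∀ t, g t ∈ X κ m) (hall : ∀ b ≥ 0, P.LiftsTo y g b)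
    {t1 b0 : ℝ} (ht : t1 < b0) (s : ℝ → ℝ) (hs : ContinuousOn s (Icc t1 b0))
    (hs0 : ∀ t ∈ Icc t1 b0, 0 ≤ s t) (ζ : ℝ → Y) (hζ : ContinuousOn ζ (Ico t1 b0))
    (hζl : ∀ t ∈ Ico t1 b0, P.p (ζ t) = g (s t))
    (σ1 : ℝ → Y) (hσ1 : ContinuousOn σ1 (Icc 0 (s t1))) (hσ10 : σ1 0 = y)
    (hσ1l : ∀ t ∈ Icc 0 (s t1), P.p (σ1 t) = g t) (hζ1 : ζ t1 = σ1 (s t1))
    (hζn : ¬ ∃ y₁, Tendsto ζ (𝓝[<] b0) (𝓝 y₁)) : False := by
  have hcpt : IsCompact (Icc t1 b0) := isCompact_Icc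
  obtain ⟨M, hM⟩ := (hcpt.image_of_continuousOn hs).bddAbove
  have hMs : ∀ t ∈ Icc t1 b0, s t ≤ M := fun t h => hM ⟨t, h, rfl⟩
  have hM0 : 0 ≤ M := (hs0 t1 (left_mem_Icc.mpr ht.le)).trans (hMs t1 (left_mem_Icc.mpr ht.le))
  obtain ⟨ρ, hρ, hρ0, hρl⟩ := hall M hM0
  have hs10 : 0 ≤ s t1 := hs0 t1 (left_mem_Icc.mpr ht.le)
  have hs1M : s t1 ≤ M := hMs t1 (left_mem_Icc.mpr ht.le)
  have h1 : ρ (s t1) = σ1 (s t1) :=
    P.lift_unique (S := Icc 0 (s t1)) isPreconnected_Icc (hρ.mono (Icc_subset_Icc_right hs1M)) hσ1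
      (fun r hr => by rw [hρl r ⟨hr.1, hr.2.trans hs1M⟩, hσ1l r hr]) (left_mem_Icc.mpr hs10)
      (by rw [hρ0, hσ10]) (right_mem_Icc.mpr hs10)
  have hmaps : MapsTo s (Icc t1 b0) (Icc 0 M) := fun t h => ⟨hs0 t h, hMs t h⟩
  have hsub : ∀ t ∈ Ico t1 b0, t ∈ Icc t1 b0 := fun t h => ⟨h.1, h.2.le⟩
  have h2 := P.lift_unique (S := Ico t1 b0) isPreconnected_Ico hζ
    ((hρ.comp hs hmaps).mono hsub) (fun t h => by
      show P.p (ζ t) = P.p (ρ (s t))
      rw [hζl t h, hρl _ (hmaps (hsub t h))]) (left_mem_Ico.mpr ht)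
      (by show ζ t1 = ρ (s t1); rw [hζ1, h1])
  apply hζn
  refine ⟨ρ (s b0), ?_⟩
  have h3 : ContinuousWithinAt (fun t => ρ (s t)) (Icc t1 b0) b0 :=
    (hρ.comp hs hmaps) b0 (right_mem_Icc.mpr ht.le)
  have h4 : 𝓝[<] b0 ≤ 𝓝[Icc t1 b0] b0 := by
    rw [nhdsWithin_le_iff]
    exact mem_of_superset (Ico_mem_nhdsLT ht) (fun t h => ⟨h.1, h.2.le⟩)
  refine (h3.tendsto.mono_left h4).congr' ?_
  filter_upwards [Ico_mem_nhdsLT ht] with t h
  exact (h2 h).symm
end topo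

end Pool.Agent.Helper107.LC
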