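import Mathlib
import Pool.Agent.Helper107.LC.Topo
set_option autoImplicit false
open Set Filter Topology
open scoped ContDiff

namespace Pool.Agent.Helper107.LC

section fbasic
variable {κ : ℝ} {m : ℕ} {Y : Type*} [TopologicalSpace Y]

theorem ck_add (hκ : κ = -1 ∨ κ = 0 ∨ κ = 1) (s t : ℝ) :
    ck κ (s + t) = ck κ s * ck κ t + κ * (sk κ s * sk κ t) := by
  rcases hκ with h | h | h <;> subst h
  · simp only [ck, sk, if_true]; rw [Real.cos_add]; ring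
  · simp [ck, sk]
  · simp only [ck, sk]
    rw [if_neg (by norm_num), if_neg (by norm_num), if_neg (by norm_num), if_neg (by norm_num),
      if_neg (by norm_num), if_neg (by norm_num), if_neg (by norm_num), if_neg (by norm_num),
      if_neg (by norm_num), if_neg (by norm_num), Real.cosh_add]
    ring

theorem sk_add (hκ : κ = -1 ∨ κ = 0 ∨ κ = 1) (s t : ℝ) :
    sk κ (s + t) = sk κ s * ck κ t + ck κ s * sk κ t := by
  rcases hκ with h | h | h <;> subst h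
  · simp only [ck, sk, if_true]; rw [Real.sin_add]
  · simp [ck, sk]
  · simp only [ck, sk]
    rw [if_neg (by norm_num), if_neg (by norm_num), if_neg (by norm_num), if_neg (by norm_num),
      if_neg (by norm_num), if_neg (by norm_num), if_neg (by norm_num), if_neg (by norm_num),
      if_neg (by norm_num), if_neg (by norm_num), Real.sinh_add]

theorem ray_ray (hκ : κ = -1 ∨ κ = 0 ∨ κ = 1) (x u : V m) (t s : ℝ) :
    ray κ (ray κ x u t) (vel κ x u t) s = ray κ x u (t + s) := by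
  simp only [ray, vel, smul_add, smul_smul]
  rw [ck_add hκ t s, sk_add hκ t s]
  rw [show (ck κ t * ck κ s + κ * (sk κ t * sk κ s)) • x =
    (ck κ s * ck κ t) • x + (sk κ s * (κ * sk κ t)) • x by rw [← add_smul]; congr 1; ring]
  rw [show (sk κ t * ck κ s + ck κ t * sk κ s) • u =
    (ck κ s * sk κ t) • u + (sk κ s * ck κ t) • u by rw [← add_smul]; congr 1; ring]
  abel

theorem vel_vel (hκ : κ = -1 ∨ κ = 0 ∨ κ = 1) (x u : V m) (t s : ℝ) :
    vel κ (ray κ x u t) (vel κ x u t) s = vel κ x u (t + s) := by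
  simp only [ray, vel, smul_add, smul_smul]
  rw [ck_add hκ t s, sk_add hκ t s]
  rw [show (κ * (sk κ t * ck κ s + ck κ t * sk κ s)) • x =
    (κ * sk κ s * ck κ t) • x + (ck κ s * (κ * sk κ t)) • x by rw [← add_smul]; congr 1; ring]
  rw [show (ck κ t * ck κ s + κ * (sk κ t * sk κ s)) • u =
    (κ * sk κ s * sk κ t) • u + (ck κ s * ck κ t) • u by rw [← add_smul]; congr 1; ring]
  abel

theorem continuous_ray (hκ : κ = -1 ∨ κ = 0 ∨ κ = 1) (x u : V m) : Continuous (ray κ x u) :=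
  continuous_iff_continuousAt.mpr fun t => (hasDerivAt_ray hκ x u t).continuousAt

theorem continuous_vel (hκ : κ = -1 ∨ κ = 0 ∨ κ = 1) (x u : V m) : Continuous (vel κ x u) :=
  continuous_iff_continuousAt.mpr fun t => (hasDerivAt_vel hκ x u t).continuousAt

theorem continuous_B : Continuous (fun q : V m × V m => B κ q.1 q.2) := by
  unfold B
  fun_prop

theorem tendsto_B {ι : Type*} {l : Filter ι} {f g : ι → V m} {a b : V m}
    (hf : Tendsto f l (𝓝 a)) (hg : Tendsto g l (𝓝 b)) :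
    Tendsto (fun i => B κ (f i) (g i)) l (𝓝 (B κ a b)) := by
  have h := (continuous_B (κ := κ) (m := m)).tendsto (a, b)
  exact h.comp (hf.prodMk_nhds hg)

/-- for a failing geodesic the lift has no limit at the failing time -/
theorem Dev.FailsAt.not_tendsto_aux (hκ : κ = -1 ∨ κ = 0 ∨ κ = 1) [T2Space Y] {P : Dev κ m Y}
    {T : Y → V m} (hT : Continuous T) {y : Y} {u : V m} {b : ℝ} {ν : V m} (h : P.FailsAt T y u b ν)
    (σ : ℝ → Y) (hσ : ContinuousOn σ (Ico 0 b)) (h0 : σ 0 = y)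
    (hl : ∀ t ∈ Ico 0 b, P.p (σ t) = ray κ (P.p y) u t) : ¬ ∃ y₁, Tendsto σ (𝓝[<] b) (𝓝 y₁) := by
  obtain ⟨hb, ⟨σ', hσ', h0', hl', hA, hN⟩, hν1, hν2, hν3⟩ := h
  rintro ⟨y₁, hy₁⟩
  have heq : EqOn σ σ' (Ico 0 b) := P.lift_unique isPreconnected_Ico hσ hσ'
    (fun t ht => by rw [hl t ht, hl' t ht]) (t0 := 0) ⟨le_rfl, hb⟩ (by rw [h0, h0'])
  have hev : ∀ᶠ t in 𝓝[<] b, t ∈ Ico 0 b := Ico_mem_nhdsLT hb
  have hσ't : Tendsto σ' (𝓝[<] b) (𝓝 y₁) :=
    hy₁.congr' (hev.mono fun t ht => heq ht)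
  have hvel : Tendsto (fun t => vel κ (P.p y) u t) (𝓝[<] b) (𝓝 (vel κ (P.p y) u b)) :=
    ((continuous_vel hκ (P.p y) u).tendsto b).mono_left nhdsWithin_le_nhds
  have hTt : Tendsto (fun t => T (σ' t)) (𝓝[<] b) (𝓝 (T y₁)) := (hT.tendsto y₁).comp hσ't
  have hfin := (tendsto_B (κ := κ) hvel hTt).neg
  exact not_tendsto_nhds_of_tendsto_atTop hA _ hfin

/-- a failing geodesic does not lift up to its failing time -/
theorem Dev.FailsAt.not_liftsTo_aux (hκ : κ = -1 ∨ κ = 0 ∨ κ = 1) [T2Space Y] {P : Dev κ m Y}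
    {T : Y → V m} (hT : Continuous T) {y : Y} {u : V m} {b : ℝ} {ν : V m} (h : P.FailsAt T y u b ν)
    {b' : ℝ} (hb : b ≤ b') : ¬ P.LiftsTo y (ray κ (P.p y) u) b' := by
  rintro ⟨σ, hσ, h0, hl⟩
  have hb0 : 0 < b := h.1
  have hsub : Ico 0 b ⊆ Icc 0 b' := fun t ht => ⟨ht.1, ht.2.le.trans hb⟩
  refine Dev.FailsAt.not_tendsto_aux hκ hT h σ (hσ.mono hsub) h0 (fun t ht => hl t (hsub ht))
    ⟨σ b, ?_⟩
  have h1 : ContinuousWithinAt σ (Icc 0 b') b := hσ b ⟨hb0.le, hb⟩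
  refine h1.mono_left ?_
  rw [nhdsWithin, nhdsWithin]
  refine le_inf inf_le_left ?_
  rw [le_principal_iff]
  exact mem_of_superset (Ico_mem_nhdsLT hb0) hsub

theorem Dev.FailsAt.unique (hκ : κ = -1 ∨ κ = 0 ∨ κ = 1) [T2Space Y] {P : Dev κ m Y} {T : Y → V m}
    (hT : Continuous T) {y : Y} {u : V m} {b b' : ℝ} {ν ν' : V m} (h : P.FailsAt T y u b ν)
    (h' : P.FailsAt T y u b' ν') (hu : Q κ (P.p y) u = 0) (huu : B κ u u = -1) : b = b' ∧ ν = ν' := by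
  have key : ∀ {b b' : ℝ} {ν ν' : V m}, P.FailsAt T y u b ν → P.FailsAt T y u b' ν' →
      ¬ b < b' := by
    intro b b' ν ν' h h' hlt
    obtain ⟨hb', ⟨σ', hσ', h0', hl', hA', hN'⟩, _⟩ := h'
    have hsub : Icc 0 b ⊆ Ico 0 b' := fun t ht => ⟨ht.1, lt_of_le_of_lt ht.2 hlt⟩
    exact Dev.FailsAt.not_liftsTo_aux hκ hT h le_rfl
      ⟨σ', hσ'.mono hsub, h0', fun t ht => hl' t (hsub ht)⟩
  have hbb : b = b' := le_antisymm (not_lt.mp (key h' h)) (not_lt.mp (key h h'))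
  refine ⟨hbb, ?_⟩
  subst hbb
  obtain ⟨hb, ⟨σ, hσ, h0, hl, hA, hN⟩, _⟩ := h
  obtain ⟨_, ⟨σ', hσ', h0', hl', hA', hN'⟩, _⟩ := h'
  have heq : EqOn σ σ' (Ico 0 b) := P.lift_unique isPreconnected_Ico hσ hσ'
    (fun t ht => by rw [hl t ht, hl' t ht]) (t0 := 0) ⟨le_rfl, hb⟩ (by rw [h0, h0'])
  have hev : ∀ᶠ t in 𝓝[<] b, t ∈ Ico 0 b := Ico_mem_nhdsLT hb
  have hN2 := hN.congr' (hev.mono fun t ht => by
    show _ = (-B κ (Pool.Agent.Helper107.LC.vel κ (P.p y) u t) (T (σ' t)))⁻¹ • T (σ' t)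
    rw [heq ht])
  exact tendsto_nhds_unique hN2 hN'

/-- a failing geodesic does not lift up to its failing time -/
theorem Dev.FailsAt.not_liftsTo (hκ : κ = -1 ∨ κ = 0 ∨ κ = 1) [T2Space Y] {P : Dev κ m Y}
    {T : Y → V m} (hT : Continuous T) {y : Y} {u : V m} {b : ℝ} {ν : V m} (h : P.FailsAt T y u b ν)
    {b' : ℝ} (hb : b ≤ b') : ¬ P.LiftsTo y (ray κ (P.p y) u) b' :=
  Dev.FailsAt.not_liftsTo_aux hκ hT h hb

/-- for a failing geodesic the lift has no limit at the failing time -/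
theorem Dev.FailsAt.not_tendsto (hκ : κ = -1 ∨ κ = 0 ∨ κ = 1) [T2Space Y] {P : Dev κ m Y}
    {T : Y → V m} (hT : Continuous T) {y : Y} {u : V m} {b : ℝ} {ν : V m} (h : P.FailsAt T y u b ν)
    (σ : ℝ → Y) (hσ : ContinuousOn σ (Ico 0 b)) (h0 : σ 0 = y)
    (hl : ∀ t ∈ Ico 0 b, P.p (σ t) = ray κ (P.p y) u t) : ¬ ∃ y₁, Tendsto σ (𝓝[<] b) (𝓝 y₁) :=
  Dev.FailsAt.not_tendsto_aux hκ hT h σ hσ h0 hl

theorem tendsto_sub_nhdsLT (t b : ℝ) :
    Tendsto (fun s : ℝ => s - t) (𝓝[<] (t + b)) (𝓝[<] b) := by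
  refine tendsto_nhdsWithin_iff.mpr ⟨?_, ?_⟩
  · have h : Tendsto (fun s : ℝ => s - t) (𝓝 (t + b)) (𝓝 (t + b - t)) :=
      (continuous_id.sub continuous_const).tendsto _
    rw [show t + b - t = b by ring] at h
    exact h.mono_left nhdsWithin_le_nhds
  · filter_upwards [self_mem_nhdsWithin] with s hs
    simp only [mem_Iio] at hs ⊢
    linarith

theorem tendsto_add_nhdsLT (t b : ℝ) :
    Tendsto (fun s : ℝ => t + s) (𝓝[<] (b - t)) (𝓝[<] b) := by
  refine tendsto_nhdsWithin_iff.mpr ⟨?_, ?_⟩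
  · have h : Tendsto (fun s : ℝ => t + s) (𝓝 (b - t)) (𝓝 (t + (b - t))) :=
      (continuous_const.add continuous_id).tendsto _
    rw [show t + (b - t) = b by ring] at h
    exact h.mono_left nhdsWithin_le_nhds
  · filter_upwards [self_mem_nhdsWithin] with s hs
    simp only [mem_Iio] at hs ⊢
    linarith

/-- moving along the lift: backward -/
theorem Dev.FailsAt.of_shift (hκ : κ = -1 ∨ κ = 0 ∨ κ = 1) [T2Space Y] {P : Dev κ m Y}
    {T : Y → V m} {y : Y} {u : V m} (hu : Q κ (P.p y) u = 0) (huu : B κ u u = -1)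
    {t : ℝ} (ht : 0 ≤ t) (σ : ℝ → Y) (hσ : ContinuousOn σ (Icc 0 t)) (h0 : σ 0 = y)
    (hl : ∀ s ∈ Icc 0 t, P.p (σ s) = ray κ (P.p y) u s) {b : ℝ} {ν : V m}
    (h : P.FailsAt T (σ t) (vel κ (P.p y) u t) b ν) : P.FailsAt T y u (t + b) ν := by
  classical
  obtain ⟨hb, ⟨σ₂, hσ₂, h20, hl₂, hA, hN⟩, hν1, hν2, hν3⟩ := h
  have hpt : P.p (σ t) = ray κ (P.p y) u t := hl t ⟨ht, le_rfl⟩
  rw [hpt] at hl₂ hA hN hν2 hν3
  simp only [ray_ray hκ, vel_vel hκ] at hl₂ hA hN hν2 hν3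
  have hfe : ∀ᶠ s in 𝓝[<] (t + b), s ∈ Ioo t (t + b) := Ioo_mem_nhdsLT (by linarith)
  have hcomp := tendsto_sub_nhdsLT t b
  refine ⟨by linarith, ⟨fun s => if s ≤ t then σ s else σ₂ (s - t), ?_, ?_, ?_, ?_, ?_⟩,
    hν1, hν2, hν3⟩
  · apply ContinuousOn.if
    · intro a ha
      have h1 : a ∈ frontier (Iic t) := ha.2
      rw [frontier_Iic] at h1
      have h2 : a = t := h1
      subst h2
      rw [sub_self, h20]
    · have hcl : closure {a : ℝ | a ≤ t} = Iic t := isClosed_Iic.closure_eq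
      rw [hcl]
      exact hσ.mono (fun s hs => ⟨hs.1.1, hs.2⟩)
    · have hcl : closure {a : ℝ | ¬ a ≤ t} = Ici t := by
        have : {a : ℝ | ¬ a ≤ t} = Ioi t := by ext a; simp
        rw [this, closure_Ioi]
      rw [hcl]
      refine hσ₂.comp (continuous_id.sub continuous_const).continuousOn ?_
      intro s hs
      have h1 : t ≤ s := hs.2
      have h2 : s < t + b := hs.1.2
      exact ⟨by show 0 ≤ s - t; linarith, by show s - t < b; linarith⟩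
  · simp only [ht, if_true]
    exact h0
  · intro s hs
    by_cases hst : s ≤ t
    · simp only [hst, if_true]
      exact hl s ⟨hs.1, hst⟩
    · simp only [hst, if_false]
      push Not at hst
      rw [hl₂ (s - t) ⟨by linarith, by linarith [hs.2]⟩]
      congr 1
      ring
  · refine (hA.comp hcomp).congr' (hfe.mono fun s hs => ?_)
    have h1 : ¬ s ≤ t := not_le.mpr hs.1
    simp only [Function.comp_apply, h1, if_false]
    rw [show t + (s - t) = s by ring]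
  · refine (hN.comp hcomp).congr' (hfe.mono fun s hs => ?_)
    have h1 : ¬ s ≤ t := not_le.mpr hs.1
    simp only [Function.comp_apply, h1, if_false]
    rw [show t + (s - t) = s by ring]

/-- moving along the lift: forward -/
theorem Dev.FailsAt.shift (hκ : κ = -1 ∨ κ = 0 ∨ κ = 1) [T2Space Y] {P : Dev κ m Y}
    {T : Y → V m} {y : Y} {u : V m} (hu : Q κ (P.p y) u = 0) (huu : B κ u u = -1)
    {t : ℝ} (ht : 0 ≤ t) (σ : ℝ → Y) (hσ : ContinuousOn σ (Icc 0 t)) (h0 : σ 0 = y)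
    (hl : ∀ s ∈ Icc 0 t, P.p (σ s) = ray κ (P.p y) u s) {b : ℝ} {ν : V m}
    (h : P.FailsAt T y u b ν) (htb : t < b) : P.FailsAt T (σ t) (vel κ (P.p y) u t) (b - t) ν := by
  obtain ⟨hb, ⟨σ', hσ', h0', hl', hA, hN⟩, hν1, hν2, hν3⟩ := h
  have hpt : P.p (σ t) = ray κ (P.p y) u t := hl t ⟨ht, le_rfl⟩
  have hsub : Icc 0 t ⊆ Ico 0 b := fun s hs => ⟨hs.1, lt_of_le_of_lt hs.2 htb⟩
  have heq : EqOn σ σ' (Icc 0 t) := P.lift_unique isPreconnected_Icc hσ (hσ'.mono hsub)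
    (fun s hs => by rw [hl s hs, hl' s (hsub hs)]) (t0 := 0) ⟨le_rfl, ht⟩ (by rw [h0, h0'])
  have hcomp := tendsto_add_nhdsLT t b
  refine ⟨by linarith, ⟨fun s => σ' (t + s), ?_, ?_, ?_, ?_, ?_⟩, hν1, ?_, ?_⟩
  · refine hσ'.comp (continuous_const.add continuous_id).continuousOn ?_
    intro s hs
    exact ⟨by show 0 ≤ t + s; linarith [hs.1], by show t + s < b; linarith [hs.2]⟩
  · simp only [add_zero]
    exact (heq ⟨ht, le_rfl⟩).symm
  · intro s hs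
    rw [hpt, ray_ray hκ]
    exact hl' (t + s) ⟨by linarith [hs.1], by linarith [hs.2]⟩
  · rw [hpt]
    simp only [vel_vel hκ]
    exact hA.comp hcomp
  · rw [hpt]
    simp only [vel_vel hκ]
    exact hN.comp hcomp
  · rw [hpt, ray_ray hκ, show t + (b - t) = b by ring]
    exact hν2
  · rw [hpt, vel_vel hκ, show t + (b - t) = b by ring]
    exact hν3

/-- the velocity stays future directed along the lift -/
theorem Dev.Fut.vel (hκ : κ = -1 ∨ κ = 0 ∨ κ = 1) {P : Dev κ m Y} {T : Y → V m} (hT : Continuous T)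
    (hTt : ∀ y, Q κ (P.p y) (T y) = 0) (hTu : ∀ y, B κ (T y) (T y) = -1) {y : Y} {u : V m}
    (hu : P.Fut T y u) {t : ℝ} (ht : 0 ≤ t) (σ : ℝ → Y) (hσ : ContinuousOn σ (Icc 0 t)) (h0 : σ 0 = y)
    (hl : ∀ s ∈ Icc 0 t, P.p (σ s) = ray κ (P.p y) u s) :
    P.Fut T (σ t) (vel κ (P.p y) u t) := by
  obtain ⟨hu1, hu2, hu3⟩ := hu
  have hx : P.p y ∈ X κ m := P.mem y
  have htan : ∀ s ∈ Icc 0 t, Q κ (P.p (σ s)) (Pool.Agent.Helper107.LC.vel κ (P.p y) u s) = 0 := by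
    intro s hs
    rw [hl s hs]
    exact vel_tan hκ hx hu1 hu2 s
  have hsq : ∀ s ∈ Icc 0 t,
      1 ≤ (B κ (Pool.Agent.Helper107.LC.vel κ (P.p y) u s) (T (σ s))) ^ 2 := by
    intro s hs
    exact one_le_sq_B hκ (P.mem (σ s)) (hTt _) (hTu _) (htan s hs) (vel_unit hκ hx hu1 hu2 s)
  have hcont : ContinuousOn
      (fun s => B κ (Pool.Agent.Helper107.LC.vel κ (P.p y) u s) (T (σ s))) (Icc 0 t) := by
    intro s hs
    have h1 : ContinuousWithinAt (Pool.Agent.Helper107.LC.vel κ (P.p y) u) (Icc 0 t) s :=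
      (continuous_vel hκ (P.p y) u).continuousWithinAt
    have h2 : ContinuousWithinAt (fun s => T (σ s)) (Icc 0 t) s :=
      (hT.continuousAt).comp_continuousWithinAt (hσ s hs)
    exact tendsto_B h1 h2
  refine ⟨htan t ⟨ht, le_rfl⟩, vel_unit hκ hx hu1 hu2 t, ?_⟩
  by_contra hcon
  push Not at hcon
  have hneg : B κ (Pool.Agent.Helper107.LC.vel κ (P.p y) u 0) (T (σ 0)) < 0 := by
    rw [vel_zero hκ, h0]
    exact hu3
  have hmem : (0 : ℝ) ∈ Icc (B κ (Pool.Agent.Helper107.LC.vel κ (P.p y) u 0) (T (σ 0)))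
      (B κ (Pool.Agent.Helper107.LC.vel κ (P.p y) u t) (T (σ t))) := ⟨hneg.le, hcon⟩
  obtain ⟨s, hs, hs0⟩ := intermediate_value_Icc ht hcont hmem
  have h3 := hsq s hs
  simp only at hs0
  rw [hs0] at h3
  norm_num at h3

theorem map_ray (L : V m →ₗ[ℝ] V m) (x u : V m) (t : ℝ) :
    ray κ (L x) (L u) t = L (ray κ x u t) := by
  simp only [ray, map_add, map_smul]

theorem map_vel (L : V m →ₗ[ℝ] V m) (x u : V m) (t : ℝ) :
    vel κ (L x) (L u) t = L (vel κ x u t) := by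
  simp only [vel, map_add, map_smul]

/-- equivariance -/
theorem Dev.FailsAt.smul (hκ : κ = -1 ∨ κ = 0 ∨ κ = 1) {P : Dev κ m Y} {Γ : Type*} [Group Γ]
    [MulAction Γ Y] [ContinuousConstSMul Γ Y] (H : Hol P Γ) {T : Y → V m}
    (hTt : ∀ y, Q κ (P.p y) (T y) = 0) {γ : Γ} (hγ : ∀ y, T (γ • y) = H.ρ γ (T y)) {y : Y} {u : V m}
    (hu : Q κ (P.p y) u = 0) (huu : B κ u u = -1) {b : ℝ} {ν : V m} (h : P.FailsAt T y u b ν) :
    P.FailsAt T (γ • y) (H.ρ γ u) b (H.ρ γ ν) := by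
  obtain ⟨hb, ⟨σ, hσ, h0, hl, hA, hN⟩, hν1, hν2, hν3⟩ := h
  have hray : ∀ t, ray κ (P.p (γ • y)) (H.ρ γ u) t = H.ρ γ (ray κ (P.p y) u t) := by
    intro t
    rw [H.eqv]
    exact map_ray (H.ρ γ).toLinearMap _ _ _
  have hvel : ∀ t, Pool.Agent.Helper107.LC.vel κ (P.p (γ • y)) (H.ρ γ u) t =
      H.ρ γ (Pool.Agent.Helper107.LC.vel κ (P.p y) u t) := by
    intro t
    rw [H.eqv]
    exact map_vel (H.ρ γ).toLinearMap _ _ _
  have hx : P.p y ∈ X κ m := P.mem y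
  have hev : ∀ᶠ t in 𝓝[<] b, t ∈ Ico 0 b := Ico_mem_nhdsLT hb
  have hB : ∀ t ∈ Ico 0 b,
      B κ (Pool.Agent.Helper107.LC.vel κ (P.p (γ • y)) (H.ρ γ u) t) (T (γ • σ t)) =
      B κ (Pool.Agent.Helper107.LC.vel κ (P.p y) u t) (T (σ t)) := by
    intro t ht
    rw [hvel, hγ]
    have h1 := hTt (σ t)
    rw [hl t ht] at h1
    exact H.Binv γ (ray κ (P.p y) u t) _ _ (ray_mem hκ hx hu huu t) (vel_tan hκ hx hu huu t) h1
  have hcρ : Continuous (H.ρ γ) := (H.ρ γ).toLinearMap.continuous_of_finiteDimensional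
  refine ⟨hb, ⟨fun t => γ • σ t, hσ.const_smul γ, ?_, ?_, ?_, ?_⟩, ?_, ?_, ?_⟩
  · simp only [h0]
  · intro t ht
    rw [H.eqv, hl t ht, hray]
  · refine hA.congr' (hev.mono fun t ht => ?_)
    simp only [hB t ht]
  · have h2 : Tendsto (fun t => H.ρ γ ((-B κ (Pool.Agent.Helper107.LC.vel κ (P.p y) u t)
        (T (σ t)))⁻¹ • T (σ t))) (𝓝[<] b) (𝓝 (H.ρ γ ν)) := (hcρ.tendsto ν).comp hN
    refine h2.congr' (hev.mono fun t ht => ?_)
    show _ = (-B κ (Pool.Agent.Helper107.LC.vel κ (P.p (γ • y)) (H.ρ γ u) t)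
      (T (γ • σ t)))⁻¹ • T (γ • σ t)
    rw [hB t ht, hγ, map_smul]
  · rw [H.Binv γ (ray κ (P.p y) u b) _ _ (ray_mem hκ hx hu huu b) hν2 hν2]
    exact hν1
  · rw [hray, H.Qinv]
    exact hν2
  · rw [hvel, H.Binv γ (ray κ (P.p y) u b) _ _ (ray_mem hκ hx hu huu b)
      (vel_tan hκ hx hu huu b) hν2]
    exact hν3
end fbasic

end Pool.Agent.Helper107.LC
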