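import Mathlib
import Pool.Agent.Helper107.LC.Afacts
set_option autoImplicit false
open Set Filter Topology
open scoped ContDiff

namespace Pool.Agent.Helper107.LC

theorem hyper_visible_aux_B {κ : ℝ} {m : ℕ} (hκ : κ = -1 ∨ κ = 0 ∨ κ = 1) (x y : V m) :
    |B κ x y| ≤ 3 * (‖x‖ * ‖y‖) ∧ |Q κ x y| ≤ 3 * (‖x‖ * ‖y‖) := by
  have hk : |κ| ≤ 1 := by rcases hκ with h | h | h <;> subst h <;> norm_num
  have a1 : |x.1| ≤ ‖x‖ := norm_fst_le x
  have a2 : ‖x.2.1‖ ≤ ‖x‖ := (norm_fst_le x.2).trans (norm_snd_le x)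
  have a3 : |x.2.2| ≤ ‖x‖ := (norm_snd_le x.2).trans (norm_snd_le x)
  have b1 : |y.1| ≤ ‖y‖ := norm_fst_le y
  have b2 : ‖y.2.1‖ ≤ ‖y‖ := (norm_fst_le y.2).trans (norm_snd_le y)
  have b3 : |y.2.2| ≤ ‖y‖ := (norm_snd_le y.2).trans (norm_snd_le y)
  have c1 : |x.1 * y.1| ≤ ‖x‖ * ‖y‖ := by
    rw [abs_mul]; exact mul_le_mul a1 b1 (abs_nonneg _) (norm_nonneg _)
  have c2 : |inner ℝ x.2.1 y.2.1| ≤ ‖x‖ * ‖y‖ :=
    (abs_real_inner_le_norm _ _).trans (mul_le_mul a2 b2 (norm_nonneg _) (norm_nonneg _))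
  have c3 : |x.2.2 * y.2.2| ≤ ‖x‖ * ‖y‖ := by
    rw [abs_mul]; exact mul_le_mul a3 b3 (abs_nonneg _) (norm_nonneg _)
  have hnn : 0 ≤ ‖x‖ * ‖y‖ := mul_nonneg (norm_nonneg _) (norm_nonneg _)
  have hkm : ∀ s : ℝ, |κ * s| ≤ |s| := by
    intro s
    rw [abs_mul]
    exact mul_le_of_le_one_left (abs_nonneg _) hk
  constructor
  · unfold B
    have h1 := abs_add_le (-(x.1 * y.1) + inner ℝ x.2.1 y.2.1) (κ * (x.2.2 * y.2.2))
    have h2 := abs_add_le (-(x.1 * y.1)) (inner ℝ x.2.1 y.2.1)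
    rw [abs_neg] at h2
    have h3 := hkm (x.2.2 * y.2.2)
    linarith
  · unfold Q
    have h1 := abs_add_le (κ * (-(x.1 * y.1) + inner ℝ x.2.1 y.2.1)) (x.2.2 * y.2.2)
    have h2 := abs_add_le (-(x.1 * y.1)) (inner ℝ x.2.1 y.2.1)
    rw [abs_neg] at h2
    have h3 := hkm (-(x.1 * y.1) + inner ℝ x.2.1 y.2.1)
    linarith

/-- points of the spacelike hyperplane orthogonal to `T` close to a point of a timelike geodesic are uniformly visible -/
theorem hyper_visible {κ : ℝ} {m : ℕ} (hκ : κ = -1 ∨ κ = 0 ∨ κ = 1) {x0 u0 : V m} (hx0 : x0 ∈ X κ m)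
    (hu0 : Q κ x0 u0 = 0) (hu1 : B κ u0 u0 = -1) {b0 : ℝ} (hb0 : 0 ≤ b0) {ε : ℝ} (hε : 0 < ε) :
    ∃ δ > 0, ∀ t ∈ Icc 0 b0, ∀ z ∈ X κ m, ‖z - ray κ x0 u0 t‖ < δ → ∀ T : V m,
      Q κ (ray κ x0 u0 t) T = 0 → B κ T T = -1 → B κ (z - ray κ x0 u0 t) T = 0 →
      Q κ (ray κ x0 u0 t) (tg κ (ray κ x0 u0 t) z) = 0 ∧
      N2 κ (ray κ x0 u0 t) T (tg κ (ray κ x0 u0 t) z) < ε ^ 2 ∧
      og κ (ray κ x0 u0 t) (tg κ (ray κ x0 u0 t) z) = z := by
  have hcont : ContinuousOn (ray κ x0 u0) (Icc 0 b0) := fun t _ =>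
    (hasDerivAt_ray hκ x0 u0 t).continuousAt.continuousWithinAt
  obtain ⟨M0, hM0⟩ := isCompact_Icc.exists_bound_of_continuousOn hcont
  set M : ℝ := max M0 0 with hM
  have hM00 : 0 ≤ M := le_max_right _ _
  have hK : 0 < 1 + 3 * M ^ 2 := by positivity
  have hK2 : 0 < 3 * M + 1 := by positivity
  refine ⟨min (ε / (2 * (1 + 3 * M ^ 2))) (1 / (3 * M + 1)), lt_min (by positivity) (by positivity), ?_⟩
  intro t ht z hz hzt T hT hTT hzT
  set x := ray κ x0 u0 t with hxdef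
  have hx : x ∈ X κ m := ray_mem hκ hx0 hu0 hu1 t
  have hxM : ‖x‖ ≤ M := (hM0 t ht).trans (le_max_left _ _)
  have hd1 : ‖z - x‖ < ε / (2 * (1 + 3 * M ^ 2)) := lt_of_lt_of_le hzt (min_le_left _ _)
  have hd2 : ‖z - x‖ < 1 / (3 * M + 1) := lt_of_lt_of_le hzt (min_le_right _ _)
  have hd1' : (1 + 3 * M ^ 2) * ‖z - x‖ < ε / 2 := by
    have h2 : (0 : ℝ) < 2 * (1 + 3 * M ^ 2) := by positivity
    rw [lt_div_iff₀ h2] at hd1
    linarith
  have hd2' : (3 * M + 1) * ‖z - x‖ < 1 := by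
    rw [lt_div_iff₀ hK2] at hd2
    linarith
  have hQxx : Q κ x x = 1 := hx
  have hQzz : Q κ z z = 1 := hz
  have he0 : 0 ≤ ‖z - x‖ := norm_nonneg _
  -- q = Q x z
  have hq : Q κ x z = 1 + Q κ x (z - x) := by rw [Q_sub_right, hQxx]; ring
  have hQe : |Q κ x (z - x)| ≤ 3 * (M * ‖z - x‖) := by
    refine (hyper_visible_aux_B hκ x (z - x)).2.trans ?_
    have : ‖x‖ * ‖z - x‖ ≤ M * ‖z - x‖ := mul_le_mul_of_nonneg_right hxM he0
    linarith
  have hqpos : 0 < Q κ x z := by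
    have h1 := (abs_le.mp hQe).1
    rw [hq]
    nlinarith
  set w := tg κ x z with hw
  have hQw : Q κ x w = 0 := Q_tg hx z
  have hwe : w = (z - x) - Q κ x (z - x) • x := by
    rw [hw, tg, hq, add_smul, one_smul]
    abel
  have hwn : ‖w‖ ≤ (1 + 3 * M ^ 2) * ‖z - x‖ := by
    rw [hwe]
    refine (norm_sub_le _ _).trans ?_
    rw [norm_smul, Real.norm_eq_abs]
    have h1 : |Q κ x (z - x)| * ‖x‖ ≤ 3 * (M * ‖z - x‖) * M :=
      mul_le_mul hQe hxM (norm_nonneg _) (by positivity)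
    nlinarith
  have hwn2 : ‖w‖ < ε / 2 := lt_of_le_of_lt hwn hd1'
  -- B w T = 0
  have hBwT : B κ w T = 0 := by
    rw [hwe, B_sub_left, B_smul_left, hzT]
    have : Q κ x (z - x) * B κ x T = 0 := by
      rcases hκ with h | h | h
      · have h2 := Q_eq_B (κ := κ) x T
        rw [hT, h] at h2
        have : B κ x T = 0 := by rw [h]; linarith
        rw [this]; ring
      · have hx2 : x.2.2 * x.2.2 = 1 := by
          have := hQxx
          rw [h] at this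
          simpa [Q] using this
        have hz2 : z.2.2 * z.2.2 = 1 := by
          have := hQzz
          rw [h] at this
          simpa [Q] using this
        have hxz : Q κ x z = x.2.2 * z.2.2 := by
          rw [h]; simp [Q]
        have h1 : (x.2.2 * z.2.2) * (x.2.2 * z.2.2) = 1 := by
          have : (x.2.2 * z.2.2) * (x.2.2 * z.2.2) = (x.2.2 * x.2.2) * (z.2.2 * z.2.2) := by ring
          rw [this, hx2, hz2]; ring
        rw [hxz] at hqpos
        have h2 : x.2.2 * z.2.2 = 1 := by nlinarith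
        have h3 : Q κ x (z - x) = 0 := by
          rw [hxz, h2] at hq
          linarith
        rw [h3]; ring
      · have h2 := Q_eq_B (κ := κ) x T
        rw [hT, h] at h2
        have : B κ x T = 0 := by rw [h]; linarith
        rw [this]; ring
    rw [this]; ring
  have hzw : z = w + Q κ x z • x := (tg_add_normal x z).symm
  have hQww : Q κ w w = κ * B κ w w := Q_tan hκ hx hQw w hQw
  have hone : 1 - κ * B κ w w = Q κ x z ^ 2 := by
    have h1 : Q κ z z = Q κ w w + Q κ x z ^ 2 := by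
      have h2 : Q κ (w + Q κ x z • x) (w + Q κ x z • x) = Q κ w w + Q κ x z ^ 2 := by
        rw [Q_add_left, Q_add_right, Q_add_right, Q_smul_left, Q_smul_left, Q_smul_right,
          Q_smul_right, Q_comm w x, hQw, hQxx]
        ring
      rw [← hzw] at h2
      exact h2
    rw [← hQww]
    linarith
  refine ⟨hQw, ?_, ?_⟩
  · unfold N2
    rw [tg_of_tan hQw, hBwT, hQw]
    have h1 := (abs_le.mp (hyper_visible_aux_B hκ w w).1).2
    have h2 : ‖w‖ * ‖w‖ ≤ (ε / 2) * (ε / 2) :=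
      mul_le_mul hwn2.le hwn2.le (norm_nonneg _) (by positivity)
    nlinarith [mul_pos hε hε]
  · unfold og
    rw [hone, Real.sqrt_sq hqpos.le, add_comm]
    exact hzw.symm

end Pool.Agent.Helper107.LC
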