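import Mathlib
import Pool.Agent.Helper107.LC.Afacts
set_option autoImplicit false
open Set Filter Topology
open scoped ContDiff

namespace Pool.Agent.Helper107.LC

theorem imps_B {κ : ℝ} {m : ℕ} {α : Type*} [TopologicalSpace α] {f g : α → V m}
    (hf : Continuous f) (hg : Continuous g) : Continuous fun a => B κ (f a) (g a) := by
  unfold B
  fun_prop

theorem imps_cont_ck {κ : ℝ} (hκ : κ = -1 ∨ κ = 0 ∨ κ = 1) : Continuous (ck κ) :=
  continuous_iff_continuousAt.2 fun t => (hasDerivAt_ck hκ t).continuousAt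

theorem imps_cont_sk {κ : ℝ} (hκ : κ = -1 ∨ κ = 0 ∨ κ = 1) : Continuous (sk κ) :=
  continuous_iff_continuousAt.2 fun t => (hasDerivAt_sk hκ t).continuousAt

theorem imps_ray {κ : ℝ} {m : ℕ} (hκ : κ = -1 ∨ κ = 0 ∨ κ = 1) {α : Type*} [TopologicalSpace α]
    {f g : α → V m} {s : α → ℝ} (hf : Continuous f) (hg : Continuous g) (hs : Continuous s) :
    Continuous fun a => ray κ (f a) (g a) (s a) :=
  (((imps_cont_ck hκ).comp hs).smul hf).add (((imps_cont_sk hκ).comp hs).smul hg)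

theorem imps_vel {κ : ℝ} {m : ℕ} (hκ : κ = -1 ∨ κ = 0 ∨ κ = 1) {α : Type*} [TopologicalSpace α]
    {f g : α → V m} {s : α → ℝ} (hf : Continuous f) (hg : Continuous g) (hs : Continuous s) :
    Continuous fun a => vel κ (f a) (g a) (s a) :=
  ((((imps_cont_sk hκ).comp hs).const_mul κ).smul hf).add (((imps_cont_ck hκ).comp hs).smul hg)

theorem imps_deriv {κ : ℝ} {m : ℕ} (hκ : κ = -1 ∨ κ = 0 ∨ κ = 1) (x u c w : V m) (s : ℝ) :
    HasDerivAt (fun s => B κ (ray κ x u s - c) w) (B κ (vel κ x u s) w) s := by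
  have h1 : (fun s => B κ (ray κ x u s - c) w)
      = fun s => ck κ s * B κ x w + sk κ s * B κ u w - B κ c w := by
    funext s
    rw [B_sub_left, ray, B_add_left, B_smul_left, B_smul_left]
  have h2 : B κ (vel κ x u s) w = κ * sk κ s * B κ x w + ck κ s * B κ u w := by
    rw [vel, B_add_left, B_smul_left, B_smul_left]
  rw [h1, h2]
  exact (((hasDerivAt_ck hκ s).mul_const _).add ((hasDerivAt_sk hκ s).mul_const _)).sub_const _

/-- monotonicity estimate -/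
theorem imps_mono {F F' : ℝ → ℝ} {c r : ℝ} (hF : ∀ s, HasDerivAt F (F' s) s)
    (hF' : ∀ s, |s - c| ≤ r → F' s < -1 / 2) (a b : ℝ) (ha : |a - c| ≤ r) (hb : |b - c| ≤ r)
    (hab : a ≤ b) : F b - F a ≤ -1 / 2 * (b - a) := by
  have hc : Convex ℝ (Icc (c - r) (c + r)) := convex_Icc _ _
  have h1 := hc.image_sub_le_mul_sub_of_deriv_le (f := F) (C := -1 / 2)
    (fun s _ => (hF s).continuousAt.continuousWithinAt)
    (fun s _ => (hF s).differentiableAt.differentiableWithinAt)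
    (fun s hs => by
      rw [(hF s).deriv]
      have h2 := interior_subset hs
      exact (hF' s (abs_le.2 ⟨by linarith [h2.1], by linarith [h2.2]⟩)).le)
  rw [abs_le] at ha hb
  exact h1 a ⟨by linarith, by linarith⟩ b ⟨by linarith, by linarith⟩ hab

theorem imps_mono' {F F' : ℝ → ℝ} {c r : ℝ} (hF : ∀ s, HasDerivAt F (F' s) s)
    (hF' : ∀ s, |s - c| ≤ r → F' s < -1 / 2) (a b : ℝ) (ha : |a - c| ≤ r) (hb : |b - c| ≤ r) :
    |a - b| ≤ 2 * |F a - F b| := by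
  rcases le_total a b with h | h
  · have h1 := imps_mono hF hF' a b ha hb h
    have h2 := le_abs_self (F a - F b)
    rw [abs_of_nonpos (by linarith : a - b ≤ 0)]
    linarith
  · have h1 := imps_mono hF hF' b a hb ha h
    have h2 := neg_abs_le (F a - F b)
    rw [abs_of_nonneg (by linarith : 0 ≤ a - b)]
    linarith

/-- zero -/
theorem imps_zero {F F' : ℝ → ℝ} {c r : ℝ} (hr : 0 < r) (hF : ∀ s, HasDerivAt F (F' s) s)
    (hF' : ∀ s, |s - c| ≤ r → F' s < -1 / 2) (h0 : |F c| < r / 4) :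
    ∃ s, |s - c| < r ∧ F s = 0 := by
  have h1 := imps_mono hF hF' (c - r) c (by rw [sub_sub_cancel_left, abs_neg, abs_of_pos hr])
    (by rw [sub_self, abs_zero]; exact hr.le) (by linarith)
  have h2 := imps_mono hF hF' c (c + r) (by rw [sub_self, abs_zero]; exact hr.le)
    (by rw [add_sub_cancel_left, abs_of_pos hr]) (by linarith)
  rw [abs_lt] at h0
  have h3 : ContinuousOn F (Icc (c - r) (c + r)) :=
    fun s _ => (hF s).continuousAt.continuousWithinAt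
  have h4 := intermediate_value_Ioo' (by linarith : c - r ≤ c + r) h3
  have h5 : (0 : ℝ) ∈ Ioo (F (c + r)) (F (c - r)) := ⟨by linarith, by linarith⟩
  obtain ⟨s, hs, hs0⟩ := h4 h5
  exact ⟨s, abs_lt.2 ⟨by linarith [hs.1], by linarith [hs.2]⟩, hs0⟩

theorem imps_E1 {κ : ℝ} {m : ℕ} (hκ : κ = -1 ∨ κ = 0 ∨ κ = 1) {x0 u0 : V m} {t1 b0 : ℝ}
    (L : ℝ → V m) (hL : Continuous L) (hl1 : ∀ t ∈ Icc t1 b0, B κ (vel κ x0 u0 t) (L t) = -1) :
    ∀ᶠ p : (V m × V m) × ℝ in 𝓝 ((x0, u0), 0), ∀ t ∈ Icc t1 b0,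
      B κ (vel κ p.1.1 p.1.2 (t + p.2)) (L t) < -1 / 2 := by
  apply isCompact_Icc.eventually_forall_of_forall_eventually
  intro t ht
  have hc : Continuous fun z : ((V m × V m) × ℝ) × ℝ =>
      B κ (vel κ z.1.1.1 z.1.1.2 (z.2 + z.1.2)) (L z.2) :=
    imps_B (imps_vel hκ (by fun_prop) (by fun_prop) (by fun_prop)) (hL.comp continuous_snd)
  have h2 : B κ (vel κ x0 u0 (t + 0)) (L t) < -1 / 2 := by
    rw [add_zero, hl1 t ht]; norm_num
  exact hc.continuousAt.eventually_lt continuousAt_const h2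

theorem imps_E2 {κ : ℝ} {m : ℕ} (hκ : κ = -1 ∨ κ = 0 ∨ κ = 1) {x0 u0 : V m} {t1 b0 : ℝ}
    (L : ℝ → V m) (hL : Continuous L) {η0 : ℝ} (hη0 : 0 < η0) :
    ∀ᶠ q : V m × V m in 𝓝 (x0, u0), ∀ t ∈ Icc t1 b0,
      |B κ (ray κ q.1 q.2 t - ray κ x0 u0 t) (L t)| < η0 / 4 := by
  apply isCompact_Icc.eventually_forall_of_forall_eventually
  intro t ht
  have hc : Continuous fun z : (V m × V m) × ℝ =>
      |B κ (ray κ z.1.1 z.1.2 z.2 - ray κ x0 u0 z.2) (L z.2)| :=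
    (imps_B ((imps_ray hκ (by fun_prop) (by fun_prop) (by fun_prop)).sub
      (imps_ray hκ continuous_const continuous_const continuous_snd))
      (hL.comp continuous_snd)).abs
  have h2 : |B κ (ray κ x0 u0 t - ray κ x0 u0 t) (L t)| < η0 / 4 := by
    rw [sub_self, B_zero_left, abs_zero]; linarith
  exact hc.continuousAt.eventually_lt continuousAt_const h2

theorem imps_main {κ : ℝ} {m : ℕ} (hκ : κ = -1 ∨ κ = 0 ∨ κ = 1) {x0 u0 : V m} {t1 b0 : ℝ}
    (L : ℝ → V m) (hL : Continuous L) {η0 : ℝ} (hη0 : 0 < η0) (q : V m × V m)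
    (hneg : ∀ t ∈ Icc t1 b0, ∀ s, |s - t| ≤ η0 → B κ (vel κ q.1 q.2 s) (L t) < -1 / 2)
    (hq2 : ∀ t ∈ Icc t1 b0, |B κ (ray κ q.1 q.2 t - ray κ x0 u0 t) (L t)| < η0 / 4) :
    ∃ s : ℝ → ℝ, ContinuousOn s (Icc t1 b0) ∧
      ∀ t ∈ Icc t1 b0, |s t - t| < η0 ∧ B κ (ray κ q.1 q.2 (s t) - ray κ x0 u0 t) (L t) = 0 := by
  have hder : ∀ t s : ℝ, HasDerivAt (fun s => B κ (ray κ q.1 q.2 s - ray κ x0 u0 t) (L t))
      (B κ (vel κ q.1 q.2 s) (L t)) s := fun t s => imps_deriv hκ _ _ _ _ s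
  have hz : ∀ t ∈ Icc t1 b0, ∃ s, |s - t| < η0 ∧ B κ (ray κ q.1 q.2 s - ray κ x0 u0 t) (L t) = 0 :=
    fun t ht => imps_zero hη0 (hder t) (hneg t ht) (hq2 t ht)
  choose! s hs1 hs2 using hz
  refine ⟨s, ?_, fun t ht => ⟨hs1 t ht, hs2 t ht⟩⟩
  intro t ht
  have hcF : Continuous fun t' : ℝ => 2 * |B κ (ray κ q.1 q.2 (s t) - ray κ x0 u0 t') (L t')| :=
    continuous_const.mul (imps_B (continuous_const.sub
      (imps_ray hκ continuous_const continuous_const continuous_id)) hL).abs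
  have hlim : Tendsto (fun t' : ℝ => 2 * |B κ (ray κ q.1 q.2 (s t) - ray κ x0 u0 t') (L t')|)
      (𝓝[Icc t1 b0] t) (𝓝 0) := by
    have h1 := hcF.continuousAt (x := t) |>.tendsto.mono_left
      (nhdsWithin_le_nhds (s := Icc t1 b0))
    rw [hs2 t ht, abs_zero, mul_zero] at h1
    exact h1
  rw [ContinuousWithinAt, tendsto_iff_dist_tendsto_zero]
  refine squeeze_zero' (Eventually.of_forall fun t' => dist_nonneg) ?_ hlim
  have h3 : ∀ᶠ t' in 𝓝[Icc t1 b0] t, |s t - t'| < η0 := by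
    have hc : Continuous fun t' : ℝ => |s t - t'| := by fun_prop
    exact (hc.continuousAt.eventually_lt continuousAt_const (hs1 t ht)).filter_mono
      nhdsWithin_le_nhds
  filter_upwards [h3, self_mem_nhdsWithin] with t' h4 ht'
  rw [Real.dist_eq]
  have h5 := imps_mono' (hder t') (hneg t' ht') (s t') (s t) (hs1 t' ht').le h4.le
  simp only [hs2 t' ht', zero_sub, abs_neg] at h5
  exact h5

/-- continuous solution `s(t)` of the crossing equation for nearby geodesics -/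
theorem implicit_s {κ : ℝ} {m : ℕ} (hκ : κ = -1 ∨ κ = 0 ∨ κ = 1) {x0 u0 : V m} {t1 b0 : ℝ}
    (h : t1 ≤ b0) (l : ℝ → V m) (hl : ContinuousOn l (Icc t1 b0))
    (hl1 : ∀ t ∈ Icc t1 b0, B κ (vel κ x0 u0 t) (l t) = -1) {η : ℝ} (hη : 0 < η) :
    ∀ᶠ q : V m × V m in 𝓝 (x0, u0), ∃ s : ℝ → ℝ, ContinuousOn s (Icc t1 b0) ∧
      ∀ t ∈ Icc t1 b0, |s t - t| < η ∧ B κ (ray κ q.1 q.2 (s t) - ray κ x0 u0 t) (l t) = 0 := by
  obtain ⟨L, hLc, hLl⟩ : ∃ L : ℝ → V m, Continuous L ∧ ∀ t ∈ Icc t1 b0, L t = l t := by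
    refine ⟨fun t => l (projIcc t1 b0 h t), hl.domRestrict.comp continuous_projIcc, ?_⟩
    intro t ht
    simp only
    rw [projIcc_of_mem h ht]
  have hE1 := imps_E1 hκ L hLc (x0 := x0) (u0 := u0) (t1 := t1) (b0 := b0)
    (fun t ht => by rw [hLl t ht]; exact hl1 t ht)
  rw [nhds_prod_eq] at hE1
  obtain ⟨pa, hpa, pb, hpb, hab⟩ := eventually_prod_iff.1 hE1
  obtain ⟨r1, hr1, hr1b⟩ := Metric.eventually_nhds_iff_ball.1 hpb
  obtain ⟨η0, hη0, hη0η, hη0r⟩ : ∃ η0 : ℝ, 0 < η0 ∧ η0 < η ∧ η0 < r1 :=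
    ⟨min η r1 / 2, by positivity, by
      have := min_le_left η r1
      have := lt_min hη hr1
      linarith, by
      have := min_le_right η r1
      have := lt_min hη hr1
      linarith⟩
  have hE2 := imps_E2 hκ L hLc (x0 := x0) (u0 := u0) (t1 := t1) (b0 := b0) hη0
  filter_upwards [hpa, hE2] with q hq1 hq2
  have hneg : ∀ t ∈ Icc t1 b0, ∀ s, |s - t| ≤ η0 → B κ (vel κ q.1 q.2 s) (L t) < -1 / 2 := by
    intro t ht s hs
    have h1 : pb (s - t) := by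
      apply hr1b
      rw [Metric.mem_ball, Real.dist_eq, sub_zero]
      linarith
    have h2 := hab hq1 h1 t ht
    simp only [add_sub_cancel] at h2
    exact h2
  obtain ⟨s, hs, hst⟩ := imps_main hκ L hLc hη0 q hneg hq2
  refine ⟨s, hs, fun t ht => ⟨lt_trans (hst t ht).1 hη0η, ?_⟩⟩
  rw [← hLl t ht]
  exact (hst t ht).2

end Pool.Agent.Helper107.LC
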