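import Mathlib
import Pool.Agent.Helper107.LC.Afacts
set_option autoImplicit false
open Set Filter Topology
open scoped ContDiff

namespace Pool.Agent.Helper107.LC

theorem fb_B {κ : ℝ} {m : ℕ} {f g : ℝ → V m} {f' g' : V m} {s : ℝ} (hf : HasDerivAt f f' s)
    (hg : HasDerivAt g g' s) :
    HasDerivAt (fun s => B κ (f s) (g s)) (B κ f' (g s) + B κ (f s) g') s := by
  have hf1 : HasDerivAt (fun s => (f s).1) f'.1 s :=
    (ContinuousLinearMap.fst ℝ ℝ (E m × ℝ)).hasFDerivAt.comp_hasDerivAt s hf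
  have hg1 : HasDerivAt (fun s => (g s).1) g'.1 s :=
    (ContinuousLinearMap.fst ℝ ℝ (E m × ℝ)).hasFDerivAt.comp_hasDerivAt s hg
  have hf0 : HasDerivAt (fun s => (f s).2) f'.2 s :=
    (ContinuousLinearMap.snd ℝ ℝ (E m × ℝ)).hasFDerivAt.comp_hasDerivAt s hf
  have hg0 : HasDerivAt (fun s => (g s).2) g'.2 s :=
    (ContinuousLinearMap.snd ℝ ℝ (E m × ℝ)).hasFDerivAt.comp_hasDerivAt s hg
  have hf2 : HasDerivAt (fun s => (f s).2.1) f'.2.1 s :=
    (ContinuousLinearMap.fst ℝ (E m) ℝ).hasFDerivAt.comp_hasDerivAt s hf0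
  have hg2 : HasDerivAt (fun s => (g s).2.1) g'.2.1 s :=
    (ContinuousLinearMap.fst ℝ (E m) ℝ).hasFDerivAt.comp_hasDerivAt s hg0
  have hf3 : HasDerivAt (fun s => (f s).2.2) f'.2.2 s :=
    (ContinuousLinearMap.snd ℝ (E m) ℝ).hasFDerivAt.comp_hasDerivAt s hf0
  have hg3 : HasDerivAt (fun s => (g s).2.2) g'.2.2 s :=
    (ContinuousLinearMap.snd ℝ (E m) ℝ).hasFDerivAt.comp_hasDerivAt s hg0
  have h := (((hf1.mul hg1).neg).add (hf2.inner ℝ hg2)).add ((hf3.mul hg3).const_mul κ)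
  have e : B κ f' (g s) + B κ (f s) g' = -(f'.1 * (g s).1 + (f s).1 * g'.1) +
      (inner ℝ (f s).2.1 g'.2.1 + inner ℝ f'.2.1 (g s).2.1) +
      κ * (f'.2.2 * (g s).2.2 + (f s).2.2 * g'.2.2) := by
    simp only [B]
    ring
  rw [e]
  exact h

theorem fb_Q {κ : ℝ} {m : ℕ} {f : ℝ → V m} {f' : V m} {s : ℝ} (hf : HasDerivAt f f' s)
    (w : V m) : HasDerivAt (fun s => Q κ (f s) w) (Q κ f' w) s := by
  have hf1 : HasDerivAt (fun s => (f s).1) f'.1 s :=
    (ContinuousLinearMap.fst ℝ ℝ (E m × ℝ)).hasFDerivAt.comp_hasDerivAt s hf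
  have hf0 : HasDerivAt (fun s => (f s).2) f'.2 s :=
    (ContinuousLinearMap.snd ℝ ℝ (E m × ℝ)).hasFDerivAt.comp_hasDerivAt s hf
  have hf2 : HasDerivAt (fun s => (f s).2.1) f'.2.1 s :=
    (ContinuousLinearMap.fst ℝ (E m) ℝ).hasFDerivAt.comp_hasDerivAt s hf0
  have hf3 : HasDerivAt (fun s => (f s).2.2) f'.2.2 s :=
    (ContinuousLinearMap.snd ℝ (E m) ℝ).hasFDerivAt.comp_hasDerivAt s hf0
  have h := ((((hf1.mul_const w.1).neg).add (hf2.inner ℝ (hasDerivAt_const s w.2.1))).const_mul κ).add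
    (hf3.mul_const w.2.2)
  have e : Q κ f' w = κ * (-(f'.1 * w.1) + (inner ℝ (f s).2.1 0 + inner ℝ f'.2.1 w.2.1)) +
      f'.2.2 * w.2.2 := by
    simp only [Q, inner_zero_right]
    ring
  rw [e]
  exact h

theorem fb_N2_cont (κ : ℝ) {m : ℕ} (x t : V m) : Continuous (fun w => N2 κ x t w) := by
  unfold N2 tg B Q
  fun_prop

theorem fb_N2_smul (κ : ℝ) {m : ℕ} (x t w : V m) (c : ℝ) : N2 κ x t (c • w) = c ^ 2 * N2 κ x t w := by
  have h : tg κ x (c • w) = c • tg κ x w := by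
    rw [tg, tg, Q_smul_right, smul_sub, smul_smul]
  rw [N2, N2, h, B_smul_left, B_smul_right, B_smul_left, Q_smul_right]
  ring

/-- comparison at one point -/
theorem fb_comp {κ : ℝ} {m : ℕ} (hκ : κ = -1 ∨ κ = 0 ∨ κ = 1) {x t : V m} (hx : x ∈ X κ m)
    (ht : Q κ x t = 0) (htt : B κ t t = -1) :
    ∃ c : ℝ, 0 < c ∧ ∀ w : V m, c * ‖w‖ ^ 2 ≤ N2 κ x t w := by
  have hcomp : IsCompact (Metric.sphere (0 : V m) 1) := isCompact_sphere 0 1
  have hne : (Metric.sphere (0 : V m) 1).Nonempty := by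
    exact NormedSpace.sphere_nonempty.2 zero_le_one
  obtain ⟨w0, hw0, hmin⟩ := hcomp.exists_isMinOn hne (fb_N2_cont κ x t).continuousOn
  have hw00 : w0 ≠ 0 := by
    rintro rfl
    rw [mem_sphere_zero_iff_norm, norm_zero] at hw0
    exact zero_ne_one hw0
  refine ⟨N2 κ x t w0, N2_pos hκ hx ht htt hw00, fun w => ?_⟩
  by_cases hw : w = 0
  · subst hw
    rw [norm_zero]
    have := N2_nonneg hκ hx ht htt (0 : V m)
    simpa using this
  · have hn : ‖w‖ ≠ 0 := norm_ne_zero_iff.2 hw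
    have h1 : (‖w‖⁻¹ • w) ∈ Metric.sphere (0 : V m) 1 := by
      rw [mem_sphere_zero_iff_norm, norm_smul, norm_inv, norm_norm, inv_mul_cancel₀ hn]
    have h2 : N2 κ x t w0 ≤ N2 κ x t (‖w‖⁻¹ • w) := hmin h1
    rw [fb_N2_smul] at h2
    have h3 : 0 < ‖w‖ ^ 2 := by positivity
    have h4 : N2 κ x t w = ‖w‖ ^ 2 * (‖w‖⁻¹ ^ 2 * N2 κ x t w) := by
      field_simp
    rw [h4, mul_comm]
    exact mul_le_mul_of_nonneg_left h2 h3.le

/-- the differential inequality -/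
theorem fb_deriv {κ : ℝ} {m : ℕ} (hκ : κ = -1 ∨ κ = 0 ∨ κ = 1) {s : ℝ} {x t : ℝ → V m} {v t' : V m}
    (hx : x s ∈ X κ m) (ht : Q κ (x s) (t s) = 0) (htt : B κ (t s) (t s) = -1)
    (hxd : HasDerivAt x v s) (hv : Q κ (x s) v = 0) (htd : HasDerivAt t t' s)
    (ht' : Q κ (x s) t' = -κ * B κ v (t s)) {C : ℝ} (hvC : N2 κ (x s) (t s) v ≤ C)
    (htC : N2 κ (x s) (t s) t' ≤ C) (w : V m) :
    ∃ D : ℝ, HasDerivAt (fun s => N2 κ (x s) (t s) w) D s ∧
      0 ≤ 6 * (1 + C) * N2 κ (x s) (t s) w + D := by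
  have hq := fb_Q (κ := κ) hxd w
  have hW : HasDerivAt (fun s => tg κ (x s) w) (-(Q κ (x s) w • v + Q κ v w • x s)) s := by
    have h1 := (hq.smul hxd).const_sub w
    exact h1
  have hD := ((fb_B (κ := κ) hW hW).add (((fb_B (κ := κ) hW htd).pow 2).const_mul 2)).add (hq.pow 2)
  refine ⟨_, hD, ?_⟩
  set W := tg κ (x s) w with hWdef
  set q := Q κ (x s) w with hqdef
  have hWt : Q κ (x s) W = 0 := Q_tg hx w
  have e1 : Q κ v w * B κ W (x s) = 0 := QB_zero hκ hx hv hWt w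
  have e2 : Q κ v w * B κ (t s) (x s) = 0 := QB_zero hκ hx hv ht w
  have e3 : κ * B κ v (t s) * B κ W (x s) = 0 := by
    rw [← Q_tan hκ hx hv (t s) ht]
    exact QB_zero hκ hx hv hWt (t s)
  have e4 : Q κ v w = κ * B κ v W := by
    rw [← Q_tan hκ hx hv W hWt]
    conv_lhs => rw [← tg_add_normal (κ := κ) (x s) w]
    rw [Q_add_right, Q_smul_right, Q_comm v (x s), hv, mul_zero, add_zero]
  set T' := tg κ (x s) t' with hT'def
  have hT't : Q κ (x s) T' = 0 := Q_tg hx t'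
  have e5 : B κ W t' = B κ W T' := by
    conv_lhs => rw [← tg_add_normal (κ := κ) (x s) t']
    rw [B_add_right, B_smul_right, ht']
    have : -κ * B κ v (t s) * B κ W (x s) = 0 := by linarith [e3]
    rw [this, add_zero]
  -- the norms
  have n1 : N2 κ (x s) (t s) W = B κ W W + 2 * (B κ W (t s)) ^ 2 := by
    rw [N2, tg_of_tan hWt, hWt]
    ring
  have n2 : N2 κ (x s) (t s) w = N2 κ (x s) (t s) W + q ^ 2 := by
    rw [n1, N2]
  have n3 : N2 κ (x s) (t s) (t s) = 1 := by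
    rw [N2, tg_of_tan ht, ht, htt]
    norm_num
  have n4 : N2 κ (x s) (t s) T' ≤ C := by
    have h1 : N2 κ (x s) (t s) t' = N2 κ (x s) (t s) T' + (Q κ (x s) t') ^ 2 := by
      rw [N2, N2, tg_of_tan hT't, hT't]
      ring
    nlinarith [sq_nonneg (Q κ (x s) t')]
  have p1 := N2_nonneg hκ hx ht htt W
  have pv := N2_nonneg hκ hx ht htt v
  have pT := N2_nonneg hκ hx ht htt T'
  have hC : 0 ≤ C := pv.trans hvC
  have c1 : (B κ v W) ^ 2 ≤ C * N2 κ (x s) (t s) W :=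
    (CS_N2 hκ hx ht htt hv hWt).trans (mul_le_mul_of_nonneg_right hvC p1)
  have c2 : (B κ W (t s)) ^ 2 ≤ N2 κ (x s) (t s) W := by
    have := CS_N2 hκ hx ht htt hWt ht
    rwa [n3, mul_one] at this
  have c3 : (B κ v (t s)) ^ 2 ≤ C := by
    have := CS_N2 hκ hx ht htt hv ht
    rw [n3, mul_one] at this
    exact this.trans hvC
  have c4 : (B κ W T') ^ 2 ≤ C * N2 κ (x s) (t s) W := by
    have := CS_N2 hκ hx ht htt hWt hT't
    rw [mul_comm] at this
    exact this.trans (mul_le_mul_of_nonneg_right n4 p1)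
  -- the derivative
  have hB1 : B κ (-(q • v + Q κ v w • x s)) W = -(q * B κ v W) := by
    rw [B_neg_left, B_add_left, B_smul_left, B_smul_left, B_comm (x s) W, e1, add_zero]
  have hB2 : B κ W (-(q • v + Q κ v w • x s)) = -(q * B κ v W) := by
    rw [B_comm, hB1]
  have hB3 : B κ (-(q • v + Q κ v w • x s)) (t s) = -(q * B κ v (t s)) := by
    rw [B_neg_left, B_add_left, B_smul_left, B_smul_left, B_comm (x s) (t s), e2, add_zero]
  rw [hB1, hB2, hB3, e5, n2]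
  simp only [Nat.cast_ofNat, Nat.add_one_sub_one, pow_one, Nat.reduceSub]
  have hκ1 : |κ| ≤ 1 := by
    rcases hκ with h | h | h <;> rw [h] <;> norm_num
  generalize N2 κ (x s) (t s) W = n at *
  generalize B κ v W = bvW at *
  generalize B κ W (t s) = bWt at *
  generalize B κ v (t s) = bvt at *
  generalize B κ W T' = bWT at *
  rw [e4]
  -- elementary inequality
  have i1 : |q * bvW| ≤ (q ^ 2 + C * n) / 2 := by
    rw [abs_le]
    constructor <;> nlinarith [sq_nonneg (q + bvW), sq_nonneg (q - bvW)]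
  have i2 : |bWt * (q * bvt)| ≤ (n + C * q ^ 2) / 2 := by
    have h1 : (q * bvt) ^ 2 ≤ C * q ^ 2 := by
      rw [mul_pow, mul_comm]
      exact mul_le_mul_of_nonneg_right c3 (sq_nonneg q)
    rw [abs_le]
    constructor <;> nlinarith [sq_nonneg (bWt + q * bvt), sq_nonneg (bWt - q * bvt)]
  have i3 : |bWt * bWT| ≤ (n + C * n) / 2 := by
    rw [abs_le]
    constructor <;> nlinarith [sq_nonneg (bWt + bWT), sq_nonneg (bWt - bWT)]
  have i4 : |κ * (q * bvW)| ≤ (q ^ 2 + C * n) / 2 := by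
    rw [abs_mul]
    exact (mul_le_of_le_one_left (abs_nonneg _) hκ1).trans i1
  have hq2 : 0 ≤ q ^ 2 := sq_nonneg q
  have hCn : 0 ≤ C * n := mul_nonneg hC p1
  have hCq : 0 ≤ C * q ^ 2 := mul_nonneg hC hq2
  have j1 := (abs_le.1 i1)
  have j2 := (abs_le.1 i2)
  have j3 := (abs_le.1 i3)
  have j4 := (abs_le.1 i4)
  nlinarith [j1.1, j1.2, j2.1, j2.2, j3.1, j3.2, j4.1, j4.2]

/-- A moving frame `(x,t)` (point of the model space, unit timelike tangent vector) whose velocity is bounded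
in its own frame stays in a bounded region on bounded time intervals. -/
theorem frame_bound {κ : ℝ} {m : ℕ} (hκ : κ = -1 ∨ κ = 0 ∨ κ = 1) {a b : ℝ} (hab : a < b)
    (x t v t' : ℝ → V m)
    (hx : ∀ s ∈ Ico a b, x s ∈ X κ m) (ht : ∀ s ∈ Ico a b, Q κ (x s) (t s) = 0)
    (htt : ∀ s ∈ Ico a b, B κ (t s) (t s) = -1)
    (hxd : ∀ s ∈ Ico a b, HasDerivAt x (v s) s) (hv : ∀ s ∈ Ico a b, Q κ (x s) (v s) = 0)
    (htd : ∀ s ∈ Ico a b, HasDerivAt t (t' s) s)
    (ht' : ∀ s ∈ Ico a b, Q κ (x s) (t' s) = -κ * B κ (v s) (t s))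
    (C : ℝ) (hvC : ∀ s ∈ Ico a b, N2 κ (x s) (t s) (v s) ≤ C)
    (htC : ∀ s ∈ Ico a b, N2 κ (x s) (t s) (t' s) ≤ C) :
    ∃ M : ℝ, ∀ s ∈ Ico a b, ∀ w : V m, ‖w‖ ^ 2 ≤ M * N2 κ (x s) (t s) w := by
  obtain ⟨c, hc, hcw⟩ := fb_comp hκ (hx a ⟨le_rfl, hab⟩) (ht a ⟨le_rfl, hab⟩) (htt a ⟨le_rfl, hab⟩)
  have hC : 0 ≤ C := by
    have h1 := N2_nonneg hκ (hx a ⟨le_rfl, hab⟩) (ht a ⟨le_rfl, hab⟩) (htt a ⟨le_rfl, hab⟩) (v a)
    exact h1.trans (hvC a ⟨le_rfl, hab⟩)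
  set K := 6 * (1 + C) with hK
  have hK0 : 0 ≤ K := by positivity
  refine ⟨Real.exp (K * (b - a)) / c, fun s hs w => ?_⟩
  have hD : ∀ r ∈ Icc a s, ∃ D : ℝ, HasDerivAt (fun s => N2 κ (x s) (t s) w) D r ∧
      0 ≤ K * N2 κ (x r) (t r) w + D := by
    intro r hr
    have hr' : r ∈ Ico a b := ⟨hr.1, hr.2.trans_lt hs.2⟩
    exact fb_deriv hκ (hx r hr') (ht r hr') (htt r hr') (hxd r hr') (hv r hr') (htd r hr')
      (ht' r hr') (hvC r hr') (htC r hr') w
  have hD2 : ∀ r ∈ Icc a s, ∃ D : ℝ, 0 ≤ D ∧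
      HasDerivAt (fun s => Real.exp (K * s) * N2 κ (x s) (t s) w) D r := by
    intro r hr
    obtain ⟨D, hD1, hD2⟩ := hD r hr
    have h1 : HasDerivAt (fun s : ℝ => Real.exp (K * s)) (Real.exp (K * r) * K) r := by
      have h2 : HasDerivAt (fun s : ℝ => K * s) K r := by
        simpa using (hasDerivAt_id r).const_mul K
      exact h2.exp
    refine ⟨_, ?_, h1.mul hD1⟩
    have h3 : Real.exp (K * r) * K * N2 κ (x r) (t r) w + Real.exp (K * r) * D =
        Real.exp (K * r) * (K * N2 κ (x r) (t r) w + D) := by ring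
    rw [h3]
    exact mul_nonneg (Real.exp_pos _).le hD2
  have hmono : MonotoneOn (fun s => Real.exp (K * s) * N2 κ (x s) (t s) w) (Icc a s) := by
    apply monotoneOn_of_deriv_nonneg (convex_Icc a s)
    · intro r hr
      obtain ⟨D, _, hD⟩ := hD2 r hr
      exact hD.continuousAt.continuousWithinAt
    · intro r hr
      obtain ⟨D, _, hD⟩ := hD2 r (interior_subset hr)
      exact hD.differentiableAt.differentiableWithinAt
    · intro r hr
      obtain ⟨D, hD0, hD⟩ := hD2 r (interior_subset hr)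
      rw [hD.deriv]
      exact hD0
  have h1 := hmono (left_mem_Icc.2 hs.1) (right_mem_Icc.2 hs.1) hs.1
  simp only at h1
  have hφ := N2_nonneg hκ (hx s hs) (ht s hs) (htt s hs) w
  have h2 : N2 κ (x a) (t a) w ≤ Real.exp (K * (b - a)) * N2 κ (x s) (t s) w := by
    have h3 : N2 κ (x a) (t a) w ≤ Real.exp (K * (s - a)) * N2 κ (x s) (t s) w := by
      have h4 : Real.exp (K * s) = Real.exp (K * a) * Real.exp (K * (s - a)) := by
        rw [← Real.exp_add]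
        congr 1
        ring
      rw [h4, mul_assoc (Real.exp (K * a))] at h1
      exact le_of_mul_le_mul_left h1 (Real.exp_pos _)
    refine h3.trans (mul_le_mul_of_nonneg_right (Real.exp_le_exp.2 ?_) hφ)
    exact mul_le_mul_of_nonneg_left (by linarith [hs.2]) hK0
  have h5 := hcw w
  rw [div_mul_eq_mul_div, le_div_iff₀ hc, mul_comm]
  exact h5.trans h2

end Pool.Agent.Helper107.LC
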