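import Mathlib
import Pool.Agent.Helper107.LC.Topo
import Pool.Agent.Helper107.LC.Frame
set_option autoImplicit false
open Set Filter Topology
open scoped ContDiff

namespace Pool.Agent.Helper107.LC

section failsaux
variable {κ : ℝ} {m : ℕ}

theorem fa_kB_zero (hκ : κ = -1 ∨ κ = 0 ∨ κ = 1) {x v : V m} (h : Q κ x v = 0) :
    κ * B κ x v = 0 := by
  rcases hκ with h1 | h1 | h1 <;> subst h1
  · have := Q_eq_B (κ := (-1:ℝ)) x v; rw [h] at this; linarith
  · ring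
  · have := Q_eq_B (κ := (1:ℝ)) x v; rw [h] at this; linarith

theorem fa_hd_fst {f : ℝ → V m} {f' : V m} {t : ℝ} (hf : HasDerivAt f f' t) :
    HasDerivAt (fun s => (f s).1) f'.1 t :=
  (ContinuousLinearMap.fst ℝ ℝ (E m × ℝ)).hasFDerivAt.comp_hasDerivAt t hf

theorem fa_hd_snd {f : ℝ → V m} {f' : V m} {t : ℝ} (hf : HasDerivAt f f' t) :
    HasDerivAt (fun s => (f s).2) f'.2 t :=
  (ContinuousLinearMap.snd ℝ ℝ (E m × ℝ)).hasFDerivAt.comp_hasDerivAt t hf

theorem fa_hd_21 {f : ℝ → V m} {f' : V m} {t : ℝ} (hf : HasDerivAt f f' t) :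
    HasDerivAt (fun s => (f s).2.1) f'.2.1 t :=
  (ContinuousLinearMap.fst ℝ (E m) ℝ).hasFDerivAt.comp_hasDerivAt t (fa_hd_snd hf)

theorem fa_hd_22 {f : ℝ → V m} {f' : V m} {t : ℝ} (hf : HasDerivAt f f' t) :
    HasDerivAt (fun s => (f s).2.2) f'.2.2 t :=
  (ContinuousLinearMap.snd ℝ (E m) ℝ).hasFDerivAt.comp_hasDerivAt t (fa_hd_snd hf)

theorem fa_B_hd {f g : ℝ → V m} {f' g' : V m} {t : ℝ} (hf : HasDerivAt f f' t)
    (hg : HasDerivAt g g' t) :
    HasDerivAt (fun s => B κ (f s) (g s)) (B κ f' (g t) + B κ (f t) g') t := by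
  have h1 := (fa_hd_fst hf).mul (fa_hd_fst hg)
  have h2 := (fa_hd_21 hf).inner ℝ (fa_hd_21 hg)
  have h3 := (fa_hd_22 hf).mul (fa_hd_22 hg)
  have h4 := (h1.neg.add h2).add (h3.const_mul κ)
  have h5 := h4.congr_deriv (g' := B κ f' (g t) + B κ (f t) g') (by simp only [B]; ring)
  exact h5

theorem fa_Q_hd {f g : ℝ → V m} {f' g' : V m} {t : ℝ} (hf : HasDerivAt f f' t)
    (hg : HasDerivAt g g' t) :
    HasDerivAt (fun s => Q κ (f s) (g s)) (Q κ f' (g t) + Q κ (f t) g') t := by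
  have h1 := (fa_hd_fst hf).mul (fa_hd_fst hg)
  have h2 := (fa_hd_21 hf).inner ℝ (fa_hd_21 hg)
  have h3 := (fa_hd_22 hf).mul (fa_hd_22 hg)
  have h4 := ((h1.neg.add h2).const_mul κ).add h3
  have h5 := h4.congr_deriv (g' := Q κ f' (g t) + Q κ (f t) g') (by simp only [Q]; ring)
  exact h5

theorem fa_B_cont : Continuous (fun q : V m × V m => B κ q.1 q.2) := by
  unfold B
  fun_prop

theorem fa_Q_cont : Continuous (fun q : V m × V m => Q κ q.1 q.2) := by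
  unfold Q
  fun_prop

theorem fa_ck_add (hκ : κ = -1 ∨ κ = 0 ∨ κ = 1) (t s : ℝ) :
    ck κ (t + s) = ck κ t * ck κ s + κ * sk κ t * sk κ s := by
  rcases hκ with h | h | h <;> subst h
  · simp only [ck, sk, if_true, Real.cos_add]; ring
  · simp [ck, sk]
  · simp only [ck, sk]
    rw [if_neg (by norm_num), if_neg (by norm_num), if_neg (by norm_num), if_neg (by norm_num),
      if_neg (by norm_num), if_neg (by norm_num), if_neg (by norm_num), if_neg (by norm_num),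
      if_neg (by norm_num), if_neg (by norm_num), Real.cosh_add]
    ring

theorem fa_sk_add (hκ : κ = -1 ∨ κ = 0 ∨ κ = 1) (t s : ℝ) :
    sk κ (t + s) = sk κ t * ck κ s + ck κ t * sk κ s := by
  rcases hκ with h | h | h <;> subst h
  · simp only [ck, sk, if_true, Real.sin_add]
  · simp [ck, sk]
  · simp only [ck, sk]
    rw [if_neg (by norm_num), if_neg (by norm_num), if_neg (by norm_num), if_neg (by norm_num),
      if_neg (by norm_num), if_neg (by norm_num), if_neg (by norm_num), if_neg (by norm_num),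
      if_neg (by norm_num), if_neg (by norm_num), Real.sinh_add]

theorem fa_ray_add (hκ : κ = -1 ∨ κ = 0 ∨ κ = 1) (x u : V m) (t s : ℝ) :
    ck κ s • ray κ x u t + sk κ s • vel κ x u t = ray κ x u (t + s) := by
  rw [ray, ray, vel, fa_ck_add hκ, fa_sk_add hκ]
  module

theorem fa_ck_pos (hκ : κ = -1 ∨ κ = 0 ∨ κ = 1) {s : ℝ} (h0 : 0 ≤ s) (h1 : s ≤ 1) :
    0 < ck κ s := by
  rcases hκ with h | h | h <;> subst h
  · simp only [ck, if_true]
    apply Real.cos_pos_of_mem_Ioo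
    constructor
    · linarith [Real.pi_gt_three]
    · linarith [Real.pi_gt_three]
  · simp [ck]
  · simp only [ck]
    rw [if_neg (by norm_num), if_neg (by norm_num)]
    exact Real.cosh_pos s

theorem fa_sk_mono (hκ : κ = -1 ∨ κ = 0 ∨ κ = 1) {s r : ℝ} (h0 : 0 ≤ s) (hsr : s ≤ r)
    (h1 : r ≤ 1) : 0 ≤ sk κ s ∧ sk κ s ≤ sk κ r := by
  rcases hκ with h | h | h <;> subst h
  · simp only [sk, if_true]
    constructor
    · apply Real.sin_nonneg_of_nonneg_of_le_pi h0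
      linarith [Real.pi_gt_three]
    · apply Real.sin_le_sin_of_le_of_le_pi_div_two
      · linarith [Real.pi_gt_three]
      · linarith [Real.pi_gt_three]
      · exact hsr
  · simpa [sk] using ⟨h0, hsr⟩
  · simp only [sk]
    rw [if_neg (by norm_num), if_neg (by norm_num), if_neg (by norm_num), if_neg (by norm_num)]
    exact ⟨Real.sinh_nonneg_iff.2 h0, Real.sinh_le_sinh.2 hsr⟩

theorem fa_N2_tan {x t w : V m} (h : Q κ x w = 0) :
    N2 κ x t w = B κ w w + 2 * (B κ w t) ^ 2 := by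
  rw [N2, tg_of_tan h, h]
  ring

end failsaux

section failsaux2
variable {κ : ℝ} {m : ℕ} {Y : Type*} [TopologicalSpace Y]

/-- limit of a function with bounded derivative -/
theorem fa_limit {W : Type*} [NormedAddCommGroup W] [NormedSpace ℝ W] [CompleteSpace W]
    {b K : ℝ} (hb : 0 < b) (ℓ ℓ' : ℝ → W) (h : ∀ t ∈ Ioo 0 b, HasDerivAt ℓ (ℓ' t) t)
    (hK : ∀ t ∈ Ioo 0 b, ‖ℓ' t‖ ≤ K) : ∃ ν, Tendsto ℓ (𝓝[<] b) (𝓝 ν) := by
  have hl : LipschitzOnWith (Real.toNNReal K) ℓ (Ioo 0 b) := by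
    apply LipschitzOnWith.of_dist_le_mul
    intro x hx y hy
    have h1 := Convex.norm_image_sub_le_of_norm_hasDerivWithin_le (f := ℓ) (f' := ℓ') (C := K)
      (s := Ioo 0 b) (fun t ht => (h t ht).hasDerivWithinAt) hK (convex_Ioo 0 b) hy hx
    rw [dist_eq_norm, dist_eq_norm]
    refine h1.trans ?_
    apply mul_le_mul_of_nonneg_right (Real.le_coe_toNNReal K) (norm_nonneg _)
  have hc : Cauchy (𝓝[<] b) := cauchy_nhds.mono nhdsWithin_le_nhds
  have hle : 𝓝[<] b ≤ 𝓟 (Ioo 0 b) := by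
    rw [le_principal_iff]
    exact Ioo_mem_nhdsLT hb
  have h2 := Cauchy.map_of_le hc hl.uniformContinuousOn hle
  exact CompleteSpace.complete h2

/-- the key lower bound -/
theorem fa_lower (hκ : κ = -1 ∨ κ = 0 ∨ κ = 1) [T2Space Y] (P : Dev κ m Y) {Γ : Type*} [Group Γ]
    [MulAction Γ Y] {H : Hol P Γ} {TT : TF H} (D : ExData TT)
    {y : Y} {u : V m} {b : ℝ} (hu1 : Q κ (P.p y) u = 0) (hu2 : B κ u u = -1) (σ : ℝ → Y)
    (hσ : ContinuousOn σ (Ico 0 b))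
    (hl : ∀ t ∈ Ico 0 b, P.p (σ t) = ray κ (P.p y) u t)
    (hn : ¬ ∃ y₁, Tendsto σ (𝓝[<] b) (𝓝 y₁)) {t : ℝ} (ht : t ∈ Ico 0 b) (ht1 : b - t ≤ 1) :
    D.ε ^ 2 ≤ sk κ (b - t) ^ 2 * (2 * (B κ (vel κ (P.p y) u t) (TT.T (σ t))) ^ 2 - 1) := by
  by_contra hcon
  push Not at hcon
  apply hn
  have hpy := P.mem y
  set x := ray κ (P.p y) u t with hx
  set U := vel κ (P.p y) u t with hU
  set T := TT.T (σ t) with hT
  have hxm : x ∈ X κ m := ray_mem hκ hpy hu1 hu2 t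
  have hUt : Q κ x U = 0 := vel_tan hκ hpy hu1 hu2 t
  have hUU : B κ U U = -1 := vel_unit hκ hpy hu1 hu2 t
  have hpx : P.p (σ t) = x := hl t ht
  have hTt : Q κ x T = 0 := by rw [← hpx]; exact TT.tan (σ t)
  have hTT : B κ T T = -1 := TT.unit (σ t)
  have hβ : 1 ≤ (B κ U T) ^ 2 := one_le_sq_B hκ hxm hTt hTT hUt hUU
  have hQ : ∀ s : ℝ, Q κ (P.p (σ t)) (sk κ s • U) = 0 := by
    intro s; rw [hpx, Q_smul_right, hUt, mul_zero]
  have hN : ∀ s ∈ Icc 0 (b - t), N2 κ (P.p (σ t)) (TT.T (σ t)) (sk κ s • U) < D.ε ^ 2 := by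
    intro s hs
    rw [fa_N2_tan (hQ s), B_smul_left, B_smul_right, B_smul_left, hUU]
    have h1 := fa_sk_mono hκ hs.1 hs.2 ht1
    have h2 : sk κ s ^ 2 ≤ sk κ (b - t) ^ 2 := by
      apply pow_le_pow_left₀ h1.1 h1.2
    have h3 : sk κ s ^ 2 * (2 * (B κ U T) ^ 2 - 1) ≤ sk κ (b - t) ^ 2 * (2 * (B κ U T) ^ 2 - 1) := by
      apply mul_le_mul_of_nonneg_right h2
      linarith
    have e : sk κ s * (sk κ s * -1) + 2 * (sk κ s * B κ U (TT.T (σ t))) ^ 2
      = sk κ s ^ 2 * (2 * (B κ U T) ^ 2 - 1) := by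
      rw [hT]; ring
    rw [e]
    linarith
  let ζ : ℝ → Y := fun s => D.ex (σ t) (sk κ (s - t) • U)
  have hskc : Continuous (sk κ) := by
    rw [continuous_iff_continuousAt]
    intro s
    exact (hasDerivAt_sk hκ s).continuousAt
  have hζc : ContinuousOn ζ (Icc t b) := by
    have h1 : ContinuousOn (fun s : ℝ => ((σ t, sk κ (s - t) • U) : Y × V m)) (Icc t b) := by
      apply Continuous.continuousOn
      refine continuous_const.prodMk ?_
      exact (hskc.comp (continuous_id.sub continuous_const)).smul continuous_const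
    refine ContinuousOn.comp (g := fun q : Y × V m => D.ex q.1 q.2) D.cont h1 ?_
    intro s hs
    exact ⟨hQ _, hN (s - t) ⟨by linarith [hs.1], by linarith [hs.2]⟩⟩
  have hζp : ∀ s ∈ Icc t b, P.p (ζ s) = ray κ (P.p y) u s := by
    intro s hs
    have hs' : s - t ∈ Icc 0 (b - t) := ⟨by linarith [hs.1], by linarith [hs.2]⟩
    have h1 := D.pex (σ t) (sk κ (s - t) • U) (hQ _) (hN (s - t) hs')
    have h2 : 0 < ck κ (s - t) := fa_ck_pos hκ hs'.1 (by linarith [hs'.2])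
    have h3 : Real.sqrt (1 - κ * B κ (sk κ (s - t) • U) (sk κ (s - t) • U)) = ck κ (s - t) := by
      rw [B_smul_left, B_smul_right, hUU]
      have h4 := ck_sq hκ (s - t)
      have h5 : 1 - κ * (sk κ (s - t) * (sk κ (s - t) * -1)) = ck κ (s - t) ^ 2 := by
        linarith [h4]
      rw [h5]
      exact Real.sqrt_sq h2.le
    change P.p (D.ex (σ t) (sk κ (s - t) • U)) = _
    rw [h1, og, h3, hpx, hx, hU, fa_ray_add hκ]
    congr 1
    ring
  have hζt : ζ t = σ t := by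
    change D.ex (σ t) (sk κ (t - t) • U) = σ t
    rw [sub_self, sk_zero hκ, zero_smul]
    exact D.ex_zero _
  have hEq : EqOn σ ζ (Ico t b) := by
    refine P.lift_unique isPreconnected_Ico (hσ.mono ?_) (hζc.mono Ico_subset_Icc_self) ?_
      (t0 := t) ⟨le_refl _, ht.2⟩ hζt.symm
    · intro s hs
      exact ⟨ht.1.trans hs.1, hs.2⟩
    · intro s hs
      rw [hl s ⟨ht.1.trans hs.1, hs.2⟩, hζp s ⟨hs.1, hs.2.le⟩]
  refine ⟨ζ b, ?_⟩
  have h1 : Tendsto ζ (𝓝[<] b) (𝓝 (ζ b)) := by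
    have h2 : ContinuousWithinAt ζ (Icc t b) b := hζc b ⟨ht.2.le, le_refl _⟩
    have h3 : 𝓝[<] b ≤ 𝓝[Icc t b] b := by
      rw [nhdsWithin_le_iff]
      have := Ioo_mem_nhdsLT ht.2
      exact Filter.mem_of_superset this Ioo_subset_Icc_self
    exact h2.mono_left h3
  refine h1.congr' ?_
  have h4 : Ioo t b ∈ 𝓝[<] b := Ioo_mem_nhdsLT ht.2
  filter_upwards [h4] with s hs
  exact (hEq ⟨hs.1.le, hs.2⟩).symm

end failsaux2

section failsaux3
variable {κ : ℝ} {m : ℕ}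

/-- algebra of the derivative of `ℓ = β⁻¹ • T` -/
theorem fa_alg (hκ : κ = -1 ∨ κ = 0 ∨ κ = 1) {x U T A : V m} {β C1 : ℝ} (hx : x ∈ X κ m)
    (hU : Q κ x U = 0) (hT : Q κ x T = 0) (hUU : B κ U U = -1) (hTT : B κ T T = -1)
    (hβ : β = -B κ U T) (hβ1 : 1 ≤ β) (hTA : B κ T A = 0) (hxA : Q κ x A = κ * β)
    (hN : N2 κ x T A ≤ C1 * N2 κ x T U) :
    N2 κ x U ((-(-B κ U A) / β ^ 2) • T + β⁻¹ • A) ≤ 2 * C1 + 1 := by
  have hβ0 : 0 < β := by linarith
  have hUT : B κ U T = -β := by linarith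
  have hxx : Q κ x x = 1 := hx
  have hxT : κ * B κ x T = 0 := fa_kB_zero hκ hT
  have hxU : κ * B κ x U = 0 := fa_kB_zero hκ hU
  have hκ2 : κ ^ 2 ≤ 1 := by
    rcases hκ with h | h | h <;> subst h <;> norm_num
  -- the projection of A
  set a := B κ (tg κ x A) (tg κ x A) with ha
  have hAT : B κ (tg κ x A) T = 0 := by
    rw [tg, B_sub_left, B_smul_left, hxA, B_comm A T, hTA]
    linear_combination (-β) * hxT
  have hAT' : B κ T (tg κ x A) = 0 := by rw [B_comm]; exact hAT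
  have hN1 : N2 κ x T A = a + (κ * β) ^ 2 := by
    rw [N2, hAT, hxA, ← ha]; ring
  have hN2 : N2 κ x T U = 2 * β ^ 2 - 1 := by
    rw [fa_N2_tan hU, hUU, hUT]; ring
  have hN0 : 0 ≤ N2 κ x T A := N2_nonneg hκ hx hT hTT A
  have hβ2 : 1 ≤ β ^ 2 := by nlinarith
  rw [hN2] at hN
  have hC1 : 0 ≤ C1 := by
    by_contra h
    push Not at h
    have : C1 * (2 * β ^ 2 - 1) < 0 := mul_neg_of_neg_of_pos h (by linarith)
    linarith
  have hale : a ≤ 2 * C1 * β ^ 2 := by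
    have h1 : 0 ≤ (κ * β) ^ 2 := sq_nonneg _
    rw [hN1] at hN
    nlinarith
  set c : ℝ := -(-B κ U A) / β ^ 2 with hc
  have hQL : Q κ x (c • T + β⁻¹ • A) = κ := by
    rw [Q_add_right, Q_smul_right, Q_smul_right, hT, hxA]
    field_simp
    ring
  have htg : tg κ x (c • T + β⁻¹ • A) = c • T + β⁻¹ • tg κ x A := by
    rw [tg, hQL, tg, hxA, smul_sub, smul_smul]
    have : β⁻¹ * (κ * β) = κ := by field_simp
    rw [this]
    abel
  have hWU : B κ (c • T + β⁻¹ • tg κ x A) U = 0 := by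
    rw [B_add_left, B_smul_left, B_smul_left, tg, B_sub_left, B_smul_left, hxA, B_comm T U, hUT,
      B_comm A U, hc]
    have h1 : κ * β * B κ x U = 0 := by linear_combination β * hxU
    rw [h1]
    field_simp
    ring
  have hWW : B κ (c • T + β⁻¹ • tg κ x A) (c • T + β⁻¹ • tg κ x A) = -c ^ 2 + β⁻¹ ^ 2 * a := by
    simp only [B_add_left, B_add_right, B_smul_left, B_smul_right, hAT, hAT', hTT, ← ha]
    ring
  have h2 : β⁻¹ ^ 2 * a ≤ 2 * C1 := by
    have h3 : β⁻¹ ^ 2 * a ≤ β⁻¹ ^ 2 * (2 * C1 * β ^ 2) :=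
      mul_le_mul_of_nonneg_left hale (sq_nonneg _)
    have h4 : β⁻¹ ^ 2 * (2 * C1 * β ^ 2) = 2 * C1 := by field_simp
    linarith
  rw [N2, hQL, htg, hWU, hWW]
  nlinarith [sq_nonneg c]

end failsaux3

/-- limit direction of the field at the end of an incomplete timelike geodesic -/
theorem Dev.failsAt_of_not_tendsto {κ : ℝ} {m : ℕ} (hκ : κ = -1 ∨ κ = 0 ∨ κ = 1) {Y : Type*}
    [TopologicalSpace Y] [T2Space Y] (P : Dev κ m Y) {Γ : Type*} [Group Γ] [MulAction Γ Y]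
    {H : Hol P Γ} {TT : TF H} (D : ExData TT)
    {y : Y} {u : V m} {b : ℝ} (hu : P.Fut TT.T y u) (hb : 0 < b) (σ : ℝ → Y)
    (hσ : ContinuousOn σ (Ico 0 b)) (h0 : σ 0 = y)
    (hl : ∀ t ∈ Ico 0 b, P.p (σ t) = ray κ (P.p y) u t)
    (hn : ¬ ∃ y₁, Tendsto σ (𝓝[<] b) (𝓝 y₁)) :
    ∃ ν, P.FailsAt TT.T y u b ν := by
  obtain ⟨hu1, hu2, hu3⟩ := hu
  have hpy := P.mem y
  let x : ℝ → V m := ray κ (P.p y) u
  let U : ℝ → V m := vel κ (P.p y) u
  let T : ℝ → V m := fun t => TT.T (σ t)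
  let β : ℝ → ℝ := fun t => -B κ (U t) (T t)
  have hxm : ∀ t, x t ∈ X κ m := fun t => ray_mem hκ hpy hu1 hu2 t
  have hUt : ∀ t, Q κ (x t) (U t) = 0 := fun t => vel_tan hκ hpy hu1 hu2 t
  have hUU : ∀ t, B κ (U t) (U t) = -1 := fun t => vel_unit hκ hpy hu1 hu2 t
  have hpx : ∀ t ∈ Ico 0 b, P.p (σ t) = x t := hl
  have hTt : ∀ t ∈ Ico 0 b, Q κ (x t) (T t) = 0 := by
    intro t ht; rw [← hpx t ht]; exact TT.tan (σ t)
  have hTT : ∀ t, B κ (T t) (T t) = -1 := fun t => TT.unit (σ t)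
  have hxd : ∀ t, HasDerivAt x (U t) t := fun t => hasDerivAt_ray hκ (P.p y) u t
  have hUd : ∀ t, HasDerivAt U (κ • x t) t := fun t => hasDerivAt_vel hκ (P.p y) u t
  have hxc : Continuous x := continuous_iff_continuousAt.2 fun t => (hxd t).continuousAt
  have hUc : Continuous U := continuous_iff_continuousAt.2 fun t => (hUd t).continuousAt
  have hTc : ContinuousOn T (Ico 0 b) := (Dev.Sm.continuous TT.sm).comp_continuousOn hσ
  have hβc : ContinuousOn β (Ico 0 b) := by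
    have h1 : ContinuousOn (fun t => ((U t, T t) : V m × V m)) (Ico 0 b) :=
      hUc.continuousOn.prodMk hTc
    exact (fa_B_cont.comp_continuousOn h1).neg
  have hβsq : ∀ t ∈ Ico 0 b, 1 ≤ (β t) ^ 2 := by
    intro t ht
    have := one_le_sq_B hκ (hxm t) (hTt t ht) (hTT t) (hUt t) (hUU t)
    change 1 ≤ (-B κ (U t) (T t)) ^ 2
    rw [neg_sq]
    exact this
  have hβ0 : 0 < β 0 := by
    change 0 < -B κ (vel κ (P.p y) u 0) (TT.T (σ 0))
    rw [vel_zero hκ, h0]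
    linarith
  have hβpos : ∀ t ∈ Ico 0 b, 0 < β t := by
    intro t ht
    by_contra hneg
    push Not at hneg
    have hsub : Icc 0 t ⊆ Ico 0 b := fun s hs => ⟨hs.1, lt_of_le_of_lt hs.2 ht.2⟩
    have h1 := intermediate_value_Icc' ht.1 (hβc.mono hsub)
    obtain ⟨s, hs, hs0⟩ := h1 (show (0:ℝ) ∈ Icc (β t) (β 0) from ⟨hneg, hβ0.le⟩)
    have h2 := hβsq s (hsub hs)
    rw [hs0] at h2
    norm_num at h2
  have hβ1 : ∀ t ∈ Ico 0 b, 1 ≤ β t := by
    intro t ht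
    have h1 := hβsq t ht
    have h2 := hβpos t ht
    nlinarith
  have hmem : Ioo 0 b ∈ 𝓝[<] b := Ioo_mem_nhdsLT hb
  -- blow up of β
  have hβtop : Tendsto β (𝓝[<] b) atTop := by
    rw [tendsto_atTop]
    intro M
    have hskc : Continuous (sk κ) := by
      rw [continuous_iff_continuousAt]
      intro s
      exact (hasDerivAt_sk hκ s).continuousAt
    have h1 : Continuous (fun t => sk κ (b - t) ^ 2 * (2 * (max M 1) ^ 2)) := by
      have h2 : Continuous (fun t => sk κ (b - t)) := hskc.comp (continuous_const.sub continuous_id)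
      exact (h2.pow 2).mul continuous_const
    have h2 : Tendsto (fun t => sk κ (b - t) ^ 2 * (2 * (max M 1) ^ 2)) (𝓝[<] b) (𝓝 0) := by
      have h3 := (h1.tendsto b).mono_left (nhdsWithin_le_nhds (s := Iio b))
      simpa [sk_zero hκ] using h3
    have h3 : ∀ᶠ t in 𝓝[<] b, sk κ (b - t) ^ 2 * (2 * (max M 1) ^ 2) < D.ε ^ 2 := by
      have := D.ε_pos
      exact h2.eventually (gt_mem_nhds (by positivity))
    have h4 : Ioo (b - 1) b ∈ 𝓝[<] b := Ioo_mem_nhdsLT (by linarith)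
    filter_upwards [h3, h4, hmem] with t ht1 ht2 ht3
    by_contra hM
    push Not at hM
    have ht : t ∈ Ico 0 b := ⟨ht3.1.le, ht3.2⟩
    have h5 := fa_lower hκ P D hu1 hu2 σ hσ hl hn ht (by linarith [ht2.1])
    have h6 : (B κ (vel κ (P.p y) u t) (TT.T (σ t))) ^ 2 = (β t) ^ 2 := by
      change _ = (-B κ (vel κ (P.p y) u t) (TT.T (σ t))) ^ 2
      rw [neg_sq]
    rw [h6] at h5
    have h7 := hβ1 t ht
    have h8 : β t ≤ max M 1 := hM.le.trans (le_max_left _ _)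
    have h9 : (β t) ^ 2 ≤ (max M 1) ^ 2 := by
      apply pow_le_pow_left₀ (by linarith) h8
    have h10 : sk κ (b - t) ^ 2 * (2 * (β t) ^ 2 - 1) ≤ sk κ (b - t) ^ 2 * (2 * (max M 1) ^ 2) := by
      apply mul_le_mul_of_nonneg_left _ (sq_nonneg _)
      linarith
    linarith
  -- derivatives
  have hnear : ∀ t ∈ Ioo 0 b, ∀ᶠ s in 𝓝 t, s ∈ Ioo 0 b := fun t ht => isOpen_Ioo.mem_nhds ht
  let A : ℝ → V m := fun t => P.d TT.T (σ t) (U t)
  have hTd : ∀ t ∈ Ioo 0 b, HasDerivAt T (A t) t := by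
    intro t ht
    have hc : ContinuousAt σ t :=
      (hσ t ⟨ht.1.le, ht.2⟩).continuousAt (Filter.mem_of_superset (hnear t ht) Ioo_subset_Ico_self)
    have hd : HasDerivAt (P.p ∘ σ) (U t) t := by
      refine (hxd t).congr_of_eventuallyEq ?_
      filter_upwards [hnear t ht] with s hs
      exact hpx s ⟨hs.1.le, hs.2⟩
    exact Dev.hasDerivAt_comp P TT.sm σ t hc (U t) hd
  have hTA : ∀ t ∈ Ioo 0 b, B κ (T t) (A t) = 0 := by
    intro t ht
    have h1 := fa_B_hd (κ := κ) (hTd t ht) (hTd t ht)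
    have h2 : HasDerivAt (fun s => B κ (T s) (T s)) 0 t := by
      have : (fun s => B κ (T s) (T s)) = fun _ => (-1 : ℝ) := by
        ext s; exact hTT s
      rw [this]
      exact hasDerivAt_const t (-1 : ℝ)
    have h3 := h1.unique h2
    rw [B_comm (A t) (T t)] at h3
    linarith
  have hxA : ∀ t ∈ Ioo 0 b, Q κ (x t) (A t) = κ * β t := by
    intro t ht
    have ht' : t ∈ Ico 0 b := ⟨ht.1.le, ht.2⟩
    have h1 := fa_Q_hd (κ := κ) (hxd t) (hTd t ht)
    have h2 : HasDerivAt (fun s => Q κ (x s) (T s)) 0 t := by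
      refine (hasDerivAt_const t (0 : ℝ)).congr_of_eventuallyEq ?_
      filter_upwards [hnear t ht] with s hs
      exact hTt s ⟨hs.1.le, hs.2⟩
    have h3 := h1.unique h2
    have h4 := Q_tan hκ (hxm t) (hUt t) (T t) (hTt t ht')
    change _ = κ * -B κ (U t) (T t)
    linarith
  have hβd : ∀ t ∈ Ioo 0 b, HasDerivAt β (-B κ (U t) (A t)) t := by
    intro t ht
    have ht' : t ∈ Ico 0 b := ⟨ht.1.le, ht.2⟩
    have h1 := (fa_B_hd (κ := κ) (hUd t) (hTd t ht)).neg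
    have h2 : B κ (κ • x t) (T t) = 0 := by
      rw [B_smul_left]
      exact fa_kB_zero hκ (hTt t ht')
    rw [h2, zero_add] at h1
    exact h1
  let ℓ : ℝ → V m := fun t => (β t)⁻¹ • T t
  let ℓ' : ℝ → V m := fun t => (-(-B κ (U t) (A t)) / (β t) ^ 2) • T t + (β t)⁻¹ • A t
  have hℓd : ∀ t ∈ Ioo 0 b, HasDerivAt ℓ (ℓ' t) t := by
    intro t ht
    have ht' : t ∈ Ico 0 b := ⟨ht.1.le, ht.2⟩
    have h1 := (hβd t ht).inv (hβpos t ht').ne'
    have h2 := h1.smul (hTd t ht)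
    refine h2.congr_deriv ?_
    change _ = (-(-B κ (U t) (A t)) / (β t) ^ 2) • T t + (β t)⁻¹ • A t
    rw [add_comm]
    rfl
  have hN : ∀ t ∈ Ioo 0 b, N2 κ (x t) (U t) (ℓ' t) ≤ 2 * D.C1 + 1 := by
    intro t ht
    have ht' : t ∈ Ico 0 b := ⟨ht.1.le, ht.2⟩
    have h1 := D.dT (σ t) (U t) (by rw [hpx t ht']; exact hUt t)
    rw [hpx t ht'] at h1
    exact fa_alg hκ (hxm t) (hUt t) (hTt t ht') (hUU t) (hTT t) rfl (hβ1 t ht') (hTA t ht)
      (hxA t ht) h1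
  obtain ⟨M, hM⟩ := frame_bound hκ hb x U U (fun t => κ • x t) (fun s _ => hxm s)
    (fun s _ => hUt s) (fun s _ => hUU s) (fun s _ => hxd s) (fun s _ => hUt s)
    (fun s _ => hUd s)
    (by
      intro s _
      rw [Q_smul_right, hUU s]
      have : Q κ (x s) (x s) = 1 := hxm s
      rw [this]; ring) 1
    (by
      intro s _
      rw [fa_N2_tan (hUt s), hUU s]; norm_num)
    (by
      intro s _
      have h1 : Q κ (x s) (x s) = 1 := hxm s
      have h2 : tg κ (x s) (κ • x s) = 0 := by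
        rw [tg, Q_smul_right, h1, mul_one, sub_self]
      rw [N2, h2, B_zero_left, B_zero_left, Q_smul_right, h1]
      rcases hκ with h | h | h <;> subst h <;> norm_num)
  have hK : ∀ t ∈ Ioo 0 b, ‖ℓ' t‖ ≤ |M| * (2 * D.C1 + 1) + 1 := by
    intro t ht
    have ht' : t ∈ Ico 0 b := ⟨ht.1.le, ht.2⟩
    have h1 := hM t ht' (ℓ' t)
    have h2 := hN t ht
    have h3 : 0 ≤ N2 κ (x t) (U t) (ℓ' t) := N2_nonneg hκ (hxm t) (hUt t) (hUU t) _
    have h4 : M * N2 κ (x t) (U t) (ℓ' t) ≤ |M| * (2 * D.C1 + 1) := by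
      calc M * N2 κ (x t) (U t) (ℓ' t) ≤ |M| * N2 κ (x t) (U t) (ℓ' t) :=
            mul_le_mul_of_nonneg_right (le_abs_self M) h3
        _ ≤ |M| * (2 * D.C1 + 1) := mul_le_mul_of_nonneg_left h2 (abs_nonneg M)
    have h5 : 0 ≤ |M| * (2 * D.C1 + 1) := by
      apply mul_nonneg (abs_nonneg M)
      linarith
    by_contra hcon
    push Not at hcon
    have h6 : (|M| * (2 * D.C1 + 1) + 1) ^ 2 < ‖ℓ' t‖ ^ 2 := by
      apply pow_lt_pow_left₀ hcon (by linarith)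
      norm_num
    nlinarith
  obtain ⟨ν, hν⟩ := fa_limit hb ℓ ℓ' hℓd hK
  have hxb : Tendsto x (𝓝[<] b) (𝓝 (x b)) := (hxc.tendsto b).mono_left nhdsWithin_le_nhds
  have hUb : Tendsto U (𝓝[<] b) (𝓝 (U b)) := (hUc.tendsto b).mono_left nhdsWithin_le_nhds
  refine ⟨ν, hb, ⟨σ, hσ, h0, hl, hβtop, hν⟩, ?_, ?_, ?_⟩
  · have h1 : Tendsto (fun t => B κ (ℓ t) (ℓ t)) (𝓝[<] b) (𝓝 (B κ ν ν)) :=
      (fa_B_cont.tendsto (ν, ν)).comp (hν.prodMk_nhds hν)
    have h2 : Tendsto (fun t => B κ (ℓ t) (ℓ t)) (𝓝[<] b) (𝓝 0) := by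
      have h3 : Tendsto (fun t => -((β t)⁻¹ * (β t)⁻¹)) (𝓝[<] b) (𝓝 0) := by
        have h4 := tendsto_inv_atTop_zero.comp hβtop
        simpa using (h4.mul h4).neg
      refine h3.congr ?_
      intro t
      change _ = B κ ((β t)⁻¹ • T t) ((β t)⁻¹ • T t)
      rw [B_smul_left, B_smul_right, hTT t]
      ring
    exact tendsto_nhds_unique h1 h2
  · have h1 : Tendsto (fun t => Q κ (x t) (ℓ t)) (𝓝[<] b) (𝓝 (Q κ (x b) ν)) :=
      (fa_Q_cont.tendsto (x b, ν)).comp (hxb.prodMk_nhds hν)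
    have h2 : Tendsto (fun t => Q κ (x t) (ℓ t)) (𝓝[<] b) (𝓝 0) := by
      refine tendsto_const_nhds.congr' ?_
      filter_upwards [hmem] with t ht
      change _ = Q κ (x t) ((β t)⁻¹ • T t)
      rw [Q_smul_right, hTt t ⟨ht.1.le, ht.2⟩, mul_zero]
    exact tendsto_nhds_unique h1 h2
  · have h1 : Tendsto (fun t => B κ (U t) (ℓ t)) (𝓝[<] b) (𝓝 (B κ (U b) ν)) :=
      (fa_B_cont.tendsto (U b, ν)).comp (hUb.prodMk_nhds hν)
    have h2 : Tendsto (fun t => B κ (U t) (ℓ t)) (𝓝[<] b) (𝓝 (-1)) := by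
      refine tendsto_const_nhds.congr' ?_
      filter_upwards [hmem] with t ht
      have h3 := hβpos t ⟨ht.1.le, ht.2⟩
      change _ = B κ (U t) ((β t)⁻¹ • T t)
      rw [B_smul_right]
      have h4 : B κ (U t) (T t) = -β t := by
        change _ = - -B κ (U t) (T t)
        ring
      rw [h4]
      field_simp
    exact tendsto_nhds_unique h1 h2

end Pool.Agent.Helper107.LC
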