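import Mathlib
import Pool.Agent.Helper107.LC.FBasic
import Pool.Agent.Helper107.LC.KA
import Pool.Agent.Helper107.LC.Hyper
import Pool.Agent.Helper107.LC.Impl
set_option autoImplicit false
open Set Filter Topology
open scoped ContDiff

namespace Pool.Agent.Helper107.LC

section keyaux
variable {κ : ℝ} {m : ℕ}

theorem ks_cont_B : Continuous (fun p : V m × V m => B κ p.1 p.2) := by
  unfold B
  fun_prop

theorem ks_cont_Q : Continuous (fun p : V m × V m => Q κ p.1 p.2) := by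
  unfold Q
  fun_prop

theorem ks_cont_tg : Continuous (fun p : V m × V m => tg κ p.1 p.2) := by
  unfold tg
  exact continuous_snd.sub (ks_cont_Q.smul continuous_fst)

theorem ks_cont_ck (hκ : κ = -1 ∨ κ = 0 ∨ κ = 1) : Continuous (ck κ) :=
  continuous_iff_continuousAt.2 fun t => (hasDerivAt_ck hκ t).continuousAt

theorem ks_cont_sk (hκ : κ = -1 ∨ κ = 0 ∨ κ = 1) : Continuous (sk κ) :=
  continuous_iff_continuousAt.2 fun t => (hasDerivAt_sk hκ t).continuousAt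

theorem ks_B_tendsto {Z : Type*} {l : Filter Z} {a b : Z → V m} {a0 b0 : V m}
    (ha : Tendsto a l (𝓝 a0)) (hb : Tendsto b l (𝓝 b0)) :
    Tendsto (fun z => B κ (a z) (b z)) l (𝓝 (B κ a0 b0)) :=
  (ks_cont_B.tendsto (a0, b0)).comp (ha.prodMk_nhds hb)

theorem ks_Q_tendsto {Z : Type*} {l : Filter Z} {a b : Z → V m} {a0 b0 : V m}
    (ha : Tendsto a l (𝓝 a0)) (hb : Tendsto b l (𝓝 b0)) :
    Tendsto (fun z => Q κ (a z) (b z)) l (𝓝 (Q κ a0 b0)) :=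
  (ks_cont_Q.tendsto (a0, b0)).comp (ha.prodMk_nhds hb)

theorem ks_tg_tendsto {Z : Type*} {l : Filter Z} {a b : Z → V m} {a0 b0 : V m}
    (ha : Tendsto a l (𝓝 a0)) (hb : Tendsto b l (𝓝 b0)) :
    Tendsto (fun z => tg κ (a z) (b z)) l (𝓝 (tg κ a0 b0)) :=
  (ks_cont_tg.tendsto (a0, b0)).comp (ha.prodMk_nhds hb)

theorem ks_ray_tendsto (hκ : κ = -1 ∨ κ = 0 ∨ κ = 1) {Z : Type*} {l : Filter Z} {a b : Z → V m}
    {s : Z → ℝ} {a0 b0 : V m} {s0 : ℝ}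
    (ha : Tendsto a l (𝓝 a0)) (hb : Tendsto b l (𝓝 b0)) (hs : Tendsto s l (𝓝 s0)) :
    Tendsto (fun z => ray κ (a z) (b z) (s z)) l (𝓝 (ray κ a0 b0 s0)) := by
  unfold ray
  exact ((((ks_cont_ck hκ).tendsto s0).comp hs).smul ha).add
    ((((ks_cont_sk hκ).tendsto s0).comp hs).smul hb)

theorem ks_vel_tendsto (hκ : κ = -1 ∨ κ = 0 ∨ κ = 1) {Z : Type*} {l : Filter Z} {a b : Z → V m}
    {s : Z → ℝ} {a0 b0 : V m} {s0 : ℝ}
    (ha : Tendsto a l (𝓝 a0)) (hb : Tendsto b l (𝓝 b0)) (hs : Tendsto s l (𝓝 s0)) :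
    Tendsto (fun z => vel κ (a z) (b z) (s z)) l (𝓝 (vel κ a0 b0 s0)) := by
  unfold vel
  exact (((((ks_cont_sk hκ).tendsto s0).comp hs).const_mul κ).smul ha).add
    ((((ks_cont_ck hκ).tendsto s0).comp hs).smul hb)

theorem ks_unifG (hκ : κ = -1 ∨ κ = 0 ∨ κ = 1) (x0 u0 : V m) : Continuous (fun p : (V m × V m) × (ℝ × ℝ) =>
      ‖ray κ p.1.1 p.1.2 p.2.1 - ray κ x0 u0 p.2.2‖) := by
  have h1 : Continuous (fun p : (V m × V m) × (ℝ × ℝ) => ray κ p.1.1 p.1.2 p.2.1) :=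
      continuous_iff_continuousAt.2 fun p => ks_ray_tendsto hκ
        ((continuous_fst.comp continuous_fst).tendsto p)
        ((continuous_snd.comp continuous_fst).tendsto p)
        ((continuous_fst.comp continuous_snd).tendsto p)
  have h2 : Continuous (fun p : (V m × V m) × (ℝ × ℝ) => ray κ x0 u0 p.2.2) :=
      continuous_iff_continuousAt.2 fun p => ks_ray_tendsto hκ
        tendsto_const_nhds tendsto_const_nhds
        ((continuous_snd.comp continuous_snd).tendsto p)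
  exact (h1.sub h2).norm

theorem ks_thick (t1 b0 : ℝ) (C : Set (ℝ × ℝ)) (hC : IsOpen C)
    (hC1 : ((fun t : ℝ => (t, t)) '' Icc t1 b0) ⊆ C)
    (hK : IsCompact ((fun t : ℝ => (t, t)) '' Icc t1 b0)) :
    ∃ η > 0, ∀ t ∈ Icc t1 b0, ∀ s : ℝ, |s - t| < η → (s, t) ∈ C := by
  obtain ⟨η, hη, hηC⟩ := hK.exists_thickening_subset_open hC hC1
  refine ⟨η, hη, ?_⟩
  intro t ht s hs
  apply hηC
  rw [Metric.mem_thickening_iff]
  refine ⟨(t, t), ⟨t, ht, rfl⟩, ?_⟩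
  rw [Prod.dist_eq]
  simp only [dist_self, Real.dist_eq]
  exact max_lt hs hη

theorem ks_tube {Z : Type*} [TopologicalSpace Z] (z0 : Z) (t1 b0 : ℝ) {δ : ℝ}
    (F : Z × (ℝ × ℝ) → ℝ) (hF : Continuous F) (h0 : ∀ t ∈ Icc t1 b0, F (z0, (t, t)) < δ) :
    ∃ η > 0, ∀ᶠ q : Z in 𝓝 z0, ∀ t ∈ Icc t1 b0, ∀ s : ℝ, |s - t| < η → F (q, (s, t)) < δ := by
  have hO : IsOpen {p : Z × (ℝ × ℝ) | F p < δ} := isOpen_lt hF continuous_const
  have hK : IsCompact ((fun t : ℝ => (t, t)) '' Icc t1 b0) :=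
    isCompact_Icc.image (by fun_prop)
  have hsub : ({z0} : Set Z) ×ˢ ((fun t : ℝ => (t, t)) '' Icc t1 b0) ⊆
      {p : Z × (ℝ × ℝ) | F p < δ} := by
    rintro ⟨q, p⟩ ⟨hq, t, ht, hp⟩
    have hq' : q = z0 := hq
    have hp' : p = (t, t) := hp.symm
    rw [hq', hp']
    exact h0 t ht
  obtain ⟨A, C, hA, hC, hA1, hC1, hAC⟩ := generalized_tube_lemma isCompact_singleton hK hO hsub
  obtain ⟨η, hη, hηC⟩ := ks_thick t1 b0 C hC hC1 hK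
  refine ⟨η, hη, ?_⟩
  have hmem : z0 ∈ A := hA1 (mem_singleton _)
  filter_upwards [hA.mem_nhds hmem] with q hq
  intro t ht s hs
  exact hAC (show (q, (s, t)) ∈ A ×ˢ C from ⟨hq, hηC t ht s hs⟩)

theorem ks_unif (hκ : κ = -1 ∨ κ = 0 ∨ κ = 1) (x0 u0 : V m) (t1 b0 : ℝ) {δ : ℝ} (hδ : 0 < δ) :
    ∃ η > 0, ∀ᶠ q : V m × V m in 𝓝 (x0, u0), ∀ t ∈ Icc t1 b0, ∀ s : ℝ, |s - t| < η →
      ‖ray κ q.1 q.2 s - ray κ x0 u0 t‖ < δ :=
  ks_tube (x0, u0) t1 b0 (fun p : (V m × V m) × (ℝ × ℝ) =>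
      ‖ray κ p.1.1 p.1.2 p.2.1 - ray κ x0 u0 p.2.2‖) (ks_unifG hκ x0 u0) (fun t _ => by
        show ‖ray κ x0 u0 t - ray κ x0 u0 t‖ < δ
        rw [sub_self, norm_zero]; exact hδ)

theorem ks_QB (hκ : κ = -1 ∨ κ = 0 ∨ κ = 1) {x z u w : V m} (hx : x ∈ X κ m) (hz : z ∈ X κ m)
    (hu : Q κ x u = 0) (hw : Q κ z w = 0) : Q κ x w * B κ u x = 0 := by
  have h1 : Q κ x x = 1 := hx
  have h1z : Q κ z z = 1 := hz
  rcases hκ with h | h | h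
  · subst h
    have : B (-1) u x = 0 := by
      have h2 := Q_eq_B (κ := (-1:ℝ)) x u
      rw [hu] at h2; rw [B_comm]; linarith
    rw [this]; ring
  · subst h
    have hz2 : z.2.2 * z.2.2 = 1 := by simpa [Q] using h1z
    have hw2 : z.2.2 * w.2.2 = 0 := by simpa [Q] using hw
    have : z.2.2 ≠ 0 := by intro h; rw [h] at hz2; norm_num at hz2
    have hw3 : w.2.2 = 0 := by
      rcases mul_eq_zero.mp hw2 with h | h
      · exact absurd h this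
      · exact h
    rw [Q_eq_B, hw3]; ring
  · subst h
    have : B 1 u x = 0 := by
      have h2 := Q_eq_B (κ := (1:ℝ)) x u
      rw [hu] at h2; rw [B_comm]; linarith
    rw [this]; ring

theorem ks_Q_ν (hκ : κ = -1 ∨ κ = 0 ∨ κ = 1) {x z ν : V m} (hx : x ∈ X κ m)
    (hν : Q κ x ν = 0) (hB : B κ (z - x) ν = 0) : Q κ z ν = 0 := by
  have h1 : Q κ x x = 1 := hx
  rw [B_sub_left] at hB
  rcases hκ with h | h | h
  · subst h
    have h2 := Q_eq_B (κ := (-1:ℝ)) x ν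
    have h3 := Q_eq_B (κ := (-1:ℝ)) z ν
    rw [hν] at h2
    rw [h3]; linarith
  · subst h
    have hx2 : x.2.2 * x.2.2 = 1 := by simpa [Q] using h1
    have hv2 : x.2.2 * ν.2.2 = 0 := by simpa [Q] using hν
    have : x.2.2 ≠ 0 := by intro h; rw [h] at hx2; norm_num at hx2
    have hv3 : ν.2.2 = 0 := by
      rcases mul_eq_zero.mp hv2 with h | h
      · exact absurd h this
      · exact h
    rw [Q_eq_B, hv3]; ring
  · subst h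
    have h2 := Q_eq_B (κ := (1:ℝ)) x ν
    have h3 := Q_eq_B (κ := (1:ℝ)) z ν
    rw [hν] at h2
    rw [h3]; linarith

/-- the field stays bounded on the charts, in terms of `B` -/
theorem ks_bdd (hκ : κ = -1 ∨ κ = 0 ∨ κ = 1) {Y : Type*}
    [TopologicalSpace Y] {P : Dev κ m Y} {Γ : Type*} [Group Γ] [MulAction Γ Y]
    {H : Hol P Γ} {TT : TF H} (D : ExData TT) (y : Y) (v : V m) (hv : Q κ (P.p y) v = 0)
    (hv2 : N2 κ (P.p y) (TT.T y) v < D.ε ^ 2) :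
    (B κ (TT.T y) (TT.T (D.ex y v))) ^ 2 ≤ D.C := by
  have hx := P.mem y
  have ht := TT.tan y
  have htt := TT.unit y
  have hz := P.mem (D.ex y v)
  have hw := TT.tan (D.ex y v)
  have h1 := D.Tex y v hv hv2
  set w := TT.T (D.ex y v) with hwdef
  have h2 : B κ (TT.T y) w = B κ (TT.T y) (tg κ (P.p y) w) := by
    have h3 := tg_add_normal (κ := κ) (P.p y) w
    have h4 := ks_QB hκ hx hz ht hw
    calc B κ (TT.T y) w = B κ (TT.T y) (tg κ (P.p y) w + Q κ (P.p y) w • P.p y) := by rw [h3]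
      _ = B κ (TT.T y) (tg κ (P.p y) w) + Q κ (P.p y) w * B κ (TT.T y) (P.p y) := by
        rw [B_add_right, B_smul_right]
      _ = _ := by rw [h4, add_zero]
  have h5 := CS_N2 hκ hx ht htt ht (Q_tg hx w)
  have h6 : N2 κ (P.p y) (TT.T y) (TT.T y) = 1 := by
    unfold N2
    rw [tg_of_tan ht, ht, htt]; norm_num
  have h7 : N2 κ (P.p y) (TT.T y) (tg κ (P.p y) w) ≤ N2 κ (P.p y) (TT.T y) w := by
    unfold N2
    rw [tg_of_tan (Q_tg hx w), Q_tg hx w]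
    nlinarith [sq_nonneg (Q κ (P.p y) w)]
  rw [h2]
  rw [h6, one_mul] at h5
  linarith

end keyaux

section keytopo
variable {κ : ℝ} {m : ℕ} {Y : Type*} [TopologicalSpace Y]

/-- local inverse of the developing map -/
theorem ks_inv (P : Dev κ m Y) (y : Y) : ∃ (U : Set Y) (r : ℝ) (ψ : V m → Y), U ∈ 𝓝 y ∧ 0 < r ∧
    (∀ y' ∈ U, ψ (P.p y') = y') ∧ ContinuousOn ψ (X κ m ∩ Metric.ball (P.p y) r) ∧
    ∀ z ∈ X κ m ∩ Metric.ball (P.p y) r, ψ z ∈ U ∧ P.p (ψ z) = z := by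
  classical
  obtain ⟨e, hy, he⟩ := P.lh y
  have hpe : ∀ y', (e y' : V m) = P.p y' := by
    intro y'
    have := congrFun he y'
    rw [← this]
  have ht : e.target ∈ 𝓝 (e y) := e.open_target.mem_nhds (e.map_source hy)
  obtain ⟨r, hr, hr2⟩ := Metric.mem_nhds_iff.1 ht
  refine ⟨e.source, r, fun z => if h : z ∈ X κ m then e.symm ⟨z, h⟩ else y,
    e.open_source.mem_nhds hy, hr, ?_, ?_, ?_⟩
  · intro y' hy'
    have h1 : P.p y' ∈ X κ m := P.mem y'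
    simp only [h1, dif_pos]
    have h2 : (⟨P.p y', h1⟩ : X κ m) = e y' := Subtype.ext (hpe y').symm
    rw [h2]
    exact e.left_inv hy'
  · rw [continuousOn_iff_continuous_domRestrict]
    have h3 : ContinuousOn e.symm (Metric.ball (e y) r) := e.symm.continuousOn.mono hr2
    have h4 : (X κ m ∩ Metric.ball (P.p y) r).domRestrict
        (fun z => if h : z ∈ X κ m then e.symm ⟨z, h⟩ else y) =
        fun z : ↥(X κ m ∩ Metric.ball (P.p y) r) => e.symm ⟨z.1, z.2.1⟩ := by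
      funext z
      have hz : z.1 ∈ X κ m := z.2.1
      show (if h : z.1 ∈ X κ m then e.symm ⟨z.1, h⟩ else y) = e.symm ⟨z.1, z.2.1⟩
      rw [dif_pos hz]
    rw [h4]
    have h5 : Continuous (fun z : ↥(X κ m ∩ Metric.ball (P.p y) r) => (⟨z.1, z.2.1⟩ : X κ m)) :=
      Continuous.subtype_mk continuous_subtype_val _
    apply h3.comp_continuous h5
    intro z
    rw [Metric.mem_ball, Subtype.dist_eq, hpe]
    exact z.2.2
  · rintro z ⟨hz, hzr⟩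
    simp only [hz, dif_pos]
    have h2 : (⟨z, hz⟩ : X κ m) ∈ e.target := by
      apply hr2
      rw [Metric.mem_ball, Subtype.dist_eq, hpe]
      exact hzr
    refine ⟨e.map_target h2, ?_⟩
    rw [← hpe, e.right_inv h2]

/-- points near `p y` in the chart at `y` -/
theorem ks_near {P : Dev κ m Y} {Γ : Type*} [Group Γ] [MulAction Γ Y]
    {H : Hol P Γ} {TT : TF H} (D : ExData TT) (y : Y) (U : Set Y) (hU : U ∈ 𝓝 y) :
    ∃ δ > 0, ∀ z : V m, ‖z - P.p y‖ < δ → Q κ (P.p y) (tg κ (P.p y) z) = 0 →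
      N2 κ (P.p y) (TT.T y) (tg κ (P.p y) z) < D.ε ^ 2 → D.ex y (tg κ (P.p y) z) ∈ U := by
  have h0 : tg κ (P.p y) (P.p y) = 0 := by
    have h1 : Q κ (P.p y) (P.p y) = 1 := P.mem y
    rw [tg, h1, one_smul, sub_self]
  have hS : (y, (0 : V m)) ∈ {q : Y × V m | Q κ (P.p q.1) q.2 = 0 ∧
      N2 κ (P.p q.1) (TT.T q.1) q.2 < D.ε ^ 2} := by
    constructor
    · exact Q_zero_right _
    · have h2 : N2 κ (P.p y) (TT.T y) (0 : V m) = 0 := by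
        unfold N2
        rw [tg_of_tan (Q_zero_right _), Q_zero_right, B_zero_left, B_zero_left]
        norm_num
      show N2 κ (P.p y) (TT.T y) (0 : V m) < D.ε ^ 2
      rw [h2]
      have := D.ε_pos
      positivity
  have h1 := D.cont (y, (0 : V m)) hS
  have h2 : Tendsto (fun q : Y × V m => D.ex q.1 q.2)
      (𝓝[{q : Y × V m | Q κ (P.p q.1) q.2 = 0 ∧ N2 κ (P.p q.1) (TT.T q.1) q.2 < D.ε ^ 2}]
        (y, (0 : V m))) (𝓝 y) := by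
    have h3 : D.ex y 0 = y := D.ex_zero y
    have h4 : Tendsto (fun q : Y × V m => D.ex q.1 q.2)
      (𝓝[{q : Y × V m | Q κ (P.p q.1) q.2 = 0 ∧ N2 κ (P.p q.1) (TT.T q.1) q.2 < D.ε ^ 2}]
        (y, (0 : V m))) (𝓝 (D.ex y 0)) := h1
    rwa [h3] at h4
  have h3 := h2 hU
  rw [mem_map, mem_nhdsWithin_iff_eventually] at h3
  have h4 : Tendsto (fun z : V m => (y, tg κ (P.p y) z)) (𝓝 (P.p y)) (𝓝 (y, (0 : V m))) := by
    apply Tendsto.prodMk_nhds tendsto_const_nhds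
    have h5 := ks_tg_tendsto (κ := κ) (tendsto_const_nhds (x := P.p y) (f := 𝓝 (P.p y)))
      (tendsto_id (x := 𝓝 (P.p y)))
    rw [h0] at h5
    exact h5
  have h5 := h4.eventually h3
  obtain ⟨δ, hδ, hδ2⟩ := Metric.eventually_nhds_iff.1 h5
  refine ⟨δ, hδ, ?_⟩
  intro z hz hz1 hz2
  exact hδ2 (by rw [dist_eq_norm]; exact hz) ⟨hz1, hz2⟩

theorem ks_zero {l : Filter ℝ} (f β : ℝ → ℝ) (C : ℝ) (hf : ∀ᶠ t in l, f t ^ 2 ≤ C)
    (hβ : Tendsto β l atTop) : Tendsto (fun t => (β t)⁻¹ * f t) l (𝓝 0) := by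
  have h1 : Tendsto (fun t => (β t)⁻¹) l (𝓝 0) := tendsto_inv_atTop_zero.comp hβ
  apply Tendsto.zero_mul_isBoundedUnder_le h1
  refine ⟨Real.sqrt C, ?_⟩
  rw [eventually_map]
  filter_upwards [hf] with t ht
  show ‖f t‖ ≤ Real.sqrt C
  rw [Real.norm_eq_abs]
  exact Real.abs_le_sqrt ht

/-- the curve `ζ` does not converge -/
theorem ks_noconv (hκ : κ = -1 ∨ κ = 0 ∨ κ = 1) {P : Dev κ m Y} {Γ : Type*} [Group Γ]
    [MulAction Γ Y] {H : Hol P Γ} {TT : TF H} {b0 t1 C : ℝ} (ht1b : t1 < b0) (σ0 : ℝ → Y)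
    (β : ℝ → ℝ) (hβ : Tendsto β (𝓝[<] b0) atTop) {ν0 : V m}
    (hν : Tendsto (fun t => (β t)⁻¹ • TT.T (σ0 t)) (𝓝[<] b0) (𝓝 ν0)) (hν0 : B κ ν0 ν0 = 0)
    (hne : ν0 ≠ 0) (ζ : ℝ → Y)
    (hbd : ∀ t ∈ Ico t1 b0, (B κ (TT.T (σ0 t)) (TT.T (ζ t))) ^ 2 ≤ C) (e : V m)
    (hζe : Tendsto (fun t => P.p (ζ t)) (𝓝[<] b0) (𝓝 e)) (he : Q κ e ν0 = 0) :
    ¬ ∃ y₁, Tendsto ζ (𝓝[<] b0) (𝓝 y₁) := by
  rintro ⟨y₁, hy₁⟩
  have h1 : P.p y₁ = e :=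
    tendsto_nhds_unique ((P.continuous_p.tendsto y₁).comp hy₁) hζe
  have h2 : Tendsto (fun t => TT.T (ζ t)) (𝓝[<] b0) (𝓝 (TT.T y₁)) :=
    (TT.sm.continuous.tendsto y₁).comp hy₁
  have h3 := ks_B_tendsto (κ := κ) hν h2
  have hev : ∀ᶠ t in 𝓝[<] b0, t ∈ Ico t1 b0 := Ico_mem_nhdsLT ht1b
  have h4 := ks_zero (l := 𝓝[<] b0) (fun t => B κ (TT.T (σ0 t)) (TT.T (ζ t))) β C
    (by filter_upwards [hev] with t ht using hbd t ht) hβ
  have h5 : (fun t => B κ ((β t)⁻¹ • TT.T (σ0 t)) (TT.T (ζ t))) =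
      fun t => (β t)⁻¹ * B κ (TT.T (σ0 t)) (TT.T (ζ t)) := by
    funext t
    rw [B_smul_left]
  rw [h5] at h3
  have h6 : B κ ν0 (TT.T y₁) = 0 := tendsto_nhds_unique h3 h4
  refine timelike_null_ne hκ (P.mem y₁) (TT.tan y₁) ?_ ?_ hν0 hne h6
  · rw [TT.unit]; norm_num
  · rw [h1]; exact he

/-- orthogonality of the two limit directions -/
theorem ks_orth {P : Dev κ m Y} {Γ : Type*} [Group Γ]
    [MulAction Γ Y] {H : Hol P Γ} {TT : TF H} {b0 t1 C : ℝ} (ht1b : t1 < b0) (σ0 : ℝ → Y)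
    (β β' : ℝ → ℝ) (hβ : Tendsto β (𝓝[<] b0) atTop) (hβ' : Tendsto β' (𝓝[<] b0) atTop)
    {ν0 ν : V m}
    (hν : Tendsto (fun t => (β t)⁻¹ • TT.T (σ0 t)) (𝓝[<] b0) (𝓝 ν0)) (ζ : ℝ → Y)
    (hν' : Tendsto (fun t => (β' t)⁻¹ • TT.T (ζ t)) (𝓝[<] b0) (𝓝 ν))
    (hbd : ∀ t ∈ Ico t1 b0, (B κ (TT.T (σ0 t)) (TT.T (ζ t))) ^ 2 ≤ C) : B κ ν0 ν = 0 := by
  have h3 := ks_B_tendsto (κ := κ) hν hν'
  have hev : ∀ᶠ t in 𝓝[<] b0, t ∈ Ico t1 b0 := Ico_mem_nhdsLT ht1b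
  have h4 := ks_zero (l := 𝓝[<] b0) (fun t => B κ (TT.T (σ0 t)) (TT.T (ζ t))) β C
    (by filter_upwards [hev] with t ht using hbd t ht) hβ
  have h5 : Tendsto (fun t => (β' t)⁻¹) (𝓝[<] b0) (𝓝 0) := tendsto_inv_atTop_zero.comp hβ'
  have h6 := h5.mul h4
  have h7 : (fun t => B κ ((β t)⁻¹ • TT.T (σ0 t)) ((β' t)⁻¹ • TT.T (ζ t))) =
      fun t => (β' t)⁻¹ * ((β t)⁻¹ * B κ (TT.T (σ0 t)) (TT.T (ζ t))) := by
    funext t
    rw [B_smul_left, B_smul_right]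
    ring
  rw [h7] at h3
  rw [mul_zero] at h6
  exact tendsto_nhds_unique h3 h6

/-- the main part -/
theorem ks_core (hκ : κ = -1 ∨ κ = 0 ∨ κ = 1) [T2Space Y] (P : Dev κ m Y) {Γ : Type*} [Group Γ]
    [MulAction Γ Y] {H : Hol P Γ} {TT : TF H} (D : ExData TT) {y0 : Y} {u0 : V m} {b0 : ℝ}
    {ν0 : V m} (σ0 : ℝ → Y)
    (hσ0 : ContinuousOn σ0 (Ico 0 b0))
    (hβ : Tendsto (fun t => -B κ (vel κ (P.p y0) u0 t) (TT.T (σ0 t))) (𝓝[<] b0) atTop)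
    (hν : Tendsto (fun t => (-B κ (vel κ (P.p y0) u0 t) (TT.T (σ0 t)))⁻¹ • TT.T (σ0 t))
      (𝓝[<] b0) (𝓝 ν0))
    (hν0 : B κ ν0 ν0 = 0) (hν1 : Q κ (ray κ (P.p y0) u0 b0) ν0 = 0)
    (hν2 : B κ (vel κ (P.p y0) u0 b0) ν0 = -1) (hx0 : ray κ (P.p y0) u0 b0 ∈ X κ m)
    {t1 : ℝ} (ht1 : 0 < t1) (ht1b : t1 < b0)
    {y1 : Y} {u1 : V m} (hu1 : P.Fut TT.T y1 u1)
    (s : ℝ → ℝ) (hs : ContinuousOn s (Icc t1 b0)) (hs0 : ∀ t ∈ Icc t1 b0, 0 ≤ s t)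
    (hvis : ∀ t ∈ Ico t1 b0, Q κ (P.p (σ0 t)) (tg κ (P.p (σ0 t)) (ray κ (P.p y1) u1 (s t))) = 0 ∧
      N2 κ (P.p (σ0 t)) (TT.T (σ0 t)) (tg κ (P.p (σ0 t)) (ray κ (P.p y1) u1 (s t))) < D.ε ^ 2 ∧
      og κ (P.p (σ0 t)) (tg κ (P.p (σ0 t)) (ray κ (P.p y1) u1 (s t))) = ray κ (P.p y1) u1 (s t))
    (hBb : B κ (ray κ (P.p y1) u1 (s b0) - ray κ (P.p y0) u0 b0) ν0 = 0)
    {b' : ℝ} (σ : ℝ → Y) (hσ : ContinuousOn σ (Icc 0 b')) (hσ1 : σ 0 = y1)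
    (hσl : ∀ t ∈ Icc 0 b', P.p (σ t) = ray κ (P.p y1) u1 t) (hst : s t1 < b')
    (hstart : D.ex (σ0 t1) (tg κ (P.p (σ0 t1)) (ray κ (P.p y1) u1 (s t1))) = σ (s t1)) :
    ∃ ν, P.FailsAt TT.T y1 u1 (s b0) ν ∧ ∃ c : ℝ, ν = c • ν0 := by
  have hne : ν0 ≠ 0 := by
    intro h
    rw [h, B_zero_right] at hν2
    norm_num at hν2
  have hg : Continuous (ray κ (P.p y1) u1) :=
    continuous_iff_continuousAt.2 fun t => (hasDerivAt_ray hκ _ _ t).continuousAt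
  have hgX : ∀ t, ray κ (P.p y1) u1 t ∈ X κ m := fun t =>
    ray_mem hκ (P.mem y1) hu1.1 hu1.2.1 t
  have hg0 : ray κ (P.p y1) u1 0 = P.p y1 := ray_zero hκ _ _
  obtain ⟨ζ, hζdef⟩ : ∃ ζ : ℝ → Y, ζ = fun t =>
    D.ex (σ0 t) (tg κ (P.p (σ0 t)) (ray κ (P.p y1) u1 (s t))) := ⟨_, rfl⟩
  have hζt : ∀ t, ζ t = D.ex (σ0 t) (tg κ (P.p (σ0 t)) (ray κ (P.p y1) u1 (s t))) := by
    intro t; rw [hζdef]
  have hsub : Ico t1 b0 ⊆ Ico 0 b0 := Ico_subset_Ico_left ht1.le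
  have hζl : ∀ t ∈ Ico t1 b0, P.p (ζ t) = ray κ (P.p y1) u1 (s t) := by
    intro t ht
    obtain ⟨h1, h2, h3⟩ := hvis t ht
    rw [hζt, D.pex _ _ h1 h2, h3]
  have hbd : ∀ t ∈ Ico t1 b0, (B κ (TT.T (σ0 t)) (TT.T (ζ t))) ^ 2 ≤ D.C := by
    intro t ht
    obtain ⟨h1, h2, h3⟩ := hvis t ht
    rw [hζt]
    exact ks_bdd hκ D _ _ h1 h2
  have hζc : ContinuousOn ζ (Ico t1 b0) := by
    rw [hζdef]
    have h1 : ContinuousOn (fun t => (σ0 t, tg κ (P.p (σ0 t)) (ray κ (P.p y1) u1 (s t))))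
        (Ico t1 b0) := by
      intro t ht
      have h2 : Tendsto σ0 (𝓝[Ico t1 b0] t) (𝓝 (σ0 t)) := (hσ0.mono hsub) t ht
      have h3 : Tendsto s (𝓝[Ico t1 b0] t) (𝓝 (s t)) :=
        (hs.mono Ico_subset_Icc_self) t ht
      exact h2.prodMk_nhds (ks_tg_tendsto ((P.continuous_p.tendsto _).comp h2)
        ((hg.tendsto _).comp h3))
    exact D.cont.comp h1 (fun t ht => ⟨(hvis t ht).1, (hvis t ht).2.1⟩)
  -- behaviour at `b0`
  have hle : 𝓝[<] b0 ≤ 𝓝[Icc t1 b0] b0 := by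
    rw [← nhdsWithin_Ico_eq_nhdsLT ht1b]
    exact nhdsWithin_mono _ Ico_subset_Icc_self
  have hsb : Tendsto s (𝓝[<] b0) (𝓝 (s b0)) := by
    have h1 : Tendsto s (𝓝[Icc t1 b0] b0) (𝓝 (s b0)) := hs b0 ⟨ht1b.le, le_rfl⟩
    exact h1.mono_left hle
  have hev : ∀ᶠ t in 𝓝[<] b0, t ∈ Ico t1 b0 := Ico_mem_nhdsLT ht1b
  have hζe : Tendsto (fun t => P.p (ζ t)) (𝓝[<] b0) (𝓝 (ray κ (P.p y1) u1 (s b0))) := by
    have h1 : Tendsto (fun t => ray κ (P.p y1) u1 (s t)) (𝓝[<] b0)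
      (𝓝 (ray κ (P.p y1) u1 (s b0))) := (hg.tendsto _).comp hsb
    refine h1.congr' ?_
    filter_upwards [hev] with t ht
    exact (hζl t ht).symm
  have hQe : Q κ (ray κ (P.p y1) u1 (s b0)) ν0 = 0 := ks_Q_ν hκ hx0 hν1 hBb
  have hζn := ks_noconv hκ ht1b σ0 _ hβ hν hν0 hne ζ hbd _ hζe hQe
  have hst0 : 0 ≤ s t1 := hs0 t1 ⟨le_rfl, ht1b.le⟩
  rcases P.lift_dichotomy y1 (ray κ (P.p y1) u1) hg hgX hg0 with hall | ⟨bm, hbm, ρ, hρ, hρ0, hρl, hρn⟩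
  · exfalso
    refine P.reparam_absurd y1 (ray κ (P.p y1) u1) hg hgX hall ht1b s hs hs0 ζ hζc hζl σ
      (hσ.mono (Icc_subset_Icc_right hst.le)) hσ1
      (fun t ht => hσl t ⟨ht.1, ht.2.trans hst.le⟩) ?_ hζn
    rw [hζt, hstart]
  · have hb'0 : 0 < b' := lt_of_le_of_lt hst0 hst
    have hbm' : b' < bm := by
      by_contra hcon
      have hcon' : bm ≤ b' := not_lt.1 hcon
      apply hρn
      refine ⟨σ bm, ?_⟩
      have hS : Ico 0 bm ⊆ Icc 0 b' := fun t ht => ⟨ht.1, ht.2.le.trans hcon'⟩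
      have heq : EqOn ρ σ (Ico 0 bm) := P.lift_unique isPreconnected_Ico hρ (hσ.mono hS)
        (fun t ht => by rw [hρl t ht, hσl t (hS ht)]) (t0 := 0) ⟨le_rfl, hbm⟩ (by rw [hρ0, hσ1])
      have h1 : Tendsto σ (𝓝[Icc 0 b'] bm) (𝓝 (σ bm)) := hσ bm ⟨hbm.le, hcon'⟩
      have h2 : 𝓝[<] bm ≤ 𝓝[Icc 0 b'] bm := by
        rw [← nhdsWithin_Ico_eq_nhdsLT hbm]
        exact nhdsWithin_mono _ hS
      refine (h1.mono_left h2).congr' ?_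
      filter_upwards [Ico_mem_nhdsLT hbm] with t ht
      exact (heq ht).symm
    have hS : Icc 0 b' ⊆ Ico 0 bm := fun t ht => ⟨ht.1, lt_of_le_of_lt ht.2 hbm'⟩
    have heq : EqOn ρ σ (Icc 0 b') := P.lift_unique isPreconnected_Icc (hρ.mono hS) hσ
      (fun t ht => by rw [hρl t (hS ht), hσl t ht]) (t0 := 0) ⟨le_rfl, hb'0.le⟩ (by rw [hρ0, hσ1])
    have hζ1 : ζ t1 = ρ (s t1) := by
      rw [hζt, hstart, heq ⟨hst0, hst.le⟩]
    obtain ⟨hsbm, hzz⟩ := P.reparam_max (ray κ (P.p y1) u1) hg hgX ρ hρ hρl hρn ht1b s hs hs0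
      (hst.trans hbm') ζ hζc hζl hζ1 hζn
    obtain ⟨ν, hF'⟩ := P.failsAt_of_not_tendsto hκ D hu1 hbm ρ hρ hρ0 hρl hρn
    refine ⟨ν, by rw [hsbm]; exact hF', ?_⟩
    obtain ⟨_, ⟨σ', hσ'c, hσ'0, hσ'l, hβ', hν'⟩, hνν, hνQ, hνB⟩ := hF'
    have heq' : EqOn ρ σ' (Ico 0 bm) := P.lift_unique isPreconnected_Ico hρ hσ'c
      (fun t ht => by rw [hρl t ht, hσ'l t ht]) (t0 := 0) ⟨le_rfl, hbm⟩ (by rw [hρ0, hσ'0])
    have hsl : Tendsto s (𝓝[<] b0) (𝓝[<] bm) := by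
      rw [tendsto_nhdsWithin_iff]
      refine ⟨by rw [← hsbm]; exact hsb, ?_⟩
      filter_upwards [hev] with t ht
      exact (hzz t ht).1
    have hβ'' := hβ'.comp hsl
    have hν'' := hν'.comp hsl
    have hν3 : Tendsto (fun t => (((fun r => -B κ (vel κ (P.p y1) u1 r) (TT.T (σ' r))) ∘ s) t)⁻¹ •
        TT.T (ζ t)) (𝓝[<] b0) (𝓝 ν) := by
      refine hν''.congr' ?_
      filter_upwards [hev] with t ht
      have h1 : s t ∈ Ico 0 bm := ⟨hs0 t ⟨ht.1, ht.2.le⟩, (hzz t ht).1⟩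
      have h2 : ζ t = σ' (s t) := by rw [(hzz t ht).2, heq' h1]
      rw [h2]
      rfl
    have horth : B κ ν0 ν = 0 := ks_orth ht1b σ0 _ _ hβ hβ'' hν ζ hν3 hbd
    rw [hsbm] at hQe
    exact null_null_par hκ (hgX bm) (vel_tan hκ (P.mem y1) hu1.1 hu1.2.1 bm)
      (by rw [vel_unit hκ (P.mem y1) hu1.1 hu1.2.1 bm]; norm_num) hQe hν0 hne hνQ hνν horth

end keytopo

/-- KEY stability: geodesics near a failing timelike geodesic fail, at points of the same null hypersurface -/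
theorem Dev.failsAt_open {κ : ℝ} {m : ℕ} (hκ : κ = -1 ∨ κ = 0 ∨ κ = 1) {Y : Type*}
    [TopologicalSpace Y] [T2Space Y] (P : Dev κ m Y) {Γ : Type*} [Group Γ] [MulAction Γ Y]
    {H : Hol P Γ} {TT : TF H} (D : ExData TT) {y0 : Y} {u0 : V m} {b0 : ℝ} {ν0 : V m}
    (hF : P.FailsAt TT.T y0 u0 b0 ν0) (hu0 : P.Fut TT.T y0 u0) {η : ℝ} (hη : 0 < η) :
    ∀ᶠ q : Y × V m in 𝓝 (y0, u0), P.Fut TT.T q.1 q.2 →
      ∃ b ν, P.FailsAt TT.T q.1 q.2 b ν ∧ |b - b0| < η ∧ (∃ c : ℝ, ν = c • ν0) ∧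
        B κ (ray κ (P.p q.1) q.2 b - ray κ (P.p y0) u0 b0) ν0 = 0 := by
  obtain ⟨hb0, ⟨σ0, hσ0, hσ00, hl0, hβ, hν⟩, hν0, hν1, hν2⟩ := hF
  have hTc : Continuous TT.T := TT.sm.continuous
  have hβpos : ∀ t ∈ Ico 0 b0, B κ (vel κ (P.p y0) u0 t) (TT.T (σ0 t)) < 0 := by
    intro t ht
    have hS : Icc 0 t ⊆ Ico 0 b0 := fun r hr => ⟨hr.1, lt_of_le_of_lt hr.2 ht.2⟩
    exact (Dev.Fut.vel hκ hTc TT.tan TT.unit hu0 ht.1 σ0 (hσ0.mono hS) hσ00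
      (fun r hr => hl0 r (hS hr))).2.2
  obtain ⟨t1, ht1d⟩ : ∃ t1 : ℝ, t1 = b0 / 2 := ⟨_, rfl⟩
  have ht1 : 0 < t1 := by rw [ht1d]; linarith
  have ht1b : t1 < b0 := by rw [ht1d]; linarith
  have hsub : Ico t1 b0 ⊆ Ico 0 b0 := Ico_subset_Ico_left ht1.le
  -- the normalised field
  obtain ⟨l, hl⟩ : ∃ l : ℝ → V m, l = fun t => if t < b0 then
    (-B κ (vel κ (P.p y0) u0 t) (TT.T (σ0 t)))⁻¹ • TT.T (σ0 t) else ν0 := ⟨_, rfl⟩
  have hl1 : ∀ t, t < b0 → l t = (-B κ (vel κ (P.p y0) u0 t) (TT.T (σ0 t)))⁻¹ • TT.T (σ0 t) := by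
    intro t ht; rw [hl]; simp only [ht, if_true]
  have hl2 : l b0 = ν0 := by rw [hl]; simp
  have hlc : ContinuousOn l (Icc t1 b0) := by
    intro t ht
    rcases lt_or_eq_of_le ht.2 with h | h
    · have h1 : 𝓝[Icc t1 b0] t = 𝓝[Ico t1 b0] t := by
        apply nhdsWithin_eq_nhdsWithin (s := Iio b0) h isOpen_Iio
        ext r
        simp only [mem_inter_iff, mem_Icc, mem_Ico, mem_Iio]
        constructor
        · rintro ⟨⟨a, _⟩, c⟩; exact ⟨⟨a, c⟩, c⟩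
        · rintro ⟨⟨a, b⟩, c⟩; exact ⟨⟨a, b.le⟩, c⟩
      have ht' : t ∈ Ico t1 b0 := ⟨ht.1, h⟩
      have h2 : Tendsto (fun r => TT.T (σ0 r)) (𝓝[Ico t1 b0] t) (𝓝 (TT.T (σ0 t))) :=
        (hTc.tendsto _).comp ((hσ0.mono hsub) t ht')
      have h3 : Tendsto (fun r => vel κ (P.p y0) u0 r) (𝓝[Ico t1 b0] t)
          (𝓝 (vel κ (P.p y0) u0 t)) :=
        ((hasDerivAt_vel hκ (P.p y0) u0 t).continuousAt).tendsto.mono_left nhdsWithin_le_nhds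
      have h4 := ks_B_tendsto (κ := κ) h3 h2
      have h5 : -B κ (vel κ (P.p y0) u0 t) (TT.T (σ0 t)) ≠ 0 := by
        have := hβpos t (hsub ht')
        intro h0
        linarith
      have h6 := ((h4.neg).inv₀ h5).smul h2
      show Tendsto l (𝓝[Icc t1 b0] t) (𝓝 (l t))
      rw [h1, hl1 t h]
      refine h6.congr' ?_
      filter_upwards [self_mem_nhdsWithin] with r hr
      exact (hl1 r hr.2).symm
    · subst h
      have h1 : 𝓝[Icc t1 t] t = 𝓝[<] t ⊔ pure t := by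
        rw [← Ico_union_right ht1b.le, nhdsWithin_union, nhdsWithin_Ico_eq_nhdsLT ht1b,
          nhdsWithin_singleton]
      show Tendsto l (𝓝[Icc t1 t] t) (𝓝 (l t))
      rw [h1]
      refine Tendsto.sup ?_ (tendsto_pure_nhds l t)
      rw [hl2]
      refine hν.congr' ?_
      filter_upwards [self_mem_nhdsWithin] with r hr
      exact (hl1 r hr).symm
  have hlB : ∀ t ∈ Icc t1 b0, B κ (vel κ (P.p y0) u0 t) (l t) = -1 := by
    intro t ht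
    rcases lt_or_eq_of_le ht.2 with h | h
    · have h5 := hβpos t (hsub ⟨ht.1, h⟩)
      rw [hl1 t h, B_smul_right]
      have h6 : B κ (vel κ (P.p y0) u0 t) (TT.T (σ0 t)) ≠ 0 := h5.ne
      field_simp
    · rw [h, hl2, hν2]
  -- constants
  obtain ⟨δ1, hδ1, hvis⟩ := hyper_visible hκ (P.mem y0) hu0.1 hu0.2.1 hb0.le D.ε_pos
  obtain ⟨U, r, ψ, hU, hr, hψ1, hψ2, hψ3⟩ := ks_inv P (σ0 t1)
  obtain ⟨δ2, hδ2, hnear⟩ := ks_near D (σ0 t1) U hU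
  have hδ : 0 < min δ1 (min δ2 r) := lt_min hδ1 (lt_min hδ2 hr)
  obtain ⟨η', hη', hunif⟩ := ks_unif hκ (P.p y0) u0 t1 b0 hδ
  obtain ⟨η1, hη1d⟩ : ∃ η1 : ℝ, η1 = min η' (min η (b0 / 8)) := ⟨_, rfl⟩
  have hη1 : 0 < η1 := by rw [hη1d]; exact lt_min hη' (lt_min hη (by linarith))
  have hη1a : η1 ≤ η' := by rw [hη1d]; exact min_le_left _ _
  have hη1b : η1 ≤ η := by rw [hη1d]; exact (min_le_right _ _).trans (min_le_left _ _)
  have hη1c : η1 ≤ b0 / 8 := by rw [hη1d]; exact (min_le_right _ _).trans (min_le_right _ _)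
  have himp := implicit_s hκ ht1b.le l hlc hlB hη1
  have hmap : Tendsto (fun q : Y × V m => (P.p q.1, q.2)) (𝓝 (y0, u0)) (𝓝 (P.p y0, u0)) :=
    ((P.continuous_p.comp continuous_fst).prodMk continuous_snd).tendsto (y0, u0)
  have hb'b : t1 + η1 < b0 := by linarith
  have hS0 : Icc 0 (t1 + η1) ⊆ Ico 0 b0 := fun r hr => ⟨hr.1, lt_of_le_of_lt hr.2 hb'b⟩
  have hopen := P.lifts_open hκ (b := t1 + η1) (by linarith) hu0.1 hu0.2.1 σ0 (hσ0.mono hS0) hσ00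
    (fun t ht => hl0 t (hS0 ht)) (t0 := t1) ⟨ht1.le, by linarith⟩ hU
  filter_upwards [hmap.eventually hunif, hmap.eventually himp, hopen] with q hq1 hq2 hq3 hfq
  obtain ⟨s, hs, hs2⟩ := hq2
  obtain ⟨σ, hσc, hσ1, hσl, hσU⟩ := hq3 hfq.1 hfq.2.1
  have hgX : ∀ t, ray κ (P.p q.1) q.2 t ∈ X κ m := fun t =>
    ray_mem hκ (P.mem q.1) hfq.1 hfq.2.1 t
  have hg : Continuous (ray κ (P.p q.1) q.2) :=
    continuous_iff_continuousAt.2 fun t => (hasDerivAt_ray hκ _ _ t).continuousAt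
  have hs0 : ∀ t ∈ Icc t1 b0, 0 ≤ s t := by
    intro t ht
    have h1 := (abs_lt.1 (hs2 t ht).1).1
    have h2 := ht.1
    rw [ht1d] at h2
    linarith
  have hd : ∀ t ∈ Icc t1 b0, ‖ray κ (P.p q.1) q.2 (s t) - ray κ (P.p y0) u0 t‖ <
      min δ1 (min δ2 r) := fun t ht => hq1 t ht (s t) (lt_of_lt_of_le (hs2 t ht).1 hη1a)
  have hvis' : ∀ t ∈ Ico t1 b0,
      Q κ (P.p (σ0 t)) (tg κ (P.p (σ0 t)) (ray κ (P.p q.1) q.2 (s t))) = 0 ∧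
      N2 κ (P.p (σ0 t)) (TT.T (σ0 t)) (tg κ (P.p (σ0 t)) (ray κ (P.p q.1) q.2 (s t))) < D.ε ^ 2 ∧
      og κ (P.p (σ0 t)) (tg κ (P.p (σ0 t)) (ray κ (P.p q.1) q.2 (s t))) =
        ray κ (P.p q.1) q.2 (s t) := by
    intro t ht
    have htI : t ∈ Icc t1 b0 := ⟨ht.1, ht.2.le⟩
    have hpt := hl0 t (hsub ht)
    have h1 : B κ (ray κ (P.p q.1) q.2 (s t) - ray κ (P.p y0) u0 t) (TT.T (σ0 t)) = 0 := by
      have h2 := (hs2 t htI).2
      rw [hl1 t ht.2, B_smul_right] at h2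
      have h3 := hβpos t (hsub ht)
      have h4 : (-B κ (vel κ (P.p y0) u0 t) (TT.T (σ0 t)))⁻¹ ≠ 0 :=
        inv_ne_zero (by intro h0; linarith)
      exact (mul_eq_zero.1 h2).resolve_left h4
    have h5 := hvis t ⟨ht1.le.trans ht.1, ht.2.le⟩ (ray κ (P.p q.1) q.2 (s t)) (hgX _)
      (lt_of_lt_of_le (hd t htI) (min_le_left _ _)) (TT.T (σ0 t))
      (by rw [← hpt]; exact TT.tan _) (TT.unit _) h1
    rw [hpt]
    exact h5
  have hBb : B κ (ray κ (P.p q.1) q.2 (s b0) - ray κ (P.p y0) u0 b0) ν0 = 0 := by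
    have := (hs2 b0 ⟨ht1b.le, le_rfl⟩).2
    rwa [hl2] at this
  have ht1I : t1 ∈ Icc t1 b0 := ⟨le_rfl, ht1b.le⟩
  have hst := abs_lt.1 (hs2 t1 ht1I).1
  have hpt1 := hl0 t1 (hsub ⟨le_rfl, ht1b⟩)
  have hstart : D.ex (σ0 t1) (tg κ (P.p (σ0 t1)) (ray κ (P.p q.1) q.2 (s t1))) = σ (s t1) := by
    obtain ⟨h1, h2, h3⟩ := hvis' t1 ⟨le_rfl, ht1b⟩
    have h4 : D.ex (σ0 t1) (tg κ (P.p (σ0 t1)) (ray κ (P.p q.1) q.2 (s t1))) ∈ U := by
      apply hnear _ _ h1 h2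
      rw [hpt1]
      exact lt_of_lt_of_le (hd t1 ht1I) ((min_le_right _ _).trans (min_le_left _ _))
    have h5 : P.p (D.ex (σ0 t1) (tg κ (P.p (σ0 t1)) (ray κ (P.p q.1) q.2 (s t1)))) =
        ray κ (P.p q.1) q.2 (s t1) := by rw [D.pex _ _ h1 h2, h3]
    have hball : ∀ a ∈ Ioo (t1 - η1) (t1 + η1),
        ray κ (P.p q.1) q.2 a ∈ X κ m ∩ Metric.ball (P.p (σ0 t1)) r := by
      intro a ha
      refine ⟨hgX a, ?_⟩
      rw [Metric.mem_ball, dist_eq_norm, hpt1]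
      have h6 : |a - t1| < η' := by
        rw [abs_lt]
        constructor <;> linarith [ha.1, ha.2]
      exact lt_of_lt_of_le (hq1 t1 ht1I a h6) ((min_le_right _ _).trans (min_le_right _ _))
    have hSI : Ioo (t1 - η1) (t1 + η1) ⊆ Icc 0 (t1 + η1) := by
      intro a ha
      refine ⟨?_, ha.2.le⟩
      have := ha.1
      linarith
    have hc2 : ContinuousOn (fun a => ψ (ray κ (P.p q.1) q.2 a)) (Ioo (t1 - η1) (t1 + η1)) :=
      hψ2.comp hg.continuousOn hball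
    have heq : EqOn σ (fun a => ψ (ray κ (P.p q.1) q.2 a)) (Ioo (t1 - η1) (t1 + η1)) := by
      refine P.lift_unique isPreconnected_Ioo (hσc.mono hSI) hc2 ?_ (t0 := t1)
        ⟨by linarith, by linarith⟩ ?_
      · intro a ha
        rw [hσl a (hSI ha)]
        exact ((hψ3 _ (hball a ha)).2).symm
      · show σ t1 = ψ (ray κ (P.p q.1) q.2 t1)
        rw [← hσl t1 ⟨ht1.le, by linarith⟩, hψ1 _ hσU]
    have h7 : s t1 ∈ Ioo (t1 - η1) (t1 + η1) := ⟨by linarith [hst.1], by linarith [hst.2]⟩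
    have h8 := hψ1 _ h4
    rw [h5] at h8
    rw [heq h7]
    exact h8.symm
  obtain ⟨ν, hν3, c, hc⟩ := ks_core hκ P D σ0 hσ0 hβ hν hν0 hν1 hν2
    (ray_mem hκ (P.mem y0) hu0.1 hu0.2.1 b0) ht1 ht1b hfq s hs hs0 hvis' hBb σ hσc hσ1 hσl
    (by linarith [hst.2]) hstart
  exact ⟨s b0, ν, hν3, lt_of_lt_of_le (hs2 b0 ⟨ht1b.le, le_rfl⟩).1 hη1b, ⟨c, hc⟩, hBb⟩

end Pool.Agent.Helper107.LC
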