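import Mathlib
import Pool.Agent.Helper107.LC.KC
set_option autoImplicit false
open Set Filter Topology
open scoped ContDiff

namespace Pool.Agent.Helper107.LC

section auxfiber

theorem aux_B_cont {κ : ℝ} {m : ℕ} {Z : Type*} [TopologicalSpace Z] {f g : Z → V m}
    (hf : Continuous f) (hg : Continuous g) : Continuous (fun z => B κ (f z) (g z)) := by
  unfold B
  fun_prop

/-- a path of future unit timelike vectors -/
theorem aux_path {κ : ℝ} {m : ℕ} (hκ : κ = -1 ∨ κ = 0 ∨ κ = 1) {x t u1 u2 : V m}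
    (hx : x ∈ X κ m) (ht : Q κ x t = 0) (htt : B κ t t = -1)
    (hu1 : Q κ x u1 = 0) (huu1 : B κ u1 u1 = -1) (hut1 : B κ u1 t < 0)
    (hu2 : Q κ x u2 = 0) (huu2 : B κ u2 u2 = -1) (hut2 : B κ u2 t < 0) :
    ∃ u : unitInterval → V m, Continuous u ∧ u 0 = u1 ∧ u 1 = u2 ∧
      ∀ r, Q κ x (u r) = 0 ∧ B κ (u r) (u r) = -1 ∧ B κ (u r) t < 0 := by
  have h12 : B κ u1 u2 < 0 := fut_trans hκ hx ht (by rw [htt]; norm_num) hu1
    (by rw [huu1]; norm_num) hu2 (by rw [huu2]; norm_num) hut1 hut2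
  set w : unitInterval → V m := fun r => (1 - (r : ℝ)) • u1 + (r : ℝ) • u2 with hw
  have hwc : Continuous w := by
    rw [hw]
    fun_prop
  have hBw : ∀ r, B κ (w r) (w r) < 0 := by
    intro r
    have h0 := r.2.1
    have h1 := r.2.2
    have e : B κ (w r) (w r) = -(1 - (r : ℝ)) ^ 2 - (r : ℝ) ^ 2
        + 2 * ((r : ℝ) * (1 - (r : ℝ))) * B κ u1 u2 := by
      simp only [hw, B_add_left, B_add_right, B_smul_left, B_smul_right, huu1, huu2,
        B_comm u2 u1]
      ring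
    rw [e]
    have h3 : (r : ℝ) * (1 - (r : ℝ)) * B κ u1 u2 ≤ 0 :=
      mul_nonpos_of_nonneg_of_nonpos (mul_nonneg h0 (by linarith)) h12.le
    nlinarith [sq_nonneg (1 - 2 * (r : ℝ))]
  have hQw : ∀ r, Q κ x (w r) = 0 := by
    intro r
    simp only [hw, Q_add_right, Q_smul_right, hu1, hu2]
    ring
  have hTw : ∀ r, B κ (w r) t < 0 := by
    intro r
    have h0 := r.2.1
    have h1 := r.2.2
    simp only [hw, B_add_left, B_smul_left]
    rcases eq_or_lt_of_le h0 with h | h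
    · rw [← h]
      linarith
    · have h2 : (r : ℝ) * B κ u2 t < 0 := mul_neg_of_pos_of_neg h hut2
      have h3 : (1 - (r : ℝ)) * B κ u1 t ≤ 0 :=
        mul_nonpos_of_nonneg_of_nonpos (by linarith) hut1.le
      linarith
  have hs : ∀ r, 0 < Real.sqrt (-B κ (w r) (w r)) := fun r =>
    Real.sqrt_pos.2 (by linarith [hBw r])
  refine ⟨fun r => (Real.sqrt (-B κ (w r) (w r)))⁻¹ • w r, ?_, ?_, ?_, ?_⟩
  · refine Continuous.smul (Continuous.inv₀ ?_ (fun r => (hs r).ne')) hwc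
    exact (aux_B_cont hwc hwc).neg.sqrt
  · have e : w 0 = u1 := by simp [hw]
    simp only [e, huu1]
    norm_num
  · have e : w 1 = u2 := by simp [hw]
    simp only [e, huu2]
    norm_num
  · intro r
    have hsq : Real.sqrt (-B κ (w r) (w r)) ^ 2 = -B κ (w r) (w r) :=
      Real.sq_sqrt (by linarith [hBw r])
    refine ⟨?_, ?_, ?_⟩
    · simp only [Q_smul_right, hQw r, mul_zero]
    · simp only [B_smul_left, B_smul_right]
      have h1 := (hs r).ne'
      field_simp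
      rw [hsq]
      ring
    · simp only [B_smul_left]
      exact mul_neg_of_pos_of_neg (inv_pos.2 (hs r)) (hTw r)

/-- a time which is never a failing time -/
theorem aux_theta {κ : ℝ} {m : ℕ} (hκ : κ = -1 ∨ κ = 0) {x u1 : V m} (b1 : ℝ) {ν1 : V m}
    (hx : x ∈ X κ m) (hu1 : Q κ x u1 = 0) (huu1 : B κ u1 u1 = -1)
    (hν : B κ ν1 ν1 = 0) (hQ : Q κ (ray κ x u1 b1) ν1 = 0) (hν0 : ν1 ≠ 0)
    (u : unitInterval → V m) (huc : Continuous u)
    (hu : ∀ r, Q κ x (u r) = 0 ∧ B κ (u r) (u r) = -1) :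
    ∃ θ > b1, ∀ r, B κ (ray κ x (u r) θ - ray κ x u1 b1) ν1 ≠ 0 := by
  have hκ3 : κ = -1 ∨ κ = 0 ∨ κ = 1 := by tauto
  have hne : Q κ x ν1 = 0 → ∀ r, B κ (u r) ν1 ≠ 0 := by
    intro h r
    rw [B_comm]
    exact timelike_null_ne hκ3 hx (hu r).1 (by rw [(hu r).2]; norm_num) h hν hν0
  rcases hκ with h | h
  · subst h
    have hQB : ∀ a b : V m, Q (-1) a b = - B (-1) a b := by
      intro a b
      rw [Q_eq_B]
      ring
    have hB0 : B (-1) (ray (-1) x u1 b1) ν1 = 0 := by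
      rw [hQB] at hQ
      linarith
    obtain ⟨N, hN⟩ := exists_nat_gt (b1 / (2 * Real.pi))
    have hpi : 0 < 2 * Real.pi := by positivity
    have hN' : b1 < N * (2 * Real.pi) := (div_lt_iff₀ hpi).1 hN
    by_cases hH : B (-1) x ν1 = 0
    · refine ⟨Real.pi / 2 + N * (2 * Real.pi), by linarith, fun r => ?_⟩
      have h1 : Real.cos (Real.pi / 2 + N * (2 * Real.pi)) = 0 := by
        rw [Real.cos_add_nat_mul_two_pi, Real.cos_pi_div_two]
      have h2 : Real.sin (Real.pi / 2 + N * (2 * Real.pi)) = 1 := by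
        rw [Real.sin_add_nat_mul_two_pi, Real.sin_pi_div_two]
      rw [B_sub_left, hB0, ray, B_add_left, B_smul_left, B_smul_left]
      simp only [ck, sk, if_true, h1, h2]
      have := hne (by rw [hQB, hH]; ring) r
      simpa using this
    · refine ⟨N * (2 * Real.pi), hN', fun r => ?_⟩
      have h1 : Real.cos (N * (2 * Real.pi)) = 1 := Real.cos_nat_mul_two_pi N
      have h2 : Real.sin (N * (2 * Real.pi)) = 0 := by
        have := Real.sin_add_nat_mul_two_pi 0 N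
        simpa using this
      rw [B_sub_left, hB0, ray, B_add_left, B_smul_left, B_smul_left]
      simp only [ck, sk, if_true, h1, h2]
      simpa using hH
  · subst h
    have he : ray 0 x u1 b1 ∈ X 0 m := ray_mem hκ3 hx hu1 huu1 b1
    have he' : (ray 0 x u1 b1).2.2 ≠ 0 := by
      intro h0
      have : Q 0 (ray 0 x u1 b1) (ray 0 x u1 b1) = 1 := he
      simp only [Q, h0] at this
      norm_num at this
    have hν2 : ν1.2.2 = 0 := by
      simp only [Q, zero_mul, zero_add] at hQ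
      rcases mul_eq_zero.1 hQ with h | h
      · exact absurd h he'
      · exact h
    have hQx : Q 0 x ν1 = 0 := by simp [Q, hν2]
    have hg := hne hQx
    have hgc : Continuous (fun r : unitInterval => |B 0 (u r) ν1|) :=
      (aux_B_cont huc continuous_const).abs
    obtain ⟨r0, -, hr0⟩ := isCompact_univ.exists_isMinOn (Set.univ_nonempty (α := unitInterval))
      hgc.continuousOn
    have hc : 0 < |B 0 (u r0) ν1| := abs_pos.2 (hg r0)
    set c := |B 0 (u r0) ν1| with hcdef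
    have hmin : ∀ r, c ≤ |B 0 (u r) ν1| := fun r => hr0 (Set.mem_univ r)
    set h := B 0 (x - ray 0 x u1 b1) ν1 with hh
    refine ⟨|b1| + |h| / c + 1, ?_, fun r => ?_⟩
    · have := le_abs_self b1
      have h2 : 0 ≤ |h| / c := by positivity
      show b1 < _
      linarith
    · have e : B 0 (ray 0 x (u r) (|b1| + |h| / c + 1) - ray 0 x u1 b1) ν1 =
          h + (|b1| + |h| / c + 1) * B 0 (u r) ν1 := by
        have e2 : ray 0 x (u r) (|b1| + |h| / c + 1) = x + (|b1| + |h| / c + 1) • u r := by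
          simp [ray, ck, sk]
        have hh' : h = B 0 x ν1 - B 0 (ray 0 x u1 b1) ν1 := by rw [hh, B_sub_left]
        rw [e2, B_sub_left, B_add_left, B_smul_left]
        linear_combination -hh'
      rw [e]
      intro h0
      have h1 : |h| = (|b1| + |h| / c + 1) * |B 0 (u r) ν1| := by
        have : h = -((|b1| + |h| / c + 1) * B 0 (u r) ν1) := by linarith
        have h3 : 0 ≤ |b1| + |h| / c + 1 := by positivity
        calc |h| = |-((|b1| + |h| / c + 1) * B 0 (u r) ν1)| := by rw [← this]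
          _ = _ := by rw [abs_neg, abs_mul, abs_of_nonneg h3]
      have h2 : (|b1| + |h| / c + 1) * c ≤ |h| := by
        rw [h1]
        have h3 : 0 ≤ |b1| + |h| / c + 1 := by positivity
        have h4 := mul_le_mul_of_nonneg_left (hmin r) h3
        rw [← h1] at h4 ⊢
        exact h4
      have h3 : (|b1| + |h| / c + 1) * c = |b1| * c + |h| + c := by
        field_simp
      have h4 : 0 ≤ |b1| * c := by positivity
      linarith

theorem aux_nu_ne {κ : ℝ} {m : ℕ} {a ν : V m} (h : B κ a ν = -1) : ν ≠ 0 := by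
  rintro rfl
  rw [B_zero_right] at h
  norm_num at h

end auxfiber

/-- if one future timelike geodesic from `y` fails then all of them do, on the same null hypersurface -/
theorem Dev.fiber {κ : ℝ} {m : ℕ} (hκ : κ = -1 ∨ κ = 0) {Y : Type*}
    [TopologicalSpace Y] [T2Space Y] (P : Dev κ m Y) {Γ : Type*} [Group Γ] [MulAction Γ Y]
    {H : Hol P Γ} {TT : TF H} (D : ExData TT) {y : Y} {u1 : V m} {b1 : ℝ} {ν1 : V m}
    (hF : P.FailsAt TT.T y u1 b1 ν1) (hu1 : P.Fut TT.T y u1) {u2 : V m} (hu2 : P.Fut TT.T y u2) :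
    ∃ b2 ν2, P.FailsAt TT.T y u2 b2 ν2 ∧ (∃ c : ℝ, ν2 = c • ν1) ∧
      B κ (ray κ (P.p y) u2 b2 - ray κ (P.p y) u1 b1) ν1 = 0 := by
  have hκ3 : κ = -1 ∨ κ = 0 ∨ κ = 1 := by tauto
  have hT : Continuous TT.T := TT.sm.continuous
  obtain ⟨u, huc, hu0, hu1', hur⟩ := aux_path hκ3 (P.mem y) (TT.tan y) (TT.unit y)
    hu1.1 hu1.2.1 hu1.2.2 hu2.1 hu2.2.1 hu2.2.2
  have hfut : ∀ r, P.Fut TT.T y (u r) := fun r => hur r
  have hν1 : ν1 ≠ 0 := aux_nu_ne hF.2.2.2.2
  obtain ⟨θ, hθ, hθr⟩ := aux_theta hκ b1 (P.mem y) hu1.1 hu1.2.1 hF.2.2.1 hF.2.2.2.1 hν1 u huc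
    (fun r => ⟨(hur r).1, (hur r).2.1⟩)
  have hθ0 : 0 ≤ θ := (hF.1.trans hθ).le
  have hpc : Continuous (fun r : unitInterval => ((y, u r) : Y × V m)) :=
    continuous_const.prodMk huc
  set R : Set unitInterval := {r | ∃ b ν, P.FailsAt TT.T y (u r) b ν ∧ (∃ c : ℝ, ν = c • ν1) ∧
      B κ (ray κ (P.p y) (u r) b - ray κ (P.p y) u1 b1) ν1 = 0 ∧ b < θ} with hR
  have hopen : IsOpen R := by
    rw [isOpen_iff_mem_nhds]
    rintro r0 ⟨b0, ν0, hF0, ⟨c0, hc0⟩, hB0, hlt⟩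
    have h1 := P.failsAt_open hκ3 D hF0 (hfut r0) (sub_pos.2 hlt)
    have h2 := (hpc.tendsto r0).eventually h1
    have hν0 : ν0 ≠ 0 := aux_nu_ne hF0.2.2.2.2
    have hc0' : c0 ≠ 0 := by
      rintro rfl
      exact hν0 (by rw [hc0, zero_smul])
    filter_upwards [h2] with r hr
    obtain ⟨b, ν, hFr, hb, ⟨c, hc⟩, hBr⟩ := hr (hfut r)
    refine ⟨b, ν, hFr, ⟨c * c0, by rw [hc, hc0, smul_smul]⟩, ?_, ?_⟩
    · rw [hc0, B_smul_right] at hBr
      have hBr' := (mul_eq_zero.1 hBr).resolve_left hc0'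
      rw [B_sub_left] at hBr' hB0 ⊢
      linarith
    · have := (abs_lt.1 hb).2
      linarith
  have hclosed : IsClosed R := by
    refine isClosed_of_closure_subset ?_
    intro rs hrs
    rw [mem_closure_iff_frequently] at hrs
    -- failure at `rs`
    obtain ⟨bs, νs, hFs⟩ : ∃ bs νs, P.FailsAt TT.T y (u rs) bs νs := by
      rcases P.lift_dichotomy y (ray κ (P.p y) (u rs))
        (continuous_iff_continuousAt.2 fun t => (hasDerivAt_ray hκ3 _ _ t).continuousAt)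
        (fun t => ray_mem hκ3 (P.mem y) (hur rs).1 (hur rs).2.1 t)
        (ray_zero hκ3 _ _) with hall | ⟨b, hb, σ, hσ, h0, hl, hn⟩
      · exfalso
        obtain ⟨σ0, hσ, h0, hl⟩ := hall θ hθ0
        have h1 := P.lifts_open hκ3 hθ0 (hur rs).1 (hur rs).2.1 σ0 hσ h0 hl
          (t0 := 0) ⟨le_refl 0, hθ0⟩ (U := Set.univ) Filter.univ_mem
        have h2 := (hpc.tendsto rs).eventually h1
        obtain ⟨r, ⟨b, ν, hFr, -, -, hlt⟩, hr⟩ := (hrs.and_eventually h2).exists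
        obtain ⟨σ, hσc, hσ0, hσl, -⟩ := hr (hur r).1 (hur r).2.1
        exact hFr.not_liftsTo hκ3 hT hlt.le ⟨σ, hσc, hσ0, hσl⟩
      · exact ⟨b, P.failsAt_of_not_tendsto hκ3 D (hfut rs) hb σ hσ h0 hl hn⟩
    have hνs : νs ≠ 0 := aux_nu_ne hFs.2.2.2.2
    have key : ∀ η > 0, ∃ b, b < θ ∧ |b - bs| < η ∧ (∃ c : ℝ, νs = c • ν1) ∧
        B κ (ray κ (P.p y) (u rs) bs - ray κ (P.p y) u1 b1) ν1 = 0 := by
      intro η hη
      have h1 := P.failsAt_open hκ3 D hFs (hfut rs) hη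
      have h2 := (hpc.tendsto rs).eventually h1
      obtain ⟨r, ⟨b, ν, hFr, ⟨c, hc⟩, hBr, hlt⟩, hr⟩ := (hrs.and_eventually h2).exists
      obtain ⟨b', ν', hFr', hb', ⟨c', hc'⟩, hBr'⟩ := hr (hfut r)
      obtain ⟨rfl, rfl⟩ := hFr.unique hκ3 hT hFr' (hur r).1 (hur r).2.1
      have hν : ν ≠ 0 := aux_nu_ne hFr.2.2.2.2
      have hc0 : c ≠ 0 := by
        rintro rfl
        exact hν (by rw [hc, zero_smul])
      have hc0' : c' ≠ 0 := by
        rintro rfl
        exact hν (by rw [hc', zero_smul])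
      have hνs' : νs = (c'⁻¹ * c) • ν1 := by
        rw [mul_smul, ← hc, hc', smul_smul, inv_mul_cancel₀ hc0', one_smul]
      refine ⟨b, hlt, hb', ⟨_, hνs'⟩, ?_⟩
      rw [hνs', B_smul_right] at hBr'
      have h3 := (mul_eq_zero.1 hBr').resolve_left (mul_ne_zero (inv_ne_zero hc0') hc0)
      rw [B_sub_left] at h3 hBr ⊢
      linarith
    obtain ⟨b, hblt, hb1, hcs, hBs⟩ := key 1 one_pos
    refine ⟨bs, νs, hFs, hcs, hBs, ?_⟩
    by_contra hcon
    have hge : θ ≤ bs := not_lt.1 hcon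
    have hne : θ ≠ bs := by
      rintro rfl
      exact hθr rs hBs
    have hgt : θ < bs := lt_of_le_of_ne hge hne
    obtain ⟨b', hb'lt, hb'1, -, -⟩ := key (bs - θ) (sub_pos.2 hgt)
    have := (abs_lt.1 hb'1).1
    linarith
  have h0R : (0 : unitInterval) ∈ R := by
    refine ⟨b1, ν1, by rw [hu0]; exact hF, ⟨1, (one_smul _ _).symm⟩, ?_, hθ⟩
    rw [hu0, sub_self, B_zero_left]
  have huniv : R = Set.univ := IsClopen.eq_univ ⟨hclosed, hopen⟩ ⟨0, h0R⟩
  have h1R : (1 : unitInterval) ∈ R := by rw [huniv]; exact Set.mem_univ _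
  obtain ⟨b2, ν2, h1, h2, h3, -⟩ := h1R
  rw [hu1'] at h1 h3
  exact ⟨b2, ν2, h1, h2, h3⟩

end Pool.Agent.Helper107.LC
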