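import Mathlib
import Pool.Agent.Helper107.LC.Fiber
set_option autoImplicit false
open Set Filter Topology
open scoped ContDiff

namespace Pool.Agent.Helper107.LC

section aux
variable {κ : ℝ} {m : ℕ}

theorem af_contB : Continuous (fun z : V m × V m => B κ z.1 z.2) := by
  unfold B
  fun_prop

theorem af_contQ : Continuous (fun z : V m × V m => Q κ z.1 z.2) := by
  unfold Q
  fun_prop

theorem af_contB' {Z : Type*} [TopologicalSpace Z] {f g : Z → V m} (hf : Continuous f)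
    (hg : Continuous g) : Continuous (fun z => B κ (f z) (g z)) :=
  af_contB.comp (hf.prodMk hg)

theorem af_contQ' {Z : Type*} [TopologicalSpace Z] {f g : Z → V m} (hf : Continuous f)
    (hg : Continuous g) : Continuous (fun z => Q κ (f z) (g z)) :=
  af_contQ.comp (hf.prodMk hg)

theorem af_conttg' {Z : Type*} [TopologicalSpace Z] {f g : Z → V m} (hf : Continuous f)
    (hg : Continuous g) : Continuous (fun z => tg κ (f z) (g z)) := by
  unfold tg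
  exact hg.sub ((af_contQ' hf hg).smul hf)

theorem af_contN2' {Z : Type*} [TopologicalSpace Z] {f g h : Z → V m} (hf : Continuous f)
    (hg : Continuous g) (hh : Continuous h) : Continuous (fun z => N2 κ (f z) (g z) (h z)) := by
  unfold N2
  exact ((af_contB' (af_conttg' hf hh) (af_conttg' hf hh)).add
    (continuous_const.mul ((af_contB' (af_conttg' hf hh) hg).pow 2))).add
    ((af_contQ' hf hh).pow 2)

theorem af_tg_smul (x w : V m) (a : ℝ) : tg κ x (a • w) = a • tg κ x w := by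
  rw [tg, tg, Q_smul_right, smul_sub, smul_smul]

theorem af_N2_smul (x t w : V m) (a : ℝ) : N2 κ x t (a • w) = a ^ 2 * N2 κ x t w := by
  simp only [N2, af_tg_smul, B_smul_left, B_smul_right, Q_smul_right]
  ring

theorem af_N2_zero (x t : V m) : N2 κ x t 0 = 0 := by
  have := af_N2_smul (κ := κ) x t 0 0
  rw [zero_smul] at this
  rw [this]; ring

theorem af_contsk (hκ : κ = -1 ∨ κ = 0 ∨ κ = 1) : Continuous (sk κ) :=
  continuous_iff_continuousAt.2 fun t => (hasDerivAt_sk hκ t).continuousAt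

theorem af_ck_add (hκ : κ = -1 ∨ κ = 0) (s b : ℝ) :
    ck κ (s + b) = ck κ s * ck κ b + κ * (sk κ s * sk κ b) := by
  rcases hκ with h | h <;> subst h
  · simp only [ck, sk, if_true]; rw [Real.cos_add]; ring
  · simp [ck, sk]

theorem af_sk_add (hκ : κ = -1 ∨ κ = 0) (s b : ℝ) :
    sk κ (s + b) = sk κ s * ck κ b + ck κ s * sk κ b := by
  rcases hκ with h | h <;> subst h
  · simp only [ck, sk, if_true]; rw [Real.sin_add]
  · simp [ck, sk]

theorem af_ray_add (hκ : κ = -1 ∨ κ = 0) (x u : V m) (s b : ℝ) :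
    ray κ (ray κ x u s) (vel κ x u s) b = ray κ x u (s + b) := by
  simp only [ray, vel, af_ck_add hκ, af_sk_add hκ]
  module

theorem af_A0 (hκ : κ = -1 ∨ κ = 0) (β : ℝ) (hβ : 0 ≤ β) (hβ1 : κ = -1 → β < 1) :
    ∃ s', 0 ≤ s' ∧ sk κ s' = β ∧ ∀ s ∈ Icc (0:ℝ) s', 0 ≤ sk κ s ∧ sk κ s ≤ β ∧
      Real.sqrt (1 + κ * sk κ s ^ 2) = ck κ s := by
  rcases hκ with h | h
  · have hb := hβ1 h
    subst h
    refine ⟨Real.arcsin β, Real.arcsin_nonneg.2 hβ, ?_, ?_⟩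
    · simp only [sk, if_true]
      exact Real.sin_arcsin (by linarith) hb.le
    · intro s hs
      have h1 : s ≤ Real.pi / 2 := hs.2.trans (Real.arcsin_le_pi_div_two β)
      have hpi := Real.pi_pos
      simp only [sk, ck, if_true]
      refine ⟨Real.sin_nonneg_of_nonneg_of_le_pi hs.1 (by linarith), ?_, ?_⟩
      · have h2 := Real.sin_le_sin_of_le_of_le_pi_div_two (by linarith [hs.1])
          (Real.arcsin_le_pi_div_two β) hs.2
        rwa [Real.sin_arcsin (by linarith) hb.le] at h2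
      · rw [Real.cos_eq_sqrt_one_sub_sin_sq (by linarith [hs.1]) h1]
        congr 1
        ring
  · subst h
    refine ⟨β, hβ, by simp [sk], ?_⟩
    intro s hs
    have e1 : sk 0 s = s := by simp [sk]
    have e2 : ck 0 s = 1 := by simp [ck]
    rw [e1, e2]
    refine ⟨hs.1, hs.2, ?_⟩
    rw [zero_mul, add_zero, Real.sqrt_one]

end aux

section aux2
variable {κ : ℝ} {m : ℕ} {Y : Type*} [TopologicalSpace Y] {P : Dev κ m Y} {Γ : Type*} [Group Γ]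
  [MulAction Γ Y] {H : Hol P Γ} {TT : TF H}

theorem af_A (hκ : κ = -1 ∨ κ = 0) (D : ExData TT) (w : Y) (v : V m)
    (hv : Q κ (P.p w) v = 0) (hN : N2 κ (P.p w) (TT.T w) v < D.ε ^ 2) (hB : B κ v v < 0)
    (hT : B κ v (TT.T w) < 0) :
    ∃ (u' : V m) (s' : ℝ) (σ : ℝ → Y), P.Fut TT.T w u' ∧ 0 ≤ s' ∧ ContinuousOn σ (Icc 0 s') ∧
      σ 0 = w ∧ (∀ s ∈ Icc 0 s', P.p (σ s) = ray κ (P.p w) u' s) ∧ σ s' = D.ex w v := by
  have hκ3 : κ = -1 ∨ κ = 0 ∨ κ = 1 := by tauto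
  have hneg : 0 < -B κ v v := by linarith
  obtain ⟨β, hβd⟩ : ∃ β, β = Real.sqrt (-B κ v v) := ⟨_, rfl⟩
  have hβ : 0 < β := by rw [hβd]; exact Real.sqrt_pos.2 hneg
  have hβsq : β ^ 2 = -B κ v v := by rw [hβd]; exact Real.sq_sqrt hneg.le
  have hlt := D.lt_one w v hv hN
  obtain ⟨s', hs', hsk, hall⟩ := af_A0 hκ β hβ.le (fun h => by
    rw [h] at hlt hβsq
    rw [h] at hneg
    nlinarith)
  have hv' : β • (β⁻¹ • v) = v := by
    rw [smul_smul, mul_inv_cancel₀ hβ.ne', one_smul]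
  have huu : B κ (β⁻¹ • v) (β⁻¹ • v) = -1 := by
    rw [B_smul_left, B_smul_right]
    have h1 : B κ v v = -β ^ 2 := by linarith
    rw [h1]
    field_simp
  have hQu : Q κ (P.p w) (β⁻¹ • v) = 0 := by rw [Q_smul_right, hv, mul_zero]
  have hFut : P.Fut TT.T w (β⁻¹ • v) := by
    refine ⟨hQu, huu, ?_⟩
    rw [B_smul_left]
    exact mul_neg_of_pos_of_neg (inv_pos.2 hβ) hT
  have hN0 : 0 ≤ N2 κ (P.p w) (TT.T w) (β⁻¹ • v) :=
    N2_nonneg hκ3 (P.mem w) (TT.tan w) (TT.unit w) _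
  have hNv : N2 κ (P.p w) (TT.T w) v = β ^ 2 * N2 κ (P.p w) (TT.T w) (β⁻¹ • v) := by
    rw [← af_N2_smul, hv']
  have hmem : ∀ s ∈ Icc (0:ℝ) s', Q κ (P.p w) (sk κ s • (β⁻¹ • v)) = 0 ∧
      N2 κ (P.p w) (TT.T w) (sk κ s • (β⁻¹ • v)) < D.ε ^ 2 := by
    intro s hs
    obtain ⟨h1, h2, _⟩ := hall s hs
    refine ⟨by rw [Q_smul_right, hQu, mul_zero], ?_⟩
    rw [af_N2_smul]
    refine lt_of_le_of_lt ?_ hN
    rw [hNv]
    apply mul_le_mul_of_nonneg_right _ hN0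
    exact pow_le_pow_left₀ h1 h2 2
  refine ⟨β⁻¹ • v, s', fun s => D.ex w (sk κ s • (β⁻¹ • v)), hFut, hs', ?_, ?_, ?_, ?_⟩
  · have h1 : ContinuousOn (fun s : ℝ => ((w, sk κ s • (β⁻¹ • v)) : Y × V m)) (Icc 0 s') :=
      (continuous_const.prodMk ((af_contsk hκ3).smul continuous_const)).continuousOn
    exact ContinuousOn.comp (g := fun q : Y × V m => D.ex q.1 q.2) D.cont h1
      (fun s hs => hmem s hs)
  · show D.ex w (sk κ 0 • (β⁻¹ • v)) = w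
    rw [sk_zero hκ3, zero_smul, D.ex_zero]
  · intro s hs
    obtain ⟨h1, h2, h3⟩ := hall s hs
    show P.p (D.ex w (sk κ s • (β⁻¹ • v))) = _
    rw [D.pex w _ (hmem s hs).1 (hmem s hs).2]
    unfold og ray
    rw [B_smul_left, B_smul_right, huu]
    have e1 : 1 - κ * (sk κ s * (sk κ s * -1)) = 1 + κ * sk κ s ^ 2 := by ring
    rw [e1, h3]
  · show D.ex w (sk κ s' • (β⁻¹ • v)) = D.ex w v
    rw [hsk, hv']

theorem af_B (hκ : κ = -1 ∨ κ = 0 ∨ κ = 1) (D : ExData TT) (w y : Y)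
    (hq : 0 < Q κ (P.p w) (P.p y))
    (hN : N2 κ (P.p w) (TT.T w) (tg κ (P.p w) (P.p y)) < D.ε ^ 2) :
    P.p (D.ex w (tg κ (P.p w) (P.p y))) = P.p y := by
  have ht : Q κ (P.p w) (tg κ (P.p w) (P.p y)) = 0 := Q_tg (P.mem w) _
  rw [D.pex w _ ht hN]
  unfold og
  have h1 : Q κ (P.p w) (P.p w) = 1 := P.mem w
  have h2 : Q κ (P.p y) (P.p y) = 1 := P.mem y
  have h3 := Q_tan hκ (P.mem w) ht _ ht
  have h4 : Q κ (tg κ (P.p w) (P.p y)) (tg κ (P.p w) (P.p y)) =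
      1 - Q κ (P.p w) (P.p y) ^ 2 := by
    unfold tg
    simp only [Q_sub_left, Q_sub_right, Q_smul_left, Q_smul_right, h1, h2,
      Q_comm (P.p y) (P.p w)]
    ring
  have h5 : 1 - κ * B κ (tg κ (P.p w) (P.p y)) (tg κ (P.p w) (P.p y)) =
      Q κ (P.p w) (P.p y) ^ 2 := by
    rw [← h3, h4]; ring
  rw [h5, Real.sqrt_sq hq.le, add_comm]
  exact tg_add_normal _ _

theorem af_inj (P : Dev κ m Y) (y : Y) : ∃ O : Set Y, IsOpen O ∧ y ∈ O ∧
    ∀ a ∈ O, ∀ b ∈ O, P.p a = P.p b → a = b := by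
  obtain ⟨e, he, hf⟩ := P.lh y
  refine ⟨e.source, e.open_source, he, fun a ha b hb hab => ?_⟩
  apply e.injOn ha hb
  have h1 : (fun y => (⟨P.p y, P.mem y⟩ : X κ m)) a = (fun y => (⟨P.p y, P.mem y⟩ : X κ m)) b :=
    Subtype.ext hab
  rw [hf] at h1
  exact h1

/-- choice of a base point slightly in the past -/
theorem af_C (hκ : κ = -1 ∨ κ = 0) (D : ExData TT) (yi : Y) (O : Set Y) (hO : IsOpen O)
    (hyO : yi ∈ O) :
    ∃ w : Y, 0 < Q κ (P.p w) (P.p yi) ∧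
      N2 κ (P.p w) (TT.T w) (tg κ (P.p w) (P.p yi)) < D.ε ^ 2 ∧
      B κ (tg κ (P.p w) (P.p yi)) (tg κ (P.p w) (P.p yi)) < 0 ∧
      B κ (tg κ (P.p w) (P.p yi)) (TT.T w) < 0 ∧
      D.ex w (tg κ (P.p w) (P.p yi)) ∈ O := by
  have hκ3 : κ = -1 ∨ κ = 0 ∨ κ = 1 := by tauto
  have hTc : Continuous TT.T := TT.sm.continuous
  have hpc : Continuous P.p := P.continuous_p
  have hε : 0 < D.ε ^ 2 := by
    have := D.ε_pos
    positivity
  have hxx : Q κ (P.p yi) (P.p yi) = 1 := P.mem yi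
  have hxT : Q κ (P.p yi) (TT.T yi) = 0 := TT.tan yi
  have hTT : B κ (TT.T yi) (TT.T yi) = -1 := TT.unit yi
  set S : Set (Y × V m) := {q | Q κ (P.p q.1) q.2 = 0 ∧ N2 κ (P.p q.1) (TT.T q.1) q.2 < D.ε ^ 2}
    with hS
  have hS0 : (yi, (0 : V m)) ∈ S := by
    refine ⟨Q_zero_right _, ?_⟩
    show N2 κ (P.p yi) (TT.T yi) 0 < D.ε ^ 2
    rw [af_N2_zero]; exact hε
  have hex0 : Tendsto (fun q : Y × V m => D.ex q.1 q.2) (𝓝[S] (yi, 0)) (𝓝 yi) := by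
    have h1 : Tendsto (fun q : Y × V m => D.ex q.1 q.2) (𝓝[S] (yi, 0)) (𝓝 (D.ex yi 0)) :=
      D.cont (yi, 0) hS0
    rwa [D.ex_zero] at h1
  -- the path of base points
  have hneg : Continuous (fun a : ℝ => ((yi, (-a) • TT.T yi) : Y × V m)) :=
    continuous_const.prodMk (continuous_neg.smul continuous_const)
  have hneg0 : Tendsto (fun a : ℝ => ((yi, (-a) • TT.T yi) : Y × V m)) (𝓝[>] (0:ℝ))
      (𝓝 (yi, 0)) := by
    have h1 := (hneg.tendsto 0).mono_left (nhdsWithin_le_nhds (s := Ioi (0:ℝ)))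
    simpa using h1
  have hNa : ∀ᶠ a in 𝓝[>] (0:ℝ), N2 κ (P.p yi) (TT.T yi) ((-a) • TT.T yi) < D.ε ^ 2 := by
    have h1 : Continuous (fun a : ℝ => N2 κ (P.p yi) (TT.T yi) ((-a) • TT.T yi)) :=
      af_contN2' continuous_const continuous_const (continuous_neg.smul continuous_const)
    have h2 := (h1.tendsto 0).mono_left (nhdsWithin_le_nhds (s := Ioi (0:ℝ)))
    rw [neg_zero, zero_smul, af_N2_zero] at h2
    exact h2.eventually (gt_mem_nhds hε)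
  have hmemS : ∀ᶠ a in 𝓝[>] (0:ℝ), ((yi, (-a) • TT.T yi) : Y × V m) ∈ S := by
    filter_upwards [hNa] with a ha
    refine ⟨?_, ha⟩
    show Q κ (P.p yi) ((-a) • TT.T yi) = 0
    rw [Q_smul_right, hxT, mul_zero]
  let w : ℝ → Y := fun a => D.ex yi ((-a) • TT.T yi)
  have hw : Tendsto w (𝓝[>] (0:ℝ)) (𝓝 yi) :=
    hex0.comp (tendsto_nhdsWithin_iff.2 ⟨hneg0, hmemS⟩)
  have hpw : Tendsto (fun a => P.p (w a)) (𝓝[>] (0:ℝ)) (𝓝 (P.p yi)) :=
    (hpc.tendsto yi).comp hw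
  have hTw : Tendsto (fun a => TT.T (w a)) (𝓝[>] (0:ℝ)) (𝓝 (TT.T yi)) :=
    (hTc.tendsto yi).comp hw
  -- vector
  let v : ℝ → V m := fun a => tg κ (P.p (w a)) (P.p yi)
  have hv0 : Tendsto v (𝓝[>] (0:ℝ)) (𝓝 0) := by
    have h1 : Continuous (fun x : V m => tg κ x (P.p yi)) :=
      af_conttg' continuous_id continuous_const
    have h2 := (h1.tendsto (P.p yi)).comp hpw
    have h3 : tg κ (P.p yi) (P.p yi) = 0 := by
      rw [tg, hxx, one_smul, sub_self]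
    rw [h3] at h2
    exact h2
  have hwv : Tendsto (fun a => ((w a, v a) : Y × V m)) (𝓝[>] (0:ℝ)) (𝓝 (yi, 0)) :=
    hw.prodMk_nhds hv0
  have hN : ∀ᶠ a in 𝓝[>] (0:ℝ), N2 κ (P.p (w a)) (TT.T (w a)) (v a) < D.ε ^ 2 := by
    have h1 : Continuous (fun q : Y × V m => N2 κ (P.p q.1) (TT.T q.1) q.2) :=
      af_contN2' (hpc.comp continuous_fst) (hTc.comp continuous_fst) continuous_snd
    have h2 := (h1.tendsto (yi, 0)).comp hwv
    have h3 : N2 κ (P.p (yi, (0 : V m)).1) (TT.T (yi, (0 : V m)).1) (yi, (0 : V m)).2 = 0 :=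
      af_N2_zero _ _
    rw [h3] at h2
    exact h2.eventually (gt_mem_nhds hε)
  have hwvS : ∀ᶠ a in 𝓝[>] (0:ℝ), ((w a, v a) : Y × V m) ∈ S := by
    filter_upwards [hN] with a ha
    exact ⟨Q_tg (P.mem (w a)) _, ha⟩
  have hexO : ∀ᶠ a in 𝓝[>] (0:ℝ), D.ex (w a) (v a) ∈ O := by
    have h1 : Tendsto (fun a => D.ex (w a) (v a)) (𝓝[>] (0:ℝ)) (𝓝 yi) :=
      hex0.comp (tendsto_nhdsWithin_iff.2 ⟨hwv, hwvS⟩)
    exact h1.eventually (hO.mem_nhds hyO)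
  -- explicit formulas
  have hsmall : ∀ᶠ a in 𝓝[>] (0:ℝ), a < 1 := by
    have : ∀ᶠ a in 𝓝 (0:ℝ), a < 1 := gt_mem_nhds one_pos
    exact this.filter_mono nhdsWithin_le_nhds
  have hpos : ∀ᶠ a in 𝓝[>] (0:ℝ), 0 < a := self_mem_nhdsWithin
  have hlim : ∀ᶠ a in 𝓝[>] (0:ℝ),
      B κ (Real.sqrt (1 + κ * a ^ 2) • TT.T yi - (κ * a) • P.p yi) (TT.T (w a)) < 0 := by
    have h1 : Continuous (fun a : ℝ => Real.sqrt (1 + κ * a ^ 2) • TT.T yi - (κ * a) • P.p yi) := by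
      fun_prop
    have h2 := (h1.tendsto 0).mono_left (nhdsWithin_le_nhds (s := Ioi (0:ℝ)))
    have h3 : Real.sqrt (1 + κ * (0:ℝ) ^ 2) • TT.T yi - (κ * 0) • P.p yi = TT.T yi := by
      simp
    rw [h3] at h2
    have h4 := (af_contB (κ := κ) (m := m)).tendsto (TT.T yi, TT.T yi)
    have h5 := h4.comp (h2.prodMk_nhds hTw)
    have h6 : B κ ((TT.T yi, TT.T yi) : V m × V m).1 ((TT.T yi, TT.T yi) : V m × V m).2 = -1 := hTT
    rw [h6] at h5
    exact h5.eventually (gt_mem_nhds (by norm_num : (-1:ℝ) < 0))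
  obtain ⟨a, ha1, ha2, ha3, ha4, ha5, ha6⟩ :=
    (((hNa.and (hN.and (hexO.and (hsmall.and (hpos.and hlim)))))).exists)
  have hs : (0:ℝ) < 1 + κ * a ^ 2 := by
    rcases hκ with h | h
    · rw [h]; nlinarith
    · rw [h]; linarith
  obtain ⟨c, hc⟩ : ∃ c, c = Real.sqrt (1 + κ * a ^ 2) := ⟨_, rfl⟩
  have hc0 : 0 < c := by rw [hc]; exact Real.sqrt_pos.2 hs
  have hc2 : c ^ 2 = 1 + κ * a ^ 2 := by rw [hc]; exact Real.sq_sqrt hs.le
  have hpw' : P.p (w a) = c • P.p yi - a • TT.T yi := by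
    show P.p (D.ex yi ((-a) • TT.T yi)) = _
    rw [D.pex yi _ (by rw [Q_smul_right, hxT, mul_zero]) ha1]
    unfold og
    rw [B_smul_left, B_smul_right, hTT]
    rw [show 1 - κ * (-a * (-a * -1)) = 1 + κ * a ^ 2 by ring, ← hc]
    module
  have hQc : Q κ (P.p (w a)) (P.p yi) = c := by
    rw [hpw', Q_sub_left, Q_smul_left, Q_smul_left, hxx, Q_comm (TT.T yi), hxT]
    ring
  have hva : tg κ (P.p (w a)) (P.p yi) = a • (c • TT.T yi - (κ * a) • P.p yi) := by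
    rw [tg, hQc, hpw']
    have h1 : (1 - c ^ 2) = -(κ * a ^ 2) := by rw [hc2]; ring
    have h2 : P.p yi - c • (c • P.p yi - a • TT.T yi) =
        (1 - c ^ 2) • P.p yi + (a * c) • TT.T yi := by module
    rw [h2, h1]
    module
  refine ⟨w a, ?_, ha2, ?_, ?_, ha3⟩
  · rw [hQc]; exact hc0
  · rw [hva, B_smul_left, B_smul_right]
    have h1 : B κ (c • TT.T yi - (κ * a) • P.p yi) (c • TT.T yi - (κ * a) • P.p yi) = -1 := by
      simp only [B_sub_left, B_sub_right, B_smul_left, B_smul_right, hTT,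
        B_comm (P.p yi) (TT.T yi)]
      rcases hκ with h | h
      · subst h
        have e1 : B (-1) (P.p yi) (P.p yi) = -1 := by
          have := Q_eq_B (κ := (-1:ℝ)) (P.p yi) (P.p yi)
          rw [hxx] at this; linarith
        have e2 : B (-1) (TT.T yi) (P.p yi) = 0 := by
          have := Q_eq_B (κ := (-1:ℝ)) (P.p yi) (TT.T yi)
          rw [hxT] at this
          rw [B_comm]; linarith
        rw [e1, e2]
        nlinarith
      · subst h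
        nlinarith
    rw [h1]
    nlinarith
  · rw [hva, B_smul_left]
    rw [← hc] at ha6
    exact mul_neg_of_pos_of_neg ha5 ha6

/-- all points near `yi` are reached from one point by future timelike geodesics that lift -/
theorem af_reach (hκ : κ = -1 ∨ κ = 0) (D : ExData TT) (yi : Y) :
    ∃ w : Y, ∀ᶠ y' in 𝓝 yi, ∃ (u' : V m) (s' : ℝ) (σ : ℝ → Y), P.Fut TT.T w u' ∧ 0 ≤ s' ∧
      ContinuousOn σ (Icc 0 s') ∧ σ 0 = w ∧
      (∀ s ∈ Icc 0 s', P.p (σ s) = ray κ (P.p w) u' s) ∧ σ s' = y' := by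
  have hκ3 : κ = -1 ∨ κ = 0 ∨ κ = 1 := by tauto
  have hTc : Continuous TT.T := TT.sm.continuous
  have hpc : Continuous P.p := P.continuous_p
  obtain ⟨O, hO, hyO, hinj⟩ := af_inj P yi
  obtain ⟨w, hw1, hw2, hw3, hw4, hw5⟩ := af_C hκ D yi O hO hyO
  refine ⟨w, ?_⟩
  have hv : Continuous (fun y' : Y => tg κ (P.p w) (P.p y')) :=
    af_conttg' continuous_const hpc
  have c1 : ∀ᶠ y' in 𝓝 yi, 0 < Q κ (P.p w) (P.p y') :=
    ((af_contQ' (κ := κ) (continuous_const (y := P.p w)) hpc).tendsto yi).eventually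
      (lt_mem_nhds hw1)
  have c2 : ∀ᶠ y' in 𝓝 yi, N2 κ (P.p w) (TT.T w) (tg κ (P.p w) (P.p y')) < D.ε ^ 2 :=
    ((af_contN2' (κ := κ) (continuous_const (y := P.p w)) (continuous_const (y := TT.T w))
      hv).tendsto yi).eventually (gt_mem_nhds hw2)
  have c3 : ∀ᶠ y' in 𝓝 yi, B κ (tg κ (P.p w) (P.p y')) (tg κ (P.p w) (P.p y')) < 0 :=
    ((af_contB' (κ := κ) hv hv).tendsto yi).eventually (gt_mem_nhds hw3)
  have c4 : ∀ᶠ y' in 𝓝 yi, B κ (tg κ (P.p w) (P.p y')) (TT.T w) < 0 :=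
    ((af_contB' (κ := κ) hv (continuous_const (y := TT.T w))).tendsto yi).eventually
      (gt_mem_nhds hw4)
  have c5 : ∀ᶠ y' in 𝓝 yi, D.ex w (tg κ (P.p w) (P.p y')) ∈ O := by
    have h1 : Tendsto (fun y' : Y => ((w, tg κ (P.p w) (P.p y')) : Y × V m)) (𝓝 yi)
        (𝓝[{q : Y × V m | Q κ (P.p q.1) q.2 = 0 ∧ N2 κ (P.p q.1) (TT.T q.1) q.2 < D.ε ^ 2}]
          (w, tg κ (P.p w) (P.p yi))) := by
      rw [tendsto_nhdsWithin_iff]
      refine ⟨((continuous_const (y := w)).prodMk hv).tendsto yi, ?_⟩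
      filter_upwards [c2] with y' hy'
      exact ⟨Q_tg (P.mem w) _, hy'⟩
    have h2 := (D.cont (w, tg κ (P.p w) (P.p yi)) ⟨Q_tg (P.mem w) _, hw2⟩).tendsto.comp h1
    exact h2.eventually (hO.mem_nhds hw5)
  have c6 : ∀ᶠ y' in 𝓝 yi, y' ∈ O := hO.mem_nhds hyO
  filter_upwards [c1, c2, c3, c4, c5, c6] with y' d1 d2 d3 d4 d5 d6
  obtain ⟨u', s', σ, h1, h2, h3, h4, h5, h6⟩ := af_A hκ D w (tg κ (P.p w) (P.p y'))
    (Q_tg (P.mem w) _) d2 d3 d4
  refine ⟨u', s', σ, h1, h2, h3, h4, h5, ?_⟩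
  rw [h6]
  exact hinj _ d5 _ d6 (af_B hκ3 D w y' d1 d2)

/-- the property to be propagated -/
def Dev.Fl (P : Dev κ m Y) (T : Y → V m) (e0 ν0 : V m) (y : Y) : Prop :=
  ∃ u b ν, P.Fut T y u ∧ P.FailsAt T y u b ν ∧ (∃ c : ℝ, ν = c • ν0) ∧
    B κ (ray κ (P.p y) u b - e0) ν0 = 0

theorem af_c_ne {T : Y → V m} {y : Y} {u : V m} {b : ℝ} {ν ν0 : V m} {c : ℝ}
    (h : P.FailsAt T y u b ν) (hc : ν = c • ν0) : c ≠ 0 := by
  intro h0
  have h1 := h.2.2.2.2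
  rw [hc, h0, zero_smul, B_zero_right] at h1
  norm_num at h1

theorem af_fiber [T2Space Y] (hκ : κ = -1 ∨ κ = 0) (D : ExData TT) {e0 ν0 : V m} {y : Y}
    (h : P.Fl TT.T e0 ν0 y) {u' : V m} (hu' : P.Fut TT.T y u') :
    ∃ b ν, P.FailsAt TT.T y u' b ν ∧ (∃ c : ℝ, ν = c • ν0) ∧
      B κ (ray κ (P.p y) u' b - e0) ν0 = 0 := by
  obtain ⟨u, b, ν, hu, hf, ⟨c, hc⟩, hB⟩ := h
  obtain ⟨b2, ν2, hf2, ⟨c2, hc2⟩, hB2⟩ := Dev.fiber hκ P D hf hu hu'
  refine ⟨b2, ν2, hf2, ⟨c2 * c, by rw [hc2, hc, smul_smul]⟩, ?_⟩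
  have hc0 := af_c_ne hf hc
  rw [hc, B_smul_right] at hB2
  have h3 := (mul_eq_zero.1 hB2).resolve_left hc0
  have h4 : ray κ (P.p y) u' b2 - e0 = (ray κ (P.p y) u' b2 - ray κ (P.p y) u b) +
      (ray κ (P.p y) u b - e0) := by abel
  rw [h4, B_add_left, h3, hB, add_zero]

theorem af_futT (y : Y) : P.Fut TT.T y (TT.T y) :=
  ⟨TT.tan y, TT.unit y, by rw [TT.unit y]; norm_num⟩

theorem af_open [T2Space Y] (hκ : κ = -1 ∨ κ = 0) (D : ExData TT) {e0 ν0 : V m} {y : Y}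
    (h : P.Fl TT.T e0 ν0 y) : ∀ᶠ y' in 𝓝 y, P.Fl TT.T e0 ν0 y' := by
  have hκ3 : κ = -1 ∨ κ = 0 ∨ κ = 1 := by tauto
  have hTc : Continuous TT.T := TT.sm.continuous
  obtain ⟨b, ν, hf, ⟨c, hc⟩, hB⟩ := af_fiber hκ D h (af_futT y)
  have h1 := Dev.failsAt_open hκ3 P D hf (af_futT y) one_pos
  have h2 : Tendsto (fun y' : Y => ((y', TT.T y') : Y × V m)) (𝓝 y) (𝓝 (y, TT.T y)) :=
    (continuous_id.prodMk hTc).tendsto y
  filter_upwards [h2.eventually h1] with y' hy'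
  obtain ⟨b', ν', hf', _, ⟨c', hc'⟩, hB'⟩ := hy' (af_futT y')
  refine ⟨TT.T y', b', ν', af_futT y', hf', ⟨c' * c, by rw [hc', hc, smul_smul]⟩, ?_⟩
  have hc0 := af_c_ne hf hc
  rw [hc, B_smul_right] at hB'
  have h3 := (mul_eq_zero.1 hB').resolve_left hc0
  have h4 : ray κ (P.p y') (TT.T y') b' - e0 =
      (ray κ (P.p y') (TT.T y') b' - ray κ (P.p y) (TT.T y) b) +
      (ray κ (P.p y) (TT.T y) b - e0) := by abel
  rw [h4, B_add_left, h3, hB, add_zero]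

theorem af_closed [T2Space Y] (hκ : κ = -1 ∨ κ = 0) (D : ExData TT) {e0 ν0 : V m} {yi : Y}
    (h : ∃ᶠ y' in 𝓝 yi, P.Fl TT.T e0 ν0 y') : P.Fl TT.T e0 ν0 yi := by
  have hκ3 : κ = -1 ∨ κ = 0 ∨ κ = 1 := by tauto
  have hTc : Continuous TT.T := TT.sm.continuous
  obtain ⟨w, hw⟩ := af_reach hκ D yi
  obtain ⟨y', hFl, u', s', σ, h1, h2, h3, h4, h5, h6⟩ := (h.and_eventually hw).exists
  -- the point w has the property
  have hvel : P.Fut TT.T y' (vel κ (P.p w) u' s') := by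
    have := Dev.Fut.vel hκ3 hTc TT.tan TT.unit h1 h2 σ h3 h4 h5
    rwa [h6] at this
  have hpy' : P.p y' = ray κ (P.p w) u' s' := by
    rw [← h6]; exact h5 s' ⟨h2, le_refl _⟩
  have hFw : P.Fl TT.T e0 ν0 w := by
    obtain ⟨b, ν, hf, hc, hB⟩ := af_fiber hκ D hFl hvel
    refine ⟨u', s' + b, ν, h1, ?_, hc, ?_⟩
    · apply Dev.FailsAt.of_shift hκ3 h1.1 h1.2.1 h2 σ h3 h4 h5
      rw [h6]; exact hf
    · rw [hpy', af_ray_add hκ] at hB
      exact hB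
  -- forward to yi
  obtain ⟨U, s, τ, g1, g2, g3, g4, g5, g6⟩ := hw.self_of_nhds
  obtain ⟨b, ν, hf, hc, hB⟩ := af_fiber hκ D hFw g1
  have hlt : s < b := by
    by_contra hcon
    push Not at hcon
    exact Dev.FailsAt.not_liftsTo hκ3 hTc hf hcon ⟨τ, g3, g4, g5⟩
  have hf2 := Dev.FailsAt.shift hκ3 g1.1 g1.2.1 g2 τ g3 g4 g5 hf hlt
  have hvel2 := Dev.Fut.vel hκ3 hTc TT.tan TT.unit g1 g2 τ g3 g4 g5
  have hpyi : P.p yi = ray κ (P.p w) U s := by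
    rw [← g6]; exact g5 s ⟨g2, le_refl _⟩
  rw [g6] at hf2 hvel2
  refine ⟨vel κ (P.p w) U s, b - s, ν, hvel2, hf2, hc, ?_⟩
  rw [hpyi, af_ray_add hκ, add_sub_cancel]
  exact hB

end aux2

/-- global propagation: all future timelike geodesics fail, on the same null hypersurface -/
theorem Dev.all_fail {κ : ℝ} {m : ℕ} (hκ : κ = -1 ∨ κ = 0) {Y : Type*}
    [TopologicalSpace Y] [T2Space Y] [ConnectedSpace Y] (P : Dev κ m Y) {Γ : Type*} [Group Γ]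
    [MulAction Γ Y] {H : Hol P Γ} {TT : TF H} (D : ExData TT) {y0 : Y} {u0 : V m} {b0 : ℝ} {ν0 : V m}
    (hF : P.FailsAt TT.T y0 u0 b0 ν0) (hu0 : P.Fut TT.T y0 u0) (y : Y) (u : V m)
    (hu : P.Fut TT.T y u) :
    ∃ b ν, P.FailsAt TT.T y u b ν ∧ (∃ c : ℝ, ν = c • ν0) ∧
      B κ (ray κ (P.p y) u b - ray κ (P.p y0) u0 b0) ν0 = 0 := by
  have h0 : P.Fl TT.T (ray κ (P.p y0) u0 b0) ν0 y0 :=
    ⟨u0, b0, ν0, hu0, hF, ⟨1, (one_smul _ _).symm⟩, by rw [sub_self, B_zero_left]⟩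
  have hclopen : IsClopen {y | P.Fl TT.T (ray κ (P.p y0) u0 b0) ν0 y} := by
    constructor
    · rw [← closure_subset_iff_isClosed]
      intro yi hyi
      exact af_closed hκ D (mem_closure_iff_frequently.1 hyi)
    · rw [isOpen_iff_mem_nhds]
      intro y hy
      exact af_open hκ D hy
  have huniv := hclopen.eq_univ ⟨y0, h0⟩
  have hy : P.Fl TT.T (ray κ (P.p y0) u0 b0) ν0 y := by
    have : y ∈ {y | P.Fl TT.T (ray κ (P.p y0) u0 b0) ν0 y} := by rw [huniv]; trivial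
    exact this
  exact af_fiber hκ D hy hu

end Pool.Agent.Helper107.LC
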