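import Mathlib
import Pool.Agent.Helper107.LC.KC
set_option autoImplicit false
open Set Filter Topology
open scoped ContDiff

namespace Pool.Agent.Helper107.LC

section fpos
variable {m : ℕ}

theorem Q_one (x y : V m) : Q 1 x y = B 1 x y := by
  rw [Q_eq_B]; ring

theorem ray_one (x u : V m) (t : ℝ) : ray 1 x u t = Real.cosh t • x + Real.sinh t • u := by
  have e : ck 1 t = Real.cosh t := by
    simp only [ck]; rw [if_neg (by norm_num), if_neg (by norm_num)]
  have e2 : sk 1 t = Real.sinh t := by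
    simp only [sk]; rw [if_neg (by norm_num), if_neg (by norm_num)]
  rw [ray, e, e2]

theorem vel_one (x u : V m) (t : ℝ) : vel 1 x u t = Real.sinh t • x + Real.cosh t • u := by
  have e : ck 1 t = Real.cosh t := by
    simp only [ck]; rw [if_neg (by norm_num), if_neg (by norm_num)]
  have e2 : sk 1 t = Real.sinh t := by
    simp only [sk]; rw [if_neg (by norm_num), if_neg (by norm_num)]
  rw [vel, e, e2, one_mul]

theorem fails_vals {Y : Type*} [TopologicalSpace Y] {P : Dev 1 m Y} {T : Y → V m} {y : Y}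
    {u : V m} {b : ℝ} {ν : V m} (h : P.FailsAt T y u b ν) :
    B 1 (P.p y) ν = Real.sinh b ∧ B 1 u ν = -Real.cosh b := by
  obtain ⟨hb, -, -, h1, h2⟩ := h
  rw [Q_one, ray_one, B_add_left, B_smul_left, B_smul_left] at h1
  rw [vel_one, B_add_left, B_smul_left, B_smul_left] at h2
  have h3 := Real.cosh_sq b
  constructor
  · linear_combination Real.cosh b * h1 - Real.sinh b * h2 - B 1 (P.p y) ν * h3
  · linear_combination Real.cosh b * h2 - Real.sinh b * h1 - B 1 u ν * h3

theorem ker_conn (hm : 2 ≤ m) (L : V m →ₗ[ℝ] ℝ × ℝ) :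
    IsConnected ({0}ᶜ : Set (LinearMap.ker L)) := by
  apply isConnected_compl_singleton_of_one_lt_rank
  have h1 := LinearMap.finrank_range_add_finrank_ker L
  have h2 : Module.finrank ℝ (LinearMap.range L) ≤ 2 := by
    have := Submodule.finrank_le (LinearMap.range L)
    have h5 : Module.finrank ℝ (ℝ × ℝ) = 2 := by simp
    omega
  have h3 : Module.finrank ℝ (V m) = m + 2 := by
    have : Module.finrank ℝ (ℝ × E m × ℝ) = m + 2 := by
      rw [Module.finrank_prod, Module.finrank_prod]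
      simp
      omega
    exact this
  have h4 : 1 < Module.finrank ℝ (LinearMap.ker L) := by omega
  exact_mod_cast Module.lt_rank_of_lt_finrank h4

theorem cont_BB : Continuous (fun v : V m => B 1 v v) := by
  unfold B
  fun_prop

end fpos

/-- de Sitter case of `Dev.fiber`: one exceptional direction -/
theorem Dev.fiber_pos {m : ℕ} (hm : 2 ≤ m) {Y : Type*}
    [TopologicalSpace Y] [T2Space Y] (P : Dev 1 m Y) {Γ : Type*} [Group Γ] [MulAction Γ Y]
    {H : Hol P Γ} {TT : TF H} (D : ExData TT) {y : Y} {u1 : V m} {b1 : ℝ} {ν1 : V m}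
    (hF : P.FailsAt TT.T y u1 b1 ν1) (hu1 : P.Fut TT.T y u1) :
    B 1 (P.p y) ν1 ≠ 0 ∧ ∀ u2 : V m, P.Fut TT.T y u2 → u2 ≠ (B 1 (P.p y) ν1)⁻¹ • ν1 - P.p y →
    ∃ b2 ν2, P.FailsAt TT.T y u2 b2 ν2 ∧ (∃ c : ℝ, ν2 = c • ν1) ∧
      B 1 (ray 1 (P.p y) u2 b2) ν1 = 0 := by
  have hκ : (1:ℝ) = -1 ∨ (1:ℝ) = 0 ∨ (1:ℝ) = 1 := Or.inr (Or.inr rfl)
  obtain ⟨hx1, hu1ν⟩ := fails_vals hF
  have hb1 : 0 < b1 := hF.1
  have hS : 0 < Real.sinh b1 := Real.sinh_pos_iff.mpr hb1
  have hne : B 1 (P.p y) ν1 ≠ 0 := by rw [hx1]; exact hS.ne'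
  refine ⟨hne, ?_⟩
  have hTc : Continuous TT.T := Dev.Sm.continuous TT.sm
  set x := P.p y with hxdef
  have hX : x ∈ X 1 m := P.mem y
  have hxx : B 1 x x = 1 := by rw [← Q_one]; exact hX
  have hνν : B 1 ν1 ν1 = 0 := hF.2.2.1
  obtain ⟨us, hus⟩ : ∃ us : V m, us = (B 1 x ν1)⁻¹ • ν1 - x := ⟨_, rfl⟩
  have husx : Q 1 x us = 0 := by
    rw [Q_one, hus, B_sub_right, B_smul_right, hxx, inv_mul_cancel₀ hne, sub_self]
  have husus : B 1 us us = -1 := by
    have e : B 1 us us = -1 := by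
      rw [hus, B_sub_left, B_sub_right, B_sub_right, B_smul_left, B_smul_left, B_smul_right,
        B_smul_right, hνν, hxx, B_comm ν1 x, inv_mul_cancel₀ hne]
      ring
    exact e
  have hBus : ∀ u, Q 1 x u = 0 → B 1 u us = (B 1 x ν1)⁻¹ * B 1 u ν1 := by
    intro u hu
    rw [Q_one, B_comm] at hu
    rw [hus, B_sub_right, B_smul_right, hu, sub_zero]
  have hBus' : ∀ u, Q 1 x u = 0 → B 1 u ν1 = B 1 x ν1 * B 1 u us := by
    intro u hu
    rw [hBus u hu, mul_inv_cancel_left₀ hne]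
  have hTt := TT.tan y
  have hTu := TT.unit y
  -- `us` is future directed
  have h11 : B 1 us u1 < 0 := by
    rw [B_comm, hBus u1 hu1.1, hu1ν, hx1]
    have : 0 < (Real.sinh b1)⁻¹ * Real.cosh b1 := mul_pos (inv_pos.mpr hS) (Real.cosh_pos b1)
    linarith
  have husT : B 1 us (TT.T y) < 0 := by
    refine fut_trans hκ hX (t := u1) hu1.1 (by rw [hu1.2.1]; norm_num) husx
      (by rw [husus]; norm_num) hTt (by rw [hTu]; norm_num) h11 ?_
    rw [B_comm]; exact hu1.2.2
  have hfut : ∀ u, Q 1 x u = 0 → B 1 u u = -1 → B 1 u us < 0 → P.Fut TT.T y u := by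
    intro u h1 h2 h3
    refine ⟨h1, h2, ?_⟩
    refine fut_trans hκ hX (t := us) husx (by rw [husus]; norm_num) h1
      (by rw [h2]; norm_num) hTt (by rw [hTu]; norm_num) h3 ?_
    rw [B_comm]; exact husT
  have hfut' : ∀ u, P.Fut TT.T y u → B 1 u us < 0 := by
    intro u h
    exact fut_trans hκ hX (t := TT.T y) hTt (by rw [hTu]; norm_num) h.1
      (by rw [h.2.1]; norm_num) husx (by rw [husus]; norm_num) h.2.2 husT
  -- the linear map
  let L : V m →ₗ[ℝ] ℝ × ℝ :=
    { toFun := fun v => (B 1 x v, B 1 us v)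
      map_add' := fun v w => by ext <;> simp [B_add_right]
      map_smul' := fun c v => by ext <;> simp [B_smul_right] }
  have hL : ∀ v, L v = (B 1 x v, B 1 us v) := fun v => rfl
  have hmem : ∀ s : LinearMap.ker L, Q 1 x (s : V m) = 0 ∧ B 1 (s : V m) us = 0 := by
    intro s
    have h1 : L (s : V m) = 0 := s.2
    rw [hL] at h1
    have h2 := Prod.ext_iff.mp h1
    exact ⟨by rw [Q_one]; exact h2.1, by rw [B_comm]; exact h2.2⟩
  have hnn : ∀ s : LinearMap.ker L, 0 ≤ B 1 (s : V m) (s : V m) := fun s =>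
    B_nonneg_of_orth hκ hX husx (by rw [husus]; norm_num) (hmem s).1 (hmem s).2
  have hpp : ∀ s : LinearMap.ker L, s ≠ 0 → 0 < B 1 (s : V m) (s : V m) := fun s hs =>
    B_pos_of_orth hκ hX husx (by rw [husus]; norm_num) (hmem s).1 (hmem s).2
      (fun h => hs (Subtype.ext h))
  let Φ : LinearMap.ker L → V m := fun s => Real.sqrt (1 + B 1 (s : V m) (s : V m)) • us + (s : V m)
  have hΦdef : ∀ s, Φ s = Real.sqrt (1 + B 1 (s : V m) (s : V m)) • us + (s : V m) := fun _ => rfl
  have hΦc : Continuous Φ := by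
    have h1 : Continuous fun s : LinearMap.ker L => Real.sqrt (1 + B 1 (s : V m) (s : V m)) :=
      Real.continuous_sqrt.comp (continuous_const.add (cont_BB.comp continuous_subtype_val))
    exact (h1.smul continuous_const).add continuous_subtype_val
  have hΦ1 : ∀ s, Q 1 x (Φ s) = 0 := by
    intro s
    rw [hΦdef, Q_add_right, Q_smul_right, husx, (hmem s).1]; ring
  have hΦ2 : ∀ s, B 1 (Φ s) us = -Real.sqrt (1 + B 1 (s : V m) (s : V m)) := by
    intro s
    rw [hΦdef, B_add_left, B_smul_left, husus, (hmem s).2]; ring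
  have hΦ3 : ∀ s, B 1 (Φ s) (Φ s) = -1 := by
    intro s
    have h1 := Real.sq_sqrt (show 0 ≤ 1 + B 1 (s : V m) (s : V m) by linarith [hnn s])
    have h2 : B 1 (Φ s) (Φ s) = Real.sqrt (1 + B 1 (s : V m) (s : V m)) * B 1 (Φ s) us
        + B 1 (Φ s) (s : V m) := by
      conv_lhs => rw [hΦdef s, B_add_right, B_smul_right, ← hΦdef s]
    have h3 : B 1 (Φ s) (s : V m) = B 1 (s : V m) (s : V m) := by
      rw [hΦdef, B_add_left, B_smul_left, B_comm us, (hmem s).2]; ring
    rw [h2, h3, hΦ2]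
    nlinarith
  have hΦF : ∀ s, P.Fut TT.T y (Φ s) := by
    intro s
    refine hfut _ (hΦ1 s) (hΦ3 s) ?_
    rw [hΦ2]
    have : 0 < Real.sqrt (1 + B 1 (s : V m) (s : V m)) :=
      Real.sqrt_pos.mpr (by linarith [hnn s])
    linarith
  -- surjectivity
  have hsurj : ∀ u, P.Fut TT.T y u → u ≠ us → ∃ s : LinearMap.ker L, s ≠ 0 ∧ Φ s = u := by
    intro u hu hune
    have hneg := hfut' u hu
    have hxu : B 1 x u = 0 := by rw [← Q_one]; exact hu.1
    have hxus : B 1 x us = 0 := by rw [← Q_one]; exact husx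
    have e1 : B 1 x (u + B 1 u us • us) = 0 := by
      rw [B_add_right, B_smul_right, hxu, hxus]; ring
    have e2 : B 1 us (u + B 1 u us • us) = 0 := by
      rw [B_add_right, B_smul_right, husus, B_comm us u]; ring
    have e3 : B 1 (u + B 1 u us • us) (u + B 1 u us • us) = B 1 u us ^ 2 - 1 := by
      rw [B_add_left, B_smul_left, e2, B_add_right, B_smul_right, hu.2.1]; ring
    refine ⟨⟨u + B 1 u us • us, by
      rw [LinearMap.mem_ker, hL, e1, e2]; rfl⟩, ?_, ?_⟩
    · intro h0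
      have h1 : u + B 1 u us • us = 0 := congrArg Subtype.val h0
      rw [h1, B_zero_left] at e3
      have h2 : B 1 u us = -1 := by nlinarith
      apply hune
      rw [h2] at h1
      have h3 : u = us := by
        have h4 : u - us = 0 := by
          rw [← h1]; simp [sub_eq_add_neg]
        exact sub_eq_zero.mp h4
      exact h3
    · rw [hΦdef]
      show Real.sqrt (1 + B 1 (u + B 1 u us • us) (u + B 1 u us • us)) • us
        + (u + B 1 u us • us) = u
      rw [e3]
      have h1 : 1 + (B 1 u us ^ 2 - 1) = (-B 1 u us) ^ 2 := by ring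
      rw [h1, Real.sqrt_sq (by linarith)]
      module
  -- the locally constant function
  let f : ({0}ᶜ : Set (LinearMap.ker L)) → Prop := fun s =>
    ∃ b ν, P.FailsAt TT.T y (Φ s) b ν ∧ ∃ c : ℝ, ν = c • ν1
  have hlc : IsLocallyConstant f := by
    rw [IsLocallyConstant.iff_eventually_eq]
    intro s0
    have hcont : Continuous fun s : ({0}ᶜ : Set (LinearMap.ker L)) => (y, Φ s) :=
      continuous_const.prodMk (hΦc.comp continuous_subtype_val)
    have htend : Tendsto (fun s : ({0}ᶜ : Set (LinearMap.ker L)) => (y, Φ s)) (𝓝 s0)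
        (𝓝 (y, Φ s0)) := hcont.tendsto s0
    by_cases hf : ∃ b ν, P.FailsAt TT.T y (Φ s0) b ν
    · obtain ⟨b0, ν0, hF0⟩ := hf
      have h1 := htend.eventually (Dev.failsAt_open hκ P D hF0 (hΦF s0) (η := 1) one_pos)
      filter_upwards [h1] with s hs
      obtain ⟨b, ν, hFs, -, ⟨c, hc⟩, -⟩ := hs (hΦF s)
      have hc0 : c ≠ 0 := by
        rintro rfl
        rw [zero_smul] at hc
        have h2 := hFs.2.2.2.2
        rw [hc, B_zero_right] at h2
        norm_num at h2
      apply propext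
      constructor
      · rintro ⟨b', ν', hF', c', hc'⟩
        have h3 := Dev.FailsAt.unique hκ hTc hF' hFs (hΦ1 s) (hΦ3 s)
        refine ⟨b0, ν0, hF0, c⁻¹ * c', ?_⟩
        rw [mul_smul, ← hc', h3.2, hc, smul_smul, inv_mul_cancel₀ hc0, one_smul]
      · rintro ⟨b', ν', hF', c', hc'⟩
        have h3 := Dev.FailsAt.unique hκ hTc hF' hF0 (hΦ1 s0) (hΦ3 s0)
        refine ⟨b, ν, hFs, c * c', ?_⟩
        rw [mul_smul, ← hc', h3.2, hc]
    · have hf0 : ¬ f s0 := fun ⟨b, ν, h, _⟩ => hf ⟨b, ν, h⟩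
      have hgc : Continuous (ray 1 x (Φ s0)) :=
        continuous_iff_continuousAt.mpr (fun t => (hasDerivAt_ray hκ x (Φ s0) t).continuousAt)
      rcases Dev.lift_dichotomy P y (ray 1 x (Φ s0)) hgc
        (fun t => ray_mem hκ hX (hΦ1 s0) (hΦ3 s0) t) (ray_zero hκ x _) with hall | hbad
      · -- all times
        have hs0 : (s0 : LinearMap.ker L) ≠ 0 := s0.2
        have hc1 : 1 < Real.sqrt (1 + B 1 ((s0 : LinearMap.ker L) : V m)
            ((s0 : LinearMap.ker L) : V m)) := by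
          rw [Real.lt_sqrt (by norm_num)]
          have := hpp _ hs0
          linarith
        obtain ⟨c0, hc01, hc02⟩ := exists_between hc1
        have hBd : (0:ℝ) ≤ 1 / (c0 - 1) := by
          apply div_nonneg (by norm_num); linarith
        obtain ⟨σ0, hσ1, hσ2, hσ3⟩ := hall _ hBd
        have hev := htend.eventually (Dev.lifts_open hκ P hBd (hΦ1 s0) (hΦ3 s0) σ0 hσ1 hσ2 hσ3
          (t0 := 0) ⟨le_refl _, hBd⟩ (U := Set.univ) Filter.univ_mem)
        have hc : Continuous fun s : ({0}ᶜ : Set (LinearMap.ker L)) =>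
            Real.sqrt (1 + B 1 ((s : LinearMap.ker L) : V m) ((s : LinearMap.ker L) : V m)) :=
          Real.continuous_sqrt.comp (continuous_const.add (cont_BB.comp
            (continuous_subtype_val.comp continuous_subtype_val)))
        have hev2 := (hc.tendsto s0).eventually (lt_mem_nhds hc02)
        filter_upwards [hev, hev2] with s hs1 hs2
        have hfs : ¬ f s := by
          rintro ⟨b, ν, hFs, c, hcν⟩
          obtain ⟨σ, g1, g2, g3, -⟩ := hs1 (hΦ1 s) (hΦ3 s)
          have hlift : P.LiftsTo y (ray 1 x (Φ s)) (1 / (c0 - 1)) := ⟨σ, g1, g2, g3⟩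
          have hb0 : 0 < b := hFs.1
          have hsb : 0 < Real.sinh b := Real.sinh_pos_iff.mpr hb0
          obtain ⟨v1, v2⟩ := fails_vals hFs
          rw [hcν, B_smul_right] at v1 v2
          rw [hBus' _ (hΦ1 s), hΦ2 s] at v2
          have v3 : Real.cosh b = Real.sqrt (1 + B 1 ((s : LinearMap.ker L) : V m)
              ((s : LinearMap.ker L) : V m)) * Real.sinh b := by
            rw [← v1, ← hxdef]
            linarith
          have v4 : c0 * Real.sinh b ≤ Real.cosh b := by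
            rw [v3]
            exact mul_le_mul_of_nonneg_right hs2.le hsb.le
          have v5 : Real.cosh b - Real.sinh b = Real.exp (-b) := Real.cosh_sub_sinh b
          have v6 : Real.exp (-b) ≤ 1 := Real.exp_le_one_iff.mpr (by linarith)
          have v7 : b ≤ Real.sinh b := Real.self_le_sinh_iff.mpr hb0.le
          have v8 : b ≤ 1 / (c0 - 1) := by
            rw [le_div_iff₀ (by linarith)]
            nlinarith
          exact Dev.FailsAt.not_liftsTo hκ hTc hFs v8 hlift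
        exact propext ⟨fun h => absurd h hfs, fun h => absurd h hf0⟩
      · obtain ⟨b, hb, σ, g1, g2, g3, g4⟩ := hbad
        obtain ⟨ν, hν⟩ := Dev.failsAt_of_not_tendsto hκ P D (hΦF s0) hb σ g1 g2 g3 g4
        exact absurd ⟨b, ν, hν⟩ hf
  have hpre : PreconnectedSpace ({0}ᶜ : Set (LinearMap.ker L)) :=
    Subtype.preconnectedSpace (ker_conn hm L).isPreconnected
  intro u2 hu2 hu2ne
  rw [← hus] at hu2ne
  have hu1ne : u1 ≠ us := by
    intro h
    have h1 := hBus' u1 hu1.1
    rw [hu1ν, hx1] at h1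
    rw [h, husus] at h1
    have h2 := Real.sinh_lt_cosh b1
    linarith
  obtain ⟨s1, hs1, e1⟩ := hsurj u1 hu1 hu1ne
  obtain ⟨s2, hs2, e2⟩ := hsurj u2 hu2 hu2ne
  have hf1 : f ⟨s1, hs1⟩ := by
    refine ⟨b1, ν1, ?_, 1, (one_smul _ _).symm⟩
    show P.FailsAt TT.T y (Φ s1) b1 ν1
    rw [e1]; exact hF
  have hf2 : f ⟨s2, hs2⟩ := by
    rw [hlc.apply_eq_of_preconnectedSpace ⟨s2, hs2⟩ ⟨s1, hs1⟩]
    exact hf1
  obtain ⟨b2, ν2, hF2, c, hc⟩ := hf2
  have hF2' : P.FailsAt TT.T y u2 b2 ν2 := by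
    have : P.FailsAt TT.T y (Φ s2) b2 ν2 := hF2
    rw [e2] at this; exact this
  refine ⟨b2, ν2, hF2', ⟨c, hc⟩, ?_⟩
  have h1 := hF2'.2.2.2.1
  have hc0 : c ≠ 0 := by
    rintro rfl
    rw [zero_smul] at hc
    have h2 := hF2'.2.2.2.2
    rw [hc, B_zero_right] at h2
    norm_num at h2
  rw [hc, Q_one, B_smul_right] at h1
  exact (mul_eq_zero.mp h1).resolve_left hc0

end Pool.Agent.Helper107.LC
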