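import Mathlib
import Pool.Agent.Helper107.LC.FiberP
set_option autoImplicit false
open Set Filter Topology
open scoped ContDiff

namespace Pool.Agent.Helper107.LC

section aux
variable {κ : ℝ} {m : ℕ}

theorem afp_contB : Continuous (fun z : V m × V m => B κ z.1 z.2) := by
  unfold B
  fun_prop

theorem afp_contQ : Continuous (fun z : V m × V m => Q κ z.1 z.2) := by
  unfold Q
  fun_prop

theorem afp_contB' {Z : Type*} [TopologicalSpace Z] {f g : Z → V m} (hf : Continuous f)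
    (hg : Continuous g) : Continuous (fun z => B κ (f z) (g z)) :=
  afp_contB.comp (hf.prodMk hg)

theorem afp_contQ' {Z : Type*} [TopologicalSpace Z] {f g : Z → V m} (hf : Continuous f)
    (hg : Continuous g) : Continuous (fun z => Q κ (f z) (g z)) :=
  afp_contQ.comp (hf.prodMk hg)

theorem afp_conttg' {Z : Type*} [TopologicalSpace Z] {f g : Z → V m} (hf : Continuous f)
    (hg : Continuous g) : Continuous (fun z => tg κ (f z) (g z)) := by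
  unfold tg
  exact hg.sub ((afp_contQ' hf hg).smul hf)

theorem afp_contN2' {Z : Type*} [TopologicalSpace Z] {f g h : Z → V m} (hf : Continuous f)
    (hg : Continuous g) (hh : Continuous h) : Continuous (fun z => N2 κ (f z) (g z) (h z)) := by
  unfold N2
  exact ((afp_contB' (afp_conttg' hf hh) (afp_conttg' hf hh)).add
    (continuous_const.mul ((afp_contB' (afp_conttg' hf hh) hg).pow 2))).add
    ((afp_contQ' hf hh).pow 2)

theorem afp_tg_smul (x w : V m) (a : ℝ) : tg κ x (a • w) = a • tg κ x w := by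
  rw [tg, tg, Q_smul_right, smul_sub, smul_smul]

theorem afp_N2_smul (x t w : V m) (a : ℝ) : N2 κ x t (a • w) = a ^ 2 * N2 κ x t w := by
  simp only [N2, afp_tg_smul, B_smul_left, B_smul_right, Q_smul_right]
  ring

theorem afp_N2_zero (x t : V m) : N2 κ x t 0 = 0 := by
  have := afp_N2_smul (κ := κ) x t 0 0
  rw [zero_smul] at this
  rw [this]; ring

theorem afp_contsk (hκ : κ = -1 ∨ κ = 0 ∨ κ = 1) : Continuous (sk κ) :=
  continuous_iff_continuousAt.2 fun t => (hasDerivAt_sk hκ t).continuousAt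

theorem afp_one : (1:ℝ) = -1 ∨ (1:ℝ) = 0 ∨ (1:ℝ) = 1 := Or.inr (Or.inr rfl)

theorem afp_ck1 (s : ℝ) : ck 1 s = Real.cosh s := by
  simp only [ck]; rw [if_neg (by norm_num), if_neg (by norm_num)]

theorem afp_sk1 (s : ℝ) : sk 1 s = Real.sinh s := by
  simp only [sk]; rw [if_neg (by norm_num), if_neg (by norm_num)]

theorem afp_ray_add (x u : V m) (s b : ℝ) :
    ray 1 (ray 1 x u s) (vel 1 x u s) b = ray 1 x u (s + b) := by
  simp only [ray, vel, afp_ck1, afp_sk1, Real.cosh_add, Real.sinh_add]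
  module

theorem afp_ray_vel (x u : V m) (s : ℝ) :
    ray 1 x u s + vel 1 x u s = Real.exp s • (x + u) := by
  simp only [ray, vel, afp_ck1, afp_sk1]
  rw [← Real.cosh_add_sinh]
  module

theorem afp_A0 (β : ℝ) (hβ : 0 ≤ β) :
    ∃ s', 0 ≤ s' ∧ sk 1 s' = β ∧ ∀ s ∈ Icc (0:ℝ) s', 0 ≤ sk 1 s ∧ sk 1 s ≤ β ∧
      Real.sqrt (1 + 1 * sk 1 s ^ 2) = ck 1 s := by
  refine ⟨Real.arsinh β, Real.arsinh_nonneg_iff.2 hβ, ?_, ?_⟩
  · rw [afp_sk1, Real.sinh_arsinh]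
  · intro s hs
    rw [afp_sk1, afp_ck1]
    refine ⟨Real.sinh_nonneg_iff.2 hs.1, ?_, ?_⟩
    · have h2 := Real.sinh_le_sinh.2 hs.2
      rwa [Real.sinh_arsinh] at h2
    · rw [one_mul, ← Real.cosh_sq', Real.sqrt_sq (Real.cosh_pos s).le]

end aux

section aux2
variable {m : ℕ} {Y : Type*} [TopologicalSpace Y] {P : Dev 1 m Y} {Γ : Type*} [Group Γ]
  [MulAction Γ Y] {H : Hol P Γ} {TT : TF H}

theorem afp_A (D : ExData TT) (w : Y) (v : V m)
    (hv : Q 1 (P.p w) v = 0) (hN : N2 1 (P.p w) (TT.T w) v < D.ε ^ 2) (hB : B 1 v v < 0)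
    (hT : B 1 v (TT.T w) < 0) :
    ∃ (s' : ℝ) (σ : ℝ → Y), P.Fut TT.T w ((Real.sqrt (-B 1 v v))⁻¹ • v) ∧ 0 ≤ s' ∧
      ContinuousOn σ (Icc 0 s') ∧
      σ 0 = w ∧ (∀ s ∈ Icc 0 s', P.p (σ s) = ray 1 (P.p w) ((Real.sqrt (-B 1 v v))⁻¹ • v) s) ∧
      σ s' = D.ex w v := by
  have hκ3 := afp_one
  have hneg : 0 < -B 1 v v := by linarith
  obtain ⟨β, hβd⟩ : ∃ β, β = Real.sqrt (-B 1 v v) := ⟨_, rfl⟩
  rw [← hβd]
  have hβ : 0 < β := by rw [hβd]; exact Real.sqrt_pos.2 hneg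
  have hβsq : β ^ 2 = -B 1 v v := by rw [hβd]; exact Real.sq_sqrt hneg.le
  obtain ⟨s', hs', hsk, hall⟩ := afp_A0 β hβ.le
  have hv' : β • (β⁻¹ • v) = v := by
    rw [smul_smul, mul_inv_cancel₀ hβ.ne', one_smul]
  have huu : B 1 (β⁻¹ • v) (β⁻¹ • v) = -1 := by
    rw [B_smul_left, B_smul_right]
    have h1 : B 1 v v = -β ^ 2 := by linarith
    rw [h1]
    field_simp
  have hQu : Q 1 (P.p w) (β⁻¹ • v) = 0 := by rw [Q_smul_right, hv, mul_zero]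
  have hFut : P.Fut TT.T w (β⁻¹ • v) := by
    refine ⟨hQu, huu, ?_⟩
    rw [B_smul_left]
    exact mul_neg_of_pos_of_neg (inv_pos.2 hβ) hT
  have hN0 : 0 ≤ N2 1 (P.p w) (TT.T w) (β⁻¹ • v) :=
    N2_nonneg hκ3 (P.mem w) (TT.tan w) (TT.unit w) _
  have hNv : N2 1 (P.p w) (TT.T w) v = β ^ 2 * N2 1 (P.p w) (TT.T w) (β⁻¹ • v) := by
    rw [← afp_N2_smul, hv']
  have hmem : ∀ s ∈ Icc (0:ℝ) s', Q 1 (P.p w) (sk 1 s • (β⁻¹ • v)) = 0 ∧
      N2 1 (P.p w) (TT.T w) (sk 1 s • (β⁻¹ • v)) < D.ε ^ 2 := by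
    intro s hs
    obtain ⟨h1, h2, _⟩ := hall s hs
    refine ⟨by rw [Q_smul_right, hQu, mul_zero], ?_⟩
    rw [afp_N2_smul]
    refine lt_of_le_of_lt ?_ hN
    rw [hNv]
    apply mul_le_mul_of_nonneg_right _ hN0
    exact pow_le_pow_left₀ h1 h2 2
  refine ⟨s', fun s => D.ex w (sk 1 s • (β⁻¹ • v)), hFut, hs', ?_, ?_, ?_, ?_⟩
  · have h1 : ContinuousOn (fun s : ℝ => ((w, sk 1 s • (β⁻¹ • v)) : Y × V m)) (Icc 0 s') :=
      (continuous_const.prodMk ((afp_contsk hκ3).smul continuous_const)).continuousOn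
    exact ContinuousOn.comp (g := fun q : Y × V m => D.ex q.1 q.2) D.cont h1
      (fun s hs => hmem s hs)
  · show D.ex w (sk 1 0 • (β⁻¹ • v)) = w
    rw [sk_zero hκ3, zero_smul, D.ex_zero]
  · intro s hs
    obtain ⟨h1, h2, h3⟩ := hall s hs
    show P.p (D.ex w (sk 1 s • (β⁻¹ • v))) = _
    rw [D.pex w _ (hmem s hs).1 (hmem s hs).2]
    unfold og ray
    rw [B_smul_left, B_smul_right, huu]
    have e1 : 1 - 1 * (sk 1 s * (sk 1 s * -1)) = 1 + 1 * sk 1 s ^ 2 := by ring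
    rw [e1, h3]
  · show D.ex w (sk 1 s' • (β⁻¹ • v)) = D.ex w v
    rw [hsk, hv']

theorem afp_B (D : ExData TT) (w y : Y)
    (hq : 0 < Q 1 (P.p w) (P.p y))
    (hN : N2 1 (P.p w) (TT.T w) (tg 1 (P.p w) (P.p y)) < D.ε ^ 2) :
    P.p (D.ex w (tg 1 (P.p w) (P.p y))) = P.p y := by
  have hκ := afp_one
  have ht : Q 1 (P.p w) (tg 1 (P.p w) (P.p y)) = 0 := Q_tg (P.mem w) _
  rw [D.pex w _ ht hN]
  unfold og
  have h1 : Q 1 (P.p w) (P.p w) = 1 := P.mem w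
  have h2 : Q 1 (P.p y) (P.p y) = 1 := P.mem y
  have h3 := Q_tan hκ (P.mem w) ht _ ht
  have h4 : Q 1 (tg 1 (P.p w) (P.p y)) (tg 1 (P.p w) (P.p y)) =
      1 - Q 1 (P.p w) (P.p y) ^ 2 := by
    unfold tg
    simp only [Q_sub_left, Q_sub_right, Q_smul_left, Q_smul_right, h1, h2,
      Q_comm (P.p y) (P.p w)]
    ring
  have h5 : 1 - 1 * B 1 (tg 1 (P.p w) (P.p y)) (tg 1 (P.p w) (P.p y)) =
      Q 1 (P.p w) (P.p y) ^ 2 := by
    rw [← h3, h4]; ring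
  rw [h5, Real.sqrt_sq hq.le, add_comm]
  exact tg_add_normal _ _

theorem afp_inj (P : Dev 1 m Y) (y : Y) : ∃ O : Set Y, IsOpen O ∧ y ∈ O ∧
    ∀ a ∈ O, ∀ b ∈ O, P.p a = P.p b → a = b := by
  obtain ⟨e, he, hf⟩ := P.lh y
  refine ⟨e.source, e.open_source, he, fun a ha b hb hab => ?_⟩
  apply e.injOn ha hb
  have h1 : (fun y => (⟨P.p y, P.mem y⟩ : X 1 m)) a = (fun y => (⟨P.p y, P.mem y⟩ : X 1 m)) b :=
    Subtype.ext hab
  rw [hf] at h1
  exact h1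

/-- choice of a base point slightly in the past, in the direction `-ui` -/
theorem afp_C (D : ExData TT) (yi : Y) (ui : V m) (hui : P.Fut TT.T yi ui)
    (O : Set Y) (hO : IsOpen O) (hyO : yi ∈ O) :
    ∃ w : Y, 0 < Q 1 (P.p w) (P.p yi) ∧
      N2 1 (P.p w) (TT.T w) (tg 1 (P.p w) (P.p yi)) < D.ε ^ 2 ∧
      B 1 (tg 1 (P.p w) (P.p yi)) (tg 1 (P.p w) (P.p yi)) < 0 ∧
      B 1 (tg 1 (P.p w) (P.p yi)) (TT.T w) < 0 ∧
      D.ex w (tg 1 (P.p w) (P.p yi)) ∈ O ∧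
      ∃ lam : ℝ, lam ≠ 0 ∧
        P.p w + (Real.sqrt (-B 1 (tg 1 (P.p w) (P.p yi)) (tg 1 (P.p w) (P.p yi))))⁻¹ •
          tg 1 (P.p w) (P.p yi) = lam • (P.p yi + ui) := by
  have hκ3 := afp_one
  have hTc : Continuous TT.T := TT.sm.continuous
  have hpc : Continuous P.p := P.continuous_p
  have hε : 0 < D.ε ^ 2 := by
    have := D.ε_pos
    positivity
  have hxx : Q 1 (P.p yi) (P.p yi) = 1 := P.mem yi
  have hxT : Q 1 (P.p yi) ui = 0 := hui.1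
  have hTT : B 1 ui ui = -1 := hui.2.1
  have huT : B 1 ui (TT.T yi) < 0 := hui.2.2
  set S : Set (Y × V m) := {q | Q 1 (P.p q.1) q.2 = 0 ∧ N2 1 (P.p q.1) (TT.T q.1) q.2 < D.ε ^ 2}
    with hS
  have hS0 : (yi, (0 : V m)) ∈ S := by
    refine ⟨Q_zero_right _, ?_⟩
    show N2 1 (P.p yi) (TT.T yi) 0 < D.ε ^ 2
    rw [afp_N2_zero]; exact hε
  have hex0 : Tendsto (fun q : Y × V m => D.ex q.1 q.2) (𝓝[S] (yi, 0)) (𝓝 yi) := by
    have h1 : Tendsto (fun q : Y × V m => D.ex q.1 q.2) (𝓝[S] (yi, 0)) (𝓝 (D.ex yi 0)) :=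
      D.cont (yi, 0) hS0
    rwa [D.ex_zero] at h1
  -- the path of base points
  have hneg : Continuous (fun a : ℝ => ((yi, (-a) • ui) : Y × V m)) :=
    continuous_const.prodMk (continuous_neg.smul continuous_const)
  have hneg0 : Tendsto (fun a : ℝ => ((yi, (-a) • ui) : Y × V m)) (𝓝[>] (0:ℝ))
      (𝓝 (yi, 0)) := by
    have h1 := (hneg.tendsto 0).mono_left (nhdsWithin_le_nhds (s := Ioi (0:ℝ)))
    simpa using h1
  have hNa : ∀ᶠ a in 𝓝[>] (0:ℝ), N2 1 (P.p yi) (TT.T yi) ((-a) • ui) < D.ε ^ 2 := by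
    have h1 : Continuous (fun a : ℝ => N2 1 (P.p yi) (TT.T yi) ((-a) • ui)) :=
      afp_contN2' continuous_const continuous_const (continuous_neg.smul continuous_const)
    have h2 := (h1.tendsto 0).mono_left (nhdsWithin_le_nhds (s := Ioi (0:ℝ)))
    rw [neg_zero, zero_smul, afp_N2_zero] at h2
    exact h2.eventually (gt_mem_nhds hε)
  have hmemS : ∀ᶠ a in 𝓝[>] (0:ℝ), ((yi, (-a) • ui) : Y × V m) ∈ S := by
    filter_upwards [hNa] with a ha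
    refine ⟨?_, ha⟩
    show Q 1 (P.p yi) ((-a) • ui) = 0
    rw [Q_smul_right, hxT, mul_zero]
  let w : ℝ → Y := fun a => D.ex yi ((-a) • ui)
  have hw : Tendsto w (𝓝[>] (0:ℝ)) (𝓝 yi) :=
    hex0.comp (tendsto_nhdsWithin_iff.2 ⟨hneg0, hmemS⟩)
  have hpw : Tendsto (fun a => P.p (w a)) (𝓝[>] (0:ℝ)) (𝓝 (P.p yi)) :=
    (hpc.tendsto yi).comp hw
  have hTw : Tendsto (fun a => TT.T (w a)) (𝓝[>] (0:ℝ)) (𝓝 (TT.T yi)) :=
    (hTc.tendsto yi).comp hw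
  -- vector
  let v : ℝ → V m := fun a => tg 1 (P.p (w a)) (P.p yi)
  have hv0 : Tendsto v (𝓝[>] (0:ℝ)) (𝓝 0) := by
    have h1 : Continuous (fun x : V m => tg 1 x (P.p yi)) :=
      afp_conttg' continuous_id continuous_const
    have h2 := (h1.tendsto (P.p yi)).comp hpw
    have h3 : tg 1 (P.p yi) (P.p yi) = 0 := by
      rw [tg, hxx, one_smul, sub_self]
    rw [h3] at h2
    exact h2
  have hwv : Tendsto (fun a => ((w a, v a) : Y × V m)) (𝓝[>] (0:ℝ)) (𝓝 (yi, 0)) :=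
    hw.prodMk_nhds hv0
  have hN : ∀ᶠ a in 𝓝[>] (0:ℝ), N2 1 (P.p (w a)) (TT.T (w a)) (v a) < D.ε ^ 2 := by
    have h1 : Continuous (fun q : Y × V m => N2 1 (P.p q.1) (TT.T q.1) q.2) :=
      afp_contN2' (hpc.comp continuous_fst) (hTc.comp continuous_fst) continuous_snd
    have h2 := (h1.tendsto (yi, 0)).comp hwv
    have h3 : N2 1 (P.p (yi, (0 : V m)).1) (TT.T (yi, (0 : V m)).1) (yi, (0 : V m)).2 = 0 :=
      afp_N2_zero _ _
    rw [h3] at h2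
    exact h2.eventually (gt_mem_nhds hε)
  have hwvS : ∀ᶠ a in 𝓝[>] (0:ℝ), ((w a, v a) : Y × V m) ∈ S := by
    filter_upwards [hN] with a ha
    exact ⟨Q_tg (P.mem (w a)) _, ha⟩
  have hexO : ∀ᶠ a in 𝓝[>] (0:ℝ), D.ex (w a) (v a) ∈ O := by
    have h1 : Tendsto (fun a => D.ex (w a) (v a)) (𝓝[>] (0:ℝ)) (𝓝 yi) :=
      hex0.comp (tendsto_nhdsWithin_iff.2 ⟨hwv, hwvS⟩)
    exact h1.eventually (hO.mem_nhds hyO)
  -- explicit formulas
  have hpos : ∀ᶠ a in 𝓝[>] (0:ℝ), 0 < a := self_mem_nhdsWithin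
  have hlim : ∀ᶠ a in 𝓝[>] (0:ℝ),
      B 1 (Real.sqrt (1 + a ^ 2) • ui - a • P.p yi) (TT.T (w a)) < 0 := by
    have h1 : Continuous (fun a : ℝ => Real.sqrt (1 + a ^ 2) • ui - a • P.p yi) := by
      fun_prop
    have h2 := (h1.tendsto 0).mono_left (nhdsWithin_le_nhds (s := Ioi (0:ℝ)))
    have h3 : Real.sqrt (1 + (0:ℝ) ^ 2) • ui - (0:ℝ) • P.p yi = ui := by
      simp
    rw [h3] at h2
    have h4 := (afp_contB (κ := 1) (m := m)).tendsto (ui, TT.T yi)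
    have h5 := h4.comp (h2.prodMk_nhds hTw)
    exact h5.eventually (gt_mem_nhds huT)
  obtain ⟨a, ha1, ha2, ha3, ha5, ha6⟩ :=
    (((hNa.and (hN.and (hexO.and (hpos.and hlim))))).exists)
  have hs : (0:ℝ) < 1 + a ^ 2 := by positivity
  obtain ⟨c, hc⟩ : ∃ c, c = Real.sqrt (1 + a ^ 2) := ⟨_, rfl⟩
  have hc0 : 0 < c := by rw [hc]; exact Real.sqrt_pos.2 hs
  have hc2 : c ^ 2 = 1 + a ^ 2 := by rw [hc]; exact Real.sq_sqrt hs.le
  have hpw' : P.p (w a) = c • P.p yi - a • ui := by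
    show P.p (D.ex yi ((-a) • ui)) = _
    rw [D.pex yi _ (by rw [Q_smul_right, hxT, mul_zero]) ha1]
    unfold og
    rw [B_smul_left, B_smul_right, hTT]
    rw [show 1 - 1 * (-a * (-a * -1)) = 1 + a ^ 2 by ring, ← hc]
    module
  have hQc : Q 1 (P.p (w a)) (P.p yi) = c := by
    rw [hpw', Q_sub_left, Q_smul_left, Q_smul_left, hxx, Q_comm ui, hxT]
    ring
  have hva : tg 1 (P.p (w a)) (P.p yi) = a • (c • ui - a • P.p yi) := by
    rw [tg, hQc, hpw']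
    have h1 : (1 - c ^ 2) = -(a ^ 2) := by rw [hc2]; ring
    have h2 : P.p yi - c • (c • P.p yi - a • ui) =
        (1 - c ^ 2) • P.p yi + (a * c) • ui := by module
    rw [h2, h1]
    module
  have hBu : B 1 (c • ui - a • P.p yi) (c • ui - a • P.p yi) = -1 := by
    simp only [B_sub_left, B_sub_right, B_smul_left, B_smul_right, hTT,
      B_comm (P.p yi) ui]
    have e1 : B 1 (P.p yi) (P.p yi) = 1 := by
      have := Q_eq_B (κ := (1:ℝ)) (P.p yi) (P.p yi)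
      rw [hxx] at this; linarith
    have e2 : B 1 ui (P.p yi) = 0 := by
      have := Q_eq_B (κ := (1:ℝ)) (P.p yi) ui
      rw [hxT] at this
      rw [B_comm]; linarith
    rw [e1, e2]
    nlinarith
  have hBv : B 1 (tg 1 (P.p (w a)) (P.p yi)) (tg 1 (P.p (w a)) (P.p yi)) = -(a ^ 2) := by
    rw [hva, B_smul_left, B_smul_right, hBu]
    ring
  refine ⟨w a, ?_, ha2, ?_, ?_, ha3, c - a, ?_, ?_⟩
  · rw [hQc]; exact hc0
  · rw [hBv]
    nlinarith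
  · rw [hva, B_smul_left]
    rw [← hc] at ha6
    exact mul_neg_of_pos_of_neg ha5 ha6
  · intro h0
    have h1 : c = a := by linarith
    rw [h1] at hc2
    linarith
  · rw [hBv, neg_neg, Real.sqrt_sq ha5.le, hva, smul_smul, inv_mul_cancel₀ ha5.ne', one_smul, hpw']
    module

/-- all points near `yi` are reached from one point by future timelike geodesics that lift,
in non-exceptional directions -/
theorem afp_reach (D : ExData TT) (yi : Y) (ui : V m) (hui : P.Fut TT.T yi ui) (ν0 : V m)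
    (hne : P.p yi + ui ∉ Submodule.span ℝ {ν0}) :
    ∃ w : Y, ∀ᶠ y' in 𝓝 yi, ∃ (u' : V m) (s' : ℝ) (σ : ℝ → Y), P.Fut TT.T w u' ∧ 0 ≤ s' ∧
      ContinuousOn σ (Icc 0 s') ∧ σ 0 = w ∧
      (∀ s ∈ Icc 0 s', P.p (σ s) = ray 1 (P.p w) u' s) ∧ σ s' = y' ∧
      P.p w + u' ∉ Submodule.span ℝ {ν0} := by
  have hTc : Continuous TT.T := TT.sm.continuous
  have hpc : Continuous P.p := P.continuous_p
  obtain ⟨O, hO, hyO, hinj⟩ := afp_inj P yi
  obtain ⟨w, hw1, hw2, hw3, hw4, hw5, lam, hlam, hw6⟩ := afp_C D yi ui hui O hO hyO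
  refine ⟨w, ?_⟩
  have hv : Continuous (fun y' : Y => tg 1 (P.p w) (P.p y')) :=
    afp_conttg' continuous_const hpc
  have c1 : ∀ᶠ y' in 𝓝 yi, 0 < Q 1 (P.p w) (P.p y') :=
    ((afp_contQ' (κ := 1) (continuous_const (y := P.p w)) hpc).tendsto yi).eventually
      (lt_mem_nhds hw1)
  have c2 : ∀ᶠ y' in 𝓝 yi, N2 1 (P.p w) (TT.T w) (tg 1 (P.p w) (P.p y')) < D.ε ^ 2 :=
    ((afp_contN2' (κ := 1) (continuous_const (y := P.p w)) (continuous_const (y := TT.T w))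
      hv).tendsto yi).eventually (gt_mem_nhds hw2)
  have c3 : ∀ᶠ y' in 𝓝 yi, B 1 (tg 1 (P.p w) (P.p y')) (tg 1 (P.p w) (P.p y')) < 0 :=
    ((afp_contB' (κ := 1) hv hv).tendsto yi).eventually (gt_mem_nhds hw3)
  have c4 : ∀ᶠ y' in 𝓝 yi, B 1 (tg 1 (P.p w) (P.p y')) (TT.T w) < 0 :=
    ((afp_contB' (κ := 1) hv (continuous_const (y := TT.T w))).tendsto yi).eventually
      (gt_mem_nhds hw4)
  have c5 : ∀ᶠ y' in 𝓝 yi, D.ex w (tg 1 (P.p w) (P.p y')) ∈ O := by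
    have h1 : Tendsto (fun y' : Y => ((w, tg 1 (P.p w) (P.p y')) : Y × V m)) (𝓝 yi)
        (𝓝[{q : Y × V m | Q 1 (P.p q.1) q.2 = 0 ∧ N2 1 (P.p q.1) (TT.T q.1) q.2 < D.ε ^ 2}]
          (w, tg 1 (P.p w) (P.p yi))) := by
      rw [tendsto_nhdsWithin_iff]
      refine ⟨((continuous_const (y := w)).prodMk hv).tendsto yi, ?_⟩
      filter_upwards [c2] with y' hy'
      exact ⟨Q_tg (P.mem w) _, hy'⟩
    have h2 := (D.cont (w, tg 1 (P.p w) (P.p yi)) ⟨Q_tg (P.mem w) _, hw2⟩).tendsto.comp h1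
    exact h2.eventually (hO.mem_nhds hw5)
  have c6 : ∀ᶠ y' in 𝓝 yi, y' ∈ O := hO.mem_nhds hyO
  have c7 : ∀ᶠ y' in 𝓝 yi, P.p w + (Real.sqrt (-B 1 (tg 1 (P.p w) (P.p y'))
      (tg 1 (P.p w) (P.p y'))))⁻¹ • tg 1 (P.p w) (P.p y') ∉ Submodule.span ℝ {ν0} := by
    have hcl : IsClosed ((Submodule.span ℝ {ν0} : Submodule ℝ (V m)) : Set (V m)) :=
      Submodule.closed_of_finiteDimensional _
    have hop : IsOpen ((Submodule.span ℝ {ν0} : Submodule ℝ (V m)) : Set (V m))ᶜ :=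
      hcl.isOpen_compl
    have hb : Continuous (fun y' : Y => Real.sqrt (-B 1 (tg 1 (P.p w) (P.p y'))
      (tg 1 (P.p w) (P.p y')))) := (afp_contB' (κ := 1) hv hv).neg.sqrt
    have hb0 : Real.sqrt (-B 1 (tg 1 (P.p w) (P.p yi)) (tg 1 (P.p w) (P.p yi))) ≠ 0 :=
      (Real.sqrt_pos.2 (by linarith)).ne'
    have hcont : ContinuousAt (fun y' : Y => P.p w + (Real.sqrt (-B 1 (tg 1 (P.p w) (P.p y'))
      (tg 1 (P.p w) (P.p y'))))⁻¹ • tg 1 (P.p w) (P.p y')) yi :=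
      continuousAt_const.add ((hb.continuousAt.inv₀ hb0).smul hv.continuousAt)
    have h0 : P.p w + (Real.sqrt (-B 1 (tg 1 (P.p w) (P.p yi))
      (tg 1 (P.p w) (P.p yi))))⁻¹ • tg 1 (P.p w) (P.p yi) ∈
        ((Submodule.span ℝ {ν0} : Submodule ℝ (V m)) : Set (V m))ᶜ := by
      rw [hw6]
      intro h
      apply hne
      have h1 := Submodule.smul_mem _ lam⁻¹ h
      rwa [smul_smul, inv_mul_cancel₀ hlam, one_smul] at h1
    exact hcont.eventually (hop.mem_nhds h0)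
  filter_upwards [c1, c2, c3, c4, c5, c6, c7] with y' d1 d2 d3 d4 d5 d6 d7
  obtain ⟨s', σ, h1, h2, h3, h4, h5, h6⟩ := afp_A D w (tg 1 (P.p w) (P.p y'))
    (Q_tg (P.mem w) _) d2 d3 d4
  refine ⟨_, s', σ, h1, h2, h3, h4, h5, ?_, d7⟩
  rw [h6]
  exact hinj _ d5 _ d6 (afp_B D w y' d1 d2)

/-- the property to be propagated -/
def Dev.Flp (P : Dev 1 m Y) (T : Y → V m) (ν0 : V m) (y : Y) : Prop :=
  ∃ u b ν, P.Fut T y u ∧ P.FailsAt T y u b ν ∧ (∃ c : ℝ, ν = c • ν0)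

theorem afp_c_ne {T : Y → V m} {y : Y} {u : V m} {b : ℝ} {ν ν0 : V m} {c : ℝ}
    (h : P.FailsAt T y u b ν) (hc : ν = c • ν0) : c ≠ 0 := by
  intro h0
  have h1 := h.2.2.2.2
  rw [hc, h0, zero_smul, B_zero_right] at h1
  norm_num at h1

theorem afp_fiber0 [T2Space Y] (hm : 2 ≤ m) (D : ExData TT) {ν0 : V m} {y : Y}
    (h : P.Flp TT.T ν0 y) : B 1 (P.p y) ν0 ≠ 0 ∧
    ∀ u : V m, P.Fut TT.T y u → u ≠ (B 1 (P.p y) ν0)⁻¹ • ν0 - P.p y →
    ∃ b ν, P.FailsAt TT.T y u b ν ∧ (∃ c : ℝ, ν = c • ν0) ∧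
      B 1 (ray 1 (P.p y) u b) ν0 = 0 := by
  obtain ⟨u, b, ν, hu, hf, ⟨c, hc⟩⟩ := h
  have hc0 := afp_c_ne hf hc
  obtain ⟨h1, h2⟩ := Dev.fiber_pos hm P D hf hu
  have h1' : B 1 (P.p y) ν0 ≠ 0 := by
    intro h0
    apply h1
    rw [hc, B_smul_right, h0, mul_zero]
  refine ⟨h1', fun u' hu' hne => ?_⟩
  have he : (B 1 (P.p y) ν)⁻¹ • ν = (B 1 (P.p y) ν0)⁻¹ • ν0 := by
    rw [hc, B_smul_right, smul_smul]
    congr 1
    field_simp
  rw [he] at h2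
  obtain ⟨b2, ν2, hf2, ⟨c2, hc2⟩, hB2⟩ := h2 u' hu' hne
  refine ⟨b2, ν2, hf2, ⟨c2 * c, by rw [hc2, hc, smul_smul]⟩, ?_⟩
  rw [hc, B_smul_right] at hB2
  exact (mul_eq_zero.1 hB2).resolve_left hc0

theorem afp_fiber [T2Space Y] (hm : 2 ≤ m) (D : ExData TT) {ν0 : V m} {y : Y}
    (h : P.Flp TT.T ν0 y) {u' : V m} (hu' : P.Fut TT.T y u')
    (hne : P.p y + u' ∉ Submodule.span ℝ {ν0}) :
    ∃ b ν, P.FailsAt TT.T y u' b ν ∧ (∃ c : ℝ, ν = c • ν0) := by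
  obtain ⟨b, ν, h1, h2, _⟩ := (afp_fiber0 hm D h).2 u' hu' (by
    intro he
    apply hne
    rw [he, add_sub_cancel]
    exact Submodule.smul_mem _ _ (Submodule.mem_span_singleton_self _))
  exact ⟨b, ν, h1, h2⟩

theorem afp_futT (y : Y) : P.Fut TT.T y (TT.T y) :=
  ⟨TT.tan y, TT.unit y, by rw [TT.unit y]; norm_num⟩

theorem afp_open [T2Space Y] (D : ExData TT) {ν0 : V m} {y : Y}
    (h : P.Flp TT.T ν0 y) : ∀ᶠ y' in 𝓝 y, P.Flp TT.T ν0 y' := by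
  have hκ3 := afp_one
  have hTc : Continuous TT.T := TT.sm.continuous
  have hpc : Continuous P.p := P.continuous_p
  obtain ⟨u, b, ν, hu, hf, ⟨c, hc⟩⟩ := h
  have hc0 := afp_c_ne hf hc
  have h1 := Dev.failsAt_open hκ3 P D hf hu one_pos
  have hv : Continuous (fun y' : Y => tg 1 (P.p y') u) := afp_conttg' hpc continuous_const
  have hvy : tg 1 (P.p y) u = u := tg_of_tan hu.1
  have hb : Continuous (fun y' : Y => Real.sqrt (-B 1 (tg 1 (P.p y') u) (tg 1 (P.p y') u))) :=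
    (afp_contB' (κ := 1) hv hv).neg.sqrt
  have hby : Real.sqrt (-B 1 (tg 1 (P.p y) u) (tg 1 (P.p y) u)) = 1 := by
    rw [hvy, hu.2.1, neg_neg, Real.sqrt_one]
  have hcont : ContinuousAt (fun y' : Y => (Real.sqrt (-B 1 (tg 1 (P.p y') u)
      (tg 1 (P.p y') u)))⁻¹ • tg 1 (P.p y') u) y :=
    (hb.continuousAt.inv₀ (by rw [hby]; exact one_ne_zero)).smul hv.continuousAt
  have h2 : Tendsto (fun y' : Y => ((y', (Real.sqrt (-B 1 (tg 1 (P.p y') u)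
      (tg 1 (P.p y') u)))⁻¹ • tg 1 (P.p y') u) : Y × V m)) (𝓝 y) (𝓝 (y, u)) := by
    have h3 : Tendsto (fun y' : Y => (Real.sqrt (-B 1 (tg 1 (P.p y') u)
      (tg 1 (P.p y') u)))⁻¹ • tg 1 (P.p y') u) (𝓝 y) (𝓝 u) := by
      have h4 := hcont.tendsto
      rwa [hby, hvy, inv_one, one_smul] at h4
    exact tendsto_id.prodMk_nhds h3
  have c1 : ∀ᶠ y' in 𝓝 y, B 1 (tg 1 (P.p y') u) (tg 1 (P.p y') u) < 0 := by
    refine ((afp_contB' (κ := 1) hv hv).tendsto y).eventually (gt_mem_nhds ?_)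
    show B 1 (tg 1 (P.p y) u) (tg 1 (P.p y) u) < 0
    rw [hvy, hu.2.1]; norm_num
  have c2 : ∀ᶠ y' in 𝓝 y, B 1 (tg 1 (P.p y') u) (TT.T y') < 0 := by
    refine ((afp_contB' (κ := 1) hv hTc).tendsto y).eventually (gt_mem_nhds ?_)
    show B 1 (tg 1 (P.p y) u) (TT.T y) < 0
    rw [hvy]; exact hu.2.2
  filter_upwards [h2.eventually h1, c1, c2] with y' hy' d1 d2
  have hneg : 0 < -B 1 (tg 1 (P.p y') u) (tg 1 (P.p y') u) := by linarith
  obtain ⟨β, hβd⟩ : ∃ β, β = Real.sqrt (-B 1 (tg 1 (P.p y') u) (tg 1 (P.p y') u)) := ⟨_, rfl⟩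
  have hβ : 0 < β := by rw [hβd]; exact Real.sqrt_pos.2 hneg
  have hβsq : β ^ 2 = -B 1 (tg 1 (P.p y') u) (tg 1 (P.p y') u) := by
    rw [hβd]; exact Real.sq_sqrt hneg.le
  have hFut : P.Fut TT.T y' ((Real.sqrt (-B 1 (tg 1 (P.p y') u)
      (tg 1 (P.p y') u)))⁻¹ • tg 1 (P.p y') u) := by
    rw [← hβd]
    refine ⟨?_, ?_, ?_⟩
    · rw [Q_smul_right, Q_tg (P.mem y'), mul_zero]
    · rw [B_smul_left, B_smul_right]
      have h1 : B 1 (tg 1 (P.p y') u) (tg 1 (P.p y') u) = -β ^ 2 := by linarith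
      rw [h1]
      field_simp
    · rw [B_smul_left]
      exact mul_neg_of_pos_of_neg (inv_pos.2 hβ) d2
  obtain ⟨b', ν', hf', _, ⟨c', hc'⟩, _⟩ := hy' hFut
  exact ⟨_, b', ν', hFut, hf', ⟨c' * c, by rw [hc', hc, smul_smul]⟩⟩

/-- a non-exceptional future vector -/
theorem afp_nonexc (hm : 2 ≤ m) (y : Y) (ν0 : V m) : ∃ u, P.Fut TT.T y u ∧
    P.p y + u ∉ Submodule.span ℝ {ν0} := by
  have hκ3 := afp_one
  by_cases hT : P.p y + TT.T y ∉ Submodule.span ℝ {ν0}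
  · exact ⟨TT.T y, afp_futT y, hT⟩
  push Not at hT
  have hxx : Q 1 (P.p y) (P.p y) = 1 := P.mem y
  have hQB : ∀ a b : V m, B 1 a b = Q 1 a b := by
    intro a b
    have := Q_eq_B (κ := (1:ℝ)) a b
    linarith
  -- a spacelike vector orthogonal to `T`
  obtain ⟨e, he0, he1, he2⟩ : ∃ e : V m, e ≠ 0 ∧ Q 1 (P.p y) e = 0 ∧ B 1 e (TT.T y) = 0 := by
    let f : V m →ₗ[ℝ] ℝ × ℝ :=
      { toFun := fun e => (Q 1 (P.p y) e, B 1 e (TT.T y))
        map_add' := by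
          intro a b
          rw [Q_add_right, B_add_left]; rfl
        map_smul' := by
          intro a b
          rw [Q_smul_right, B_smul_left]; rfl }
    have hfr : Module.finrank ℝ (ℝ × ℝ) < Module.finrank ℝ (V m) := by
      simp [V, E]
      omega
    have hk := LinearMap.ker_ne_bot_of_finrank_lt (f := f) hfr
    obtain ⟨e, he, he0⟩ := (Submodule.ne_bot_iff _).1 hk
    have he' : f e = 0 := he
    have h1 : (Q 1 (P.p y) e, B 1 e (TT.T y)) = ((0:ℝ), (0:ℝ)) := he'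
    exact ⟨e, he0, (Prod.mk.inj h1).1, (Prod.mk.inj h1).2⟩
  have hee : 0 < B 1 e e :=
    B_pos_of_orth hκ3 (P.mem y) (TT.tan y) (by rw [TT.unit y]; norm_num) he1 he2 he0
  obtain ⟨β, hβd⟩ : ∃ β, β = Real.sqrt (B 1 e e) := ⟨_, rfl⟩
  have hβ : 0 < β := by rw [hβd]; exact Real.sqrt_pos.2 hee
  have hβsq : β ^ 2 = B 1 e e := by rw [hβd]; exact Real.sq_sqrt hee.le
  have hTe : B 1 (TT.T y) e = 0 := by rw [B_comm]; exact he2
  have hu1 : P.Fut TT.T y ((5/4 : ℝ) • TT.T y + (3/4 * β⁻¹ : ℝ) • e) := by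
    refine ⟨?_, ?_, ?_⟩
    · rw [Q_add_right, Q_smul_right, Q_smul_right, TT.tan y, he1]; ring
    · simp only [B_add_left, B_add_right, B_smul_left, B_smul_right, TT.unit y, he2, hTe, ← hβsq]
      field_simp
      ring
    · rw [B_add_left, B_smul_left, B_smul_left, TT.unit y, he2]; norm_num
  refine ⟨_, hu1, ?_⟩
  intro h2
  obtain ⟨c1, hc1⟩ := Submodule.mem_span_singleton.1 hT
  obtain ⟨c2, hc2⟩ := Submodule.mem_span_singleton.1 h2
  have hh : ∀ c u, Q 1 (P.p y) u = 0 → c • ν0 = P.p y + u → c * Q 1 (P.p y) ν0 = 1 := by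
    intro c u hu hcu
    rw [← Q_smul_right, hcu, Q_add_right, hxx, hu, add_zero]
  have e1 := hh c1 _ (TT.tan y) hc1
  have e2 := hh c2 _ hu1.1 hc2
  have hne : Q 1 (P.p y) ν0 ≠ 0 := by
    intro h0
    rw [h0, mul_zero] at e1
    norm_num at e1
  have e3 : c1 = c2 := mul_right_cancel₀ hne (e1.trans e2.symm)
  rw [e3, hc2] at hc1
  have e4 := add_left_cancel hc1
  have e5 : B 1 ((5/4 : ℝ) • TT.T y + (3/4 * β⁻¹ : ℝ) • e) (TT.T y) = B 1 (TT.T y) (TT.T y) := by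
    rw [e4]
  rw [B_add_left, B_smul_left, B_smul_left, TT.unit y, he2] at e5
  norm_num at e5

theorem afp_closed [T2Space Y] (hm : 2 ≤ m) (D : ExData TT) {ν0 : V m} {yi : Y}
    (h : ∃ᶠ y' in 𝓝 yi, P.Flp TT.T ν0 y') : P.Flp TT.T ν0 yi := by
  have hκ3 := afp_one
  have hTc : Continuous TT.T := TT.sm.continuous
  obtain ⟨ui, hui, huine⟩ := afp_nonexc (TT := TT) hm yi ν0
  obtain ⟨w, hw⟩ := afp_reach D yi ui hui ν0 huine
  obtain ⟨y', hFl, u', s', σ, h1, h2, h3, h4, h5, h6, h7⟩ := (h.and_eventually hw).exists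
  have hexp : ∀ (v : V m) (s : ℝ), P.p w + v ∉ Submodule.span ℝ {ν0} →
      ray 1 (P.p w) v s + vel 1 (P.p w) v s ∉ Submodule.span ℝ {ν0} := by
    intro v s hv hcon
    rw [afp_ray_vel] at hcon
    apply hv
    have h1 := Submodule.smul_mem _ (Real.exp s)⁻¹ hcon
    rwa [smul_smul, inv_mul_cancel₀ (Real.exp_pos s).ne', one_smul] at h1
  -- the point w has the property
  have hvel : P.Fut TT.T y' (vel 1 (P.p w) u' s') := by
    have := Dev.Fut.vel hκ3 hTc TT.tan TT.unit h1 h2 σ h3 h4 h5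
    rwa [h6] at this
  have hpy' : P.p y' = ray 1 (P.p w) u' s' := by
    rw [← h6]; exact h5 s' ⟨h2, le_refl _⟩
  have hFw : P.Flp TT.T ν0 w := by
    obtain ⟨b, ν, hf, hc⟩ := afp_fiber hm D hFl hvel (by rw [hpy']; exact hexp u' s' h7)
    refine ⟨u', s' + b, ν, h1, ?_, hc⟩
    apply Dev.FailsAt.of_shift hκ3 h1.1 h1.2.1 h2 σ h3 h4 h5
    rw [h6]; exact hf
  -- forward to yi
  obtain ⟨U, s, τ, g1, g2, g3, g4, g5, g6, g7⟩ := hw.self_of_nhds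
  obtain ⟨b, ν, hf, hc⟩ := afp_fiber hm D hFw g1 g7
  have hlt : s < b := by
    by_contra hcon
    push Not at hcon
    exact Dev.FailsAt.not_liftsTo hκ3 hTc hf hcon ⟨τ, g3, g4, g5⟩
  have hf2 := Dev.FailsAt.shift hκ3 g1.1 g1.2.1 g2 τ g3 g4 g5 hf hlt
  have hvel2 := Dev.Fut.vel hκ3 hTc TT.tan TT.unit g1 g2 τ g3 g4 g5
  rw [g6] at hf2 hvel2
  exact ⟨vel 1 (P.p w) U s, b - s, ν, hvel2, hf2, hc⟩

end aux2

/-- de Sitter case of `Dev.all_fail` -/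
theorem Dev.all_fail_pos {m : ℕ} (hm : 2 ≤ m) {Y : Type*}
    [TopologicalSpace Y] [T2Space Y] [ConnectedSpace Y] (P : Dev 1 m Y) {Γ : Type*} [Group Γ]
    [MulAction Γ Y] {H : Hol P Γ} {TT : TF H} (D : ExData TT) {y0 : Y} {u0 : V m} {b0 : ℝ} {ν0 : V m}
    (hF : P.FailsAt TT.T y0 u0 b0 ν0) (hu0 : P.Fut TT.T y0 u0) (y : Y) :
    B 1 (P.p y) ν0 ≠ 0 ∧ ∀ u : V m, P.Fut TT.T y u → u ≠ (B 1 (P.p y) ν0)⁻¹ • ν0 - P.p y →
    ∃ b ν, P.FailsAt TT.T y u b ν ∧ (∃ c : ℝ, ν = c • ν0) ∧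
      B 1 (ray 1 (P.p y) u b) ν0 = 0 := by
  have h0 : P.Flp TT.T ν0 y0 := ⟨u0, b0, ν0, hu0, hF, ⟨1, (one_smul _ _).symm⟩⟩
  have hclopen : IsClopen {y | P.Flp TT.T ν0 y} := by
    constructor
    · rw [← closure_subset_iff_isClosed]
      intro yi hyi
      exact afp_closed hm D (mem_closure_iff_frequently.1 hyi)
    · rw [isOpen_iff_mem_nhds]
      intro y hy
      exact afp_open D hy
  have huniv := hclopen.eq_univ ⟨y0, h0⟩
  have hy : P.Flp TT.T ν0 y := by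
    have : y ∈ {y | P.Flp TT.T ν0 y} := by rw [huniv]; trivial
    exact this
  exact afp_fiber0 hm D hy

end Pool.Agent.Helper107.LC
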