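import Mathlib
import Pool.Agent.Helper107.LC.Dlem
set_option autoImplicit false
open Set Filter Topology
open scoped ContDiff

namespace Pool.Agent.Helper107.LC

section bd
variable {κ : ℝ} {m : ℕ} {Y : Type*} [TopologicalSpace Y]

theorem bd_N2_smul (x t w : V m) (a : ℝ) : N2 κ x t (a • w) = a ^ 2 * N2 κ x t w := by
  have h1 : tg κ x (a • w) = a • tg κ x w := by
    simp only [tg, Q_smul_right, smul_sub, smul_smul]
  simp only [N2, h1, Q_smul_right, B_smul_left, B_smul_right]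
  ring

theorem bd_N2_neg (x t w : V m) : N2 κ x t (-w) = N2 κ x t w := by
  have := bd_N2_smul (κ := κ) x t w (-1)
  rw [neg_one_smul] at this
  rw [this]; ring

theorem bd_tg_rho {P : Dev κ m Y} {Γ : Type*} [Group Γ] [MulAction Γ Y] (H : Hol P Γ) (γ : Γ)
    (x w : V m) : tg κ (H.ρ γ x) (H.ρ γ w) = H.ρ γ (tg κ x w) := by
  simp only [tg, H.Qinv, map_sub, map_smul]

theorem bd_N2_rho {P : Dev κ m Y} {Γ : Type*} [Group Γ] [MulAction Γ Y] (H : Hol P Γ) (γ : Γ)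
    {x : V m} (hx : x ∈ X κ m) {t t' : V m} (ht : Q κ x t = 0)
    (htt : t' = H.ρ γ t ∨ t' = -H.ρ γ t) (w : V m) :
    N2 κ (H.ρ γ x) t' (H.ρ γ w) = N2 κ x t w := by
  have h1 : B κ (H.ρ γ (tg κ x w)) (H.ρ γ (tg κ x w)) = B κ (tg κ x w) (tg κ x w) :=
    H.Binv γ x _ _ hx (Q_tg hx w) (Q_tg hx w)
  have h2 : B κ (H.ρ γ (tg κ x w)) (H.ρ γ t) = B κ (tg κ x w) t :=
    H.Binv γ x _ _ hx (Q_tg hx w) ht
  simp only [N2, bd_tg_rho, H.Qinv, h1]
  rcases htt with h | h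
  · rw [h, h2]
  · rw [h, B_neg_right, h2]; ring

theorem bd_cont_N2 : Continuous (fun q : V m × V m × V m => N2 κ q.1 q.2.1 q.2.2) := by
  unfold N2 tg B Q
  fun_prop

/-- local comparison of the norms -/
theorem bd_cmp (hκ : κ = -1 ∨ κ = 0 ∨ κ = 1) (P : Dev κ m Y) (T : Y → V m) (hT : Continuous T)
    (htan : ∀ y, Q κ (P.p y) (T y) = 0) (hunit : ∀ y, B κ (T y) (T y) = -1) (y0 : Y) :
    ∃ c > 0, ∃ C' > 0, ∀ᶠ y in 𝓝 y0, ∀ w : V m,
      c * ‖w‖ ^ 2 ≤ N2 κ (P.p y) (T y) w ∧ N2 κ (P.p y) (T y) w ≤ C' * ‖w‖ ^ 2 := by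
  have hpc := P.continuous_p
  have hcont : Continuous (fun q : Y × V m => N2 κ (P.p q.1) (T q.1) q.2) :=
    bd_cont_N2.comp ((hpc.comp continuous_fst).prodMk ((hT.comp continuous_fst).prodMk
      continuous_snd))
  have hS : IsCompact (Metric.sphere (0 : V m) 1) := isCompact_sphere _ _
  have hSne : (Metric.sphere (0 : V m) 1).Nonempty := NormedSpace.sphere_nonempty.mpr zero_le_one
  have hcS : Continuous (fun w : V m => N2 κ (P.p y0) (T y0) w) :=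
    hcont.comp (continuous_const.prodMk continuous_id)
  obtain ⟨w1, hw1, hmin⟩ := hS.exists_isMinOn hSne hcS.continuousOn
  obtain ⟨w2, hw2, hmax⟩ := hS.exists_isMaxOn hSne hcS.continuousOn
  have hw1n : w1 ≠ 0 := by
    intro h
    rw [h] at hw1
    simp at hw1
  have hw2n : w2 ≠ 0 := by
    intro h
    rw [h] at hw2
    simp at hw2
  have hpos1 : 0 < N2 κ (P.p y0) (T y0) w1 := N2_pos hκ (P.mem y0) (htan y0) (hunit y0) hw1n
  have hpos2 : 0 < N2 κ (P.p y0) (T y0) w2 := N2_pos hκ (P.mem y0) (htan y0) (hunit y0) hw2n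
  refine ⟨N2 κ (P.p y0) (T y0) w1 / 2, by positivity, N2 κ (P.p y0) (T y0) w2 + 1, by positivity, ?_⟩
  have h1 : ∀ᶠ y in 𝓝 y0, ∀ w ∈ Metric.sphere (0 : V m) 1,
      N2 κ (P.p y0) (T y0) w1 / 2 < N2 κ (P.p y) (T y) w ∧
      N2 κ (P.p y) (T y) w < N2 κ (P.p y0) (T y0) w2 + 1 := by
    apply hS.eventually_forall_of_forall_eventually
    intro w hw
    have e1 : N2 κ (P.p y0) (T y0) w1 / 2 < N2 κ (P.p y0) (T y0) w := by
      have : N2 κ (P.p y0) (T y0) w1 ≤ N2 κ (P.p y0) (T y0) w := hmin hw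
      linarith
    have e2 : N2 κ (P.p y0) (T y0) w < N2 κ (P.p y0) (T y0) w2 + 1 := by
      have : N2 κ (P.p y0) (T y0) w ≤ N2 κ (P.p y0) (T y0) w2 := hmax hw
      linarith
    exact ((hcont.tendsto (y0, w)).eventually_const_lt e1).and
      ((hcont.tendsto (y0, w)).eventually_lt_const e2)
  filter_upwards [h1] with y hy w
  by_cases hw : w = 0
  · subst hw
    have : N2 κ (P.p y) (T y) (0 : V m) = 0 := by
      have := bd_N2_smul (κ := κ) (P.p y) (T y) (0 : V m) 0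
      simpa using this
    rw [this]
    simp
  · have hwn : 0 < ‖w‖ := norm_pos_iff.mpr hw
    have hs : (‖w‖⁻¹ • w) ∈ Metric.sphere (0 : V m) 1 := by
      rw [mem_sphere_zero_iff_norm, norm_smul, norm_inv, norm_norm, inv_mul_cancel₀ hwn.ne']
    obtain ⟨e1, e2⟩ := hy _ hs
    rw [bd_N2_smul] at e1 e2
    have e3 : ‖w‖ ^ 2 * (‖w‖⁻¹ ^ 2 * N2 κ (P.p y) (T y) w) = N2 κ (P.p y) (T y) w := by
      rw [← mul_assoc, ← mul_pow, mul_inv_cancel₀ hwn.ne', one_pow, one_mul]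
    have hsq : 0 < ‖w‖ ^ 2 := by positivity
    refine ⟨?_, ?_⟩
    · rw [← e3, mul_comm]
      exact (mul_le_mul_of_nonneg_left e1.le hsq.le)
    · rw [← e3, mul_comm _ (‖w‖ ^ 2)]
      exact (mul_le_mul_of_nonneg_left e2.le hsq.le)

/-- local bound of the derivative of a smooth map -/
theorem bd_loc (hκ : κ = -1 ∨ κ = 0 ∨ κ = 1) (P : Dev κ m Y) {W : Type*} [NormedAddCommGroup W]
    [NormedSpace ℝ W] (F : Y → W) (hF : P.Sm F) (y0 : Y) :
    ∃ M > 0, ∀ᶠ y in 𝓝 y0, ∀ v, Q κ (P.p y) v = 0 → ‖P.d F y v‖ ≤ M * ‖v‖ := by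
  obtain ⟨G, hG, hev⟩ := hF y0
  have hfd : Continuous (fun x => fderiv ℝ G x) := hG.continuous_fderiv (by simp)
  have hc : Continuous (fun y => ‖fderiv ℝ G (P.p y)‖) := (hfd.comp P.continuous_p).norm
  refine ⟨‖fderiv ℝ G (P.p y0)‖ + 1, by positivity, ?_⟩
  have h1 : ∀ᶠ y in 𝓝 y0, ‖fderiv ℝ G (P.p y)‖ < ‖fderiv ℝ G (P.p y0)‖ + 1 :=
    (hc.tendsto y0).eventually_lt_const (by linarith)
  filter_upwards [h1, hev.eventually_nhds] with y hy hy' v hv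
  rw [P.d_eq hκ F y G hG hy' v hv]
  exact ((fderiv ℝ G (P.p y)).le_opNorm v).trans
    (mul_le_mul_of_nonneg_right hy.le (norm_nonneg v))

/-- sign of the holonomy on the field is constant -/
theorem bd_sign (P : Dev κ m Y) {Γ : Type*} [Group Γ]
    [MulAction Γ Y] [ContinuousConstSMul Γ Y] [ConnectedSpace Y] (H : Hol P Γ) (TT : TF H)
    (γ : Γ) : (∀ y, TT.T (γ • y) = H.ρ γ (TT.T y)) ∨ (∀ y, TT.T (γ • y) = -H.ρ γ (TT.T y)) := by
  have hT : Continuous TT.T := TT.sm.continuous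
  have hρ : Continuous (H.ρ γ) := LinearMap.continuous_of_finiteDimensional (H.ρ γ).toLinearMap
  have hTγ : Continuous (fun y => TT.T (γ • y)) := hT.comp (continuous_const_smul γ)
  have hA : IsClosed {y | TT.T (γ • y) = H.ρ γ (TT.T y)} := isClosed_eq hTγ (hρ.comp hT)
  have hB : IsClosed {y | TT.T (γ • y) = -H.ρ γ (TT.T y)} := isClosed_eq hTγ (hρ.comp hT).neg
  have hcompl : {y | TT.T (γ • y) = H.ρ γ (TT.T y)}ᶜ = {y | TT.T (γ • y) = -H.ρ γ (TT.T y)} := by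
    ext y
    constructor
    · intro hy
      rcases TT.eqv γ y with h | h
      · exact absurd h hy
      · exact h
    · intro hy hy'
      have h1 : H.ρ γ (TT.T y) = -H.ρ γ (TT.T y) := by
        have e1 : TT.T (γ • y) = H.ρ γ (TT.T y) := hy'
        have e2 : TT.T (γ • y) = -H.ρ γ (TT.T y) := hy
        rw [← e1]; rw [e1] at e2 ⊢; exact e2
      have h2 : H.ρ γ (TT.T y) = 0 := by
        have h5 : (2:ℝ) • H.ρ γ (TT.T y) = 0 := by
          rw [two_smul]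
          exact eq_neg_iff_add_eq_zero.mp h1
        exact (smul_eq_zero.mp h5).resolve_left (by norm_num)
      have h3 : TT.T y = 0 := (LinearEquiv.map_eq_zero_iff (H.ρ γ)).mp h2
      have h4 := TT.unit y
      rw [h3, B_zero_left] at h4
      norm_num at h4
  have hclopen : IsClopen {y | TT.T (γ • y) = H.ρ γ (TT.T y)} := by
    refine ⟨hA, ?_⟩
    rw [← isClosed_compl_iff, hcompl]
    exact hB
  rcases isClopen_iff.mp hclopen with h | h
  · right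
    intro y
    have : y ∈ {y | TT.T (γ • y) = -H.ρ γ (TT.T y)} := by
      rw [← hcompl, h]; simp
    exact this
  · left
    intro y
    have : y ∈ {y | TT.T (γ • y) = H.ρ γ (TT.T y)} := by rw [h]; trivial
    exact this

/-- bound for the derivative of an invariant function -/
theorem bd_df (hκ : κ = -1 ∨ κ = 0 ∨ κ = 1) [T2Space Y] (P : Dev κ m Y) {Γ : Type*} [Group Γ]
    [MulAction Γ Y] [ContinuousConstSMul Γ Y] (H : Hol P Γ) (TT : TF H) (hK : Coc Γ Y)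
    (f : Y → ℝ) (hf : P.Sm f) (hinv : ∀ (γ : Γ) y, f (γ • y) = f y) :
    ∃ C : ℝ, 0 ≤ C ∧ (∀ y, |f y| ≤ C) ∧ ∀ y v, Q κ (P.p y) v = 0 →
      (P.d f y v) ^ 2 ≤ C * N2 κ (P.p y) (TT.T y) v := by
  have hT : Continuous TT.T := TT.sm.continuous
  have hN : ∀ y v, 0 ≤ N2 κ (P.p y) (TT.T y) v := fun y v =>
    N2_nonneg hκ (P.mem y) (TT.tan y) (TT.unit y) v
  obtain ⟨K, hKc, hKs⟩ := hK
  obtain ⟨C1, hC1⟩ := hKc.exists_bound_of_continuousOn hf.continuous.continuousOn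
  have hcov : ∃ C : ℝ, 0 ≤ C ∧ ∀ y ∈ K, ∀ v, Q κ (P.p y) v = 0 →
      (P.d f y v) ^ 2 ≤ C * N2 κ (P.p y) (TT.T y) v := by
    refine hKc.induction_on (p := fun s => ∃ C : ℝ, 0 ≤ C ∧ ∀ y ∈ s, ∀ v, Q κ (P.p y) v = 0 →
      (P.d f y v) ^ 2 ≤ C * N2 κ (P.p y) (TT.T y) v) ?_ ?_ ?_ ?_
    · exact ⟨0, le_rfl, fun y hy => absurd hy (Set.notMem_empty y)⟩
    · rintro s t hst ⟨C, hC, h⟩
      exact ⟨C, hC, fun y hy => h y (hst hy)⟩
    · rintro s t ⟨C, hC, h⟩ ⟨C', hC', h'⟩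
      refine ⟨C + C', by positivity, ?_⟩
      rintro y (hy | hy) v hv
      · refine (h y hy v hv).trans ?_
        have := mul_nonneg hC' (hN y v)
        linarith
      · refine (h' y hy v hv).trans ?_
        have := mul_nonneg hC (hN y v)
        linarith
    · intro y0 _
      obtain ⟨c, hc, C', hC', hcmp⟩ := bd_cmp hκ P TT.T hT TT.tan TT.unit y0
      obtain ⟨M, hM, hloc⟩ := bd_loc hκ P f hf y0
      refine ⟨{y | ∀ v, Q κ (P.p y) v = 0 →
        (P.d f y v) ^ 2 ≤ (M ^ 2 / c) * N2 κ (P.p y) (TT.T y) v},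
        mem_nhdsWithin_of_mem_nhds ?_, M ^ 2 / c, by positivity, fun y hy => hy⟩
      filter_upwards [hcmp, hloc] with y h1 h2 v hv
      have h3 := h2 v hv
      have h4 := (h1 v).1
      have h5 : (P.d f y v) ^ 2 ≤ (M * ‖v‖) ^ 2 := by
        rw [← sq_abs, ← Real.norm_eq_abs]
        exact pow_le_pow_left₀ (norm_nonneg _) h3 2
      have h6 : (M * ‖v‖) ^ 2 = (M ^ 2 / c) * (c * ‖v‖ ^ 2) := by field_simp
      rw [h6] at h5
      exact h5.trans (mul_le_mul_of_nonneg_left h4 (by positivity))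
  obtain ⟨C2, hC2, hK2⟩ := hcov
  refine ⟨|C1| + C2, by positivity, ?_, ?_⟩
  · intro y
    obtain ⟨γ, hγ⟩ := hKs y
    have h1 := hC1 _ hγ
    rw [hinv γ y, Real.norm_eq_abs] at h1
    have := le_abs_self C1
    linarith
  · intro y v hv
    obtain ⟨γ, hγ⟩ := hKs y
    have hv' : Q κ (P.p (γ • y)) (H.ρ γ v) = 0 := by
      rw [H.eqv, H.Qinv, hv]
    have h1 := hK2 _ hγ (H.ρ γ v) hv'
    have h2 : P.d f (γ • y) (H.ρ γ v) = P.d f y v := by
      have := P.d_smul hκ H hf (ContinuousLinearMap.id ℝ ℝ) γ (fun y => by simp [hinv γ y]) y v hv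
      simpa using this
    rw [h2, H.eqv, bd_N2_rho H γ (P.mem y) (TT.tan y) (TT.eqv γ y) v] at h1
    refine h1.trans ?_
    have := mul_nonneg (abs_nonneg C1) (hN y v)
    linarith

/-- bound for the derivative of the field `T` -/
theorem bd_dT (hκ : κ = -1 ∨ κ = 0 ∨ κ = 1) [T2Space Y] (P : Dev κ m Y) {Γ : Type*} [Group Γ]
    [MulAction Γ Y] [ContinuousConstSMul Γ Y] [ConnectedSpace Y] (H : Hol P Γ) (TT : TF H) (hK : Coc Γ Y) :
    ∃ C : ℝ, 0 ≤ C ∧ ∀ y v, Q κ (P.p y) v = 0 →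
      N2 κ (P.p y) (TT.T y) (P.d TT.T y v) ≤ C * N2 κ (P.p y) (TT.T y) v := by
  have hT : Continuous TT.T := TT.sm.continuous
  have hN : ∀ y v, 0 ≤ N2 κ (P.p y) (TT.T y) v := fun y v =>
    N2_nonneg hκ (P.mem y) (TT.tan y) (TT.unit y) v
  obtain ⟨K, hKc, hKs⟩ := hK
  have hcov : ∃ C : ℝ, 0 ≤ C ∧ ∀ y ∈ K, ∀ v, Q κ (P.p y) v = 0 →
      N2 κ (P.p y) (TT.T y) (P.d TT.T y v) ≤ C * N2 κ (P.p y) (TT.T y) v := by
    refine hKc.induction_on (p := fun s => ∃ C : ℝ, 0 ≤ C ∧ ∀ y ∈ s, ∀ v, Q κ (P.p y) v = 0 →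
      N2 κ (P.p y) (TT.T y) (P.d TT.T y v) ≤ C * N2 κ (P.p y) (TT.T y) v) ?_ ?_ ?_ ?_
    · exact ⟨0, le_rfl, fun y hy => absurd hy (Set.notMem_empty y)⟩
    · rintro s t hst ⟨C, hC, h⟩
      exact ⟨C, hC, fun y hy => h y (hst hy)⟩
    · rintro s t ⟨C, hC, h⟩ ⟨C', hC', h'⟩
      refine ⟨C + C', by positivity, ?_⟩
      rintro y (hy | hy) v hv
      · refine (h y hy v hv).trans ?_
        have := mul_nonneg hC' (hN y v)
        linarith
      · refine (h' y hy v hv).trans ?_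
        have := mul_nonneg hC (hN y v)
        linarith
    · intro y0 _
      obtain ⟨c, hc, C', hC', hcmp⟩ := bd_cmp hκ P TT.T hT TT.tan TT.unit y0
      obtain ⟨M, hM, hloc⟩ := bd_loc hκ P TT.T TT.sm y0
      refine ⟨{y | ∀ v, Q κ (P.p y) v = 0 →
        N2 κ (P.p y) (TT.T y) (P.d TT.T y v) ≤ (C' * M ^ 2 / c) * N2 κ (P.p y) (TT.T y) v},
        mem_nhdsWithin_of_mem_nhds ?_, C' * M ^ 2 / c, by positivity, fun y hy => hy⟩
      filter_upwards [hcmp, hloc] with y h1 h2 v hv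
      have h3 := h2 v hv
      have h4 := (h1 v).1
      have h7 := (h1 (P.d TT.T y v)).2
      have h5 : ‖P.d TT.T y v‖ ^ 2 ≤ (M * ‖v‖) ^ 2 := pow_le_pow_left₀ (norm_nonneg _) h3 2
      have h6 : C' * (M * ‖v‖) ^ 2 = (C' * M ^ 2 / c) * (c * ‖v‖ ^ 2) := by field_simp
      have h8 : C' * ‖P.d TT.T y v‖ ^ 2 ≤ C' * (M * ‖v‖) ^ 2 :=
        mul_le_mul_of_nonneg_left h5 hC'.le
      rw [h6] at h8
      exact (h7.trans h8).trans (mul_le_mul_of_nonneg_left h4 (by positivity))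
  obtain ⟨C2, hC2, hK2⟩ := hcov
  refine ⟨C2, hC2, ?_⟩
  intro y v hv
  obtain ⟨γ, hγ⟩ := hKs y
  have hv' : Q κ (P.p (γ • y)) (H.ρ γ v) = 0 := by
    rw [H.eqv, H.Qinv, hv]
  have h1 := hK2 _ hγ (H.ρ γ v) hv'
  let L : V m →L[ℝ] V m := LinearMap.toContinuousLinearMap (H.ρ γ).toLinearMap
  have hLa : ∀ w, L w = H.ρ γ w := fun w => rfl
  have h2 : P.d TT.T (γ • y) (H.ρ γ v) = H.ρ γ (P.d TT.T y v) ∨
      P.d TT.T (γ • y) (H.ρ γ v) = -H.ρ γ (P.d TT.T y v) := by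
    rcases bd_sign P H TT γ with hs | hs
    · left
      exact P.d_smul hκ H TT.sm L γ (fun y => hs y) y v hv
    · right
      have := P.d_smul hκ H TT.sm (-L) γ (fun y => hs y) y v hv
      exact this
  have h3 : N2 κ (P.p (γ • y)) (TT.T (γ • y)) (P.d TT.T (γ • y) (H.ρ γ v)) =
      N2 κ (P.p y) (TT.T y) (P.d TT.T y v) := by
    rcases h2 with h | h
    · rw [h, H.eqv, bd_N2_rho H γ (P.mem y) (TT.tan y) (TT.eqv γ y)]
    · rw [h, bd_N2_neg, H.eqv, bd_N2_rho H γ (P.mem y) (TT.tan y) (TT.eqv γ y)]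
  rw [h3, H.eqv, bd_N2_rho H γ (P.mem y) (TT.tan y) (TT.eqv γ y) v] at h1
  exact h1
end bd

end Pool.Agent.Helper107.LC
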