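import Mathlib
import Pool.Agent.Helper107.LC.Frame
set_option autoImplicit false
open Set Filter Topology
open scoped ContDiff

namespace Pool.Agent.Helper107.LC

theorem conf_null_fst {m : ℕ} {f : ℝ → V m} {f' : V m} {s : ℝ} (hf : HasDerivAt f f' s) :
    HasDerivAt (fun t => (f t).1) f'.1 s :=
  (ContinuousLinearMap.fst ℝ ℝ (E m × ℝ)).hasFDerivAt.comp_hasDerivAt s hf
theorem conf_null_snd {m : ℕ} {f : ℝ → V m} {f' : V m} {s : ℝ} (hf : HasDerivAt f f' s) :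
    HasDerivAt (fun t => (f t).2.1) f'.2.1 s :=
  ((ContinuousLinearMap.fst ℝ (E m) ℝ).comp
    (ContinuousLinearMap.snd ℝ ℝ (E m × ℝ))).hasFDerivAt.comp_hasDerivAt s hf
theorem conf_null_thd {m : ℕ} {f : ℝ → V m} {f' : V m} {s : ℝ} (hf : HasDerivAt f f' s) :
    HasDerivAt (fun t => (f t).2.2) f'.2.2 s :=
  ((ContinuousLinearMap.snd ℝ (E m) ℝ).comp
    (ContinuousLinearMap.snd ℝ ℝ (E m × ℝ))).hasFDerivAt.comp_hasDerivAt s hf

theorem conf_null_derB (κ : ℝ) {m : ℕ} {f g : ℝ → V m} {f' g' : V m} {s : ℝ} (hf : HasDerivAt f f' s)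
    (hg : HasDerivAt g g' s) :
    HasDerivAt (fun t => B κ (f t) (g t)) (B κ f' (g s) + B κ (f s) g') s := by
  have h1 := ((conf_null_fst hf).mul (conf_null_fst hg)).neg
  have h2 := HasDerivAt.inner ℝ (conf_null_snd hf) (conf_null_snd hg)
  have h3 := ((conf_null_thd hf).mul (conf_null_thd hg)).const_mul κ
  have h4 := (h1.add h2).add h3
  refine HasDerivAt.congr_deriv h4 ?_
  simp only [B]
  ring

theorem conf_null_derQ (κ : ℝ) {m : ℕ} {f g : ℝ → V m} {f' g' : V m} {s : ℝ} (hf : HasDerivAt f f' s)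
    (hg : HasDerivAt g g' s) :
    HasDerivAt (fun t => Q κ (f t) (g t)) (Q κ f' (g s) + Q κ (f s) g') s := by
  have h1 := ((conf_null_fst hf).mul (conf_null_fst hg)).neg
  have h2 := HasDerivAt.inner ℝ (conf_null_snd hf) (conf_null_snd hg)
  have h3 := ((conf_null_thd hf).mul (conf_null_thd hg))
  have h4 := ((h1.add h2).const_mul κ).add h3
  refine HasDerivAt.congr_deriv h4 ?_
  simp only [Q]
  ring

theorem conf_null_const {W : Type*} [NormedAddCommGroup W] [NormedSpace ℝ W] {a b : ℝ} (f : ℝ → W)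
    (h : ∀ s ∈ Ico a b, HasDerivAt f 0 s) : ∀ s ∈ Ico a b, f s = f a := by
  intro s hs
  refine constant_of_has_deriv_right_zero (a := a) (b := s) ?_ ?_ s ⟨hs.1, le_rfl⟩
  · intro t ht
    exact (h t ⟨ht.1, lt_of_le_of_lt ht.2 hs.2⟩).continuousAt.continuousWithinAt
  · intro t ht
    exact (h t ⟨ht.1, lt_trans ht.2 hs.2⟩).hasDerivWithinAt

/-- Null geodesics of a conformal metric: the velocity stays bounded on bounded intervals. -/
theorem conf_null {κ : ℝ} {m : ℕ} (hκ : κ = -1 ∨ κ = 0 ∨ κ = 1) {a b : ℝ} (hab : a < b)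
    (x v acc T T' : ℝ → V m) (φ : ℝ → ℝ) (dφ : ℝ → V m →L[ℝ] ℝ) (C : ℝ)
    (hx : ∀ s ∈ Ico a b, x s ∈ X κ m) (hxd : ∀ s ∈ Ico a b, HasDerivAt x (v s) s)
    (hv : ∀ s ∈ Ico a b, Q κ (x s) (v s) = 0)
    (hvd : ∀ s ∈ Ico a b, HasDerivAt v (acc s) s)
    (hT : ∀ s ∈ Ico a b, Q κ (x s) (T s) = 0) (hTT : ∀ s ∈ Ico a b, B κ (T s) (T s) = -1)
    (hTd : ∀ s ∈ Ico a b, HasDerivAt T (T' s) s)
    (hφd : ∀ s ∈ Ico a b, HasDerivAt φ (dφ s (v s)) s) (hφ : ∀ s ∈ Ico a b, |φ s| ≤ C)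
    (geo : ∀ s ∈ Ico a b, ∀ w, Q κ (x s) w = 0 →
      B κ (acc s) w + 2 * dφ s (v s) * B κ (v s) w = B κ (v s) (v s) * dφ s w)
    (hdφ : ∀ s ∈ Ico a b, ∀ w, Q κ (x s) w = 0 → (dφ s w) ^ 2 ≤ C * N2 κ (x s) (T s) w)
    (hT' : ∀ s ∈ Ico a b, N2 κ (x s) (T s) (T' s) ≤ C * N2 κ (x s) (T s) (v s))
    (hnull : B κ (v a) (v a) = 0) :
    ∃ M : ℝ, ∀ s ∈ Ico a b, ‖v s‖ ≤ M := by
  -- energy
  have hE : ∀ s ∈ Ico a b, HasDerivAt (fun t => Real.exp (2 * φ t) * B κ (v t) (v t)) 0 s := by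
    intro s hs
    have h1 := ((hφd s hs).const_mul 2).exp
    have h2 := conf_null_derB κ (hvd s hs) (hvd s hs)
    have h3 := geo s hs (v s) (hv s hs)
    refine HasDerivAt.congr_deriv (h1.mul h2) ?_
    rw [B_comm (v s) (acc s)]
    linear_combination 2 * Real.exp (2 * φ s) * h3
  have hnull' : ∀ s ∈ Ico a b, B κ (v s) (v s) = 0 := by
    intro s hs
    have h1 := conf_null_const _ hE s hs
    simp only [hnull, mul_zero] at h1
    exact (mul_eq_zero.mp h1).resolve_left (Real.exp_pos _).ne'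
  have hQacc : ∀ s ∈ Ico a b, Q κ (x s) (acc s) = 0 := by
    intro s hs
    have h1 := (conf_null_derQ κ (hxd s hs) (hvd s hs)).hasDerivWithinAt (s := Ici s)
    have h2 : HasDerivWithinAt (fun t => Q κ (x t) (v t)) 0 (Ici s) s := by
      have h3 : HasDerivWithinAt (fun _ : ℝ => (0:ℝ)) 0 (Ici s) s := hasDerivWithinAt_const _ _ _
      refine h3.congr_of_eventuallyEq ?_ (hv s hs)
      have h4 : Ico s b ∈ 𝓝[≥] s := Ico_mem_nhdsGE hs.2
      filter_upwards [h4] with t ht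
      exact hv t ⟨hs.1.trans ht.1, ht.2⟩
    have h5 := (uniqueDiffWithinAt_Ici s).eq_deriv _ h1 h2
    rw [Q_tan hκ (hx s hs) (hv s hs) (v s) (hv s hs), hnull' s hs] at h5
    simpa using h5
  have hzero : ∀ s ∈ Ico a b, (2 * dφ s (v s)) • v s + acc s = 0 := by
    intro s hs
    by_contra hne
    have htan : Q κ (x s) ((2 * dφ s (v s)) • v s + acc s) = 0 := by
      rw [Q_add_right, Q_smul_right, hv s hs, hQacc s hs]
      ring
    have horth : ∀ w, Q κ (x s) w = 0 → B κ ((2 * dφ s (v s)) • v s + acc s) w = 0 := by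
      intro w hw
      have h3 := geo s hs w hw
      rw [hnull' s hs] at h3
      rw [B_add_left, B_smul_left]
      linarith
    have h4 := B_pos_of_orth hκ (hx s hs) (hT s hs) (by rw [hTT s hs]; norm_num) htan
      (horth _ (hT s hs)) hne
    rw [horth _ htan] at h4
    exact lt_irrefl _ h4
  have hP : ∀ s ∈ Ico a b, HasDerivAt (fun t => Real.exp (2 * φ t) • v t) 0 s := by
    intro s hs
    have h1 := ((hφd s hs).const_mul 2).exp
    have h2 := h1.smul (hvd s hs)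
    refine HasDerivAt.congr_deriv h2 ?_
    have h3 := hzero s hs
    have h4 : Real.exp (2 * φ s) • acc s + (Real.exp (2 * φ s) * (2 * dφ s (v s))) • v s =
        Real.exp (2 * φ s) • ((2 * dφ s (v s)) • v s + acc s) := by
      rw [smul_add, smul_smul, add_comm]
    rw [h4, h3, smul_zero]
  refine ⟨Real.exp (2 * C) * ‖Real.exp (2 * φ a) • v a‖, ?_⟩
  intro s hs
  have h1 : Real.exp (2 * φ s) • v s = Real.exp (2 * φ a) • v a := conf_null_const _ hP s hs
  have h2 : v s = Real.exp (-(2 * φ s)) • (Real.exp (2 * φ a) • v a) := by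
    rw [← h1, smul_smul, ← Real.exp_add, neg_add_cancel, Real.exp_zero, one_smul]
  have h3 : ‖v s‖ = Real.exp (-(2 * φ s)) * ‖Real.exp (2 * φ a) • v a‖ := by
    calc ‖v s‖ = ‖Real.exp (-(2 * φ s)) • (Real.exp (2 * φ a) • v a)‖ := by rw [← h2]
      _ = _ := by rw [norm_smul, Real.norm_eq_abs, abs_of_pos (Real.exp_pos _)]
  rw [h3]
  refine mul_le_mul_of_nonneg_right (Real.exp_le_exp.mpr ?_) (norm_nonneg _)
  have h4 := abs_le.mp (hφ s hs)
  linarith [h4.1]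

end Pool.Agent.Helper107.LC
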