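import Mathlib
import Pool.Agent.Helper107.LC.Frame
set_option autoImplicit false
open Set Filter Topology
open scoped ContDiff

namespace Pool.Agent.Helper107.LC

section conf_space_aux
variable {κ : ℝ} {m : ℕ}

theorem conf_space_dB {f g : ℝ → V m} {f' g' : V m} {s : ℝ} (hf : HasDerivAt f f' s)
    (hg : HasDerivAt g g' s) :
    HasDerivAt (fun s => B κ (f s) (g s)) (B κ f' (g s) + B κ (f s) g') s := by
  have f1 : HasDerivAt (fun s => (f s).1) f'.1 s := hf.fst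
  have g1 : HasDerivAt (fun s => (g s).1) g'.1 s := hg.fst
  have f2 : HasDerivAt (fun s => (f s).2.1) f'.2.1 s := hf.snd.fst
  have g2 : HasDerivAt (fun s => (g s).2.1) g'.2.1 s := hg.snd.fst
  have f3 : HasDerivAt (fun s => (f s).2.2) f'.2.2 s := hf.snd.snd
  have g3 : HasDerivAt (fun s => (g s).2.2) g'.2.2 s := hg.snd.snd
  have h := (((f1.mul g1).neg).add (f2.inner ℝ g2)).add ((f3.mul g3).const_mul κ)
  have e : B κ f' (g s) + B κ (f s) g' = -(f'.1 * (g s).1 + (f s).1 * g'.1) +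
      (inner ℝ (f s).2.1 g'.2.1 + inner ℝ f'.2.1 (g s).2.1) +
      κ * (f'.2.2 * (g s).2.2 + (f s).2.2 * g'.2.2) := by
    simp only [B]
    ring
  rw [e]
  exact h

theorem conf_space_dQ {f g : ℝ → V m} {f' g' : V m} {s : ℝ} (hf : HasDerivAt f f' s)
    (hg : HasDerivAt g g' s) :
    HasDerivAt (fun s => Q κ (f s) (g s)) (Q κ f' (g s) + Q κ (f s) g') s := by
  have f1 : HasDerivAt (fun s => (f s).1) f'.1 s := hf.fst
  have g1 : HasDerivAt (fun s => (g s).1) g'.1 s := hg.fst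
  have f2 : HasDerivAt (fun s => (f s).2.1) f'.2.1 s := hf.snd.fst
  have g2 : HasDerivAt (fun s => (g s).2.1) g'.2.1 s := hg.snd.fst
  have f3 : HasDerivAt (fun s => (f s).2.2) f'.2.2 s := hf.snd.snd
  have g3 : HasDerivAt (fun s => (g s).2.2) g'.2.2 s := hg.snd.snd
  have h := (((f1.mul g1).neg.add (f2.inner ℝ g2)).const_mul κ).add (f3.mul g3)
  have e : Q κ f' (g s) + Q κ (f s) g' = κ * (-(f'.1 * (g s).1 + (f s).1 * g'.1) +
      (inner ℝ (f s).2.1 g'.2.1 + inner ℝ f'.2.1 (g s).2.1)) +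
      (f'.2.2 * (g s).2.2 + (f s).2.2 * g'.2.2) := by
    simp only [Q]
    ring
  rw [e]
  exact h

theorem conf_space_const {a b : ℝ} {f : ℝ → ℝ} {f' c s : ℝ} (hs : s ∈ Ico a b)
    (hf : HasDerivAt f f' s) (hc : ∀ u ∈ Ico a b, f u = c) : f' = 0 := by
  have hsub : Ico s b ⊆ Ico a b := Ico_subset_Ico_left hs.1
  have hmem : s ∈ Ico s b := ⟨le_rfl, hs.2⟩
  have h1 : HasDerivWithinAt f f' (Ico s b) s := hf.hasDerivWithinAt
  have h2 : HasDerivWithinAt f 0 (Ico s b) s := by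
    apply (hasDerivWithinAt_const s (Ico s b) c).congr
    · intro u hu
      exact hc u (hsub hu)
    · exact hc s hs
  exact ((uniqueDiffOn_Ico s b) s hmem).eq_deriv _ h1 h2

/-- tangential Cauchy-Schwarz -/
theorem conf_space_cs (hκ : κ = -1 ∨ κ = 0 ∨ κ = 1) {x v T T' w : V m} (hx : x ∈ X κ m)
    (hv : Q κ x v = 0) (hT : Q κ x T = 0) (hTT : B κ T T = -1) (hT' : Q κ x T' = -Q κ v T)
    (hw : Q κ x w = 0) : (B κ T' w) ^ 2 ≤ N2 κ x T T' * N2 κ x T w := by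
  have h1 : B κ T' w = B κ (tg κ x T') w := by
    have h2 := QB_zero hκ hx hv hw T
    unfold tg
    rw [B_sub_left, B_smul_left, hT', B_comm x w]
    linarith
  have h3 := CS_N2 hκ hx hT hTT (Q_tg hx T') hw
  rw [h1]
  refine h3.trans ?_
  apply mul_le_mul_of_nonneg_right _ (N2_nonneg hκ hx hT hTT w)
  unfold N2
  have h4 : tg κ x (tg κ x T') = tg κ x T' := tg_of_tan (Q_tg hx T')
  rw [h4, Q_tg hx T']
  have := sq_nonneg (Q κ x T')
  linarith

/-- real inequality -/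
theorem conf_space_DR {D R s1 ε : ℝ} (hD : 0 < D) (hR : 0 < R) (hD2 : D ^ 2 = 1 + s1 ^ 2)
    (hR2 : R ^ 2 = ε + s1 ^ 2) : (D - R) ^ 2 * R ^ 2 ≤ (1 - ε) ^ 2 := by
  have h1 : (D - R) * (D + R) = 1 - ε := by
    have : (D - R) * (D + R) = D ^ 2 - R ^ 2 := by ring
    rw [this, hD2, hR2]
    ring
  rw [← h1, mul_pow]
  apply mul_le_mul_of_nonneg_left _ (sq_nonneg _)
  exact pow_le_pow_left₀ hR.le (by linarith) 2

end conf_space_aux

section conf_space_pt
variable {κ : ℝ} {m : ℕ}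

/-- all the data at one point -/
structure conf_space_data (κ : ℝ) {m : ℕ} (x v T T' P P' n n' t t' : V m)
    (φ C E0 ε s1 s1' R c1 D D' : ℝ) (dφ : V m →L[ℝ] ℝ) : Prop where
  hκ : κ = -1 ∨ κ = 0 ∨ κ = 1
  hx : x ∈ X κ m
  hv : Q κ x v = 0
  hT : Q κ x T = 0
  hTT : B κ T T = -1
  hT'x : Q κ x T' = -Q κ v T
  hT'T : B κ T' T = 0
  hP : P = Real.exp (2 * φ) • v
  hPP : B κ P P = ε
  hP' : ∀ w, Q κ x w = 0 → B κ P' w = E0 * dφ w
  hs1 : s1 = B κ P T
  hs1' : s1' = B κ P' T + B κ P T'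
  hR : 0 < R
  hR2 : R ^ 2 = ε + s1 ^ 2
  hD : 0 < D
  hD2 : D ^ 2 = 1 + s1 ^ 2
  hn : n = R⁻¹ • (P + s1 • T)
  hn' : n' = R⁻¹ • (P' + (s1 • T' + s1' • T)) + c1 • (P + s1 • T)
  ht : t = D • T - s1 • n
  ht' : t' = (D • T' + D' • T) - (s1 • n' + s1' • n)
  hn'n : B κ n' n = 0
  ht't : B κ t' t = 0
  ht'x : Q κ x t' = -Q κ v t
  hC : 0 ≤ C
  hφ : |φ| ≤ C
  hdφ : ∀ w, Q κ x w = 0 → (dφ w) ^ 2 ≤ C * N2 κ x T w
  hT' : N2 κ x T T' ≤ C * N2 κ x T v
  hE0 : 0 < E0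
  hε0 : 0 < ε
  hε : ε ≤ Real.exp (2 * C) * E0

namespace conf_space_data
variable {x v T T' P P' n n' t t' : V m} {φ C E0 ε s1 s1' R c1 D D' : ℝ} {dφ : V m →L[ℝ] ℝ}

theorem Rn (h : conf_space_data κ x v T T' P P' n n' t t' φ C E0 ε s1 s1' R c1 D D' dφ) :
    P + s1 • T = R • n := by
  rw [h.hn, smul_smul, mul_inv_cancel₀ h.hR.ne', one_smul]

theorem QxP (h : conf_space_data κ x v T T' P P' n n' t t' φ C E0 ε s1 s1' R c1 D D' dφ) :
    Q κ x P = 0 := by
  rw [h.hP, Q_smul_right, h.hv, mul_zero]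

theorem Qxn (h : conf_space_data κ x v T T' P P' n n' t t' φ C E0 ε s1 s1' R c1 D D' dφ) :
    Q κ x n = 0 := by
  rw [h.hn, Q_smul_right, Q_add_right, Q_smul_right, h.QxP, h.hT]
  ring

theorem Qxt (h : conf_space_data κ x v T T' P P' n n' t t' φ C E0 ε s1 s1' R c1 D D' dφ) :
    Q κ x t = 0 := by
  rw [h.ht, Q_sub_right, Q_smul_right, Q_smul_right, h.Qxn, h.hT]
  ring

theorem BnT (h : conf_space_data κ x v T T' P P' n n' t t' φ C E0 ε s1 s1' R c1 D D' dφ) :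
    B κ n T = 0 := by
  rw [h.hn, B_smul_left, B_add_left, B_smul_left, ← h.hs1, h.hTT]
  ring

theorem Bnn (h : conf_space_data κ x v T T' P P' n n' t t' φ C E0 ε s1 s1' R c1 D D' dφ) :
    B κ n n = 1 := by
  have hR := h.hR
  rw [h.hn, B_smul_left, B_smul_right, B_add_left, B_add_right, B_add_right, B_smul_left,
    B_smul_right, B_smul_left, B_smul_right, B_comm T P, ← h.hs1, h.hTT, h.hPP]
  have h1 : R⁻¹ * (R⁻¹ * (ε + s1 * s1 + (s1 * s1 + s1 * (s1 * -1)))) = R⁻¹ * R⁻¹ * R ^ 2 := by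
    rw [h.hR2]
    ring
  rw [h1]
  field_simp

theorem Btt (h : conf_space_data κ x v T T' P P' n n' t t' φ C E0 ε s1 s1' R c1 D D' dφ) :
    B κ t t = -1 := by
  rw [h.ht, B_sub_left, B_sub_right, B_sub_right, B_smul_left, B_smul_right, B_smul_left,
    B_smul_right, B_smul_left, B_smul_right, B_smul_left, B_smul_right, h.hTT, h.Bnn,
    B_comm T n, h.BnT]
  have := h.hD2
  nlinarith

theorem eG (h : conf_space_data κ x v T T' P P' n n' t t' φ C E0 ε s1 s1' R c1 D D' dφ) :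
    1 ≤ (Real.exp (2 * φ)) ^ 2 * Real.exp (4 * C) := by
  rw [← Real.exp_nat_mul, ← Real.exp_add]
  apply Real.one_le_exp
  have := (abs_le.1 h.hφ).1
  push_cast
  linarith

/-- the velocity in the frame of `T` -/
theorem N2v (h : conf_space_data κ x v T T' P P' n n' t t' φ C E0 ε s1 s1' R c1 D D' dφ) :
    N2 κ x T v ≤ Real.exp (4 * C) * (2 * R ^ 2) := by
  have he := h.eG
  have h1 : (Real.exp (2 * φ)) ^ 2 * N2 κ x T v = ε + 2 * s1 ^ 2 := by
    unfold N2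
    rw [tg_of_tan h.hv, h.hv, ← h.hPP, h.hs1, h.hP, B_smul_left, B_smul_right, B_smul_left]
    ring
  have h2 := N2_nonneg h.hκ h.hx h.hT h.hTT v
  have hR2 := h.hR2
  have hε0 := h.hε0
  calc N2 κ x T v = 1 * N2 κ x T v := (one_mul _).symm
    _ ≤ ((Real.exp (2 * φ)) ^ 2 * Real.exp (4 * C)) * N2 κ x T v :=
      mul_le_mul_of_nonneg_right he h2
    _ = Real.exp (4 * C) * (ε + 2 * s1 ^ 2) := by rw [← h1]; ring
    _ ≤ Real.exp (4 * C) * (2 * R ^ 2) := by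
      apply mul_le_mul_of_nonneg_left _ (Real.exp_nonneg _)
      linarith

theorem N2T' (h : conf_space_data κ x v T T' P P' n n' t t' φ C E0 ε s1 s1' R c1 D D' dφ) :
    N2 κ x T T' ≤ 2 * C * Real.exp (4 * C) * R ^ 2 := by
  refine h.hT'.trans ?_
  have := mul_le_mul_of_nonneg_left h.N2v h.hC
  linarith

theorem BPt (h : conf_space_data κ x v T T' P P' n n' t t' φ C E0 ε s1 s1' R c1 D D' dφ) :
    B κ P t = s1 * (D - R) := by
  have h1 : P = R • n - s1 • T := by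
    rw [← h.Rn]
    abel
  rw [h1, h.ht, B_sub_left, B_sub_right, B_sub_right, B_smul_left, B_smul_right, B_smul_left,
    B_smul_right, B_smul_left, B_smul_right, B_smul_left, B_smul_right, h.hTT, h.Bnn,
    B_comm T n, h.BnT]
  ring

theorem Bvt (h : conf_space_data κ x v T T' P P' n n' t t' φ C E0 ε s1 s1' R c1 D D' dφ) :
    (B κ v t) ^ 2 ≤ Real.exp (4 * C) * (1 - ε) ^ 2 := by
  have he := h.eG
  have h1 : (Real.exp (2 * φ)) ^ 2 * (B κ v t) ^ 2 = s1 ^ 2 * (D - R) ^ 2 := by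
    rw [← mul_pow, ← mul_pow, ← h.BPt, h.hP, B_smul_left]
  have h2 := conf_space_DR h.hD h.hR h.hD2 h.hR2
  have h3 : s1 ^ 2 * (D - R) ^ 2 ≤ (D - R) ^ 2 * R ^ 2 := by
    rw [mul_comm]
    apply mul_le_mul_of_nonneg_left _ (sq_nonneg _)
    rw [h.hR2]
    linarith [h.hε0]
  calc (B κ v t) ^ 2 = 1 * (B κ v t) ^ 2 := (one_mul _).symm
    _ ≤ ((Real.exp (2 * φ)) ^ 2 * Real.exp (4 * C)) * (B κ v t) ^ 2 :=
      mul_le_mul_of_nonneg_right he (sq_nonneg _)
    _ = Real.exp (4 * C) * (s1 ^ 2 * (D - R) ^ 2) := by rw [← h1]; ring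
    _ ≤ Real.exp (4 * C) * (1 - ε) ^ 2 :=
      mul_le_mul_of_nonneg_left (h3.trans h2) (Real.exp_nonneg _)

theorem Bvv (h : conf_space_data κ x v T T' P P' n n' t t' φ C E0 ε s1 s1' R c1 D D' dφ) :
    B κ v v ≤ Real.exp (4 * C) * ε := by
  have he := h.eG
  have h1 : (Real.exp (2 * φ)) ^ 2 * B κ v v = ε := by
    rw [← h.hPP, h.hP, B_smul_left, B_smul_right]
    ring
  have h2 : 0 ≤ B κ v v := by
    by_contra hcon
    push Not at hcon
    have := mul_neg_of_pos_of_neg (pow_pos (Real.exp_pos (2 * φ)) 2) hcon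
    linarith [h.hε0]
  calc B κ v v = 1 * B κ v v := (one_mul _).symm
    _ ≤ ((Real.exp (2 * φ)) ^ 2 * Real.exp (4 * C)) * B κ v v :=
      mul_le_mul_of_nonneg_right he h2
    _ = Real.exp (4 * C) * ε := by rw [← h1]; ring

theorem N2tv (h : conf_space_data κ x v T T' P P' n n' t t' φ C E0 ε s1 s1' R c1 D D' dφ) :
    N2 κ x t v ≤ Real.exp (4 * C) * ε + 2 * (Real.exp (4 * C) * (1 - ε) ^ 2) := by
  unfold N2
  rw [tg_of_tan h.hv, h.hv]
  have h1 := h.Bvv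
  have h2 := h.Bvt
  linarith

/-- components of the derivative of the frame orthogonal to the point -/
theorem BA (h : conf_space_data κ x v T T' P P' n n' t t' φ C E0 ε s1 s1' R c1 D D' dφ)
    {u : V m} (hu : Q κ x u = 0) : B κ (tg κ x t') u = B κ t' u := by
  have h2 := QB_zero h.hκ h.hx h.hv hu t
  unfold tg
  rw [B_sub_left, B_smul_left, h.ht'x, B_comm x u]
  linarith

theorem BAt (h : conf_space_data κ x v T T' P P' n n' t t' φ C E0 ε s1 s1' R c1 D D' dφ) :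
    B κ (tg κ x t') t = 0 := by
  rw [h.BA h.Qxt, h.ht't]

theorem BAn (h : conf_space_data κ x v T T' P P' n n' t t' φ C E0 ε s1 s1' R c1 D D' dφ) :
    B κ (tg κ x t') n = (D - R) * B κ T' n - E0 * dφ T := by
  have h1 : P = R • n - s1 • T := by
    rw [← h.Rn]
    abel
  have h2 : s1' = E0 * dφ T + R * B κ T' n := by
    rw [h.hs1', h.hP' T h.hT, h1, B_sub_left, B_smul_left, B_smul_left, B_comm T T', h.hT'T,
      B_comm n T']
    ring
  rw [h.BA h.Qxn, h.ht', B_sub_left, B_add_left, B_add_left, B_smul_left, B_smul_left,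
    B_smul_left, B_smul_left, h.hn'n, h.Bnn, B_comm T n, h.BnT, h2]
  ring

theorem BAn_sq (h : conf_space_data κ x v T T' P P' n n' t t' φ C E0 ε s1 s1' R c1 D D' dφ) :
    (B κ (tg κ x t') n) ^ 2 ≤
      2 * (2 * C * Real.exp (4 * C) * (1 - ε) ^ 2 + E0 ^ 2 * C) := by
  rw [h.BAn]
  have h1 : (B κ T' n) ^ 2 ≤ 2 * C * Real.exp (4 * C) * R ^ 2 := by
    have h2 := conf_space_cs h.hκ h.hx h.hv h.hT h.hTT h.hT'x h.Qxn
    have h3 : N2 κ x T n = 1 := by
      unfold N2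
      rw [tg_of_tan h.Qxn, h.Qxn, h.Bnn, h.BnT]
      ring
    rw [h3, mul_one] at h2
    exact h2.trans h.N2T'
  have h4 : (dφ T) ^ 2 ≤ C := by
    have h5 := h.hdφ T h.hT
    have h6 : N2 κ x T T = 1 := by
      unfold N2
      rw [tg_of_tan h.hT, h.hT, h.hTT]
      ring
    rwa [h6, mul_one] at h5
  have h7 := conf_space_DR h.hD h.hR h.hD2 h.hR2
  have hCG : 0 ≤ 2 * C * Real.exp (4 * C) := by
    have := h.hC
    positivity
  have h8 : (D - R) ^ 2 * (B κ T' n) ^ 2 ≤ 2 * C * Real.exp (4 * C) * (1 - ε) ^ 2 := by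
    calc (D - R) ^ 2 * (B κ T' n) ^ 2 ≤ (D - R) ^ 2 * (2 * C * Real.exp (4 * C) * R ^ 2) :=
          mul_le_mul_of_nonneg_left h1 (sq_nonneg _)
      _ = 2 * C * Real.exp (4 * C) * ((D - R) ^ 2 * R ^ 2) := by ring
      _ ≤ 2 * C * Real.exp (4 * C) * (1 - ε) ^ 2 := mul_le_mul_of_nonneg_left h7 hCG
  have h9 : E0 ^ 2 * (dφ T) ^ 2 ≤ E0 ^ 2 * C := mul_le_mul_of_nonneg_left h4 (sq_nonneg _)
  have h10 : ((D - R) * B κ T' n - E0 * dφ T) ^ 2 ≤
      2 * ((D - R) ^ 2 * (B κ T' n) ^ 2 + E0 ^ 2 * (dφ T) ^ 2) := by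
    have := sq_nonneg ((D - R) * B κ T' n + E0 * dφ T)
    nlinarith
  linarith

/-- the component orthogonal to `T` and `n` -/
theorem Bww (h : conf_space_data κ x v T T' P P' n n' t t' φ C E0 ε s1 s1' R c1 D D' dφ)
    {w : V m} (hw : Q κ x w = 0) (hwT : B κ w T = 0) (hwn : B κ w n = 0)
    (hww : B κ w w = B κ (tg κ x t') w) :
    B κ w w ≤ 2 * (2 * C * Real.exp (4 * C) * (1 + ε) ^ 2 + E0 ^ 2 * C) := by
  have hR := h.hR
  have hD := h.hD
  have hCG : 0 ≤ 2 * C * Real.exp (4 * C) := by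
    have := h.hC
    positivity
  have hN : N2 κ x T w = B κ w w := by
    unfold N2
    rw [tg_of_tan hw, hw, hwT]
    ring
  have hβ0 : 0 ≤ B κ w w := by
    rw [← hN]
    exact N2_nonneg h.hκ h.hx h.hT h.hTT w
  have h1 : R * B κ w w = (D * R - s1 ^ 2) * B κ T' w - s1 * (E0 * dφ w) := by
    have h2 : B κ n' w = R⁻¹ * (E0 * dφ w + s1 * B κ T' w) := by
      rw [h.hn', B_add_left, B_smul_left, B_smul_left, h.Rn, B_smul_left, B_add_left,
        B_add_left, B_smul_left, B_smul_left, h.hP' w hw, B_comm n w, hwn, B_comm T w, hwT]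
      ring
    rw [hww, h.BA hw, h.ht', B_sub_left, B_add_left, B_add_left, B_smul_left, B_smul_left,
      B_smul_left, B_smul_left, B_comm T w, hwT, B_comm n w, hwn, h2]
    field_simp
    ring
  have h3 : (B κ T' w) ^ 2 ≤ 2 * C * Real.exp (4 * C) * R ^ 2 * B κ w w := by
    have h4 := conf_space_cs h.hκ h.hx h.hv h.hT h.hTT h.hT'x hw
    rw [hN] at h4
    exact h4.trans (mul_le_mul_of_nonneg_right h.N2T' hβ0)
  have h5 : (dφ w) ^ 2 ≤ C * B κ w w := by
    have := h.hdφ w hw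
    rwa [hN] at this
  have hDR0 : 0 ≤ D * R - s1 ^ 2 := by
    by_contra hcon
    push Not at hcon
    have h6 : (D * R) ^ 2 < (s1 ^ 2) ^ 2 :=
      pow_lt_pow_left₀ (by linarith) (mul_pos hD hR).le two_ne_zero
    rw [mul_pow, h.hD2, h.hR2] at h6
    have := h.hε0
    nlinarith [sq_nonneg s1]
  have hDR1 : D * R - s1 ^ 2 ≤ 1 + ε := by
    have h6 := sq_nonneg (D - R)
    have h7 := h.hD2
    have h8 := h.hR2
    have := h.hε0
    nlinarith
  have hDR : (D * R - s1 ^ 2) ^ 2 ≤ (1 + ε) ^ 2 := pow_le_pow_left₀ hDR0 hDR1 2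
  have hs1R : s1 ^ 2 ≤ R ^ 2 := by
    rw [h.hR2]
    linarith [h.hε0]
  set β : ℝ := B κ w w with hβ
  have h9 : (R * β) ^ 2 ≤ 2 * ((D * R - s1 ^ 2) ^ 2 * (B κ T' w) ^ 2 +
      s1 ^ 2 * (E0 ^ 2 * (dφ w) ^ 2)) := by
    rw [h1]
    have := sq_nonneg ((D * R - s1 ^ 2) * B κ T' w + s1 * (E0 * dφ w))
    nlinarith
  have h10 : (D * R - s1 ^ 2) ^ 2 * (B κ T' w) ^ 2 ≤
      (1 + ε) ^ 2 * (2 * C * Real.exp (4 * C) * R ^ 2 * β) :=
    mul_le_mul hDR h3 (sq_nonneg _) (sq_nonneg _)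
  have h11 : s1 ^ 2 * (E0 ^ 2 * (dφ w) ^ 2) ≤ R ^ 2 * (E0 ^ 2 * (C * β)) := by
    apply mul_le_mul hs1R _ (by positivity) (sq_nonneg _)
    exact mul_le_mul_of_nonneg_left h5 (sq_nonneg _)
  set Kc : ℝ := 2 * (2 * C * Real.exp (4 * C) * (1 + ε) ^ 2 + E0 ^ 2 * C) with hKc
  have h12 : (R ^ 2) * (β * β) ≤ (R ^ 2) * (Kc * β) := by
    have h13 : (R ^ 2) * (β * β) = (R * β) ^ 2 := by ring
    have h14 : (R ^ 2) * (Kc * β) = 2 * ((1 + ε) ^ 2 * (2 * C * Real.exp (4 * C) * R ^ 2 * β) +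
      R ^ 2 * (E0 ^ 2 * (C * β))) := by
      rw [hKc]; ring
    rw [h13, h14]
    linarith
  have h15 : β * β ≤ Kc * β := le_of_mul_le_mul_left h12 (pow_pos hR 2)
  rcases hβ0.eq_or_lt with h16 | h16
  · rw [← h16]
    have := h.hC
    positivity
  · exact le_of_mul_le_mul_right h15 h16

theorem N2t' (h : conf_space_data κ x v T T' P P' n n' t t' φ C E0 ε s1 s1' R c1 D D' dφ) :
    N2 κ x t t' ≤ 4 * (2 * C * Real.exp (4 * C) * (1 + ε) ^ 2 + E0 ^ 2 * C) +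
      Real.exp (4 * C) * (1 - ε) ^ 2 := by
  have hCG : 0 ≤ 2 * C * Real.exp (4 * C) := by
    have := h.hC
    positivity
  have hε0 := h.hε0
  set A := tg κ x t' with hA
  have hQA : Q κ x A = 0 := Q_tg h.hx t'
  set p : V m := D • n - s1 • T with hp
  have hQp : Q κ x p = 0 := by
    rw [hp, Q_sub_right, Q_smul_right, Q_smul_right, h.Qxn, h.hT]
    ring
  have hpp : B κ p p = 1 := by
    rw [hp, B_sub_left, B_sub_right, B_sub_right, B_smul_left, B_smul_right, B_smul_left,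
      B_smul_right, B_smul_left, B_smul_right, B_smul_left, B_smul_right, h.hTT, h.Bnn,
      B_comm T n, h.BnT]
    have := h.hD2
    nlinarith
  have hpt : B κ p t = 0 := by
    rw [hp, h.ht, B_sub_left, B_sub_right, B_sub_right, B_smul_left, B_smul_right, B_smul_left,
      B_smul_right, B_smul_left, B_smul_right, B_smul_left, B_smul_right, h.hTT, h.Bnn,
      B_comm T n, h.BnT]
    ring
  have hnpt : n = D • p + s1 • t := by
    rw [hp, h.ht, smul_sub, smul_sub, smul_smul, smul_smul, smul_smul, smul_smul]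
    have h1 : (D * D) • n - (D * s1) • T + ((s1 * D) • T - (s1 * s1) • n) =
        (D ^ 2 - s1 ^ 2) • n := by
      rw [sub_smul, sq, sq, mul_comm s1 D]
      abel
    rw [h1, h.hD2]
    have h2 : (1 : ℝ) + s1 ^ 2 - s1 ^ 2 = 1 := by ring
    rw [h2, one_smul]
  set ζ : ℝ := B κ A p with hζ
  have hAt : B κ A t = 0 := h.BAt
  have hDζ : D * ζ = B κ A n := by
    rw [hnpt, B_add_right, B_smul_right, B_smul_right, hAt]
    ring
  have hζ2 : ζ ^ 2 ≤ 2 * (2 * C * Real.exp (4 * C) * (1 + ε) ^ 2 + E0 ^ 2 * C) := by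
    have h1 : ζ ^ 2 ≤ (D * ζ) ^ 2 := by
      rw [mul_pow, h.hD2]
      nlinarith [sq_nonneg ζ, mul_nonneg (sq_nonneg s1) (sq_nonneg ζ)]
    have h2 := h.BAn_sq
    rw [← hA, ← hDζ] at h2
    have h3 : (1 - ε) ^ 2 ≤ (1 + ε) ^ 2 := by nlinarith
    have h4 := mul_le_mul_of_nonneg_left h3 hCG
    linarith
  set w : V m := A - ζ • p with hw
  have hwt : B κ w t = 0 := by
    rw [hw, B_sub_left, B_smul_left, hAt, hpt]
    ring
  have hwp : B κ w p = 0 := by
    rw [hw, B_sub_left, B_smul_left, hpp, ← hζ]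
    ring
  have hwn : B κ w n = 0 := by
    rw [hnpt, B_add_right, B_smul_right, B_smul_right, hwt, hwp]
    ring
  have hwT : B κ w T = 0 := by
    have h1 : B κ w t = D * B κ w T - s1 * B κ w n := by
      rw [h.ht, B_sub_right, B_smul_right, B_smul_right]
    rw [hwt, hwn, mul_zero, sub_zero] at h1
    rcases mul_eq_zero.1 h1.symm with h2 | h2
    · exact absurd h2 h.hD.ne'
    · exact h2
  have hQw : Q κ x w = 0 := by
    rw [hw, Q_sub_right, Q_smul_right, hQA, hQp]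
    ring
  have hwA : B κ w w = B κ A w := by
    have h1 : B κ w w = B κ A w - ζ * B κ p w := by
      conv_lhs => rw [hw, B_sub_left, B_smul_left, ← hw]
    rw [h1, B_comm p w, hwp]
    ring
  have hAA : B κ A A = B κ w w + ζ ^ 2 := by
    have h1 : A = w + ζ • p := by
      rw [hw]
      abel
    rw [h1, B_add_left, B_add_right, B_add_right, B_smul_left, B_smul_right, B_smul_left,
      B_smul_right, B_comm p w, hwp, hpp]
    ring
  have hβ := h.Bww hQw hwT hwn hwA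
  have hQ : (Q κ x t') ^ 2 ≤ Real.exp (4 * C) * (1 - ε) ^ 2 := by
    rw [h.ht'x, Q_tan h.hκ h.hx h.hv t h.Qxt]
    have h1 := h.Bvt
    have h2 : (-(κ * B κ v t)) ^ 2 = κ ^ 2 * (B κ v t) ^ 2 := by ring
    rw [h2]
    have h3 : κ ^ 2 ≤ 1 := by
      rcases h.hκ with h4 | h4 | h4 <;> rw [h4] <;> norm_num
    have h4 := mul_le_mul_of_nonneg_right h3 (sq_nonneg (B κ v t))
    linarith
  unfold N2
  rw [← hA, hAA, hAt]
  linarith

end conf_space_data

end conf_space_pt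

theorem conf_space_basic {κ : ℝ} {m : ℕ} {x v T P n t : V m} {e ε s1 R D : ℝ}
    (hv : Q κ x v = 0) (hT : Q κ x T = 0) (hTT : B κ T T = -1) (hP : P = e • v)
    (hPP : B κ P P = ε) (hs1 : s1 = B κ P T) (hR : 0 < R) (hR2 : R ^ 2 = ε + s1 ^ 2)
    (hD2 : D ^ 2 = 1 + s1 ^ 2) (hn : n = R⁻¹ • (P + s1 • T)) (ht : t = D • T - s1 • n) :
    B κ n n = 1 ∧ B κ t t = -1 ∧ Q κ x t = 0 := by
  have QxP : Q κ x P = 0 := by rw [hP, Q_smul_right, hv, mul_zero]
  have Qxn : Q κ x n = 0 := by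
    rw [hn, Q_smul_right, Q_add_right, Q_smul_right, QxP, hT]
    ring
  have Qxt : Q κ x t = 0 := by
    rw [ht, Q_sub_right, Q_smul_right, Q_smul_right, Qxn, hT]
    ring
  have BnT : B κ n T = 0 := by
    rw [hn, B_smul_left, B_add_left, B_smul_left, ← hs1, hTT]
    ring
  have Bnn : B κ n n = 1 := by
    rw [hn, B_smul_left, B_smul_right, B_add_left, B_add_right, B_add_right, B_smul_left,
      B_smul_right, B_smul_left, B_smul_right, B_comm T P, ← hs1, hTT, hPP]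
    have h1 : R⁻¹ * (R⁻¹ * (ε + s1 * s1 + (s1 * s1 + s1 * (s1 * -1)))) = R⁻¹ * R⁻¹ * R ^ 2 := by
      rw [hR2]
      ring
    rw [h1]
    field_simp
  have Btt : B κ t t = -1 := by
    rw [ht, B_sub_left, B_sub_right, B_sub_right, B_smul_left, B_smul_right, B_smul_left,
      B_smul_right, B_smul_left, B_smul_right, B_smul_left, B_smul_right, hTT, Bnn,
      B_comm T n, BnT]
    nlinarith
  exact ⟨Bnn, Btt, Qxt⟩


/-- Spacelike geodesics of a conformal metric: the velocity stays bounded on bounded intervals. -/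
theorem conf_space {κ : ℝ} {m : ℕ} (hκ : κ = -1 ∨ κ = 0 ∨ κ = 1) {a b : ℝ} (hab : a < b)
    (x v acc T T' : ℝ → V m) (φ : ℝ → ℝ) (dφ : ℝ → V m →L[ℝ] ℝ) (C : ℝ)
    (hx : ∀ s ∈ Ico a b, x s ∈ X κ m) (hxd : ∀ s ∈ Ico a b, HasDerivAt x (v s) s)
    (hv : ∀ s ∈ Ico a b, Q κ (x s) (v s) = 0)
    (hvd : ∀ s ∈ Ico a b, HasDerivAt v (acc s) s)
    (hT : ∀ s ∈ Ico a b, Q κ (x s) (T s) = 0) (hTT : ∀ s ∈ Ico a b, B κ (T s) (T s) = -1)
    (hTd : ∀ s ∈ Ico a b, HasDerivAt T (T' s) s)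
    (hφd : ∀ s ∈ Ico a b, HasDerivAt φ (dφ s (v s)) s) (hφ : ∀ s ∈ Ico a b, |φ s| ≤ C)
    (geo : ∀ s ∈ Ico a b, ∀ w, Q κ (x s) w = 0 →
      B κ (acc s) w + 2 * dφ s (v s) * B κ (v s) w = B κ (v s) (v s) * dφ s w)
    (hdφ : ∀ s ∈ Ico a b, ∀ w, Q κ (x s) w = 0 → (dφ s w) ^ 2 ≤ C * N2 κ (x s) (T s) w)
    (hT' : ∀ s ∈ Ico a b, N2 κ (x s) (T s) (T' s) ≤ C * N2 κ (x s) (T s) (v s))
    (hspace : 0 < B κ (v a) (v a)) :
    ∃ M : ℝ, ∀ s ∈ Ico a b, ‖v s‖ ≤ M := by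
  have hC0 : 0 ≤ C := (abs_nonneg _).trans (hφ a ⟨le_rfl, hab⟩)
  set E0 : ℝ := Real.exp (2 * φ a) * B κ (v a) (v a) with hE0
  have hE0pos : 0 < E0 := mul_pos (Real.exp_pos _) hspace
  -- conservation of the energy
  have hexpd : ∀ s ∈ Ico a b, HasDerivAt (fun s => Real.exp (2 * φ s))
      (Real.exp (2 * φ s) * (2 * dφ s (v s))) s := fun s hs =>
    ((hφd s hs).const_mul 2).exp
  have hEd : ∀ s ∈ Ico a b, HasDerivAt (fun s => Real.exp (2 * φ s) * B κ (v s) (v s)) 0 s := by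
    intro s hs
    have h1 := (hexpd s hs).mul (conf_space_dB (κ := κ) (hvd s hs) (hvd s hs))
    have h2 := geo s hs (v s) (hv s hs)
    have h3 : Real.exp (2 * φ s) * (2 * dφ s (v s)) * B κ (v s) (v s) +
        Real.exp (2 * φ s) * (B κ (acc s) (v s) + B κ (v s) (acc s)) = 0 := by
      rw [B_comm (v s) (acc s)]
      have h4 : B κ (acc s) (v s) = B κ (v s) (v s) * dφ s (v s) -
          2 * dφ s (v s) * B κ (v s) (v s) := by linarith
      rw [h4]
      ring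
    rw [h3] at h1
    exact h1
  have hE : ∀ s ∈ Ico a b, Real.exp (2 * φ s) * B κ (v s) (v s) = E0 := by
    intro s hs
    have hsub : Icc a s ⊆ Ico a b := fun u hu => ⟨hu.1, hu.2.trans_lt hs.2⟩
    exact constant_of_has_deriv_right_zero
      (fun u hu => (hEd u (hsub hu)).continuousAt.continuousWithinAt)
      (fun u hu => (hEd u (hsub (Ico_subset_Icc_self hu))).hasDerivWithinAt) s
      (right_mem_Icc.2 hs.1)
  -- the auxiliary functions
  set P : ℝ → V m := fun s => Real.exp (2 * φ s) • v s with hPdef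
  set P' : ℝ → V m := fun s =>
    Real.exp (2 * φ s) • acc s + (Real.exp (2 * φ s) * (2 * dφ s (v s))) • v s with hP'def
  set ε : ℝ → ℝ := fun s => Real.exp (2 * φ s) * E0 with hεdef
  set s1 : ℝ → ℝ := fun s => B κ (P s) (T s) with hs1def
  set s1' : ℝ → ℝ := fun s => B κ (P' s) (T s) + B κ (P s) (T' s) with hs1'def
  set R : ℝ → ℝ := fun s => Real.sqrt (ε s + s1 s ^ 2) with hRdef
  set D : ℝ → ℝ := fun s => Real.sqrt (1 + s1 s ^ 2) with hDdef
  set R' : ℝ → ℝ := fun s => (Real.exp (2 * φ s) * (2 * dφ s (v s)) * E0 +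
    2 * s1 s ^ (2 - 1) * s1' s) / (2 * Real.sqrt (ε s + s1 s ^ 2)) with hR'def
  set D' : ℝ → ℝ := fun s => (2 * s1 s ^ (2 - 1) * s1' s) /
    (2 * Real.sqrt (1 + s1 s ^ 2)) with hD'def
  set n : ℝ → V m := fun s => (R s)⁻¹ • (P s + s1 s • T s) with hndef
  set n' : ℝ → V m := fun s => (R s)⁻¹ • (P' s + (s1 s • T' s + s1' s • T s)) +
    (-R' s / R s ^ 2) • (P s + s1 s • T s) with hn'def
  set t : ℝ → V m := fun s => D s • T s - s1 s • n s with htdef
  set t' : ℝ → V m := fun s => (D s • T' s + D' s • T s) - (s1 s • n' s + s1' s • n s) with ht'def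
  have hεpos : ∀ s, 0 < ε s := fun s => mul_pos (Real.exp_pos _) hE0pos
  have hRarg : ∀ s, 0 < ε s + s1 s ^ 2 := fun s => by
    have := hεpos s
    positivity
  have hDarg : ∀ s, 0 < 1 + s1 s ^ 2 := fun s => by positivity
  have hRpos : ∀ s, 0 < R s := fun s => Real.sqrt_pos.2 (hRarg s)
  have hDpos : ∀ s, 0 < D s := fun s => Real.sqrt_pos.2 (hDarg s)
  have hR2 : ∀ s, R s ^ 2 = ε s + s1 s ^ 2 := fun s => Real.sq_sqrt (hRarg s).le
  have hD2 : ∀ s, D s ^ 2 = 1 + s1 s ^ 2 := fun s => Real.sq_sqrt (hDarg s).le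
  have hPd : ∀ s ∈ Ico a b, HasDerivAt P (P' s) s := fun s hs => (hexpd s hs).smul (hvd s hs)
  have hs1d : ∀ s ∈ Ico a b, HasDerivAt s1 (s1' s) s := fun s hs =>
    conf_space_dB (hPd s hs) (hTd s hs)
  have hRd : ∀ s ∈ Ico a b, HasDerivAt R (R' s) s := fun s hs =>
    (((hexpd s hs).mul_const E0).add ((hs1d s hs).pow 2)).sqrt (hRarg s).ne'
  have hDd : ∀ s ∈ Ico a b, HasDerivAt D (D' s) s := fun s hs =>
    (((hs1d s hs).pow 2).const_add 1).sqrt (hDarg s).ne'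
  have hnd : ∀ s ∈ Ico a b, HasDerivAt n (n' s) s := fun s hs =>
    ((hRd s hs).inv (hRpos s).ne').smul ((hPd s hs).add ((hs1d s hs).smul (hTd s hs)))
  have htd : ∀ s ∈ Ico a b, HasDerivAt t (t' s) s := fun s hs =>
    ((hDd s hs).smul (hTd s hs)).sub ((hs1d s hs).smul (hnd s hs))
  have hPP : ∀ s ∈ Ico a b, B κ (P s) (P s) = ε s := by
    intro s hs
    show B κ (Real.exp (2 * φ s) • v s) (Real.exp (2 * φ s) • v s) = Real.exp (2 * φ s) * E0
    rw [B_smul_left, B_smul_right, hE s hs]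
  have hbasic : ∀ s ∈ Ico a b, B κ (n s) (n s) = 1 ∧ B κ (t s) (t s) = -1 ∧
      Q κ (x s) (t s) = 0 := fun s hs =>
    conf_space_basic (hv s hs) (hT s hs) (hTT s hs) rfl (hPP s hs) rfl (hRpos s) (hR2 s)
      (hD2 s) rfl rfl
  have hdata : ∀ s ∈ Ico a b, conf_space_data κ (x s) (v s) (T s) (T' s) (P s) (P' s) (n s)
      (n' s) (t s) (t' s) (φ s) C E0 (ε s) (s1 s) (s1' s) (R s) (-R' s / R s ^ 2) (D s) (D' s)
      (dφ s) := by
    intro s hs
    refine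
      { hκ := hκ, hx := hx s hs, hv := hv s hs, hT := hT s hs, hTT := hTT s hs, hT'x := ?_,
        hT'T := ?_, hP := rfl, hPP := hPP s hs, hP' := ?_, hs1 := rfl, hs1' := rfl,
        hR := hRpos s, hR2 := hR2 s, hD := hDpos s, hD2 := hD2 s, hn := rfl, hn' := rfl,
        ht := rfl, ht' := rfl, hn'n := ?_, ht't := ?_, ht'x := ?_, hC := hC0, hφ := hφ s hs,
        hdφ := hdφ s hs, hT' := hT' s hs, hE0 := hE0pos, hε0 := hεpos s, hε := ?_ }
    · have := conf_space_const hs (conf_space_dQ (κ := κ) (hxd s hs) (hTd s hs)) hT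
      linarith
    · have := conf_space_const hs (conf_space_dB (κ := κ) (hTd s hs) (hTd s hs)) hTT
      rw [B_comm (T s) (T' s)] at this
      linarith
    · intro w hw
      show B κ (Real.exp (2 * φ s) • acc s + (Real.exp (2 * φ s) * (2 * dφ s (v s))) • v s) w = _
      rw [B_add_left, B_smul_left, B_smul_left, ← hE s hs]
      have h4 := geo s hs w hw
      have h5 : B κ (acc s) w = B κ (v s) (v s) * dφ s w - 2 * dφ s (v s) * B κ (v s) w := by
        linarith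
      rw [h5]
      ring
    · have := conf_space_const hs (conf_space_dB (κ := κ) (hnd s hs) (hnd s hs))
        (fun u hu => (hbasic u hu).1)
      rw [B_comm (n s) (n' s)] at this
      linarith
    · have := conf_space_const hs (conf_space_dB (κ := κ) (htd s hs) (htd s hs))
        (fun u hu => (hbasic u hu).2.1)
      rw [B_comm (t s) (t' s)] at this
      linarith
    · have := conf_space_const hs (conf_space_dQ (κ := κ) (hxd s hs) (htd s hs))
        (fun u hu => (hbasic u hu).2.2)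
      linarith
    · apply mul_le_mul_of_nonneg_right _ hE0pos.le
      apply Real.exp_le_exp.2
      have := (abs_le.1 (hφ s hs)).2
      linarith
  -- uniform bounds
  set Em : ℝ := Real.exp (2 * C) * E0 with hEm
  have hEm0 : 0 < Em := mul_pos (Real.exp_pos _) hE0pos
  have hCG : 0 ≤ 2 * C * Real.exp (4 * C) := by positivity
  set K1 : ℝ := 4 * (2 * C * Real.exp (4 * C) * (1 + Em) ^ 2 + E0 ^ 2 * C) +
      Real.exp (4 * C) * (1 + Em) ^ 2 with hK1
  set K2 : ℝ := Real.exp (4 * C) * Em + 2 * (Real.exp (4 * C) * (1 + Em) ^ 2) with hK2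
  have hK10 : 0 ≤ K1 := by positivity
  have hK20 : 0 ≤ K2 := by positivity
  have hb1 : ∀ s ∈ Ico a b, N2 κ (x s) (t s) (t' s) ≤ K1 := by
    intro s hs
    have hd := hdata s hs
    have h1 := hd.N2t'
    have h2 : (1 + ε s) ^ 2 ≤ (1 + Em) ^ 2 :=
      pow_le_pow_left₀ (by linarith [hd.hε0]) (by linarith [hd.hε]) 2
    have h3 : (1 - ε s) ^ 2 ≤ (1 + Em) ^ 2 := by
      refine le_trans ?_ h2
      nlinarith [hd.hε0]
    have h4 := mul_le_mul_of_nonneg_left h2 hCG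
    have h5 := mul_le_mul_of_nonneg_left h3 (Real.exp_nonneg (4 * C))
    linarith
  have hb2 : ∀ s ∈ Ico a b, N2 κ (x s) (t s) (v s) ≤ K2 := by
    intro s hs
    have hd := hdata s hs
    have h1 := hd.N2tv
    have h2 : (1 + ε s) ^ 2 ≤ (1 + Em) ^ 2 :=
      pow_le_pow_left₀ (by linarith [hd.hε0]) (by linarith [hd.hε]) 2
    have h3 : (1 - ε s) ^ 2 ≤ (1 + Em) ^ 2 := by
      refine le_trans ?_ h2
      nlinarith [hd.hε0]
    have h4 := mul_le_mul_of_nonneg_left hd.hε (Real.exp_nonneg (4 * C))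
    have h5 := mul_le_mul_of_nonneg_left h3 (Real.exp_nonneg (4 * C))
    linarith
  obtain ⟨M, hM⟩ := frame_bound hκ hab x t v t' hx (fun s hs => (hbasic s hs).2.2)
    (fun s hs => (hbasic s hs).2.1) hxd hv htd
    (fun s hs => by
      rw [(hdata s hs).ht'x, Q_tan hκ (hx s hs) (hv s hs) (t s) (hbasic s hs).2.2]
      ring)
    (max K1 K2) (fun s hs => (hb2 s hs).trans (le_max_right _ _))
    (fun s hs => (hb1 s hs).trans (le_max_left _ _))
  refine ⟨Real.sqrt (|M| * K2), fun s hs => ?_⟩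
  apply Real.le_sqrt_of_sq_le
  have h1 := hM s hs (v s)
  have h2 : 0 ≤ N2 κ (x s) (t s) (v s) :=
    N2_nonneg hκ (hx s hs) (hbasic s hs).2.2 (hbasic s hs).2.1 (v s)
  calc ‖v s‖ ^ 2 ≤ M * N2 κ (x s) (t s) (v s) := h1
    _ ≤ |M| * N2 κ (x s) (t s) (v s) := mul_le_mul_of_nonneg_right (le_abs_self M) h2
    _ ≤ |M| * K2 := mul_le_mul_of_nonneg_left (hb2 s hs) (abs_nonneg M)

end Pool.Agent.Helper107.LC
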