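import Mathlib
import Pool.Agent.Helper107.LC.Frame
set_option autoImplicit false
open Set Filter Topology
open scoped ContDiff

namespace Pool.Agent.Helper107.LC

theorem cf_fst {m : ℕ} {f : ℝ → V m} {f' : V m} {s : ℝ} (hf : HasDerivAt f f' s) :
    HasDerivAt (fun s => (f s).1) f'.1 s :=
  (ContinuousLinearMap.fst ℝ ℝ (E m × ℝ)).hasFDerivAt.comp_hasDerivAt s hf

theorem cf_snd1 {m : ℕ} {f : ℝ → V m} {f' : V m} {s : ℝ} (hf : HasDerivAt f f' s) :
    HasDerivAt (fun s => (f s).2.1) f'.2.1 s :=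
  ((ContinuousLinearMap.fst ℝ (E m) ℝ).comp
    (ContinuousLinearMap.snd ℝ ℝ (E m × ℝ))).hasFDerivAt.comp_hasDerivAt s hf

theorem cf_snd2 {m : ℕ} {f : ℝ → V m} {f' : V m} {s : ℝ} (hf : HasDerivAt f f' s) :
    HasDerivAt (fun s => (f s).2.2) f'.2.2 s :=
  ((ContinuousLinearMap.snd ℝ (E m) ℝ).comp
    (ContinuousLinearMap.snd ℝ ℝ (E m × ℝ))).hasFDerivAt.comp_hasDerivAt s hf

theorem cf_derB (κ : ℝ) {m : ℕ} {f g : ℝ → V m} {f' g' : V m} {s : ℝ} (hf : HasDerivAt f f' s)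
    (hg : HasDerivAt g g' s) :
    HasDerivAt (fun s => B κ (f s) (g s)) (B κ f' (g s) + B κ (f s) g') s := by
  have h1 := ((cf_fst hf).mul (cf_fst hg)).neg
  have h2 := (cf_snd1 hf).inner ℝ (cf_snd1 hg)
  have h3 := ((cf_snd2 hf).mul (cf_snd2 hg)).const_mul κ
  refine ((h1.add h2).add h3).congr_deriv ?_
  simp only [B]
  ring

theorem cf_derQ (κ : ℝ) {m : ℕ} {f g : ℝ → V m} {f' g' : V m} {s : ℝ} (hf : HasDerivAt f f' s)
    (hg : HasDerivAt g g' s) :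
    HasDerivAt (fun s => Q κ (f s) (g s)) (Q κ f' (g s) + Q κ (f s) g') s := by
  have h1 := ((cf_fst hf).mul (cf_fst hg)).neg
  have h2 := (cf_snd1 hf).inner ℝ (cf_snd1 hg)
  have h3 := (cf_snd2 hf).mul (cf_snd2 hg)
  refine (((h1.add h2).const_mul κ).add h3).congr_deriv ?_
  simp only [Q]
  ring

theorem cf_const {f : ℝ → ℝ} {f' c a b s : ℝ} (hs : s ∈ Ico a b) (hf : HasDerivAt f f' s)
    (hc : ∀ r ∈ Ico a b, f r = c) : f' = 0 := by
  have h1 : HasDerivWithinAt f f' (Ico s b) s := hf.hasDerivWithinAt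
  have h2 : HasDerivWithinAt f 0 (Ico s b) s :=
    (hasDerivWithinAt_const s _ c).congr (fun r hr => hc r ⟨hs.1.trans hr.1, hr.2⟩) (hc s hs)
  exact (uniqueDiffOn_Ico s b s ⟨le_rfl, hs.2⟩).eq_deriv _ h1 h2

/-- pointwise bound for the velocity of the frame -/
theorem cf_point {κ : ℝ} {m : ℕ} (hκ : κ = -1 ∨ κ = 0 ∨ κ = 1) {x v T T' P P' : V m} {l l' : ℝ}
    (hx : x ∈ X κ m) (hv : Q κ x v = 0) (hT : Q κ x T = 0) (hTT : B κ T T = -1)
    (hPv : Q κ x P' = -Q κ v P) (df : V m →L[ℝ] ℝ) (E0 C : ℝ) (hC : 0 ≤ C)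
    (hdf : ∀ w, Q κ x w = 0 → (df w) ^ 2 ≤ C * N2 κ x T w)
    (hP' : ∀ w, Q κ x w = 0 → B κ P' w = E0 * df w) (ht : Q κ x (P + l • T) = 0)
    (ht' : Q κ x (P' + (l • T' + l' • T)) = -κ * B κ v (P + l • T))
    (htt' : B κ (P' + (l • T' + l' • T)) (P + l • T) = 0) :
    N2 κ x (P + l • T) (P' + (l • T' + l' • T)) ≤
      2 * (E0 ^ 2 * C) + 2 * (l ^ 2 * N2 κ x T T') + (κ * B κ v (P + l • T)) ^ 2 := by
  obtain ⟨t, htd⟩ : ∃ t, t = P + l • T := ⟨_, rfl⟩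
  obtain ⟨t', ht'd⟩ : ∃ t', t' = P' + (l • T' + l' • T) := ⟨_, rfl⟩
  rw [← htd] at ht ht' htt' ⊢
  rw [← ht'd] at ht' htt' ⊢
  have hx1 : Q κ x x = 1 := hx
  have hTneg : B κ T T < 0 := by rw [hTT]; norm_num
  -- the tangential part of `t'`
  obtain ⟨A, hA⟩ : ∃ A, A = tg κ x t' := ⟨_, rfl⟩
  have hQvt : Q κ v t = κ * B κ v t := Q_tan hκ hx hv t ht
  have hAt : B κ A t = 0 := by
    have h1 := QB_zero hκ hx hv ht t
    rw [hA, tg, B_sub_left, B_smul_left, htt', ht', B_comm x t]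
    rw [hQvt] at h1
    linarith
  obtain ⟨G, hG⟩ : ∃ G, G = tg κ x P' := ⟨_, rfl⟩
  obtain ⟨T1, hT1⟩ : ∃ T1, T1 = tg κ x T' := ⟨_, rfl⟩
  have hQG : Q κ x G = 0 := by rw [hG]; exact Q_tg hx _
  have hQT1 : Q κ x T1 = 0 := by rw [hT1]; exact Q_tg hx _
  have hAdec : A = G + l • T1 + l' • T := by
    rw [hA, hG, hT1, ht'd]
    simp only [tg, Q_add_right, Q_smul_right, hT]
    module
  obtain ⟨Gs, hGs⟩ : ∃ Gs, Gs = G + B κ G T • T := ⟨_, rfl⟩
  obtain ⟨Ts, hTs⟩ : ∃ Ts, Ts = T1 + B κ T1 T • T := ⟨_, rfl⟩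
  have hQGs : Q κ x Gs = 0 := by rw [hGs, Q_add_right, Q_smul_right, hQG, hT]; ring
  have hQTs : Q κ x Ts = 0 := by rw [hTs, Q_add_right, Q_smul_right, hQT1, hT]; ring
  have hGsT : B κ Gs T = 0 := by rw [hGs, B_add_left, B_smul_left, hTT]; ring
  have hTsT : B κ Ts T = 0 := by rw [hTs, B_add_left, B_smul_left, hTT]; ring
  have hA' : A + B κ A T • T = Gs + l • Ts := by
    rw [hGs, hTs, hAdec]
    simp only [B_add_left, B_smul_left, hTT]
    module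
  have hAA : B κ A A ≤ B κ (Gs + l • Ts) (Gs + l • Ts) := by
    rw [← hA']
    simp only [B_add_left, B_add_right, B_smul_left, B_smul_right, hTT, B_comm T A]
    nlinarith [sq_nonneg (B κ A T)]
  have hpar : B κ (Gs + l • Ts) (Gs + l • Ts) ≤ 2 * B κ Gs Gs + 2 * (l ^ 2 * B κ Ts Ts) := by
    have h1 : 0 ≤ B κ (Gs - l • Ts) (Gs - l • Ts) := by
      refine B_nonneg_of_orth hκ hx hT hTneg ?_ ?_
      · rw [Q_sub_right, Q_smul_right, hQGs, hQTs]; ring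
      · rw [B_sub_left, B_smul_left, hGsT, hTsT]; ring
    simp only [B_add_left, B_add_right, B_sub_left, B_sub_right, B_smul_left, B_smul_right,
      B_comm Ts Gs] at h1 ⊢
    nlinarith
  have hg0 : 0 ≤ B κ Gs Gs := B_nonneg_of_orth hκ hx hT hTneg hQGs hGsT
  have hg1 : B κ Gs Gs = E0 * df Gs := by
    have h1 : B κ Gs Gs = B κ G Gs := by
      have h2 : B κ Gs Gs = B κ G Gs + B κ G T * B κ T Gs := by
        conv_lhs => rw [hGs, B_add_left, B_smul_left, ← hGs]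
      rw [h2, B_comm T Gs, hGsT]; ring
    have h3 := QB_zero hκ hx hv hQGs P
    rw [h1, hG, tg, B_sub_left, B_smul_left, hPv, hP' Gs hQGs, B_comm x Gs]
    linarith
  have hN2Gs : N2 κ x T Gs = B κ Gs Gs := by
    rw [N2, tg_of_tan hQGs, hGsT, hQGs]; ring
  have hg2 : B κ Gs Gs ≤ E0 ^ 2 * C := by
    have h1 := hdf Gs hQGs
    rw [hN2Gs] at h1
    by_cases hz : B κ Gs Gs = 0
    · rw [hz]; positivity
    · have hpos : 0 < B κ Gs Gs := lt_of_le_of_ne hg0 (Ne.symm hz)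
      have h2 : B κ Gs Gs * B κ Gs Gs ≤ (E0 ^ 2 * C) * B κ Gs Gs := by
        calc B κ Gs Gs * B κ Gs Gs = E0 ^ 2 * (df Gs) ^ 2 := by rw [hg1]; ring
          _ ≤ E0 ^ 2 * (C * B κ Gs Gs) := mul_le_mul_of_nonneg_left h1 (sq_nonneg _)
          _ = _ := by ring
      exact le_of_mul_le_mul_right h2 hpos
  have hTs2 : B κ Ts Ts ≤ N2 κ x T T' := by
    rw [N2, ← hT1, hTs]
    simp only [B_add_left, B_add_right, B_smul_left, B_smul_right, hTT, B_comm T T1]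
    nlinarith [sq_nonneg (B κ T1 T), sq_nonneg (Q κ x T')]
  have hfin : N2 κ x t t' = B κ A A + (κ * B κ v t) ^ 2 := by
    rw [N2, ← hA, hAt, ht']; ring
  rw [hfin]
  have h9 : l ^ 2 * B κ Ts Ts ≤ l ^ 2 * N2 κ x T T' :=
    mul_le_mul_of_nonneg_left hTs2 (sq_nonneg _)
  linarith

theorem conf_time_aux {κ : ℝ} {m : ℕ} (hκ : κ = -1 ∨ κ = 0 ∨ κ = 1) {a b : ℝ} (hab : a < b)
    (x v acc T T' : ℝ → V m) (φ : ℝ → ℝ) (dφ : ℝ → V m →L[ℝ] ℝ) (C : ℝ)
    (hx : ∀ s ∈ Ico a b, x s ∈ X κ m) (hxd : ∀ s ∈ Ico a b, HasDerivAt x (v s) s)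
    (hv : ∀ s ∈ Ico a b, Q κ (x s) (v s) = 0)
    (hvd : ∀ s ∈ Ico a b, HasDerivAt v (acc s) s)
    (hT : ∀ s ∈ Ico a b, Q κ (x s) (T s) = 0) (hTT : ∀ s ∈ Ico a b, B κ (T s) (T s) = -1)
    (hTd : ∀ s ∈ Ico a b, HasDerivAt T (T' s) s)
    (hφd : ∀ s ∈ Ico a b, HasDerivAt φ (dφ s (v s)) s) (hφ : ∀ s ∈ Ico a b, |φ s| ≤ C)
    (geo : ∀ s ∈ Ico a b, ∀ w, Q κ (x s) w = 0 →
      B κ (acc s) w + 2 * dφ s (v s) * B κ (v s) w = B κ (v s) (v s) * dφ s w)
    (hdφ : ∀ s ∈ Ico a b, ∀ w, Q κ (x s) w = 0 → (dφ s w) ^ 2 ≤ C * N2 κ (x s) (T s) w)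
    (hT' : ∀ s ∈ Ico a b, N2 κ (x s) (T s) (T' s) ≤ C * N2 κ (x s) (T s) (v s))
    (E0 : ℝ) (hE0 : E0 < 0)
    (hE : ∀ s ∈ Ico a b, Real.exp (2 * φ s) * B κ (v s) (v s) = E0)
    (hneg : ∀ s ∈ Ico a b, B κ (v s) (T s) < 0) :
    ∃ M : ℝ, ∀ s ∈ Ico a b, ‖v s‖ ≤ M := by
  have hC : 0 ≤ C := (abs_nonneg _).trans (hφ a ⟨le_rfl, hab⟩)
  obtain ⟨P, hPdef⟩ : ∃ P : ℝ → V m, P = fun s => Real.exp (2 * φ s) • v s := ⟨_, rfl⟩
  obtain ⟨P', hP'def⟩ : ∃ P' : ℝ → V m, P' = fun s => Real.exp (2 * φ s) • acc s +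
    (Real.exp (2 * φ s) * (2 * dφ s (v s))) • v s := ⟨_, rfl⟩
  have hPd : ∀ s ∈ Ico a b, HasDerivAt P (P' s) s := by
    intro s hs
    rw [hPdef, hP'def]
    exact (((hφd s hs).const_mul 2).exp).smul (hvd s hs)
  have hPQ : ∀ s ∈ Ico a b, Q κ (x s) (P s) = 0 := by
    intro s hs
    rw [hPdef]
    simp only [Q_smul_right, hv s hs, mul_zero]
  have hP'w : ∀ s ∈ Ico a b, ∀ w, Q κ (x s) w = 0 → B κ (P' s) w = E0 * dφ s w := by
    intro s hs w hw
    have h1 := geo s hs w hw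
    rw [hP'def, ← hE s hs]
    simp only [B_add_left, B_smul_left]
    linear_combination Real.exp (2 * φ s) * h1
  obtain ⟨ep, hep⟩ : ∃ ep : ℝ → ℝ, ep = fun s => -(E0 * Real.exp (2 * φ s)) := ⟨_, rfl⟩
  have hepd : ∀ s ∈ Ico a b, ∃ e', HasDerivAt ep e' s := by
    intro s hs
    rw [hep]
    exact ⟨_, ((((hφd s hs).const_mul 2).exp).const_mul E0).neg⟩
  have heppos : ∀ s, 0 < ep s := by
    intro s
    rw [hep]
    have := mul_neg_of_neg_of_pos hE0 (Real.exp_pos (2 * φ s))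
    simp only
    linarith
  have hPP : ∀ s ∈ Ico a b, B κ (P s) (P s) = -ep s := by
    intro s hs
    rw [hPdef, hep]
    simp only [B_smul_left, B_smul_right]
    have := hE s hs
    linear_combination Real.exp (2 * φ s) * this
  obtain ⟨P0, hP0⟩ : ∃ P0 : ℝ → ℝ, P0 = fun s => -B κ (P s) (T s) := ⟨_, rfl⟩
  have hP0d : ∀ s ∈ Ico a b, ∃ e', HasDerivAt P0 e' s := by
    intro s hs
    rw [hP0]
    exact ⟨_, (cf_derB κ (hPd s hs) (hTd s hs)).neg⟩
  have hPT : ∀ s, B κ (P s) (T s) = -P0 s := by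
    intro s
    rw [hP0]
    ring
  have hP0v : ∀ s, P0 s = Real.exp (2 * φ s) * -B κ (v s) (T s) := by
    intro s
    rw [hP0, hPdef]
    simp only [B_smul_left]
    ring
  have hP0pos : ∀ s ∈ Ico a b, 0 < P0 s := by
    intro s hs
    rw [hP0v]
    exact mul_pos (Real.exp_pos _) (neg_pos.2 (hneg s hs))
  have hP0sq : ∀ s ∈ Ico a b, ep s ≤ P0 s ^ 2 := by
    intro s hs
    have he := heppos s
    have hsq : Real.sqrt (ep s) * Real.sqrt (ep s) = ep s := Real.mul_self_sqrt he.le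
    have hsq0 : Real.sqrt (ep s) ≠ 0 := (Real.sqrt_pos.2 he).ne'
    have h1 := one_le_sq_B hκ (hx s hs) (hT s hs) (hTT s hs)
      (u := (Real.sqrt (ep s))⁻¹ • P s) (by rw [Q_smul_right, hPQ s hs, mul_zero]) (by
        rw [B_smul_left, B_smul_right, hPP s hs]
        field_simp
        rw [pow_two, hsq])
    rw [B_smul_left, hPT] at h1
    have h2 : ((Real.sqrt (ep s))⁻¹ * -P0 s) ^ 2 = P0 s ^ 2 / ep s := by
      rw [mul_pow, inv_pow, pow_two (Real.sqrt (ep s)), hsq]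
      field_simp
    rw [h2, le_div_iff₀ he, one_mul] at h1
    exact h1
  obtain ⟨D, hD⟩ : ∃ D : ℝ → ℝ, D = fun s => Real.sqrt (P0 s ^ 2 - ep s + 1) := ⟨_, rfl⟩
  have hDsq : ∀ s ∈ Ico a b, D s * D s = P0 s ^ 2 - ep s + 1 := by
    intro s hs
    rw [hD]
    exact Real.mul_self_sqrt (by linarith [hP0sq s hs])
  have hD1 : ∀ s ∈ Ico a b, 1 ≤ D s := by
    intro s hs
    rw [hD]
    simp only
    rw [Real.le_sqrt (by norm_num) (by linarith [hP0sq s hs])]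
    linarith [hP0sq s hs]
  obtain ⟨l, hl⟩ : ∃ l : ℝ → ℝ, l = fun s => -P0 s + D s := ⟨_, rfl⟩
  have hld : ∀ s ∈ Ico a b, ∃ e', HasDerivAt l e' s := by
    intro s hs
    obtain ⟨e1, he1⟩ := hP0d s hs
    obtain ⟨e2, he2⟩ := hepd s hs
    rw [hl, hD]
    have h1 := (((he1.pow 2).sub he2).add_const 1).sqrt
      (by
        have := hP0sq s hs
        have h2 : (P0 ^ 2 - ep) s + 1 = P0 s ^ 2 - ep s + 1 := rfl
        intro h0
        have h3 : P0 s ^ 2 - ep s + 1 = 0 := h0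
        linarith)
    exact ⟨_, he1.neg.add h1⟩
  choose! l' hl' using hld
  have hlid : ∀ s ∈ Ico a b, l s * (P0 s + D s) = 1 - ep s := by
    intro s hs
    have h1 := hDsq s hs
    have h2 : l s = -P0 s + D s := by rw [hl]
    rw [h2]
    linear_combination h1
  -- bounds
  obtain ⟨e1, he1⟩ : ∃ e1 : ℝ, e1 = -E0 * Real.exp (2 * C) := ⟨_, rfl⟩
  have he1pos : 0 < e1 := by rw [he1]; exact mul_pos (neg_pos.2 hE0) (Real.exp_pos _)
  have hepe : ∀ s ∈ Ico a b, ep s ≤ e1 := by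
    intro s hs
    rw [hep, he1]
    simp only
    have h1 : Real.exp (2 * φ s) ≤ Real.exp (2 * C) :=
      Real.exp_le_exp.2 (by linarith [(abs_le.1 (hφ s hs)).2])
    nlinarith
  have hl1 : ∀ s ∈ Ico a b, |l s * P0 s| ≤ 1 + e1 := by
    intro s hs
    have h1 := hlid s hs
    have h2 := hepe s hs
    have h3 := heppos s
    have h4 := hP0pos s hs
    have h5 := hD1 s hs
    have h6 : |l s| * (P0 s + D s) ≤ 1 + e1 := by
      have h7 : |l s| * (P0 s + D s) = |1 - ep s| := by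
        rw [← h1, abs_mul, abs_of_pos (show 0 < P0 s + D s by linarith)]
      rw [h7, abs_le]
      constructor <;> linarith
    rw [abs_mul, abs_of_pos h4]
    nlinarith [abs_nonneg (l s)]
  -- the frame
  obtain ⟨t, ht⟩ : ∃ t : ℝ → V m, t = fun s => P s + l s • T s := ⟨_, rfl⟩
  obtain ⟨t', ht'⟩ : ∃ t' : ℝ → V m, t' = fun s => P' s + (l s • T' s + l' s • T s) := ⟨_, rfl⟩
  have hts : ∀ s, t s = P s + l s • T s := fun s => by rw [ht]
  have ht's : ∀ s, t' s = P' s + (l s • T' s + l' s • T s) := fun s => by rw [ht']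
  have htQ : ∀ s ∈ Ico a b, Q κ (x s) (t s) = 0 := by
    intro s hs
    rw [hts, Q_add_right, Q_smul_right, hPQ s hs, hT s hs]
    ring
  have htB : ∀ s ∈ Ico a b, B κ (t s) (t s) = -1 := by
    intro s hs
    have h1 := hDsq s hs
    have h2 : l s = -P0 s + D s := by rw [hl]
    rw [hts]
    simp only [B_add_left, B_add_right, B_smul_left, B_smul_right, hPP s hs, hPT,
      B_comm (T s) (P s), hTT s hs]
    rw [h2]
    linear_combination -h1
  have htd : ∀ s ∈ Ico a b, HasDerivAt t (t' s) s := by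
    intro s hs
    rw [ht, ht']
    exact (hPd s hs).add ((hl' s hs).smul (hTd s hs))
  have htQ' : ∀ s ∈ Ico a b, Q κ (x s) (t' s) = -κ * B κ (v s) (t s) := by
    intro s hs
    have h1 := cf_const hs (cf_derQ κ (hxd s hs) (htd s hs)) htQ
    have h2 := Q_tan hκ (hx s hs) (hv s hs) (t s) (htQ s hs)
    linarith
  have htt' : ∀ s ∈ Ico a b, B κ (t' s) (t s) = 0 := by
    intro s hs
    have h1 := cf_const hs (cf_derB κ (htd s hs) (htd s hs)) htB
    have h2 := B_comm (κ := κ) (t s) (t' s)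
    linarith
  have hPv : ∀ s ∈ Ico a b, Q κ (x s) (P' s) = -Q κ (v s) (P s) := by
    intro s hs
    have h1 := cf_const hs (cf_derQ κ (hxd s hs) (hPd s hs)) hPQ
    linarith
  obtain ⟨c2, hc2⟩ : ∃ c2 : ℝ, c2 = Real.exp (2 * C) := ⟨_, rfl⟩
  have hc2pos : 0 < c2 := by rw [hc2]; exact Real.exp_pos _
  have hexpneg : ∀ s ∈ Ico a b, Real.exp (-(2 * φ s)) ≤ c2 := by
    intro s hs
    rw [hc2]
    exact Real.exp_le_exp.2 (by linarith [(abs_le.1 (hφ s hs)).1])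
  have hvP : ∀ s, v s = Real.exp (-(2 * φ s)) • P s := by
    intro s
    rw [hPdef]
    simp only
    rw [smul_smul, ← Real.exp_add, neg_add_cancel, Real.exp_zero, one_smul]
  have hBvt : ∀ s ∈ Ico a b, |B κ (v s) (t s)| ≤ c2 * (1 + 2 * e1) := by
    intro s hs
    have h1 : B κ (v s) (t s) = Real.exp (-(2 * φ s)) * (-ep s - l s * P0 s) := by
      rw [hts]
      conv_lhs => rw [hvP s]
      simp only [B_add_right, B_smul_left, B_smul_right, hPP s hs, hPT]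
      ring
    rw [h1, abs_mul, abs_of_pos (Real.exp_pos _)]
    refine mul_le_mul (hexpneg s hs) ?_ (abs_nonneg _) hc2pos.le
    have h2 := abs_le.1 (hl1 s hs)
    have h3 := hepe s hs
    have h4 := heppos s
    rw [abs_le]
    constructor <;> linarith [h2.1, h2.2]
  have hBvv : ∀ s ∈ Ico a b, B κ (v s) (v s) < 0 := by
    intro s hs
    have h1 := hE s hs
    by_contra hcon
    push Not at hcon
    have := mul_nonneg (Real.exp_pos (2 * φ s)).le hcon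
    linarith
  obtain ⟨bb, hbb⟩ : ∃ bb : ℝ, bb = c2 * (1 + 2 * e1) := ⟨_, rfl⟩
  have hbb0 : 0 < bb := by rw [hbb]; positivity
  have hN2v : ∀ s ∈ Ico a b, N2 κ (x s) (t s) (v s) ≤ 2 * bb ^ 2 := by
    intro s hs
    rw [N2, tg_of_tan (hv s hs), hv s hs]
    have h1 : B κ (v s) (t s) ^ 2 ≤ bb ^ 2 := by
      rw [← sq_abs (B κ (v s) (t s))]
      have := hBvt s hs
      rw [← hbb] at this
      exact pow_le_pow_left₀ (abs_nonneg _) this 2
    have h2 := hBvv s hs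
    nlinarith
  have hκ2 : κ ^ 2 ≤ 1 := by
    rcases hκ with h | h | h <;> rw [h] <;> norm_num
  have hN2t' : ∀ s ∈ Ico a b, N2 κ (x s) (t s) (t' s) ≤
      2 * (E0 ^ 2 * C) + 2 * (2 * C * c2 ^ 2 * (1 + e1) ^ 2) + bb ^ 2 := by
    intro s hs
    have h1 := cf_point hκ (hx s hs) (hv s hs) (hT s hs) (hTT s hs) (P := P s) (P' := P' s)
      (T' := T' s) (l := l s) (l' := l' s) (hPv s hs) (dφ s) E0 C hC (hdφ s hs) (hP'w s hs)
      (by rw [← hts]; exact htQ s hs) (by rw [← hts, ← ht's]; exact htQ' s hs)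
      (by rw [← hts, ← ht's]; exact htt' s hs)
    rw [← hts, ← ht's] at h1
    have h2 : (κ * B κ (v s) (t s)) ^ 2 ≤ bb ^ 2 := by
      have h3 : B κ (v s) (t s) ^ 2 ≤ bb ^ 2 := by
        rw [← sq_abs (B κ (v s) (t s))]
        have := hBvt s hs
        rw [← hbb] at this
        exact pow_le_pow_left₀ (abs_nonneg _) this 2
      rw [mul_pow]
      nlinarith [sq_nonneg (B κ (v s) (t s)), sq_nonneg κ]
    have h4 : l s ^ 2 * N2 κ (x s) (T s) (T' s) ≤ 2 * C * c2 ^ 2 * (1 + e1) ^ 2 := by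
      have h5 : N2 κ (x s) (T s) (T' s) ≤ 2 * C * B κ (v s) (T s) ^ 2 := by
        refine (hT' s hs).trans ?_
        rw [N2, tg_of_tan (hv s hs), hv s hs]
        have := hBvv s hs
        nlinarith
      have h6 : B κ (v s) (T s) = Real.exp (-(2 * φ s)) * -P0 s := by
        conv_lhs => rw [hvP s]
        rw [B_smul_left, hPT]
      have h7 : l s ^ 2 * (2 * C * B κ (v s) (T s) ^ 2) =
          2 * C * (Real.exp (-(2 * φ s)) ^ 2 * |l s * P0 s| ^ 2) := by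
        rw [h6, sq_abs]
        ring
      calc l s ^ 2 * N2 κ (x s) (T s) (T' s) ≤ l s ^ 2 * (2 * C * B κ (v s) (T s) ^ 2) :=
            mul_le_mul_of_nonneg_left h5 (sq_nonneg _)
        _ = 2 * C * (Real.exp (-(2 * φ s)) ^ 2 * |l s * P0 s| ^ 2) := h7
        _ ≤ 2 * C * (c2 ^ 2 * (1 + e1) ^ 2) := by
            refine mul_le_mul_of_nonneg_left ?_ (by positivity)
            exact mul_le_mul (pow_le_pow_left₀ (Real.exp_pos _).le (hexpneg s hs) 2)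
              (pow_le_pow_left₀ (abs_nonneg _) (hl1 s hs) 2) (by positivity) (by positivity)
        _ = _ := by ring
    linarith
  obtain ⟨M, hM⟩ := frame_bound hκ hab x t v t' hx htQ htB hxd hv htd htQ'
    (2 * bb ^ 2 + (2 * (E0 ^ 2 * C) + 2 * (2 * C * c2 ^ 2 * (1 + e1) ^ 2) + bb ^ 2))
    (fun s hs => (hN2v s hs).trans (by
      have : 0 ≤ 2 * (E0 ^ 2 * C) + 2 * (2 * C * c2 ^ 2 * (1 + e1) ^ 2) + bb ^ 2 := by positivity
      linarith))
    (fun s hs => (hN2t' s hs).trans (by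
      have : 0 ≤ 2 * bb ^ 2 := by positivity
      linarith))
  refine ⟨Real.sqrt (|M| * (2 * bb ^ 2)), fun s hs => ?_⟩
  apply Real.le_sqrt_of_sq_le
  have h1 := hM s hs (v s)
  have h2 := N2_nonneg hκ (hx s hs) (htQ s hs) (htB s hs) (v s)
  have h3 := hN2v s hs
  calc ‖v s‖ ^ 2 ≤ M * N2 κ (x s) (t s) (v s) := h1
    _ ≤ |M| * N2 κ (x s) (t s) (v s) := mul_le_mul_of_nonneg_right (le_abs_self _) h2
    _ ≤ |M| * (2 * bb ^ 2) := mul_le_mul_of_nonneg_left h3 (abs_nonneg _)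

theorem cf_N2_neg (κ : ℝ) {m : ℕ} (x t w : V m) : N2 κ x (-t) w = N2 κ x t w := by
  rw [N2, N2, B_neg_right]
  ring

theorem cf_N2_neg' (κ : ℝ) {m : ℕ} (x t w : V m) : N2 κ x t (-w) = N2 κ x t w := by
  have h : tg κ x (-w) = -tg κ x w := by
    rw [tg, tg, Q_neg_right]
    module
  rw [N2, N2, h, B_neg_left, B_neg_right, B_neg_left, Q_neg_right]
  ring

/-- Timelike geodesics of a conformal metric: the velocity stays bounded on bounded intervals. -/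
theorem conf_time {κ : ℝ} {m : ℕ} (hκ : κ = -1 ∨ κ = 0 ∨ κ = 1) {a b : ℝ} (hab : a < b)
    (x v acc T T' : ℝ → V m) (φ : ℝ → ℝ) (dφ : ℝ → V m →L[ℝ] ℝ) (C : ℝ)
    (hx : ∀ s ∈ Ico a b, x s ∈ X κ m) (hxd : ∀ s ∈ Ico a b, HasDerivAt x (v s) s)
    (hv : ∀ s ∈ Ico a b, Q κ (x s) (v s) = 0)
    (hvd : ∀ s ∈ Ico a b, HasDerivAt v (acc s) s)
    (hT : ∀ s ∈ Ico a b, Q κ (x s) (T s) = 0) (hTT : ∀ s ∈ Ico a b, B κ (T s) (T s) = -1)
    (hTd : ∀ s ∈ Ico a b, HasDerivAt T (T' s) s)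
    (hφd : ∀ s ∈ Ico a b, HasDerivAt φ (dφ s (v s)) s) (hφ : ∀ s ∈ Ico a b, |φ s| ≤ C)
    (geo : ∀ s ∈ Ico a b, ∀ w, Q κ (x s) w = 0 →
      B κ (acc s) w + 2 * dφ s (v s) * B κ (v s) w = B κ (v s) (v s) * dφ s w)
    (hdφ : ∀ s ∈ Ico a b, ∀ w, Q κ (x s) w = 0 → (dφ s w) ^ 2 ≤ C * N2 κ (x s) (T s) w)
    (hT' : ∀ s ∈ Ico a b, N2 κ (x s) (T s) (T' s) ≤ C * N2 κ (x s) (T s) (v s))
    (htime : B κ (v a) (v a) < 0) :
    ∃ M : ℝ, ∀ s ∈ Ico a b, ‖v s‖ ≤ M := by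
  -- energy
  have hE : ∀ s ∈ Ico a b, Real.exp (2 * φ s) * B κ (v s) (v s) =
      Real.exp (2 * φ a) * B κ (v a) (v a) := by
    intro s hs
    have hder : ∀ r ∈ Ico a b,
        HasDerivAt (fun r => Real.exp (2 * φ r) * B κ (v r) (v r)) 0 r := by
      intro r hr
      have h1 := ((hφd r hr).const_mul 2).exp
      have h2 := cf_derB κ (hvd r hr) (hvd r hr)
      refine (h1.mul h2).congr_deriv ?_
      have h3 := geo r hr (v r) (hv r hr)
      rw [B_comm (v r) (acc r)]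
      linear_combination (2 * Real.exp (2 * φ r)) * h3
    have hsub : ∀ r ∈ Icc a s, r ∈ Ico a b := fun r hr => ⟨hr.1, hr.2.trans_lt hs.2⟩
    exact constant_of_has_deriv_right_zero
      (fun r hr => (hder r (hsub r hr)).continuousAt.continuousWithinAt)
      (fun r hr => (hder r (hsub r ⟨hr.1, hr.2.le⟩)).hasDerivWithinAt) s ⟨hs.1, le_rfl⟩
  have hE0 : Real.exp (2 * φ a) * B κ (v a) (v a) < 0 :=
    mul_neg_of_pos_of_neg (Real.exp_pos _) htime
  have hBvv : ∀ s ∈ Ico a b, B κ (v s) (v s) < 0 := by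
    intro s hs
    have h1 := hE s hs
    by_contra hcon
    push Not at hcon
    have := mul_nonneg (Real.exp_pos (2 * φ s)).le hcon
    linarith
  -- the sign
  have hne : ∀ s ∈ Ico a b, B κ (v s) (T s) ≠ 0 := by
    intro s hs h0
    have h1 : 0 ≤ B κ (v s) (v s) :=
      B_nonneg_of_orth hκ (hx s hs) (hT s hs) (by rw [hTT s hs]; norm_num) (hv s hs) h0
    linarith [hBvv s hs]
  have hcont : ContinuousOn (fun s => B κ (v s) (T s)) (Ico a b) := fun s hs =>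
    (cf_derB κ (hvd s hs) (hTd s hs)).continuousAt.continuousWithinAt
  have hmem : a ∈ Ico a b := ⟨le_rfl, hab⟩
  rcases lt_or_gt_of_ne (hne a hmem) with hs0 | hs0
  · refine conf_time_aux hκ hab x v acc T T' φ dφ C hx hxd hv hvd hT hTT hTd hφd hφ geo hdφ hT'
      _ hE0 hE ?_
    intro s hs
    by_contra hcon
    push Not at hcon
    obtain ⟨r, hr, hr0⟩ := isPreconnected_Ico.intermediate_value hmem hs hcont
      (show (0 : ℝ) ∈ Icc (B κ (v a) (T a)) (B κ (v s) (T s)) from ⟨hs0.le, hcon⟩)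
    exact hne r hr hr0
  · refine conf_time_aux hκ hab x v acc (fun s => -T s) (fun s => -T' s) φ dφ C hx hxd hv hvd
      ?_ ?_ ?_ hφd hφ geo ?_ ?_ _ hE0 hE ?_
    · intro s hs
      rw [Q_neg_right, hT s hs, neg_zero]
    · intro s hs
      rw [B_neg_left, B_neg_right, neg_neg, hTT s hs]
    · intro s hs
      exact (hTd s hs).neg
    · intro s hs w hw
      rw [cf_N2_neg]
      exact hdφ s hs w hw
    · intro s hs
      rw [cf_N2_neg, cf_N2_neg, cf_N2_neg']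
      exact hT' s hs
    · intro s hs
      rw [B_neg_right, neg_lt_zero]
      by_contra hcon
      push Not at hcon
      obtain ⟨r, hr, hr0⟩ := isPreconnected_Ico.intermediate_value hs hmem hcont
        (show (0 : ℝ) ∈ Icc (B κ (v s) (T s)) (B κ (v a) (T a)) from ⟨hcon, hs0.le⟩)
      exact hne r hr hr0

end Pool.Agent.Helper107.LC
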