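import Mathlib
import Pool.Agent.Helper107.LC.Base
set_option autoImplicit false
open Set Filter Topology
open scoped ContDiff

namespace Pool.Agent.Helper107.LC

section ge
variable {κ : ℝ} {m : ℕ} {Y : Type*} [TopologicalSpace Y]
/-- pointwise geodesic condition -/
def Dev.GAt (P : Dev κ m Y) (f : Y → ℝ) (c : ℝ → Y) (t : ℝ) : Prop :=
  ContinuousAt c t ∧ DifferentiableAt ℝ (P.p ∘ c) t ∧ DifferentiableAt ℝ (deriv (P.p ∘ c)) t ∧
    ∀ w, Q κ (P.p (c t)) w = 0 →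
      B κ (deriv (deriv (P.p ∘ c)) t) w
        + 2 * P.d f (c t) (deriv (P.p ∘ c) t) * B κ (deriv (P.p ∘ c) t) w
      = B κ (deriv (P.p ∘ c) t) (deriv (P.p ∘ c) t) * P.d f (c t) w

theorem Dev.isGeod_iff (P : Dev κ m Y) {f : Y → ℝ} {c : ℝ → Y} {I : Set ℝ} (hI : IsOpen I) :
    P.IsGeod f c I ↔ ∀ t ∈ I, P.GAt f c t := by
  constructor
  · rintro ⟨h1, h2⟩ t ht
    exact ⟨h1.continuousAt (hI.mem_nhds ht), h2 t ht⟩
  · intro h
    exact ⟨fun t ht => (h t ht).1.continuousWithinAt, fun t ht => (h t ht).2⟩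

theorem Dev.GAt_congr (P : Dev κ m Y) {f : Y → ℝ} {c c' : ℝ → Y} {t : ℝ}
    (h : c =ᶠ[𝓝 t] c') (hc : P.GAt f c t) : P.GAt f c' t := by
  obtain ⟨h1, h2, h3, h4⟩ := hc
  have e0 : P.p ∘ c =ᶠ[𝓝 t] P.p ∘ c' := h.fun_comp P.p
  have e1 : deriv (P.p ∘ c) =ᶠ[𝓝 t] deriv (P.p ∘ c') := e0.deriv
  have e2 : deriv (deriv (P.p ∘ c)) t = deriv (deriv (P.p ∘ c')) t := e1.deriv_eq
  have e3 : deriv (P.p ∘ c) t = deriv (P.p ∘ c') t := e0.deriv_eq
  have e4 : c t = c' t := h.eq_of_nhds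
  refine ⟨h1.congr h, (e0.differentiableAt_iff).1 h2, (e1.differentiableAt_iff).1 h3, ?_⟩
  rw [← e2, ← e3, ← e4]; exact h4

theorem Dev.GAt_neg (P : Dev κ m Y) {f : Y → ℝ} {c : ℝ → Y} {t : ℝ}
    (hc : P.GAt f c (-t)) : P.GAt f (fun s => c (-s)) t := by
  obtain ⟨h1, h2, h3, h4⟩ := hc
  have e1 : deriv (P.p ∘ fun s => c (-s)) = fun s => - deriv (P.p ∘ c) (-s) := by
    funext s
    exact deriv_comp_neg (P.p ∘ c) s
  have hneg : HasDerivAt (fun s : ℝ => -s) (-1) t := hasDerivAt_neg t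
  have hd2 : HasDerivAt (fun s => - deriv (P.p ∘ c) (-s)) (deriv (deriv (P.p ∘ c)) (-t)) t := by
    have h5 : HasDerivAt (fun s => deriv (P.p ∘ c) (-s)) (-(deriv (deriv (P.p ∘ c)) (-t))) t := by
      have := HasDerivAt.scomp t (g₁ := deriv (P.p ∘ c)) (h := fun s : ℝ => -s) h3.hasDerivAt hneg
      simpa using! this
    simpa using! h5.neg
  have e2 : deriv (deriv (P.p ∘ fun s => c (-s))) t = deriv (deriv (P.p ∘ c)) (-t) := by
    rw [e1]; exact hd2.deriv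
  refine ⟨ContinuousAt.comp (g := c) h1 continuous_neg.continuousAt, ?_, ?_, ?_⟩
  · exact DifferentiableAt.comp t (g := P.p ∘ c) h2 hneg.differentiableAt
  · rw [e1]; exact hd2.differentiableAt
  · intro w hw
    rw [e2, e1]
    simp only [map_neg, B_neg_left, B_neg_right]
    have := h4 w hw
    linarith

open Classical in
/-- gluing of a chain of geodesics -/
theorem Dev.chain_glue (P : Dev κ m Y) (f : Y → ℝ) (c : ℝ → Y) (a : ℝ)
    (S : Set (ℝ × (ℝ → Y))) (hg : ∀ x ∈ S, P.IsGeod f x.2 (Ioo a x.1))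
    (hS : ∀ x ∈ S, ∀ y ∈ S, (x.1 ≤ y.1 ∧ EqOn y.2 x.2 (Ioo a x.1)) ∨
      (y.1 ≤ x.1 ∧ EqOn x.2 y.2 (Ioo a y.1))) :
    ∃ c' : ℝ → Y, (∀ x ∈ S, EqOn c' x.2 (Ioo a x.1)) ∧
      P.IsGeod f c' {t | a < t ∧ ∃ x ∈ S, t < x.1} := by
  set c' : ℝ → Y := fun t => if h : ∃ x ∈ S, t < x.1 then h.choose.2 t else c t with hc'
  have h1 : ∀ x ∈ S, EqOn c' x.2 (Ioo a x.1) := by
    intro x hx t ht
    have h : ∃ x ∈ S, t < x.1 := ⟨x, hx, ht.2⟩
    have h2 := h.choose_spec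
    simp only [hc']
    rw [dif_pos h]
    rcases hS x hx _ h2.1 with h3 | h3
    · exact h3.2 ht
    · exact (h3.2 ⟨ht.1, h2.2⟩).symm
  have ho : IsOpen {t | a < t ∧ ∃ x ∈ S, t < x.1} := by
    have : {t | a < t ∧ ∃ x ∈ S, t < x.1} = Ioi a ∩ ⋃ x ∈ S, Iio x.1 := by
      ext t; simp
    rw [this]
    exact isOpen_Ioi.inter (isOpen_biUnion fun _ _ => isOpen_Iio)
  refine ⟨c', h1, (P.isGeod_iff ho).2 ?_⟩
  rintro t ⟨hat, x, hx, htx⟩
  have h2 := (P.isGeod_iff isOpen_Ioo).1 (hg x hx) t ⟨hat, htx⟩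
  refine P.GAt_congr ?_ h2
  filter_upwards [isOpen_Ioo.mem_nhds (show t ∈ Ioo a x.1 from ⟨hat, htx⟩)] with s hs
  exact (h1 x hx hs).symm

/-- pairs (endpoint, geodesic) -/
def Dev.Ext (P : Dev κ m Y) (f : Y → ℝ) (c : ℝ → Y) (a b : ℝ) : Type _ :=
  {x : ℝ × (ℝ → Y) // b ≤ x.1 ∧ P.IsGeod f x.2 (Ioo a x.1) ∧ EqOn x.2 c (Ioo a b)}

instance Dev.ExtPre (P : Dev κ m Y) (f : Y → ℝ) (c : ℝ → Y) (a b : ℝ) :
    Preorder (P.Ext f c a b) where
  le x y := x.1.1 ≤ y.1.1 ∧ EqOn y.1.2 x.1.2 (Ioo a x.1.1)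
  le_refl x := ⟨le_rfl, fun _ _ => rfl⟩
  le_trans x y z h1 h2 := ⟨h1.1.trans h2.1, fun t ht =>
    (h2.2 ⟨ht.1, ht.2.trans_le h1.1⟩).trans (h1.2 ht)⟩

/-- right extension -/
theorem Dev.extend_right (P : Dev κ m Y) (f : Y → ℝ)
    (hext : ∀ (c : ℝ → Y) (a b : ℝ), a < b → P.IsGeod f c (Ioo a b) →
      ∃ b' > b, ∃ c' : ℝ → Y, P.IsGeod f c' (Ioo a b') ∧ EqOn c' c (Ioo a b))
    (c : ℝ → Y) (a b : ℝ) (hab : a < b) (hc : P.IsGeod f c (Ioo a b)) :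
    ∃ c' : ℝ → Y, P.IsGeod f c' (Ioi a) ∧ EqOn c' c (Ioo a b) := by
  by_contra hno
  have hz : ∀ S : Set (P.Ext f c a b), IsChain (· ≤ ·) S → BddAbove S := by
    intro S hS
    rcases S.eq_empty_or_nonempty with hS0 | ⟨x0, hx0⟩
    · subst hS0
      exact ⟨⟨(b, c), le_rfl, hc, fun _ _ => rfl⟩, fun x hx => absurd hx (by simp)⟩
    obtain ⟨c', h1, h2⟩ := P.chain_glue f c a (Subtype.val '' S)
      (by rintro _ ⟨x, hx, rfl⟩; exact x.2.2.1)
      (by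
        rintro _ ⟨x, hx, rfl⟩ _ ⟨y, hy, rfl⟩
        rcases hS.total hx hy with h | h
        · exact Or.inl h
        · exact Or.inr h)
    have hcc : EqOn c' c (Ioo a b) := fun t ht =>
      (h1 x0.1 ⟨x0, hx0, rfl⟩ ⟨ht.1, ht.2.trans_le x0.2.1⟩).trans (x0.2.2.2 ht)
    by_cases hb : BddAbove ((fun x : P.Ext f c a b => x.1.1) '' S)
    · have hle : ∀ x ∈ S, x.1.1 ≤ sSup ((fun x : P.Ext f c a b => x.1.1) '' S) := fun x hx =>
        le_csSup hb ⟨x, hx, rfl⟩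
      refine ⟨⟨(sSup ((fun x : P.Ext f c a b => x.1.1) '' S), c'), ?_, ?_, hcc⟩, ?_⟩
      · exact x0.2.1.trans (hle x0 hx0)
      · rw [P.isGeod_iff isOpen_Ioo]
        have ho : IsOpen {t | a < t ∧ ∃ x ∈ Subtype.val '' S, t < x.1} := by
          have : {t | a < t ∧ ∃ x ∈ Subtype.val '' S, t < x.1} =
              Ioi a ∩ ⋃ x ∈ Subtype.val '' S, Iio x.1 := by
            ext t; simp
          rw [this]
          exact isOpen_Ioi.inter (isOpen_biUnion fun _ _ => isOpen_Iio)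
        rintro t ⟨ht1, ht2⟩
        refine (P.isGeod_iff ho).1 h2 t ⟨ht1, ?_⟩
        obtain ⟨_, ⟨x, hx, rfl⟩, hx2⟩ := exists_lt_of_lt_csSup (Set.Nonempty.image _ ⟨x0, hx0⟩) ht2
        exact ⟨x.1, ⟨x, hx, rfl⟩, hx2⟩
      · intro x hx
        exact ⟨hle x hx, h1 x.1 ⟨x, hx, rfl⟩⟩
    · exfalso
      apply hno
      refine ⟨c', ?_, hcc⟩
      have : {t | a < t ∧ ∃ x ∈ Subtype.val '' S, t < x.1} = Ioi a := by
        ext t
        constructor
        · exact fun h => h.1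
        · intro ht
          refine ⟨ht, ?_⟩
          by_contra hcon
          apply hb
          refine ⟨t, ?_⟩
          rintro _ ⟨x, hx, rfl⟩
          by_contra hlt
          exact hcon ⟨x.1, ⟨x, hx, rfl⟩, not_le.1 hlt⟩
      rw [← this]; exact h2
  obtain ⟨M, hM⟩ := zorn_le hz
  obtain ⟨b', hb', c', hg, heq⟩ := hext M.1.2 a M.1.1 (hab.trans_le M.2.1) M.2.2.1
  have h3 : M ≤ (⟨(b', c'), M.2.1.trans hb'.le, hg, fun t ht =>
      (heq ⟨ht.1, ht.2.trans_le M.2.1⟩).trans (M.2.2.2 ht)⟩ : P.Ext f c a b) := ⟨hb'.le, heq⟩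
  have h4 := hM h3
  exact absurd h4.1 (not_le.2 hb')
end ge

/-- from one-step extension to completeness (Zorn + time reversal) -/
theorem Dev.geod_complete_of_extend {κ : ℝ} {m : ℕ} {Y : Type*}
    [TopologicalSpace Y] (P : Dev κ m Y) (f : Y → ℝ)
    (hext : ∀ (c : ℝ → Y) (a b : ℝ), a < b → P.IsGeod f c (Ioo a b) →
      ∃ b' > b, ∃ c' : ℝ → Y, P.IsGeod f c' (Ioo a b') ∧ EqOn c' c (Ioo a b))
    (c : ℝ → Y) (a b : ℝ) (hab : a < b) (hc : P.IsGeod f c (Ioo a b)) :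
    ∃ c' : ℝ → Y, P.IsGeod f c' univ ∧ EqOn c' c (Ioo a b) := by
  classical
  obtain ⟨c1, hc1, he1⟩ := P.extend_right f hext c a b hab hc
  have hc1' := (P.isGeod_iff isOpen_Ioi).1 hc1
  have hc2 : P.IsGeod f (fun s => c1 (-s)) (Ioo (-b) (-a)) := by
    rw [P.isGeod_iff isOpen_Ioo]
    rintro t ⟨ht1, ht2⟩
    refine P.GAt_neg (hc1' (-t) ?_)
    show a < -t
    linarith
  obtain ⟨c3, hc3, he3⟩ := P.extend_right f hext _ (-b) (-a) (by linarith) hc2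
  have hc3' := (P.isGeod_iff isOpen_Ioi).1 hc3
  set c4 : ℝ → Y := fun t => if t < b then c3 (-t) else c1 t with hc4
  have h41 : ∀ t, a < t → c4 t = c1 t := by
    intro t ht
    simp only [hc4]
    split_ifs with h
    · have := he3 (show -t ∈ Ioo (-b) (-a) from ⟨by linarith, by linarith⟩)
      simpa using this
    · rfl
  have h43 : ∀ t, t < b → c4 t = c3 (-t) := by
    intro t ht
    simp only [hc4]
    rw [if_pos ht]
  refine ⟨c4, ?_, ?_⟩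
  · rw [P.isGeod_iff isOpen_univ]
    intro t _
    rcases lt_or_ge t b with ht | ht
    · have h5 : P.GAt f (fun s => c3 (-s)) t := P.GAt_neg (hc3' (-t) (by
        show -b < -t
        linarith))
      refine P.GAt_congr ?_ h5
      filter_upwards [isOpen_Iio.mem_nhds (show t ∈ Iio b from ht)] with s hs
      exact (h43 s hs).symm
    · have hat : a < t := hab.trans_le ht
      refine P.GAt_congr ?_ (hc1' t hat)
      filter_upwards [isOpen_Ioi.mem_nhds (show t ∈ Ioi a from hat)] with s hs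
      exact (h41 s hs).symm
  · intro t ht
    exact (h41 t ht.1).trans (he1 ht)

end Pool.Agent.Helper107.LC
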