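import Mathlib
import Pool.Agent.Helper107.LC.Topo
set_option autoImplicit false
open Set Filter Topology
open scoped ContDiff

namespace Pool.Agent.Helper107.LC

section tcaux
variable {κ : ℝ} {m : ℕ}

theorem ck_sub (hκ : κ = -1 ∨ κ = 0 ∨ κ = 1) (s r : ℝ) :
    ck κ (s - r) = ck κ s * ck κ r - κ * (sk κ s * sk κ r) := by
  rcases hκ with h | h | h
  · subst h; simp only [ck, sk, if_true]; rw [Real.cos_sub]; ring
  · subst h; simp [ck, sk]
  · subst h
    simp only [ck, sk]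
    rw [if_neg (by norm_num), if_neg (by norm_num), if_neg (by norm_num), if_neg (by norm_num),
      if_neg (by norm_num), if_neg (by norm_num), if_neg (by norm_num), if_neg (by norm_num),
      if_neg (by norm_num), if_neg (by norm_num), Real.cosh_sub]
    ring

theorem sk_sub (hκ : κ = -1 ∨ κ = 0 ∨ κ = 1) (s r : ℝ) :
    sk κ (s - r) = sk κ s * ck κ r - ck κ s * sk κ r := by
  rcases hκ with h | h | h
  · subst h; simp only [ck, sk, if_true]; rw [Real.sin_sub]
  · subst h; simp [ck, sk]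
  · subst h
    simp only [ck, sk]
    rw [if_neg (by norm_num), if_neg (by norm_num), if_neg (by norm_num), if_neg (by norm_num),
      if_neg (by norm_num), if_neg (by norm_num), if_neg (by norm_num), if_neg (by norm_num),
      if_neg (by norm_num), if_neg (by norm_num), Real.sinh_sub]

theorem ray_rev (hκ : κ = -1 ∨ κ = 0 ∨ κ = 1) (z u : V m) (s r : ℝ) :
    ray κ (ray κ z u s) (-vel κ z u s) r = ray κ z u (s - r) := by
  rw [ray, ray, vel, ray, ck_sub hκ, sk_sub hκ]
  module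

theorem continuous_ck (hκ : κ = -1 ∨ κ = 0 ∨ κ = 1) : Continuous (ck κ) :=
  continuous_iff_continuousAt.2 fun t => (hasDerivAt_ck hκ t).continuousAt

theorem continuous_sk (hκ : κ = -1 ∨ κ = 0 ∨ κ = 1) : Continuous (sk κ) :=
  continuous_iff_continuousAt.2 fun t => (hasDerivAt_sk hκ t).continuousAt

/-- inverse of `sk` -/
noncomputable def sinv (κ y : ℝ) : ℝ :=
  if κ = -1 then Real.arcsin y else if κ = 0 then y else Real.arsinh y

theorem continuous_sinv (κ : ℝ) : Continuous (sinv κ) := by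
  unfold sinv
  by_cases h : κ = -1
  · simp only [if_pos h]; exact Real.continuous_arcsin
  · by_cases h0 : κ = 0
    · simp only [if_neg h, if_pos h0]; exact continuous_id
    · simp only [if_neg h, if_neg h0]; exact Real.continuous_arsinh

theorem sinv_nonneg (κ : ℝ) {y : ℝ} (hy : 0 ≤ y) : 0 ≤ sinv κ y := by
  unfold sinv
  split_ifs
  · exact Real.arcsin_nonneg.2 hy
  · exact hy
  · exact Real.arsinh_nonneg_iff.2 hy

theorem sk_sinv (hκ : κ = -1 ∨ κ = 0 ∨ κ = 1) {y : ℝ} (hy : 0 ≤ y) (hy1 : 0 ≤ 1 + κ * y ^ 2) :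
    sk κ (sinv κ y) = y := by
  rcases hκ with h | h | h
  · subst h
    simp only [sk, sinv, if_true]
    refine Real.sin_arcsin (by linarith) ?_
    nlinarith
  · subst h; simp [sk, sinv]
  · subst h
    simp only [sk, sinv]
    rw [if_neg (by norm_num), if_neg (by norm_num), if_neg (by norm_num), if_neg (by norm_num)]
    exact Real.sinh_arsinh y

theorem ck_sinv (hκ : κ = -1 ∨ κ = 0 ∨ κ = 1) {y q : ℝ} (hy : 0 ≤ y) (hq : 0 < q)
    (hq1 : q ^ 2 = 1 + κ * y ^ 2) : ck κ (sinv κ y) = q := by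
  have hsk : sk κ (sinv κ y) = y := sk_sinv hκ hy (by rw [← hq1]; positivity)
  have h1 : ck κ (sinv κ y) ^ 2 = q ^ 2 := by
    have := ck_sq hκ (sinv κ y)
    rw [hsk] at this
    rw [hq1]; linarith
  have h2 : 0 ≤ ck κ (sinv κ y) := by
    rcases hκ with h | h | h
    · subst h
      simp only [ck, sinv, if_true]
      exact Real.cos_arcsin_nonneg y
    · subst h; simp [ck]
    · subst h
      simp only [ck]
      rw [if_neg (by norm_num), if_neg (by norm_num)]
      exact (Real.cosh_pos _).le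
  exact (pow_left_inj₀ h2 hq.le (by norm_num)).1 h1

theorem continuous_Q (z : V m) : Continuous (fun x : V m => Q κ z x) := by
  unfold Q; fun_prop

theorem continuous_Q2 : Continuous (fun x : V m => Q κ x x) := by
  unfold Q; fun_prop

theorem continuous_B2 : Continuous (fun x : V m => B κ x x) := by
  unfold B; fun_prop

theorem continuous_tg (z : V m) : Continuous (fun x : V m => tg κ z x) := by
  unfold tg
  exact continuous_id.sub ((continuous_Q z).smul continuous_const)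

/-- the domain of the inverse exponential map at `z` -/
def Dom (κ : ℝ) {m : ℕ} (z : V m) : Set (V m) :=
  {x | x ∈ X κ m ∧ 0 < Q κ z x ∧ B κ (tg κ z x) (tg κ z x) < 0}

/-- length of the geodesic from `z` to `x` -/
noncomputable def sI (κ : ℝ) {m : ℕ} (z x : V m) : ℝ :=
  sinv κ (Real.sqrt (-B κ (tg κ z x) (tg κ z x)))
/-- direction of the geodesic from `z` to `x` -/
noncomputable def uI (κ : ℝ) {m : ℕ} (z x : V m) : V m :=
  (Real.sqrt (-B κ (tg κ z x) (tg κ z x)))⁻¹ • tg κ z x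

theorem sqrt_pos_of_Dom {z x : V m} (hx : x ∈ Dom κ z) :
    0 < Real.sqrt (-B κ (tg κ z x) (tg κ z x)) := by
  apply Real.sqrt_pos.2
  have := hx.2.2
  linarith

theorem uI_tan {z x : V m} (hz : z ∈ X κ m) : Q κ z (uI κ z x) = 0 := by
  rw [uI, Q_smul_right, Q_tg hz, mul_zero]

theorem uI_unit {z x : V m} (hx : x ∈ Dom κ z) : B κ (uI κ z x) (uI κ z x) = -1 := by
  have h := sqrt_pos_of_Dom hx
  have h2 : Real.sqrt (-B κ (tg κ z x) (tg κ z x)) * Real.sqrt (-B κ (tg κ z x) (tg κ z x)) =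
      -B κ (tg κ z x) (tg κ z x) := Real.mul_self_sqrt (by have := hx.2.2; linarith)
  rw [uI, B_smul_left, B_smul_right]
  have h3 : B κ (tg κ z x) (tg κ z x) = -(Real.sqrt (-B κ (tg κ z x) (tg κ z x)) *
    Real.sqrt (-B κ (tg κ z x) (tg κ z x))) := by rw [h2]; ring
  set w := Real.sqrt (-B κ (tg κ z x) (tg κ z x)) with hw
  rw [h3]
  field_simp

theorem sI_nonneg (κ : ℝ) (z x : V m) : 0 ≤ sI κ z x := sinv_nonneg κ (Real.sqrt_nonneg _)

theorem ray_I (hκ : κ = -1 ∨ κ = 0 ∨ κ = 1) {z x : V m} (hz : z ∈ X κ m) (hx : x ∈ Dom κ z) :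
    ray κ z (uI κ z x) (sI κ z x) = x := by
  have hpos := sqrt_pos_of_Dom hx
  have hzz : Q κ z z = 1 := hz
  have hxx : Q κ x x = 1 := hx.1
  have hsq : Real.sqrt (-B κ (tg κ z x) (tg κ z x)) ^ 2 = -B κ (tg κ z x) (tg κ z x) :=
    Real.sq_sqrt (by have := hx.2.2; linarith)
  have hq2 : Q κ z x ^ 2 = 1 + κ * Real.sqrt (-B κ (tg κ z x) (tg κ z x)) ^ 2 := by
    have h1 : Q κ (tg κ z x) (tg κ z x) = κ * B κ (tg κ z x) (tg κ z x) :=
      Q_tan hκ hz (Q_tg hz x) _ (Q_tg hz x)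
    have h2 : Q κ (tg κ z x) (tg κ z x) = 1 - Q κ z x ^ 2 := by
      rw [tg, Q_sub_left, Q_sub_right, Q_sub_right, Q_smul_left, Q_smul_left, Q_smul_right,
        Q_smul_right, Q_comm x z, hzz, hxx]
      ring
    rw [hsq]
    linarith
  have hck : ck κ (sI κ z x) = Q κ z x := ck_sinv hκ hpos.le hx.2.1 hq2
  have hsk : sk κ (sI κ z x) = Real.sqrt (-B κ (tg κ z x) (tg κ z x)) :=
    sk_sinv hκ hpos.le (by rw [← hq2]; positivity)
  rw [ray, hck, hsk, uI, smul_smul, mul_inv_cancel₀ hpos.ne', one_smul, tg]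
  module

theorem exists_unit_timelike (hκ : κ = -1 ∨ κ = 0 ∨ κ = 1) {x : V m} (hx : x ∈ X κ m) :
    ∃ t : V m, Q κ x t = 0 ∧ B κ t t = -1 := by
  have hxx : Q κ x x = 1 := hx
  suffices h : ∃ v : V m, Q κ x v = 0 ∧ B κ v v < 0 by
    obtain ⟨v, hv, hvv⟩ := h
    have hp : 0 < Real.sqrt (-B κ v v) := Real.sqrt_pos.2 (by linarith)
    have h2 : Real.sqrt (-B κ v v) * Real.sqrt (-B κ v v) = -B κ v v :=
      Real.mul_self_sqrt (by linarith)
    refine ⟨(Real.sqrt (-B κ v v))⁻¹ • v, ?_, ?_⟩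
    · rw [Q_smul_right, hv, mul_zero]
    · rw [B_smul_left, B_smul_right]
      have h3 : B κ v v = -(Real.sqrt (-B κ v v) * Real.sqrt (-B κ v v)) := by rw [h2]; ring
      set w := Real.sqrt (-B κ v v) with hw
      rw [h3]
      field_simp
  rcases hκ with h | h | h
  · subst h
    refine ⟨(x.2.2, 0, -x.1), ?_, ?_⟩
    · simp only [Q, inner_zero_right]; ring
    · have h1 : 0 ≤ (inner ℝ x.2.1 x.2.1 : ℝ) := real_inner_self_nonneg
      simp only [Q] at hxx
      simp only [B, inner_zero_right]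
      nlinarith
  · subst h
    refine ⟨(1, 0, 0), ?_, ?_⟩
    · simp [Q]
    · simp [B]
  · subst h
    refine ⟨(1, 0, 0) + x.1 • x, ?_, ?_⟩
    · rw [Q_add_right, Q_smul_right, hxx]
      simp [Q]
    · have h1 : ∀ y : V m, B 1 y y = Q 1 y y := fun y => by rw [Q_eq_B]; ring
      rw [h1, Q_add_left, Q_add_right, Q_add_right, Q_smul_left, Q_smul_left, Q_smul_right,
        Q_smul_right, hxx]
      have h2 : Q 1 ((1, 0, 0) : V m) (1, 0, 0) = -1 := by simp [Q]
      have h3 : Q 1 x ((1, 0, 0) : V m) = -x.1 := by simp [Q]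
      rw [Q_comm _ x, h2, h3]
      nlinarith [sq_nonneg x.1]

theorem exists_base (hκ : κ = -1 ∨ κ = 0 ∨ κ = 1) {x : V m} (hx : x ∈ X κ m) :
    ∃ z : V m, z ∈ X κ m ∧ x ∈ Dom κ z := by
  obtain ⟨t, ht, htt⟩ := exists_unit_timelike hκ hx
  have hz := ray_mem hκ hx ht htt (1 / 2)
  refine ⟨ray κ x t (1 / 2), hz, hx, ?_⟩
  have hxx : Q κ x x = 1 := hx
  have hq : Q κ (ray κ x t (1 / 2)) x = ck κ (1 / 2) := by
    rw [ray, Q_add_left, Q_smul_left, Q_smul_left, Q_comm t x, ht, hxx]; ring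
  have hck : 0 < ck κ (1 / 2) := by
    rcases hκ with h | h | h
    · subst h
      simp only [ck, if_true]
      apply Real.cos_pos_of_mem_Ioo
      constructor <;> linarith [Real.pi_gt_three]
    · subst h; simp [ck]
    · subst h
      simp only [ck]
      rw [if_neg (by norm_num), if_neg (by norm_num)]
      exact Real.cosh_pos _
  have hsk : 0 < sk κ (1 / 2) := by
    rcases hκ with h | h | h
    · subst h
      simp only [sk, if_true]
      apply Real.sin_pos_of_pos_of_lt_pi <;> linarith [Real.pi_gt_three]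
    · subst h; simp [sk]
    · subst h
      simp only [sk]
      rw [if_neg (by norm_num), if_neg (by norm_num)]
      exact Real.sinh_pos_iff.2 (by norm_num)
  refine ⟨by rw [hq]; exact hck, ?_⟩
  have hw : tg κ (ray κ x t (1 / 2)) x = (-sk κ (1 / 2)) • vel κ x t (1 / 2) := by
    rw [tg, hq, ray, vel]
    have h1 : x = (ck κ (1 / 2) ^ 2 - κ * sk κ (1 / 2) ^ 2) • x := by
      rw [ck_sq hκ, one_smul]
    nth_rewrite 1 [h1]
    module
  rw [hw, B_smul_left, B_smul_right, vel_unit hκ hx ht htt]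
  nlinarith

theorem Dom_open_rel (z : V m) : ∃ O : Set (V m), IsOpen O ∧ Dom κ z = X κ m ∩ O := by
  refine ⟨{x | 0 < Q κ z x} ∩ {x | B κ (tg κ z x) (tg κ z x) < 0}, ?_, ?_⟩
  · apply IsOpen.inter
    · exact isOpen_lt continuous_const (continuous_Q z)
    · exact isOpen_lt (continuous_B2.comp (continuous_tg z)) continuous_const
  · ext x; rfl

end tcaux

section tcexp

/-- the exponential map along lifts -/
theorem exists_exp {κ : ℝ} {m : ℕ} (hκ : κ = -1 ∨ κ = 0 ∨ κ = 1) {Y : Type*}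
    [TopologicalSpace Y] [T2Space Y] (P : Dev κ m Y) (hTC : P.TC) (w : Y) :
    ∃ Ex : V m → Y, ContinuousOn Ex (Dom κ (P.p w)) ∧ ∀ x ∈ Dom κ (P.p w),
      P.p (Ex x) = x ∧ ∃ σ : ℝ → Y, ContinuousOn σ (Icc 0 (sI κ (P.p w) x)) ∧ σ 0 = w ∧
        (∀ t ∈ Icc 0 (sI κ (P.p w) x), P.p (σ t) = ray κ (P.p w) (uI κ (P.p w) x) t) ∧
        Ex x = σ (sI κ (P.p w) x) := by
  classical
  set z := P.p w with hzdef
  have hz : z ∈ X κ m := P.mem w
  have hl : ∀ x : Dom κ z, ∃ σ : ℝ → Y, ContinuousOn σ (Icc 0 (sI κ z x)) ∧ σ 0 = w ∧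
      ∀ t ∈ Icc 0 (sI κ z x), P.p (σ t) = ray κ z (uI κ z x) t := fun x =>
    hTC w (uI κ z x) (uI_tan hz) (uI_unit x.2) (sI κ z x) (sI_nonneg κ z x)
  choose σ hσc hσ0 hσl using hl
  have hmemI : ∀ (r : unitInterval) (x : Dom κ z), (r : ℝ) * sI κ z x ∈ Icc 0 (sI κ z x) := by
    intro r x
    have h0 := sI_nonneg κ z (x : V m)
    exact ⟨mul_nonneg r.2.1 h0, mul_le_of_le_one_left h0 r.2.2⟩
  have hcsI : Continuous (fun x : Dom κ z => sI κ z (x : V m)) := by
    unfold sI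
    exact (continuous_sinv κ).comp (Real.continuous_sqrt.comp
      ((continuous_B2.comp ((continuous_tg z).comp continuous_subtype_val)).neg))
  have hcuI : Continuous (fun x : Dom κ z => uI κ z (x : V m)) := by
    unfold uI
    refine Continuous.smul (Continuous.inv₀ (Real.continuous_sqrt.comp
      ((continuous_B2.comp ((continuous_tg z).comp continuous_subtype_val)).neg)) ?_)
      ((continuous_tg z).comp continuous_subtype_val)
    intro x
    exact (sqrt_pos_of_Dom x.2).ne'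
  have hfc : Continuous (fun q : unitInterval × Dom κ z =>
      ray κ z (uI κ z (q.2 : V m)) ((q.1 : ℝ) * sI κ z (q.2 : V m))) := by
    unfold ray
    have h1 : Continuous (fun q : unitInterval × Dom κ z => (q.1 : ℝ) * sI κ z (q.2 : V m)) :=
      (continuous_subtype_val.comp continuous_fst).mul (hcsI.comp continuous_snd)
    exact (((continuous_ck hκ).comp h1).smul continuous_const).add
      (((continuous_sk hκ).comp h1).smul (hcuI.comp continuous_snd))
  let f : C(unitInterval × Dom κ z, X κ m) :=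
    ⟨fun q => ⟨ray κ z (uI κ z (q.2 : V m)) ((q.1 : ℝ) * sI κ z (q.2 : V m)),
      ray_mem hκ hz (uI_tan hz) (uI_unit q.2.2) _⟩, hfc.subtype_mk _⟩
  let g : unitInterval × Dom κ z → Y := fun q => σ q.2 ((q.1 : ℝ) * sI κ z (q.2 : V m))
  have hg : Continuous g := by
    refine P.lh.continuous_lift (T2Space.isSeparatedMap _) f ?_ ?_ ?_
    · funext q
      apply Subtype.ext
      exact hσl q.2 _ (hmemI q.1 q.2)
    · have : (fun x : Dom κ z => g (0, x)) = fun _ => w := by
        funext x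
        simp only [g, Set.Icc.coe_zero, zero_mul]
        exact hσ0 x
      show Continuous (fun x : Dom κ z => g (0, x))
      rw [this]
      exact continuous_const
    · intro x
      show Continuous (fun r : unitInterval => σ x ((r : ℝ) * sI κ z (x : V m)))
      exact (hσc x).comp_continuous (continuous_subtype_val.mul continuous_const)
        (fun r => hmemI r x)
  let Ex : V m → Y := fun x => if h : x ∈ Dom κ z then g (1, ⟨x, h⟩) else w
  have hEx : ∀ x (h : x ∈ Dom κ z), Ex x = σ ⟨x, h⟩ (sI κ z x) := by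
    intro x h
    simp only [Ex, dif_pos h, g, Set.Icc.coe_one, one_mul]
  refine ⟨Ex, ?_, ?_⟩
  · rw [continuousOn_iff_continuous_domRestrict]
    have : (Dom κ z).domRestrict Ex = fun x : Dom κ z => g (1, x) := by
      funext x
      rw [Set.domRestrict_apply, hEx x x.2]
      simp only [g, Set.Icc.coe_one, one_mul]
    rw [this]
    exact hg.comp (Continuous.prodMk_right (1 : unitInterval))
  · intro x hx
    have hs : sI κ z x ∈ Icc 0 (sI κ z x) := ⟨sI_nonneg κ z x, le_rfl⟩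
    refine ⟨?_, σ ⟨x, hx⟩, hσc ⟨x, hx⟩, hσ0 ⟨x, hx⟩, hσl ⟨x, hx⟩, hEx x hx⟩
    rw [hEx x hx, hσl ⟨x, hx⟩ _ hs]
    exact ray_I hκ hz hx

end tcexp

/-- timelike completeness implies that curves whose development converges, converge -/
theorem Dev.tendsto_of_TC {κ : ℝ} {m : ℕ} (hκ : κ = -1 ∨ κ = 0 ∨ κ = 1) {Y : Type*}
    [TopologicalSpace Y] [T2Space Y] (P : Dev κ m Y) (hTC : P.TC) (c : ℝ → Y) {a b : ℝ} (hab : a < b)
    (hc : ContinuousOn c (Ico a b)) {x₁ : V m} (hlim : Tendsto (P.p ∘ c) (𝓝[<] b) (𝓝 x₁)) :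
    ∃ y₁, Tendsto c (𝓝[<] b) (𝓝 y₁) := by
  have hX₁ : x₁ ∈ X κ m := by
    have hcl : IsClosed (X κ m) := isClosed_eq continuous_Q2 continuous_const
    exact hcl.mem_of_tendsto hlim (Eventually.of_forall fun t => P.mem (c t))
  obtain ⟨z, hz, hxz⟩ := exists_base hκ hX₁
  obtain ⟨O, hO, hDom⟩ := Dom_open_rel (κ := κ) z
  have hx₁O : x₁ ∈ O := by
    have := hxz
    rw [hDom] at this
    exact this.2
  have hev : ∀ᶠ t in 𝓝[<] b, P.p (c t) ∈ O := hlim (hO.mem_nhds hx₁O)
  obtain ⟨l, hl, hlO⟩ := (mem_nhdsLT_iff_exists_Ioo_subset).1 hev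
  have hl : l < b := hl
  obtain ⟨t1, ht1a, ht1b, ht1l⟩ : ∃ t1, a ≤ t1 ∧ t1 < b ∧ l < t1 := by
    refine ⟨max ((a + b) / 2) ((l + b) / 2), ?_, ?_, ?_⟩
    · exact le_trans (by linarith) (le_max_left _ _)
    · exact max_lt (by linarith) (by linarith)
    · exact lt_of_lt_of_le (by linarith) (le_max_right _ _)
  have hDt : ∀ t ∈ Ico t1 b, P.p (c t) ∈ Dom κ z := by
    intro t ht
    rw [hDom]
    exact ⟨P.mem _, hlO ⟨lt_of_lt_of_le ht1l ht.1, ht.2⟩⟩
  have hD1 := hDt t1 ⟨le_rfl, ht1b⟩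
  set x := P.p (c t1) with hxdef
  have hray : ray κ z (uI κ z x) (sI κ z x) = x := ray_I hκ hz hD1
  have hvt := vel_tan hκ hz (uI_tan (x := x) hz) (uI_unit hD1) (sI κ z x)
  have hvu := vel_unit hκ hz (uI_tan (x := x) hz) (uI_unit hD1) (sI κ z x)
  rw [hray] at hvt
  obtain ⟨σ0, hσ0c, hσ00, hσ0l⟩ := hTC (c t1) (-vel κ z (uI κ z x) (sI κ z x))
    (by rw [Q_neg_right]; rw [← hxdef, hvt]; ring)
    (by rw [B_neg_left, B_neg_right, hvu]; ring) (sI κ z x) (sI_nonneg κ z x)
  have hrev : ∀ r, ray κ (P.p (c t1)) (-vel κ z (uI κ z x) (sI κ z x)) r =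
      ray κ z (uI κ z x) (sI κ z x - r) := by
    intro r
    rw [← hxdef]
    have := ray_rev hκ z (uI κ z x) (sI κ z x) r
    rw [hray] at this
    exact this
  have hs0 : sI κ z x ∈ Icc 0 (sI κ z x) := ⟨sI_nonneg κ z x, le_rfl⟩
  have hpw : P.p (σ0 (sI κ z x)) = z := by
    rw [hσ0l _ hs0, hrev, sub_self, ray_zero hκ]
  obtain ⟨Ex, hExc, hEx⟩ := exists_exp hκ P hTC (σ0 (sI κ z x))
  rw [hpw] at hExc hEx
  have hE1 : Ex x = c t1 := by
    obtain ⟨-, σ, hσc, hσ0', hσl, hExσ⟩ := hEx x hD1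
    rw [hExσ]
    have h2c : ContinuousOn (fun r => σ0 (sI κ z x - r)) (Icc 0 (sI κ z x)) := by
      refine hσ0c.comp (continuous_const.sub continuous_id).continuousOn ?_
      intro r hr
      exact ⟨by simpa using hr.2, by simpa using hr.1⟩
    have := P.lift_unique (S := Icc 0 (sI κ z x)) isPreconnected_Icc hσc h2c ?_
      (t0 := 0) ⟨le_rfl, sI_nonneg κ z x⟩ ?_
    · have h3 := this hs0
      simp only [sub_self] at h3
      rw [h3, hσ00]
    · intro t ht
      show P.p (σ t) = P.p (σ0 (sI κ z x - t))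
      rw [hσl t ht, hσ0l (sI κ z x - t) ⟨by linarith [ht.2], by linarith [ht.1]⟩, hrev]
      congr 1
      ring
    · show σ 0 = σ0 (sI κ z x - 0)
      rw [hσ0', sub_zero]
  have hcont : ContinuousOn (fun t => Ex (P.p (c t))) (Ico t1 b) := by
    refine hExc.comp (P.continuous_p.comp_continuousOn (hc.mono (Ico_subset_Ico_left ht1a))) ?_
    intro t ht
    exact hDt t ht
  have heq : EqOn c (fun t => Ex (P.p (c t))) (Ico t1 b) := by
    refine P.lift_unique isPreconnected_Ico (hc.mono (Ico_subset_Ico_left ht1a)) hcont ?_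
      (t0 := t1) ⟨le_rfl, ht1b⟩ ?_
    · intro t ht
      exact ((hEx _ (hDt t ht)).1).symm
    · exact hE1.symm
  refine ⟨Ex x₁, ?_⟩
  have hevI : ∀ᶠ t in 𝓝[<] b, t ∈ Ico t1 b := by
    filter_upwards [Ioo_mem_nhdsLT ht1b] with t ht
    exact ⟨ht.1.le, ht.2⟩
  have hlim2 : Tendsto (fun t => Ex (P.p (c t))) (𝓝[<] b) (𝓝 (Ex x₁)) := by
    have h1 : Tendsto Ex (𝓝[Dom κ z] x₁) (𝓝 (Ex x₁)) := hExc x₁ hxz
    refine h1.comp (tendsto_nhdsWithin_iff.2 ⟨hlim, ?_⟩)
    filter_upwards [hevI] with t ht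
    exact hDt t ht
  refine hlim2.congr' ?_
  filter_upwards [hevI] with t ht
  exact (heq ht).symm

end Pool.Agent.Helper107.LC
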