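import Mathlib
import Pool.Agent.Helper107.LC.ConfT
import Pool.Agent.Helper107.LC.ConfS
import Pool.Agent.Helper107.LC.ConfN
import Pool.Agent.Helper107.LC.Bd
import Pool.Agent.Helper107.LC.LiftConv
import Pool.Agent.Helper107.LC.Glob
set_option autoImplicit false
open Set Filter Topology
open scoped ContDiff

namespace Pool.Agent.Helper107.LC

theorem tendsto_of_bdd_deriv {m : ℕ} {x v : ℝ → V m} {a b : ℝ} (hab : a < b)
    (h : ∀ s ∈ Ico a b, HasDerivAt x (v s) s) (M : ℝ) (hM : ∀ s ∈ Ico a b, ‖v s‖ ≤ M) :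
    ∃ x₁, Tendsto x (𝓝[<] b) (𝓝 x₁) := by
  have hL : LipschitzOnWith (Real.toNNReal M) x (Ico a b) := by
    apply Convex.lipschitzOnWith_of_nnnorm_hasDerivWithin_le (convex_Ico a b)
      (fun s hs => (h s hs).hasDerivWithinAt)
    intro s hs
    rw [← NNReal.coe_le_coe]
    simp only [coe_nnnorm]
    exact le_trans (hM s hs) (Real.le_coe_toNNReal M)
  have hU := hL.uniformContinuousOn
  have hc : Cauchy (𝓝[<] b) := cauchy_nhds.mono (nhdsWithin_le_nhds)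
  have hm : Ico a b ∈ 𝓝[<] b := Ico_mem_nhdsLT hab
  have : Cauchy (map x (𝓝[<] b)) := by
    rw [cauchy_map_iff]
    refine ⟨inferInstance, ?_⟩
    refine Tendsto.mono_left hU ?_
    refine le_inf hc.2 ?_
    rw [le_principal_iff]
    exact prod_mem_prod hm hm
  exact cauchy_map_iff_exists_tendsto.mp this

/-- one step extension for conformal geodesics -/
theorem Dev.IsGeod.velocity_bounded {κ : ℝ} {m : ℕ} (hκ : κ = -1 ∨ κ = 0 ∨ κ = 1) {Y : Type*}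
    [TopologicalSpace Y] [T2Space Y] [ConnectedSpace Y] (P : Dev κ m Y) {Γ : Type*} [Group Γ]
    [MulAction Γ Y] [ContinuousConstSMul Γ Y] {H : Hol P Γ} (TT : TF H) (hK : Coc Γ Y)
    {f : Y → ℝ} (hf : P.Sm f) (hinv : ∀ (γ : Γ) y, f (γ • y) = f y) (c : ℝ → Y) {a b : ℝ}
    (hc : P.IsGeod f c (Ioo a b)) {s0 : ℝ} (hs0 : a < s0) (hs0b : s0 < b) :
    ∃ M, ∀ s ∈ Ico s0 b, ‖deriv (P.p ∘ c) s‖ ≤ M := by
  obtain ⟨C1, hC1, hfb, hdf⟩ := bd_df hκ P H TT hK f hf hinv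
  obtain ⟨C2, hC2, hdT⟩ := bd_dT hκ P H TT hK
  have hsub : ∀ s ∈ Ico s0 b, s ∈ Ioo a b := fun s hs => ⟨lt_of_lt_of_le hs0 hs.1, hs.2⟩
  have hcA : ∀ s ∈ Ico s0 b, ContinuousAt c s := fun s hs =>
    hc.1.continuousAt (Ioo_mem_nhds (hsub s hs).1 (hsub s hs).2)
  have hxd : ∀ s ∈ Ico s0 b, HasDerivAt (P.p ∘ c) (deriv (P.p ∘ c) s) s := fun s hs =>
    (hc.2 s (hsub s hs)).1.hasDerivAt
  have hvd : ∀ s ∈ Ico s0 b, HasDerivAt (deriv (P.p ∘ c)) (deriv (deriv (P.p ∘ c)) s) s :=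
    fun s hs => (hc.2 s (hsub s hs)).2.1.hasDerivAt
  have hv : ∀ s ∈ Ico s0 b, Q κ ((P.p ∘ c) s) (deriv (P.p ∘ c) s) = 0 := fun s hs =>
    tangent_of_hasDerivAt _ _ _ (Eventually.of_forall fun t => P.mem _) (hxd s hs)
  have hx : ∀ s ∈ Ico s0 b, (P.p ∘ c) s ∈ X κ m := fun s _ => P.mem _
  have hTd : ∀ s ∈ Ico s0 b, HasDerivAt (TT.T ∘ c) (P.d TT.T (c s) (deriv (P.p ∘ c) s)) s :=
    fun s hs => Dev.hasDerivAt_comp P TT.sm c s (hcA s hs) _ (hxd s hs)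
  have hφd : ∀ s ∈ Ico s0 b, HasDerivAt (f ∘ c) (P.d f (c s) (deriv (P.p ∘ c) s)) s :=
    fun s hs => Dev.hasDerivAt_comp P hf c s (hcA s hs) _ (hxd s hs)
  set C := max C1 C2 with hC
  have geo : ∀ s ∈ Ico s0 b, ∀ w, Q κ ((P.p ∘ c) s) w = 0 →
      B κ (deriv (deriv (P.p ∘ c)) s) w + 2 * (fun s => P.d f (c s)) s (deriv (P.p ∘ c) s)
        * B κ (deriv (P.p ∘ c) s) w
        = B κ (deriv (P.p ∘ c) s) (deriv (P.p ∘ c) s) * (fun s => P.d f (c s)) s w :=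
    fun s hs w hw => (hc.2 s (hsub s hs)).2.2 w hw
  have hN : ∀ s ∈ Ico s0 b, ∀ w : V m, 0 ≤ N2 κ ((P.p ∘ c) s) ((TT.T ∘ c) s) w := fun s _ w =>
    N2_nonneg hκ (P.mem _) (TT.tan _) (TT.unit _) w
  have hdφ : ∀ s ∈ Ico s0 b, ∀ w, Q κ ((P.p ∘ c) s) w = 0 →
      ((fun s => P.d f (c s)) s w) ^ 2 ≤ C * N2 κ ((P.p ∘ c) s) ((TT.T ∘ c) s) w := by
    intro s hs w hw
    refine le_trans (hdf (c s) w hw) ?_
    exact mul_le_mul_of_nonneg_right (le_max_left _ _) (hN s hs w)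
  have hT' : ∀ s ∈ Ico s0 b, N2 κ ((P.p ∘ c) s) ((TT.T ∘ c) s) (P.d TT.T (c s) (deriv (P.p ∘ c) s))
      ≤ C * N2 κ ((P.p ∘ c) s) ((TT.T ∘ c) s) (deriv (P.p ∘ c) s) := by
    intro s hs
    refine le_trans (hdT (c s) _ (hv s hs)) ?_
    exact mul_le_mul_of_nonneg_right (le_max_right _ _) (hN s hs _)
  have hφ : ∀ s ∈ Ico s0 b, |(f ∘ c) s| ≤ C := fun s _ => le_trans (hfb _) (le_max_left _ _)
  rcases lt_trichotomy (B κ (deriv (P.p ∘ c) s0) (deriv (P.p ∘ c) s0)) 0 with h | h | h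
  · exact conf_time hκ hs0b (P.p ∘ c) (deriv (P.p ∘ c)) (deriv (deriv (P.p ∘ c))) (TT.T ∘ c)
      (fun s => P.d TT.T (c s) (deriv (P.p ∘ c) s)) (f ∘ c) (fun s => P.d f (c s)) C hx hxd hv hvd
      (fun s _ => TT.tan _) (fun s _ => TT.unit _) hTd hφd hφ geo hdφ hT' h
  · exact conf_null hκ hs0b (P.p ∘ c) (deriv (P.p ∘ c)) (deriv (deriv (P.p ∘ c))) (TT.T ∘ c)
      (fun s => P.d TT.T (c s) (deriv (P.p ∘ c) s)) (f ∘ c) (fun s => P.d f (c s)) C hx hxd hv hvd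
      (fun s _ => TT.tan _) (fun s _ => TT.unit _) hTd hφd hφ geo hdφ hT' h
  · exact conf_space hκ hs0b (P.p ∘ c) (deriv (P.p ∘ c)) (deriv (deriv (P.p ∘ c))) (TT.T ∘ c)
      (fun s => P.d TT.T (c s) (deriv (P.p ∘ c) s)) (f ∘ c) (fun s => P.d f (c s)) C hx hxd hv hvd
      (fun s _ => TT.tan _) (fun s _ => TT.unit _) hTd hφd hφ geo hdφ hT' h

end Pool.Agent.Helper107.LC
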