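import Mathlib
import Pool.Agent.Helper107.LC.Topo
set_option autoImplicit false
open Set Filter Topology
open scoped ContDiff

namespace Pool.Agent.Helper107.LC

section aux724
variable {κ : ℝ} {m : ℕ} {Z : Type*} [TopologicalSpace Z]

theorem contB724 {f g : Z → V m} (hf : Continuous f) (hg : Continuous g) :
    Continuous fun z => B κ (f z) (g z) := by
  unfold B
  have h1 : Continuous fun z => inner ℝ (f z).2.1 (g z).2.1 :=
    (continuous_fst.comp (continuous_snd.comp hf)).inner (continuous_fst.comp (continuous_snd.comp hg))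
  exact ((((continuous_fst.comp hf).mul (continuous_fst.comp hg)).neg).add h1).add
    (continuous_const.mul ((continuous_snd.comp (continuous_snd.comp hf)).mul
      (continuous_snd.comp (continuous_snd.comp hg))))

theorem contQ724 {f g : Z → V m} (hf : Continuous f) (hg : Continuous g) :
    Continuous fun z => Q κ (f z) (g z) := by
  unfold Q
  have h1 : Continuous fun z => inner ℝ (f z).2.1 (g z).2.1 :=
    (continuous_fst.comp (continuous_snd.comp hf)).inner (continuous_fst.comp (continuous_snd.comp hg))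
  exact (continuous_const.mul ((((continuous_fst.comp hf).mul (continuous_fst.comp hg)).neg).add
    h1)).add ((continuous_snd.comp (continuous_snd.comp hf)).mul
      (continuous_snd.comp (continuous_snd.comp hg)))

theorem conttg724 {f g : Z → V m} (hf : Continuous f) (hg : Continuous g) :
    Continuous fun z => tg κ (f z) (g z) := by
  unfold tg
  exact hg.sub ((contQ724 hf hg).smul hf)

theorem contN2724 {f t g : Z → V m} (hf : Continuous f) (ht : Continuous t) (hg : Continuous g) :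
    Continuous fun z => N2 κ (f z) (t z) (g z) := by
  unfold N2
  exact ((contB724 (conttg724 hf hg) (conttg724 hf hg)).add
    (continuous_const.mul ((contB724 (conttg724 hf hg) ht).pow 2))).add ((contQ724 hf hg).pow 2)

theorem contog724 {f g : Z → V m} (hf : Continuous f) (hg : Continuous g) :
    Continuous fun z => og κ (f z) (g z) := by
  unfold og
  exact ((Real.continuous_sqrt.comp (continuous_const.sub
    (continuous_const.mul (contB724 hg hg)))).smul hf).add hg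

theorem og_zero724 (x : V m) : og κ x 0 = x := by
  unfold og
  rw [B_zero_left, mul_zero, sub_zero, Real.sqrt_one, one_smul, add_zero]

theorem og_mem724 (hκ : κ = -1 ∨ κ = 0 ∨ κ = 1) {x w : V m} (hx : x ∈ X κ m) (hw : Q κ x w = 0)
    (h1 : κ * B κ w w < 1) : og κ x w ∈ X κ m := by
  have hxx : Q κ x x = 1 := hx
  show Q κ (og κ x w) (og κ x w) = 1
  unfold og
  rw [Q_add_left, Q_add_right, Q_add_right, Q_smul_left, Q_smul_left, Q_smul_right, Q_smul_right,
    Q_comm w x, hw, hxx, Q_tan hκ hx hw w hw]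
  have h2 := Real.mul_self_sqrt (show (0:ℝ) ≤ 1 - κ * B κ w w by linarith)
  linarith

theorem N2_smul724 (x t w : V m) (a : ℝ) : N2 κ x t (a • w) = a ^ 2 * N2 κ x t w := by
  have h1 : tg κ x (a • w) = a • tg κ x w := by
    unfold tg
    rw [Q_smul_right, smul_sub, smul_smul]
  unfold N2
  rw [h1, B_smul_left, B_smul_right, B_smul_left, Q_smul_right]
  ring

theorem N2_tan724 {x t w : V m} (hw : Q κ x w = 0) :
    N2 κ x t w = B κ w w + 2 * (B κ w t) ^ 2 := by
  unfold N2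
  rw [tg_of_tan hw, hw]
  ring
end aux724

/-- the local statement -/
theorem local_lift724 {κ : ℝ} {m : ℕ} (hκ : κ = -1 ∨ κ = 0 ∨ κ = 1) {Y : Type*}
    [TopologicalSpace Y] (P : Dev κ m Y) (T : Y → V m) (hTc : Continuous T)
    (htan : ∀ y, Q κ (P.p y) (T y) = 0) (hunit : ∀ y, B κ (T y) (T y) = -1) (y0 : Y) :
    ∃ ε > 0, ∀ᶠ y in 𝓝 y0, ∀ v, Q κ (P.p y) v = 0 → N2 κ (P.p y) (T y) v < ε ^ 2 →
      κ * B κ v v < 1 ∧ P.LiftsTo y (fun s => og κ (P.p y) (s • v)) 1 := by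
  have hpc : Continuous P.p := Dev.continuous_p P
  obtain ⟨e, hye, he⟩ := P.lh y0
  have heapp : ∀ y, e y = ⟨P.p y, P.mem y⟩ := fun y => (congrFun he y).symm
  have htar : e.target ∈ 𝓝 (⟨P.p y0, P.mem y0⟩ : X κ m) := by
    refine e.open_target.mem_nhds ?_
    rw [← heapp]
    exact e.map_source hye
  obtain ⟨r, hr, hball⟩ := Metric.mem_nhds_iff.1 htar
  have hball' : ∀ x (hx : x ∈ X κ m), dist x (P.p y0) < r → (⟨x, hx⟩ : X κ m) ∈ e.target :=
    fun x hx hd => hball hd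
  -- continuity of og near (y0, 0)
  have hΨc : Continuous fun q : Y × V m => og κ (P.p q.1) q.2 :=
    contog724 (hpc.comp continuous_fst) continuous_snd
  have hΨ1 : ∀ᶠ q : Y × V m in 𝓝 (y0, (0 : V m)), dist (og κ (P.p q.1) q.2) (P.p y0) < r := by
    have h1 : Continuous fun q : Y × V m => dist (og κ (P.p q.1) q.2) (P.p y0) :=
      hΨc.dist continuous_const
    refine (h1.tendsto (y0, (0 : V m))).eventually_lt_const ?_
    show dist (og κ (P.p y0) 0) (P.p y0) < r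
    rw [og_zero724, dist_self]
    exact hr
  have hΨ2 : ∀ᶠ q : Y × V m in 𝓝 (y0, (0 : V m)), κ * B κ q.2 q.2 < 1 := by
    have h1 : Continuous fun q : Y × V m => κ * B κ q.2 q.2 :=
      continuous_const.mul (contB724 continuous_snd continuous_snd)
    refine (h1.tendsto (y0, (0 : V m))).eventually_lt_const ?_
    show κ * B κ (0 : V m) 0 < 1
    rw [B_zero_left, mul_zero]
    exact one_pos
  have h3 := hΨ1.and hΨ2
  rw [nhds_prod_eq, Filter.eventually_prod_iff] at h3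
  obtain ⟨pa, hpa, pb, hpb, hab⟩ := h3
  obtain ⟨δ, hδ, hδb⟩ := Metric.eventually_nhds_iff.1 hpb
  have hδ' : ∀ w : V m, ‖w‖ < δ → pb w := fun w hw => hδb (by rw [dist_zero_right]; exact hw)
  -- lower bound for N2
  have hNc : Continuous fun q : Y × V m => N2 κ (P.p q.1) (T q.1) q.2 :=
    contN2724 (hpc.comp continuous_fst) (hTc.comp continuous_fst) continuous_snd
  obtain ⟨c, hc, hcN⟩ : ∃ c > 0, ∀ᶠ y in 𝓝 y0, ∀ w : V m, c * ‖w‖ ^ 2 ≤ N2 κ (P.p y) (T y) w := by
    have hS : IsCompact (Metric.sphere (0 : V m) 1) := isCompact_sphere _ _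
    have hSne : (Metric.sphere (0 : V m) 1).Nonempty := NormedSpace.sphere_nonempty.2 zero_le_one
    have hNy : Continuous fun w : V m => N2 κ (P.p y0) (T y0) w :=
      contN2724 continuous_const continuous_const continuous_id
    obtain ⟨w0, hw0, hmin⟩ := hS.exists_isMinOn hSne hNy.continuousOn
    have hw0ne : w0 ≠ 0 := by
      rintro rfl
      rw [mem_sphere_iff_norm, sub_zero, norm_zero] at hw0
      exact zero_ne_one hw0
    have hpos : 0 < N2 κ (P.p y0) (T y0) w0 :=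
      N2_pos hκ (P.mem y0) (htan y0) (hunit y0) hw0ne
    refine ⟨N2 κ (P.p y0) (T y0) w0 / 2, by positivity, ?_⟩
    have h4 : ∀ᶠ y in 𝓝 y0, ∀ w ∈ Metric.sphere (0 : V m) 1,
        N2 κ (P.p y0) (T y0) w0 / 2 < N2 κ (P.p y) (T y) w := by
      refine hS.eventually_forall_of_forall_eventually fun w hw => ?_
      refine (hNc.tendsto (y0, w)).eventually_const_lt ?_
      have h5 : N2 κ (P.p y0) (T y0) w0 ≤ N2 κ (P.p y0) (T y0) w := hmin hw
      show N2 κ (P.p y0) (T y0) w0 / 2 < N2 κ (P.p y0) (T y0) w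
      linarith
    filter_upwards [h4] with y hy w
    by_cases hw : w = 0
    · rw [hw, norm_zero]
      have := N2_smul724 (κ := κ) (P.p y) (T y) (0 : V m) 0
      rw [zero_smul] at this
      rw [this]
      simp
    · have hwn : 0 < ‖w‖ := norm_pos_iff.2 hw
      have h5 := hy (‖w‖⁻¹ • w) (by
        rw [mem_sphere_iff_norm, sub_zero, norm_smul, norm_inv, norm_norm,
          inv_mul_cancel₀ hwn.ne'])
      rw [N2_smul724] at h5
      have h6 : (‖w‖⁻¹) ^ 2 * N2 κ (P.p y) (T y) w * ‖w‖ ^ 2 = N2 κ (P.p y) (T y) w := by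
        field_simp
      have h7 := mul_le_mul_of_nonneg_right h5.le (sq_nonneg ‖w‖)
      rw [h6] at h7
      exact h7
  refine ⟨Real.sqrt c * δ, by positivity, ?_⟩
  have hsrc : ∀ᶠ y in 𝓝 y0, y ∈ e.source := e.open_source.mem_nhds hye
  filter_upwards [hsrc, hpa, hcN] with y hy1 hy2 hy3 v hv hvN
  have hvδ : ‖v‖ < δ := by
    rw [mul_pow, Real.sq_sqrt hc.le] at hvN
    have h5 := (hy3 v).trans_lt hvN
    have h6 : ‖v‖ ^ 2 < δ ^ 2 := lt_of_mul_lt_mul_left h5 hc.le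
    exact lt_of_pow_lt_pow_left₀ 2 hδ.le h6
  have hsmall : ∀ s ∈ Icc (0:ℝ) 1, ‖s • v‖ < δ := by
    intro s hs
    rw [norm_smul, Real.norm_eq_abs, abs_of_nonneg hs.1]
    have := mul_le_mul_of_nonneg_right hs.2 (norm_nonneg v)
    linarith
  have hog : ∀ s ∈ Icc (0:ℝ) 1, dist (og κ (P.p y) (s • v)) (P.p y0) < r ∧
      κ * B κ (s • v) (s • v) < 1 := fun s hs => hab hy2 (hδ' _ (hsmall s hs))
  have hogX : ∀ s ∈ Icc (0:ℝ) 1, og κ (P.p y) (s • v) ∈ X κ m := fun s hs =>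
    og_mem724 hκ (P.mem y) (by rw [Q_smul_right, hv, mul_zero]) (hog s hs).2
  refine ⟨(hab hy2 (hδ' v hvδ)).2, ?_⟩
  classical
  let σ : ℝ → Y := fun s => if h : og κ (P.p y) (s • v) ∈ X κ m then
    e.symm ⟨og κ (P.p y) (s • v), h⟩ else y
  have hσ : ∀ s (hs : s ∈ Icc (0:ℝ) 1), σ s = e.symm ⟨og κ (P.p y) (s • v), hogX s hs⟩ :=
    fun s hs => dif_pos (hogX s hs)
  refine ⟨σ, ?_, ?_, ?_⟩
  · rw [continuousOn_iff_continuous_restrict]
    have h5 : (Icc (0:ℝ) 1).domRestrict σ =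
        fun s : Icc (0:ℝ) 1 => e.symm ⟨og κ (P.p y) (s.1 • v), hogX s.1 s.2⟩ := by
      funext s
      exact hσ s.1 s.2
    rw [h5]
    refine e.continuousOn_symm.comp_continuous ?_ fun s => hball' _ _ (hog s.1 s.2).1
    refine Continuous.subtype_mk ?_ _
    exact contog724 continuous_const (continuous_subtype_val.smul continuous_const)
  · have h0 : (0:ℝ) ∈ Icc (0:ℝ) 1 := ⟨le_rfl, zero_le_one⟩
    rw [hσ 0 h0]
    have h5 : (⟨og κ (P.p y) ((0:ℝ) • v), hogX 0 h0⟩ : X κ m) = e y := by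
      rw [heapp]
      apply Subtype.ext
      show og κ (P.p y) ((0:ℝ) • v) = P.p y
      rw [zero_smul, og_zero724]
    rw [h5]
    exact e.left_inv hy1
  · intro s hs
    rw [hσ s hs]
    have h5 := e.right_inv (hball' _ (hogX s hs) (hog s hs).1)
    rw [heapp] at h5
    exact congrArg Subtype.val h5

/-- uniform radius on which the orthographic rays lift -/
theorem exists_uniform_lift {κ : ℝ} {m : ℕ} (hκ : κ = -1 ∨ κ = 0 ∨ κ = 1) {Y : Type*}
    [TopologicalSpace Y] [T2Space Y] (P : Dev κ m Y) {Γ : Type*} [Group Γ] [MulAction Γ Y]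
    [ContinuousConstSMul Γ Y] (H : Hol P Γ) (TT : TF H) (hK : Coc Γ Y) :
    ∃ ε > 0, ∀ y v, Q κ (P.p y) v = 0 → N2 κ (P.p y) (TT.T y) v < ε ^ 2 →
      κ * B κ v v < 1 ∧ P.LiftsTo y (fun s => og κ (P.p y) (s • v)) 1 := by
  obtain ⟨K, hKc, hKγ⟩ := hK
  have hTc : Continuous TT.T := Dev.Sm.continuous TT.sm
  -- uniform on K
  obtain ⟨ε, hε, hεK⟩ : ∃ ε > 0, ∀ y ∈ K, ∀ v, Q κ (P.p y) v = 0 →
      N2 κ (P.p y) (TT.T y) v < ε ^ 2 →
      κ * B κ v v < 1 ∧ P.LiftsTo y (fun s => og κ (P.p y) (s • v)) 1 := by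
    refine hKc.induction_on (p := fun S => ∃ ε > 0, ∀ y ∈ S, ∀ v, Q κ (P.p y) v = 0 →
      N2 κ (P.p y) (TT.T y) v < ε ^ 2 →
      κ * B κ v v < 1 ∧ P.LiftsTo y (fun s => og κ (P.p y) (s • v)) 1) ?_ ?_ ?_ ?_
    · exact ⟨1, one_pos, fun y hy => absurd hy (Set.notMem_empty y)⟩
    · rintro S S' hSS ⟨ε, hε, h⟩
      exact ⟨ε, hε, fun y hy => h y (hSS hy)⟩
    · rintro S S' ⟨ε, hε, h⟩ ⟨ε', hε', h'⟩
      refine ⟨min ε ε', lt_min hε hε', fun y hy v hv hvN => ?_⟩
      have hm : 0 < min ε ε' := lt_min hε hε'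
      rcases hy with hy | hy
      · exact h y hy v hv (hvN.trans_le (pow_le_pow_left₀ hm.le (min_le_left _ _) 2))
      · exact h' y hy v hv (hvN.trans_le (pow_le_pow_left₀ hm.le (min_le_right _ _) 2))
    · intro y0 _
      obtain ⟨ε, hε, h⟩ := local_lift724 hκ P TT.T hTc TT.tan TT.unit y0
      exact ⟨_, mem_nhdsWithin_of_mem_nhds h, ε, hε, fun y hy => hy⟩
  refine ⟨ε, hε, fun y v hv hvN => ?_⟩
  obtain ⟨γ, hγ⟩ := hKγ y
  have hQ' : Q κ (P.p (γ • y)) (H.ρ γ v) = 0 := by rw [H.eqv, H.Qinv, hv]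
  have hB' : B κ (H.ρ γ v) (H.ρ γ v) = B κ v v := H.Binv γ (P.p y) v v (P.mem y) hv hv
  have hBT : (B κ (H.ρ γ v) (TT.T (γ • y))) ^ 2 = (B κ v (TT.T y)) ^ 2 := by
    have h1 := H.Binv γ (P.p y) v (TT.T y) (P.mem y) hv (TT.tan y)
    rcases TT.eqv γ y with h | h
    · rw [h, h1]
    · rw [h, B_neg_right, h1]; ring
  have hN' : N2 κ (P.p (γ • y)) (TT.T (γ • y)) (H.ρ γ v) = N2 κ (P.p y) (TT.T y) v := by
    rw [N2_tan724 hQ', N2_tan724 hv, hB', hBT]
  obtain ⟨h1, σ, hσc, hσ0, hσl⟩ := hεK (γ • y) hγ (H.ρ γ v) hQ' (by rw [hN']; exact hvN)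
  rw [hB'] at h1
  refine ⟨h1, fun t => γ⁻¹ • σ t, hσc.const_smul γ⁻¹, ?_, ?_⟩
  · show γ⁻¹ • σ 0 = y
    rw [hσ0, inv_smul_smul]
  · intro t ht
    show P.p (γ⁻¹ • σ t) = og κ (P.p y) (t • v)
    rw [H.eqv, hσl t ht]
    have h2 : og κ (P.p (γ • y)) (t • H.ρ γ v) = H.ρ γ (og κ (P.p y) (t • v)) := by
      unfold og
      rw [H.eqv, map_add, map_smul, map_smul]
      have h3 : B κ (t • H.ρ γ v) (t • H.ρ γ v) = B κ (t • v) (t • v) := by
        rw [B_smul_left, B_smul_right, B_smul_left, B_smul_right, hB']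
      rw [h3]
    show H.ρ γ⁻¹ (og κ (P.p (γ • y)) (t • H.ρ γ v)) = og κ (P.p y) (t • v)
    rw [h2]
    have h4 : H.ρ γ⁻¹ (H.ρ γ (og κ (P.p y) (t • v))) =
        (H.ρ γ⁻¹ * H.ρ γ) (og κ (P.p y) (t • v)) := rfl
    rw [h4, ← map_mul, inv_mul_cancel, map_one]
    rfl

end Pool.Agent.Helper107.LC
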