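import Mathlib
import Pool.Agent.Helper107.LC.Topo
set_option autoImplicit false
open Set Filter Topology
open scoped ContDiff

namespace Pool.Agent.Helper107.LC

section LC11
variable {κ : ℝ} {m : ℕ} {Y : Type*} [TopologicalSpace Y]

theorem LC11_cont_B : Continuous (fun q : V m × V m => B κ q.1 q.2) := by
  unfold B; fun_prop

theorem LC11_cont_Q : Continuous (fun q : V m × V m => Q κ q.1 q.2) := by
  unfold Q; fun_prop

theorem LC11_cont_tg : Continuous (fun q : V m × V m => tg κ q.1 q.2) := by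
  unfold tg
  exact continuous_snd.sub (LC11_cont_Q.smul continuous_fst)

theorem LC11_cont_N2 : Continuous (fun q : V m × V m × V m => N2 κ q.1 q.2.1 q.2.2) := by
  unfold N2
  have h1 : Continuous (fun q : V m × V m × V m => tg κ q.1 q.2.2) :=
    LC11_cont_tg.comp (continuous_fst.prodMk (continuous_snd.comp continuous_snd))
  have h2 : Continuous (fun q : V m × V m × V m => B κ (tg κ q.1 q.2.2) (tg κ q.1 q.2.2)) :=
    LC11_cont_B.comp (h1.prodMk h1)
  have h3 : Continuous (fun q : V m × V m × V m => B κ (tg κ q.1 q.2.2) q.2.1) :=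
    LC11_cont_B.comp (h1.prodMk (continuous_fst.comp continuous_snd))
  have h4 : Continuous (fun q : V m × V m × V m => Q κ q.1 q.2.2) :=
    LC11_cont_Q.comp (continuous_fst.prodMk (continuous_snd.comp continuous_snd))
  exact (h2.add ((h3.pow 2).const_mul 2)).add (h4.pow 2)

theorem LC11_cont_og : Continuous (fun q : V m × V m => og κ q.1 q.2) := by
  unfold og
  have h1 : Continuous (fun q : V m × V m => B κ q.2 q.2) :=
    LC11_cont_B.comp (continuous_snd.prodMk continuous_snd)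
  exact ((Real.continuous_sqrt.comp (continuous_const.sub (h1.const_mul κ))).smul
    continuous_fst).add continuous_snd

theorem LC11_cont_og' {Z : Type*} [TopologicalSpace Z] {f g : Z → V m} (hf : Continuous f)
    (hg : Continuous g) : Continuous (fun z => og κ (f z) (g z)) :=
  LC11_cont_og.comp (hf.prodMk hg)

theorem LC11_contOn_N2' {Z : Type*} [TopologicalSpace Z] {s : Set Z} {f g h : Z → V m}
    (hf : ContinuousOn f s) (hg : ContinuousOn g s) (hh : ContinuousOn h s) :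
    ContinuousOn (fun z => N2 κ (f z) (g z) (h z)) s := by
  have h1 : ContinuousOn (fun z => (f z, g z, h z)) s := hf.prodMk (hg.prodMk hh)
  have h2 := (LC11_cont_N2 (κ := κ) (m := m)).comp_continuousOn h1
  simp only [Function.comp_def] at h2
  exact h2

theorem LC11_N2_smul (x t : V m) (a : ℝ) (w : V m) : N2 κ x t (a • w) = a ^ 2 * N2 κ x t w := by
  have h : tg κ x (a • w) = a • tg κ x w := by
    rw [tg, tg, Q_smul_right, smul_sub, smul_smul]
  rw [N2, N2, h, B_smul_left, B_smul_right, B_smul_left, Q_smul_right]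
  ring

theorem LC11_N2_neg (x t : V m) (w : V m) : N2 κ x t (-w) = N2 κ x t w := by
  have h := LC11_N2_smul (κ := κ) x t (-1) w
  rw [neg_one_smul] at h
  rw [h]
  ring

theorem LC11_N2_equiv {P : Dev κ m Y} {Γ : Type*} [Group Γ] [MulAction Γ Y] (H : Hol P Γ)
    (TT : TF H) (γ : Γ) (y : Y) (w : V m) :
    N2 κ (P.p (γ • y)) (TT.T (γ • y)) (H.ρ γ w) = N2 κ (P.p y) (TT.T y) w := by
  have e1 : tg κ (P.p (γ • y)) (H.ρ γ w) = H.ρ γ (tg κ (P.p y) w) := by
    rw [tg, tg, H.eqv, H.Qinv, map_sub, map_smul]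
  have e2 : Q κ (P.p (γ • y)) (H.ρ γ w) = Q κ (P.p y) w := by
    rw [H.eqv, H.Qinv]
  have e3 : B κ (H.ρ γ (tg κ (P.p y) w)) (H.ρ γ (tg κ (P.p y) w)) =
      B κ (tg κ (P.p y) w) (tg κ (P.p y) w) :=
    H.Binv γ (P.p y) _ _ (P.mem y) (Q_tg (P.mem y) w) (Q_tg (P.mem y) w)
  have e4 : B κ (H.ρ γ (tg κ (P.p y) w)) (H.ρ γ (TT.T y)) = B κ (tg κ (P.p y) w) (TT.T y) :=
    H.Binv γ (P.p y) _ _ (P.mem y) (Q_tg (P.mem y) w) (TT.tan y)
  rw [N2, N2, e1, e2, e3]
  rcases TT.eqv γ y with h | h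
  · rw [h, e4]
  · rw [h, B_neg_right, e4]
    ring

theorem LC11_og_zero (x : V m) : og κ x 0 = x := by
  rw [og, B_zero_left]
  simp

theorem LC11_og_equiv {P : Dev κ m Y} {Γ : Type*} [Group Γ] [MulAction Γ Y] (H : Hol P Γ)
    (γ : Γ) (y : Y) (v : V m) (hv : Q κ (P.p y) v = 0) :
    og κ (P.p (γ • y)) (H.ρ γ v) = H.ρ γ (og κ (P.p y) v) := by
  rw [og, og, H.Binv γ (P.p y) v v (P.mem y) hv hv, H.eqv, map_add, map_smul]

theorem LC11_coercive (hκ : κ = -1 ∨ κ = 0 ∨ κ = 1) (P : Dev κ m Y) (T : Y → V m)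
    (hT : Continuous T) (htan : ∀ y, Q κ (P.p y) (T y) = 0) (hun : ∀ y, B κ (T y) (T y) = -1)
    {K : Set Y} (hK : IsCompact K) (e : ℝ) :
    ∃ R : ℝ, ∀ y ∈ K, ∀ v, N2 κ (P.p y) (T y) v ≤ e → ‖v‖ ≤ R := by
  rcases K.eq_empty_or_nonempty with h | hne
  · refine ⟨0, ?_⟩
    intro y hy
    rw [h] at hy
    exact absurd hy (Set.notMem_empty _)
  · have hS : IsCompact (Metric.sphere (0 : V m) 1) := isCompact_sphere _ _
    have hSne : (Metric.sphere (0 : V m) 1).Nonempty := by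
      refine ⟨((1 : ℝ), (0 : E m), (0 : ℝ)), ?_⟩
      rw [mem_sphere_zero_iff_norm, Prod.norm_def, Prod.norm_def]
      simp
    have hf : Continuous (fun q : Y × V m => N2 κ (P.p q.1) (T q.1) q.2) :=
      LC11_cont_N2.comp ((P.continuous_p.comp continuous_fst).prodMk
        ((hT.comp continuous_fst).prodMk continuous_snd))
    obtain ⟨q0, hq0, hmin⟩ := (hK.prod hS).exists_isMinOn (hne.prod hSne) hf.continuousOn
    set c := N2 κ (P.p q0.1) (T q0.1) q0.2 with hc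
    have hq02 : q0.2 ≠ 0 := by
      intro h0
      have h1 := hq0.2
      rw [h0, mem_sphere_zero_iff_norm, norm_zero] at h1
      exact zero_ne_one h1
    have hcpos : 0 < c := N2_pos hκ (P.mem q0.1) (htan _) (hun _) hq02
    refine ⟨e / c + 1, ?_⟩
    intro y hy v hv
    have hlow : c * ‖v‖ ^ 2 ≤ N2 κ (P.p y) (T y) v := by
      by_cases hv0 : v = 0
      · rw [hv0, norm_zero]
        have := N2_nonneg hκ (P.mem y) (htan y) (hun y) (0 : V m)
        nlinarith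
      · have hvn : ‖v‖ ≠ 0 := norm_ne_zero_iff.2 hv0
        have hu : ‖v‖⁻¹ • v ∈ Metric.sphere (0 : V m) 1 := by
          rw [mem_sphere_zero_iff_norm, norm_smul, norm_inv, norm_norm, inv_mul_cancel₀ hvn]
        have h1 : c ≤ N2 κ (P.p y) (T y) (‖v‖⁻¹ • v) :=
          hmin (show ((y, ‖v‖⁻¹ • v) : Y × V m) ∈ K ×ˢ Metric.sphere (0 : V m) 1 from ⟨hy, hu⟩)
        rw [LC11_N2_smul] at h1
        have h2 : c * ‖v‖ ^ 2 ≤ ((‖v‖⁻¹) ^ 2 * N2 κ (P.p y) (T y) v) * ‖v‖ ^ 2 :=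
          mul_le_mul_of_nonneg_right h1 (by positivity)
        have h3 : ((‖v‖⁻¹) ^ 2 * N2 κ (P.p y) (T y) v) * ‖v‖ ^ 2 = N2 κ (P.p y) (T y) v := by
          field_simp
        rw [h3] at h2
        exact h2
    have h4 : ‖v‖ ^ 2 ≤ e / c := by
      rw [le_div_iff₀ hcpos]
      nlinarith
    nlinarith [sq_nonneg (‖v‖ - 1), norm_nonneg v]

open Classical in
/-- chosen lift of the orthographic path -/
noncomputable def LC11_sig (P : Dev κ m Y) (y : Y) (v : V m) : ℝ → Y :=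
  if h : P.LiftsTo y (fun s => og κ (P.p y) (s • v)) 1 then h.choose else fun _ => y

theorem LC11_sig_spec (P : Dev κ m Y) {y : Y} {v : V m}
    (h : P.LiftsTo y (fun s => og κ (P.p y) (s • v)) 1) :
    ContinuousOn (LC11_sig P y v) (Icc 0 1) ∧ LC11_sig P y v 0 = y ∧
      ∀ t ∈ Icc (0:ℝ) 1, P.p (LC11_sig P y v t) = og κ (P.p y) (t • v) := by
  have e : LC11_sig P y v = h.choose := by
    unfold LC11_sig
    rw [dif_pos h]
  rw [e]
  exact h.choose_spec

theorem LC11_sig_unique [T2Space Y] (P : Dev κ m Y) {y : Y} {v : V m} (σ : ℝ → Y)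
    (h1 : ContinuousOn σ (Icc 0 1)) (h2 : σ 0 = y)
    (h3 : ∀ t ∈ Icc (0:ℝ) 1, P.p (σ t) = og κ (P.p y) (t • v)) : LC11_sig P y v 1 = σ 1 := by
  have h : P.LiftsTo y (fun s => og κ (P.p y) (s • v)) 1 := ⟨σ, h1, h2, h3⟩
  obtain ⟨s1, s2, s3⟩ := LC11_sig_spec P h
  have hu := P.lift_unique (S := Icc (0:ℝ) 1) isPreconnected_Icc s1 h1
    (fun t ht => by rw [s3 t ht, h3 t ht]) (t0 := 0) ⟨le_rfl, zero_le_one⟩ (by rw [s2, h2])
  exact hu ⟨zero_le_one, le_rfl⟩

theorem LC11_sig_zero [T2Space Y] (P : Dev κ m Y) (y : Y) : LC11_sig P y 0 1 = y := by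
  refine LC11_sig_unique P (fun _ => y) continuousOn_const rfl ?_
  intro t _
  rw [smul_zero, LC11_og_zero]

theorem LC11_cont [T2Space Y] (P : Dev κ m Y) (A : Set (Y × V m))
    (hA : ∀ q ∈ A, P.LiftsTo q.1 (fun s => og κ (P.p q.1) (s • q.2)) 1) :
    ContinuousOn (fun q : Y × V m => LC11_sig P q.1 q.2 1) A := by
  rw [continuousOn_iff_continuous_restrict]
  have hmem : ∀ q : unitInterval × A, og κ (P.p q.2.1.1) ((q.1 : ℝ) • q.2.1.2) ∈ X κ m := by
    intro q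
    have h := (LC11_sig_spec P (hA q.2.1 q.2.2)).2.2 (q.1 : ℝ) q.1.2
    rw [← h]
    exact P.mem _
  have hcf : Continuous (fun q : unitInterval × A => og κ (P.p q.2.1.1) ((q.1 : ℝ) • q.2.1.2)) := by
    have h1 : Continuous (fun q : unitInterval × A => P.p q.2.1.1) :=
      P.continuous_p.comp (continuous_fst.comp (continuous_subtype_val.comp continuous_snd))
    have h2 : Continuous (fun q : unitInterval × A => (q.1 : ℝ) • q.2.1.2) :=
      (continuous_subtype_val.comp continuous_fst).smul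
        (continuous_snd.comp (continuous_subtype_val.comp continuous_snd))
    exact LC11_cont_og' h1 h2
  let f : C(unitInterval × A, X κ m) :=
    ⟨fun q => ⟨og κ (P.p q.2.1.1) ((q.1 : ℝ) • q.2.1.2), hmem q⟩, hcf.subtype_mk hmem⟩
  let g : unitInterval × A → Y := fun q => LC11_sig P q.2.1.1 q.2.1.2 (q.1 : ℝ)
  have hlift : (fun y => (⟨P.p y, P.mem y⟩ : X κ m)) ∘ g = f := by
    funext q
    apply Subtype.ext
    exact (LC11_sig_spec P (hA q.2.1 q.2.2)).2.2 (q.1 : ℝ) q.1.2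
  have hc0 : Continuous (fun a : A => g (0, a)) := by
    have e : (fun a : A => g (0, a)) = fun a : A => a.1.1 := by
      funext a
      exact (LC11_sig_spec P (hA a.1 a.2)).2.1
    rw [e]
    exact continuous_fst.comp continuous_subtype_val
  have hcA : ∀ a : A, Continuous (fun r : unitInterval => g (r, a)) := by
    intro a
    have h := (LC11_sig_spec P (hA a.1 a.2)).1
    exact continuousOn_iff_continuous_restrict.1 h
  have h := P.lh.continuous_lift (T2Space.isSeparatedMap _) f hlift hc0 hcA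
  have h1 : Continuous (fun a : A => g (1, a)) :=
    h.comp (continuous_const.prodMk continuous_id)
  exact h1

theorem LC11_equiv [T2Space Y] {P : Dev κ m Y} {Γ : Type*} [Group Γ] [MulAction Γ Y]
    [ContinuousConstSMul Γ Y] (H : Hol P Γ) (γ : Γ) {y : Y} {v : V m} (hv : Q κ (P.p y) v = 0)
    (h : P.LiftsTo y (fun s => og κ (P.p y) (s • v)) 1) :
    LC11_sig P (γ • y) (H.ρ γ v) 1 = γ • LC11_sig P y v 1 := by
  obtain ⟨s1, s2, s3⟩ := LC11_sig_spec P h
  refine LC11_sig_unique P (fun t => γ • LC11_sig P y v t) ?_ ?_ ?_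
  · exact (continuous_const_smul γ).comp_continuousOn s1
  · show γ • LC11_sig P y v 0 = γ • y
    rw [s2]
  · intro t ht
    show P.p (γ • LC11_sig P y v t) = _
    rw [H.eqv, s3 t ht, ← map_smul, LC11_og_equiv H γ y (t • v) (by rw [Q_smul_right, hv, mul_zero])]

end LC11

/-- construction of the local exponential map with uniform radius -/
theorem exists_exData {κ : ℝ} {m : ℕ} (hκ : κ = -1 ∨ κ = 0 ∨ κ = 1) {Y : Type*}
    [TopologicalSpace Y] [T2Space Y] (P : Dev κ m Y) {Γ : Type*} [Group Γ] [MulAction Γ Y]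
    [ContinuousConstSMul Γ Y] (H : Hol P Γ) (TT : TF H) (hK : Coc Γ Y)
    (hC1 : ∃ C : ℝ, 0 ≤ C ∧ ∀ y v, Q κ (P.p y) v = 0 →
      N2 κ (P.p y) (TT.T y) (P.d TT.T y v) ≤ C * N2 κ (P.p y) (TT.T y) v)
    (hε : ∃ ε > 0, ∀ y v, Q κ (P.p y) v = 0 → N2 κ (P.p y) (TT.T y) v < ε ^ 2 →
      κ * B κ v v < 1 ∧ P.LiftsTo y (fun s => og κ (P.p y) (s • v)) 1) :
    Nonempty (ExData TT) := by
  obtain ⟨C1, hC10, hC1⟩ := hC1
  obtain ⟨ε0, hε0, hε⟩ := hε
  obtain ⟨K, hKc, hKγ⟩ := hK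
  have hTc : Continuous TT.T := TT.sm.continuous
  have hsq : (ε0 / 2) ^ 2 < ε0 ^ 2 := by nlinarith
  obtain ⟨R, hR⟩ := LC11_coercive hκ P TT.T hTc TT.tan TT.unit hKc ((ε0 / 2) ^ 2)
  have hcont : ContinuousOn (fun q : Y × V m => LC11_sig P q.1 q.2 1)
      {q | Q κ (P.p q.1) q.2 = 0 ∧ N2 κ (P.p q.1) (TT.T q.1) q.2 < ε0 ^ 2} :=
    LC11_cont P _ (fun q hq => (hε q.1 q.2 hq.1 hq.2).2)
  have hfN : Continuous (fun q : Y × V m => N2 κ (P.p q.1) (TT.T q.1) q.2) :=
    LC11_cont_N2.comp ((P.continuous_p.comp continuous_fst).prodMk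
      ((hTc.comp continuous_fst).prodMk continuous_snd))
  have hfQ : Continuous (fun q : Y × V m => Q κ (P.p q.1) q.2) :=
    LC11_cont_Q.comp ((P.continuous_p.comp continuous_fst).prodMk continuous_snd)
  have hclosed : IsClosed {q : Y × V m | Q κ (P.p q.1) q.2 = 0 ∧
      N2 κ (P.p q.1) (TT.T q.1) q.2 ≤ (ε0 / 2) ^ 2} :=
    (isClosed_eq hfQ continuous_const).inter (isClosed_le hfN continuous_const)
  have hcomp : IsCompact ((K ×ˢ Metric.closedBall (0 : V m) R) ∩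
      {q : Y × V m | Q κ (P.p q.1) q.2 = 0 ∧ N2 κ (P.p q.1) (TT.T q.1) q.2 ≤ (ε0 / 2) ^ 2}) :=
    (hKc.prod (isCompact_closedBall _ _)).inter_right hclosed
  have hsub : ((K ×ˢ Metric.closedBall (0 : V m) R) ∩
      {q : Y × V m | Q κ (P.p q.1) q.2 = 0 ∧ N2 κ (P.p q.1) (TT.T q.1) q.2 ≤ (ε0 / 2) ^ 2}) ⊆
      {q | Q κ (P.p q.1) q.2 = 0 ∧ N2 κ (P.p q.1) (TT.T q.1) q.2 < ε0 ^ 2} := by
    rintro q ⟨_, h1, h2⟩
    exact ⟨h1, lt_of_le_of_lt h2 hsq⟩
  have hΦ : ContinuousOn (fun q : Y × V m =>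
      N2 κ (P.p q.1) (TT.T q.1) (TT.T (LC11_sig P q.1 q.2 1)))
      ((K ×ˢ Metric.closedBall (0 : V m) R) ∩
      {q : Y × V m | Q κ (P.p q.1) q.2 = 0 ∧ N2 κ (P.p q.1) (TT.T q.1) q.2 ≤ (ε0 / 2) ^ 2}) := by
    have h1 := hTc.comp_continuousOn (hcont.mono hsub)
    have h2 : Continuous (fun q : Y × V m => P.p q.1) := P.continuous_p.comp continuous_fst
    have h3 : Continuous (fun q : Y × V m => TT.T q.1) := hTc.comp continuous_fst
    exact LC11_contOn_N2' h2.continuousOn h3.continuousOn h1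
  obtain ⟨C, hC⟩ := hcomp.exists_bound_of_continuousOn hΦ
  refine ⟨{ ε := ε0 / 2, ε_pos := by linarith, C := C, ex := fun y v => LC11_sig P y v 1,
            lt_one := ?_, pex := ?_, Tex := ?_, ex_zero := ?_, cont := ?_, C1 := C1, dT := hC1 }⟩
  · intro y v hv hN
    exact (hε y v hv (hN.trans hsq)).1
  · intro y v hv hN
    have h := (LC11_sig_spec P (hε y v hv (hN.trans hsq)).2).2.2 1 ⟨zero_le_one, le_rfl⟩
    rw [one_smul] at h
    exact h
  · intro y v hv hN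
    obtain ⟨γ, hγ⟩ := hKγ y
    have hl := (hε y v hv (hN.trans hsq)).2
    have hq1 : Q κ (P.p (γ • y)) (H.ρ γ v) = 0 := by rw [H.eqv, H.Qinv, hv]
    have hq2 : N2 κ (P.p (γ • y)) (TT.T (γ • y)) (H.ρ γ v) ≤ (ε0 / 2) ^ 2 := by
      rw [LC11_N2_equiv]
      exact hN.le
    have hb := hC (γ • y, H.ρ γ v) ⟨⟨hγ, by
      rw [mem_closedBall_zero_iff]
      exact hR _ hγ _ hq2⟩, hq1, hq2⟩
    have hb' : N2 κ (P.p (γ • y)) (TT.T (γ • y)) (TT.T (LC11_sig P (γ • y) (H.ρ γ v) 1)) ≤ C :=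
      (le_abs_self _).trans hb
    rw [LC11_equiv H γ hv hl] at hb'
    rcases TT.eqv γ (LC11_sig P y v 1) with h | h
    · rw [h, LC11_N2_equiv] at hb'
      exact hb'
    · rw [h, LC11_N2_neg, LC11_N2_equiv] at hb'
      exact hb'
  · intro y
    exact LC11_sig_zero P y
  · refine hcont.mono ?_
    rintro q ⟨h1, h2⟩
    exact ⟨h1, h2.trans hsq⟩

end Pool.Agent.Helper107.LC
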