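import Mathlib
import Pool.Agent.Helper107.LC.Topo
set_option autoImplicit false
open Set Filter Topology
open scoped ContDiff

namespace Pool.Agent.Helper107.LC

section h232
variable {κ : ℝ} {m : ℕ}

/-- metric dual of a covector -/
noncomputable def rz (κ : ℝ) {m : ℕ} (L : V m →L[ℝ] ℝ) : V m :=
  (-(L (1, 0, 0)), ∑ i, L (0, EuclideanSpace.single i 1, 0) • EuclideanSpace.single i (1:ℝ),
    κ * L (0, 0, 1))

theorem h232_expand (L : V m →L[ℝ] ℝ) (w : V m) : L w = w.1 * L (1, 0, 0)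
    + ∑ i, w.2.1 i * L (0, EuclideanSpace.single i 1, 0) + w.2.2 * L (0, 0, 1) := by
  have h1 : w = w.1 • ((1, 0, 0) : V m) + (∑ i, w.2.1 i • ((0, EuclideanSpace.single i 1, 0) : V m))
      + w.2.2 • ((0, 0, 1) : V m) := by
    ext j
    · simp [Prod.fst_sum]
    · simp [Prod.fst_sum, Prod.snd_sum, Finset.sum_apply, Pi.single_apply]
    · simp [Prod.snd_sum]
  conv_lhs => rw [h1]
  rw [map_add, map_add, map_sum, map_smul, map_smul]
  simp only [map_smul, smul_eq_mul]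

theorem h232_tan0 {x w : V m} (hx : x ∈ X 0 m) (hw : Q 0 x w = 0) : w.2.2 = 0 := by
  have h1 : Q 0 x x = 1 := hx
  have hx2 : x.2.2 * x.2.2 = 1 := by simpa [Q] using h1
  have hv2 : x.2.2 * w.2.2 = 0 := by simpa [Q] using hw
  rcases mul_eq_zero.mp hv2 with h | h
  · rw [h] at hx2; norm_num at hx2
  · exact h

theorem B_rz (hκ : κ = -1 ∨ κ = 0 ∨ κ = 1) {x : V m} (hx : x ∈ X κ m) (L : V m →L[ℝ] ℝ) (w : V m)
    (hw : Q κ x w = 0) : B κ (rz κ L) w = L w := by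
  rw [h232_expand L w]
  unfold B rz
  simp only [sum_inner, real_inner_smul_left, EuclideanSpace.inner_single_left, map_one, one_mul]
  have h2 : ∑ i, L (0, EuclideanSpace.single i 1, 0) * w.2.1 i =
      ∑ i, w.2.1 i * L (0, EuclideanSpace.single i 1, 0) :=
    Finset.sum_congr rfl fun i _ => mul_comm _ _
  rw [h2]
  rcases hκ with h | h | h
  · subst h; ring
  · subst h
    rw [h232_tan0 hx hw]; ring
  · subst h; ring

/-- second derivative prescribed by the geodesic equation -/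
noncomputable def Psi (κ : ℝ) {m : ℕ} (G : V m → ℝ) (x v : V m) : V m :=
  B κ v v • tg κ x (rz κ (fderiv ℝ G x)) - (2 * fderiv ℝ G x v) • v - (κ * B κ v v) • x

theorem h232_kBxw (hκ : κ = -1 ∨ κ = 0 ∨ κ = 1) {x w : V m} (hw : Q κ x w = 0) :
    κ * B κ x w = 0 := by
  rcases hκ with h | h | h
  · subst h
    have := Q_eq_B (κ := (-1:ℝ)) x w
    rw [hw] at this
    linarith
  · subst h; ring
  · subst h
    have := Q_eq_B (κ := (1:ℝ)) x w
    rw [hw] at this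
    linarith

theorem h232_Qg (hκ : κ = -1 ∨ κ = 0 ∨ κ = 1) {x w : V m} (hw : Q κ x w = 0)
    (L : V m →L[ℝ] ℝ) : Q κ x (rz κ L) * B κ x w = 0 := by
  rcases hκ with h | h | h
  · have := h232_kBxw (Or.inl h) hw
    subst h
    have h3 : B (-1) x w = 0 := by linarith
    rw [h3, mul_zero]
  · subst h
    have : Q 0 x (rz 0 L) = 0 := by simp [Q, rz]
    rw [this, zero_mul]
  · have := h232_kBxw (Or.inr (Or.inr h)) hw
    subst h
    have h3 : B 1 x w = 0 := by linarith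
    rw [h3, mul_zero]

theorem Psi_B (hκ : κ = -1 ∨ κ = 0 ∨ κ = 1) {x v : V m} (hx : x ∈ X κ m) (G : V m → ℝ)
    (w : V m) (hw : Q κ x w = 0) :
    B κ (Psi κ G x v) w + 2 * fderiv ℝ G x v * B κ v w = B κ v v * fderiv ℝ G x w := by
  unfold Psi tg
  simp only [B_sub_left, B_smul_left, B_rz hκ hx _ w hw]
  have h1 := h232_kBxw hκ hw
  have h2 := h232_Qg hκ hw (fderiv ℝ G x)
  linear_combination (-(B κ v v)) * h1 - (B κ v v) * h2

theorem Psi_Q (hκ : κ = -1 ∨ κ = 0 ∨ κ = 1) {x v : V m} (hx : x ∈ X κ m) (hv : Q κ x v = 0)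
    (G : V m → ℝ) : Q κ x (Psi κ G x v) = -Q κ v v := by
  unfold Psi
  have h1 : Q κ x x = 1 := hx
  rw [Q_sub_right, Q_sub_right, Q_smul_right, Q_smul_right, Q_smul_right, Q_tg hx, hv, h1,
    Q_tan hκ hx hv v hv]
  ring

theorem h232_nondeg (hκ : κ = -1 ∨ κ = 0 ∨ κ = 1) {x D : V m} (hx : x ∈ X κ m)
    (hD : Q κ x D = 0) (h : ∀ w, Q κ x w = 0 → B κ D w = 0) : D = 0 := by
  have key : D.1 ^ 2 + ‖D.2.1‖ ^ 2 + D.2.2 ^ 2 = 0 := by
    rcases hκ with hk | hk | hk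
    · have hall : ∀ w, B κ D w = 0 := by
        intro w
        have h1 := h (tg κ x w) (Q_tg hx w)
        have h2 : B κ D x = 0 := by
          have := h232_kBxw (Or.inl hk) hD
          rw [hk] at this ⊢
          rw [B_comm]; linarith
        rw [tg, B_sub_right, B_smul_right, h2] at h1
        linarith
      have h3 := hall (-D.1, D.2.1, -D.2.2)
      rw [hk] at h3
      simp only [B, real_inner_self_eq_norm_sq] at h3
      nlinarith
    · subst hk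
      have hD2 := h232_tan0 hx hD
      have h3 := h (-D.1, D.2.1, 0) (by simp [Q])
      simp only [B, real_inner_self_eq_norm_sq] at h3
      rw [hD2]
      nlinarith
    · have hall : ∀ w, B κ D w = 0 := by
        intro w
        have h1 := h (tg κ x w) (Q_tg hx w)
        have h2 : B κ D x = 0 := by
          have := h232_kBxw (Or.inr (Or.inr hk)) hD
          rw [hk] at this ⊢
          rw [B_comm]; linarith
        rw [tg, B_sub_right, B_smul_right, h2] at h1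
        linarith
      have h3 := hall (-D.1, D.2.1, D.2.2)
      rw [hk] at h3
      simp only [B, real_inner_self_eq_norm_sq] at h3
      nlinarith
  have e1 : D.1 = 0 := by
    have : D.1 ^ 2 = 0 := by nlinarith [sq_nonneg D.1, sq_nonneg ‖D.2.1‖, sq_nonneg D.2.2]
    exact pow_eq_zero_iff (two_ne_zero) |>.1 this
  have e2 : D.2.1 = 0 := by
    have : ‖D.2.1‖ ^ 2 = 0 := by nlinarith [sq_nonneg D.1, sq_nonneg ‖D.2.1‖, sq_nonneg D.2.2]
    exact norm_eq_zero.1 (pow_eq_zero_iff (two_ne_zero) |>.1 this)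
  have e3 : D.2.2 = 0 := by
    have : D.2.2 ^ 2 = 0 := by nlinarith [sq_nonneg D.1, sq_nonneg ‖D.2.1‖, sq_nonneg D.2.2]
    exact pow_eq_zero_iff (two_ne_zero) |>.1 this
  exact Prod.ext e1 (Prod.ext e2 e3)

theorem Psi_unique (hκ : κ = -1 ∨ κ = 0 ∨ κ = 1) {x v A : V m} (hx : x ∈ X κ m)
    (hv : Q κ x v = 0) (G : V m → ℝ) (hA : Q κ x A = -Q κ v v)
    (h : ∀ w, Q κ x w = 0 →
      B κ A w + 2 * fderiv ℝ G x v * B κ v w = B κ v v * fderiv ℝ G x w) : A = Psi κ G x v := by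
  have h1 : A - Psi κ G x v = 0 := by
    refine h232_nondeg hκ hx ?_ ?_
    · rw [Q_sub_right, hA, Psi_Q hκ hx hv G]; ring
    · intro w hw
      rw [B_sub_left]
      have h2 := h w hw
      have h3 := Psi_B hκ hx (v := v) G w hw
      linarith
  exact sub_eq_zero.1 h1

theorem h232_contDiff_B : ContDiff ℝ ∞ (fun q : V m × V m => B κ q.1 q.2) := by
  unfold B
  have h1 : ContDiff ℝ ∞ (fun q : V m × V m => inner ℝ q.1.2.1 q.2.2.1) :=
    ContDiff.inner ℝ (by fun_prop) (by fun_prop)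
  have h2 : ContDiff ℝ ∞ (fun q : V m × V m => -(q.1.1 * q.2.1)) := by fun_prop
  have h3 : ContDiff ℝ ∞ (fun q : V m × V m => κ * (q.1.2.2 * q.2.2.2)) := by fun_prop
  exact (h2.add h1).add h3

theorem h232_contDiff_Q : ContDiff ℝ ∞ (fun q : V m × V m => Q κ q.1 q.2) := by
  unfold Q
  have h1 : ContDiff ℝ ∞ (fun q : V m × V m => inner ℝ q.1.2.1 q.2.2.1) :=
    ContDiff.inner ℝ (by fun_prop) (by fun_prop)
  have h2 : ContDiff ℝ ∞ (fun q : V m × V m => -(q.1.1 * q.2.1)) := by fun_prop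
  have h3 : ContDiff ℝ ∞ (fun q : V m × V m => (q.1.2.2 * q.2.2.2)) := by fun_prop
  exact (contDiff_const.mul (h2.add h1)).add h3

theorem h232_contDiff_rz {G : V m → ℝ} (hG : ContDiff ℝ ∞ G) :
    ContDiff ℝ ∞ (fun x : V m => rz κ (fderiv ℝ G x)) := by
  have h1 : ContDiff ℝ ∞ (fun x : V m => fderiv ℝ G x) := hG.fderiv_right (by simp)
  unfold rz
  have h2 : ∀ u : V m, ContDiff ℝ ∞ (fun x : V m => fderiv ℝ G x u) := fun u =>
    h1.clm_apply contDiff_const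
  refine ContDiff.prodMk (h2 _).neg (ContDiff.prodMk ?_ (contDiff_const.mul (h2 _)))
  exact ContDiff.sum fun i _ => (h2 _).smul contDiff_const

theorem h232_contDiff_Psi {G : V m → ℝ} (hG : ContDiff ℝ ∞ G) :
    ContDiff ℝ ∞ (fun q : V m × V m => Psi κ G q.1 q.2) := by
  have h1 : ContDiff ℝ ∞ (fun x : V m => fderiv ℝ G x) := hG.fderiv_right (by simp)
  have h2 : ContDiff ℝ ∞ (fun q : V m × V m => fderiv ℝ G q.1 q.2) :=
    (h1.comp contDiff_fst).clm_apply contDiff_snd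
  have h3 : ContDiff ℝ ∞ (fun q : V m × V m => B κ q.2 q.2) :=
    h232_contDiff_B.comp (contDiff_snd.prodMk contDiff_snd)
  have h4 : ContDiff ℝ ∞ (fun q : V m × V m => rz κ (fderiv ℝ G q.1)) :=
    (h232_contDiff_rz hG).comp contDiff_fst
  have h5 : ContDiff ℝ ∞ (fun q : V m × V m => Q κ q.1 (rz κ (fderiv ℝ G q.1))) :=
    h232_contDiff_Q.comp (contDiff_fst.prodMk h4)
  have h6 : ContDiff ℝ ∞ (fun q : V m × V m => tg κ q.1 (rz κ (fderiv ℝ G q.1))) := by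
    unfold tg
    exact h4.sub (h5.smul contDiff_fst)
  unfold Psi
  exact ((h3.smul h6).sub ((contDiff_const.mul h2).smul contDiff_snd)).sub
    ((contDiff_const.mul h3).smul contDiff_fst)

theorem h232_hasDerivAt_Q {x y : ℝ → V m} {x' y' : V m} {t : ℝ} (hx : HasDerivAt x x' t)
    (hy : HasDerivAt y y' t) :
    HasDerivAt (fun s => Q κ (x s) (y s)) (Q κ x' (y t) + Q κ (x t) y') t := by
  have hx1 : HasDerivAt (fun s => (x s).1) x'.1 t := hx.fst
  have hx2 : HasDerivAt (fun s => (x s).2.1) x'.2.1 t := hx.snd.fst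
  have hx3 : HasDerivAt (fun s => (x s).2.2) x'.2.2 t := hx.snd.snd
  have hy1 : HasDerivAt (fun s => (y s).1) y'.1 t := hy.fst
  have hy2 : HasDerivAt (fun s => (y s).2.1) y'.2.1 t := hy.snd.fst
  have hy3 : HasDerivAt (fun s => (y s).2.2) y'.2.2 t := hy.snd.snd
  have h := (((hx1.mul hy1).neg.add (hx2.inner ℝ hy2)).const_mul κ).add (hx3.mul hy3)
  unfold Q
  have e : κ * (-(x'.1 * (y t).1) + inner ℝ x'.2.1 (y t).2.1) + x'.2.2 * (y t).2.2 +
      (κ * (-((x t).1 * y'.1) + inner ℝ (x t).2.1 y'.2.1) + (x t).2.2 * y'.2.2) =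
      κ * (-(x'.1 * (y t).1 + (x t).1 * y'.1) + (inner ℝ (x t).2.1 y'.2.1 +
        inner ℝ x'.2.1 (y t).2.1)) + (x'.2.2 * (y t).2.2 + (x t).2.2 * y'.2.2) := by ring
  rw [e]
  exact h

end h232

section h232b
variable {κ : ℝ} {m : ℕ}

/-- the first order vector field -/
noncomputable def Fld (κ : ℝ) {m : ℕ} (G : V m → ℝ) (q : V m × V m) : V m × V m :=
  (q.2, Psi κ G q.1 q.2)

theorem h232_contDiff_Fld {G : V m → ℝ} (hG : ContDiff ℝ ∞ G) : ContDiff ℝ ∞ (Fld κ G) :=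
  contDiff_snd.prodMk (h232_contDiff_Psi hG)

theorem h232_flow {G : V m → ℝ} (hG : ContDiff ℝ ∞ G) (q₁ : V m × V m) :
    ∃ r > (0:ℝ), ∃ ε > (0:ℝ), ∀ t₀ : ℝ, ∀ q ∈ Metric.closedBall q₁ r,
      ∃ α : ℝ → V m × V m, α t₀ = q ∧
        ∀ t ∈ Ioo (t₀ - ε) (t₀ + ε), HasDerivAt α (Fld κ G (α t)) t := by
  have hF : ContDiffAt ℝ 1 (Fld κ G) q₁ :=
    ((h232_contDiff_Fld hG).of_le (by exact_mod_cast le_top)).contDiffAt
  obtain ⟨r, hr, ε, hε, h⟩ := hF.exists_forall_mem_closedBall_exists_eq_forall_mem_Ioo_hasDerivAt 0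
  refine ⟨r, hr, ε, hε, fun t₀ q hq => ?_⟩
  obtain ⟨α, h0, hα⟩ := h q hq
  refine ⟨fun t => α (t - t₀), by simp [h0], fun t ht => ?_⟩
  have h1 := hα (t - t₀) ⟨by linarith [ht.1], by linarith [ht.2]⟩
  exact h1.comp_sub_const t t₀

theorem h232_unique {G : V m → ℝ} (hG : ContDiff ℝ ∞ G) {α β : ℝ → V m × V m} {t0 t1 : ℝ}
    (hα : ∀ t ∈ Icc t0 t1, HasDerivAt α (Fld κ G (α t)) t)
    (hβ : ∀ t ∈ Icc t0 t1, HasDerivAt β (Fld κ G (β t)) t) (h0 : α t0 = β t0) :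
    EqOn α β (Icc t0 t1) := by
  have hαc : ContinuousOn α (Icc t0 t1) := fun t ht => (hα t ht).continuousAt.continuousWithinAt
  have hβc : ContinuousOn β (Icc t0 t1) := fun t ht => (hβ t ht).continuousAt.continuousWithinAt
  obtain ⟨R1, hR1⟩ := isCompact_Icc.exists_bound_of_continuousOn hαc
  obtain ⟨R2, hR2⟩ := isCompact_Icc.exists_bound_of_continuousOn hβc
  have hF : ContDiff ℝ 1 (Fld κ G) := (h232_contDiff_Fld hG).of_le (by exact_mod_cast le_top)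
  obtain ⟨K, hK⟩ := (hF.locallyLipschitz.locallyLipschitzOn
    (s := Metric.closedBall (0 : V m × V m) (max R1 R2))).exists_lipschitzOnWith_of_compact
    (isCompact_closedBall _ _)
  refine ODE_solution_unique_of_mem_Icc_right (v := fun _ => Fld κ G) (K := K)
    (s := fun _ => Metric.closedBall (0 : V m × V m) (max R1 R2)) (fun t _ => hK) hαc
    (fun t ht => (hα t (Ico_subset_Icc_self ht)).hasDerivWithinAt) (fun t ht => ?_) hβc
    (fun t ht => (hβ t (Ico_subset_Icc_self ht)).hasDerivWithinAt) (fun t ht => ?_) h0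
  · rw [mem_closedBall_zero_iff]
    exact (hR1 t (Ico_subset_Icc_self ht)).trans (le_max_left _ _)
  · rw [mem_closedBall_zero_iff]
    exact (hR2 t (Ico_subset_Icc_self ht)).trans (le_max_right _ _)

theorem h232_constraint (hκ : κ = -1 ∨ κ = 0 ∨ κ = 1) {G : V m → ℝ} (hG : ContDiff ℝ ∞ G)
    {α : ℝ → V m × V m} {t0 t1 : ℝ}
    (hα : ∀ t ∈ Icc t0 t1, HasDerivAt α (Fld κ G (α t)) t) (h0x : (α t0).1 ∈ X κ m)
    (h0v : Q κ (α t0).1 (α t0).2 = 0) :
    ∀ t ∈ Icc t0 t1, (α t).1 ∈ X κ m ∧ Q κ (α t).1 (α t).2 = 0 := by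
  have hαc : ContinuousOn α (Icc t0 t1) := fun t ht => (hα t ht).continuousAt.continuousWithinAt
  -- coefficients
  have hcG : Continuous (fun q : V m × V m => fderiv ℝ G q.1 q.2) :=
    (((hG.fderiv_right (m := ∞) (by simp)).comp contDiff_fst).clm_apply contDiff_snd).continuous
  have hcB : Continuous (fun q : V m × V m => B κ q.2 q.2) :=
    (h232_contDiff_B.comp (contDiff_snd.prodMk contDiff_snd)).continuous
  have hcQ : Continuous (fun q : V m × V m => Q κ q.1 (rz κ (fderiv ℝ G q.1))) :=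
    (h232_contDiff_Q.comp (contDiff_fst.prodMk ((h232_contDiff_rz hG).comp contDiff_fst))).continuous
  have hcoef : Continuous (fun q : V m × V m => |q.2.2.2| +
      |B κ q.2 q.2 * Q κ q.1 (rz κ (fderiv ℝ G q.1)) + κ * B κ q.2 q.2| +
      |2 * fderiv ℝ G q.1 q.2|) := by
    refine ((Continuous.abs (by fun_prop)).add (Continuous.abs ((hcB.mul hcQ).add
      (continuous_const.mul hcB)))).add (Continuous.abs (continuous_const.mul hcG))
  obtain ⟨C, hC⟩ := isCompact_Icc.exists_bound_of_continuousOn (hcoef.comp_continuousOn hαc)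
  have hd1 : ∀ t ∈ Icc t0 t1, HasDerivAt (fun s => (α s).1) (α t).2 t := fun t ht => (hα t ht).fst
  have hd2 : ∀ t ∈ Icc t0 t1, HasDerivAt (fun s => (α s).2) (Psi κ G (α t).1 (α t).2) t :=
    fun t ht => (hα t ht).snd
  have hder : ∀ t ∈ Icc t0 t1, HasDerivAt
      (fun s => ((Q κ (α s).1 (α s).1 - 1, Q κ (α s).1 (α s).2, (1 - κ ^ 2) * (α s).2.2.2) : ℝ × ℝ × ℝ))
      ((2 * Q κ (α t).1 (α t).2,
        (α t).2.2.2 * ((1 - κ ^ 2) * (α t).2.2.2)
          - (B κ (α t).2 (α t).2 * Q κ (α t).1 (rz κ (fderiv ℝ G (α t).1)) + κ * B κ (α t).2 (α t).2)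
            * (Q κ (α t).1 (α t).1 - 1) - 2 * fderiv ℝ G (α t).1 (α t).2 * Q κ (α t).1 (α t).2,
        -(2 * fderiv ℝ G (α t).1 (α t).2 * ((1 - κ ^ 2) * (α t).2.2.2))) : ℝ × ℝ × ℝ) t := by
    intro t ht
    refine HasDerivAt.prodMk ?_ (HasDerivAt.prodMk ?_ ?_)
    · have h1 := (h232_hasDerivAt_Q (κ := κ) (hd1 t ht) (hd1 t ht)).sub_const 1
      have e : 2 * Q κ (α t).1 (α t).2 = Q κ (α t).2 (α t).1 + Q κ (α t).1 (α t).2 := by
        rw [Q_comm (α t).2 (α t).1]; ring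
      rw [e]
      exact h1
    · have h1 := h232_hasDerivAt_Q (κ := κ) (hd1 t ht) (hd2 t ht)
      have e : (α t).2.2.2 * ((1 - κ ^ 2) * (α t).2.2.2)
          - (B κ (α t).2 (α t).2 * Q κ (α t).1 (rz κ (fderiv ℝ G (α t).1)) + κ * B κ (α t).2 (α t).2)
            * (Q κ (α t).1 (α t).1 - 1) - 2 * fderiv ℝ G (α t).1 (α t).2 * Q κ (α t).1 (α t).2 =
          Q κ (α t).2 (α t).2 + Q κ (α t).1 (Psi κ G (α t).1 (α t).2) := by
        unfold Psi tg
        rw [Q_eq_B (α t).2 (α t).2]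
        simp only [Q_sub_right, Q_smul_right]
        ring
      rw [e]
      exact h1
    · have h0 : HasDerivAt (fun s => (α s).2.2.2) (Psi κ G (α t).1 (α t).2).2.2 t :=
        (hd2 t ht).snd.snd
      have h1 : HasDerivAt (fun s => (1 - κ ^ 2) * (α s).2.2.2)
          ((1 - κ ^ 2) * (Psi κ G (α t).1 (α t).2).2.2) t := h0.const_mul _
      have e : -(2 * fderiv ℝ G (α t).1 (α t).2 * ((1 - κ ^ 2) * (α t).2.2.2)) =
          (1 - κ ^ 2) * (Psi κ G (α t).1 (α t).2).2.2 := by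
        rcases hκ with hk | hk | hk
        · subst hk; ring
        · subst hk
          unfold Psi tg
          simp [Q, rz]
        · subst hk; ring
      rw [e]
      exact h1
  have hz := eq_zero_of_abs_deriv_le_mul_abs_self_of_eq_zero_right
    (f := fun s => ((Q κ (α s).1 (α s).1 - 1, Q κ (α s).1 (α s).2, (1 - κ ^ 2) * (α s).2.2.2) : ℝ × ℝ × ℝ))
    (f' := fun t => ((2 * Q κ (α t).1 (α t).2,
        (α t).2.2.2 * ((1 - κ ^ 2) * (α t).2.2.2)
          - (B κ (α t).2 (α t).2 * Q κ (α t).1 (rz κ (fderiv ℝ G (α t).1)) + κ * B κ (α t).2 (α t).2)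
            * (Q κ (α t).1 (α t).1 - 1) - 2 * fderiv ℝ G (α t).1 (α t).2 * Q κ (α t).1 (α t).2,
        -(2 * fderiv ℝ G (α t).1 (α t).2 * ((1 - κ ^ 2) * (α t).2.2.2))) : ℝ × ℝ × ℝ))
    (K := 2 + C) (a := t0) (b := t1)
    (fun t ht => (hder t ht).continuousAt.continuousWithinAt)
    (fun t ht => (hder t (Ico_subset_Icc_self ht)).hasDerivWithinAt) ?_ ?_
  · intro t ht
    have h1 := hz t ht
    rw [Prod.mk_eq_zero, Prod.mk_eq_zero] at h1
    exact ⟨by show Q κ (α t).1 (α t).1 = 1; linarith [h1.1], h1.2.1⟩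
  · have h1 : Q κ (α t0).1 (α t0).1 = 1 := h0x
    have h3 : (1 - κ ^ 2) * (α t0).2.2.2 = 0 := by
      rcases hκ with hk | hk | hk
      · subst hk; ring
      · subst hk
        rw [h232_tan0 h0x h0v]; ring
      · subst hk; ring
    show ((Q κ (α t0).1 (α t0).1 - 1, Q κ (α t0).1 (α t0).2, (1 - κ ^ 2) * (α t0).2.2.2) : ℝ × ℝ × ℝ) = 0
    rw [h1, h0v, h3, sub_self]
    rfl
  · intro t ht
    have hCt := hC t (Ico_subset_Icc_self ht)
    rw [Function.comp_apply, Real.norm_eq_abs, abs_of_nonneg (by positivity)] at hCt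
    obtain ⟨a1, ha1⟩ : ∃ a1, a1 = (α t).2.2.2 := ⟨_, rfl⟩
    obtain ⟨b1, hb1⟩ : ∃ b1, b1 = B κ (α t).2 (α t).2 * Q κ (α t).1 (rz κ (fderiv ℝ G (α t).1)) +
      κ * B κ (α t).2 (α t).2 := ⟨_, rfl⟩
    obtain ⟨c1, hc1⟩ : ∃ c1, c1 = 2 * fderiv ℝ G (α t).1 (α t).2 := ⟨_, rfl⟩
    obtain ⟨h1, hh1⟩ : ∃ h1, h1 = Q κ (α t).1 (α t).1 - 1 := ⟨_, rfl⟩
    obtain ⟨h2, hh2⟩ : ∃ h2, h2 = Q κ (α t).1 (α t).2 := ⟨_, rfl⟩
    obtain ⟨h3, hh3⟩ : ∃ h3, h3 = (1 - κ ^ 2) * (α t).2.2.2 := ⟨_, rfl⟩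
    simp only [← hh1, ← hh2, ← hh3, ← hb1, ← hc1]
    rw [← ha1, ← hb1, ← hc1] at hCt
    rw [← ha1]
    have n1 : |h1| ≤ ‖((h1, h2, h3) : ℝ × ℝ × ℝ)‖ := norm_fst_le ((h1, h2, h3) : ℝ × ℝ × ℝ)
    have n23 : ‖((h2, h3) : ℝ × ℝ)‖ ≤ ‖((h1, h2, h3) : ℝ × ℝ × ℝ)‖ :=
      norm_snd_le ((h1, h2, h3) : ℝ × ℝ × ℝ)
    have n2 : |h2| ≤ ‖((h1, h2, h3) : ℝ × ℝ × ℝ)‖ := (norm_fst_le ((h2, h3) : ℝ × ℝ)).trans n23
    have n3 : |h3| ≤ ‖((h1, h2, h3) : ℝ × ℝ × ℝ)‖ := (norm_snd_le ((h2, h3) : ℝ × ℝ)).trans n23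
    obtain ⟨n, hn⟩ : ∃ n, n = ‖((h1, h2, h3) : ℝ × ℝ × ℝ)‖ := ⟨_, rfl⟩
    rw [← hn] at n1 n2 n3 ⊢
    have hn0 : 0 ≤ n := (abs_nonneg _).trans n1
    have pa := abs_nonneg a1
    have pb := abs_nonneg b1
    have pc := abs_nonneg c1
    have q1 : |a1 * h3| ≤ |a1| * n := by rw [abs_mul]; exact mul_le_mul_of_nonneg_left n3 pa
    have q2 : |b1 * h1| ≤ |b1| * n := by rw [abs_mul]; exact mul_le_mul_of_nonneg_left n1 pb
    have q3 : |c1 * h2| ≤ |c1| * n := by rw [abs_mul]; exact mul_le_mul_of_nonneg_left n2 pc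
    have q4 : |c1 * h3| ≤ |c1| * n := by rw [abs_mul]; exact mul_le_mul_of_nonneg_left n3 pc
    have hKn : 0 ≤ (C - (|a1| + |b1| + |c1|)) * n := mul_nonneg (by linarith) hn0
    have pan : 0 ≤ |a1| * n := mul_nonneg pa hn0
    have pbn : 0 ≤ |b1| * n := mul_nonneg pb hn0
    have pcn : 0 ≤ |c1| * n := mul_nonneg pc hn0
    rw [Prod.norm_def, Prod.norm_def]
    refine max_le ?_ (max_le ?_ ?_)
    · show |2 * h2| ≤ _
      rw [abs_mul, abs_of_nonneg (by norm_num : (0:ℝ) ≤ 2)]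
      nlinarith
    · show |a1 * h3 - b1 * h1 - c1 * h2| ≤ _
      have := abs_sub (a1 * h3 - b1 * h1) (c1 * h2)
      have := abs_sub (a1 * h3) (b1 * h1)
      nlinarith
    · show |-(c1 * h3)| ≤ _
      rw [abs_neg]
      nlinarith

end h232b

/-- a geodesic with bounded velocity whose end point exists can be extended -/
theorem Dev.IsGeod.extend_right {κ : ℝ} {m : ℕ} (hκ : κ = -1 ∨ κ = 0 ∨ κ = 1) {Y : Type*}
    [TopologicalSpace Y] [T2Space Y] (P : Dev κ m Y) {f : Y → ℝ} (hf : P.Sm f) (c : ℝ → Y) {a b : ℝ}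
    (hab : a < b) (hc : P.IsGeod f c (Ioo a b)) {y₁ : Y} (hlim : Tendsto c (𝓝[<] b) (𝓝 y₁))
    (M : ℝ) {a' : ℝ} (ha' : a' < b) (hM : ∀ t ∈ Ico a' b, a < t → ‖deriv (P.p ∘ c) t‖ ≤ M) :
    ∃ b' > b, ∃ c' : ℝ → Y, P.IsGeod f c' (Ioo a b') ∧ EqOn c' c (Ioo a b) := by
  classical
  obtain ⟨hcc, hcd⟩ := hc
  obtain ⟨G, hG, hGf⟩ := hf y₁
  have hU : ∀ᶠ y in 𝓝 y₁, ∀ᶠ y' in 𝓝 y, f y' = G (P.p y') := eventually_eventually_nhds.2 hGf
  have hdf : ∀ y, (∀ᶠ y' in 𝓝 y, f y' = G (P.p y')) → ∀ w, Q κ (P.p y) w = 0 →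
      P.d f y w = fderiv ℝ G (P.p y) w := fun y hy w hw => Dev.d_eq hκ P f y G hG hy w hw
  obtain ⟨x, hx⟩ : ∃ x : ℝ → V m, x = P.p ∘ c := ⟨_, rfl⟩
  rw [← hx] at hM
  have hxc : ∀ t, x t = P.p (c t) := fun t => by rw [hx]; rfl
  have hcd' : ∀ t ∈ Ioo a b, DifferentiableAt ℝ x t ∧ DifferentiableAt ℝ (deriv x) t ∧
    ∀ w, Q κ (x t) w = 0 →
      B κ (deriv (deriv x) t) w + 2 * P.d f (c t) (deriv x t) * B κ (deriv x t) w
      = B κ (deriv x t) (deriv x t) * P.d f (c t) w := by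
    rw [hx]; exact hcd
  have hxX : ∀ t, x t ∈ X κ m := fun t => by rw [hxc]; exact P.mem _
  have hxd : ∀ t ∈ Ioo a b, HasDerivAt x (deriv x t) t := fun t ht => (hcd' t ht).1.hasDerivAt
  have hvd : ∀ t ∈ Ioo a b, HasDerivAt (deriv x) (deriv (deriv x) t) t :=
    fun t ht => (hcd' t ht).2.1.hasDerivAt
  have hvtan : ∀ t ∈ Ioo a b, Q κ (x t) (deriv x t) = 0 := fun t ht =>
    tangent_of_hasDerivAt x t _ (Eventually.of_forall hxX) (hxd t ht)
  have hnorm : ∀ t ∈ Ioo a b, Q κ (x t) (deriv (deriv x) t) = -Q κ (deriv x t) (deriv x t) := by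
    intro t ht
    have h1 := h232_hasDerivAt_Q (κ := κ) (hxd t ht) (hvd t ht)
    have h2 : (fun _ => (0 : ℝ)) =ᶠ[𝓝 t] (fun s => Q κ (x s) (deriv x s)) := by
      filter_upwards [Ioo_mem_nhds ht.1 ht.2] with s hs
      exact (hvtan s hs).symm
    have h3 := h1.congr_of_eventuallyEq h2
    have h4 := h3.unique (hasDerivAt_const t (0 : ℝ))
    linarith
  obtain ⟨a1, ha1, hU1⟩ := mem_nhdsLT_iff_exists_Ioo_subset.1 (hlim.eventually hU)
  have ha1b : a1 < b := ha1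
  have hode : ∀ t ∈ Ioo (max a a1) b, HasDerivAt (fun s => (x s, deriv x s))
      (Fld κ G (x t, deriv x t)) t := by
    intro t ht
    have ht' : t ∈ Ioo a b := ⟨(le_max_left _ _).trans_lt ht.1, ht.2⟩
    have ht1 : ∀ᶠ y' in 𝓝 (c t), f y' = G (P.p y') :=
      hU1 (show t ∈ Ioo a1 b from ⟨(le_max_right _ _).trans_lt ht.1, ht.2⟩)
    have hA : deriv (deriv x) t = Psi κ G (x t) (deriv x t) := by
      refine Psi_unique hκ (hxX t) (hvtan t ht') G (hnorm t ht') (fun w hw => ?_)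
      have h1 := (hcd' t ht').2.2 w hw
      rw [hdf (c t) ht1 _ (by rw [← hxc]; exact hvtan t ht'),
        hdf (c t) ht1 w (by rw [← hxc]; exact hw), ← hxc] at h1
      exact h1
    have h2 := (hxd t ht').prodMk (hvd t ht')
    rw [hA] at h2
    exact h2
  have hxlim : Tendsto x (𝓝[<] b) (𝓝 (P.p y₁)) := by
    rw [hx]
    exact ((Dev.continuous_p P).tendsto y₁).comp hlim
  have hvb : ∀ᶠ t in 𝓝[<] b, deriv x t ∈ Metric.closedBall (0 : V m) M := by
    filter_upwards [Ioo_mem_nhdsLT (max_lt hab ha')] with t ht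
    rw [mem_closedBall_zero_iff]
    exact hM t ⟨((le_max_right _ _).trans_lt ht.1).le, ht.2⟩ ((le_max_left _ _).trans_lt ht.1)
  obtain ⟨v₁, _, hv₁⟩ := (isCompact_closedBall (0 : V m) M).exists_mapClusterPt
    (le_principal_iff.2 (show _ ∈ Filter.map (deriv x) (𝓝[<] b) from hvb))
  obtain ⟨r, hr, ε, hε, hflow⟩ := h232_flow (κ := κ) hG (P.p y₁, v₁)
  have hfreq : ∃ᶠ t in 𝓝[<] b, deriv x t ∈ Metric.closedBall v₁ r :=
    hv₁.frequently (Metric.closedBall_mem_nhds v₁ hr)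
  have hev : ∀ᶠ t in 𝓝[<] b, x t ∈ Metric.closedBall (P.p y₁) r ∧
      t ∈ Ioo (max (max a a1) (b - ε)) b :=
    (hxlim.eventually (Metric.closedBall_mem_nhds _ hr)).and
      (Ioo_mem_nhdsLT (max_lt (max_lt hab ha1b) (by linarith)))
  obtain ⟨t0, ht0v, ht0x, ht0⟩ := (hfreq.and_eventually hev).exists
  have ht0a : max a a1 < t0 := (le_max_left _ _).trans_lt ht0.1
  have ht0e : b - ε < t0 := (le_max_right _ _).trans_lt ht0.1
  have ht0b : t0 < b := ht0.2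
  have ht0' : t0 ∈ Ioo a b := ⟨(le_max_left _ _).trans_lt ht0a, ht0b⟩
  obtain ⟨α, hα0, hα⟩ := hflow t0 (x t0, deriv x t0) (by
    rw [← closedBall_prod_same]
    exact ⟨ht0x, ht0v⟩)
  have heq : ∀ t ∈ Ico t0 b, α t = (x t, deriv x t) := by
    intro t ht
    exact h232_unique (κ := κ) hG (t0 := t0) (t1 := t) (β := fun s => (x s, deriv x s))
      (fun s hs => hα s ⟨by linarith [hs.1], by linarith [hs.2, ht.2]⟩)
      (fun s hs => hode s ⟨ht0a.trans_le hs.1, hs.2.trans_lt ht.2⟩) hα0 (right_mem_Icc.2 ht.1)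
  have hcon : ∀ t ∈ Ico t0 (t0 + ε), (α t).1 ∈ X κ m ∧ Q κ (α t).1 (α t).2 = 0 := by
    intro t ht
    exact h232_constraint hκ hG (t0 := t0) (t1 := t)
      (fun s hs => hα s ⟨by linarith [hs.1], by linarith [hs.2, ht.2]⟩)
      (by rw [hα0]; exact hxX t0) (by rw [hα0]; exact hvtan t0 ht0') t (right_mem_Icc.2 ht.1)
  have hα1 : ∀ s ∈ Ioo (t0 - ε) (t0 + ε), HasDerivAt (fun s => (α s).1) (α s).2 s :=
    fun s hs => (hα s hs).fst
  have hα2 : ∀ s ∈ Ioo (t0 - ε) (t0 + ε), HasDerivAt (fun s => (α s).2)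
      (Psi κ G (α s).1 (α s).2) s := fun s hs => (hα s hs).snd
  have hbI : b ∈ Ioo (t0 - ε) (t0 + ε) := ⟨by linarith, by linarith⟩
  have hαb : (α b).1 = P.p y₁ := by
    refine tendsto_nhds_unique (f := fun t => (α t).1) (l := 𝓝[<] b)
      ((hα1 b hbI).continuousAt.tendsto.mono_left nhdsWithin_le_nhds) (hxlim.congr' ?_)
    filter_upwards [Ioo_mem_nhdsLT ht0b] with t ht
    rw [heq t ⟨ht.1.le, ht.2⟩]
  obtain ⟨δ, hδ, h, hhc, hhb, hhp⟩ := Dev.exists_local_lift P y₁ (fun t => (α t).1) b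
    (hα1 b hbI).continuousAt
    (by filter_upwards [Ioo_mem_nhds hbI.1 hbI.2] with t ht using (hα1 t ht).continuousAt)
    (by
      filter_upwards [Ioo_mem_nhds ht0b hbI.2] with t ht
      exact (hcon t ⟨ht.1.le, ht.2⟩).1) hαb
  have hhcb : ContinuousAt h b := hhc.continuousAt (Ioo_mem_nhds (by linarith) (by linarith))
  -- h = c to the left of b
  have hleft : ∀ᶠ t in 𝓝[<] b, h t = c t := by
    obtain ⟨e, hes, hee⟩ := P.lh y₁
    have hsrc : e.source ∈ 𝓝 y₁ := e.open_source.mem_nhds hes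
    have hh1 : ∀ᶠ t in 𝓝[<] b, h t ∈ e.source := by
      have h1 : Tendsto h (𝓝 b) (𝓝 y₁) := by
        have := hhcb.tendsto
        rwa [hhb] at this
      exact (h1.mono_left nhdsWithin_le_nhds).eventually hsrc
    have hc1 : ∀ᶠ t in 𝓝[<] b, c t ∈ e.source := hlim.eventually hsrc
    filter_upwards [hh1, hc1, Ioo_mem_nhdsLT (max_lt ht0b (by linarith : b - δ < b))]
      with t h1 h2 h3
    apply e.injOn h1 h2
    rw [← hee]
    apply Subtype.ext
    show P.p (h t) = P.p (c t)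
    rw [hhp t ⟨(le_max_right _ _).trans_lt h3.1, by linarith [h3.2]⟩, ← hxc,
      heq t ⟨((le_max_left _ _).trans_lt h3.1).le, h3.2⟩]
  have hgood : ∀ᶠ t in 𝓝 b, t ∈ Ioo (b - δ) (b + δ) ∧ t ∈ Ioo t0 (t0 + ε) ∧
      (∀ᶠ y' in 𝓝 (h t), f y' = G (P.p y')) ∧ (t < b → h t = c t) := by
    have hA1 : ∀ᶠ t in 𝓝 b, t ∈ Ioo (b - δ) (b + δ) := Ioo_mem_nhds (by linarith) (by linarith)
    have hA2 : ∀ᶠ t in 𝓝 b, t ∈ Ioo t0 (t0 + ε) := Ioo_mem_nhds ht0b hbI.2
    refine hA1.and (hA2.and (Eventually.and ?_ ?_))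
    · have h1 : Tendsto h (𝓝 b) (𝓝 y₁) := by
        have := hhcb.tendsto
        rwa [hhb] at this
      exact h1.eventually hU
    · exact eventually_nhdsWithin_iff.1 hleft
  obtain ⟨η, hη, hgood'⟩ := Metric.eventually_nhds_iff.1 hgood
  have hg : ∀ t ∈ Ioo (b - η) (b + η), t ∈ Ioo (b - δ) (b + δ) ∧ t ∈ Ioo t0 (t0 + ε) ∧
      (∀ᶠ y' in 𝓝 (h t), f y' = G (P.p y')) ∧ (t < b → h t = c t) := by
    intro t ht
    apply hgood'
    rw [Real.dist_eq, abs_lt]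
    exact ⟨by linarith [ht.1], by linarith [ht.2]⟩
  obtain ⟨c', hc'⟩ : ∃ c' : ℝ → Y, c' = fun t => if t < b then c t else h t := ⟨_, rfl⟩
  have hc'1 : ∀ t, t < b → c' t = c t := fun t ht => by rw [hc']; exact if_pos ht
  have hc'2 : ∀ t ∈ Ioo (b - η) (b + η), c' t = h t := by
    intro t ht
    by_cases htb : t < b
    · rw [hc'1 t htb, (hg t ht).2.2.2 htb]
    · rw [hc']; exact if_neg htb
  refine ⟨b + η, by linarith, c', ⟨fun t ht => ?_, fun t ht => ?_⟩, fun t ht => hc'1 t ht.2⟩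
  · apply ContinuousAt.continuousWithinAt
    by_cases htb : t < b
    · refine (hcc.continuousAt (Ioo_mem_nhds ht.1 htb)).congr ?_
      filter_upwards [Iio_mem_nhds htb] with s hs
      exact (hc'1 s hs).symm
    · have htI : t ∈ Ioo (b - η) (b + η) := ⟨by linarith [not_lt.1 htb], ht.2⟩
      have htd := (hg t htI).1
      refine (hhc.continuousAt (Ioo_mem_nhds htd.1 htd.2)).congr ?_
      filter_upwards [Ioo_mem_nhds htI.1 htI.2] with s hs
      exact (hc'2 s hs).symm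
  · by_cases htb : t < b
    · have htI : t ∈ Ioo a b := ⟨ht.1, htb⟩
      have e0 : c' =ᶠ[𝓝 t] c := by
        filter_upwards [Iio_mem_nhds htb] with s hs
        exact hc'1 s hs
      have e1 : P.p ∘ c' =ᶠ[𝓝 t] P.p ∘ c := e0.fun_comp P.p
      have e2 : deriv (P.p ∘ c') =ᶠ[𝓝 t] deriv (P.p ∘ c) := e1.deriv
      refine ⟨(hcd t htI).1.congr_of_eventuallyEq e1, (hcd t htI).2.1.congr_of_eventuallyEq e2,
        fun w hw => ?_⟩
      rw [hc'1 t htb] at hw ⊢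
      rw [e2.deriv_eq, e1.deriv_eq]
      exact (hcd t htI).2.2 w hw
    · have htI : t ∈ Ioo (b - η) (b + η) := ⟨by linarith [not_lt.1 htb], ht.2⟩
      obtain ⟨htd, hte, htU, _⟩ := hg t htI
      have hte' : t ∈ Ioo (t0 - ε) (t0 + ε) := ⟨by linarith [hte.1], hte.2⟩
      have e1 : P.p ∘ c' =ᶠ[𝓝 t] fun s => (α s).1 := by
        filter_upwards [Ioo_mem_nhds htI.1 htI.2] with s hs
        show P.p (c' s) = (α s).1
        rw [hc'2 s hs, hhp s (hg s hs).1]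
      have e2 : deriv (P.p ∘ c') =ᶠ[𝓝 t] fun s => (α s).2 := by
        refine e1.deriv.trans ?_
        filter_upwards [Ioo_mem_nhds hte'.1 hte'.2] with s hs
        exact (hα1 s hs).deriv
      have d1 := (hα1 t hte').congr_of_eventuallyEq e1
      have d2 := (hα2 t hte').congr_of_eventuallyEq e2
      obtain ⟨hcx, hcv⟩ := hcon t ⟨hte.1.le, hte.2⟩
      have hpt : P.p (h t) = (α t).1 := hhp t htd
      refine ⟨d1.differentiableAt, d2.differentiableAt, fun w hw => ?_⟩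
      rw [hc'2 t htI] at hw ⊢
      rw [d2.deriv, d1.deriv, hdf (h t) htU w hw, hdf (h t) htU (α t).2 (by rw [hpt]; exact hcv), hpt]
      rw [hpt] at hw
      exact Psi_B hκ hcx G w hw

end Pool.Agent.Helper107.LC
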