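import Mathlib
import Pool.Agent.Helper107.LC.AllFail
set_option autoImplicit false
open Set Filter Topology
open scoped ContDiff

namespace Pool.Agent.Helper107.LC

theorem lc_contDiff_B {κ : ℝ} {m : ℕ} (w : V m) {G : V m → V m} (hG : ContDiff ℝ ∞ G) :
    ContDiff ℝ ∞ (fun x : V m => B κ (G x) w) := by
  have h1 : ContDiff ℝ ∞ (fun x : V m => (G x).1) := contDiff_fst.comp hG
  have h2 : ContDiff ℝ ∞ (fun x : V m => (G x).2) := contDiff_snd.comp hG
  have h3 : ContDiff ℝ ∞ (fun x : V m => (G x).2.1) := contDiff_fst.comp h2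
  have h4 : ContDiff ℝ ∞ (fun x : V m => (G x).2.2) := contDiff_snd.comp h2
  have h5 : ContDiff ℝ ∞ (fun x : V m => inner ℝ (G x).2.1 w.2.1) :=
    h3.inner ℝ contDiff_const
  unfold B
  exact ((h1.mul contDiff_const).neg.add h5).add (contDiff_const.mul (h4.mul contDiff_const))

theorem lc_glob {m : ℕ} (G : V m → ℝ) (x0 : V m) (s : Set (V m)) (hs : s ∈ 𝓝 x0)
    (hG : ∀ x ∈ s, ContDiffAt ℝ ∞ G x) :
    ∃ G' : V m → ℝ, ContDiff ℝ ∞ G' ∧ ∀ᶠ x in 𝓝 x0, G' x = G x := by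
  obtain ⟨r, hr, hrs⟩ := Metric.mem_nhds_iff.1 hs
  let f : ContDiffBump x0 := ⟨r / 3, 2 * r / 3, by positivity, by linarith⟩
  refine ⟨fun x => f x * G x, ?_, ?_⟩
  · rw [contDiff_iff_contDiffAt]
    intro x
    by_cases hx : x ∈ Metric.ball x0 r
    · exact (f.contDiff.contDiffAt).mul (hG x (hrs hx))
    · have hx2 : x ∉ Metric.closedBall x0 (2 * r / 3) := by
        intro h
        apply hx
        rw [Metric.mem_closedBall] at h
        rw [Metric.mem_ball]
        linarith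
      have hev : ∀ᶠ x' in 𝓝 x, (fun x => f x * G x) x' = (fun _ => (0 : ℝ)) x' := by
        have ho : IsOpen (Metric.closedBall x0 (2 * r / 3))ᶜ := Metric.isClosed_closedBall.isOpen_compl
        filter_upwards [ho.mem_nhds hx2] with x' hx'
        have h0 : f x' = 0 := by
          apply f.zero_of_le_dist
          have : ¬ dist x' x0 ≤ 2 * r / 3 := hx'
          show 2 * r / 3 ≤ dist x' x0
          linarith [not_le.1 this]
        simp [h0]
      exact contDiffAt_const.congr_of_eventuallyEq hev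
  · have : Metric.closedBall x0 (r / 3) ∈ 𝓝 x0 := Metric.closedBall_mem_nhds _ (by positivity)
    filter_upwards [this] with x hx
    have : f x = 1 := f.one_of_mem_closedBall hx
    rw [this, one_mul]

theorem lc_sm_quot {κ : ℝ} {m : ℕ} {Y : Type*} [TopologicalSpace Y] (P : Dev κ m Y) (y1 : Y)
    (N Dn : V m → ℝ) (hN : ContDiff ℝ ∞ N) (hD : ContDiff ℝ ∞ Dn) (hne : Dn (P.p y1) ≠ 0)
    (φ : ℝ → ℝ) (hφ : ContDiff ℝ ∞ φ) (F : Y → ℝ)
    (h : ∀ᶠ y' in 𝓝 y1, F y' = φ (N (P.p y') / Dn (P.p y'))) :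
    ∃ G : V m → ℝ, ContDiff ℝ ∞ G ∧ ∀ᶠ y' in 𝓝 y1, F y' = G (P.p y') := by
  have hs : {x : V m | Dn x ≠ 0} ∈ 𝓝 (P.p y1) :=
    (isOpen_ne_fun hD.continuous continuous_const).mem_nhds hne
  obtain ⟨G', hG', hev⟩ := lc_glob (fun x => φ (N x / Dn x)) (P.p y1) _ hs (by
    intro x hx
    exact (hφ.contDiffAt).comp x ((hN.contDiffAt).div (hD.contDiffAt) hx))
  refine ⟨G', hG', ?_⟩
  have hcont : Tendsto P.p (𝓝 y1) (𝓝 (P.p y1)) := (Dev.continuous_p P).continuousAt
  filter_upwards [h, hcont.eventually hev] with y' h1 h2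
  rw [h1, h2]

/-- the failing time of the `T`-geodesics is a smooth function -/
theorem Dev.exists_tau {κ : ℝ} {m : ℕ} (hκ : κ = -1 ∨ κ = 0) {Y : Type*}
    [TopologicalSpace Y] [T2Space Y] [ConnectedSpace Y] (P : Dev κ m Y) {Γ : Type*} [Group Γ]
    [MulAction Γ Y] {H : Hol P Γ} {TT : TF H} (D : ExData TT) {y0 : Y} {u0 : V m} {b0 : ℝ} {ν0 : V m}
    (hF : P.FailsAt TT.T y0 u0 b0 ν0) (hu0 : P.Fut TT.T y0 u0) :
    ∃ τ : Y → ℝ, P.Sm τ ∧ (∀ y, 0 < τ y) ∧ (∀ y, ∃ ν, P.FailsAt TT.T y (TT.T y) (τ y) ν) ∧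
      ∀ y, B κ (ray κ (P.p y) (TT.T y) (τ y) - ray κ (P.p y0) u0 b0) ν0 = 0 := by
  have hκ3 : κ = -1 ∨ κ = 0 ∨ κ = 1 := by
    rcases hκ with h | h
    · exact Or.inl h
    · exact Or.inr (Or.inl h)
  have hTfut : ∀ y, P.Fut TT.T y (TT.T y) := fun y =>
    ⟨TT.tan y, TT.unit y, by rw [TT.unit y]; norm_num⟩
  have hTc : Continuous TT.T := Dev.Sm.continuous TT.sm
  have hall := fun y => Dev.all_fail hκ P D hF hu0 y (TT.T y) (hTfut y)
  choose τ ν hτ1 hτ2 hτ3 using hall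
  refine ⟨τ, ?_, fun y => (hτ1 y).1, fun y => ⟨ν y, hτ1 y⟩, hτ3⟩
  intro y1
  -- continuity
  have hcont : ∀ η > 0, ∀ᶠ y' in 𝓝 y1, |τ y' - τ y1| < η := by
    intro η hη
    have h1 := Dev.failsAt_open hκ3 P D (hτ1 y1) (hTfut y1) hη
    have h2 : Tendsto (fun y' => (y', TT.T y')) (𝓝 y1) (𝓝 (y1, TT.T y1)) :=
      (continuous_id.prodMk hTc).continuousAt
    filter_upwards [h2.eventually h1] with y' hy'
    obtain ⟨b, ν', hb1, hb2, -⟩ := hy' (hTfut y')
    have h3 := (Dev.FailsAt.unique hκ3 hTc hb1 (hτ1 y') (TT.tan y') (TT.unit y')).1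
    rw [← h3]
    exact hb2
  -- nonvanishing of the derivative
  have hvel : B κ (vel κ (P.p y1) (TT.T y1) (τ y1)) ν0 ≠ 0 := by
    intro h0
    have h1 := (hτ1 y1).2.2.2.2
    obtain ⟨c, hc⟩ := hτ2 y1
    rw [hc, B_smul_right, h0] at h1
    norm_num at h1
  obtain ⟨GT, hGT, hGTe⟩ := TT.sm y1
  have hGT1 : TT.T y1 = GT (P.p y1) := hGTe.self_of_nhds
  rcases hκ with hκ | hκ
  · -- anti-de Sitter case
    subst hκ
    have hck : ∀ t, ck (-1) t = Real.cos t := by intro t; simp [ck]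
    have hsk : ∀ t, sk (-1) t = Real.sin t := by intro t; simp [sk]
    have he0 : B (-1) (ray (-1) (P.p y0) u0 b0) ν0 = 0 := by
      have h1 := hF.2.2.2.1
      have h2 := Q_eq_B (κ := (-1 : ℝ)) (ray (-1) (P.p y0) u0 b0) ν0
      rw [h1] at h2
      linarith
    have heq : ∀ y, Real.cos (τ y) * B (-1) (P.p y) ν0 + Real.sin (τ y) * B (-1) (TT.T y) ν0 = 0 := by
      intro y
      have h1 := hτ3 y
      rw [B_sub_left, he0, sub_zero, ray, B_add_left, B_smul_left, B_smul_left, hck, hsk] at h1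
      exact h1
    have hvel' : -Real.sin (τ y1) * B (-1) (P.p y1) ν0 + Real.cos (τ y1) * B (-1) (TT.T y1) ν0 ≠ 0 := by
      have h1 := hvel
      rw [vel, B_add_left, B_smul_left, B_smul_left, hck, hsk] at h1
      intro h2
      apply h1
      rw [← h2]
      ring
    have hDn : ContDiff ℝ ∞ (fun x : V m => -Real.sin (τ y1) * B (-1) x ν0 +
        Real.cos (τ y1) * B (-1) (GT x) ν0) :=
      (contDiff_const.mul (lc_contDiff_B ν0 contDiff_id)).add
        (contDiff_const.mul (lc_contDiff_B ν0 hGT))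
    have hNn : ContDiff ℝ ∞ (fun x : V m => -(Real.cos (τ y1) * B (-1) x ν0 +
        Real.sin (τ y1) * B (-1) (GT x) ν0)) :=
      ((contDiff_const.mul (lc_contDiff_B ν0 contDiff_id)).add
        (contDiff_const.mul (lc_contDiff_B ν0 hGT))).neg
    have hne : (fun x : V m => -Real.sin (τ y1) * B (-1) x ν0 +
        Real.cos (τ y1) * B (-1) (GT x) ν0) (P.p y1) ≠ 0 := by
      simp only
      rw [← hGT1]
      exact hvel'
    have hφ : ContDiff ℝ ∞ (fun t : ℝ => τ y1 + Real.arctan t) :=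
      contDiff_const.add (Real.contDiff_arctan)
    refine lc_sm_quot P y1 _ _ hNn hDn hne _ hφ τ ?_
    have hne2 : ∀ᶠ y' in 𝓝 y1, (fun x : V m => -Real.sin (τ y1) * B (-1) x ν0 +
        Real.cos (τ y1) * B (-1) (GT x) ν0) (P.p y') ≠ 0 := by
      have hc : Continuous (fun y' => (fun x : V m => -Real.sin (τ y1) * B (-1) x ν0 +
        Real.cos (τ y1) * B (-1) (GT x) ν0) (P.p y')) := hDn.continuous.comp (Dev.continuous_p P)
      exact (isOpen_ne_fun hc continuous_const).mem_nhds hne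
    filter_upwards [hcont 1 one_pos, hGTe, hne2] with y' h1 h2 h3
    rw [← h2] at h3 ⊢
    have h4 := heq y'
    set a := B (-1) (P.p y') ν0 with ha
    set b := B (-1) (TT.T y') ν0 with hb
    set s0 := Real.sin (τ y1) with hs0
    set c0 := Real.cos (τ y1) with hc0
    have hsc : s0 ^ 2 + c0 ^ 2 = 1 := Real.sin_sq_add_cos_sq _
    have h5 : Real.cos (τ y' - τ y1) * (c0 * a + s0 * b) +
        Real.sin (τ y' - τ y1) * (-s0 * a + c0 * b) = 0 := by
      rw [Real.cos_sub, Real.sin_sub, ← hs0, ← hc0]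
      have : (Real.cos (τ y') * c0 + Real.sin (τ y') * s0) * (c0 * a + s0 * b) +
        (Real.sin (τ y') * c0 - Real.cos (τ y') * s0) * (-s0 * a + c0 * b) =
        (s0 ^ 2 + c0 ^ 2) * (Real.cos (τ y') * a + Real.sin (τ y') * b) := by ring
      rw [this, h4, mul_zero]
    have hpi : (1 : ℝ) < Real.pi / 2 := by linarith [Real.pi_gt_three]
    have hlt := abs_lt.1 h1
    have hcos : 0 < Real.cos (τ y' - τ y1) := Real.cos_pos_of_mem_Ioo ⟨by linarith, by linarith⟩
    have htan : -(c0 * a + s0 * b) / (-s0 * a + c0 * b) = Real.tan (τ y' - τ y1) := by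
      rw [Real.tan_eq_sin_div_cos, div_eq_div_iff h3 hcos.ne']
      linarith
    rw [htan, Real.arctan_tan (by linarith) (by linarith)]
    ring
  · -- Minkowski case
    subst hκ
    have hck : ∀ t, ck 0 t = 1 := by intro t; simp [ck]
    have hsk : ∀ t, sk 0 t = t := by intro t; simp [sk]
    have heq : ∀ y, B 0 (P.p y) ν0 + τ y * B 0 (TT.T y) ν0 - B 0 (ray 0 (P.p y0) u0 b0) ν0 = 0 := by
      intro y
      have h1 := hτ3 y
      rw [B_sub_left, ray, B_add_left, B_smul_left, B_smul_left, hck, hsk, one_mul] at h1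
      exact h1
    have hvel' : B 0 (TT.T y1) ν0 ≠ 0 := by
      have h1 := hvel
      rw [vel, B_add_left, B_smul_left, B_smul_left, hck, zero_mul, zero_mul, zero_add, one_mul] at h1
      exact h1
    have hDn : ContDiff ℝ ∞ (fun x : V m => B 0 (GT x) ν0) := lc_contDiff_B ν0 hGT
    have hNn : ContDiff ℝ ∞ (fun x : V m => B 0 (ray 0 (P.p y0) u0 b0) ν0 - B 0 x ν0) :=
      contDiff_const.sub (lc_contDiff_B ν0 contDiff_id)
    have hne : (fun x : V m => B 0 (GT x) ν0) (P.p y1) ≠ 0 := by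
      simp only
      rw [← hGT1]
      exact hvel'
    refine lc_sm_quot P y1 _ _ hNn hDn hne (fun t => t) contDiff_id τ ?_
    have hne2 : ∀ᶠ y' in 𝓝 y1, (fun x : V m => B 0 (GT x) ν0) (P.p y') ≠ 0 := by
      have hc : Continuous (fun y' => (fun x : V m => B 0 (GT x) ν0) (P.p y')) :=
        hDn.continuous.comp (Dev.continuous_p P)
      exact (isOpen_ne_fun hc continuous_const).mem_nhds hne
    filter_upwards [hGTe, hne2] with y' h2 h3
    rw [← h2] at h3 ⊢
    rw [eq_div_iff h3]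
    linarith [heq y']

end Pool.Agent.Helper107.LC
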