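import Mathlib
import Pool.Agent.Helper107.LC.Topo
set_option autoImplicit false
open Set Filter Topology
open scoped ContDiff

namespace Pool.Agent.Helper107.LC

section chfamaux
variable {κ : ℝ} {m : ℕ} {Y : Type*} [TopologicalSpace Y]

/-- smoothness at a point -/
def LC24_SmA (P : Dev κ m Y) {W : Type*} [NormedAddCommGroup W] [NormedSpace ℝ W] (F : Y → W)
    (y : Y) : Prop :=
  ∃ G : V m → W, ContDiff ℝ ∞ G ∧ ∀ᶠ y' in 𝓝 y, F y' = G (P.p y')

theorem LC24_SmA.congr {P : Dev κ m Y} {W : Type*} [NormedAddCommGroup W] [NormedSpace ℝ W]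
    {F F' : Y → W} {y : Y} (h : LC24_SmA P F y) (h' : ∀ᶠ y' in 𝓝 y, F' y' = F y') :
    LC24_SmA P F' y := by
  obtain ⟨G, hG, hF⟩ := h
  refine ⟨G, hG, ?_⟩
  filter_upwards [hF, h'] with z h1 h2
  rw [h2, h1]

theorem LC24_SmA.sum {P : Dev κ m Y} {W : Type*} [NormedAddCommGroup W] [NormedSpace ℝ W]
    {ι : Type*} (s : Finset ι) {F : ι → Y → W} {y : Y} (h : ∀ i ∈ s, LC24_SmA P (F i) y) :
    LC24_SmA P (fun z => ∑ i ∈ s, F i z) y := by
  classical
  induction s using Finset.induction_on with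
  | empty => exact ⟨fun _ => 0, contDiff_const, by simp⟩
  | insert a s ha ih =>
    obtain ⟨G, hG, hF⟩ := ih (fun i hi => h i (Finset.mem_insert_of_mem hi))
    obtain ⟨G', hG', hF'⟩ := h a (Finset.mem_insert_self _ _)
    refine ⟨fun x => G' x + G x, hG'.add hG, ?_⟩
    filter_upwards [hF, hF'] with z h1 h2
    rw [Finset.sum_insert ha, h1, h2]

theorem LC24_X_closed (κ : ℝ) (m : ℕ) : IsClosed (X κ m) := by
  unfold X Q
  apply isClosed_eq
  · fun_prop
  · exact continuous_const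

theorem LC24_contB {Z : Type*} [TopologicalSpace Z] {f g : Z → V m} (hf : Continuous f)
    (hg : Continuous g) : Continuous fun z => B κ (f z) (g z) := by
  unfold B
  have h1 : Continuous fun z => inner ℝ (f z).2.1 (g z).2.1 :=
    (continuous_fst.comp (continuous_snd.comp hf)).inner (continuous_fst.comp (continuous_snd.comp hg))
  exact ((((continuous_fst.comp hf).mul (continuous_fst.comp hg)).neg).add h1).add
    (continuous_const.mul ((continuous_snd.comp (continuous_snd.comp hf)).mul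
      (continuous_snd.comp (continuous_snd.comp hg))))

theorem LC24_contQ {Z : Type*} [TopologicalSpace Z] {f g : Z → V m} (hf : Continuous f)
    (hg : Continuous g) : Continuous fun z => Q κ (f z) (g z) := by
  unfold Q
  have h1 : Continuous fun z => inner ℝ (f z).2.1 (g z).2.1 :=
    (continuous_fst.comp (continuous_snd.comp hf)).inner (continuous_fst.comp (continuous_snd.comp hg))
  exact (continuous_const.mul ((((continuous_fst.comp hf).mul (continuous_fst.comp hg)).neg).add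
    h1)).add ((continuous_snd.comp (continuous_snd.comp hf)).mul
      (continuous_snd.comp (continuous_snd.comp hg)))

theorem LC24_contog {Z : Type*} [TopologicalSpace Z] {f g : Z → V m} (hf : Continuous f)
    (hg : Continuous g) : Continuous fun z => og κ (f z) (g z) := by
  unfold og
  exact ((Real.continuous_sqrt.comp (continuous_const.sub
    (continuous_const.mul (LC24_contB hg hg)))).smul hf).add hg

theorem LC24_og_zero (x : V m) : og κ x 0 = x := by
  unfold og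
  rw [B_zero_left, mul_zero, sub_zero, Real.sqrt_one, one_smul, add_zero]

theorem LC24_og_mem (hκ : κ = -1 ∨ κ = 0 ∨ κ = 1) {x w : V m} (hx : x ∈ X κ m) (hw : Q κ x w = 0)
    (h1 : κ * B κ w w < 1) : og κ x w ∈ X κ m := by
  have hxx : Q κ x x = 1 := hx
  show Q κ (og κ x w) (og κ x w) = 1
  unfold og
  rw [Q_add_left, Q_add_right, Q_add_right, Q_smul_left, Q_smul_left, Q_smul_right, Q_smul_right,
    Q_comm w x, hw, hxx, Q_tan hκ hx hw w hw]
  have h2 := Real.mul_self_sqrt (show (0:ℝ) ≤ 1 - κ * B κ w w by linarith)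
  linarith

/-- the `x`-component of the orthographic chart -/
theorem LC24_Q_og {x w : V m} (hx : x ∈ X κ m) (hw : Q κ x w = 0) :
    Q κ x (og κ x w) = √(1 - κ * B κ w w) := by
  have hxx : Q κ x x = 1 := hx
  unfold og
  rw [Q_add_right, Q_smul_right, hxx, hw]; ring

theorem LC24_tg_og {x w : V m} (hx : x ∈ X κ m) (hw : Q κ x w = 0) :
    tg κ x (og κ x w) = w := by
  unfold tg
  rw [LC24_Q_og hx hw]
  unfold og
  abel

/-- inverse of the orthographic chart -/
theorem LC24_og_tg (hκ : κ = -1 ∨ κ = 0 ∨ κ = 1) {x z : V m} (hx : x ∈ X κ m) (hz : z ∈ X κ m)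
    (hpos : 0 < Q κ x z) : og κ x (tg κ x z) = z := by
  have hzz : Q κ z z = 1 := hz
  have hxx : Q κ x x = 1 := hx
  have ht : Q κ x (tg κ x z) = 0 := Q_tg hx z
  have h1 : Q κ z z = Q κ (tg κ x z) (tg κ x z) + Q κ x z ^ 2 := by
    have e : z = tg κ x z + Q κ x z • x := (tg_add_normal x z).symm
    have h2 : Q κ z z = Q κ (tg κ x z + Q κ x z • x) (tg κ x z + Q κ x z • x) := by rw [← e]
    rw [h2, Q_add_left, Q_add_right, Q_add_right, Q_smul_left, Q_smul_left, Q_smul_right,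
      Q_smul_right, Q_comm (tg κ x z) x, ht, hxx]
    ring
  rw [Q_tan hκ hx ht _ ht, hzz] at h1
  have h3 : 1 - κ * B κ (tg κ x z) (tg κ x z) = Q κ x z ^ 2 := by linarith
  unfold og
  rw [h3, Real.sqrt_sq hpos.le, add_comm]
  exact tg_add_normal x z

/-- linear coordinates on the tangent space -/
theorem LC24_coord {x0 : V m} (hx0 : x0 ∈ X κ m) :
    ∃ (L : R m →ₗ[ℝ] V m) (ψ : V m →ₗ[ℝ] R m), Function.Injective L ∧
      (∀ ξ, Q κ x0 (L ξ) = 0) ∧ (∀ v, L (ψ v) = tg κ x0 v) := by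
  have hxx : Q κ x0 x0 = 1 := hx0
  let φ : V m →ₗ[ℝ] ℝ :=
    { toFun := fun v => Q κ x0 v
      map_add' := fun v w => Q_add_right x0 v w
      map_smul' := fun a v => Q_smul_right a x0 v }
  have hφ : ∀ v, φ v = Q κ x0 v := fun v => rfl
  have hφ0 : φ ≠ 0 := by
    intro h
    have : φ x0 = 0 := by rw [h]; rfl
    rw [hφ, hxx] at this
    exact one_ne_zero this
  have hfr : Module.finrank ℝ (V m) = m + 2 := by
    simp only [Module.finrank_prod, Module.finrank_self, finrank_euclideanSpace, Fintype.card_fin]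
    omega
  have hk : Module.finrank ℝ (LinearMap.ker φ) = m + 1 := by
    have := Module.Dual.finrank_ker_add_one_of_ne_zero hφ0
    omega
  let e : R m ≃ₗ[ℝ] LinearMap.ker φ := LinearEquiv.ofFinrankEq _ _ (by
    rw [hk, finrank_euclideanSpace, Fintype.card_fin])
  let t : V m →ₗ[ℝ] V m := LinearMap.id - φ.smulRight x0
  have ht : ∀ v, t v = tg κ x0 v := fun v => rfl
  let t' : V m →ₗ[ℝ] LinearMap.ker φ := t.codRestrict (LinearMap.ker φ) (fun v => by
    rw [LinearMap.mem_ker, ht, hφ, Q_tg hx0])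
  refine ⟨(LinearMap.ker φ).subtype ∘ₗ e.toLinearMap, e.symm.toLinearMap ∘ₗ t', ?_, ?_, ?_⟩
  · exact (Subtype.val_injective).comp e.injective
  · intro ξ
    exact (e ξ).2
  · intro v
    show ((e (e.symm (t' v)) : LinearMap.ker φ) : V m) = _
    rw [LinearEquiv.apply_symm_apply]
    rfl

/-- a compact neighbourhood -/
theorem LC24_cpt [T2Space Y] (P : Dev κ m Y) (y0 : Y) : ∃ S : Set Y, IsCompact S ∧ S ∈ 𝓝 y0 := by
  obtain ⟨e, he, hfe⟩ := P.lh y0
  have hfe' : ∀ y, ((e y : X κ m) : V m) = P.p y := fun y => by rw [← hfe]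
  obtain ⟨r, hr, hball⟩ := Metric.isOpen_iff.mp e.open_target (e y0) (e.map_source he)
  let A : Set (X κ m) := Subtype.val ⁻¹' Metric.closedBall (P.p y0) (r / 2)
  have hA : IsCompact A :=
    (LC24_X_closed κ m).isClosedEmbedding_subtypeVal.isCompact_preimage (isCompact_closedBall _ _)
  have hAt : A ⊆ e.target := by
    intro x hx
    apply hball
    have h1 : dist (x : V m) (P.p y0) ≤ r / 2 := hx
    rw [Metric.mem_ball, Subtype.dist_eq, hfe']
    linarith
  refine ⟨e.symm '' A, hA.image_of_continuousOn (e.continuousOn_symm.mono hAt), ?_⟩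
  have h1 : ∀ᶠ y in 𝓝 y0, P.p y ∈ Metric.ball (P.p y0) (r / 2) :=
    P.continuous_p.continuousAt.eventually (Metric.ball_mem_nhds _ (by positivity))
  filter_upwards [e.open_source.mem_nhds he, h1] with z hz1 hz2
  refine ⟨e z, ?_, e.left_inv hz1⟩
  show dist ((e z : X κ m) : V m) (P.p y0) ≤ r / 2
  rw [hfe']
  exact (Metric.mem_ball.mp hz2).le

/-- neighbourhoods moved off themselves -/
theorem LC24_free [T2Space Y] (P : Dev κ m Y) {Γ : Type*} [Group Γ] [MulAction Γ Y]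
    [ContinuousConstSMul Γ Y] [ProperlyDiscontinuousSMul Γ Y]
    (hfree : ∀ (γ : Γ) (y : Y), γ • y = y → γ = 1) (y0 : Y) :
    ∃ U ∈ 𝓝 y0, ∀ γ : Γ, γ ≠ 1 → ∀ y ∈ U, γ • y ∉ U := by
  classical
  obtain ⟨S, hS, hSn⟩ := LC24_cpt P y0
  have hf := ProperlyDiscontinuousSMul.finite_disjoint_inter_image (Γ := Γ) hS hS
  have hsep : ∀ γ : Γ, γ ≠ 1 → ∃ A ∈ 𝓝 y0, ∀ y ∈ A, γ • y ∉ A := by
    intro γ hγ
    have hne : y0 ≠ γ • y0 := fun h => hγ (hfree γ y0 h.symm)
    obtain ⟨A, C, hA, hC, hyA, hyC, hAC⟩ := t2_separation hne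
    refine ⟨A ∩ (fun y => γ • y) ⁻¹' C, ?_, ?_⟩
    · exact Filter.inter_mem (hA.mem_nhds hyA)
        ((continuous_const_smul γ).continuousAt.preimage_mem_nhds (hC.mem_nhds hyC))
    · rintro y ⟨-, hy2⟩ ⟨hy3, -⟩
      exact Set.disjoint_left.mp hAC hy3 hy2
  choose! A hA hA' using hsep
  refine ⟨S ∩ ⋂ γ ∈ hf.toFinset.filter (fun γ => γ ≠ 1), A γ, ?_, ?_⟩
  · apply Filter.inter_mem hSn
    rw [Filter.biInter_finset_mem]
    intro γ hγ
    exact hA γ (Finset.mem_filter.mp hγ).2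
  · rintro γ hγ y ⟨hyS, hyA⟩ ⟨hyS', hyA'⟩
    have hmem : γ ∈ hf.toFinset.filter (fun γ => γ ≠ 1) := by
      rw [Finset.mem_filter, Set.Finite.mem_toFinset]
      refine ⟨?_, hγ⟩
      have : ((γ • ·) '' S ∩ S).Nonempty := ⟨γ • y, ⟨y, hyS, rfl⟩, hyS'⟩
      exact this
    have h1 := Set.mem_iInter₂.mp hyA γ hmem
    have h2 := Set.mem_iInter₂.mp hyA' γ hmem
    exact hA' γ hγ y h1 h2

/-- a chart around a point, inside a given neighbourhood, with a bump function -/
theorem LC24_chart (hκ : κ = -1 ∨ κ = 0 ∨ κ = 1) [T2Space Y] (P : Dev κ m Y) (y0 : Y)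
    (U : Set Y) (hU : U ∈ 𝓝 y0) :
    ∃ (c : P.Ch) (K : Set (R m)) (χ : Y → ℝ), IsCompact K ∧ K ⊆ Metric.ball 0 c.r ∧
      c.e '' Metric.ball 0 c.r ⊆ U ∧ (∀ y, LC24_SmA P χ y) ∧ (∀ y, 0 ≤ χ y) ∧
      (∀ y, y ∉ c.e '' K → χ y = 0) ∧ ∀ᶠ y in 𝓝 y0, 0 < χ y := by
  classical
  obtain ⟨e, he, hfe⟩ := P.lh y0
  have hfe' : ∀ y, ((e y : X κ m) : V m) = P.p y := fun y => by rw [← hfe]
  have hx0 : P.p y0 ∈ X κ m := P.mem y0
  have hpc : Continuous P.p := P.continuous_p
  obtain ⟨L, ψ, hinj, htan, hLψ⟩ := LC24_coord (κ := κ) hx0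
  have hψL : ∀ ξ, ψ (L ξ) = ξ := by
    intro ξ
    apply hinj
    rw [hLψ, tg_of_tan (htan ξ)]
  have hψc : Continuous ψ := ψ.continuous_of_finiteDimensional
  have hLc : Continuous L := L.continuous_of_finiteDimensional
  have hψs : ContDiff ℝ ∞ (fun v => ψ v) := (LinearMap.toContinuousLinearMap ψ).contDiff
  -- the open set in the target
  have hO : IsOpen (e.target ∩ e.symm ⁻¹' interior U) :=
    e.isOpen_inter_preimage_symm isOpen_interior
  have hmemO : e y0 ∈ e.target ∩ e.symm ⁻¹' interior U := by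
    refine ⟨e.map_source he, ?_⟩
    show e.symm (e y0) ∈ interior U
    rw [e.left_inv he]
    exact mem_interior_iff_mem_nhds.mpr hU
  obtain ⟨δ, hδ, hball⟩ := Metric.isOpen_iff.mp hO (e y0) hmemO
  let s : R m → X κ m := fun ξ => if h : og κ (P.p y0) (L ξ) ∈ X κ m then
    ⟨og κ (P.p y0) (L ξ), h⟩ else ⟨P.p y0, hx0⟩
  have hs : ∀ ξ, κ * B κ (L ξ) (L ξ) < 1 → ((s ξ : X κ m) : V m) = og κ (P.p y0) (L ξ) := by
    intro ξ hξ
    have h := LC24_og_mem hκ hx0 (htan ξ) hξ
    show ((if h : og κ (P.p y0) (L ξ) ∈ X κ m then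
      (⟨og κ (P.p y0) (L ξ), h⟩ : X κ m) else ⟨P.p y0, hx0⟩ : X κ m) : V m) = _
    rw [dif_pos h]
  have hogc : Continuous fun ξ => og κ (P.p y0) (L ξ) := LC24_contog continuous_const hLc
  have hBc : Continuous fun ξ => κ * B κ (L ξ) (L ξ) := continuous_const.mul (LC24_contB hLc hLc)
  obtain ⟨r, hr, hrball⟩ : ∃ r > 0, ∀ ξ ∈ Metric.ball (0 : R m) r,
      dist (og κ (P.p y0) (L ξ)) (P.p y0) < δ ∧ κ * B κ (L ξ) (L ξ) < 1 := by
    have h1 : ∀ᶠ ξ in 𝓝 (0 : R m), dist (og κ (P.p y0) (L ξ)) (P.p y0) < δ := by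
      have h2 : Tendsto (fun ξ => og κ (P.p y0) (L ξ)) (𝓝 0) (𝓝 (P.p y0)) := by
        have h3 := hogc.tendsto 0
        rw [map_zero, LC24_og_zero] at h3
        exact h3
      exact (Metric.tendsto_nhds.mp h2) δ hδ
    have h4 : ∀ᶠ ξ in 𝓝 (0 : R m), κ * B κ (L ξ) (L ξ) < 1 := by
      have h5 := hBc.tendsto 0
      rw [map_zero, B_zero_left, mul_zero] at h5
      exact h5.eventually (gt_mem_nhds one_pos)
    exact Metric.eventually_nhds_iff_ball.mp (h1.and h4)
  have hsO : ∀ ξ ∈ Metric.ball (0 : R m) r, s ξ ∈ e.target ∩ e.symm ⁻¹' interior U := by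
    intro ξ hξ
    apply hball
    rw [Metric.mem_ball, Subtype.dist_eq, hs ξ (hrball ξ hξ).2, hfe']
    exact (hrball ξ hξ).1
  have hpe : ∀ ξ ∈ Metric.ball (0 : R m) r, P.p (e.symm (s ξ)) = og κ (P.p y0) (L ξ) := by
    intro ξ hξ
    rw [← hfe', e.right_inv (hsO ξ hξ).1, hs ξ (hrball ξ hξ).2]
  have hscont : ContinuousOn s (Metric.ball 0 r) := by
    rw [Topology.IsInducing.subtypeVal.continuousOn_iff]
    exact hogc.continuousOn.congr fun ξ hξ => hs ξ (hrball ξ hξ).2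
  have hcont : ContinuousOn (fun ξ => e.symm (s ξ)) (Metric.ball 0 r) :=
    e.continuousOn_symm.comp hscont fun ξ hξ => (hsO ξ hξ).1
  -- description of the image
  have himg : ∀ ρ : ℝ, ρ ≤ r → (fun ξ => e.symm (s ξ)) '' Metric.ball 0 ρ =
      e.source ∩ {y | 0 < Q κ (P.p y0) (P.p y) ∧ ψ (P.p y) ∈ Metric.ball (0 : R m) ρ} := by
    intro ρ hρ
    apply Set.Subset.antisymm
    · rintro _ ⟨ξ, hξ, rfl⟩
      have hξr : ξ ∈ Metric.ball (0 : R m) r := Metric.ball_subset_ball hρ hξ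
      refine ⟨e.map_target (hsO ξ hξr).1, ?_, ?_⟩
      · show 0 < Q κ (P.p y0) (P.p (e.symm (s ξ)))
        rw [hpe ξ hξr, LC24_Q_og hx0 (htan ξ)]
        apply Real.sqrt_pos.mpr
        linarith [(hrball ξ hξr).2]
      · show ψ (P.p (e.symm (s ξ))) ∈ Metric.ball (0 : R m) ρ
        have h1 : ψ (og κ (P.p y0) (L ξ)) = ξ := by
          apply hinj
          rw [hLψ, LC24_tg_og hx0 (htan ξ)]
        rw [hpe ξ hξr, h1]
        exact hξ
    · rintro y ⟨hy1, hy2, hy3⟩
      refine ⟨ψ (P.p y), hy3, ?_⟩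
      have hξr : ψ (P.p y) ∈ Metric.ball (0 : R m) r := Metric.ball_subset_ball hρ hy3
      have h2 : s (ψ (P.p y)) = e y := by
        apply Subtype.ext
        rw [hs _ (hrball _ hξr).2, hLψ, LC24_og_tg hκ hx0 (P.mem y) hy2, hfe']
      show e.symm (s (ψ (P.p y))) = y
      rw [h2, e.left_inv hy1]
  have hopen : ∀ ρ : ℝ, ρ ≤ r → IsOpen ((fun ξ => e.symm (s ξ)) '' Metric.ball 0 ρ) := by
    intro ρ hρ
    rw [himg ρ hρ]
    apply e.open_source.inter
    apply IsOpen.and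
    · exact isOpen_lt continuous_const (LC24_contQ continuous_const hpc)
    · exact Metric.isOpen_ball.preimage (hψc.comp hpc)
  let c : P.Ch :=
    { x0 := P.p y0
      hx0 := hx0
      L := L
      inj := hinj
      tan := htan
      r := r
      r_pos := hr
      lt := fun ξ hξ => (hrball ξ hξ).2
      e := fun ξ => e.symm (s ξ)
      cont := hcont
      isOpen := hopen r le_rfl
      pe := hpe }
  have hKc : IsCompact (Metric.closedBall (0 : R m) (r / 2)) := isCompact_closedBall _ _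
  have hKsub : Metric.closedBall (0 : R m) (r / 2) ⊆ Metric.ball 0 r :=
    Metric.closedBall_subset_ball (by linarith)
  have hS : IsCompact ((fun ξ => e.symm (s ξ)) '' Metric.closedBall 0 (r / 2)) :=
    hKc.image_of_continuousOn (hcont.mono hKsub)
  let bp : ContDiffBump (0 : R m) := ⟨r / 4, r / 2, by positivity, by linarith⟩
  let χ : Y → ℝ := fun y => if y ∈ (fun ξ => e.symm (s ξ)) '' Metric.ball 0 r then
    bp (ψ (P.p y)) else 0
  have hχin : ∀ y ∈ (fun ξ => e.symm (s ξ)) '' Metric.ball 0 r, χ y = bp (ψ (P.p y)) :=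
    fun y hy => if_pos hy
  have hz : ∀ y, y ∉ (fun ξ => e.symm (s ξ)) '' Metric.closedBall 0 (r / 2) → χ y = 0 := by
    intro y hy
    show (if y ∈ (fun ξ => e.symm (s ξ)) '' Metric.ball 0 r then bp (ψ (P.p y)) else 0) = 0
    split_ifs with hs1
    · apply bp.zero_of_le_dist
      by_contra hlt
      push Not at hlt
      apply hy
      rw [himg r le_rfl] at hs1
      have h1 : y ∈ (fun ξ => e.symm (s ξ)) '' Metric.ball 0 (r / 2) := by
        rw [himg (r / 2) (by linarith)]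
        exact ⟨hs1.1, hs1.2.1, hlt⟩
      exact Set.image_mono Metric.ball_subset_closedBall h1
    · rfl
  refine ⟨c, Metric.closedBall 0 (r / 2), χ, hKc, hKsub, ?_, ?_, ?_, hz, ?_⟩
  · rintro _ ⟨ξ, hξ, rfl⟩
    exact interior_subset (hsO ξ hξ).2
  · intro y
    by_cases hy : y ∈ (fun ξ => e.symm (s ξ)) '' Metric.ball 0 r
    · refine ⟨fun x => bp (ψ x), bp.contDiff.comp hψs, ?_⟩
      filter_upwards [(hopen r le_rfl).mem_nhds hy] with z hz'
      exact hχin z hz'
    · refine ⟨fun _ => 0, contDiff_const, ?_⟩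
      have hyS : y ∉ (fun ξ => e.symm (s ξ)) '' Metric.closedBall 0 (r / 2) := fun h =>
        hy (Set.image_mono hKsub h)
      filter_upwards [hS.isClosed.isOpen_compl.mem_nhds hyS] with z hz'
      exact hz z hz'
  · intro y
    show 0 ≤ if y ∈ (fun ξ => e.symm (s ξ)) '' Metric.ball 0 r then bp (ψ (P.p y)) else 0
    split_ifs
    · exact bp.nonneg
    · exact le_rfl
  · have hy0 : y0 ∈ (fun ξ => e.symm (s ξ)) '' Metric.ball 0 (r / 2) := by
      rw [himg (r / 2) (by linarith)]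
      refine ⟨he, ?_, ?_⟩
      · have : Q κ (P.p y0) (P.p y0) = 1 := hx0
        show 0 < Q κ (P.p y0) (P.p y0)
        rw [this]; exact one_pos
      · have h1 : ψ (P.p y0) = 0 := by
          apply hinj
          rw [hLψ, map_zero]
          have : Q κ (P.p y0) (P.p y0) = 1 := hx0
          unfold tg
          rw [this, one_smul, sub_self]
        rw [h1]
        exact Metric.mem_ball_self (by positivity)
    filter_upwards [(hopen (r / 2) (by linarith)).mem_nhds hy0] with z hz1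
    have hz2 : z ∈ (fun ξ => e.symm (s ξ)) '' Metric.ball 0 r :=
      Set.image_mono (Metric.ball_subset_ball (by linarith)) hz1
    rw [hχin z hz2]
    rw [himg (r / 2) (by linarith)] at hz1
    exact bp.pos_of_mem_ball hz1.2.2

/-- a smooth positive function equal to the identity to the right of `c/2` -/
theorem LC24_exists_h (c : ℝ) (hc : 0 < c) : ∃ h : ℝ → ℝ, ContDiff ℝ ∞ h ∧ (∀ t, 0 < h t) ∧
    ∀ t, c / 2 < t → h t = t := by
  refine ⟨fun t => t * Real.smoothTransition ((t - c / 4) / (c / 4)) +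
    (c / 4) * (1 - Real.smoothTransition ((t - c / 4) / (c / 4))), ?_, ?_, ?_⟩
  · have h1 : ContDiff ℝ ∞ fun t : ℝ => Real.smoothTransition ((t - c / 4) / (c / 4)) :=
      Real.smoothTransition.contDiff.comp ((contDiff_id.sub contDiff_const).div_const _)
    exact (contDiff_id.mul h1).add (contDiff_const.mul (contDiff_const.sub h1))
  · intro t
    have h1 := Real.smoothTransition.nonneg ((t - c / 4) / (c / 4))
    have h2 := Real.smoothTransition.le_one ((t - c / 4) / (c / 4))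
    rcases le_or_gt t (c / 4) with h | h
    · have h3 : Real.smoothTransition ((t - c / 4) / (c / 4)) = 0 := by
        apply Real.smoothTransition.zero_of_nonpos
        exact div_nonpos_of_nonpos_of_nonneg (by linarith) (by positivity)
      simp only [h3]
      linarith
    · nlinarith
  · intro t ht
    have h3 : Real.smoothTransition ((t - c / 4) / (c / 4)) = 1 := by
      apply Real.smoothTransition.one_of_one_le
      rw [le_div_iff₀ (by positivity)]
      linarith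
    simp only [h3]
    ring

theorem LC24_div {P : Dev κ m Y} {a b : Y → ℝ} {y : Y} (ha : LC24_SmA P a y)
    (hb : LC24_SmA P b y) (hpos : 0 < b y) : LC24_SmA P (fun z => a z / b z) y := by
  obtain ⟨G, hG, hF⟩ := ha
  obtain ⟨G', hG', hF'⟩ := hb
  obtain ⟨h, hh1, hh2, hh3⟩ := LC24_exists_h _ hpos
  refine ⟨fun x => G x / h (G' x), hG.div (hh1.comp hG') (fun x => (hh2 _).ne'), ?_⟩
  have hGp : G' (P.p y) = b y := hF'.self_of_nhds.symm
  have h3 : Continuous fun z : Y => G' (P.p z) := hG'.continuous.comp P.continuous_p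
  have h4 : ∀ᶠ z in 𝓝 y, b y / 2 < G' (P.p z) := by
    apply h3.continuousAt.eventually
    apply lt_mem_nhds
    show b y / 2 < G' (P.p y)
    rw [hGp]
    linarith
  filter_upwards [hF, hF', h4] with z h1 h2 h5
  rw [h1, h2, hh3 _ h5]

end chfamaux

/-- existence of a finite chart family with invariant partition of unity -/
theorem exists_chFam {κ : ℝ} {m : ℕ} (hκ : κ = -1 ∨ κ = 0 ∨ κ = 1) {Y : Type*}
    [TopologicalSpace Y] [T2Space Y] (P : Dev κ m Y) {Γ : Type*} [Group Γ] [MulAction Γ Y]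
    [ContinuousConstSMul Γ Y] [ProperlyDiscontinuousSMul Γ Y]
    (hfree : ∀ (γ : Γ) (y : Y), γ • y = y → γ = 1) (H : Hol P Γ) (hK : Coc Γ Y) :
    Nonempty (ChFam P Γ) := by
  classical
  obtain ⟨K0, hK0c, hK0γ⟩ := hK
  choose U hU hUd using LC24_free P hfree
  choose c K χ hKc hKsub hsub hsm hnn hsupp hpos using fun y0 => LC24_chart hκ P y0 (U y0) (hU y0)
  obtain ⟨t, -, ht⟩ := hK0c.elim_nhds_subcover (fun y0 => {y | 0 < χ y0 y}) (fun y _ => hpos y)
  let ν : Fin t.card → Y := fun j => (t.equivFin.symm j : Y)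
  have hν : ∀ i ∈ t, ∃ j, ν j = i := fun i hi =>
    ⟨t.equivFin ⟨i, hi⟩, by show ((t.equivFin.symm (t.equivFin ⟨i, hi⟩) : t) : Y) = i; simp⟩
  have hρc : ∀ γ : Γ, ContDiff ℝ ∞ (fun x : V m => H.ρ γ x) := fun γ =>
    (LinearMap.toContinuousLinearMap (H.ρ γ).toLinearMap).contDiff
  have hSc : ∀ j, IsCompact ((c (ν j)).e '' K (ν j)) := fun j =>
    (hKc (ν j)).image_of_continuousOn ((c (ν j)).cont.mono (hKsub (ν j)))
  have hχγ : ∀ j (γ : Γ) y, LC24_SmA P (fun z => χ (ν j) (γ • z)) y := by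
    intro j γ y
    obtain ⟨G, hG, hF⟩ := hsm (ν j) (γ • y)
    refine ⟨fun x => G (H.ρ γ x), hG.comp (hρc γ), ?_⟩
    have h1 : Continuous fun z : Y => γ • z := continuous_const_smul γ
    filter_upwards [h1.continuousAt.eventually hF] with z hz
    rw [hz, H.eqv]
  have hfin : ∀ j y, ∃ Λ : Finset Γ, ∀ᶠ z in 𝓝 y, ∀ γ, χ (ν j) (γ • z) ≠ 0 → γ ∈ Λ := by
    intro j y
    obtain ⟨S, hS, hSn⟩ := LC24_cpt P y
    have hf := ProperlyDiscontinuousSMul.finite_disjoint_inter_image (Γ := Γ) hS (hSc j)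
    refine ⟨hf.toFinset, ?_⟩
    filter_upwards [hSn] with z hz γ hγ
    rw [Set.Finite.mem_toFinset]
    have hzS : γ • z ∈ (c (ν j)).e '' K (ν j) := by
      by_contra h
      exact hγ (hsupp (ν j) _ h)
    have : ((γ • ·) '' S ∩ ((c (ν j)).e '' K (ν j))).Nonempty := ⟨γ • z, ⟨z, hz, rfl⟩, hzS⟩
    exact this
  let F : Fin t.card → Y → ℝ := fun j y => ∑ᶠ γ : Γ, χ (ν j) (γ • y)
  have hFsum : ∀ j (y : Y) (Λ : Finset Γ), (∀ γ, χ (ν j) (γ • y) ≠ 0 → γ ∈ Λ) →
      F j y = ∑ γ ∈ Λ, χ (ν j) (γ • y) := by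
    intro j y Λ hΛ
    apply finsum_eq_sum_of_support_subset
    intro γ hγ
    exact hΛ γ hγ
  have hFs : ∀ j y, LC24_SmA P (F j) y := by
    intro j y
    obtain ⟨Λ, hΛ⟩ := hfin j y
    have h1 : LC24_SmA P (fun z => ∑ γ ∈ Λ, χ (ν j) (γ • z)) y :=
      LC24_SmA.sum Λ fun γ _ => hχγ j γ y
    refine h1.congr ?_
    filter_upwards [hΛ] with z hz
    exact hFsum j z Λ hz
  have hF0 : ∀ j y, 0 ≤ F j y := fun j y => finsum_nonneg fun γ => hnn (ν j) _
  let Ξ : Y → ℝ := fun y => ∑ j, F j y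
  have hΞs : ∀ y, LC24_SmA P Ξ y := fun y => LC24_SmA.sum Finset.univ fun j _ => hFs j y
  have hΞpos : ∀ y, 0 < Ξ y := by
    intro y
    obtain ⟨γ, hγ⟩ := hK0γ y
    have h1 := ht hγ
    simp only [mem_iUnion] at h1
    obtain ⟨i, hi, hi'⟩ := h1
    obtain ⟨j, rfl⟩ := hν i hi
    refine Finset.sum_pos' (fun j _ => hF0 j y) ⟨j, Finset.mem_univ _, ?_⟩
    obtain ⟨Λ, hΛ⟩ := hfin j y
    rw [hFsum j y Λ hΛ.self_of_nhds]
    have hi2 : 0 < χ (ν j) (γ • y) := hi'
    exact Finset.sum_pos' (fun γ _ => hnn (ν j) _) ⟨γ, hΛ.self_of_nhds γ hi2.ne', hi2⟩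
  have hΞinv : ∀ (δ : Γ) y, Ξ (δ • y) = Ξ y := by
    intro δ y
    apply Finset.sum_congr rfl
    intro j _
    show (∑ᶠ γ : Γ, χ (ν j) (γ • δ • y)) = ∑ᶠ γ : Γ, χ (ν j) (γ • y)
    have h1 : (fun γ : Γ => χ (ν j) (γ • δ • y)) =
        fun γ : Γ => (fun γ' : Γ => χ (ν j) (γ' • y)) ((Equiv.mulRight δ) γ) := by
      funext γ
      show χ (ν j) (γ • δ • y) = χ (ν j) ((γ * δ) • y)
      rw [mul_smul]
    rw [h1, finsum_comp_equiv (Equiv.mulRight δ) (f := fun γ' : Γ => χ (ν j) (γ' • y))]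
  refine ⟨{ N := t.card, c := fun j => c (ν j), χ := fun j y => χ (ν j) y / Ξ y,
            K := fun j => K (ν j), Kc := fun j => hKc (ν j), Ksub := fun j => hKsub (ν j),
            sm := fun j y => LC24_div (hsm (ν j) y) (hΞs y) (hΞpos y),
            nn := fun j y => div_nonneg (hnn (ν j) y) (hΞpos y).le,
            supp := fun j y hy => by
              show χ (ν j) y / Ξ y = 0
              rw [hsupp (ν j) y hy, zero_div],
            disj := ?_, sum := ?_ }⟩
  · intro j γ hγ y hy hy'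
    exact hUd (ν j) γ hγ y (hsub (ν j) hy) (hsub (ν j) hy')
  · intro y
    have h1 : ∀ j, ∑ᶠ γ : Γ, χ (ν j) (γ • y) / Ξ (γ • y) = F j y / Ξ y := by
      intro j
      obtain ⟨Λ, hΛ⟩ := hfin j y
      rw [hFsum j y Λ hΛ.self_of_nhds, Finset.sum_div]
      have h2 : (fun γ : Γ => χ (ν j) (γ • y) / Ξ (γ • y)) =
          fun γ : Γ => χ (ν j) (γ • y) / Ξ y := by
        funext γ; rw [hΞinv]
      rw [h2]
      apply finsum_eq_sum_of_support_subset
      intro γ hγ
      apply hΛ.self_of_nhds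
      intro h
      apply hγ
      show χ (ν j) (γ • y) / Ξ y = 0
      rw [h, zero_div]
    show ∑ j, ∑ᶠ γ : Γ, χ (ν j) (γ • y) / Ξ (γ • y) = 1
    rw [Finset.sum_congr rfl (fun j _ => h1 j), ← Finset.sum_div]
    exact div_self (hΞpos y).ne'

end Pool.Agent.Helper107.LC
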