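import Mathlib
import Pool.Agent.Helper107.LC.Base
set_option autoImplicit false
open Set Filter Topology
open scoped ContDiff

namespace Pool.Agent.Helper107.LC

section NLXaux
open MeasureTheory

theorem nlx_finrank (m : ℕ) : Module.finrank ℝ (V m) = m + 2 := by
  simp only [Module.finrank_prod, Module.finrank_self, finrank_euclideanSpace_fin]
  omega

theorem nlx_Dt_cont {m : ℕ} (Dt : (V m) [⋀^Fin (m + 2)]→ₗ[ℝ] ℝ) :
    Continuous (fun v : Fin (m + 2) → V m => Dt v) := by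
  let e := Module.finBasisOfFinrankEq ℝ (V m) (nlx_finrank m)
  have h : ∀ v, Dt v = Dt e * e.det v := by
    intro v
    have := congrArg (fun f => f v) (Dt.eq_smul_basis_det e)
    simpa using this
  have h2 : (fun v : Fin (m + 2) → V m => Dt v) = fun v => Dt e * (e.toMatrix v).det := by
    funext v
    rw [h v, Module.Basis.det_apply]
  rw [h2]
  refine continuous_const.mul (Continuous.matrix_det ?_)
  refine continuous_matrix fun i j => ?_
  have h3 : (fun v : Fin (m + 2) → V m => e.toMatrix v i j) = fun v => e.coord i (v j) := by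
    funext v
    simp [Module.Basis.toMatrix_apply]
  rw [h3]
  exact (LinearMap.continuous_of_finiteDimensional (e.coord i)).comp (continuous_apply j)

/-- continuous version of an alternating map -/
noncomputable def nlxD {m : ℕ} (Dt : (V m) [⋀^Fin (m + 2)]→ₗ[ℝ] ℝ) :
    (V m) [⋀^Fin (m + 2)]→L[ℝ] ℝ :=
  { toMultilinearMap := Dt.toMultilinearMap
    cont := nlx_Dt_cont Dt
    map_eq_zero_of_eq' := Dt.map_eq_zero_of_eq' }

theorem nlxD_apply {m : ℕ} (Dt : (V m) [⋀^Fin (m + 2)]→ₗ[ℝ] ℝ) (v : Fin (m + 2) → V m) :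
    nlxD Dt v = Dt v := rfl

/-- the pulled back form -/
noncomputable def nlxo {m : ℕ} (Dt : (V m) [⋀^Fin (m + 2)]→ₗ[ℝ] ℝ) (S : R m × ℝ → V m)
    (x : R m × ℝ) : (R m × ℝ) [⋀^Fin (m + 1)]→L[ℝ] ℝ :=
  ((nlxD Dt).curryLeft (S x)).compContinuousLinearMap (fderiv ℝ S x)

theorem nlxo_apply {m : ℕ} (Dt : (V m) [⋀^Fin (m + 2)]→ₗ[ℝ] ℝ) (S : R m × ℝ → V m)
    (x : R m × ℝ) (v : Fin (m + 1) → R m × ℝ) :
    nlxo Dt S x v = Dt (Fin.cons (S x) (fun i => fderiv ℝ S x (v i))) := rfl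

theorem nlx_tan {κ : ℝ} {m : ℕ} (S : R m × ℝ → V m) (x : R m × ℝ)
    (hS : DifferentiableAt ℝ S x) (hX : ∀ᶠ y in 𝓝 x, Q κ (S y) (S y) = 1) (v : R m × ℝ) :
    Q κ (S x) (fderiv ℝ S x v) = 0 := by
  set w := fderiv ℝ S x v with hw
  have h0 : HasDerivAt (fun t : ℝ => x + t • v) v 0 := by
    simpa using ((hasDerivAt_id (0:ℝ)).smul_const v).const_add x
  have hx0 : x + (0:ℝ) • v = x := by simp
  have h1 : HasDerivAt (fun t : ℝ => S (x + t • v)) w 0 := by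
    have hf : HasFDerivAt S (fderiv ℝ S x) (x + (0:ℝ) • v) := by
      rw [hx0]; exact hS.hasFDerivAt
    exact hf.comp_hasDerivAt (0:ℝ) h0
  have hc1 : HasDerivAt (fun t : ℝ => (S (x + t • v)).1) w.1 0 :=
    (ContinuousLinearMap.fst ℝ ℝ (E m × ℝ)).hasFDerivAt.comp_hasDerivAt (0:ℝ) h1
  have hc2 : HasDerivAt (fun t : ℝ => (S (x + t • v)).2) w.2 0 :=
    (ContinuousLinearMap.snd ℝ ℝ (E m × ℝ)).hasFDerivAt.comp_hasDerivAt (0:ℝ) h1
  have hc21 : HasDerivAt (fun t : ℝ => (S (x + t • v)).2.1) w.2.1 0 :=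
    (ContinuousLinearMap.fst ℝ (E m) ℝ).hasFDerivAt.comp_hasDerivAt (0:ℝ) hc2
  have hc22 : HasDerivAt (fun t : ℝ => (S (x + t • v)).2.2) w.2.2 0 :=
    (ContinuousLinearMap.snd ℝ (E m) ℝ).hasFDerivAt.comp_hasDerivAt (0:ℝ) hc2
  have hq : HasDerivAt (fun t : ℝ => Q κ (S (x + t • v)) (S (x + t • v))) (2 * Q κ (S x) w) 0 := by
    have h2 := (((hc1.mul hc1).neg.add (hc21.inner ℝ hc21)).const_mul κ).add (hc22.mul hc22)
    have h3 : 2 * Q κ (S x) w = κ * (-(w.1 * (S (x + (0:ℝ) • v)).1 + (S (x + (0:ℝ) • v)).1 * w.1) +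
        (inner ℝ (S (x + (0:ℝ) • v)).2.1 w.2.1 + inner ℝ w.2.1 (S (x + (0:ℝ) • v)).2.1)) +
        (w.2.2 * (S (x + (0:ℝ) • v)).2.2 + (S (x + (0:ℝ) • v)).2.2 * w.2.2) := by
      rw [hx0, Q, real_inner_comm w.2.1 (S x).2.1]; ring
    rw [h3]
    exact h2
  have hcont : Tendsto (fun t : ℝ => x + t • v) (𝓝 0) (𝓝 x) := by
    have h4 : Continuous (fun t : ℝ => x + t • v) := by fun_prop
    have h5 := h4.tendsto (0:ℝ)
    rwa [hx0] at h5
  have hconst : (fun t : ℝ => Q κ (S (x + t • v)) (S (x + t • v))) =ᶠ[𝓝 0] fun _ => (1:ℝ) :=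
    hcont.eventually hX
  have h6 : HasDerivAt (fun t : ℝ => Q κ (S (x + t • v)) (S (x + t • v))) 0 0 :=
    (hasDerivAt_const (0:ℝ) (1:ℝ)).congr_of_eventuallyEq hconst
  have h7 := hq.unique h6
  linarith

theorem nlx_dep {κ : ℝ} {m : ℕ} (Dt : (V m) [⋀^Fin (m + 2)]→ₗ[ℝ] ℝ) (p : V m)
    (hp : Q κ p p = 1) (v : Fin (m + 2) → V m) (hv : ∀ i, Q κ p (v i) = 0) : Dt v = 0 := by
  apply AlternatingMap.map_linearDependent
  intro hli
  have hspan := hli.span_eq_top_of_card_eq_finrank' (by rw [nlx_finrank]; simp)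
  let φ : V m →ₗ[ℝ] ℝ :=
    { toFun := fun w => Q κ p w
      map_add' := fun a b => Q_add_right p a b
      map_smul' := fun a b => by rw [Q_smul_right]; rfl }
  have hle : Submodule.span ℝ (Set.range v) ≤ LinearMap.ker φ := by
    rw [Submodule.span_le]
    rintro _ ⟨i, rfl⟩
    exact hv i
  rw [hspan] at hle
  have h1 : p ∈ LinearMap.ker φ := hle Submodule.mem_top
  have h2 : Q κ p p = 0 := h1
  rw [hp] at h2
  norm_num at h2

theorem nlx_closed {κ : ℝ} {m : ℕ} (Dt : (V m) [⋀^Fin (m + 2)]→ₗ[ℝ] ℝ) (S : R m × ℝ → V m)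
    (x : R m × ℝ) (hS : ContDiffAt ℝ ∞ S x) (hX : ∀ᶠ y in 𝓝 x, Q κ (S y) (S y) = 1) :
    extDeriv (nlxo Dt S) x = 0 := by
  have h1 : nlxo Dt S = fun y => ((fun z => (nlxD Dt).curryLeft z) (S y)).compContinuousLinearMap
      (fderiv ℝ S y) := rfl
  have hd : DifferentiableAt ℝ S x := hS.differentiableAt (by simp)
  have hX0 : Q κ (S x) (S x) = 1 := hX.self_of_nhds
  rw [h1, extDeriv_pullback (r := ∞) ((nlxD Dt).curryLeft.differentiableAt) hS (by rw [minSmoothness_of_isRCLikeNormedField]; exact WithTop.coe_le_coe.2 le_top)]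
  ext v
  have h2 : extDeriv (fun z => (nlxD Dt).curryLeft z) (S x) = (m + 1 + 1) • nlxD Dt := by
    rw [extDeriv, ContinuousLinearMap.fderiv, ContinuousAlternatingMap.alternatizeUncurryFin_curryLeft]
  rw [h2]
  have h3 : (((m + 1 + 1) • nlxD Dt).compContinuousLinearMap (fderiv ℝ S x)) v =
      (m + 1 + 1) • Dt (fun i => fderiv ℝ S x (v i)) := rfl
  rw [h3, nlx_dep Dt (S x) hX0 _ (fun i => nlx_tan S x hd hX (v i))]
  simp


theorem nlx_cd {m : ℕ} (Dt : (V m) [⋀^Fin (m + 2)]→ₗ[ℝ] ℝ) {U : Set (R m × ℝ)} (hU : IsOpen U)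
    (S : R m × ℝ → V m) (hS : ContDiffOn ℝ ∞ S U) (w : Fin (m + 1) → R m × ℝ) :
    ContDiffOn ℝ ∞ (fun y => nlxo Dt S y w) U := by
  have h1 : (fun y => nlxo Dt S y w) = (fun v => (nlxD Dt).toContinuousMultilinearMap v) ∘
      (fun y => (Fin.cons (S y) (fun i => fderiv ℝ S y (w i)) : Fin (m + 2) → V m)) := rfl
  rw [h1]
  refine (nlxD Dt).toContinuousMultilinearMap.contDiff.comp_contDiffOn ?_
  rw [contDiffOn_pi]
  intro i
  refine Fin.cases ?_ (fun j => ?_) i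
  · simpa using hS
  · simp only [Fin.cons_succ]
    exact (hS.fderiv_of_isOpen hU (by simp)).clm_apply contDiffOn_const

theorem nlx_diff {m : ℕ} (Dt : (V m) [⋀^Fin (m + 2)]→ₗ[ℝ] ℝ) (S : R m × ℝ → V m)
    (x : R m × ℝ) (hS : ContDiffAt ℝ ∞ S x) : DifferentiableAt ℝ (nlxo Dt S) x := by
  refine DifferentiableAt.continuousAlternatingMapCompContinuousLinearMap ?_ ?_
  · exact (nlxD Dt).curryLeft.differentiableAt.comp x (hS.differentiableAt (by simp))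
  · exact (hS.fderiv_right (m := ∞) (by simp)).differentiableAt (by simp)

/-- basis directions -/
noncomputable def nlxe {m : ℕ} (i : Fin (m + 1)) : R m × ℝ := (EuclideanSpace.single i 1, 0)

/-- the frame `(∂_a, ∂_1, …, ∂_n)` -/
noncomputable def nlxv {m : ℕ} : Fin (m + 2) → R m × ℝ := Fin.cons ((0 : R m), (1:ℝ)) nlxe

theorem nlx_sum {κ : ℝ} {m : ℕ} (Dt : (V m) [⋀^Fin (m + 2)]→ₗ[ℝ] ℝ) (S : R m × ℝ → V m)
    (x : R m × ℝ) (hS : ContDiffAt ℝ ∞ S x) (hX : ∀ᶠ y in 𝓝 x, Q κ (S y) (S y) = 1) :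
    fderiv ℝ (fun y => nlxo Dt S y nlxe) x (0, 1) =
      ∑ j : Fin (m + 1), fderiv ℝ (fun y => (-1 : ℝ) ^ (j : ℕ) *
        nlxo Dt S y (j.succ.removeNth nlxv)) x (nlxe j) := by
  have h1 := extDeriv_apply (nlx_diff Dt S x hS) nlxv
  rw [nlx_closed Dt S x hS hX, Fin.sum_univ_succ] at h1
  have e0 : (Fin.removeNth 0 (nlxv (m := m)) : Fin (m + 1) → R m × ℝ) = nlxe := by
    funext i
    simp [nlxv, Fin.removeNth]
  have e1 : (nlxv (m := m)) 0 = (0, 1) := rfl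
  have e2 : ∀ j : Fin (m + 1), (nlxv (m := m)) j.succ = nlxe j := fun j => by simp [nlxv]
  rw [e0, e1] at h1
  simp only [Fin.val_zero, pow_zero, one_smul, e2, Fin.val_succ] at h1
  have h2 : fderiv ℝ (fun y => nlxo Dt S y nlxe) x (0, 1) = - ∑ j : Fin (m + 1),
      (-1 : ℤ) ^ ((j : ℕ) + 1) • fderiv ℝ (fun y => nlxo Dt S y (j.succ.removeNth nlxv)) x (nlxe j) := by
    have h3 : (0 : (R m × ℝ) [⋀^Fin (m + 1 + 1)]→L[ℝ] ℝ) nlxv = 0 := rfl
    rw [h3] at h1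
    linarith
  rw [h2, ← Finset.sum_neg_distrib]
  refine Finset.sum_congr rfl fun j _ => ?_
  have hd : DifferentiableAt ℝ (fun y => nlxo Dt S y (j.succ.removeNth nlxv)) x :=
    (nlx_diff Dt S x hS).continuousAlternatingMap_apply (fun _ => differentiableAt_const _)
  rw [fderiv_const_mul hd]
  simp only [smul_apply, smul_eq_mul, zsmul_eq_mul]
  push_cast
  ring


/-- integral of a directional derivative of a compactly supported function -/
theorem nlx_int0 {m : ℕ} (g : R m → ℝ) (hg : ContDiff ℝ 1 g) (hc : HasCompactSupport g) (v : R m) :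
    ∫ ξ, fderiv ℝ g ξ v = 0 := by
  have hd : Differentiable ℝ g := hg.differentiable (by simp)
  have hcf : Continuous (fun ξ => fderiv ℝ g ξ v) :=
    (hg.continuous_fderiv (by simp)).clm_apply continuous_const
  have hcc : HasCompactSupport (fun ξ => fderiv ℝ g ξ v) := hc.fderiv_apply (𝕜 := ℝ) v
  have h := integral_mul_fderiv_eq_neg_fderiv_mul_of_integrable (μ := (volume : Measure (R m)))
    (f := fun _ : R m => (1:ℝ)) (g := g) (v := v) (by simp)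
    (by simpa using hcf.integrable_of_hasCompactSupport hcc)
    (by simpa using hd.continuous.integrable_of_hasCompactSupport hc)
    (fun x _ => differentiableAt_const _) (fun x _ => hd x)
  simpa using h

theorem nlx_da0 {m : ℕ} {r : ℝ} (S : R m × ℝ → V m)
    (hS : ContDiffOn ℝ ∞ S (Metric.ball 0 r ×ˢ univ)) {K : Set (R m)}
    (hc : ∀ ξ ∈ Metric.ball (0 : R m) r, ξ ∉ K → ∀ a, S (ξ, a) = S (ξ, 0))
    (x : R m × ℝ) (hx : x.1 ∈ Metric.ball (0 : R m) r) (hxK : x.1 ∉ K) :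
    fderiv ℝ S x (0, 1) = 0 := by
  have hU : IsOpen ((Metric.ball (0 : R m) r) ×ˢ (univ : Set ℝ)) := Metric.isOpen_ball.prod isOpen_univ
  have hd : DifferentiableAt ℝ S x :=
    (hS.contDiffAt (hU.mem_nhds ⟨hx, mem_univ _⟩)).differentiableAt (by simp)
  have h1 : HasDerivAt (fun t : ℝ => (x.1, t)) ((0 : R m), (1:ℝ)) x.2 :=
    (hasDerivAt_const x.2 x.1).prodMk (hasDerivAt_id x.2)
  have h2 : HasDerivAt (fun t : ℝ => S (x.1, t)) (fderiv ℝ S x (0, 1)) x.2 := by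
    have hf : HasFDerivAt S (fderiv ℝ S x) ((fun t : ℝ => (x.1, t)) x.2) := hd.hasFDerivAt
    exact hf.comp_hasDerivAt x.2 h1
  have h3 : (fun t : ℝ => S (x.1, t)) = fun _ => S (x.1, 0) := by
    funext t
    exact hc x.1 hx hxK t
  rw [h3] at h2
  exact h2.unique (hasDerivAt_const _ _)

open Classical in
/-- the coefficients of the vector field, extended by zero -/
noncomputable def nlxg {m : ℕ} (Dt : (V m) [⋀^Fin (m + 2)]→ₗ[ℝ] ℝ) (r : ℝ) (S : R m × ℝ → V m)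
    (j : Fin (m + 1)) (y : R m × ℝ) : ℝ :=
  if y.1 ∈ Metric.ball (0 : R m) r then
    (-1 : ℝ) ^ (j : ℕ) * nlxo Dt S y (j.succ.removeNth nlxv) else 0

theorem nlxg_zero {m : ℕ} (Dt : (V m) [⋀^Fin (m + 2)]→ₗ[ℝ] ℝ) {r : ℝ} (S : R m × ℝ → V m)
    (hS : ContDiffOn ℝ ∞ S (Metric.ball 0 r ×ˢ univ)) {K : Set (R m)}
    (hc : ∀ ξ ∈ Metric.ball (0 : R m) r, ξ ∉ K → ∀ a, S (ξ, a) = S (ξ, 0))
    (j : Fin (m + 1)) (y : R m × ℝ) (hy : y.1 ∉ K) : nlxg Dt r S j y = 0 := by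
  unfold nlxg
  split_ifs with h
  · have h0 := nlx_da0 S hS hc y h hy
    have h1 : nlxo Dt S y (j.succ.removeNth nlxv) = 0 := by
      rw [nlxo_apply]
      apply Dt.map_coord_zero (1 : Fin (m + 2))
      have e1 : (1 : Fin (m + 2)) = Fin.succ (0 : Fin (m + 1)) := rfl
      rw [e1, Fin.cons_succ]
      have e2 : (j.succ.removeNth (nlxv (m := m)) : Fin (m + 1) → R m × ℝ) 0 = (0, 1) := by
        simp [nlxv, Fin.removeNth]
      rw [e2, h0]
    rw [h1, mul_zero]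
  · rfl


theorem nlxg_cd {m : ℕ} (Dt : (V m) [⋀^Fin (m + 2)]→ₗ[ℝ] ℝ) {r : ℝ} (S : R m × ℝ → V m)
    (hS : ContDiffOn ℝ ∞ S (Metric.ball 0 r ×ˢ univ)) {K : Set (R m)} (hK : IsCompact K)
    (hKr : K ⊆ Metric.ball 0 r)
    (hc : ∀ ξ ∈ Metric.ball (0 : R m) r, ξ ∉ K → ∀ a, S (ξ, a) = S (ξ, 0))
    (j : Fin (m + 1)) : ContDiff ℝ 1 (nlxg Dt r S j) := by
  have hU : IsOpen ((Metric.ball (0 : R m) r) ×ˢ (univ : Set ℝ)) := Metric.isOpen_ball.prod isOpen_univ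
  rw [contDiff_iff_contDiffAt]
  intro y
  by_cases hy : y.1 ∈ Metric.ball (0 : R m) r
  · have hyU : y ∈ (Metric.ball (0 : R m) r) ×ˢ (univ : Set ℝ) := ⟨hy, mem_univ _⟩
    have h1 : ContDiffAt ℝ 1 (fun y => (-1 : ℝ) ^ (j : ℕ) * nlxo Dt S y (j.succ.removeNth nlxv)) y :=
      contDiffAt_const.mul (((nlx_cd Dt hU S hS _).contDiffAt (hU.mem_nhds hyU)).of_le (by simp))
    refine h1.congr_of_eventuallyEq ?_
    filter_upwards [hU.mem_nhds hyU] with z hz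
    simp only [nlxg, if_pos hz.1]
  · have hyK : y.1 ∉ K := fun h => hy (hKr h)
    have hV : IsOpen (Kᶜ ×ˢ (univ : Set ℝ)) := hK.isClosed.isOpen_compl.prod isOpen_univ
    refine (contDiffAt_const (c := (0:ℝ))).congr_of_eventuallyEq ?_
    filter_upwards [hV.mem_nhds ⟨hyK, mem_univ _⟩] with z hz
    exact nlxg_zero Dt S hS hc j z hz.1

theorem nlxg_fd {m : ℕ} (Dt : (V m) [⋀^Fin (m + 2)]→ₗ[ℝ] ℝ) {r : ℝ} (S : R m × ℝ → V m)
    (hS : ContDiffOn ℝ ∞ S (Metric.ball 0 r ×ˢ univ)) {K : Set (R m)} (hK : IsCompact K)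
    (hc : ∀ ξ ∈ Metric.ball (0 : R m) r, ξ ∉ K → ∀ a, S (ξ, a) = S (ξ, 0))
    (j : Fin (m + 1)) (y : R m × ℝ) (hy : y.1 ∉ K) : fderiv ℝ (nlxg Dt r S j) y = 0 := by
  have hV : IsOpen (Kᶜ ×ˢ (univ : Set ℝ)) := hK.isClosed.isOpen_compl.prod isOpen_univ
  have h : nlxg Dt r S j =ᶠ[𝓝 y] fun _ => (0:ℝ) := by
    filter_upwards [hV.mem_nhds ⟨hy, mem_univ _⟩] with z hz
    exact nlxg_zero Dt S hS hc j z hz.1
  rw [h.fderiv_eq]
  simp

/-- the divergence -/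
noncomputable def nlxd {m : ℕ} (Dt : (V m) [⋀^Fin (m + 2)]→ₗ[ℝ] ℝ) (r : ℝ) (S : R m × ℝ → V m)
    (y : R m × ℝ) : ℝ := ∑ j : Fin (m + 1), fderiv ℝ (nlxg Dt r S j) y (nlxe j)

theorem nlxd_int {m : ℕ} (Dt : (V m) [⋀^Fin (m + 2)]→ₗ[ℝ] ℝ) {r : ℝ} (S : R m × ℝ → V m)
    (hS : ContDiffOn ℝ ∞ S (Metric.ball 0 r ×ˢ univ)) {K : Set (R m)} (hK : IsCompact K)
    (hKr : K ⊆ Metric.ball 0 r)
    (hc : ∀ ξ ∈ Metric.ball (0 : R m) r, ξ ∉ K → ∀ a, S (ξ, a) = S (ξ, 0)) (a : ℝ) :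
    ∫ ξ : R m, nlxd Dt r S (ξ, a) = 0 := by
  have hcd := nlxg_cd Dt S hS hK hKr hc
  have hι : ∀ ξ : R m, HasFDerivAt (fun η : R m => (η, a)) (ContinuousLinearMap.inl ℝ (R m) ℝ) ξ :=
    fun ξ => hasFDerivAt_prodMk_left ξ a
  have hιc : ContDiff ℝ 1 (fun η : R m => (η, a)) := contDiff_id.prodMk contDiff_const
  have hg : ∀ j, ContDiff ℝ 1 (fun η : R m => nlxg Dt r S j (η, a)) := fun j =>
    (hcd j).comp hιc
  have hgc : ∀ j, HasCompactSupport (fun η : R m => nlxg Dt r S j (η, a)) := fun j =>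
    HasCompactSupport.intro hK (fun η hη => nlxg_zero Dt S hS hc j (η, a) hη)
  have hfd : ∀ j (ξ : R m), fderiv ℝ (nlxg Dt r S j) (ξ, a) (nlxe j) =
      fderiv ℝ (fun η : R m => nlxg Dt r S j (η, a)) ξ (EuclideanSpace.single j 1) := by
    intro j ξ
    have h1 : HasFDerivAt (nlxg Dt r S j) (fderiv ℝ (nlxg Dt r S j) (ξ, a)) (ξ, a) :=
      ((hcd j).differentiable (by simp) _).hasFDerivAt
    have h2 := HasFDerivAt.comp ξ (f := fun η : R m => (η, a)) (g := nlxg Dt r S j) h1 (hι ξ)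
    have h3 : fderiv ℝ (fun η : R m => nlxg Dt r S j (η, a)) ξ =
        (fderiv ℝ (nlxg Dt r S j) (ξ, a)).comp (ContinuousLinearMap.inl ℝ (R m) ℝ) := h2.fderiv
    rw [h3]
    rfl
  unfold nlxd
  simp only [hfd]
  rw [integral_finsetSum]
  · refine Finset.sum_eq_zero fun j _ => nlx_int0 _ (hg j) (hgc j) _
  · intro j _
    have hcf : Continuous (fun ξ => fderiv ℝ (fun η : R m => nlxg Dt r S j (η, a)) ξ
        (EuclideanSpace.single j 1)) :=
      ((hg j).continuous_fderiv (by simp)).clm_apply continuous_const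
    have hcc : HasCompactSupport (fun ξ => fderiv ℝ (fun η : R m => nlxg Dt r S j (η, a)) ξ
        (EuclideanSpace.single j 1)) := (hgc j).fderiv_apply (𝕜 := ℝ) _
    exact hcf.integrable_of_hasCompactSupport hcc

theorem nlx_J0 {m : ℕ} {r : ℝ} (S : R m × ℝ → V m)
    (hS : ContDiffOn ℝ ∞ S (Metric.ball 0 r ×ˢ univ)) (ξ : R m) (hξ : ξ ∈ Metric.ball (0 : R m) r)
    (a : ℝ) (i : Fin (m + 1)) : fderiv ℝ (fun η : R m => S (η, a)) ξ (EuclideanSpace.single i 1) =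
      fderiv ℝ S (ξ, a) (nlxe i) := by
  have hU : IsOpen ((Metric.ball (0 : R m) r) ×ˢ (univ : Set ℝ)) := Metric.isOpen_ball.prod isOpen_univ
  have hm : (ξ, a) ∈ (Metric.ball (0 : R m) r) ×ˢ (univ : Set ℝ) := Set.mk_mem_prod hξ (mem_univ a)
  have hc : ContDiffAt ℝ ∞ S (ξ, a) := hS.contDiffAt (hU.mem_nhds hm)
  have hd : DifferentiableAt ℝ S (ξ, a) := hc.differentiableAt (by simp)
  have h1 : HasFDerivAt S (fderiv ℝ S (ξ, a)) ((fun η : R m => (η, a)) ξ) := hd.hasFDerivAt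
  have h2 : HasFDerivAt (fun η : R m => S (η, a))
      ((fderiv ℝ S (ξ, a)).comp (ContinuousLinearMap.inl ℝ (R m) ℝ)) ξ :=
    h1.comp ξ (hasFDerivAt_prodMk_left ξ a)
  rw [h2.fderiv]
  rfl

theorem nlx_J {m : ℕ} (Dt : (V m) [⋀^Fin (m + 2)]→ₗ[ℝ] ℝ) {r : ℝ} (S : R m × ℝ → V m)
    (hS : ContDiffOn ℝ ∞ S (Metric.ball 0 r ×ˢ univ)) (ξ : R m) (hξ : ξ ∈ Metric.ball (0 : R m) r)
    (a : ℝ) : J Dt (fun η => S (η, a)) ξ = nlxo Dt S (ξ, a) nlxe := by
  have h4 := nlx_J0 S hS ξ hξ a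
  rw [nlxo_apply]
  unfold J
  simp only [h4]

end NLXaux

/-- the integral of the pulled back volume form does not change under compactly supported homotopies
with values in the model space -/
theorem NLX {κ : ℝ} {m : ℕ} (hκ : κ = -1 ∨ κ = 0 ∨ κ = 1) (Dt : (V m) [⋀^Fin (m + 2)]→ₗ[ℝ] ℝ)
    {r : ℝ} (hr : 0 < r) (S : R m × ℝ → V m)
    (hS : ContDiffOn ℝ ∞ S (Metric.ball 0 r ×ˢ univ))
    (hX : ∀ ξ ∈ Metric.ball (0 : R m) r, ∀ a, S (ξ, a) ∈ X κ m) (K : Set (R m)) (hK : IsCompact K)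
    (hKr : K ⊆ Metric.ball 0 r)
    (hc : ∀ ξ ∈ Metric.ball (0 : R m) r, ξ ∉ K → ∀ a, S (ξ, a) = S (ξ, 0)) :
    ∫ ξ in Metric.ball (0 : R m) r,
      (J Dt (fun η => S (η, 1)) ξ - J Dt (fun η => S (η, 0)) ξ) = 0 := by
  have hU : IsOpen ((Metric.ball (0 : R m) r) ×ˢ (univ : Set ℝ)) := Metric.isOpen_ball.prod isOpen_univ
  have hcd := nlxg_cd Dt S hS hK hKr hc
  have hdc : Continuous (nlxd Dt r S) := by
    unfold nlxd
    exact continuous_finsetSum _ fun j _ =>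
      ((hcd j).continuous_fderiv (by simp)).clm_apply continuous_const
  have hd0 : ∀ y : R m × ℝ, y.1 ∉ K → nlxd Dt r S y = 0 := by
    intro y hy
    unfold nlxd
    refine Finset.sum_eq_zero fun j _ => ?_
    rw [nlxg_fd Dt S hS hK hc j y hy]
    simp
  -- the derivative in `a`
  have hda : ∀ ξ ∈ Metric.ball (0 : R m) r, ∀ a : ℝ,
      HasDerivAt (fun t : ℝ => nlxo Dt S (ξ, t) nlxe) (nlxd Dt r S (ξ, a)) a := by
    intro ξ hξ a
    have hyU : (ξ, a) ∈ (Metric.ball (0 : R m) r) ×ˢ (univ : Set ℝ) := ⟨hξ, mem_univ _⟩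
    have hSa : ContDiffAt ℝ ∞ S (ξ, a) := hS.contDiffAt (hU.mem_nhds hyU)
    have hXa : ∀ᶠ y in 𝓝 (ξ, a), Q κ (S y) (S y) = 1 := by
      filter_upwards [hU.mem_nhds hyU] with z hz
      exact hX z.1 hz.1 z.2
    have h1 := nlx_sum Dt S (ξ, a) hSa hXa
    have h2 : fderiv ℝ (fun y => nlxo Dt S y nlxe) (ξ, a) (0, 1) = nlxd Dt r S (ξ, a) := by
      rw [h1, nlxd]
      refine Finset.sum_congr rfl fun j _ => ?_
      have h3 : (nlxg Dt r S j) =ᶠ[𝓝 (ξ, a)] fun y => (-1 : ℝ) ^ (j : ℕ) *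
          nlxo Dt S y (j.succ.removeNth nlxv) := by
        filter_upwards [hU.mem_nhds hyU] with z hz
        simp only [nlxg, if_pos hz.1]
      rw [h3.fderiv_eq]
    rw [← h2]
    have h4 : HasDerivAt (fun t : ℝ => (ξ, t)) ((0 : R m), (1:ℝ)) a :=
      (hasDerivAt_const a ξ).prodMk (hasDerivAt_id a)
    have h5 : DifferentiableAt ℝ (fun y => nlxo Dt S y nlxe) (ξ, a) :=
      ((nlx_cd Dt hU S hS nlxe).contDiffAt (hU.mem_nhds hyU)).differentiableAt (by simp)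
    have h6 : HasFDerivAt (fun y => nlxo Dt S y nlxe) (fderiv ℝ (fun y => nlxo Dt S y nlxe) (ξ, a))
      ((fun t : ℝ => (ξ, t)) a) := h5.hasFDerivAt
    exact h6.comp_hasDerivAt a h4
  have hftc : ∀ ξ ∈ Metric.ball (0 : R m) r,
      J Dt (fun η => S (η, 1)) ξ - J Dt (fun η => S (η, 0)) ξ =
      ∫ a in (0:ℝ)..1, nlxd Dt r S (ξ, a) := by
    intro ξ hξ
    rw [nlx_J Dt S hS ξ hξ 1, nlx_J Dt S hS ξ hξ 0]
    rw [intervalIntegral.integral_eq_sub_of_hasDerivAt (fun a _ => hda ξ hξ a)]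
    have h7 : Continuous (fun a : ℝ => nlxd Dt r S (ξ, a)) := hdc.comp (by fun_prop)
    exact h7.intervalIntegrable _ _
  rw [MeasureTheory.setIntegral_congr_fun Metric.isOpen_ball.measurableSet (fun ξ hξ => hftc ξ hξ)]
  have hset : ∫ ξ in Metric.ball (0 : R m) r, ∫ a in (0:ℝ)..1, nlxd Dt r S (ξ, a) =
      ∫ ξ : R m, ∫ a in (0:ℝ)..1, nlxd Dt r S (ξ, a) := by
    apply MeasureTheory.setIntegral_eq_integral_of_forall_compl_eq_zero
    intro ξ hξ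
    have h8 : ∀ a : ℝ, nlxd Dt r S (ξ, a) = 0 := fun a => hd0 (ξ, a) (fun h => hξ (hKr h))
    simp [h8]
  rw [hset]
  simp only [intervalIntegral.integral_of_le zero_le_one]
  rw [MeasureTheory.integral_integral_swap]
  · have h9 : ∀ a : ℝ, ∫ ξ : R m, nlxd Dt r S (ξ, a) = 0 := nlxd_int Dt S hS hK hKr hc
    simp [h9]
  · have h10 : Function.uncurry (fun (ξ : R m) (a : ℝ) => nlxd Dt r S (ξ, a)) = nlxd Dt r S := by
      funext y; rfl
    rw [h10]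
    have h11 : (MeasureTheory.volume : MeasureTheory.Measure (R m)).prod
        ((MeasureTheory.volume : MeasureTheory.Measure ℝ).restrict (Ioc 0 1)) =
        ((MeasureTheory.volume : MeasureTheory.Measure (R m)).prod
          (MeasureTheory.volume : MeasureTheory.Measure ℝ)).restrict (univ ×ˢ Ioc 0 1) := by
      rw [← MeasureTheory.Measure.prod_restrict, MeasureTheory.Measure.restrict_univ]
    rw [h11]
    have h12 : MeasureTheory.IntegrableOn (nlxd Dt r S) (K ×ˢ Icc (0:ℝ) 1)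
        ((MeasureTheory.volume : MeasureTheory.Measure (R m)).prod
          (MeasureTheory.volume : MeasureTheory.Measure ℝ)) :=
      hdc.continuousOn.integrableOn_compact (hK.prod isCompact_Icc)
    refine MeasureTheory.IntegrableOn.of_forall_sdiff_eq_zero h12
      (MeasurableSet.univ.prod measurableSet_Ioc) ?_
    rintro ⟨ξ, a⟩ ⟨⟨_, ha⟩, h14⟩
    apply hd0
    intro h15
    exact h14 ⟨h15, Ioc_subset_Icc_self ha⟩

end Pool.Agent.Helper107.LC
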