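import Mathlib
import Pool.Agent.Helper107.LC.Topo
set_option autoImplicit false
open Set Filter Topology
open scoped ContDiff

namespace Pool.Agent.Helper107.LC

section h170
open MeasureTheory

theorem h170_finrank (m : ℕ) : Module.finrank ℝ (V m) = m + 2 := by
  rw [Module.finrank_prod, Module.finrank_prod, Module.finrank_self, finrank_euclideanSpace_fin]; ring

/-- composing an alternating form of top degree with a linear map multiplies it by the determinant -/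
theorem h170_alt_comp {n : ℕ} {W : Type*} [AddCommGroup W] [Module ℝ W] (b : Module.Basis (Fin n) ℝ W)
    (Ω : W [⋀^Fin n]→ₗ[ℝ] ℝ) (g : W →ₗ[ℝ] W) (v : Fin n → W) :
    Ω (fun i => g (v i)) = LinearMap.det g * Ω v := by
  rw [Ω.eq_smul_basis_det b]
  show Ω b * b.det (g ∘ v) = LinearMap.det g * (Ω b * b.det v)
  rw [Module.Basis.det_comp]; ring

/-- a diagonal form -/
noncomputable def h170_form (a b c : ℝ) (m : ℕ) : V m →ₗ[ℝ] V m →ₗ[ℝ] ℝ :=
  LinearMap.mk₂ ℝ (fun x y : V m => a * (x.1 * y.1) + b * inner ℝ x.2.1 y.2.1 + c * (x.2.2 * y.2.2))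
    (by intro x y z; simp only [Prod.fst_add, Prod.snd_add, inner_add_left]; ring)
    (by intro r x y; simp only [Prod.smul_fst, Prod.smul_snd, real_inner_smul_left, smul_eq_mul]; ring)
    (by intro x y z; simp only [Prod.fst_add, Prod.snd_add, inner_add_right]; ring)
    (by intro r x y; simp only [Prod.smul_fst, Prod.smul_snd, real_inner_smul_right, smul_eq_mul]; ring)

theorem h170_form_apply (a b c : ℝ) (m : ℕ) (x y : V m) : h170_form a b c m x y =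
    a * (x.1 * y.1) + b * inner ℝ x.2.1 y.2.1 + c * (x.2.2 * y.2.2) := rfl

theorem h170_form_inj {a b c : ℝ} (ha : a ≠ 0) (hb : b ≠ 0) (hc : c ≠ 0) (m : ℕ) :
    Function.Injective (h170_form a b c m) := by
  rw [← LinearMap.ker_eq_bot, LinearMap.ker_eq_bot']
  intro x hx
  have h1 : h170_form a b c m x (1, 0, 0) = 0 := by rw [hx]; rfl
  have h2 : h170_form a b c m x (0, x.2.1, 0) = 0 := by rw [hx]; rfl
  have h3 : h170_form a b c m x (0, 0, 1) = 0 := by rw [hx]; rfl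
  rw [h170_form_apply] at h1 h2 h3
  simp only [inner_zero_right, mul_zero, mul_one, add_zero, zero_add, real_inner_self_eq_norm_sq] at h1 h2 h3
  have e1 : x.1 = 0 := (mul_eq_zero.mp h1).resolve_left ha
  have e2 : x.2.1 = 0 := by
    have := (mul_eq_zero.mp h2).resolve_left hb
    exact norm_eq_zero.mp (by nlinarith [norm_nonneg x.2.1])
  have e3 : x.2.2 = 0 := (mul_eq_zero.mp h3).resolve_left hc
  exact Prod.ext e1 (Prod.ext e2 e3)

theorem h170_det_sq {m : ℕ} {a b c : ℝ} (ha : a ≠ 0) (hb : b ≠ 0) (hc : c ≠ 0) (g : V m ≃ₗ[ℝ] V m)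
    (hg : ∀ v w, h170_form a b c m (g v) (g w) = h170_form a b c m v w) :
    (LinearMap.det (g : V m →ₗ[ℝ] V m)) ^ 2 = 1 := by
  obtain ⟨Φ, hΦ⟩ : ∃ Φ : V m ≃ₗ[ℝ] Module.Dual ℝ (V m), ∀ x, Φ x = h170_form a b c m x :=
    ⟨LinearEquiv.ofInjectiveOfFinrankEq (h170_form a b c m) (h170_form_inj ha hb hc m)
      (Subspace.dual_finrank_eq).symm, fun x => rfl⟩
  have h1 : (g : V m →ₗ[ℝ] V m).dualMap =
      (Φ : V m →ₗ[ℝ] Module.Dual ℝ (V m)) ∘ₗ (g.symm : V m →ₗ[ℝ] V m) ∘ₗ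
        (Φ.symm : Module.Dual ℝ (V m) →ₗ[ℝ] V m) := by
    refine LinearMap.ext fun ψ => ?_
    obtain ⟨x, rfl⟩ := Φ.surjective ψ
    refine LinearMap.ext fun w => ?_
    show Φ x (g w) = Φ (g.symm (Φ.symm (Φ x))) w
    rw [Φ.symm_apply_apply, hΦ, hΦ, ← hg (g.symm x) w, g.apply_symm_apply]
  have h2 := congrArg LinearMap.det h1
  rw [LinearMap.det_dualMap, LinearMap.det_conj] at h2
  have h3 := LinearEquiv.det_mul_det_symm g
  rw [← h2] at h3
  rw [pow_two]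
  exact h3

end h170

section h170b
open MeasureTheory

theorem h170_det_shear {m : ℕ} (a : V m) (ha : a.2.2 = 0) (u : V m →ₗ[ℝ] V m)
    (hu : ∀ v, u v = v - v.2.2 • a) : (LinearMap.det u) ^ 2 = 1 := by
  obtain ⟨u', hu'⟩ : ∃ u' : V m →ₗ[ℝ] V m, ∀ v, u' v = v + v.2.2 • a :=
    ⟨{ toFun := fun v => v + v.2.2 • a
       map_add' := by intro v w; simp only [Prod.snd_add, add_smul]; abel
       map_smul' := by intro r v; simp only [Prod.smul_snd, smul_eq_mul, RingHom.id_apply, smul_add, mul_smul] },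
      fun v => rfl⟩
  obtain ⟨D, hD⟩ : ∃ D : V m →ₗ[ℝ] V m, ∀ v, D v = (v.1, v.2.1, -v.2.2) :=
    ⟨{ toFun := fun v => (v.1, v.2.1, -v.2.2)
       map_add' := by intro v w; ext <;> simp [add_comm]
       map_smul' := by intro r v; ext <;> simp },
      fun v => rfl⟩
  have hDD : D ∘ₗ D = LinearMap.id := by
    refine LinearMap.ext fun v => ?_
    show D (D v) = v
    rw [hD, hD]
    ext <;> simp
  have h1 : u ∘ₗ u' = LinearMap.id := by
    refine LinearMap.ext fun v => ?_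
    show u (u' v) = v
    rw [hu, hu']
    have h2 : (v + v.2.2 • a).2.2 = v.2.2 := by
      simp only [Prod.snd_add, Prod.smul_snd, ha, smul_zero, add_zero]
    rw [h2]
    abel
  have h3 : D ∘ₗ (u ∘ₗ D) = u' := by
    refine LinearMap.ext fun v => ?_
    show D (u (D v)) = u' v
    rw [hu, hu', map_sub, map_smul]
    have h4 : D (D v) = v := congrFun (congrArg DFunLike.coe hDD) v
    have h5 : D a = a := by rw [hD, ha]; ext <;> simp [ha]
    have h6 : (D v).2.2 = -v.2.2 := by rw [hD]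
    rw [h4, h5, h6, neg_smul, sub_neg_eq_add]
  have e1 : LinearMap.det D * LinearMap.det D = 1 := by
    rw [← LinearMap.det_comp, hDD, LinearMap.det_id]
  have e2 : LinearMap.det u * LinearMap.det u' = 1 := by
    rw [← LinearMap.det_comp, h1, LinearMap.det_id]
  have e3 : LinearMap.det u' = LinearMap.det u := by
    rw [← h3, LinearMap.det_comp, LinearMap.det_comp]
    calc LinearMap.det D * (LinearMap.det u * LinearMap.det D)
        = (LinearMap.det D * LinearMap.det D) * LinearMap.det u := by ring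
      _ = LinearMap.det u := by rw [e1, one_mul]
  rw [e3] at e2
  rw [pow_two, e2]

theorem h170_det_zero {m : ℕ} (g : V m ≃ₗ[ℝ] V m) (hQ : ∀ v w, (g v).2.2 * (g w).2.2 = v.2.2 * w.2.2)
    (hB : ∀ v w, v.2.2 = 0 → w.2.2 = 0 → B 0 (g v) (g w) = B 0 v w) :
    (LinearMap.det (g : V m →ₗ[ℝ] V m)) ^ 2 = 1 := by
  obtain ⟨e3, he3⟩ : ∃ e3 : V m, e3 = (0, 0, 1) := ⟨_, rfl⟩
  have he32 : e3.2.2 = 1 := by rw [he3]
  obtain ⟨ε, hε⟩ : ∃ ε : ℝ, ε = (g e3).2.2 := ⟨_, rfl⟩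
  have hε2 : ε * ε = 1 := by rw [hε, hQ, he32]; norm_num
  have hεv : ∀ v, (g v).2.2 = ε * v.2.2 := by
    intro v
    have h1 := hQ v e3
    rw [← hε, he32, mul_one] at h1
    calc (g v).2.2 = (g v).2.2 * (ε * ε) := by rw [hε2, mul_one]
      _ = ε * ((g v).2.2 * ε) := by ring
      _ = ε * v.2.2 := by rw [h1]
  obtain ⟨w0, hw0⟩ : ∃ w0 : V m, w0 = g e3 - ε • e3 := ⟨_, rfl⟩
  have hw02 : w0.2.2 = 0 := by
    rw [hw0]
    simp only [Prod.snd_sub, Prod.smul_snd, smul_eq_mul, he32, ← hε]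
    ring
  obtain ⟨a, ha⟩ : ∃ a : V m, a = g.symm w0 := ⟨_, rfl⟩
  have hga : g a = w0 := by rw [ha, g.apply_symm_apply]
  have hεne : ε ≠ 0 := by
    intro h
    rw [h] at hε2
    norm_num at hε2
  have ha2 : a.2.2 = 0 := by
    have h1 := hεv a
    rw [hga, hw02] at h1
    exact (mul_eq_zero.mp h1.symm).resolve_left hεne
  obtain ⟨u, hu⟩ : ∃ u : V m ≃ₗ[ℝ] V m, ∀ v, u v = v - v.2.2 • a :=
    ⟨{ toFun := fun v => v - v.2.2 • a
       invFun := fun v => v + v.2.2 • a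
       map_add' := by intro v w; simp only [Prod.snd_add, add_smul]; abel
       map_smul' := by intro r v; simp only [Prod.smul_snd, smul_eq_mul, RingHom.id_apply, smul_sub, mul_smul]
       left_inv := by
         intro v
         show v - v.2.2 • a + (v - v.2.2 • a).2.2 • a = v
         have h2 : (v - v.2.2 • a).2.2 = v.2.2 := by
           simp only [Prod.snd_sub, Prod.smul_snd, ha2, smul_zero, sub_zero]
         rw [h2]; abel
       right_inv := by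
         intro v
         show v + v.2.2 • a - (v + v.2.2 • a).2.2 • a = v
         have h2 : (v + v.2.2 • a).2.2 = v.2.2 := by
           simp only [Prod.snd_add, Prod.smul_snd, ha2, smul_zero, add_zero]
         rw [h2]; abel },
      fun v => rfl⟩
  have hgu : ∀ v : V m, ∃ vW : V m, vW.2.2 = 0 ∧ v = vW + v.2.2 • e3 ∧ g (u v) = g vW + (ε * v.2.2) • e3 := by
    intro v
    refine ⟨v - v.2.2 • e3, ?_, by abel, ?_⟩
    · simp only [Prod.snd_sub, Prod.smul_snd, he32, smul_eq_mul, mul_one, sub_self]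
    · rw [hu, map_sub, map_sub, map_smul, map_smul, hga, hw0, smul_sub, smul_smul, mul_comm ε]
      abel
  have hform : ∀ v w, h170_form (-1) 1 1 m ((u.trans g) v) ((u.trans g) w) = h170_form (-1) 1 1 m v w := by
    intro v w
    obtain ⟨v', hv1, hv2, hv3⟩ := hgu v
    obtain ⟨w', hw1, hw2, hw3⟩ := hgu w
    show h170_form (-1) 1 1 m (g (u v)) (g (u w)) = _
    rw [hv3, hw3]
    have key : ∀ (x y : V m) (s t : ℝ), x.2.2 = 0 → y.2.2 = 0 →
        h170_form (-1) 1 1 m (x + s • e3) (y + t • e3) = B 0 x y + s * t := by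
      intro x y s t hx hy
      rw [h170_form_apply, he3]
      simp only [B, Prod.fst_add, Prod.snd_add, Prod.smul_fst, Prod.smul_snd, smul_zero, add_zero, hx, hy,
        smul_eq_mul, mul_zero, mul_one, zero_add]
      ring
    have hg0 : ∀ x : V m, x.2.2 = 0 → (g x).2.2 = 0 := by
      intro x hx
      rw [hεv, hx, mul_zero]
    rw [key _ _ _ _ (hg0 v' hv1) (hg0 w' hw1), hB v' w' hv1 hw1]
    conv_rhs => rw [hv2, hw2]
    rw [key _ _ _ _ hv1 hw1]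
    calc B 0 v' w' + ε * v.2.2 * (ε * w.2.2) = B 0 v' w' + (ε * ε) * (v.2.2 * w.2.2) := by ring
      _ = _ := by rw [hε2, one_mul]
  have h1 := h170_det_sq (m := m) (a := -1) (b := 1) (c := 1) (by norm_num) one_ne_zero one_ne_zero
    (u.trans g) hform
  have h2 : ((u.trans g : V m ≃ₗ[ℝ] V m) : V m →ₗ[ℝ] V m) = (g : V m →ₗ[ℝ] V m) ∘ₗ (u : V m →ₗ[ℝ] V m) := rfl
  rw [h2, LinearMap.det_comp, mul_pow, h170_det_shear a ha2 (u : V m →ₗ[ℝ] V m) (fun v => hu v), mul_one] at h1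
  exact h1

theorem h170_abs_det {κ : ℝ} {m : ℕ} {Y : Type*} [TopologicalSpace Y] (hκ : κ = -1 ∨ κ = 0 ∨ κ = 1)
    {P : Dev κ m Y} {Γ : Type*} [Group Γ] [MulAction Γ Y] (H : Hol P Γ) (γ : Γ) :
    |LinearMap.det (H.ρ γ : V m →ₗ[ℝ] V m)| = 1 := by
  have hsq : (LinearMap.det (H.ρ γ : V m →ₗ[ℝ] V m)) ^ 2 = 1 := by
    rcases hκ with h | h | h
    · subst h
      refine h170_det_sq (m := m) (a := 1) (b := -1) (c := 1) one_ne_zero (by norm_num) one_ne_zero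
        (H.ρ γ) fun v w => ?_
      have h1 := H.Qinv γ v w
      rw [h170_form_apply, h170_form_apply]
      unfold Q at h1
      linarith
    · subst h
      refine h170_det_zero (H.ρ γ) (fun v w => ?_) (fun v w hv hw => ?_)
      · have h1 := H.Qinv γ v w
        unfold Q at h1
        linarith
      · have hx : ((0, 0, 1) : V m) ∈ X 0 m := by
          show Q 0 _ _ = 1
          simp [Q]
        exact H.Binv γ _ v w hx (by simp [Q, hv]) (by simp [Q, hw])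
    · subst h
      refine h170_det_sq (m := m) (a := -1) (b := 1) (c := 1) (by norm_num) one_ne_zero one_ne_zero
        (H.ρ γ) fun v w => ?_
      have h1 := H.Qinv γ v w
      rw [h170_form_apply, h170_form_apply]
      unfold Q at h1
      linarith
  obtain ⟨d, hd⟩ : ∃ d : ℝ, d = LinearMap.det (H.ρ γ : V m →ₗ[ℝ] V m) := ⟨_, rfl⟩
  rw [← hd] at hsq ⊢
  have h2 : (d - 1) * (d + 1) = 0 := by nlinarith
  rcases mul_eq_zero.mp h2 with h | h
  · have : d = 1 := by linarith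
    rw [this, abs_one]
  · have : d = -1 := by linarith
    rw [this, abs_neg, abs_one]

end h170b

section h170c
open MeasureTheory
variable {κ : ℝ} {m : ℕ} {Y : Type*} [TopologicalSpace Y]

theorem h170_Q_og {x v : V m} (hx : x ∈ X κ m) (hv : Q κ x v = 0) :
    Q κ x (og κ x v) = Real.sqrt (1 - κ * B κ v v) := by
  have h1 : Q κ x x = 1 := hx
  rw [og, Q_add_right, Q_smul_right, h1, hv]
  ring

theorem h170_tg_og {x v : V m} (hx : x ∈ X κ m) (hv : Q κ x v = 0) : tg κ x (og κ x v) = v := by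
  rw [tg, h170_Q_og hx hv, og]
  abel

/-- the tangential projection as a linear map -/
noncomputable def h170_tgL (κ : ℝ) {m : ℕ} (x : V m) : V m →ₗ[ℝ] V m where
  toFun := tg κ x
  map_add' := by
    intro v w
    simp only [tg, Q_add_right, add_smul]
    abel
  map_smul' := by
    intro r v
    simp only [tg, Q_smul_right, RingHom.id_apply, smul_sub, mul_smul]

theorem h170_left {P : Dev κ m Y} (c : P.Ch) : ∃ π : V m →ₗ[ℝ] R m, ∀ ξ, π (og κ c.x0 (c.L ξ)) = ξ := by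
  obtain ⟨Λ, hΛ⟩ := LinearMap.exists_leftInverse_of_injective c.L (LinearMap.ker_eq_bot.mpr c.inj)
  refine ⟨Λ ∘ₗ h170_tgL κ c.x0, fun ξ => ?_⟩
  show Λ (tg κ c.x0 (og κ c.x0 (c.L ξ))) = ξ
  rw [h170_tg_og c.hx0 (c.tan ξ)]
  exact congrFun (congrArg DFunLike.coe hΛ) ξ

/-- chart in the model space -/
noncomputable def h170_s {P : Dev κ m Y} (c : P.Ch) (ξ : R m) : V m := og κ c.x0 (c.L ξ)

theorem h170_s_smooth {P : Dev κ m Y} (c : P.Ch) :
    ContDiffOn ℝ ∞ (h170_s c) (Metric.ball (0 : R m) c.r) := by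
  have hL : ContDiff ℝ ∞ (fun ξ : R m => c.L ξ) :=
    (LinearMap.toContinuousLinearMap c.L).contDiff
  have hB : ContDiff ℝ ∞ (fun ξ : R m => B κ (c.L ξ) (c.L ξ)) := by
    unfold B
    have h1 := hL.fst
    have h2 := hL.snd.fst
    have h3 := hL.snd.snd
    exact ((h1.mul h1).neg.add (h2.inner ℝ h2)).add (contDiff_const.mul (h3.mul h3))
  have h4 : ContDiffOn ℝ ∞ (fun ξ : R m => Real.sqrt (1 - κ * B κ (c.L ξ) (c.L ξ))) (Metric.ball (0 : R m) c.r) := by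
    refine ContDiffOn.sqrt ((contDiff_const.sub (contDiff_const.mul hB)).contDiffOn) fun ξ hξ => ?_
    have := c.lt ξ hξ
    linarith
  exact (h4.smul contDiffOn_const).add hL.contDiffOn

theorem h170_s_diff {P : Dev κ m Y} (c : P.Ch) {ξ : R m} (hξ : ξ ∈ Metric.ball (0 : R m) c.r) :
    DifferentiableAt ℝ (h170_s c) ξ :=
  ((h170_s_smooth c).contDiffAt (Metric.isOpen_ball.mem_nhds hξ)).differentiableAt (by simp)

theorem h170_Dt_cont (Dt : (V m) [⋀^Fin (m + 2)]→ₗ[ℝ] ℝ) : Continuous (fun v : Fin (m + 2) → V m => Dt v) := by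
  obtain ⟨b⟩ : Nonempty (Module.Basis (Fin (m + 2)) ℝ (V m)) :=
    ⟨Module.finBasisOfFinrankEq ℝ (V m) (h170_finrank m)⟩
  rw [Dt.eq_smul_basis_det b]
  have h1 : (fun v : Fin (m + 2) → V m => (Dt b • b.det) v) =
      fun v => Dt b * (Matrix.of fun i j => b.repr (v j) i).det := by
    funext v
    show Dt b * b.det v = _
    rw [Module.Basis.det_apply]
    rfl
  rw [h1]
  refine continuous_const.mul (Continuous.matrix_det ?_)
  refine continuous_matrix fun i j => ?_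
  have h2 : Continuous (fun w : V m => b.repr w i) :=
    (LinearMap.continuous_of_finiteDimensional (b.coord i))
  exact h2.comp (continuous_apply j)

theorem h170_J_cont (Dt : (V m) [⋀^Fin (m + 2)]→ₗ[ℝ] ℝ) {P : Dev κ m Y} (c : P.Ch) :
    ContinuousOn (J Dt (h170_s c)) (Metric.ball (0 : R m) c.r) := by
  unfold J
  refine (h170_Dt_cont Dt).comp_continuousOn ?_
  have hf : ContinuousOn (fderiv ℝ (h170_s c)) (Metric.ball (0 : R m) c.r) :=
    (h170_s_smooth c).continuousOn_fderiv_of_isOpen Metric.isOpen_ball (by simp)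
  refine continuousOn_pi.mpr fun i => ?_
  refine Fin.cases ?_ (fun k => ?_) i
  · simp only [Fin.cons_zero]
    exact (h170_s_smooth c).continuousOn
  · simp only [Fin.cons_succ]
    exact hf.clm_apply continuousOn_const

/-- pull back by a map with values in a chart -/
theorem h170_J_comp (Dt : (V m) [⋀^Fin (m + 2)]→ₗ[ℝ] ℝ) (x : V m) (A : R m →L[ℝ] V m) (T : R m →L[ℝ] R m) :
    Dt (Fin.cons x (fun i => A (T (EuclideanSpace.single i 1)))) =
      LinearMap.det (T : R m →ₗ[ℝ] R m) * Dt (Fin.cons x (fun i => A (EuclideanSpace.single i 1))) := by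
  obtain ⟨b, hb⟩ : ∃ b : Module.Basis (Fin (m + 1)) ℝ (R m), ∀ i, b i = EuclideanSpace.single i (1 : ℝ) :=
    ⟨(EuclideanSpace.basisFun (Fin (m + 1)) ℝ).toBasis, fun i => by simp⟩
  have h1 := h170_alt_comp b ((Dt.curryLeft x).compLinearMap (A : R m →ₗ[ℝ] V m)) (T : R m →ₗ[ℝ] R m)
    (fun i => EuclideanSpace.single i (1 : ℝ))
  exact h1

theorem h170_J_rho (Dt : (V m) [⋀^Fin (m + 2)]→ₗ[ℝ] ℝ) (g : V m →ₗ[ℝ] V m) (x : V m) (A : R m →L[ℝ] V m) :
    Dt (Fin.cons (g x) (fun i => g (A (EuclideanSpace.single i 1)))) =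
      LinearMap.det g * Dt (Fin.cons x (fun i => A (EuclideanSpace.single i 1))) := by
  obtain ⟨b⟩ : Nonempty (Module.Basis (Fin (m + 2)) ℝ (V m)) :=
    ⟨Module.finBasisOfFinrankEq ℝ (V m) (h170_finrank m)⟩
  rw [← h170_alt_comp b Dt g]
  congr 1
  funext i
  refine Fin.cases ?_ (fun k => ?_) i
  · simp only [Fin.cons_zero]
  · simp only [Fin.cons_succ]

end h170c

section h170d
open MeasureTheory
variable {κ : ℝ} {m : ℕ} {Y : Type*} [TopologicalSpace Y] {P : Dev κ m Y} {Γ : Type*} [Group Γ] [MulAction Γ Y]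

/-- domain of the transition -/
def h170_O (c c' : P.Ch) (γ : Γ) : Set (R m) :=
  {ξ | ξ ∈ Metric.ball (0 : R m) c.r ∧ γ • c.e ξ ∈ c'.e '' Metric.ball (0 : R m) c'.r}

theorem h170_ps (c : P.Ch) {ξ : R m} (hξ : ξ ∈ Metric.ball (0 : R m) c.r) : P.p (c.e ξ) = h170_s c ξ :=
  c.pe ξ hξ

theorem h170_sinj (c : P.Ch) {ξ ξ' : R m} (h : h170_s c ξ = h170_s c ξ') : ξ = ξ' := by
  obtain ⟨π, hπ⟩ := h170_left c
  calc ξ = π (h170_s c ξ) := (hπ ξ).symm
    _ = π (h170_s c ξ') := by rw [h]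
    _ = ξ' := hπ ξ'

theorem h170_einj (c : P.Ch) {ξ ξ' : R m} (hξ : ξ ∈ Metric.ball (0 : R m) c.r)
    (hξ' : ξ' ∈ Metric.ball (0 : R m) c.r) (h : c.e ξ = c.e ξ') : ξ = ξ' := by
  apply h170_sinj c
  rw [← h170_ps c hξ, ← h170_ps c hξ', h]

theorem h170_O_open [ContinuousConstSMul Γ Y] (c c' : P.Ch) (γ : Γ) : IsOpen (h170_O c c' γ) := by
  have h1 : ContinuousOn (fun ξ => γ • c.e ξ) (Metric.ball (0 : R m) c.r) := c.cont.const_smul γ
  exact h1.isOpen_inter_preimage Metric.isOpen_ball c'.isOpen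

theorem h170_trans (H : Hol P Γ) (c c' : P.Ch) (γ : Γ) {π' : V m →ₗ[ℝ] R m}
    (hπ' : ∀ ξ, π' (og κ c'.x0 (c'.L ξ)) = ξ) {ξ : R m} (hξ : ξ ∈ h170_O c c' γ) :
    π' (H.ρ γ (h170_s c ξ)) ∈ Metric.ball (0 : R m) c'.r ∧
      c'.e (π' (H.ρ γ (h170_s c ξ))) = γ • c.e ξ ∧
      h170_s c' (π' (H.ρ γ (h170_s c ξ))) = H.ρ γ (h170_s c ξ) := by
  obtain ⟨h1, ξ', h2, h3⟩ := hξ
  have h4 : h170_s c' ξ' = H.ρ γ (h170_s c ξ) := by
    rw [← h170_ps c' h2, h3, H.eqv, h170_ps c h1]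
  have h5 : π' (H.ρ γ (h170_s c ξ)) = ξ' := by
    rw [← h4]
    exact hπ' ξ'
  rw [h5]
  exact ⟨h2, h3, h4⟩

theorem h170_jac (hκ : κ = -1 ∨ κ = 0 ∨ κ = 1) [ContinuousConstSMul Γ Y] (H : Hol P Γ)
    (Dt : (V m) [⋀^Fin (m + 2)]→ₗ[ℝ] ℝ) (c c' : P.Ch) (γ : Γ) {π' : V m →ₗ[ℝ] R m}
    (hπ' : ∀ ξ, π' (og κ c'.x0 (c'.L ξ)) = ξ) (G : V m →L[ℝ] R m)
    (hG : ∀ v, G v = π' (H.ρ γ v)) {ξ : R m} (hξ : ξ ∈ h170_O c c' γ) :
    |J Dt (h170_s c) ξ| = |(G.comp (fderiv ℝ (h170_s c) ξ)).det| *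
      |J Dt (h170_s c') (G (h170_s c ξ))| := by
  obtain ⟨t1, t2, t3⟩ := h170_trans H c c' γ hπ' hξ
  rw [← hG] at t1 t2 t3
  obtain ⟨g, hg⟩ : ∃ g : V m →L[ℝ] V m, ∀ v, g v = H.ρ γ v :=
    ⟨LinearMap.toContinuousLinearMap (H.ρ γ : V m →ₗ[ℝ] V m), fun v => rfl⟩
  have hd : HasFDerivAt (h170_s c) (fderiv ℝ (h170_s c) ξ) ξ := (h170_s_diff c hξ.1).hasFDerivAt
  have hd' : HasFDerivAt (h170_s c') (fderiv ℝ (h170_s c') (G (h170_s c ξ))) (G (h170_s c ξ)) :=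
    (h170_s_diff c' t1).hasFDerivAt
  have hθ : HasFDerivAt (fun η => G (h170_s c η)) (G.comp (fderiv ℝ (h170_s c) ξ)) ξ :=
    G.hasFDerivAt.comp ξ hd
  have h1 : HasFDerivAt (fun η => h170_s c' (G (h170_s c η)))
      ((fderiv ℝ (h170_s c') (G (h170_s c ξ))).comp (G.comp (fderiv ℝ (h170_s c) ξ))) ξ :=
    HasFDerivAt.comp (g := h170_s c') (f := fun η => G (h170_s c η)) ξ hd' hθ
  have h2 : HasFDerivAt (fun η => g (h170_s c η)) (g.comp (fderiv ℝ (h170_s c) ξ)) ξ :=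
    g.hasFDerivAt.comp ξ hd
  have h3 : (fun η => h170_s c' (G (h170_s c η))) =ᶠ[𝓝 ξ] fun η => g (h170_s c η) := by
    filter_upwards [(h170_O_open c c' γ).mem_nhds hξ] with η hη
    have := (h170_trans H c c' γ hπ' hη).2.2
    rw [hG, this, hg]
  have h4 := (h1.congr_of_eventuallyEq h3.symm).unique h2
  have h5 := h170_J_comp Dt (h170_s c' (G (h170_s c ξ))) (fderiv ℝ (h170_s c') (G (h170_s c ξ)))
    (G.comp (fderiv ℝ (h170_s c) ξ))
  have h6 := h170_J_rho Dt (H.ρ γ : V m →ₗ[ℝ] V m) (h170_s c ξ) (fderiv ℝ (h170_s c) ξ)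
  have h7 : ∀ v, (fderiv ℝ (h170_s c') (G (h170_s c ξ))) ((G.comp (fderiv ℝ (h170_s c) ξ)) v) =
      H.ρ γ ((fderiv ℝ (h170_s c) ξ) v) := by
    intro v
    have := congrFun (congrArg DFunLike.coe h4) v
    rw [← hg]
    exact this
  have h8 : LinearMap.det (G.comp (fderiv ℝ (h170_s c) ξ) : R m →ₗ[ℝ] R m) * J Dt (h170_s c') (G (h170_s c ξ))
      = LinearMap.det (H.ρ γ : V m →ₗ[ℝ] V m) * J Dt (h170_s c) ξ := by
    unfold J
    rw [← h5, ← h6]
    congr 1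
    funext i
    refine Fin.cases ?_ (fun k => ?_) i
    · simp only [Fin.cons_zero]
      exact t3
    · simp only [Fin.cons_succ]
      exact h7 _
  have h9 := congrArg abs h8
  rw [abs_mul, abs_mul, h170_abs_det hκ H γ, one_mul] at h9
  exact h9.symm

theorem h170_cov (hκ : κ = -1 ∨ κ = 0 ∨ κ = 1) [ContinuousConstSMul Γ Y] (H : Hol P Γ)
    (Dt : (V m) [⋀^Fin (m + 2)]→ₗ[ℝ] ℝ) (c c' : P.Ch) (γ : Γ) (F : Y → ℝ) :
    ∫ ξ in h170_O c c' γ, F (c.e ξ) * |J Dt (h170_s c) ξ| =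
      ∫ ξ in h170_O c' c γ⁻¹, F (γ⁻¹ • c'.e ξ) * |J Dt (h170_s c') ξ| := by
  obtain ⟨π', hπ'⟩ := h170_left c'
  obtain ⟨G, hG⟩ : ∃ G : V m →L[ℝ] R m, ∀ v, G v = π' (H.ρ γ v) :=
    ⟨LinearMap.toContinuousLinearMap (π' ∘ₗ (H.ρ γ : V m →ₗ[ℝ] V m)), fun v => rfl⟩
  have himg : h170_O c' c γ⁻¹ = (fun η => G (h170_s c η)) '' h170_O c c' γ := by
    ext ξ'
    constructor
    · rintro ⟨h1, ξ, h2, h3⟩
      have h4 : γ • c.e ξ = c'.e ξ' := by rw [h3, smul_inv_smul]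
      have h5 : ξ ∈ h170_O c c' γ := ⟨h2, ξ', h1, h4.symm⟩
      refine ⟨ξ, h5, ?_⟩
      obtain ⟨t1, t2, t3⟩ := h170_trans H c c' γ hπ' h5
      show G (h170_s c ξ) = ξ'
      rw [hG]
      exact h170_einj c' t1 h1 (t2.trans h4)
    · rintro ⟨ξ, h5, rfl⟩
      obtain ⟨t1, t2, t3⟩ := h170_trans H c c' γ hπ' h5
      rw [← hG] at t1 t2
      refine ⟨t1, ξ, h5.1, ?_⟩
      show c.e ξ = γ⁻¹ • c'.e (G (h170_s c ξ))
      rw [t2, inv_smul_smul]
  have hinj : InjOn (fun η => G (h170_s c η)) (h170_O c c' γ) := by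
    intro ξ h1 η h2 h
    obtain ⟨t1, t2, t3⟩ := h170_trans H c c' γ hπ' h1
    obtain ⟨u1, u2, u3⟩ := h170_trans H c c' γ hπ' h2
    rw [← hG] at t3 u3
    have h' : G (h170_s c ξ) = G (h170_s c η) := h
    rw [h', u3] at t3
    exact h170_sinj c ((H.ρ γ).injective t3.symm)
  have hder : ∀ ξ ∈ h170_O c c' γ, HasFDerivWithinAt (fun η => G (h170_s c η))
      (G.comp (fderiv ℝ (h170_s c) ξ)) (h170_O c c' γ) ξ := by
    intro ξ hξ
    exact (G.hasFDerivAt.comp ξ (h170_s_diff c hξ.1).hasFDerivAt).hasFDerivWithinAt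
  rw [himg, integral_image_eq_integral_abs_det_fderiv_smul volume (h170_O_open c c' γ).measurableSet hder hinj]
  refine setIntegral_congr_fun (h170_O_open c c' γ).measurableSet fun ξ hξ => ?_
  obtain ⟨t1, t2, t3⟩ := h170_trans H c c' γ hπ' hξ
  rw [← hG] at t2
  show F (c.e ξ) * |J Dt (h170_s c) ξ| = |(G.comp (fderiv ℝ (h170_s c) ξ)).det| •
    (F (γ⁻¹ • c'.e (G (h170_s c ξ))) * |J Dt (h170_s c') (G (h170_s c ξ))|)
  rw [t2, inv_smul_smul, h170_jac hκ H Dt c c' γ hπ' G hG hξ, smul_eq_mul]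
  ring

end h170d

section h170e
open MeasureTheory
variable {κ : ℝ} {m : ℕ} {Y : Type*} [TopologicalSpace Y] {P : Dev κ m Y} {Γ : Type*} [Group Γ] [MulAction Γ Y]

theorem h170_int (r : ℝ) (K : Set (R m)) (hK : IsCompact K) (hKs : K ⊆ Metric.ball (0 : R m) r) (f : R m → ℝ)
    (hf : ContinuousOn f (Metric.ball (0 : R m) r))
    (h0 : ∀ ξ ∈ Metric.ball (0 : R m) r, ξ ∉ K → f ξ = 0) :
    IntegrableOn f (Metric.ball (0 : R m) r) := by
  have h1 : IntegrableOn f K := (hf.mono hKs).integrableOn_compact hK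
  exact h1.of_forall_sdiff_eq_zero Metric.isOpen_ball.measurableSet fun ξ hξ => h0 ξ hξ.1 hξ.2

theorem h170_O_disj (F : ChFam P Γ) (c : P.Ch) (i : Fin F.N) {γ γ' : Γ} (hne : γ ≠ γ') :
    Disjoint (h170_O c (F.c i) γ) (h170_O c (F.c i) γ') := by
  rw [Set.disjoint_left]
  rintro ξ ⟨h1, h2⟩ ⟨h3, h4⟩
  refine F.disj i (γ' * γ⁻¹) ?_ (γ • c.e ξ) h2 ?_
  · intro h
    exact hne (mul_inv_eq_one.mp h).symm
  · rw [mul_smul, inv_smul_smul]
    exact h4

/-- off `K i` the function `ψ` vanishes -/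
theorem h170_psi_zero (F : ChFam P Γ) (ψ : Y → ℝ) (i : Fin F.N)
    (hsupp : ∀ y, (∀ γ : Γ, γ • y ∉ (F.c i).e '' F.K i) → ψ y = 0) {ξ : R m}
    (hξ : ξ ∈ Metric.ball (0 : R m) (F.c i).r) (hK : ξ ∉ F.K i) : ψ ((F.c i).e ξ) = 0 := by
  refine hsupp _ fun γ hγ => ?_
  by_cases h1 : γ = 1
  · rw [h1, one_smul] at hγ
    obtain ⟨η, hη, h2⟩ := hγ
    have := h170_einj (F.c i) (F.Ksub i hη) hξ h2
    rw [this] at hη
    exact hK hη
  · exact F.disj i γ h1 _ ⟨ξ, hξ, rfl⟩ (Set.image_mono (F.Ksub i) hγ)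

theorem h170_chi_zero (F : ChFam P Γ) (j : Fin F.N) {ξ : R m}
    (hξ : ξ ∈ Metric.ball (0 : R m) (F.c j).r) (hK : ξ ∉ F.K j) : F.χ j ((F.c j).e ξ) = 0 := by
  refine F.supp j _ fun h => ?_
  obtain ⟨η, hη, h2⟩ := h
  have := h170_einj (F.c j) (F.Ksub j hη) hξ h2
  rw [this] at hη
  exact hK hη

/-- unfolding: integration over the quotient computed in one chart -/
theorem unfold_integral {κ : ℝ} {m : ℕ} (hκ : κ = -1 ∨ κ = 0 ∨ κ = 1) {Y : Type*}
    [TopologicalSpace Y] [T2Space Y] (P : Dev κ m Y) {Γ : Type*} [Group Γ] [MulAction Γ Y]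
    [ContinuousConstSMul Γ Y] [ProperlyDiscontinuousSMul Γ Y] (H : Hol P Γ)
    (F : ChFam P Γ) (Dt : (V m) [⋀^Fin (m + 2)]→ₗ[ℝ] ℝ) (hDt : Dt ≠ 0)
    (ψ : Y → ℝ) (hψ : Continuous ψ) (hinv : ∀ (γ : Γ) y, ψ (γ • y) = ψ y) (i : Fin F.N)
    (hsupp : ∀ y, (∀ γ : Γ, γ • y ∉ (F.c i).e '' F.K i) → ψ y = 0) :
    ∑ j, ∫ ξ in Metric.ball (0 : R m) (F.c j).r,
        F.χ j ((F.c j).e ξ) * ψ ((F.c j).e ξ) * |J Dt (fun η => og κ (F.c j).x0 ((F.c j).L η)) ξ|
      = ∫ ξ in Metric.ball (0 : R m) (F.c i).r,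
        ψ ((F.c i).e ξ) * |J Dt (fun η => og κ (F.c i).x0 ((F.c i).L η)) ξ| := by
  classical
  have hfin : ∀ j, ∃ A : Finset Γ, ∀ γ : Γ, γ ∉ A →
      ∀ y, y ∈ (F.c j).e '' F.K j → γ • y ∉ (F.c i).e '' F.K i := by
    intro j
    have hK1 : IsCompact ((F.c j).e '' F.K j) := (F.Kc j).image_of_continuousOn ((F.c j).cont.mono (F.Ksub j))
    have hK2 : IsCompact ((F.c i).e '' F.K i) := (F.Kc i).image_of_continuousOn ((F.c i).cont.mono (F.Ksub i))
    have h1 := finite_disjoint_inter_image (Γ := Γ) hK1 hK2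
    refine ⟨h1.toFinset, fun γ hγ y hy h2 => hγ ?_⟩
    rw [Set.Finite.mem_toFinset]
    exact ⟨γ • y, ⟨y, hy, rfl⟩, h2⟩
  choose A hA using hfin
  have hχc : ∀ j, Continuous (F.χ j) := fun j => (F.sm j).continuous
  have hwc : ∀ j, ContinuousOn (fun ξ => |J Dt (h170_s (F.c j)) ξ|) (Metric.ball (0 : R m) (F.c j).r) :=
    fun j => (h170_J_cont Dt (F.c j)).abs
  -- the new integrands
  have hh_cont : ∀ (j : Fin F.N) (γ : Γ), ContinuousOn (fun ξ => F.χ j (γ⁻¹ • (F.c i).e ξ) * ψ ((F.c i).e ξ) *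
      |J Dt (h170_s (F.c i)) ξ|) (Metric.ball (0 : R m) (F.c i).r) := by
    intro j γ
    exact (((hχc j).comp_continuousOn ((F.c i).cont.const_smul γ⁻¹)).mul
      (hψ.comp_continuousOn (F.c i).cont)).mul (hwc i)
  have hh_int : ∀ (j : Fin F.N) (γ : Γ), IntegrableOn (fun ξ => F.χ j (γ⁻¹ • (F.c i).e ξ) * ψ ((F.c i).e ξ) *
      |J Dt (h170_s (F.c i)) ξ|) (Metric.ball (0 : R m) (F.c i).r) := by
    intro j γ
    refine h170_int _ (F.K i) (F.Kc i) (F.Ksub i) _ (hh_cont j γ) fun ξ hξ hK => ?_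
    rw [h170_psi_zero F ψ i hsupp hξ hK, mul_zero, zero_mul]
  have hLHS : ∀ j, ∫ ξ in Metric.ball (0 : R m) (F.c j).r,
        F.χ j ((F.c j).e ξ) * ψ ((F.c j).e ξ) * |J Dt (h170_s (F.c j)) ξ|
      = ∑ γ ∈ A j, ∫ ξ in Metric.ball (0 : R m) (F.c i).r,
        F.χ j (γ⁻¹ • (F.c i).e ξ) * ψ ((F.c i).e ξ) * |J Dt (h170_s (F.c i)) ξ| := by
    intro j
    have hfint : IntegrableOn (fun ξ => F.χ j ((F.c j).e ξ) * ψ ((F.c j).e ξ) * |J Dt (h170_s (F.c j)) ξ|)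
        (Metric.ball (0 : R m) (F.c j).r) := by
      refine h170_int _ (F.K j) (F.Kc j) (F.Ksub j) _ ?_ fun ξ hξ hK => ?_
      · exact (((hχc j).comp_continuousOn (F.c j).cont).mul (hψ.comp_continuousOn (F.c j).cont)).mul (hwc j)
      · rw [h170_chi_zero F j hξ hK, zero_mul, zero_mul]
    have hsub : (⋃ γ ∈ A j, h170_O (F.c j) (F.c i) γ) ⊆ Metric.ball (0 : R m) (F.c j).r := by
      intro ξ hξ
      obtain ⟨γ, hγ⟩ := mem_iUnion.mp hξ
      obtain ⟨_, h2⟩ := mem_iUnion.mp hγ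
      exact h2.1
    have h1 : ∫ ξ in Metric.ball (0 : R m) (F.c j).r,
          F.χ j ((F.c j).e ξ) * ψ ((F.c j).e ξ) * |J Dt (h170_s (F.c j)) ξ|
        = ∫ ξ in ⋃ γ ∈ A j, h170_O (F.c j) (F.c i) γ,
          F.χ j ((F.c j).e ξ) * ψ ((F.c j).e ξ) * |J Dt (h170_s (F.c j)) ξ| := by
      refine setIntegral_eq_of_subset_of_forall_sdiff_eq_zero Metric.isOpen_ball.measurableSet hsub ?_
      rintro ξ ⟨hξ, hξ2⟩
      by_contra hne
      have hχ0 : F.χ j ((F.c j).e ξ) ≠ 0 := fun h => hne (by rw [h, zero_mul, zero_mul])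
      have hψ0 : ψ ((F.c j).e ξ) ≠ 0 := fun h => hne (by rw [h, mul_zero, zero_mul])
      have h2 : (F.c j).e ξ ∈ (F.c j).e '' F.K j := by
        by_contra h3
        exact hχ0 (F.supp j _ h3)
      have h3 : ∃ γ : Γ, γ • (F.c j).e ξ ∈ (F.c i).e '' F.K i := by
        by_contra h4
        push Not at h4
        exact hψ0 (hsupp _ h4)
      obtain ⟨γ, hγ⟩ := h3
      apply hξ2
      refine mem_iUnion.mpr ⟨γ, mem_iUnion.mpr ⟨?_, hξ, Set.image_mono (F.Ksub i) hγ⟩⟩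
      by_contra h4
      exact hA j γ h4 _ h2 hγ
    rw [h1, integral_biUnion_finset (A j) (fun γ _ => (h170_O_open (F.c j) (F.c i) γ).measurableSet)
      (fun γ _ γ' _ hne => h170_O_disj F (F.c j) i hne)
      (fun γ hγ => hfint.mono_set fun ξ hξ => hξ.1)]
    refine Finset.sum_congr rfl fun γ _ => ?_
    rw [h170_cov hκ H Dt (F.c j) (F.c i) γ (fun y => F.χ j y * ψ y)]
    have h2 : ∫ ξ in Metric.ball (0 : R m) (F.c i).r,
        F.χ j (γ⁻¹ • (F.c i).e ξ) * ψ ((F.c i).e ξ) * |J Dt (h170_s (F.c i)) ξ|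
        = ∫ ξ in h170_O (F.c i) (F.c j) γ⁻¹,
        F.χ j (γ⁻¹ • (F.c i).e ξ) * ψ ((F.c i).e ξ) * |J Dt (h170_s (F.c i)) ξ| := by
      refine setIntegral_eq_of_subset_of_forall_sdiff_eq_zero Metric.isOpen_ball.measurableSet
        (fun ξ hξ => hξ.1) ?_
      rintro ξ ⟨hξ, hξ2⟩
      have h3 : F.χ j (γ⁻¹ • (F.c i).e ξ) = 0 := by
        refine F.supp j _ fun h4 => hξ2 ⟨hξ, Set.image_mono (F.Ksub j) h4⟩
      rw [h3, zero_mul, zero_mul]
    rw [h2]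
    refine setIntegral_congr_fun (h170_O_open (F.c i) (F.c j) γ⁻¹).measurableSet fun ξ _ => ?_
    show F.χ j (γ⁻¹ • (F.c i).e ξ) * ψ (γ⁻¹ • (F.c i).e ξ) * |J Dt (h170_s (F.c i)) ξ| = _
    rw [hinv]
  show ∑ j, ∫ ξ in Metric.ball (0 : R m) (F.c j).r,
        F.χ j ((F.c j).e ξ) * ψ ((F.c j).e ξ) * |J Dt (h170_s (F.c j)) ξ|
      = ∫ ξ in Metric.ball (0 : R m) (F.c i).r, ψ ((F.c i).e ξ) * |J Dt (h170_s (F.c i)) ξ|
  rw [Finset.sum_congr rfl fun j _ => hLHS j]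
  have h3 : ∀ j, ∑ γ ∈ A j, ∫ ξ in Metric.ball (0 : R m) (F.c i).r,
        F.χ j (γ⁻¹ • (F.c i).e ξ) * ψ ((F.c i).e ξ) * |J Dt (h170_s (F.c i)) ξ|
      = ∫ ξ in Metric.ball (0 : R m) (F.c i).r, ∑ γ ∈ A j,
        F.χ j (γ⁻¹ • (F.c i).e ξ) * ψ ((F.c i).e ξ) * |J Dt (h170_s (F.c i)) ξ| := by
    intro j
    exact (integral_finsetSum (A j) fun γ _ => hh_int j γ).symm
  rw [Finset.sum_congr rfl fun j _ => h3 j]
  rw [← integral_finsetSum Finset.univ fun j _ => integrable_finsetSum (A j) fun γ _ => hh_int j γ]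
  refine setIntegral_congr_fun Metric.isOpen_ball.measurableSet fun ξ hξ => ?_
  show ∑ j, ∑ γ ∈ A j, F.χ j (γ⁻¹ • (F.c i).e ξ) * ψ ((F.c i).e ξ) * |J Dt (h170_s (F.c i)) ξ|
    = ψ ((F.c i).e ξ) * |J Dt (h170_s (F.c i)) ξ|
  by_cases hψ0 : ψ ((F.c i).e ξ) = 0
  · rw [hψ0, zero_mul]
    refine Finset.sum_eq_zero fun j _ => Finset.sum_eq_zero fun γ _ => ?_
    rw [mul_zero, zero_mul]
  have hKi : ξ ∈ F.K i := by
    by_contra h4
    exact hψ0 (h170_psi_zero F ψ i hsupp hξ h4)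
  have h5 : ∀ j, ∑ γ ∈ A j, F.χ j (γ⁻¹ • (F.c i).e ξ) = ∑ᶠ γ : Γ, F.χ j (γ • (F.c i).e ξ) := by
    intro j
    have h6 : ∑ᶠ γ : Γ, F.χ j (γ • (F.c i).e ξ) = ∑ᶠ γ : Γ, F.χ j (γ⁻¹ • (F.c i).e ξ) :=
      (finsum_comp_equiv (Equiv.inv Γ) (f := fun γ : Γ => F.χ j (γ • (F.c i).e ξ))).symm
    rw [h6]
    symm
    refine finsum_eq_sum_of_support_subset _ ?_
    intro γ hγ
    by_contra h7
    have h8 : F.χ j (γ⁻¹ • (F.c i).e ξ) ≠ 0 := hγ
    have h9 : γ⁻¹ • (F.c i).e ξ ∈ (F.c j).e '' F.K j := by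
      by_contra h10
      exact h8 (F.supp j _ h10)
    refine hA j γ (fun h => h7 h) _ h9 ?_
    rw [smul_inv_smul]
    exact ⟨ξ, hKi, rfl⟩
  have h6 : ∑ j, ∑ γ ∈ A j, F.χ j (γ⁻¹ • (F.c i).e ξ) * ψ ((F.c i).e ξ) * |J Dt (h170_s (F.c i)) ξ|
      = (∑ j, ∑ γ ∈ A j, F.χ j (γ⁻¹ • (F.c i).e ξ)) * (ψ ((F.c i).e ξ) * |J Dt (h170_s (F.c i)) ξ|) := by
    rw [Finset.sum_mul]
    refine Finset.sum_congr rfl fun j _ => ?_
    rw [Finset.sum_mul]
    exact Finset.sum_congr rfl fun γ _ => by ring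
  rw [h6, Finset.sum_congr rfl fun j _ => h5 j, F.sum, one_mul]

end h170e

end Pool.Agent.Helper107.LC
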