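import Mathlib
import Pool.Agent.Helper107.LC.NLX
import Pool.Agent.Helper107.LC.ChFam
import Pool.Agent.Helper107.LC.Unfold
set_option autoImplicit false
open Set Filter Topology
open scoped ContDiff

namespace Pool.Agent.Helper107.LC

section vc
variable {κ : ℝ} {m : ℕ}

theorem vc_finrank_V : Module.finrank ℝ (V m) = m + 2 := by
  show Module.finrank ℝ (ℝ × EuclideanSpace ℝ (Fin m) × ℝ) = m + 2
  rw [Module.finrank_prod, Module.finrank_prod, finrank_euclideanSpace_fin, Module.finrank_self]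
  ring

/-- `Q κ x` as a linear functional -/
noncomputable def vcQ (κ : ℝ) {m : ℕ} (x : V m) : V m →ₗ[ℝ] ℝ where
  toFun w := Q κ x w
  map_add' := Q_add_right x
  map_smul' a w := Q_smul_right a x w

/-- tangent space -/
noncomputable def vcT (κ : ℝ) {m : ℕ} (x : V m) : Submodule ℝ (V m) := LinearMap.ker (vcQ κ x)

theorem vc_mem {x v : V m} : v ∈ vcT κ x ↔ Q κ x v = 0 := LinearMap.mem_ker

theorem vc_finrank_T {x : V m} (hx : x ∈ X κ m) : Module.finrank ℝ (vcT κ x) = m + 1 := by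
  have h1 := LinearMap.finrank_range_add_finrank_ker (vcQ κ x)
  have h2 : LinearMap.range (vcQ κ x) = ⊤ := by
    rw [LinearMap.range_eq_top]
    intro a
    refine ⟨a • x, ?_⟩
    show Q κ x (a • x) = a
    rw [Q_smul_right, show Q κ x x = 1 from hx, mul_one]
  rw [h2, finrank_top, Module.finrank_self, vc_finrank_V] at h1
  show Module.finrank ℝ (LinearMap.ker (vcQ κ x)) = m + 1
  omega

theorem vc_ne {Dt : (V m) [⋀^Fin (m + 2)]→ₗ[ℝ] ℝ} (hDt : Dt ≠ 0) {x : V m} (hx : x ∈ X κ m)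
    (v : Fin (m + 1) → V m) (hv : ∀ i, Q κ x (v i) = 0) (hli : LinearIndependent ℝ v) :
    Dt (Fin.cons x v) ≠ 0 := by
  have h1 : LinearIndependent ℝ (Fin.cons x v : Fin (m + 2) → V m) := by
    rw [linearIndependent_finCons]
    refine ⟨hli, fun hmem => ?_⟩
    have h2 : Submodule.span ℝ (Set.range v) ≤ vcT κ x := by
      rw [Submodule.span_le]
      rintro _ ⟨i, rfl⟩
      exact vc_mem.mpr (hv i)
    have h4 : Q κ x x = 0 := vc_mem.mp (h2 hmem)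
    have h5 : Q κ x x = 1 := hx
    rw [h5] at h4
    exact one_ne_zero h4
  let b := basisOfLinearIndependentOfCardEqFinrank h1 (by rw [Fintype.card_fin, vc_finrank_V])
  have hb : (b : Fin (m + 2) → V m) = Fin.cons x v := coe_basisOfLinearIndependentOfCardEqFinrank _ _
  rw [← hb]
  exact (Dt.map_basis_ne_zero_iff b).mpr hDt

/-- tangent frames exist -/
theorem vc_frame (κ : ℝ) {x : V m} (hx : x ∈ X κ m) :
    ∃ v : Fin (m + 1) → V m, (∀ i, Q κ x (v i) = 0) ∧ LinearIndependent ℝ v := by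
  let b := Module.finBasisOfFinrankEq ℝ (vcT κ x) (vc_finrank_T hx)
  refine ⟨fun i => (b i : V m), fun i => vc_mem.mp (b i).2, ?_⟩
  exact b.linearIndependent.map' (vcT κ x).subtype (Submodule.ker_subtype _)

/-- two alternating forms on the tangent space are proportional -/
theorem vc_prop {x : V m} (hx : x ∈ X κ m) (f g : (vcT κ x) [⋀^Fin (m + 1)]→ₗ[ℝ] ℝ)
    (v w : Fin (m + 1) → vcT κ x) : f v * g w = f w * g v := by
  let b := Module.finBasisOfFinrankEq ℝ (vcT κ x) (vc_finrank_T hx)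
  have h1 := f.eq_smul_basis_det b
  have h2 := g.eq_smul_basis_det b
  have e1 : ∀ u, f u = f b * b.det u := by
    intro u
    conv_lhs => rw [h1]
    rfl
  have e2 : ∀ u, g u = g b * b.det u := by
    intro u
    conv_lhs => rw [h2]
    rfl
  rw [e1 v, e1 w, e2 v, e2 w]
  ring

/-- pointwise ratio -/
theorem vc_ratio {Dt : (V m) [⋀^Fin (m + 2)]→ₗ[ℝ] ℝ} (hDt : Dt ≠ 0) {x : V m} (hx : x ∈ X κ m)
    (z : V m) (D : V m →ₗ[ℝ] V m) :
    ∃! c : ℝ, ∀ v : Fin (m + 1) → V m, (∀ i, Q κ x (v i) = 0) →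
      Dt (Fin.cons z (fun i => D (v i))) = c * Dt (Fin.cons x v) := by
  obtain ⟨w, hw, hwl⟩ := vc_frame κ hx
  have hw0 := vc_ne hDt hx w hw hwl
  let f : (vcT κ x) [⋀^Fin (m + 1)]→ₗ[ℝ] ℝ := (Dt.curryLeft z).compLinearMap (D.comp (vcT κ x).subtype)
  let g : (vcT κ x) [⋀^Fin (m + 1)]→ₗ[ℝ] ℝ := (Dt.curryLeft x).compLinearMap ((vcT κ x).subtype)
  have hf : ∀ v : Fin (m + 1) → vcT κ x, f v = Dt (Fin.cons z (fun i => D (v i))) := fun v => rfl
  have hg : ∀ v : Fin (m + 1) → vcT κ x, g v = Dt (Fin.cons x (fun i => (v i : V m))) := fun v => rfl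
  let w' : Fin (m + 1) → vcT κ x := fun i => ⟨w i, vc_mem.mpr (hw i)⟩
  refine ⟨Dt (Fin.cons z (fun i => D (w i))) / Dt (Fin.cons x w), ?_, ?_⟩
  · intro v hv
    let v' : Fin (m + 1) → vcT κ x := fun i => ⟨v i, vc_mem.mpr (hv i)⟩
    have h := vc_prop hx f g v' w'
    have a1 : f v' = Dt (Fin.cons z (fun i => D (v i))) := rfl
    have a2 : f w' = Dt (Fin.cons z (fun i => D (w i))) := rfl
    have a3 : g v' = Dt (Fin.cons x v) := rfl
    have a4 : g w' = Dt (Fin.cons x w) := rfl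
    rw [a1, a2, a3, a4] at h
    field_simp
    exact h
  · intro c hc
    have h := hc w hw
    rw [h]
    field_simp

theorem vc_cont (Dt : (V m) [⋀^Fin (m + 2)]→ₗ[ℝ] ℝ) : Continuous fun v : Fin (m + 2) → V m => Dt v := by
  let b := Module.finBasisOfFinrankEq ℝ (V m) (vc_finrank_V (m := m))
  have h1 : (fun v : Fin (m + 2) → V m => Dt v) = fun v => Dt b * b.det v := by
    funext v
    conv_lhs => rw [Dt.eq_smul_basis_det b]
    rfl
  rw [h1]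
  apply Continuous.mul continuous_const
  show Continuous fun v : Fin (m + 2) → V m => (b.toMatrix v).det
  apply Continuous.matrix_det
  refine continuous_matrix fun i j => ?_
  show Continuous fun v : Fin (m + 2) → V m => b.coord i (v j)
  exact (LinearMap.continuous_of_finiteDimensional (b.coord i)).comp (continuous_apply j)

theorem vc_det (Dt : (V m) [⋀^Fin (m + 2)]→ₗ[ℝ] ℝ) (f : V m →ₗ[ℝ] V m) (v : Fin (m + 2) → V m) :
    Dt (fun i => f (v i)) = LinearMap.det f * Dt v := by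
  let b := Module.finBasisOfFinrankEq ℝ (V m) (vc_finrank_V (m := m))
  have h1 : ∀ u, Dt u = Dt b * b.det u := by
    intro u
    conv_lhs => rw [Dt.eq_smul_basis_det b]
    rfl
  rw [h1 v, h1 (fun i => f (v i))]
  have h2 : b.det (fun i => f (v i)) = LinearMap.det f * b.det v := b.det_comp f v
  rw [h2]
  ring

end vc
section vc2
variable {κ : ℝ} {m : ℕ} {Y : Type*} [TopologicalSpace Y]

theorem vc_eq_of {Dt : (V m) [⋀^Fin (m + 2)]→ₗ[ℝ] ℝ} (hDt : Dt ≠ 0) {x : V m} (hx : x ∈ X κ m)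
    (a b : ℝ) (h : ∀ v : Fin (m + 1) → V m, (∀ i, Q κ x (v i) = 0) →
      a * Dt (Fin.cons x v) = b * Dt (Fin.cons x v)) : a = b := by
  obtain ⟨w, hw, hwl⟩ := vc_frame κ hx
  have hw0 := vc_ne hDt hx w hw hwl
  exact mul_right_cancel₀ hw0 (h w hw)

theorem vc_cont_cons {Z : Type*} [TopologicalSpace Z] (Dt : (V m) [⋀^Fin (m + 2)]→ₗ[ℝ] ℝ)
    {f : Z → V m} {g : Z → Fin (m + 1) → V m} {z : Z} (hf : ContinuousAt f z)
    (hg : ∀ i, ContinuousAt (fun z => g z i) z) :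
    ContinuousAt (fun z => Dt (Fin.cons (f z) (g z))) z := by
  have h1 : ContinuousAt (fun z => (Fin.cons (f z) (g z) : Fin (m + 2) → V m)) z := by
    rw [continuousAt_pi]
    intro i
    refine Fin.cases ?_ ?_ i
    · simpa using hf
    · intro j
      simpa using hg j
  exact ContinuousAt.comp (g := fun v : Fin (m + 2) → V m => Dt v) (vc_cont Dt).continuousAt h1

theorem vc_psi (hκ : κ = -1 ∨ κ = 0 ∨ κ = 1) (P : Dev κ m Y)
    {Dt : (V m) [⋀^Fin (m + 2)]→ₗ[ℝ] ℝ} (hDt : Dt ≠ 0) (s : Y → V m) (hs : P.Sm s) :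
    ∃ ψ : Y → ℝ, Continuous ψ ∧ ∀ y (v : Fin (m + 1) → V m), (∀ i, Q κ (P.p y) (v i) = 0) →
      Dt (Fin.cons (s y) (fun i => P.d s y (v i))) = ψ y * Dt (Fin.cons (P.p y) v) := by
  have h1 : ∀ y, ∃ c : ℝ, ∀ v : Fin (m + 1) → V m, (∀ i, Q κ (P.p y) (v i) = 0) →
      Dt (Fin.cons (s y) (fun i => P.d s y (v i))) = c * Dt (Fin.cons (P.p y) v) := by
    intro y
    obtain ⟨c, hc, -⟩ := vc_ratio hDt (P.mem y) (s y) (P.d s y).toLinearMap
    exact ⟨c, hc⟩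
  choose ψ hψ using h1
  refine ⟨ψ, ?_, hψ⟩
  rw [continuous_iff_continuousAt]
  intro y0
  obtain ⟨G, hG, hev⟩ := hs y0
  obtain ⟨w, hw, hwl⟩ := vc_frame κ (P.mem y0)
  have hw0 := vc_ne hDt (P.mem y0) w hw hwl
  have hpc := P.continuous_p
  have htgc : ∀ i, Continuous fun y' => tg κ (P.p y') (w i) := by
    intro i
    unfold tg Q
    fun_prop
  have hden : ContinuousAt (fun y' => Dt (Fin.cons (P.p y') (fun i => tg κ (P.p y') (w i)))) y0 :=
    vc_cont_cons Dt hpc.continuousAt (fun i => (htgc i).continuousAt)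
  have hfd : Continuous fun x => fderiv ℝ G x := hG.continuous_fderiv (by simp)
  have hnum : ContinuousAt (fun y' => Dt (Fin.cons (s y')
      (fun i => fderiv ℝ G (P.p y') (tg κ (P.p y') (w i))))) y0 := by
    apply vc_cont_cons Dt hs.continuous.continuousAt
    intro i
    exact ((hfd.comp hpc).clm_apply (htgc i)).continuousAt
  have hden0 : Dt (Fin.cons (P.p y0) (fun i => tg κ (P.p y0) (w i))) ≠ 0 := by
    have : (fun i => tg κ (P.p y0) (w i)) = w := by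
      funext i
      exact tg_of_tan (hw i)
    rw [this]
    exact hw0
  have hq := hnum.div hden hden0
  refine hq.congr ?_
  have hev2 := eventually_eventually_nhds.mpr hev
  have hdev := hden.eventually_ne hden0
  filter_upwards [hev2, hdev] with y' h2 h3
  have h4 := hψ y' (fun i => tg κ (P.p y') (w i)) (fun i => Q_tg (P.mem y') (w i))
  have h5 : ∀ i, P.d s y' (tg κ (P.p y') (w i)) = fderiv ℝ G (P.p y') (tg κ (P.p y') (w i)) :=
    fun i => Dev.d_eq hκ P s y' G hG h2 _ (Q_tg (P.mem y') (w i))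
  simp only [h5] at h4
  show Dt _ / Dt _ = ψ y'
  rw [div_eq_iff h3]
  exact h4

theorem vc_inv (hκ : κ = -1 ∨ κ = 0 ∨ κ = 1) (P : Dev κ m Y) {Γ : Type*} [Group Γ] [MulAction Γ Y]
    [ContinuousConstSMul Γ Y] (H : Hol P Γ)
    {Dt : (V m) [⋀^Fin (m + 2)]→ₗ[ℝ] ℝ} (hDt : Dt ≠ 0) (s : Y → V m) (hs : P.Sm s)
    (heq : ∀ (γ : Γ) y, s (γ • y) = H.ρ γ (s y)) (ψ : Y → ℝ)
    (hψ : ∀ y (v : Fin (m + 1) → V m), (∀ i, Q κ (P.p y) (v i) = 0) →
      Dt (Fin.cons (s y) (fun i => P.d s y (v i))) = ψ y * Dt (Fin.cons (P.p y) v)) (γ : Γ) (y : Y) :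
    ψ (γ • y) = ψ y := by
  apply vc_eq_of hDt (P.mem y)
  intro v hv
  have h1 := hψ y v hv
  have hv' : ∀ i, Q κ (P.p (γ • y)) (H.ρ γ (v i)) = 0 := by
    intro i
    rw [H.eqv, H.Qinv]
    exact hv i
  have h2 := hψ (γ • y) (fun i => H.ρ γ (v i)) hv'
  let L : V m →L[ℝ] V m := LinearMap.toContinuousLinearMap (H.ρ γ : V m →ₗ[ℝ] V m)
  have hL : ∀ y, s (γ • y) = L (s y) := fun y => heq γ y
  have h3 : ∀ i, P.d s (γ • y) (H.ρ γ (v i)) = H.ρ γ (P.d s y (v i)) := by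
    intro i
    exact Dev.d_smul hκ P H hs L γ hL y (v i) (hv i)
  have e1 : (Fin.cons (s (γ • y)) (fun i => P.d s (γ • y) (H.ρ γ (v i))) : Fin (m + 2) → V m)
      = fun j => (H.ρ γ : V m →ₗ[ℝ] V m) ((Fin.cons (s y) (fun i => P.d s y (v i)) : Fin (m + 2) → V m) j) := by
    funext j
    refine Fin.cases ?_ ?_ j
    · simp [heq]
    · intro i
      simp [h3]
  have e2 : (Fin.cons (P.p (γ • y)) (fun i => H.ρ γ (v i)) : Fin (m + 2) → V m)
      = fun j => (H.ρ γ : V m →ₗ[ℝ] V m) ((Fin.cons (P.p y) v : Fin (m + 2) → V m) j) := by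
    funext j
    refine Fin.cases ?_ ?_ j
    · simp [H.eqv]
    · intro i
      simp
  rw [e1, e2, vc_det, vc_det, h1] at h2
  have hd : LinearMap.det (H.ρ γ : V m →ₗ[ℝ] V m) ≠ 0 := (LinearEquiv.isUnit_det' (H.ρ γ)).ne_zero
  apply mul_left_cancel₀ hd
  linear_combination -h2

end vc2
section vc3
variable {κ : ℝ} {m : ℕ} {Y : Type*} [TopologicalSpace Y]

theorem vc_tg_og {x v : V m} (hx : x ∈ X κ m) (hv : Q κ x v = 0) : tg κ x (og κ x v) = v := by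
  have h1 : Q κ x x = 1 := hx
  unfold tg og
  rw [Q_add_right, Q_smul_right, h1, hv]
  simp

/-- chart expression of the developing map -/
noncomputable def vcs {P : Dev κ m Y} (c : P.Ch) (ξ : R m) : V m := og κ c.x0 (c.L ξ)

theorem vc_tg_s {P : Dev κ m Y} (c : P.Ch) (ξ : R m) : tg κ c.x0 (vcs c ξ) = c.L ξ :=
  vc_tg_og c.hx0 (c.tan ξ)

theorem vc_contDiff_B {P : Dev κ m Y} (c : P.Ch) : ContDiff ℝ ∞ fun ξ => B κ (c.L ξ) (c.L ξ) := by
  have hL : ContDiff ℝ ∞ fun ξ => c.L ξ :=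
    (LinearMap.toContinuousLinearMap c.L).contDiff
  unfold B
  have h1 : ContDiff ℝ ∞ fun ξ => (c.L ξ).1 := hL.fst
  have h2 : ContDiff ℝ ∞ fun ξ => (c.L ξ).2.1 := hL.snd.fst
  have h3 : ContDiff ℝ ∞ fun ξ => (c.L ξ).2.2 := hL.snd.snd
  exact ((h1.mul h1).neg.add (h2.inner ℝ h2)).add (contDiff_const.mul (h3.mul h3))

theorem vc_contDiffAt_s {P : Dev κ m Y} (c : P.Ch) {ξ : R m} (hξ : ξ ∈ Metric.ball (0 : R m) c.r) :
    ContDiffAt ℝ ∞ (vcs c) ξ := by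
  have hL : ContDiff ℝ ∞ fun ξ => c.L ξ :=
    (LinearMap.toContinuousLinearMap c.L).contDiff
  have hB := vc_contDiff_B c
  have hpos : 1 - κ * B κ (c.L ξ) (c.L ξ) ≠ 0 := by
    have := c.lt ξ hξ
    linarith
  show ContDiffAt ℝ ∞ (fun ξ => Real.sqrt (1 - κ * B κ (c.L ξ) (c.L ξ)) • c.x0 + c.L ξ) ξ
  have h1 : ContDiffAt ℝ ∞ (fun ξ => 1 - κ * B κ (c.L ξ) (c.L ξ)) ξ :=
    (contDiff_const.sub (contDiff_const.mul hB)).contDiffAt
  exact ((h1.sqrt hpos).smul contDiffAt_const).add hL.contDiffAt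

theorem vc_s_mem {P : Dev κ m Y} (c : P.Ch) {ξ : R m} (hξ : ξ ∈ Metric.ball (0 : R m) c.r) :
    vcs c ξ ∈ X κ m := by
  have h := P.mem (c.e ξ)
  rw [c.pe ξ hξ] at h
  exact h

/-- chart frame -/
noncomputable def vcf {P : Dev κ m Y} (c : P.Ch) (ξ : R m) (i : Fin (m + 1)) : V m :=
  fderiv ℝ (vcs c) ξ (EuclideanSpace.single i 1)

theorem vc_frame_tan {P : Dev κ m Y} (c : P.Ch) {ξ : R m} (hξ : ξ ∈ Metric.ball (0 : R m) c.r)
    (i : Fin (m + 1)) : Q κ (vcs c ξ) (vcf c ξ i) = 0 := by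
  have hd : HasFDerivAt (vcs c) (fderiv ℝ (vcs c) ξ) ξ :=
    ((vc_contDiffAt_s c hξ).differentiableAt (by simp)).hasFDerivAt
  have hl : HasDerivAt (fun t : ℝ => ξ + t • (EuclideanSpace.single i (1 : ℝ) : R m))
      (EuclideanSpace.single i (1 : ℝ)) 0 := by
    have h := ((hasDerivAt_id (0 : ℝ)).smul_const (EuclideanSpace.single i (1 : ℝ) : R m)).const_add ξ
    simpa using h
  have hd' : HasFDerivAt (vcs c) (fderiv ℝ (vcs c) ξ)
      (ξ + (0 : ℝ) • (EuclideanSpace.single i (1 : ℝ) : R m)) := by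
    simpa using hd
  have h2 := hd'.comp_hasDerivAt 0 hl
  have h3 : ∀ᶠ t in 𝓝 (0 : ℝ), vcs c (ξ + t • (EuclideanSpace.single i (1 : ℝ) : R m)) ∈ X κ m := by
    have hc : ContinuousAt (fun t : ℝ => ξ + t • (EuclideanSpace.single i (1 : ℝ) : R m)) 0 :=
      hl.continuousAt
    have h4 : Metric.ball (0 : R m) c.r ∈ 𝓝 (ξ + (0 : ℝ) • (EuclideanSpace.single i (1 : ℝ) : R m)) := by
      apply Metric.isOpen_ball.mem_nhds
      simpa using hξ
    filter_upwards [hc h4] with t ht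
    exact vc_s_mem c ht
  have h5 := tangent_of_hasDerivAt (κ := κ) _ 0 _ h3 h2
  have h6 : vcs c (ξ + (0 : ℝ) • (EuclideanSpace.single i (1 : ℝ) : R m)) = vcs c ξ := by simp
  rw [h6] at h5
  exact h5

/-- the projection along `x0` as a continuous linear map -/
noncomputable def vctg (κ : ℝ) {m : ℕ} (x : V m) : V m →L[ℝ] V m :=
  LinearMap.toContinuousLinearMap (LinearMap.id - (vcQ κ x).smulRight x)

theorem vctg_apply (x w : V m) : vctg κ x w = tg κ x w := rfl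

theorem vc_frame_li {P : Dev κ m Y} (c : P.Ch) {ξ : R m} (hξ : ξ ∈ Metric.ball (0 : R m) c.r) :
    LinearIndependent ℝ (vcf c ξ) := by
  have hd : HasFDerivAt (vcs c) (fderiv ℝ (vcs c) ξ) ξ :=
    ((vc_contDiffAt_s c hξ).differentiableAt (by simp)).hasFDerivAt
  have h1 : HasFDerivAt (fun η => vctg κ c.x0 (vcs c η)) ((vctg κ c.x0).comp (fderiv ℝ (vcs c) ξ)) ξ :=
    (vctg κ c.x0).hasFDerivAt.comp ξ hd
  have h2 : (fun η => vctg κ c.x0 (vcs c η)) = fun η => (LinearMap.toContinuousLinearMap c.L) η := by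
    funext η
    rw [vctg_apply, vc_tg_s]
    rfl
  rw [h2] at h1
  have h3 := h1.unique (LinearMap.toContinuousLinearMap c.L).hasFDerivAt
  have h4 : ∀ i, vctg κ c.x0 (vcf c ξ i) = c.L (EuclideanSpace.single i 1) := by
    intro i
    have := congrArg (fun f => f (EuclideanSpace.single i (1 : ℝ))) h3
    exact this
  apply LinearIndependent.of_comp (vctg κ c.x0 : V m →ₗ[ℝ] V m)
  have h5 : (vctg κ c.x0 : V m →ₗ[ℝ] V m) ∘ vcf c ξ = c.L ∘ (fun i => EuclideanSpace.single i (1 : ℝ)) := by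
    funext i
    exact h4 i
  rw [h5]
  have h6 : LinearIndependent ℝ (fun i : Fin (m + 1) => (EuclideanSpace.single i (1 : ℝ) : R m)) := by
    have := (EuclideanSpace.basisFun (Fin (m + 1)) ℝ).toBasis.linearIndependent
    have e : ((EuclideanSpace.basisFun (Fin (m + 1)) ℝ).toBasis : Fin (m + 1) → R m)
        = fun i => EuclideanSpace.single i (1 : ℝ) := by
      funext i
      simp
    rw [e] at this
    exact this
  exact h6.map' c.L (LinearMap.ker_eq_bot.mpr c.inj)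

theorem vc_J_eq {P : Dev κ m Y} (c : P.Ch) (Dt : (V m) [⋀^Fin (m + 2)]→ₗ[ℝ] ℝ) (ξ : R m) :
    J Dt (fun η => og κ c.x0 (c.L η)) ξ = Dt (Fin.cons (vcs c ξ) (vcf c ξ)) := rfl

theorem vc_J_ne {P : Dev κ m Y} (c : P.Ch) {Dt : (V m) [⋀^Fin (m + 2)]→ₗ[ℝ] ℝ} (hDt : Dt ≠ 0)
    {ξ : R m} (hξ : ξ ∈ Metric.ball (0 : R m) c.r) :
    J Dt (fun η => og κ c.x0 (c.L η)) ξ ≠ 0 := by
  rw [vc_J_eq]
  exact vc_ne hDt (vc_s_mem c hξ) _ (vc_frame_tan c hξ) (vc_frame_li c hξ)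

theorem vc_J_cont {P : Dev κ m Y} (c : P.Ch) (Dt : (V m) [⋀^Fin (m + 2)]→ₗ[ℝ] ℝ) :
    ContinuousOn (fun ξ => J Dt (fun η => og κ c.x0 (c.L η)) ξ) (Metric.ball (0 : R m) c.r) := by
  intro ξ hξ
  apply ContinuousAt.continuousWithinAt
  have hs := vc_contDiffAt_s c hξ
  show ContinuousAt (fun ξ => Dt (Fin.cons (vcs c ξ) (vcf c ξ))) ξ
  apply vc_cont_cons Dt hs.continuousAt
  intro i
  have h1 : ContinuousAt (fun η => fderiv ℝ (vcs c) η) ξ :=
    (hs.fderiv_right (m := 0) (by simp)).continuousAt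
  exact h1.clm_apply continuousAt_const

theorem vc_J_sign {P : Dev κ m Y} (c : P.Ch) {Dt : (V m) [⋀^Fin (m + 2)]→ₗ[ℝ] ℝ} (hDt : Dt ≠ 0) :
    ∃ σ : ℝ, ∀ ξ ∈ Metric.ball (0 : R m) c.r,
      |J Dt (fun η => og κ c.x0 (c.L η)) ξ| = σ * J Dt (fun η => og κ c.x0 (c.L η)) ξ := by
  by_cases h : ∀ ξ ∈ Metric.ball (0 : R m) c.r, 0 < J Dt (fun η => og κ c.x0 (c.L η)) ξ
  · refine ⟨1, fun ξ hξ => ?_⟩
    rw [abs_of_pos (h ξ hξ), one_mul]
  · push Not at h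
    obtain ⟨ξ0, hξ0, h0⟩ := h
    have hneg : ∀ ξ ∈ Metric.ball (0 : R m) c.r, J Dt (fun η => og κ c.x0 (c.L η)) ξ < 0 := by
      intro ξ hξ
      by_contra hc
      push Not at hc
      have hpc : IsPreconnected (Metric.ball (0 : R m) c.r) := (convex_ball 0 c.r).isPreconnected
      have h1 := hpc.intermediate_value hξ0 hξ (vc_J_cont c Dt)
      obtain ⟨η, hη, h2⟩ := h1 ⟨h0, hc⟩
      exact vc_J_ne c hDt hη h2
    refine ⟨-1, fun ξ hξ => ?_⟩
    rw [abs_of_neg (hneg ξ hξ)]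
    ring

theorem vc_J_comp (hκ : κ = -1 ∨ κ = 0 ∨ κ = 1) {P : Dev κ m Y} (c : P.Ch)
    (Dt : (V m) [⋀^Fin (m + 2)]→ₗ[ℝ] ℝ) (s : Y → V m) (hs : P.Sm s) (ψ : Y → ℝ)
    (hψ : ∀ y (v : Fin (m + 1) → V m), (∀ i, Q κ (P.p y) (v i) = 0) →
      Dt (Fin.cons (s y) (fun i => P.d s y (v i))) = ψ y * Dt (Fin.cons (P.p y) v))
    {ξ : R m} (hξ : ξ ∈ Metric.ball (0 : R m) c.r) :
    J Dt (fun η => s (c.e η)) ξ = ψ (c.e ξ) * J Dt (fun η => og κ c.x0 (c.L η)) ξ := by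
  obtain ⟨G, hG, hev⟩ := hs (c.e ξ)
  have hb : Metric.ball (0 : R m) c.r ∈ 𝓝 ξ := Metric.isOpen_ball.mem_nhds hξ
  have hec : ContinuousAt c.e ξ := c.cont.continuousAt hb
  have h1 : (fun η => s (c.e η)) =ᶠ[𝓝 ξ] fun η => G (vcs c η) := by
    filter_upwards [hec.eventually hev, hb] with η h2 h3
    rw [h2, c.pe η h3]
    rfl
  have hpe : P.p (c.e ξ) = vcs c ξ := c.pe ξ hξ
  have hd : HasFDerivAt (vcs c) (fderiv ℝ (vcs c) ξ) ξ :=
    ((vc_contDiffAt_s c hξ).differentiableAt (by simp)).hasFDerivAt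
  have hGd : HasFDerivAt G (fderiv ℝ G (vcs c ξ)) (vcs c ξ) :=
    (hG.differentiable (by simp) _).hasFDerivAt
  have h2 : fderiv ℝ (fun η => s (c.e η)) ξ = (fderiv ℝ G (vcs c ξ)).comp (fderiv ℝ (vcs c) ξ) := by
    rw [h1.fderiv_eq]
    exact (hGd.comp ξ hd).fderiv
  have h3 : ∀ i, P.d s (c.e ξ) (vcf c ξ i) = fderiv ℝ (fun η => s (c.e η)) ξ (EuclideanSpace.single i 1) := by
    intro i
    rw [Dev.d_eq hκ P s (c.e ξ) G hG hev _ (by rw [hpe]; exact vc_frame_tan c hξ i), h2, hpe]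
    rfl
  have h4 := hψ (c.e ξ) (vcf c ξ) (fun i => by rw [hpe]; exact vc_frame_tan c hξ i)
  simp only [h3] at h4
  rw [hpe] at h4
  exact h4

end vc3
section vc4
variable {κ : ℝ} {m : ℕ} {Y : Type*} [TopologicalSpace Y]

/-- continuous left inverse of the chart -/
theorem vc_linv {P : Dev κ m Y} (c : P.Ch) :
    ∃ q : Y → R m, Continuous q ∧ ∀ ξ ∈ Metric.ball (0 : R m) c.r, q (c.e ξ) = ξ := by
  obtain ⟨Li, hLi⟩ := c.L.exists_leftInverse_of_injective (LinearMap.ker_eq_bot.mpr c.inj)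
  refine ⟨fun y => Li (vctg κ c.x0 (P.p y)), ?_, ?_⟩
  · exact (LinearMap.continuous_of_finiteDimensional Li).comp
      ((vctg κ c.x0).continuous.comp P.continuous_p)
  · intro ξ hξ
    have h1 : vctg κ c.x0 (P.p (c.e ξ)) = c.L ξ := by
      rw [c.pe ξ hξ]
      exact vc_tg_s c ξ
    show Li (vctg κ c.x0 (P.p (c.e ξ))) = ξ
    rw [h1]
    exact congrArg (fun f => f ξ) hLi

theorem vc_inj {P : Dev κ m Y} (c : P.Ch) {ξ η : R m} (hξ : ξ ∈ Metric.ball (0 : R m) c.r)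
    (hη : η ∈ Metric.ball (0 : R m) c.r) (h : c.e ξ = c.e η) : ξ = η := by
  obtain ⟨q, -, hq⟩ := vc_linv c
  rw [← hq ξ hξ, ← hq η hη, h]

theorem vc_nhd {P : Dev κ m Y} (c : P.Ch) {ξ : R m} (hξ : ξ ∈ Metric.ball (0 : R m) c.r) :
    ∃ C : Set Y, IsCompact C ∧ C ∈ 𝓝 (c.e ξ) := by
  obtain ⟨q, hqc, hq⟩ := vc_linv c
  have h0 : ‖ξ‖ < c.r := by simpa using hξ
  obtain ⟨r', hr1, hr2⟩ := exists_between h0
  refine ⟨c.e '' Metric.closedBall 0 r', ?_, ?_⟩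
  · apply (isCompact_closedBall (0 : R m) r').image_of_continuousOn
    apply c.cont.mono
    intro η hη
    have : ‖η‖ ≤ r' := by simpa using hη
    simp only [Metric.mem_ball, dist_zero_right]
    linarith
  · have h1 : c.e '' Metric.ball 0 c.r ∩ q ⁻¹' Metric.ball 0 r' ⊆ c.e '' Metric.closedBall 0 r' := by
      rintro y ⟨⟨η, hη, rfl⟩, h2⟩
      refine ⟨η, ?_, rfl⟩
      have h3 : q (c.e η) ∈ Metric.ball (0 : R m) r' := h2
      rw [hq η hη] at h3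
      exact Metric.ball_subset_closedBall h3
    refine Filter.mem_of_superset ?_ h1
    apply (c.isOpen.inter (Metric.isOpen_ball.preimage hqc)).mem_nhds
    refine ⟨⟨ξ, hξ, rfl⟩, ?_⟩
    show q (c.e ξ) ∈ Metric.ball (0 : R m) r'
    rw [hq ξ hξ]
    simpa using hr1

variable {P : Dev κ m Y} {Γ : Type*} [Group Γ] [MulAction Γ Y]

/-- invariant bump -/
noncomputable def vcb (F : ChFam P Γ) (i : Fin F.N) (y : Y) : ℝ := ∑ᶠ γ : Γ, F.χ i (γ • y)

theorem vcb_inv (F : ChFam P Γ) (i : Fin F.N) (γ : Γ) (y : Y) : vcb F i (γ • y) = vcb F i y := by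
  unfold vcb
  have h := finsum_comp_equiv (Equiv.mulRight γ) (f := fun γ' : Γ => F.χ i (γ' • y))
  rw [← h]
  apply finsum_congr
  intro γ'
  rw [Equiv.coe_mulRight, mul_smul]

theorem vc_hit (F : ChFam P Γ) (y : Y) : ∃ j, ∃ γ : Γ, ∃ ξ ∈ F.K j, γ • y = (F.c j).e ξ ∧
    F.χ j (γ • y) ≠ 0 := by
  by_contra hc
  push Not at hc
  have h1 : ∀ j (γ : Γ), F.χ j (γ • y) = 0 := by
    intro j γ
    by_cases h : γ • y ∈ (F.c j).e '' F.K j
    · obtain ⟨ξ, hξ, h2⟩ := h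
      exact hc j γ ξ hξ h2.symm
    · exact F.supp j _ h
  have h2 := F.sum y
  simp only [h1, finsum_zero, Finset.sum_const_zero] at h2
  exact zero_ne_one h2

theorem vc_cpt [ContinuousConstSMul Γ Y] (F : ChFam P Γ) (y : Y) :
    ∃ C : Set Y, IsCompact C ∧ C ∈ 𝓝 y := by
  obtain ⟨j, γ, ξ, hξ, h1, -⟩ := vc_hit F y
  obtain ⟨C, hC, hCn⟩ := vc_nhd (F.c j) (F.Ksub j hξ)
  rw [← h1] at hCn
  refine ⟨(fun z => γ⁻¹ • z) '' C, hC.image (continuous_const_smul _), ?_⟩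
  have h2 : (fun z => γ • z) ⁻¹' C ∈ 𝓝 y := (continuous_const_smul γ).continuousAt hCn
  refine Filter.mem_of_superset h2 ?_
  intro z hz
  exact ⟨γ • z, hz, by simp⟩

theorem vc_Kcpt (F : ChFam P Γ) (i : Fin F.N) : IsCompact ((F.c i).e '' F.K i) :=
  (F.Kc i).image_of_continuousOn ((F.c i).cont.mono (F.Ksub i))

theorem vc_locfin [ContinuousConstSMul Γ Y] [ProperlyDiscontinuousSMul Γ Y] (F : ChFam P Γ)
    (i : Fin F.N) (y : Y) : ∃ S : Finset Γ, ∀ᶠ z in 𝓝 y, ∀ γ : Γ, γ ∉ S →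
      γ • z ∉ (F.c i).e '' F.K i := by
  obtain ⟨C, hC, hCn⟩ := vc_cpt F y
  have h1 := ProperlyDiscontinuousSMul.finite_disjoint_inter_image (Γ := Γ) hC (vc_Kcpt F i)
  refine ⟨h1.toFinset, ?_⟩
  filter_upwards [hCn] with z hz γ hγ hmem
  apply hγ
  rw [Set.Finite.mem_toFinset]
  exact ⟨γ • z, ⟨z, hz, rfl⟩, hmem⟩

theorem vcb_zero [T2Space Y] [ContinuousConstSMul Γ Y] [ProperlyDiscontinuousSMul Γ Y] (F : ChFam P Γ)
    (i : Fin F.N) (y : Y) (h : ∀ γ : Γ, γ • y ∉ (F.c i).e '' F.K i) : ∀ᶠ z in 𝓝 y, vcb F i z = 0 := by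
  obtain ⟨S, hS⟩ := vc_locfin F i y
  have h1 : ∀ᶠ z in 𝓝 y, ∀ γ ∈ S, γ • z ∉ (F.c i).e '' F.K i := by
    rw [Filter.eventually_all_finset]
    intro γ hγ
    have h2 : IsOpen ((F.c i).e '' F.K i)ᶜ := (vc_Kcpt F i).isClosed.isOpen_compl
    exact (continuous_const_smul γ).continuousAt.eventually (h2.mem_nhds (h γ))
  filter_upwards [hS, h1] with z h2 h3
  unfold vcb
  have h4 : ∀ γ : Γ, F.χ i (γ • z) = 0 := by
    intro γ
    apply F.supp
    by_cases hγ : γ ∈ S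
    · exact h3 γ hγ
    · exact h2 γ hγ
  simp only [h4, finsum_zero]

theorem vcb_sm [ContinuousConstSMul Γ Y] [ProperlyDiscontinuousSMul Γ Y] (H : Hol P Γ) (F : ChFam P Γ)
    (i : Fin F.N) : P.Sm (vcb F i) := by
  intro y
  obtain ⟨S, hS⟩ := vc_locfin F i y
  have h1 : ∀ γ : Γ, ∃ G : V m → ℝ, ContDiff ℝ ∞ G ∧ ∀ᶠ z in 𝓝 y, F.χ i (γ • z) = G (P.p z) := by
    intro γ
    obtain ⟨G, hG, hev⟩ := F.sm i (γ • y)
    let L : V m →L[ℝ] V m := LinearMap.toContinuousLinearMap (H.ρ γ : V m →ₗ[ℝ] V m)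
    refine ⟨fun x => G (L x), hG.comp L.contDiff, ?_⟩
    filter_upwards [(continuous_const_smul γ).continuousAt.eventually hev] with z hz
    rw [hz, H.eqv]
    rfl
  choose G hG hev using h1
  refine ⟨fun x => ∑ γ ∈ S, G γ x, ContDiff.sum fun γ _ => hG γ, ?_⟩
  have h2 : ∀ᶠ z in 𝓝 y, ∀ γ ∈ S, F.χ i (γ • z) = G γ (P.p z) := by
    rw [Filter.eventually_all_finset]
    intro γ _
    exact hev γ
  filter_upwards [hS, h2] with z h3 h4
  unfold vcb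
  rw [finsum_eq_sum_of_support_subset (s := S)]
  · exact Finset.sum_congr rfl h4
  · intro γ hγ
    by_contra hc
    exact hγ (F.supp i _ (h3 γ (by simpa using hc)))

theorem vcb_chart (F : ChFam P Γ) (i : Fin F.N) {ξ : R m} (hξ : ξ ∈ Metric.ball (0 : R m) (F.c i).r) :
    vcb F i ((F.c i).e ξ) = F.χ i ((F.c i).e ξ) := by
  unfold vcb
  rw [finsum_eq_single _ 1]
  · rw [one_smul]
  · intro γ hγ
    apply F.supp
    intro hmem
    apply F.disj i γ hγ _ ⟨ξ, hξ, rfl⟩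
    obtain ⟨η, hη, h⟩ := hmem
    exact ⟨η, F.Ksub i hη, h⟩

theorem vc_chi_zero (F : ChFam P Γ) (i : Fin F.N) {ξ : R m} (hξ : ξ ∈ Metric.ball (0 : R m) (F.c i).r)
    (hK : ξ ∉ F.K i) : F.χ i ((F.c i).e ξ) = 0 := by
  apply F.supp
  rintro ⟨η, hη, h⟩
  have := vc_inj (F.c i) (F.Ksub i hη) hξ h
  rw [this] at hη
  exact hK hη

theorem Sm_add {W : Type*} [NormedAddCommGroup W] [NormedSpace ℝ W] {f g : Y → W} (hf : P.Sm f)
    (hg : P.Sm g) : P.Sm (fun y => f y + g y) := by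
  intro y
  obtain ⟨G1, h1, h2⟩ := hf y
  obtain ⟨G2, h3, h4⟩ := hg y
  refine ⟨fun x => G1 x + G2 x, h1.add h3, ?_⟩
  filter_upwards [h2, h4] with z h5 h6
  rw [h5, h6]

theorem Sm_zero : P.Sm (fun _ : Y => (0 : ℝ)) := fun _ =>
  ⟨fun _ => 0, contDiff_const, Filter.Eventually.of_forall fun _ => rfl⟩

/-- partial sums of the invariant bumps -/
noncomputable def vcA (F : ChFam P Γ) (n : ℕ) (y : Y) : ℝ :=
  ∑ j ∈ Finset.univ.filter (fun j : Fin F.N => j.val < n), vcb F j y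

theorem vcA_zero (F : ChFam P Γ) (y : Y) : vcA F 0 y = 0 := by
  unfold vcA
  simp

theorem vcA_succ (F : ChFam P Γ) (n : ℕ) (hn : n < F.N) (y : Y) :
    vcA F (n + 1) y = vcA F n y + vcb F ⟨n, hn⟩ y := by
  unfold vcA
  have h1 : Finset.univ.filter (fun j : Fin F.N => j.val < n + 1)
      = insert ⟨n, hn⟩ (Finset.univ.filter (fun j : Fin F.N => j.val < n)) := by
    ext j
    simp only [Finset.mem_filter, Finset.mem_univ, true_and, Finset.mem_insert, Fin.ext_iff]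
    omega
  rw [h1, Finset.sum_insert (by simp), add_comm]

theorem vcA_top (F : ChFam P Γ) (y : Y) : vcA F F.N y = 1 := by
  unfold vcA
  have h1 : Finset.univ.filter (fun j : Fin F.N => j.val < F.N) = Finset.univ := by
    ext j
    simp
  rw [h1]
  exact F.sum y

theorem vcA_inv (F : ChFam P Γ) (n : ℕ) (γ : Γ) (y : Y) : vcA F n (γ • y) = vcA F n y := by
  unfold vcA
  exact Finset.sum_congr rfl fun j _ => vcb_inv F j γ y

theorem vcA_sm [ContinuousConstSMul Γ Y] [ProperlyDiscontinuousSMul Γ Y] (H : Hol P Γ) (F : ChFam P Γ)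
    (n : ℕ) : P.Sm (vcA F n) := by
  have : ∀ s : Finset (Fin F.N), P.Sm (fun y => ∑ j ∈ s, vcb F j y) := by
    intro s
    induction s using Finset.induction_on with
    | empty => simpa using Sm_zero
    | insert a s ha ih =>
      simp only [Finset.sum_insert ha]
      exact Sm_add (vcb_sm H F a) ih
  exact this _

end vc4
section vc5
variable {κ : ℝ} {m : ℕ} {Y : Type*} [TopologicalSpace Y] {P : Dev κ m Y} {Γ : Type*} [Group Γ]
  [MulAction Γ Y]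

/-- the integrand -/
noncomputable def vcI (F : ChFam P Γ) (Dt : (V m) [⋀^Fin (m + 2)]→ₗ[ℝ] ℝ) (ψ : Y → ℝ) (j : Fin F.N)
    (ξ : R m) : ℝ :=
  F.χ j ((F.c j).e ξ) * ψ ((F.c j).e ξ) * |J Dt (fun η => og κ (F.c j).x0 ((F.c j).L η)) ξ|

theorem vcI_cont (F : ChFam P Γ) (Dt : (V m) [⋀^Fin (m + 2)]→ₗ[ℝ] ℝ) {ψ : Y → ℝ} (hψ : Continuous ψ)
    (j : Fin F.N) : ContinuousOn (vcI F Dt ψ j) (Metric.ball 0 (F.c j).r) := by
  have h1 : ContinuousOn (fun ξ => F.χ j ((F.c j).e ξ)) (Metric.ball 0 (F.c j).r) :=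
    (F.sm j).continuous.comp_continuousOn (F.c j).cont
  have h2 : ContinuousOn (fun ξ => ψ ((F.c j).e ξ)) (Metric.ball 0 (F.c j).r) :=
    hψ.comp_continuousOn (F.c j).cont
  exact (h1.mul h2).mul (vc_J_cont (F.c j) Dt).abs

theorem vcI_int (F : ChFam P Γ) (Dt : (V m) [⋀^Fin (m + 2)]→ₗ[ℝ] ℝ) {ψ : Y → ℝ} (hψ : Continuous ψ)
    (j : Fin F.N) :
    MeasureTheory.IntegrableOn (vcI F Dt ψ j) (Metric.ball 0 (F.c j).r) := by
  have h1 : MeasureTheory.IntegrableOn (vcI F Dt ψ j) (F.K j) :=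
    ((vcI_cont F Dt hψ j).mono (F.Ksub j)).integrableOn_compact (F.Kc j)
  apply h1.of_forall_sdiff_eq_zero Metric.isOpen_ball.measurableSet
  rintro ξ ⟨hξ, hK⟩
  unfold vcI
  rw [vc_chi_zero F j hξ hK]
  ring

/-- the invariant integral -/
noncomputable def vcT2 (F : ChFam P Γ) (Dt : (V m) [⋀^Fin (m + 2)]→ₗ[ℝ] ℝ) (ψ : Y → ℝ) : ℝ :=
  ∑ j, ∫ ξ in Metric.ball (0 : R m) (F.c j).r, vcI F Dt ψ j ξ

theorem vcT2_sub (F : ChFam P Γ) (Dt : (V m) [⋀^Fin (m + 2)]→ₗ[ℝ] ℝ) {ψ φ : Y → ℝ}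
    (hψ : Continuous ψ) (hφ : Continuous φ) :
    vcT2 F Dt (fun y => ψ y - φ y) = vcT2 F Dt ψ - vcT2 F Dt φ := by
  unfold vcT2
  rw [← Finset.sum_sub_distrib]
  apply Finset.sum_congr rfl
  intro j _
  rw [← MeasureTheory.integral_sub (vcI_int F Dt hψ j) (vcI_int F Dt hφ j)]
  congr 1
  funext ξ
  unfold vcI
  ring

theorem vcT2_smul (F : ChFam P Γ) (Dt : (V m) [⋀^Fin (m + 2)]→ₗ[ℝ] ℝ) (θ : ℝ) :
    vcT2 F Dt (fun _ => θ) = θ * vcT2 F Dt (fun _ => 1) := by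
  unfold vcT2
  rw [Finset.mul_sum]
  apply Finset.sum_congr rfl
  intro j _
  rw [← MeasureTheory.integral_const_mul]
  congr 1
  funext ξ
  unfold vcI
  ring

theorem vcT2_pos [Nonempty Y] (F : ChFam P Γ) {Dt : (V m) [⋀^Fin (m + 2)]→ₗ[ℝ] ℝ} (hDt : Dt ≠ 0) :
    0 < vcT2 F Dt (fun _ => 1) := by
  have hc : Continuous (fun _ : Y => (1 : ℝ)) := continuous_const
  have hnn : ∀ j ξ, 0 ≤ vcI F Dt (fun _ => 1) j ξ := by
    intro j ξ
    unfold vcI
    have := F.nn j ((F.c j).e ξ)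
    positivity
  obtain ⟨y⟩ := ‹Nonempty Y›
  obtain ⟨j, γ, ξ, hξ, h1, h2⟩ := vc_hit F y
  unfold vcT2
  apply Finset.sum_pos'
  · intro j _
    exact MeasureTheory.integral_nonneg (hnn j)
  · refine ⟨j, Finset.mem_univ j, ?_⟩
    rw [MeasureTheory.setIntegral_pos_iff_support_of_nonneg_ae
      (Filter.Eventually.of_forall (hnn j)) (vcI_int F Dt hc j)]
    have hξb := F.Ksub j hξ
    have h3 : vcI F Dt (fun _ => 1) j ξ ≠ 0 := by
      unfold vcI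
      rw [← h1]
      have := vc_J_ne (F.c j) hDt hξb
      have := abs_ne_zero.mpr this
      simp only [mul_one]
      exact mul_ne_zero h2 this
    have h4 : IsOpen (Metric.ball (0 : R m) (F.c j).r ∩ vcI F Dt (fun _ => 1) j ⁻¹' {0}ᶜ) :=
      (vcI_cont F Dt hc j).isOpen_inter_preimage Metric.isOpen_ball isOpen_compl_singleton
    have h5 : (Metric.ball (0 : R m) (F.c j).r ∩ vcI F Dt (fun _ => 1) j ⁻¹' {0}ᶜ).Nonempty :=
      ⟨ξ, hξb, h3⟩
    have h6 := h4.measure_pos MeasureTheory.volume h5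
    refine h6.trans_le (MeasureTheory.measure_mono ?_)
    rintro η ⟨h7, h8⟩
    exact ⟨h8, h7⟩

end vc5

section vc6
variable {κ : ℝ} {m : ℕ} {Y : Type*} [TopologicalSpace Y] {P : Dev κ m Y} {Γ : Type*} [Group Γ]
  [MulAction Γ Y]

theorem vc_sSm (S : Y → ℝ → V m)
    (hS : ∀ y, ∃ G : V m × ℝ → V m, ContDiff ℝ ∞ G ∧ ∀ᶠ y' in 𝓝 y, ∀ a, S y' a = G (P.p y', a))
    (A : Y → ℝ) (hA : P.Sm A) : P.Sm (fun y => S y (A y)) := by
  intro y
  obtain ⟨G, hG, h1⟩ := hS y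
  obtain ⟨G2, hG2, h2⟩ := hA y
  refine ⟨fun x => G (x, G2 x), hG.comp (contDiff_id.prodMk hG2), ?_⟩
  filter_upwards [h1, h2] with z h3 h4
  rw [h3, h4]

/-- the homotopy in a chart is smooth -/
theorem vc_S'_smooth (S : Y → ℝ → V m)
    (hS : ∀ y, ∃ G : V m × ℝ → V m, ContDiff ℝ ∞ G ∧ ∀ᶠ y' in 𝓝 y, ∀ a, S y' a = G (P.p y', a))
    (c : P.Ch) (A χ : Y → ℝ) (hA : P.Sm A) (hχ : P.Sm χ) :
    ContDiffOn ℝ ∞ (fun q : R m × ℝ => S (c.e q.1) (A (c.e q.1) + q.2 * χ (c.e q.1)))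
      (Metric.ball 0 c.r ×ˢ univ) := by
  rintro ⟨ξ, a⟩ ⟨hξ, -⟩
  apply ContDiffAt.contDiffWithinAt
  have hξ' : ξ ∈ Metric.ball (0 : R m) c.r := hξ
  obtain ⟨G, hG, h1⟩ := hS (c.e ξ)
  obtain ⟨G2, hG2, h2⟩ := hA (c.e ξ)
  obtain ⟨G3, hG3, h3⟩ := hχ (c.e ξ)
  have hb : Metric.ball (0 : R m) c.r ∈ 𝓝 ξ := Metric.isOpen_ball.mem_nhds hξ'
  have hec : ContinuousAt c.e ξ := c.cont.continuousAt hb
  have hev : ∀ᶠ η in 𝓝 ξ, ∀ t, S (c.e η) (A (c.e η) + t * χ (c.e η))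
      = G (vcs c η, G2 (vcs c η) + t * G3 (vcs c η)) := by
    filter_upwards [hec.eventually h1, hec.eventually h2, hec.eventually h3, hb] with η e1 e2 e3 e4 t
    rw [e1, e2, e3, c.pe η e4]
    rfl
  have hev2 : (fun q : R m × ℝ => S (c.e q.1) (A (c.e q.1) + q.2 * χ (c.e q.1)))
      =ᶠ[𝓝 (ξ, a)] fun q => G (vcs c q.1, G2 (vcs c q.1) + q.2 * G3 (vcs c q.1)) := by
    have h4 : ContinuousAt (fun q : R m × ℝ => q.1) (ξ, a) := continuousAt_fst
    filter_upwards [h4.eventually hev] with q hq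
    exact hq q.2
  refine ContDiffAt.congr_of_eventuallyEq ?_ hev2
  have hs : ContDiffAt ℝ ∞ (fun q : R m × ℝ => vcs c q.1) (ξ, a) :=
    ContDiffAt.comp (g := vcs c) (ξ, a) (vc_contDiffAt_s c hξ') contDiffAt_fst
  have h5 : ContDiffAt ℝ ∞ (fun q : R m × ℝ => G2 (vcs c q.1)) (ξ, a) :=
    ContDiffAt.comp (g := G2) (ξ, a) hG2.contDiffAt hs
  have h6 : ContDiffAt ℝ ∞ (fun q : R m × ℝ => G3 (vcs c q.1)) (ξ, a) :=
    ContDiffAt.comp (g := G3) (ξ, a) hG3.contDiffAt hs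
  exact ContDiffAt.comp (g := G) (ξ, a) hG.contDiffAt (hs.prodMk (h5.add (contDiffAt_snd.mul h6)))

theorem vc_J_congr (Dt : (V m) [⋀^Fin (m + 2)]→ₗ[ℝ] ℝ) {f g : R m → V m} {ξ : R m}
    (h : f =ᶠ[𝓝 ξ] g) : J Dt f ξ = J Dt g ξ := by
  unfold J
  rw [h.fderiv_eq, h.self_of_nhds]

/-- one step of the homotopy does not change the integral -/
theorem vc_step (hκ : κ = -1 ∨ κ = 0 ∨ κ = 1) [T2Space Y] [ContinuousConstSMul Γ Y]
    [ProperlyDiscontinuousSMul Γ Y] (H : Hol P Γ) (F : ChFam P Γ)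
    {Dt : (V m) [⋀^Fin (m + 2)]→ₗ[ℝ] ℝ} (hDt : Dt ≠ 0) (S : Y → ℝ → V m)
    (hS : ∀ y, ∃ G : V m × ℝ → V m, ContDiff ℝ ∞ G ∧ ∀ᶠ y' in 𝓝 y, ∀ a, S y' a = G (P.p y', a))
    (hX : ∀ y a, S y a ∈ X κ m)
    (heq : ∀ (γ : Γ) y a, S (γ • y) a = H.ρ γ (S y a)) (n : ℕ) (hn : n < F.N)
    (ψ φ : Y → ℝ) (hψc : Continuous ψ) (hφc : Continuous φ)
    (hψ : ∀ y (v : Fin (m + 1) → V m), (∀ i, Q κ (P.p y) (v i) = 0) →
      Dt (Fin.cons (S y (vcA F (n + 1) y)) (fun i => P.d (fun z => S z (vcA F (n + 1) z)) y (v i)))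
        = ψ y * Dt (Fin.cons (P.p y) v))
    (hφ : ∀ y (v : Fin (m + 1) → V m), (∀ i, Q κ (P.p y) (v i) = 0) →
      Dt (Fin.cons (S y (vcA F n y)) (fun i => P.d (fun z => S z (vcA F n z)) y (v i)))
        = φ y * Dt (Fin.cons (P.p y) v)) :
    vcT2 F Dt ψ = vcT2 F Dt φ := by
  have hA := vcA_sm H F n
  have hA1 := vcA_sm H F (n + 1)
  have hs := vc_sSm (P := P) S hS _ hA
  have hs1 := vc_sSm (P := P) S hS _ hA1
  have hinvψ : ∀ (γ : Γ) y, ψ (γ • y) = ψ y :=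
    vc_inv hκ P H hDt _ hs1 (fun γ y => by rw [vcA_inv, heq]) ψ hψ
  have hinvφ : ∀ (γ : Γ) y, φ (γ • y) = φ y :=
    vc_inv hκ P H hDt _ hs (fun γ y => by rw [vcA_inv, heq]) φ hφ
  let i : Fin F.N := ⟨n, hn⟩
  have hsupp : ∀ y, (∀ γ : Γ, γ • y ∉ (F.c i).e '' F.K i) → ψ y - φ y = 0 := by
    intro y hy
    rw [sub_eq_zero]
    apply vc_eq_of hDt (P.mem y)
    intro v hv
    rw [← hψ y v hv, ← hφ y v hv]
    have h1 := vcb_zero F i y hy
    obtain ⟨G, hG, hev⟩ := hs y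
    have hev1 : ∀ᶠ z in 𝓝 y, S z (vcA F (n + 1) z) = G (P.p z) := by
      filter_upwards [h1, hev] with z e1 e2
      rw [vcA_succ F n hn, e1, add_zero, e2]
    have e3 : vcA F (n + 1) y = vcA F n y := by
      rw [vcA_succ F n hn, h1.self_of_nhds, add_zero]
    have e4 : ∀ j, P.d (fun z => S z (vcA F (n + 1) z)) y (v j) = P.d (fun z => S z (vcA F n z)) y (v j) := by
      intro j
      rw [Dev.d_eq hκ P _ y G hG hev1 _ (hv j), Dev.d_eq hκ P _ y G hG hev _ (hv j)]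
    simp only [e3, e4]
  have hunf := unfold_integral hκ P H F Dt hDt (fun y => ψ y - φ y) (hψc.sub hφc)
    (fun γ y => by rw [hinvψ, hinvφ]) i hsupp
  have h2 : vcT2 F Dt (fun y => ψ y - φ y) = ∫ ξ in Metric.ball (0 : R m) (F.c i).r,
        (ψ ((F.c i).e ξ) - φ ((F.c i).e ξ)) * |J Dt (fun η => og κ (F.c i).x0 ((F.c i).L η)) ξ| := hunf
  have h3 : vcT2 F Dt (fun y => ψ y - φ y) = 0 := by
    rw [h2]
    obtain ⟨σ, hσ⟩ := vc_J_sign (F.c i) hDt
    let S' : R m × ℝ → V m := fun q =>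
      S ((F.c i).e q.1) (vcA F n ((F.c i).e q.1) + q.2 * F.χ i ((F.c i).e q.1))
    have hNLX := NLX hκ Dt (F.c i).r_pos S' (vc_S'_smooth S hS (F.c i) _ _ hA (F.sm i))
      (fun ξ _ a => hX _ _) (F.K i) (F.Kc i) (F.Ksub i) (by
        intro ξ hξ hK a
        show S ((F.c i).e ξ) (vcA F n ((F.c i).e ξ) + a * F.χ i ((F.c i).e ξ))
          = S ((F.c i).e ξ) (vcA F n ((F.c i).e ξ) + 0 * F.χ i ((F.c i).e ξ))
        rw [vc_chi_zero F i hξ hK]
        simp)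
    have h4 : ∫ ξ in Metric.ball (0 : R m) (F.c i).r,
        (ψ ((F.c i).e ξ) - φ ((F.c i).e ξ)) * |J Dt (fun η => og κ (F.c i).x0 ((F.c i).L η)) ξ|
        = ∫ ξ in Metric.ball (0 : R m) (F.c i).r,
          σ * (J Dt (fun η => S' (η, 1)) ξ - J Dt (fun η => S' (η, 0)) ξ) := by
      apply MeasureTheory.setIntegral_congr_fun Metric.isOpen_ball.measurableSet
      intro ξ hξ
      have hb : Metric.ball (0 : R m) (F.c i).r ∈ 𝓝 ξ := Metric.isOpen_ball.mem_nhds hξ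
      have e1 : J Dt (fun η => S' (η, 1)) ξ
          = ψ ((F.c i).e ξ) * J Dt (fun η => og κ (F.c i).x0 ((F.c i).L η)) ξ := by
        rw [← vc_J_comp hκ (F.c i) Dt _ hs1 ψ hψ hξ]
        apply vc_J_congr
        filter_upwards [hb] with η hη
        show S ((F.c i).e η) (vcA F n ((F.c i).e η) + 1 * F.χ i ((F.c i).e η))
          = S ((F.c i).e η) (vcA F (n + 1) ((F.c i).e η))
        rw [vcA_succ F n hn, vcb_chart F i hη, one_mul]
      have e0 : J Dt (fun η => S' (η, 0)) ξ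
          = φ ((F.c i).e ξ) * J Dt (fun η => og κ (F.c i).x0 ((F.c i).L η)) ξ := by
        rw [← vc_J_comp hκ (F.c i) Dt _ hs φ hφ hξ]
        apply vc_J_congr
        filter_upwards [hb] with η hη
        show S ((F.c i).e η) (vcA F n ((F.c i).e η) + 0 * F.χ i ((F.c i).e η))
          = S ((F.c i).e η) (vcA F n ((F.c i).e η))
        rw [zero_mul, add_zero]
      show (ψ ((F.c i).e ξ) - φ ((F.c i).e ξ)) * |J Dt (fun η => og κ (F.c i).x0 ((F.c i).L η)) ξ|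
        = σ * (J Dt (fun η => S' (η, 1)) ξ - J Dt (fun η => S' (η, 0)) ξ)
      rw [e1, e0, hσ ξ hξ]
      ring
    rw [h4, MeasureTheory.integral_const_mul, hNLX, mul_zero]
  rw [vcT2_sub F Dt hψc hφc] at h3
  linarith

end vc6

/-- an equivariant homotopy (with values in the model space) from the developing map to a map whose
Jacobian is `θ ≠ 1` times the original one is impossible on a compact quotient -/
theorem volume_contradiction {κ : ℝ} {m : ℕ} (hκ : κ = -1 ∨ κ = 0 ∨ κ = 1) {Y : Type*}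
    [TopologicalSpace Y] [T2Space Y] [Nonempty Y] (P : Dev κ m Y) {Γ : Type*} [Group Γ] [MulAction Γ Y]
    [ContinuousConstSMul Γ Y] [ProperlyDiscontinuousSMul Γ Y]
    (hfree : ∀ (γ : Γ) (y : Y), γ • y = y → γ = 1) (H : Hol P Γ) (hK : Coc Γ Y)
    (Dt : (V m) [⋀^Fin (m + 2)]→ₗ[ℝ] ℝ) (hDt : Dt ≠ 0) (S : Y → ℝ → V m)
    (hS : ∀ y, ∃ G : V m × ℝ → V m, ContDiff ℝ ∞ G ∧ ∀ᶠ y' in 𝓝 y, ∀ a, S y' a = G (P.p y', a))
    (hX : ∀ y a, S y a ∈ X κ m) (h0 : ∀ y, S y 0 = P.p y)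
    (heq : ∀ (γ : Γ) y a, S (γ • y) a = H.ρ γ (S y a)) (θ : ℝ) (hθ : θ ≠ 1)
    (hJ : ∀ y, ∀ v : Fin (m + 1) → V m, (∀ i, Q κ (P.p y) (v i) = 0) →
      Dt (Fin.cons (S y 1) (fun i => P.d (fun z => S z 1) y (v i))) = θ * Dt (Fin.cons (P.p y) v)) :
    False := by
  obtain ⟨F⟩ := exists_chFam hκ P hfree H hK
  have h1 : ∀ n : ℕ, ∃ ψ : Y → ℝ, Continuous ψ ∧ ∀ y (v : Fin (m + 1) → V m),
      (∀ i, Q κ (P.p y) (v i) = 0) →
      Dt (Fin.cons (S y (vcA F n y)) (fun i => P.d (fun z => S z (vcA F n z)) y (v i)))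
        = ψ y * Dt (Fin.cons (P.p y) v) := by
    intro n
    exact vc_psi hκ P hDt (fun z => S z (vcA F n z)) (vc_sSm (P := P) S hS _ (vcA_sm H F n))
  choose ψ hc hψ using h1
  have h2 : ∀ n, n ≤ F.N → vcT2 F Dt (ψ n) = vcT2 F Dt (ψ 0) := by
    intro n
    induction n with
    | zero => intro _; rfl
    | succ n ih =>
      intro hn
      rw [← ih (by omega)]
      exact vc_step hκ H F hDt S hS hX heq n (by omega) (ψ (n + 1)) (ψ n) (hc _) (hc _) (hψ _) (hψ _)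
  have h3 := h2 F.N le_rfl
  have h4 : ψ 0 = fun _ => 1 := by
    funext y
    apply vc_eq_of hDt (P.mem y)
    intro v hv
    rw [← hψ 0 y v hv, one_mul]
    have e1 : ∀ᶠ z in 𝓝 y, S z (vcA F 0 z) = id (P.p z) := by
      refine Filter.Eventually.of_forall fun z => ?_
      rw [vcA_zero, h0]
      rfl
    have e2 : ∀ j, P.d (fun z => S z (vcA F 0 z)) y (v j) = v j := by
      intro j
      rw [Dev.d_eq hκ P _ y id contDiff_id e1 _ (hv j)]
      simp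
    simp only [e2]
    rw [vcA_zero, h0]
  have h5 : ψ F.N = fun _ => θ := by
    funext y
    apply vc_eq_of hDt (P.mem y)
    intro v hv
    rw [← hψ F.N y v hv, ← hJ y v hv]
    have e1 : (fun z => S z (vcA F F.N z)) = fun z => S z 1 := by
      funext z
      rw [vcA_top]
    rw [e1, vcA_top]
  rw [h4, h5, vcT2_smul] at h3
  have h6 := vcT2_pos F hDt
  have h7 : (θ - 1) * vcT2 F Dt (fun _ => 1) = 0 := by linarith
  rcases mul_eq_zero.mp h7 with h | h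
  · exact hθ (by linarith)
  · rw [h] at h6
    exact lt_irrefl _ h6

end Pool.Agent.Helper107.LC
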