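import Mathlib
import Pool.Agent.Helper107.LC.Tau
import Pool.Agent.Helper107.LC.VL
set_option autoImplicit false
open Set Filter Topology
open scoped ContDiff

namespace Pool.Agent.Helper107.LC

section nf
variable {κ : ℝ} {m : ℕ}

/-- `B · ν` as a linear functional -/
noncomputable def nfB (κ : ℝ) {m : ℕ} (ν : V m) : V m →ₗ[ℝ] ℝ where
  toFun w := B κ w ν
  map_add' a b := B_add_left a b ν
  map_smul' a b := by simp [B_smul_left]

/-- last coordinate -/
def nfL {m : ℕ} : V m →ₗ[ℝ] ℝ where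
  toFun w := w.2.2
  map_add' a b := rfl
  map_smul' a b := rfl

theorem nf_ker (hκ : κ = -1 ∨ κ = 0 ∨ κ = 1) {Y : Type*} [TopologicalSpace Y] (P : Dev κ m Y)
    {F : Y → V m} (hF : P.Sm F) (Λ : V m →L[ℝ] ℝ) (h : ∀ z, Λ (F z) = 0) (y : Y) (v : V m)
    (hv : Q κ (P.p y) v = 0) : Λ (P.d F y v) = 0 := by
  set x := P.p y with hx
  have hxX : Q κ x x = 1 := P.mem y
  set b := B κ v v with hb
  set g : ℝ → V m := fun t => Real.sqrt (1 - κ * (t * (t * b))) • x + t • v with hg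
  have hgc : Continuous g := by
    simp only [hg]
    fun_prop
  have hev : ∀ᶠ t in 𝓝 (0:ℝ), 0 < 1 - κ * (t * (t * b)) := by
    have hc : Continuous fun t : ℝ => 1 - κ * (t * (t * b)) := by fun_prop
    have := hc.tendsto 0
    apply this.eventually_const_lt
    norm_num
  have hgX : ∀ᶠ t in 𝓝 (0:ℝ), g t ∈ X κ m := by
    filter_upwards [hev] with t ht
    show Q κ (g t) (g t) = 1
    have hs := Real.mul_self_sqrt ht.le
    have hvv : Q κ v v = κ * b := Q_tan hκ (P.mem y) hv v hv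
    simp only [hg, Q_add_left, Q_add_right, Q_smul_left, Q_smul_right, Q_comm v x, hv, hxX, hvv]
    linear_combination hs
  have hg0 : g 0 = P.p y := by
    simp [hg, hx]
  have hd1 : HasDerivAt (fun t : ℝ => 1 - κ * (t * (t * b))) 0 0 := by
    have h1 : HasDerivAt (fun t : ℝ => 1 - κ * (t * (t * b)))
        (0 - κ * (1 * (0 * b) + 0 * (1 * b))) 0 :=
      (hasDerivAt_const (0:ℝ) (1:ℝ)).sub
        (((hasDerivAt_id (0:ℝ)).mul ((hasDerivAt_id (0:ℝ)).mul_const b)).const_mul κ)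
    simpa using h1
  have hd2 : HasDerivAt (fun t : ℝ => Real.sqrt (1 - κ * (t * (t * b)))) 0 0 := by
    have := hd1.sqrt (by norm_num)
    simpa using this
  have hgd : HasDerivAt g v 0 := by
    have h1 := (hd2.smul_const x).add ((hasDerivAt_id (0:ℝ)).smul_const v)
    simp only [zero_smul, one_smul, zero_add] at h1
    exact h1
  obtain ⟨δ, hδ, c, hc, hc0, hl⟩ := Dev.exists_local_lift P y g 0 hgc.continuousAt
    (Eventually.of_forall fun t => hgc.continuousAt) hgX hg0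
  have hmem : Ioo ((0:ℝ) - δ) (0 + δ) ∈ 𝓝 (0:ℝ) := Ioo_mem_nhds (by linarith) (by linarith)
  have hca : ContinuousAt c 0 := hc.continuousAt hmem
  have hpc : HasDerivAt (P.p ∘ c) v 0 := by
    refine hgd.congr_of_eventuallyEq ?_
    filter_upwards [hmem] with t ht
    exact hl t ht
  have h1 := Dev.hasDerivAt_comp P hF c 0 hca v hpc
  rw [hc0] at h1
  have h2 : HasDerivAt (fun t => Λ ((F ∘ c) t)) (Λ (P.d F y v)) 0 :=
    Λ.hasFDerivAt.comp_hasDerivAt 0 h1
  have h3 : (fun t => Λ ((F ∘ c) t)) = fun _ => (0:ℝ) := by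
    funext t
    exact h (c t)
  rw [h3] at h2
  exact h2.unique (hasDerivAt_const (0:ℝ) (0:ℝ))

theorem nf_finrank (m : ℕ) : Module.finrank ℝ (V m) = m + 2 := by
  rw [Module.finrank_prod, Module.finrank_prod, finrank_euclideanSpace_fin, Module.finrank_self]
  ring

theorem nf_det (Λ : V m →ₗ[ℝ] ℝ) {w0 : V m} (h0 : Λ w0 ≠ 0) (Dt : (V m) [⋀^Fin (m + 2)]→ₗ[ℝ] ℝ)
    (w : Fin (m + 2) → V m) (hw : ∀ i, Λ (w i) = 0) : Dt w = 0 := by
  apply AlternatingMap.map_linearDependent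
  intro hli
  have hsp := hli.span_eq_top_of_card_eq_finrank (by rw [nf_finrank]; simp)
  have hle : Submodule.span ℝ (Set.range w) ≤ LinearMap.ker Λ := by
    rw [Submodule.span_le]
    rintro _ ⟨i, rfl⟩
    exact hw i
  rw [hsp] at hle
  exact h0 (hle (Submodule.mem_top (x := w0)))

theorem nf_ck (hκ : κ = -1 ∨ κ = 0) : ContDiff ℝ ∞ (ck κ) ∧ ContDiff ℝ ∞ (sk κ) := by
  rcases hκ with h | h <;> subst h
  · have e : ck (-1) = Real.cos := by ext s; simp [ck]
    have e' : sk (-1) = Real.sin := by ext s; simp [sk]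
    rw [e, e']
    exact ⟨Real.contDiff_cos, Real.contDiff_sin⟩
  · have e : ck 0 = fun _ => (1:ℝ) := by ext s; simp [ck]
    have e' : sk 0 = fun s => s := by ext s; simp [sk]
    rw [e, e']
    exact ⟨contDiff_const, contDiff_id⟩

theorem nf_clopen {Y : Type*} [TopologicalSpace Y] [ConnectedSpace Y] {A C : Set Y}
    (hA : IsClosed A) (hC : IsClosed C) (hu : ∀ y, y ∈ A ∨ y ∈ C) (hd : ∀ y, y ∈ A → y ∉ C) :
    (∀ y, y ∈ A) ∨ (∀ y, y ∈ C) := by
  have hAc : A = Cᶜ := by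
    ext y
    constructor
    · exact hd y
    · intro hy
      exact (hu y).resolve_right hy
  have hcl : IsClopen A := ⟨hA, by rw [hAc]; exact hC.isOpen_compl⟩
  rcases isClopen_iff.1 hcl with h | h
  · right
    intro y
    rcases hu y with h1 | h1
    · rw [h] at h1; exact absurd h1 (Set.notMem_empty y)
    · exact h1
  · left
    intro y
    rw [h]; exact Set.mem_univ y

theorem nf_last {Y : Type*} [TopologicalSpace Y] [ConnectedSpace Y] (P : Dev 0 m Y) (y y' : Y) :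
    (P.p y).2.2 = (P.p y').2.2 := by
  have hq : ∀ z, (P.p z).2.2 = 1 ∨ (P.p z).2.2 = -1 := by
    intro z
    have h1 : Q 0 (P.p z) (P.p z) = 1 := P.mem z
    have h2 : (P.p z).2.2 * (P.p z).2.2 = 1 := by simpa [Q] using h1
    exact mul_self_eq_one_iff.1 h2
  have hc : Continuous fun z => (P.p z).2.2 := continuous_snd.comp (continuous_snd.comp P.continuous_p)
  rcases nf_clopen (A := {z | (P.p z).2.2 = 1}) (C := {z | (P.p z).2.2 = -1})
    (isClosed_eq hc continuous_const) (isClosed_eq hc continuous_const) hq (by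
      intro z hz hz'
      have h1 : (P.p z).2.2 = 1 := hz
      have h2 : (P.p z).2.2 = -1 := hz'
      rw [h1] at h2
      norm_num at h2) with h | h
  · have h1 : (P.p y).2.2 = 1 := h y
    have h2 : (P.p y').2.2 = 1 := h y'
    rw [h1, h2]
  · have h1 : (P.p y).2.2 = -1 := h y
    have h2 : (P.p y').2.2 = -1 := h y'
    rw [h1, h2]

theorem nf_tlast {x t : V m} (hx : x ∈ X 0 m) (ht : Q 0 x t = 0) : t.2.2 = 0 := by
  have h1 : Q 0 x x = 1 := hx
  have h2 : x.2.2 * x.2.2 = 1 := by simpa [Q] using h1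
  have h3 : x.2.2 * t.2.2 = 0 := by simpa [Q] using ht
  rcases mul_eq_zero.1 h3 with h | h
  · rw [h] at h2; norm_num at h2
  · exact h

/-- the functional vanishing on the end points -/
theorem nf_fun {κ : ℝ} {m : ℕ} (hκ : κ = -1 ∨ κ = 0) {Y : Type*}
    [TopologicalSpace Y] [ConnectedSpace Y] (P : Dev κ m Y) {T : Y → V m}
    (hTt : ∀ y, Q κ (P.p y) (T y) = 0) {y0 : Y} {u0 : V m} {b0 : ℝ}
    {ν0 : V m} (hF : P.FailsAt T y0 u0 b0 ν0) (hu : Q κ (P.p y0) u0 = 0)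
    (τ : Y → ℝ) (hτ : ∀ y, B κ (ray κ (P.p y) (T y) (τ y) - ray κ (P.p y0) u0 b0) ν0 = 0) :
    ∃ Λ : V m →ₗ[ℝ] ℝ, (∀ y, Λ (ray κ (P.p y) (T y) (τ y)) = 0) ∧
      Λ (vel κ (P.p y0) u0 b0) ≠ 0 := by
  obtain ⟨-, -, hνν, hQν, hBν⟩ := hF
  rcases hκ with h | h
  · subst h
    refine ⟨nfB (-1) ν0, ?_, ?_⟩
    · intro y
      show B (-1) _ ν0 = 0
      have h1 := hτ y
      rw [B_sub_left] at h1
      have h2 := Q_eq_B (κ := (-1:ℝ)) (ray (-1) (P.p y0) u0 b0) ν0
      rw [hQν] at h2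
      linarith
    · show B (-1) _ ν0 ≠ 0
      rw [hBν]
      norm_num
  · subst h
    set s := (P.p y0).2.2 with hs
    have hss : s * s = 1 := by
      have h1 : Q 0 (P.p y0) (P.p y0) = 1 := P.mem y0
      simpa [Q] using h1
    set e0 := ray 0 (P.p y0) u0 b0 with he0
    have hck : ∀ t : ℝ, ck 0 t = 1 := by intro t; simp [ck]
    refine ⟨nfB 0 ν0 - (s * B 0 e0 ν0) • nfL, ?_, ?_⟩
    · intro y
      show B 0 (ray 0 (P.p y) (T y) (τ y)) ν0 -
        (s * B 0 e0 ν0) * (ray 0 (P.p y) (T y) (τ y)).2.2 = 0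
      have h1 := hτ y
      rw [B_sub_left] at h1
      have h2 : (ray 0 (P.p y) (T y) (τ y)).2.2 = s := by
        have h3 : (ray 0 (P.p y) (T y) (τ y)).2.2 =
            ck 0 (τ y) * (P.p y).2.2 + sk 0 (τ y) * (T y).2.2 := rfl
        rw [h3, hck, nf_tlast (P.mem y) (hTt y), nf_last P y y0, ← hs]
        ring
      rw [h2]
      linear_combination h1 - B 0 e0 ν0 * hss
    · show B 0 (vel 0 (P.p y0) u0 b0) ν0 -
        (s * B 0 e0 ν0) * (vel 0 (P.p y0) u0 b0).2.2 ≠ 0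
      have h2 : (vel 0 (P.p y0) u0 b0).2.2 = 0 := by
        have h3 : (vel 0 (P.p y0) u0 b0).2.2 =
            (0 * sk 0 b0) * (P.p y0).2.2 + ck 0 b0 * u0.2.2 := rfl
        rw [h3, nf_tlast (P.mem y0) hu]
        ring
      rw [h2, hBν]
      norm_num

end nf

/-- no timelike geodesic fails on a compact quotient (`κ ≤ 0`) -/
theorem Dev.no_fail {κ : ℝ} {m : ℕ} (hκ : κ = -1 ∨ κ = 0) {Y : Type*}
    [TopologicalSpace Y] [T2Space Y] [ConnectedSpace Y] (P : Dev κ m Y) {Γ : Type*} [Group Γ]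
    [MulAction Γ Y] [ContinuousConstSMul Γ Y] [ProperlyDiscontinuousSMul Γ Y]
    (hfree : ∀ (γ : Γ) (y : Y), γ • y = y → γ = 1) {H : Hol P Γ} (hK : Coc Γ Y) {TT : TF H}
    (D : ExData TT) {y0 : Y} {u0 : V m} {b0 : ℝ} {ν0 : V m}
    (hF : P.FailsAt TT.T y0 u0 b0 ν0) (hu0 : P.Fut TT.T y0 u0) : False := by
  have hκ3 : κ = -1 ∨ κ = 0 ∨ κ = 1 := by tauto
  have hTc : Continuous TT.T := Dev.Sm.continuous TT.sm
  have hρc : ∀ γ : Γ, Continuous (H.ρ γ : V m → V m) := fun γ =>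
    (H.ρ γ : V m →ₗ[ℝ] V m).continuous_of_finiteDimensional
  have hT0 : ∀ y, TT.T y ≠ 0 := by
    intro y h0
    have := TT.unit y
    rw [h0, B_zero_left] at this
    norm_num at this
  -- dichotomy
  have hdich : ∀ γ : Γ, (∀ y, TT.T (γ • y) = H.ρ γ (TT.T y)) ∨
      (∀ y, TT.T (γ • y) = - H.ρ γ (TT.T y)) := by
    intro γ
    have c1 : Continuous fun y => TT.T (γ • y) := hTc.comp (continuous_const_smul γ)
    have c2 : Continuous fun y => H.ρ γ (TT.T y) := (hρc γ).comp hTc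
    exact nf_clopen (A := {y | TT.T (γ • y) = H.ρ γ (TT.T y)})
      (C := {y | TT.T (γ • y) = - H.ρ γ (TT.T y)}) (isClosed_eq c1 c2) (isClosed_eq c1 c2.neg)
      (TT.eqv γ) (by
        intro y h1 h2
        have h1' : TT.T (γ • y) = H.ρ γ (TT.T y) := h1
        have h2' : TT.T (γ • y) = - H.ρ γ (TT.T y) := h2
        rw [h1'] at h2'
        have h3 : H.ρ γ (TT.T y) = 0 := by
          have h4 : (2:ℝ) • H.ρ γ (TT.T y) = 0 := by
            rw [two_smul]
            exact add_eq_zero_iff_eq_neg.2 h2'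
          exact (smul_eq_zero.1 h4).resolve_left (by norm_num)
        exact hT0 y ((H.ρ γ).map_eq_zero_iff.1 h3))
  -- the subgroup
  let G' : Subgroup Γ :=
    { carrier := {γ | ∀ y, TT.T (γ • y) = H.ρ γ (TT.T y)}
      one_mem' := by
        intro y
        rw [one_smul, map_one]
        rfl
      mul_mem' := by
        intro a b ha hb y
        rw [mul_smul, ha, hb, map_mul]
        rfl
      inv_mem' := by
        intro a ha y
        have h1 := ha (a⁻¹ • y)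
        rw [smul_inv_smul] at h1
        rw [h1, map_inv]
        exact ((H.ρ a).symm_apply_apply _).symm }
  have hG' : ∀ γ : Γ, γ ∈ G' ↔ ∀ y, TT.T (γ • y) = H.ρ γ (TT.T y) := fun γ => Iff.rfl
  -- cocompactness
  have hK' : Coc G' Y := by
    obtain ⟨K, hKc, hKs⟩ := hK
    by_cases hall : ∀ γ : Γ, γ ∈ G'
    · refine ⟨K, hKc, ?_⟩
      intro y
      obtain ⟨γ, hγ⟩ := hKs y
      exact ⟨⟨γ, hall γ⟩, hγ⟩
    · push Not at hall
      obtain ⟨g0, hg0⟩ := hall
      have hneg : ∀ γ : Γ, γ ∉ G' → ∀ y, TT.T (γ • y) = - H.ρ γ (TT.T y) := by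
        intro γ hγ
        exact (hdich γ).resolve_left hγ
      refine ⟨K ∪ (fun y => g0 • y) '' K, hKc.union (hKc.image (continuous_const_smul g0)), ?_⟩
      intro y
      obtain ⟨γ, hγ⟩ := hKs y
      by_cases hγG : γ ∈ G'
      · exact ⟨⟨γ, hγG⟩, Or.inl hγ⟩
      · refine ⟨⟨g0 * γ, ?_⟩, Or.inr ⟨γ • y, hγ, ?_⟩⟩
        · rw [hG']
          intro z
          rw [mul_smul, hneg g0 hg0, hneg γ hγG, map_neg, neg_neg, map_mul]
          rfl
        · exact (mul_smul g0 γ y).symm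
  haveI : ContinuousConstSMul G' Y := ⟨fun γ => continuous_const_smul (γ : Γ)⟩
  haveI : ProperlyDiscontinuousSMul G' Y := ⟨by
    intro K L hKc hLc
    have h1 := ProperlyDiscontinuousSMul.finite_disjoint_inter_image (Γ := Γ) hKc hLc
    exact h1.preimage (f := fun γ : G' => (γ : Γ)) (Subtype.val_injective.injOn)⟩
  let H' : Hol P G' :=
    { ρ := H.ρ.comp G'.subtype
      Qinv := fun γ v w => H.Qinv γ v w
      Binv := fun γ x v w => H.Binv γ x v w
      eqv := fun γ y => H.eqv γ y }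
  obtain ⟨τ, hτs, hτpos, hτF, hτN⟩ := Dev.exists_tau hκ P D hF hu0
  have hτeq : ∀ γ ∈ G', ∀ y, τ (γ • y) = τ y := by
    intro γ hγ y
    obtain ⟨ν, hν⟩ := hτF y
    obtain ⟨ν', hν'⟩ := hτF (γ • y)
    have h1 := Dev.FailsAt.smul hκ3 H TT.tan (γ := γ) hγ (TT.tan y) (TT.unit y) hν
    rw [← (hG' γ).1 hγ y] at h1
    exact (Dev.FailsAt.unique hκ3 hTc hν' h1 (TT.tan _) (TT.unit _)).1
  obtain ⟨Λ, hΛ, hΛ0⟩ := nf_fun hκ P TT.tan hF hu0.1 τ hτN
  let S : Y → ℝ → V m := fun y a => ray κ (P.p y) (TT.T y) (a * τ y)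
  have hS : ∀ y, ∃ G : V m × ℝ → V m, ContDiff ℝ ∞ G ∧ ∀ᶠ y' in 𝓝 y, ∀ a, S y' a = G (P.p y', a) := by
    intro y
    obtain ⟨Gτ, hGτ, hGτe⟩ := hτs y
    obtain ⟨GT, hGT, hGTe⟩ := TT.sm y
    refine ⟨fun q => ck κ (q.2 * Gτ q.1) • q.1 + sk κ (q.2 * Gτ q.1) • GT q.1, ?_, ?_⟩
    · obtain ⟨c1, c2⟩ := nf_ck hκ
      have h1 : ContDiff ℝ ∞ fun q : V m × ℝ => q.2 * Gτ q.1 :=
        contDiff_snd.mul (hGτ.comp contDiff_fst)
      exact ((c1.comp h1).smul contDiff_fst).add ((c2.comp h1).smul (hGT.comp contDiff_fst))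
    · filter_upwards [hGτe, hGTe] with y' h1 h2
      intro a
      show ray κ (P.p y') (TT.T y') (a * τ y') = _
      rw [ray, h1, h2]
  have hS1 : P.Sm (fun z => S z 1) := by
    intro y
    obtain ⟨G, hG, hGe⟩ := hS y
    refine ⟨fun x => G (x, 1), hG.comp (contDiff_id.prodMk contDiff_const), ?_⟩
    filter_upwards [hGe] with y' h1
    exact h1 1
  have hΛS : ∀ z, Λ (S z 1) = 0 := by
    intro z
    show Λ (ray κ (P.p z) (TT.T z) (1 * τ z)) = 0
    rw [one_mul]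
    exact hΛ z
  let bs := Module.finBasisOfFinrankEq ℝ (V m) (nf_finrank m)
  have hDt : bs.det ≠ 0 := by
    intro h0
    have h1 := bs.det_self
    rw [h0] at h1
    simp at h1
  refine volume_contradiction hκ3 P (Γ := G') ?_ H' hK' bs.det hDt S hS ?_ ?_ ?_ 0 (by norm_num) ?_
  · intro γ y h
    exact Subtype.ext (hfree γ y h)
  · intro y a
    exact ray_mem hκ3 (P.mem y) (TT.tan y) (TT.unit y) _
  · intro y
    show ray κ (P.p y) (TT.T y) (0 * τ y) = P.p y
    rw [zero_mul, ray_zero hκ3]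
  · intro γ y a
    show ray κ (P.p ((γ : Γ) • y)) (TT.T ((γ : Γ) • y)) (a * τ ((γ : Γ) • y)) =
      H.ρ (γ : Γ) (ray κ (P.p y) (TT.T y) (a * τ y))
    rw [H.eqv, (hG' γ).1 γ.2 y, hτeq γ γ.2 y, ray, ray, map_add, map_smul, map_smul]
  · intro y v hv
    rw [zero_mul]
    refine nf_det Λ hΛ0 _ _ ?_
    intro i
    refine Fin.cases ?_ (fun j => ?_) i
    · rw [Fin.cons_zero]
      exact hΛS y
    · rw [Fin.cons_succ]
      exact nf_ker hκ3 P hS1 Λ.toContinuousLinearMap hΛS y (v j) (hv j)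

end Pool.Agent.Helper107.LC
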