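import Mathlib
import Pool.Agent.Helper107.LC.AllFailP
import Pool.Agent.Helper107.LC.VL
set_option autoImplicit false
open Set Filter Topology
open scoped ContDiff

namespace Pool.Agent.Helper107.LC

section c_aux

theorem c_QB {m : ℕ} (v w : V m) : Q (1:ℝ) v w = B 1 v w := by rw [Q_eq_B]; ring

theorem c_Binv {m : ℕ} {Y : Type*} [TopologicalSpace Y] {P : Dev 1 m Y} {Γ : Type*} [Group Γ]
    [MulAction Γ Y] (H : Hol P Γ) (γ : Γ) (v w : V m) :
    B 1 (H.ρ γ v) (H.ρ γ w) = B 1 v w := by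
  rw [← c_QB, ← c_QB]; exact H.Qinv γ v w

/-- `B 1 z` as a linear map -/
noncomputable def c_Bl {m : ℕ} (z : V m) : V m →ₗ[ℝ] ℝ where
  toFun w := B 1 z w
  map_add' x y := B_add_right z x y
  map_smul' a x := B_smul_right a z x

theorem c_Bl_apply {m : ℕ} (z w : V m) : c_Bl z w = B 1 z w := rfl

theorem c_finrank (m : ℕ) : Module.finrank ℝ (V m) = m + 2 := by
  simp only [V, E, Module.finrank_prod, Module.finrank_self, finrank_euclideanSpace,
    Fintype.card_fin]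
  ring

theorem c_exists_w {m : ℕ} (hm : 2 ≤ m) {x t : V m} (hx : x ∈ X 1 m) (ht : Q 1 x t = 0)
    (htt : B 1 t t = -1) : ∃ w : V m, Q 1 x w = 0 ∧ B 1 w t = 0 ∧ B 1 w w = 1 := by
  have hk : LinearMap.ker ((c_Bl x).prod (c_Bl t)) ≠ ⊥ := by
    apply LinearMap.ker_ne_bot_of_finrank_lt
    rw [c_finrank, Module.finrank_prod, Module.finrank_self]
    omega
  obtain ⟨w, hw, hw0⟩ := (Submodule.ne_bot_iff _).mp hk
  rw [LinearMap.mem_ker] at hw
  have h1 : B 1 x w = 0 := congrArg Prod.fst hw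
  have h2 : B 1 t w = 0 := congrArg Prod.snd hw
  have h1' : Q 1 x w = 0 := by rw [c_QB]; exact h1
  have h2' : B 1 w t = 0 := by rw [B_comm]; exact h2
  have h3 := B_pos_of_orth (κ := 1) (Or.inr (Or.inr rfl)) hx ht (by rw [htt]; norm_num) h1' h2' hw0
  have h4 : 0 < Real.sqrt (B 1 w w) := Real.sqrt_pos.mpr h3
  refine ⟨(Real.sqrt (B 1 w w))⁻¹ • w, ?_, ?_, ?_⟩
  · rw [Q_smul_right, h1', mul_zero]
  · rw [B_smul_left, h2', mul_zero]
  · rw [B_smul_left, B_smul_right]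
    have h5 := Real.mul_self_sqrt h3.le
    field_simp
    nlinarith

theorem c_exists_fut {m : ℕ} (hm : 2 ≤ m) {Y : Type*} [TopologicalSpace Y] (P : Dev 1 m Y)
    (T : Y → V m) (y : Y) (ht : Q 1 (P.p y) (T y) = 0) (htt : B 1 (T y) (T y) = -1)
    (e1 e2 : V m) : ∃ u, P.Fut T y u ∧ u ≠ e1 ∧ u ≠ e2 := by
  obtain ⟨w, hw1, hw2, hw3⟩ := c_exists_w hm (P.mem y) ht htt
  have hw2' : B 1 (T y) w = 0 := by rw [B_comm]; exact hw2
  have hinj : Function.Injective (fun s : ℝ => Real.cosh s • T y + Real.sinh s • w) := by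
    intro s t hst
    have h1 := congrArg (fun z => B 1 w z) hst
    simp only [B_add_right, B_smul_right, hw2, hw3] at h1
    apply Real.sinh_injective
    linarith
  obtain ⟨s, hs⟩ := (((Set.finite_singleton e2).insert e1).preimage
    hinj.injOn).infinite_compl.nonempty
  refine ⟨Real.cosh s • T y + Real.sinh s • w, ⟨?_, ?_, ?_⟩, ?_, ?_⟩
  · rw [Q_add_right, Q_smul_right, Q_smul_right, ht, hw1]; ring
  · simp only [B_add_left, B_add_right, B_smul_left, B_smul_right, hw2, hw2', hw3, htt]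
    nlinarith [Real.cosh_sq s]
  · simp only [B_add_left, B_smul_left, hw2, htt]
    have := Real.cosh_pos s
    linarith
  · intro h
    exact hs (Or.inl h)
  · intro h
    exact hs (Or.inr h)

/-- elements of the group preserving the time orientation -/
def c_G {m : ℕ} {Y : Type*} [TopologicalSpace Y] {P : Dev 1 m Y} {Γ : Type*} [Group Γ]
    [MulAction Γ Y] {H : Hol P Γ} (TT : TF H) : Subgroup Γ where
  carrier := {γ | ∀ y, TT.T (γ • y) = H.ρ γ (TT.T y)}
  mul_mem' := by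
    intro a b ha hb y
    rw [mul_smul, ha, hb, map_mul]; rfl
  one_mem' := by
    intro y
    rw [one_smul, map_one]; rfl
  inv_mem' := by
    intro a ha y
    have h1 := ha (a⁻¹ • y)
    rw [smul_inv_smul] at h1
    rw [h1, ← LinearEquiv.mul_apply, ← map_mul]
    simp

theorem c_dich {m : ℕ} {Y : Type*} [TopologicalSpace Y] [ConnectedSpace Y] {P : Dev 1 m Y}
    {Γ : Type*} [Group Γ] [MulAction Γ Y] [ContinuousConstSMul Γ Y] {H : Hol P Γ} (TT : TF H)
    (γ : Γ) : γ ∈ c_G TT ∨ ∀ y, TT.T (γ • y) = -H.ρ γ (TT.T y) := by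
  have hT : Continuous TT.T := TT.sm.continuous
  have h1 : Continuous (fun y => TT.T (γ • y)) := hT.comp (continuous_const_smul γ)
  have h2 : Continuous (fun y => H.ρ γ (TT.T y)) :=
    ((H.ρ γ).toLinearMap.continuous_of_finiteDimensional).comp hT
  have h3 : IsClosed {y | TT.T (γ • y) = H.ρ γ (TT.T y)} := isClosed_eq h1 h2
  have h4 : IsClosed {y | TT.T (γ • y) = -H.ρ γ (TT.T y)} := isClosed_eq h1 h2.neg
  have h5 : {y | TT.T (γ • y) = H.ρ γ (TT.T y)}ᶜ = {y | TT.T (γ • y) = -H.ρ γ (TT.T y)} := by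
    ext y
    constructor
    · intro hy
      rcases TT.eqv γ y with h | h
      · exact absurd h hy
      · exact h
    · intro hy hy'
      have e1 : TT.T (γ • y) = -H.ρ γ (TT.T y) := hy
      have e2 : TT.T (γ • y) = H.ρ γ (TT.T y) := hy'
      have e3 := TT.unit (γ • y)
      have e5 : TT.T (γ • y) = -TT.T (γ • y) := by
        conv_lhs => rw [e1, ← e2]
      have e4 := congrArg (B 1 (TT.T (γ • y))) e5
      rw [B_neg_right, e3] at e4
      norm_num at e4
  have h6 : IsClopen {y | TT.T (γ • y) = H.ρ γ (TT.T y)} :=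
    ⟨h3, by rw [← isClosed_compl_iff, h5]; exact h4⟩
  rcases isClopen_iff.mp h6 with h | h
  · right
    intro y
    have : y ∈ {y | TT.T (γ • y) = H.ρ γ (TT.T y)}ᶜ := by rw [h]; simp
    rw [h5] at this
    exact this
  · left
    intro y
    have : y ∈ {y | TT.T (γ • y) = H.ρ γ (TT.T y)} := by rw [h]; trivial
    exact this

theorem c_mul_not {m : ℕ} {Y : Type*} [TopologicalSpace Y] [ConnectedSpace Y] {P : Dev 1 m Y}
    {Γ : Type*} [Group Γ] [MulAction Γ Y] [ContinuousConstSMul Γ Y] {H : Hol P Γ} (TT : TF H)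
    (a b : Γ) (ha : a ∉ c_G TT) (hb : b ∉ c_G TT) : a * b ∈ c_G TT := by
  have h1 := (c_dich TT a).resolve_left ha
  have h2 := (c_dich TT b).resolve_left hb
  intro y
  rw [mul_smul, h1, h2, map_neg, neg_neg, map_mul]; rfl

/-- holonomy of a subgroup -/
def c_Hol {m : ℕ} {Y : Type*} [TopologicalSpace Y] {P : Dev 1 m Y} {Γ : Type*} [Group Γ]
    [MulAction Γ Y] (H : Hol P Γ) (G : Subgroup Γ) : Hol P G where
  ρ := H.ρ.comp G.subtype
  Qinv γ v w := H.Qinv γ.1 v w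
  Binv γ x v w hx hv hw := H.Binv γ.1 x v w hx hv hw
  eqv γ y := H.eqv γ.1 y

theorem c_coc {m : ℕ} {Y : Type*} [TopologicalSpace Y] [ConnectedSpace Y] {P : Dev 1 m Y}
    {Γ : Type*} [Group Γ] [MulAction Γ Y] [ContinuousConstSMul Γ Y] {H : Hol P Γ} (TT : TF H)
    (hK : Coc Γ Y) : Coc (c_G TT) Y := by
  obtain ⟨K, hK, hcov⟩ := hK
  by_cases hex : ∃ g0, g0 ∉ c_G TT
  · obtain ⟨g0, hg0⟩ := hex
    refine ⟨K ∪ (fun y => g0 • y) '' K, hK.union (hK.image (continuous_const_smul g0)), ?_⟩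
    intro y
    obtain ⟨γ, hγ⟩ := hcov y
    by_cases hγG : γ ∈ c_G TT
    · exact ⟨⟨γ, hγG⟩, Or.inl hγ⟩
    · exact ⟨⟨g0 * γ, c_mul_not TT g0 γ hg0 hγG⟩, Or.inr ⟨γ • y, hγ, (mul_smul g0 γ y).symm⟩⟩
  · push Not at hex
    exact ⟨K, hK, fun y => by
      obtain ⟨γ, hγ⟩ := hcov y
      exact ⟨⟨γ, hex γ⟩, hγ⟩⟩

theorem c_inv_smooth (t0 : ℝ) (h : t0 ≠ 0) :
    ∃ φ : ℝ → ℝ, ContDiff ℝ ∞ φ ∧ φ =ᶠ[𝓝 t0] (fun t => t⁻¹) := by
  have ha : 0 < |t0| := abs_pos.mpr h
  let f : ContDiffBump t0 := ⟨|t0| / 4, |t0| / 2, by linarith, by linarith⟩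
  refine ⟨fun t => f t * t⁻¹, ?_, ?_⟩
  · rw [contDiff_iff_contDiffAt]
    intro t
    by_cases ht : t = 0
    · subst ht
      have h1 : (fun t : ℝ => f t * t⁻¹) =ᶠ[𝓝 0] fun _ => 0 := by
        have : ∀ᶠ t : ℝ in 𝓝 0, |t| < |t0| / 2 := by
          have := (continuous_abs (G := ℝ)).tendsto 0
          rw [abs_zero] at this
          exact this.eventually (gt_mem_nhds (by linarith))
        filter_upwards [this] with t ht
        have h2 : f t = 0 := by
          apply f.zero_of_le_dist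
          show |t0| / 2 ≤ dist t t0
          rw [Real.dist_eq]
          have := abs_sub_abs_le_abs_sub t0 t
          rw [abs_sub_comm] at this
          linarith
        rw [h2, zero_mul]
      exact (contDiffAt_const (c := (0:ℝ))).congr_of_eventuallyEq h1
    · exact f.contDiffAt.mul (contDiffAt_inv ℝ ht)
  · filter_upwards [f.eventuallyEq_one] with t ht
    rw [ht]; simp

theorem c_mu {m : ℕ} (hm : 2 ≤ m) {Y : Type*}
    [TopologicalSpace Y] [T2Space Y] [ConnectedSpace Y] (P : Dev 1 m Y) {Γ : Type*} [Group Γ]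
    [MulAction Γ Y] [ContinuousConstSMul Γ Y] {H : Hol P Γ} {TT : TF H}
    (D : ExData TT) {y0 : Y} {u0 : V m} {b0 : ℝ} {ν0 : V m}
    (hF : P.FailsAt TT.T y0 u0 b0 ν0) (hu0 : P.Fut TT.T y0 u0) (γ : Γ) (hγ : γ ∈ c_G TT) :
    ∃ μ : ℝ, μ ≠ 0 ∧ H.ρ γ ν0 = μ • ν0 := by
  have hκ : (1:ℝ) = -1 ∨ (1:ℝ) = 0 ∨ (1:ℝ) = 1 := Or.inr (Or.inr rfl)
  have hT : Continuous TT.T := TT.sm.continuous
  have hν0 : ν0 ≠ 0 := by
    intro h
    have := hF.2.2.2.2
    rw [h, B_zero_right] at this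
    norm_num at this
  obtain ⟨u, hu, hne1, hne2⟩ := c_exists_fut hm P TT.T y0 (TT.tan y0) (TT.unit y0)
    ((B 1 (P.p y0) ν0)⁻¹ • ν0 - P.p y0)
    ((H.ρ γ).symm ((B 1 (P.p (γ • y0)) ν0)⁻¹ • ν0 - P.p (γ • y0)))
  obtain ⟨b, ν, hν, ⟨c, hc⟩, -⟩ := (Dev.all_fail_pos hm P D hF hu0 y0).2 u hu hne1
  have hs := Dev.FailsAt.smul hκ H TT.tan hγ hu.1 hu.2.1 hν
  have hfut : P.Fut TT.T (γ • y0) (H.ρ γ u) := by
    refine ⟨?_, ?_, ?_⟩
    · rw [H.eqv, H.Qinv]; exact hu.1
    · rw [c_Binv]; exact hu.2.1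
    · rw [hγ y0, c_Binv]; exact hu.2.2
  obtain ⟨b', ν', hν', ⟨c', hc'⟩, -⟩ := (Dev.all_fail_pos hm P D hF hu0 (γ • y0)).2 (H.ρ γ u) hfut
    (by
      intro h
      apply hne2
      rw [← h, LinearEquiv.symm_apply_apply])
  have huq := (Dev.FailsAt.unique hκ hT hs hν' hfut.1 hfut.2.1).2
  have hc0 : c ≠ 0 := by
    intro h
    have h1 := hν.2.2.2.2
    rw [hc, h, zero_smul, B_zero_right] at h1
    norm_num at h1
  have h1 : H.ρ γ ν0 = (c⁻¹ * c') • ν0 := by
    rw [hc, hc', map_smul] at huq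
    rw [mul_smul, ← huq, smul_smul, inv_mul_cancel₀ hc0, one_smul]
  refine ⟨c⁻¹ * c', ?_, h1⟩
  intro h
  rw [h, zero_smul] at h1
  exact hν0 ((H.ρ γ).map_eq_zero_iff.mp h1)

theorem c_det (m : ℕ) (a : ℝ) (ha : a ≠ 0) (f : V m →ₗ[ℝ] ℝ) (v : V m) :
    LinearMap.det (a • LinearMap.id + f.smulRight v : V m →ₗ[ℝ] V m)
      = a ^ (m + 2) * (1 + a⁻¹ * f v) := by
  have h1 : (a • LinearMap.id + f.smulRight v : V m →ₗ[ℝ] V m)
      = a • LinearMap.transvection (a⁻¹ • f) v := by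
    refine LinearMap.ext fun w => ?_
    simp only [LinearMap.add_apply, LinearMap.smul_apply, LinearMap.id_apply,
      LinearMap.smulRight_apply, LinearMap.transvection.apply, smul_add, smul_eq_mul, smul_smul]
    rw [← mul_assoc, mul_inv_cancel₀ ha, one_mul]
  rw [h1, LinearMap.det_smul, c_finrank, LinearMap.transvection.det]
  simp

end c_aux

/-- no timelike geodesic fails on a compact quotient (`κ = 1`, dimension `≥ 3`) -/
theorem Dev.no_fail_pos {m : ℕ} (hm : 2 ≤ m) {Y : Type*}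
    [TopologicalSpace Y] [T2Space Y] [ConnectedSpace Y] (P : Dev 1 m Y) {Γ : Type*} [Group Γ]
    [MulAction Γ Y] [ContinuousConstSMul Γ Y] [ProperlyDiscontinuousSMul Γ Y]
    (hfree : ∀ (γ : Γ) (y : Y), γ • y = y → γ = 1) {H : Hol P Γ} (hK : Coc Γ Y) {TT : TF H}
    (D : ExData TT) {y0 : Y} {u0 : V m} {b0 : ℝ} {ν0 : V m}
    (hF : P.FailsAt TT.T y0 u0 b0 ν0) (hu0 : P.Fut TT.T y0 u0) : False := by
  have hκ : (1:ℝ) = -1 ∨ (1:ℝ) = 0 ∨ (1:ℝ) = 1 := Or.inr (Or.inr rfl)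
  have hν00 : B 1 ν0 ν0 = 0 := hF.2.2.1
  have hh : ∀ y, B 1 (P.p y) ν0 ≠ 0 := fun y => (Dev.all_fail_pos hm P D hF hu0 y).1
  have hxx : ∀ y, B 1 (P.p y) (P.p y) = 1 := fun y => by
    have := P.mem y
    rw [← c_QB]; exact this
  have : ContinuousConstSMul (c_G TT) Y := ⟨fun γ => continuous_const_smul (γ : Γ)⟩
  have : ProperlyDiscontinuousSMul (c_G TT) Y := ⟨by
    intro K L hK hL
    have h1 := ProperlyDiscontinuousSMul.finite_disjoint_inter_image (Γ := Γ) hK hL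
    exact Set.Finite.preimage (f := (Subtype.val : c_G TT → Γ))
      Subtype.val_injective.injOn h1⟩
  -- the determinant form
  let b := Module.finBasisOfFinrankEq ℝ (V m) (c_finrank m)
  have hb0 : (b.det : (V m) [⋀^Fin (m + 2)]→ₗ[ℝ] ℝ) ≠ 0 := by
    intro h
    have := b.det_self
    rw [h] at this
    simp at this
  have hsinh : Real.sinh 1 = (Real.exp 1 - Real.exp (-1)) / 2 := Real.sinh_eq 1
  refine volume_contradiction hκ P (Γ := c_G TT)
    (fun γ y h => Subtype.ext (hfree γ.1 y h)) (c_Hol H (c_G TT)) (c_coc TT hK) b.det hb0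
    (fun y a => Real.exp (-a) • P.p y + (Real.sinh a * (B 1 (P.p y) ν0)⁻¹) • ν0)
    ?_ ?_ ?_ ?_ (Real.exp (-(m:ℝ))) ?_ ?_
  · -- smooth
    intro y
    obtain ⟨φ, hφ, hφe⟩ := c_inv_smooth _ (hh y)
    let Bl : V m →L[ℝ] ℝ := (c_Bl ν0).toContinuousLinearMap
    refine ⟨fun q => Real.exp (-q.2) • q.1 + (Real.sinh q.2 * φ (Bl q.1)) • ν0, ?_, ?_⟩
    · have h1 : ContDiff ℝ ∞ (fun q : V m × ℝ => Real.exp (-q.2)) :=
        Real.contDiff_exp.comp contDiff_snd.neg
      have h2 : ContDiff ℝ ∞ (fun q : V m × ℝ => Real.sinh q.2) :=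
        Real.contDiff_sinh.comp contDiff_snd
      have h3 : ContDiff ℝ ∞ (fun q : V m × ℝ => φ (Bl q.1)) :=
        hφ.comp (Bl.contDiff.comp contDiff_fst)
      exact (h1.smul contDiff_fst).add ((h2.mul h3).smul contDiff_const)
    · have hc : Continuous (fun y' => B 1 (P.p y') ν0) := by
        have : (fun y' => B 1 (P.p y') ν0) = fun y' => Bl (P.p y') := by
          funext y'
          rw [B_comm]; rfl
        rw [this]
        exact Bl.continuous.comp P.continuous_p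
      have := (hc.tendsto y).eventually hφe
      filter_upwards [this] with y' hy' a
      have e : Bl (P.p y') = B 1 (P.p y') ν0 := by rw [B_comm]; rfl
      simp only [e, hy']
  · -- values
    intro y a
    show Q 1 _ _ = 1
    rw [c_QB]
    simp only [B_add_left, B_add_right, B_smul_left, B_smul_right, hν00, hxx, B_comm ν0 (P.p y)]
    have h1 := hh y
    have h2 : Real.sinh a = (Real.exp a - Real.exp (-a)) / 2 := Real.sinh_eq a
    have h3 : Real.exp (-a) * Real.exp a = 1 := by rw [← Real.exp_add]; simp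
    rw [h2]
    field_simp
    nlinarith
  · intro y
    simp
  · -- equivariance
    intro γ y a
    obtain ⟨μ, hμ, hμe⟩ := c_mu hm P D hF hu0 γ.1 γ.2
    have e1 : P.p (γ • y) = H.ρ γ.1 (P.p y) := H.eqv γ.1 y
    have e2 : B 1 (P.p (γ • y)) ν0 = μ⁻¹ * B 1 (P.p y) ν0 := by
      have h1 : B 1 (H.ρ γ.1 (P.p y)) (H.ρ γ.1 ν0) = B 1 (P.p y) ν0 := c_Binv H γ.1 _ _
      rw [hμe, B_smul_right, ← e1] at h1
      rw [← h1, ← mul_assoc, inv_mul_cancel₀ hμ, one_mul]
    show Real.exp (-a) • P.p (γ • y) + (Real.sinh a * (B 1 (P.p (γ • y)) ν0)⁻¹) • ν0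
      = H.ρ γ.1 (Real.exp (-a) • P.p y + (Real.sinh a * (B 1 (P.p y) ν0)⁻¹) • ν0)
    rw [map_add, map_smul, map_smul, hμe, e2, e1, smul_smul]
    congr 2
    rw [mul_inv, inv_inv]
    ring
  · -- θ ≠ 1
    intro h
    have h1 := Real.exp_eq_one_iff (-(m:ℝ)) |>.mp h
    have h2 : (2:ℝ) ≤ m := by exact_mod_cast hm
    linarith
  · -- Jacobian
    intro y v hv
    obtain ⟨φ, hφ, hφe⟩ := c_inv_smooth _ (hh y)
    let Bl : V m →L[ℝ] ℝ := (c_Bl ν0).toContinuousLinearMap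
    have hBl : ∀ x, Bl x = B 1 x ν0 := fun x => by rw [B_comm]; rfl
    set x0 := P.p y with hx0
    set h := B 1 x0 ν0 with hhdef
    have hh0 : h ≠ 0 := hh y
    have hG1 : ContDiff ℝ ∞ (fun x : V m => Real.exp (-1) • x) := contDiff_id.const_smul _
    have hG2 : ContDiff ℝ ∞ (fun x : V m => (Real.sinh 1 * φ (Bl x)) • ν0) :=
      (contDiff_const.mul (hφ.comp Bl.contDiff)).smul contDiff_const
    have hG : ContDiff ℝ ∞ (fun x : V m => Real.exp (-1) • x + (Real.sinh 1 * φ (Bl x)) • ν0) :=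
      hG1.add hG2
    have hev : ∀ᶠ y' in 𝓝 y, (fun z => Real.exp (-1) • P.p z +
        (Real.sinh 1 * (B 1 (P.p z) ν0)⁻¹) • ν0) y'
        = (fun x : V m => Real.exp (-1) • x + (Real.sinh 1 * φ (Bl x)) • ν0) (P.p y') := by
      have hc : Continuous (fun y' => Bl (P.p y')) := Bl.continuous.comp P.continuous_p
      have hφe' : φ =ᶠ[𝓝 (Bl (P.p y))] fun t => t⁻¹ := by rw [hBl]; exact hφe
      have := (hc.tendsto y).eventually hφe'
      filter_upwards [this] with y' hy'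
      rw [hBl] at hy'
      simp only [hBl, hy']
    have hφd : HasDerivAt φ (-(h ^ 2)⁻¹) (Bl x0) := by
      rw [hBl]
      exact (hasDerivAt_inv hh0).congr_of_eventuallyEq hφe
    have hcomp : HasFDerivAt (fun x => φ (Bl x)) ((-(h ^ 2)⁻¹) • Bl) x0 :=
      hφd.comp_hasFDerivAt x0 Bl.hasFDerivAt
    have hGd : HasFDerivAt (fun x : V m => Real.exp (-1) • x + (Real.sinh 1 * φ (Bl x)) • ν0)
        (Real.exp (-1) • ContinuousLinearMap.id ℝ (V m) +
          (Real.sinh 1 • ((-(h ^ 2)⁻¹) • Bl)).smulRight ν0) x0 :=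
      ((hasFDerivAt_id x0).const_smul (Real.exp (-1))).add
        ((hcomp.const_mul (Real.sinh 1)).smul_const ν0)
    have hd : ∀ w, Q 1 x0 w = 0 → P.d (fun z => Real.exp (-1) • P.p z +
        (Real.sinh 1 * (B 1 (P.p z) ν0)⁻¹) • ν0) y w
        = Real.exp (-1) • w + (Real.sinh 1 * (-(h ^ 2)⁻¹ * B 1 w ν0)) • ν0 := by
      intro w hw
      rw [Dev.d_eq hκ P _ y _ hG hev w hw, hGd.fderiv]
      simp [hBl]
    let f : V m →ₗ[ℝ] ℝ := (2 * Real.sinh 1 / h) • c_Bl x0 - (Real.sinh 1 / h ^ 2) • c_Bl ν0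
    have hfA : ∀ w, f w = 2 * Real.sinh 1 / h * B 1 x0 w - Real.sinh 1 / h ^ 2 * B 1 w ν0 := by
      intro w
      simp [f, c_Bl_apply, B_comm ν0 w]
    let A : V m →ₗ[ℝ] V m := Real.exp (-1) • LinearMap.id + f.smulRight ν0
    have hA : ∀ w, A w = Real.exp (-1) • w + f w • ν0 := by
      intro w
      simp [A]
    have hcons : (Fin.cons (Real.exp (-1) • x0 + (Real.sinh 1 * h⁻¹) • ν0)
        (fun i => P.d (fun z => Real.exp (-1) • P.p z +
        (Real.sinh 1 * (B 1 (P.p z) ν0)⁻¹) • ν0) y (v i)) : Fin (m + 2) → V m)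
        = A ∘ (Fin.cons x0 v : Fin (m + 2) → V m) := by
      funext i
      refine Fin.cases ?_ (fun i => ?_) i
      · simp only [Fin.cons_zero, Function.comp_apply, hA, hfA]
        congr 2
        rw [hxx y, ← hhdef]
        field_simp
        ring
      · simp only [Fin.cons_succ, Function.comp_apply, hA, hfA, hd (v i) (hv i)]
        congr 2
        have : B 1 x0 (v i) = 0 := by rw [← c_QB]; exact hv i
        rw [this]
        field_simp
        ring
    have hdet : LinearMap.det A = Real.exp (-(m:ℝ)) := by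
      rw [c_det m (Real.exp (-1)) (Real.exp_pos _).ne' f ν0, hfA, hν00, ← hhdef]
      have e1 : (Real.exp (-1))⁻¹ = Real.exp 1 := by rw [← Real.exp_neg]; simp
      have e2 : Real.exp 1 * Real.exp (-1) = 1 := by rw [← Real.exp_add]; simp
      have e3 : 1 + Real.exp 1 * (2 * Real.sinh 1 / h * h - Real.sinh 1 / h ^ 2 * 0)
          = Real.exp 1 ^ 2 := by
        rw [hsinh]
        field_simp
        nlinarith
      rw [e1, e3, pow_add]
      have e4 : Real.exp (-(m:ℝ)) = Real.exp (-1) ^ m := by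
        rw [← Real.exp_nat_mul]; congr 1; ring
      rw [e4]
      calc Real.exp (-1) ^ m * Real.exp (-1) ^ 2 * Real.exp 1 ^ 2
          = Real.exp (-1) ^ m * (Real.exp 1 * Real.exp (-1)) ^ 2 := by ring
        _ = Real.exp (-1) ^ m := by rw [e2]; ring
    show b.det (Fin.cons (Real.exp (-1) • x0 + (Real.sinh 1 * h⁻¹) • ν0)
        (fun i => P.d (fun z => Real.exp (-1) • P.p z +
        (Real.sinh 1 * (B 1 (P.p z) ν0)⁻¹) • ν0) y (v i)) : Fin (m + 2) → V m) = _
    rw [hcons, Module.Basis.det_comp, hdet]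

end Pool.Agent.Helper107.LC
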