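import Mathlib
import Pool.Agent.Helper107.LC.Base
set_option autoImplicit false
open Set Filter Topology
open scoped ContDiff

namespace Pool.Agent.Helper107.LC

/-- paths whose development converges, converge -/
def Dev.PC {κ : ℝ} {m : ℕ} {Y : Type*} [TopologicalSpace Y] (P : Dev κ m Y) : Prop :=
  ∀ (c : ℝ → Y) (a b : ℝ), a < b → ContinuousOn c (Ico a b) →
    ∀ x₁, Tendsto (P.p ∘ c) (𝓝[<] b) (𝓝 x₁) → ∃ y₁, Tendsto c (𝓝[<] b) (𝓝 y₁)

/-- the swap, as a linear equivalence -/
noncomputable def swp : V 1 ≃ₗ[ℝ] V 1 where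
  toFun x := (x.2.1 0, EuclideanSpace.single 0 x.1, x.2.2)
  invFun x := (x.2.1 0, EuclideanSpace.single 0 x.1, x.2.2)
  map_add' := by
    intro x y
    refine Prod.ext ?_ (Prod.ext ?_ ?_)
    · simp
    · ext i
      simp
      split_ifs <;> simp
    · simp
  map_smul' := by
    intro a x
    refine Prod.ext ?_ (Prod.ext ?_ ?_)
    · simp
    · ext i
      simp
    · simp
  left_inv := by
    intro x
    refine Prod.ext ?_ (Prod.ext ?_ ?_)
    · simp
    · ext i
      have hi : i = 0 := Subsingleton.elim _ _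
      subst hi
      simp
    · simp
  right_inv := by
    intro x
    refine Prod.ext ?_ (Prod.ext ?_ ?_)
    · simp
    · ext i
      have hi : i = 0 := Subsingleton.elim _ _
      subst hi
      simp
    · simp

theorem swp_apply (x : V 1) : swp x = (x.2.1 0, EuclideanSpace.single 0 x.1, x.2.2) := rfl

theorem swp_swp (x : V 1) : swp (swp x) = x := swp.left_inv x

theorem swp_symm : swp.symm = swp := by
  ext x <;> rfl

theorem swp_cont : Continuous (swp : V 1 → V 1) :=
  LinearMap.continuous_of_finiteDimensional (swp : V 1 →ₗ[ℝ] V 1)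

theorem inner_E1 (u v : E 1) : inner ℝ u v = u 0 * v 0 := by
  rw [PiLp.inner_apply]
  simp [mul_comm]

theorem Q_swp (x y : V 1) : Q (-1) (swp x) (swp y) = Q 1 x y := by
  simp only [Q, swp_apply, inner_E1]
  simp

theorem Q_swp' (x y : V 1) : Q 1 (swp x) (swp y) = Q (-1) x y := by
  rw [← Q_swp, swp_swp, swp_swp]

theorem B_neg_one (x y : V 1) : B (-1) x y = - Q (-1) x y := by
  have h := Q_eq_B (κ := (-1:ℝ)) x y
  linarith

theorem swp_mem {x : V 1} (hx : x ∈ X 1 1) : swp x ∈ X (-1) 1 := by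
  show Q (-1) (swp x) (swp x) = 1
  rw [Q_swp]
  exact hx

theorem swp_mem' {x : V 1} (hx : x ∈ X (-1) 1) : swp x ∈ X 1 1 := by
  show Q 1 (swp x) (swp x) = 1
  rw [Q_swp']
  exact hx

/-- the induced homeomorphism of model spaces -/
noncomputable def swpX : X 1 1 ≃ₜ X (-1) 1 where
  toFun x := ⟨swp x, swp_mem x.2⟩
  invFun x := ⟨swp x, swp_mem' x.2⟩
  left_inv x := Subtype.ext (swp_swp x)
  right_inv x := Subtype.ext (swp_swp x)
  continuous_toFun := Continuous.subtype_mk (swp_cont.comp continuous_subtype_val)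
    (fun x => swp_mem x.2)
  continuous_invFun := Continuous.subtype_mk (swp_cont.comp continuous_subtype_val)
    (fun x => swp_mem' x.2)

/-- dimension two: exchange the roles of time and space, `κ = 1` becomes `κ = -1` -/
theorem Dev.exists_swap {Y : Type*} [TopologicalSpace Y] (P : Dev 1 1 Y) {Γ : Type*} [Group Γ]
    [MulAction Γ Y] (H : Hol P Γ) :
    ∃ P' : Dev (-1) 1 Y, Nonempty (Hol P' Γ) ∧ (P'.PC → P.PC) := by
  have hlh : IsLocalHomeomorph (fun y => (⟨swp (P.p y), swp_mem (P.mem y)⟩ : X (-1) 1)) :=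
    (swpX.isLocalHomeomorph).comp P.lh
  refine ⟨⟨fun y => swp (P.p y), _, hlh⟩, ⟨?_⟩, ?_⟩
  · refine ⟨⟨⟨fun γ => (swp.trans (H.ρ γ)).trans swp, ?_⟩, ?_⟩, ?_, ?_, ?_⟩
    · ext x <;> simp [swp_swp]
    · intro γ δ
      apply LinearEquiv.ext
      intro x
      show swp (H.ρ (γ * δ) (swp x)) = swp (H.ρ γ (swp (swp (H.ρ δ (swp x)))))
      rw [swp_swp, map_mul]
      rfl
    · intro γ v w
      show Q (-1) (swp (H.ρ γ (swp v))) (swp (H.ρ γ (swp w))) = Q (-1) v w
      rw [Q_swp, H.Qinv, Q_swp']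
    · intro γ x v w _ _ _
      show B (-1) (swp (H.ρ γ (swp v))) (swp (H.ρ γ (swp w))) = B (-1) v w
      rw [B_neg_one, B_neg_one, Q_swp, H.Qinv, Q_swp']
    · intro γ y
      show swp (P.p (γ • y)) = swp (H.ρ γ (swp (swp (P.p y))))
      rw [swp_swp, H.eqv]
  · intro hPC c a b hab hc x₁ hx
    refine hPC c a b hab hc (swp x₁) ?_
    have h := (swp_cont.tendsto x₁).comp hx
    exact h

end Pool.Agent.Helper107.LC
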