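import Mathlib
import Pool.Agent.Helper107.LC.Dlem
set_option autoImplicit false
open Set Filter Topology
open scoped ContDiff

namespace Pool.Agent.Helper107.LC

section tfaux
variable {κ : ℝ} {m : ℕ} {Y : Type*} [TopologicalSpace Y]

/-- standard timelike tangent field of the model space -/
noncomputable def TX (κ : ℝ) {m : ℕ} (x : V m) : V m :=
  if κ = -1 then (x.2.2, 0, -x.1) else if κ = 0 then (1, 0, 0) else (1, 0, 0) + x.1 • x

theorem TX_smooth (κ : ℝ) {m : ℕ} : ContDiff ℝ ∞ (TX κ : V m → V m) := by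
  unfold TX
  split_ifs
  · exact (contDiff_snd.snd).prodMk (contDiff_const.prodMk contDiff_fst.neg)
  · exact contDiff_const
  · exact contDiff_const.add (contDiff_fst.smul contDiff_id)

theorem TX_tan (hκ : κ = -1 ∨ κ = 0 ∨ κ = 1) {x : V m} (hx : x ∈ X κ m) :
    Q κ x (TX κ x) = 0 := by
  have h1 : Q κ x x = 1 := hx
  rcases hκ with h | h | h <;> subst h
  · simp only [TX, Q, if_true, inner_zero_right]; ring
  · have e : TX 0 x = ((1, 0, 0) : V m) := by
      unfold TX; rw [if_neg (by norm_num), if_pos rfl]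
    rw [e]; simp [Q]
  · have e : TX 1 x = ((1, 0, 0) : V m) + x.1 • x := by
      simp only [TX]; rw [if_neg (by norm_num), if_neg (by norm_num)]
    rw [e, Q_add_right, Q_smul_right, h1]
    simp [Q]

theorem TX_neg (hκ : κ = -1 ∨ κ = 0 ∨ κ = 1) {x : V m} (hx : x ∈ X κ m) :
    B κ (TX κ x) (TX κ x) < 0 := by
  have h1 : Q κ x x = 1 := hx
  rcases hκ with h | h | h <;> subst h
  · have e : B (-1) (TX (-1) x) (TX (-1) x) = -(x.1 ^ 2 + x.2.2 ^ 2) := by
      simp only [TX, B, if_true, inner_zero_right]; ring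
    rw [e]
    simp only [Q] at h1
    have h2 : 0 ≤ inner ℝ x.2.1 x.2.1 := real_inner_self_nonneg
    nlinarith
  · have e : B 0 (TX 0 x) (TX 0 x) = -1 := by
      have e : TX 0 x = ((1, 0, 0) : V m) := by
        unfold TX; rw [if_neg (by norm_num), if_pos rfl]
      rw [e]; simp [B]
    rw [e]; norm_num
  · have e : TX 1 x = ((1, 0, 0) : V m) + x.1 • x := by
      simp only [TX]; rw [if_neg (by norm_num), if_neg (by norm_num)]
    have h2 : B 1 x x = 1 := by have := Q_eq_B (κ := (1:ℝ)) x x; rw [h1] at this; linarith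
    have h3 : B 1 ((1, 0, 0) : V m) x = -x.1 := by simp [B]
    have h4 : B 1 ((1, 0, 0) : V m) ((1, 0, 0) : V m) = -1 := by simp [B]
    rw [e]
    simp only [B_add_left, B_add_right, B_smul_left, B_smul_right, B_comm x, h2, h3, h4]
    nlinarith [sq_nonneg x.1]

/-- future cone -/
def Fc (κ : ℝ) {m : ℕ} (x v : V m) : Prop := Q κ x v = 0 ∧ B κ v v < 0 ∧ B κ v (TX κ x) < 0

theorem Fc_add (hκ : κ = -1 ∨ κ = 0 ∨ κ = 1) {x u v : V m} (hx : x ∈ X κ m) (hu : Fc κ x u)
    (hv : Fc κ x v) : Fc κ x (u + v) := by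
  have h := fut_trans hκ hx (TX_tan hκ hx) (TX_neg hκ hx) hu.1 hu.2.1 hv.1 hv.2.1 hu.2.2 hv.2.2
  refine ⟨by rw [Q_add_right, hu.1, hv.1, add_zero], ?_, ?_⟩
  · rw [B_add_left, B_add_right, B_add_right, B_comm v u]
    linarith [hu.2.1, hv.2.1]
  · rw [B_add_left]; linarith [hu.2.2, hv.2.2]

theorem Fc_smul {x u : V m} {c : ℝ} (hc : 0 < c) (hu : Fc κ x u) : Fc κ x (c • u) := by
  refine ⟨by rw [Q_smul_right, hu.1, mul_zero], ?_, ?_⟩
  · rw [B_smul_left, B_smul_right]
    exact mul_neg_of_pos_of_neg hc (mul_neg_of_pos_of_neg hc hu.2.1)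
  · rw [B_smul_left]
    exact mul_neg_of_pos_of_neg hc hu.2.2

theorem Fc_sum (hκ : κ = -1 ∨ κ = 0 ∨ κ = 1) {x : V m} (hx : x ∈ X κ m) {ι : Type*}
    (Λ : Finset ι) (c : ι → ℝ) (W : ι → V m) (hc : ∀ i, 0 ≤ c i) (hW : ∀ i, Fc κ x (W i)) :
    (∀ i ∈ Λ, c i = 0) ∨ Fc κ x (∑ i ∈ Λ, c i • W i) := by
  classical
  induction Λ using Finset.induction_on with
  | empty => left; simp
  | insert a s ha ih =>
    rw [Finset.sum_insert ha]
    rcases (hc a).eq_or_lt with h0 | h0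
    · rcases ih with h | h
      · left
        intro i hi
        rcases Finset.mem_insert.mp hi with rfl | hi
        · exact h0.symm
        · exact h i hi
      · right
        rw [← h0, zero_smul, zero_add]
        exact h
    · right
      rcases ih with h | h
      · rw [Finset.sum_eq_zero (fun i hi => by rw [h i hi, zero_smul]), add_zero]
        exact Fc_smul h0 (hW a)
      · exact Fc_add hκ hx (Fc_smul h0 (hW a)) h

/-- smoothness at a point -/
def SmA (P : Dev κ m Y) {W : Type*} [NormedAddCommGroup W] [NormedSpace ℝ W] (F : Y → W)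
    (y : Y) : Prop :=
  ∃ G : V m → W, ContDiff ℝ ∞ G ∧ ∀ᶠ y' in 𝓝 y, F y' = G (P.p y')

theorem SmA.congr {P : Dev κ m Y} {W : Type*} [NormedAddCommGroup W] [NormedSpace ℝ W]
    {F F' : Y → W} {y : Y} (h : SmA P F y) (h' : ∀ᶠ y' in 𝓝 y, F' y' = F y') : SmA P F' y := by
  obtain ⟨G, hG, hF⟩ := h
  refine ⟨G, hG, ?_⟩
  filter_upwards [hF, h'] with z h1 h2
  rw [h2, h1]

theorem SmA.sum {P : Dev κ m Y} {W : Type*} [NormedAddCommGroup W] [NormedSpace ℝ W]
    {ι : Type*} (s : Finset ι) {F : ι → Y → W} {y : Y} (h : ∀ i ∈ s, SmA P (F i) y) :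
    SmA P (fun z => ∑ i ∈ s, F i z) y := by
  classical
  induction s using Finset.induction_on with
  | empty => exact ⟨fun _ => 0, contDiff_const, by simp⟩
  | insert a s ha ih =>
    obtain ⟨G, hG, hF⟩ := ih (fun i hi => h i (Finset.mem_insert_of_mem hi))
    obtain ⟨G', hG', hF'⟩ := h a (Finset.mem_insert_self _ _)
    refine ⟨fun x => G' x + G x, hG'.add hG, ?_⟩
    filter_upwards [hF, hF'] with z h1 h2
    rw [Finset.sum_insert ha, h1, h2]

theorem SmA.smul {P : Dev κ m Y} {W : Type*} [NormedAddCommGroup W] [NormedSpace ℝ W]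
    {c : Y → ℝ} {F : Y → W} {y : Y} (hc : SmA P c y) (h : SmA P F y) :
    SmA P (fun z => c z • F z) y := by
  obtain ⟨G, hG, hF⟩ := h
  obtain ⟨G', hG', hF'⟩ := hc
  refine ⟨fun x => G' x • G x, hG'.smul hG, ?_⟩
  filter_upwards [hF, hF'] with z h1 h2
  rw [h1, h2]

theorem X_closed (κ : ℝ) (m : ℕ) : IsClosed (X κ m) := by
  unfold X Q
  apply isClosed_eq
  · fun_prop
  · exact continuous_const

/-- a smooth bump function with compact support in a chart -/
theorem chart [T2Space Y] (P : Dev κ m Y) (y0 : Y) : ∃ (χ : Y → ℝ) (S : Set Y),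
    (∀ y, SmA P χ y) ∧ (∀ y, 0 ≤ χ y) ∧ IsCompact S ∧ (∀ y, y ∉ S → χ y = 0) ∧
    ∀ᶠ y in 𝓝 y0, 0 < χ y := by
  classical
  obtain ⟨e, he, hfe⟩ := P.lh y0
  have hfe' : ∀ y, ((e y : X κ m) : V m) = P.p y := fun y => by rw [← hfe]
  obtain ⟨r, hr, hball⟩ := Metric.isOpen_iff.mp e.open_target (e y0) (e.map_source he)
  let bp : ContDiffBump (P.p y0) := ⟨r / 4, r / 2, by positivity, by linarith⟩
  let A : Set (X κ m) := Subtype.val ⁻¹' Metric.closedBall (P.p y0) (r / 2)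
  have hA : IsCompact A :=
    (X_closed κ m).isClosedEmbedding_subtypeVal.isCompact_preimage (isCompact_closedBall _ _)
  have hAt : A ⊆ e.target := by
    intro x hx
    apply hball
    have h1 : dist (x : V m) (P.p y0) ≤ r / 2 := hx
    rw [Metric.mem_ball, Subtype.dist_eq, hfe']
    linarith
  have hS : IsCompact (e.symm '' A) :=
    hA.image_of_continuousOn (e.continuousOn_symm.mono hAt)
  have hz : ∀ y, y ∉ e.symm '' A → (if y ∈ e.source then bp (P.p y) else 0) = 0 := by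
    intro y hy
    split_ifs with hs
    · apply bp.zero_of_le_dist
      by_contra hlt
      push Not at hlt
      apply hy
      refine ⟨e y, ?_, e.left_inv hs⟩
      show dist ((e y : X κ m) : V m) (P.p y0) ≤ r / 2
      rw [hfe']
      exact hlt.le
    · rfl
  refine ⟨fun y => if y ∈ e.source then bp (P.p y) else 0, e.symm '' A, ?_, ?_, hS, hz, ?_⟩
  · intro y
    by_cases hs : y ∈ e.source
    · refine ⟨bp, bp.contDiff, ?_⟩
      filter_upwards [e.open_source.mem_nhds hs] with z hz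
      rw [if_pos hz]
    · refine ⟨fun _ => 0, contDiff_const, ?_⟩
      have hyS : y ∉ e.symm '' A := by
        rintro ⟨x, hx, rfl⟩
        exact hs (e.map_target (hAt hx))
      filter_upwards [hS.isClosed.isOpen_compl.mem_nhds hyS] with z hz'
      exact hz z hz'
  · intro y
    show 0 ≤ if y ∈ e.source then bp (P.p y) else 0
    split_ifs
    · exact bp.nonneg
    · exact le_rfl
  · have h1 : ∀ᶠ y in 𝓝 y0, P.p y ∈ Metric.ball (P.p y0) (r / 2) :=
      P.continuous_p.continuousAt.eventually (Metric.ball_mem_nhds _ (by positivity))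
    filter_upwards [e.open_source.mem_nhds he, h1] with z hz1 hz2
    rw [if_pos hz1]
    exact bp.pos_of_mem_ball hz2

theorem exists_chi [T2Space Y] (P : Dev κ m Y) (K : Set Y) (hK : IsCompact K) :
    ∃ (χ : Y → ℝ) (S : Set Y), (∀ y, SmA P χ y) ∧ (∀ y, 0 ≤ χ y) ∧ IsCompact S ∧
    (∀ y, y ∉ S → χ y = 0) ∧ ∀ y ∈ K, 0 < χ y := by
  choose χ S h1 h2 h3 h4 h5 using chart P
  obtain ⟨t, -, ht⟩ := hK.elim_nhds_subcover (fun y0 => {y | 0 < χ y0 y}) (fun y _ => h5 y)
  refine ⟨fun y => ∑ i ∈ t, χ i y, ⋃ i ∈ t, S i, ?_, ?_, ?_, ?_, ?_⟩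
  · intro y
    exact SmA.sum t fun i _ => h1 i y
  · intro y
    exact Finset.sum_nonneg fun i _ => h2 i y
  · exact t.isCompact_biUnion fun i _ => h3 i
  · intro y hy
    simp only [mem_iUnion, not_exists] at hy
    exact Finset.sum_eq_zero fun i hi => h4 i y (hy i hi)
  · intro y hy
    have := ht hy
    simp only [mem_iUnion] at this
    obtain ⟨i, hi, hi'⟩ := this
    exact Finset.sum_pos' (fun i _ => h2 i y) ⟨i, hi, hi'⟩

/-- a smooth positive function equal to the identity to the right of `c/2` -/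
theorem exists_h (c : ℝ) (hc : 0 < c) : ∃ h : ℝ → ℝ, ContDiff ℝ ∞ h ∧ (∀ t, 0 < h t) ∧
    ∀ t, c / 2 < t → h t = t := by
  refine ⟨fun t => t * Real.smoothTransition ((t - c / 4) / (c / 4)) +
    (c / 4) * (1 - Real.smoothTransition ((t - c / 4) / (c / 4))), ?_, ?_, ?_⟩
  · have h1 : ContDiff ℝ ∞ fun t : ℝ => Real.smoothTransition ((t - c / 4) / (c / 4)) :=
      Real.smoothTransition.contDiff.comp ((contDiff_id.sub contDiff_const).div_const _)
    exact (contDiff_id.mul h1).add (contDiff_const.mul (contDiff_const.sub h1))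
  · intro t
    have h1 := Real.smoothTransition.nonneg ((t - c / 4) / (c / 4))
    have h2 := Real.smoothTransition.le_one ((t - c / 4) / (c / 4))
    rcases le_or_gt t (c / 4) with h | h
    · have h3 : Real.smoothTransition ((t - c / 4) / (c / 4)) = 0 := by
        apply Real.smoothTransition.zero_of_nonpos
        exact div_nonpos_of_nonpos_of_nonneg (by linarith) (by positivity)
      simp only [h3]
      linarith
    · nlinarith
  · intro t ht
    have h3 : Real.smoothTransition ((t - c / 4) / (c / 4)) = 1 := by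
      apply Real.smoothTransition.one_of_one_le
      rw [le_div_iff₀ (by positivity)]
      linarith
    simp only [h3]
    ring

theorem B_contDiff (κ : ℝ) {m : ℕ} {G : V m → V m} (hG : ContDiff ℝ ∞ G) :
    ContDiff ℝ ∞ fun x => B κ (G x) (G x) := by
  unfold B
  have h1 := hG.fst
  have h2 := hG.snd.fst
  have h3 := hG.snd.snd
  exact ((h1.mul h1).neg.add (h2.inner ℝ h2)).add (contDiff_const.mul (h3.mul h3))

end tfaux

/-- existence of an (up to sign) equivariant smooth unit timelike field -/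
theorem exists_TF {κ : ℝ} {m : ℕ} (hκ : κ = -1 ∨ κ = 0 ∨ κ = 1) {Y : Type*} [TopologicalSpace Y]
    [T2Space Y] [ConnectedSpace Y] (P : Dev κ m Y) {Γ : Type*} [Group Γ] [MulAction Γ Y]
    [ContinuousConstSMul Γ Y] [ProperlyDiscontinuousSMul Γ Y] (H : Hol P Γ) (hK : Coc Γ Y) :
    Nonempty (TF H) := by
  classical
  obtain ⟨K, hKc, hKγ⟩ := hK
  obtain ⟨χ, S, hχs, hχ0, hS, hχS, hχK⟩ := exists_chi P K hKc
  have hp := P.continuous_p
  have hρc : ∀ γ : Γ, ContDiff ℝ ∞ (fun x : V m => H.ρ γ x) := fun γ =>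
    (LinearMap.toContinuousLinearMap (H.ρ γ).toLinearMap).contDiff
  have hρi : ∀ (γ : Γ) (x : V m), H.ρ γ⁻¹ (H.ρ γ x) = x := by
    intro γ x
    have : (H.ρ γ⁻¹ * H.ρ γ) x = x := by rw [← map_mul, inv_mul_cancel, map_one]; rfl
    exact this
  have hρi' : ∀ (γ : Γ) (x : V m), H.ρ γ (H.ρ γ⁻¹ x) = x := by
    intro γ x
    have : (H.ρ γ * H.ρ γ⁻¹) x = x := by rw [← map_mul, mul_inv_cancel, map_one]; rfl
    exact this
  have hρm : ∀ (γ δ : Γ) (x : V m), H.ρ (γ * δ) x = H.ρ γ (H.ρ δ x) := by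
    intro γ δ x
    rw [map_mul]; rfl
  -- the transported fields
  let w : Γ → Y → V m := fun γ y => H.ρ γ⁻¹ (TX κ (H.ρ γ (P.p y)))
  have hρw : ∀ γ y, H.ρ γ (w γ y) = TX κ (P.p (γ • y)) := by
    intro γ y
    show H.ρ γ (H.ρ γ⁻¹ _) = _
    rw [hρi', H.eqv]
  have hwt : ∀ γ y, Q κ (P.p y) (w γ y) = 0 := by
    intro γ y
    rw [← H.Qinv γ, hρw, ← H.eqv]
    exact TX_tan hκ (P.mem _)
  have hwn : ∀ γ y, B κ (w γ y) (w γ y) < 0 := by
    intro γ y
    rw [← H.Binv γ (P.p y) _ _ (P.mem y) (hwt γ y) (hwt γ y), hρw]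
    exact TX_neg hκ (P.mem _)
  have hb0 : ∀ γ y, B κ (w γ y) (TX κ (P.p y)) ≠ 0 := by
    intro γ y h
    have := B_nonneg_of_orth hκ (P.mem y) (TX_tan hκ (P.mem y)) (TX_neg hκ (P.mem y)) (hwt γ y) h
    linarith [hwn γ y]
  let W : Γ → Y → V m := fun γ y =>
    (if 0 < B κ (w γ y) (TX κ (P.p y)) then (-1 : ℝ) else 1) • w γ y
  have hWF : ∀ γ y, Fc κ (P.p y) (W γ y) := by
    intro γ y
    show Fc κ (P.p y) ((if 0 < B κ (w γ y) (TX κ (P.p y)) then (-1 : ℝ) else 1) • w γ y)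
    refine ⟨by rw [Q_smul_right, hwt, mul_zero], ?_, ?_⟩
    · rw [B_smul_left, B_smul_right]
      split_ifs
      · linarith [hwn γ y]
      · linarith [hwn γ y]
    · rw [B_smul_left]
      split_ifs with h
      · linarith
      · have := lt_of_le_of_ne (not_lt.mp h) (hb0 γ y)
        linarith
  have hWpm : ∀ γ y, W γ y = w γ y ∨ W γ y = -w γ y := by
    intro γ y
    show (if 0 < B κ (w γ y) (TX κ (P.p y)) then (-1 : ℝ) else 1) • w γ y = _ ∨ _
    by_cases h : 0 < B κ (w γ y) (TX κ (P.p y))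
    · right
      show (if 0 < B κ (w γ y) (TX κ (P.p y)) then (-1 : ℝ) else 1) • w γ y = _
      rw [if_pos h, neg_one_smul]
    · left; rw [if_neg h, one_smul]
  have hws : ∀ γ y, SmA P (w γ) y := fun γ y =>
    ⟨fun x => H.ρ γ⁻¹ (TX κ (H.ρ γ x)), (hρc γ⁻¹).comp ((TX_smooth κ).comp (hρc γ)),
      Filter.Eventually.of_forall fun _ => rfl⟩
  have hwc : ∀ γ, Continuous (w γ) := fun γ =>
    ((hρc γ⁻¹).continuous.comp ((TX_smooth κ).continuous.comp (hρc γ).continuous)).comp hp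
  have hbc : ∀ γ, Continuous fun y => B κ (w γ y) (TX κ (P.p y)) := by
    intro γ
    have h1 := hwc γ
    have h2 : Continuous fun y => TX κ (P.p y) := (TX_smooth κ).continuous.comp hp
    unfold B
    fun_prop
  have hWs : ∀ γ y, SmA P (W γ) y := by
    intro γ y
    by_cases h : 0 < B κ (w γ y) (TX κ (P.p y))
    · have h1 : SmA P (fun z => (-1 : ℝ) • w γ z) y :=
        SmA.smul ⟨fun _ => -1, contDiff_const, by simp⟩ (hws γ y)
      refine h1.congr ?_
      filter_upwards [(hbc γ).continuousAt.eventually (lt_mem_nhds h)] with z hz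
      show (if 0 < B κ (w γ z) (TX κ (P.p z)) then (-1 : ℝ) else 1) • w γ z = _
      rw [if_pos hz]
    · have h' : B κ (w γ y) (TX κ (P.p y)) < 0 := lt_of_le_of_ne (not_lt.mp h) (hb0 γ y)
      refine (hws γ y).congr ?_
      filter_upwards [(hbc γ).continuousAt.eventually (gt_mem_nhds h')] with z hz
      show (if 0 < B κ (w γ z) (TX κ (P.p z)) then (-1 : ℝ) else 1) • w γ z = _
      rw [if_neg (not_lt.mpr (le_of_lt hz)), one_smul]
  have hχγ : ∀ (γ : Γ) y, SmA P (fun z => χ (γ • z)) y := by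
    intro γ y
    obtain ⟨G, hG, hF⟩ := hχs (γ • y)
    refine ⟨fun x => G (H.ρ γ x), hG.comp (hρc γ), ?_⟩
    have h1 : Continuous fun z : Y => γ • z := continuous_const_smul γ
    filter_upwards [h1.continuousAt.eventually hF] with z hz
    rw [hz, H.eqv]
  -- local finiteness
  have hfin : ∀ y, ∃ Λ : Finset Γ, ∀ᶠ z in 𝓝 y, ∀ γ, χ (γ • z) ≠ 0 → γ ∈ Λ := by
    intro y
    obtain ⟨χ', L, -, -, hL, hL0, hLy⟩ := chart P y
    have hf := ProperlyDiscontinuousSMul.finite_disjoint_inter_image (Γ := Γ) hL hS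
    refine ⟨hf.toFinset, ?_⟩
    filter_upwards [hLy] with z hz γ hγ
    rw [Set.Finite.mem_toFinset]
    have hzL : z ∈ L := by
      by_contra h
      rw [hL0 z h] at hz
      exact lt_irrefl _ hz
    have hzS : γ • z ∈ S := by
      by_contra h
      exact hγ (hχS _ h)
    have : ((γ • ·) '' L ∩ S).Nonempty := ⟨γ • z, ⟨z, hzL, rfl⟩, hzS⟩
    exact this
  let T1 : Y → V m := fun y => ∑ᶠ γ : Γ, χ (γ • y) • W γ y
  have hT1sum : ∀ (y : Y) (Λ : Finset Γ), (∀ γ, χ (γ • y) ≠ 0 → γ ∈ Λ) →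
      T1 y = ∑ γ ∈ Λ, χ (γ • y) • W γ y := by
    intro y Λ hΛ
    apply finsum_eq_sum_of_support_subset
    intro γ hγ
    apply hΛ
    intro h
    apply hγ
    show χ (γ • y) • W γ y = 0
    rw [h, zero_smul]
  have hT1s : ∀ y, SmA P T1 y := by
    intro y
    obtain ⟨Λ, hΛ⟩ := hfin y
    have h1 : SmA P (fun z => ∑ γ ∈ Λ, χ (γ • z) • W γ z) y :=
      SmA.sum Λ fun γ _ => (hχγ γ y).smul (hWs γ y)
    refine h1.congr ?_
    filter_upwards [hΛ] with z hz
    exact hT1sum z Λ hz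
  have hT1F : ∀ y, Fc κ (P.p y) (T1 y) := by
    intro y
    obtain ⟨Λ, hΛ⟩ := hfin y
    have hΛy := hΛ.self_of_nhds
    rw [hT1sum y Λ hΛy]
    rcases Fc_sum hκ (P.mem y) Λ (fun γ => χ (γ • y)) (fun γ => W γ y) (fun γ => hχ0 _)
      (fun γ => hWF γ y) with h | h
    · exfalso
      obtain ⟨γ, hγ⟩ := hKγ y
      have h1 := hχK _ hγ
      exact h1.ne' (h γ (hΛy γ h1.ne'))
    · exact h
  have hT1e : ∀ (δ : Γ) y, ∃ s : ℝ, (s = 1 ∨ s = -1) ∧ T1 (δ • y) = s • H.ρ δ (T1 y) := by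
    intro δ y
    have hx := P.mem (δ • y)
    -- the sign
    have ht1 : Q κ (P.p (δ • y)) (H.ρ δ (TX κ (P.p y))) = 0 := by
      rw [H.eqv, H.Qinv]; exact TX_tan hκ (P.mem y)
    have ht2 : B κ (H.ρ δ (TX κ (P.p y))) (H.ρ δ (TX κ (P.p y))) < 0 := by
      rw [H.Binv δ _ _ _ (P.mem y) (TX_tan hκ (P.mem y)) (TX_tan hκ (P.mem y))]
      exact TX_neg hκ (P.mem y)
    have ht3 : B κ (H.ρ δ (TX κ (P.p y))) (TX κ (P.p (δ • y))) ≠ 0 := by
      intro h
      have := B_nonneg_of_orth hκ hx (TX_tan hκ hx) (TX_neg hκ hx) ht1 h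
      linarith
    obtain ⟨s, hs, hs2⟩ : ∃ s : ℝ, (s = 1 ∨ s = -1) ∧
        B κ (s • H.ρ δ (TX κ (P.p y))) (TX κ (P.p (δ • y))) < 0 := by
      rcases lt_or_gt_of_ne ht3 with h | h
      · exact ⟨1, Or.inl rfl, by rw [one_smul]; exact h⟩
      · exact ⟨-1, Or.inr rfl, by rw [B_smul_left]; linarith⟩
    have hss : s * s = 1 := by rcases hs with rfl | rfl <;> norm_num
    have hs0 : s ≠ 0 := by rcases hs with rfl | rfl <;> norm_num
    refine ⟨s, hs, ?_⟩
    -- transport of the cone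
    have hcone : ∀ v, Fc κ (P.p y) v → Fc κ (P.p (δ • y)) (s • H.ρ δ v) := by
      intro v hv
      have h1 : Q κ (P.p (δ • y)) (s • H.ρ δ v) = 0 := by
        rw [Q_smul_right, H.eqv, H.Qinv, hv.1, mul_zero]
      have h2 : B κ (s • H.ρ δ v) (s • H.ρ δ v) < 0 := by
        rw [B_smul_left, B_smul_right, H.Binv δ _ _ _ (P.mem y) hv.1 hv.1, ← mul_assoc, hss,
          one_mul]
        exact hv.2.1
      refine ⟨h1, h2, ?_⟩
      refine fut_trans (t := s • H.ρ δ (TX κ (P.p y))) hκ hx ?_ ?_ h1 h2 (TX_tan hκ hx)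
        (TX_neg hκ hx) ?_ ?_
      · rw [Q_smul_right, ht1, mul_zero]
      · rw [B_smul_left, B_smul_right, ← mul_assoc, hss, one_mul]
        exact ht2
      · rw [B_smul_left, B_smul_right, H.Binv δ _ _ _ (P.mem y) hv.1 (TX_tan hκ (P.mem y)),
          ← mul_assoc, hss, one_mul]
        exact hv.2.2
      · rw [B_comm]; exact hs2
    have hwδ : ∀ γ, w γ (δ • y) = H.ρ δ (w (γ * δ) y) := by
      intro γ
      show H.ρ γ⁻¹ (TX κ (H.ρ γ (P.p (δ • y)))) = H.ρ δ (H.ρ (γ * δ)⁻¹ (TX κ (H.ρ (γ * δ) (P.p y))))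
      rw [H.eqv, ← hρm, ← hρm]
      congr 2
      group
    have hWδ : ∀ γ, W γ (δ • y) = s • H.ρ δ (W (γ * δ) y) := by
      intro γ
      have f1 := hWF γ (δ • y)
      have f2 := hcone _ (hWF (γ * δ) y)
      -- both are ± w
      have g1 : W γ (δ • y) = w γ (δ • y) ∨ W γ (δ • y) = -w γ (δ • y) := hWpm γ (δ • y)
      have g2 : s • H.ρ δ (W (γ * δ) y) = w γ (δ • y) ∨
          s • H.ρ δ (W (γ * δ) y) = -w γ (δ • y) := by
        rcases hWpm (γ * δ) y with h | h <;> rcases hs with rfl | rfl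
        · left; rw [h, hwδ, one_smul]
        · right; rw [h, hwδ, neg_one_smul]
        · right; rw [h, hwδ, one_smul, map_neg]
        · left; rw [h, hwδ, neg_one_smul, map_neg, neg_neg]
      rcases g1 with g1 | g1 <;> rcases g2 with g2 | g2
      · rw [g1, g2]
      · exfalso
        have h1 := f1.2.2
        have h2 := f2.2.2
        rw [g1] at h1
        rw [g2, B_neg_left] at h2
        linarith
      · exfalso
        have h1 := f1.2.2
        have h2 := f2.2.2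
        rw [g1, B_neg_left] at h1
        rw [g2] at h2
        linarith
      · rw [g1, g2]
    show (∑ᶠ γ : Γ, χ (γ • δ • y) • W γ (δ • y)) = s • H.ρ δ (T1 y)
    have h1 : (fun γ : Γ => χ (γ • δ • y) • W γ (δ • y)) =
        fun γ : Γ => (fun γ' : Γ => s • H.ρ δ (χ (γ' • y) • W γ' y)) ((Equiv.mulRight δ) γ) := by
      funext γ
      show χ (γ • δ • y) • W γ (δ • y) = s • H.ρ δ (χ ((γ * δ) • y) • W (γ * δ) y)
      rw [hWδ γ, mul_smul γ δ y, (H.ρ δ).map_smul (χ (γ • δ • y)) (W (γ * δ) y), smul_comm]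
    rw [h1, finsum_comp_equiv (Equiv.mulRight δ)
      (f := fun γ' : Γ => s • H.ρ δ (χ (γ' • y) • W γ' y))]
    obtain ⟨Λ, hΛ⟩ := hfin y
    have hΛy := hΛ.self_of_nhds
    rw [hT1sum y Λ hΛy, map_sum, Finset.smul_sum]
    apply finsum_eq_sum_of_support_subset
    intro γ hγ
    apply hΛy
    intro h
    apply hγ
    show s • H.ρ δ (χ (γ • y) • W γ y) = 0
    rw [h, zero_smul, map_zero, smul_zero]
  -- normalisation
  refine ⟨{ T := fun y => (√(-B κ (T1 y) (T1 y)))⁻¹ • T1 y, sm := ?_, tan := ?_, unit := ?_,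
            eqv := ?_ }⟩
  · intro y
    obtain ⟨G, hG, hF⟩ := hT1s y
    have hc : 0 < -B κ (T1 y) (T1 y) := by linarith [(hT1F y).2.1]
    obtain ⟨h, hh1, hh2, hh3⟩ := exists_h _ hc
    refine ⟨fun x => (√(h (-B κ (G x) (G x))))⁻¹ • G x, ?_, ?_⟩
    · have h1 : ContDiff ℝ ∞ fun x => h (-B κ (G x) (G x)) := hh1.comp (B_contDiff κ hG).neg
      have h2 : ContDiff ℝ ∞ fun x => √(h (-B κ (G x) (G x))) :=
        h1.sqrt fun x => (hh2 _).ne'
      exact (h2.inv fun x => (Real.sqrt_pos.mpr (hh2 _)).ne').smul hG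
    · have hGp : G (P.p y) = T1 y := hF.self_of_nhds.symm
      have h3 : Continuous fun z : Y => -B κ (G (P.p z)) (G (P.p z)) :=
        ((B_contDiff κ hG).neg.continuous).comp hp
      have h4 : ∀ᶠ z in 𝓝 y, -B κ (T1 y) (T1 y) / 2 < -B κ (G (P.p z)) (G (P.p z)) := by
        apply h3.continuousAt.eventually
        apply lt_mem_nhds
        show -B κ (T1 y) (T1 y) / 2 < -B κ (G (P.p y)) (G (P.p y))
        rw [hGp]
        linarith
      filter_upwards [hF, h4] with z hz1 hz2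
      rw [hh3 _ hz2, hz1]
  · intro y
    rw [Q_smul_right, (hT1F y).1, mul_zero]
  · intro y
    have hc : 0 < -B κ (T1 y) (T1 y) := by linarith [(hT1F y).2.1]
    rw [B_smul_left, B_smul_right]
    have h1 := Real.mul_self_sqrt hc.le
    have h2 := (Real.sqrt_pos.mpr hc).ne'
    have h3 : ∀ s b : ℝ, s ≠ 0 → s * s = -b → s⁻¹ * (s⁻¹ * b) = -1 := by
      intro s b hs h
      have hb : b = -(s * s) := by linarith
      rw [hb]
      field_simp
    exact h3 _ _ h2 h1
  · intro γ y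
    obtain ⟨s, hs, hs'⟩ := hT1e γ y
    have h1 : B κ (T1 (γ • y)) (T1 (γ • y)) = B κ (T1 y) (T1 y) := by
      rw [hs', B_smul_left, B_smul_right, H.Binv γ _ _ _ (P.mem y) (hT1F y).1 (hT1F y).1]
      rcases hs with rfl | rfl <;> ring
    show (√(-B κ (T1 (γ • y)) (T1 (γ • y))))⁻¹ • T1 (γ • y) =
      H.ρ γ ((√(-B κ (T1 y) (T1 y)))⁻¹ • T1 y) ∨ (√(-B κ (T1 (γ • y)) (T1 (γ • y))))⁻¹ • T1 (γ • y) =
      -H.ρ γ ((√(-B κ (T1 y) (T1 y)))⁻¹ • T1 y)
    rw [h1, hs', (H.ρ γ).map_smul]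
    rcases hs with rfl | rfl
    · left; rw [one_smul]
    · right; rw [neg_one_smul, smul_neg]

end Pool.Agent.Helper107.LC
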