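import Mathlib
import Pool.Agent.Helper107.LC.Asm1
import Pool.Agent.Helper107.LC.TFex
import Pool.Agent.Helper107.LC.Ex2
import Pool.Agent.Helper107.LC.Ex3
import Pool.Agent.Helper107.LC.Ext
import Pool.Agent.Helper107.LC.NoFail
import Pool.Agent.Helper107.LC.NoFailP
import Pool.Agent.Helper107.LC.Swap
set_option autoImplicit false
open Set Filter Topology
open scoped ContDiff

namespace Pool.Agent.Helper107.LC

theorem Dev.Sm.neg {κ : ℝ} {m : ℕ} {Y : Type*} [TopologicalSpace Y] {P : Dev κ m Y} {W : Type*}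
    [NormedAddCommGroup W] [NormedSpace ℝ W] {F : Y → W} (hF : P.Sm F) : P.Sm (fun y => -F y) := by
  intro y
  obtain ⟨G, hG, h⟩ := hF y
  exact ⟨fun x => -G x, hG.neg, h.mono fun z hz => by simp [hz]⟩

/-- the opposite field -/
noncomputable def TF.neg {κ : ℝ} {m : ℕ} {Y : Type*} [TopologicalSpace Y] {P : Dev κ m Y} {Γ : Type*}
    [Group Γ] [MulAction Γ Y] {H : Hol P Γ} (TT : TF H) : TF H where
  T := fun y => -TT.T y
  sm := TT.sm.neg
  tan := fun y => by rw [Q_neg_right, TT.tan, neg_zero]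
  unit := fun y => by rw [B_neg_left, B_neg_right, neg_neg, TT.unit]
  eqv := fun γ y => by
    rcases TT.eqv γ y with h | h
    · left; rw [h, map_neg]
    · right; rw [h, map_neg]

theorem exists_exData' {κ : ℝ} {m : ℕ} (hκ : κ = -1 ∨ κ = 0 ∨ κ = 1) {Y : Type*}
    [TopologicalSpace Y] [T2Space Y] [ConnectedSpace Y] (P : Dev κ m Y) {Γ : Type*} [Group Γ]
    [MulAction Γ Y] [ContinuousConstSMul Γ Y] (H : Hol P Γ) (TT : TF H) (hK : Coc Γ Y) :
    Nonempty (ExData TT) :=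
  exists_exData hκ P H TT hK (bd_dT hκ P H TT hK) (exists_uniform_lift hκ P H TT hK)

theorem ray_continuous {κ : ℝ} {m : ℕ} (hκ : κ = -1 ∨ κ = 0 ∨ κ = 1) (x u : V m) :
    Continuous (ray κ x u) :=
  continuous_iff_continuousAt.mpr fun t => (hasDerivAt_ray hκ x u t).continuousAt

theorem TC_of_no_fail {κ : ℝ} {m : ℕ} (hκ : κ = -1 ∨ κ = 0 ∨ κ = 1) {Y : Type*}
    [TopologicalSpace Y] [T2Space Y] [ConnectedSpace Y] (P : Dev κ m Y) {Γ : Type*} [Group Γ]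
    [MulAction Γ Y] [ContinuousConstSMul Γ Y] [ProperlyDiscontinuousSMul Γ Y] (H : Hol P Γ)
    (hK : Coc Γ Y)
    (hnf : ∀ (TT : TF H) (_ : ExData TT) (y0 : Y) (u0 : V m) (b0 : ℝ) (ν0 : V m),
      P.FailsAt TT.T y0 u0 b0 ν0 → P.Fut TT.T y0 u0 → False) : P.TC := by
  obtain ⟨TT⟩ := exists_TF hκ P H hK
  intro y u hu huu b hb
  by_contra hnl
  rcases Dev.lift_dichotomy P y (ray κ (P.p y) u) (ray_continuous hκ _ _)
    (fun t => ray_mem hκ (P.mem y) hu huu t) (ray_zero hκ _ _) with h | ⟨b1, hb1, σ, hσ, h0, hl, hn⟩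
  · exact hnl (h b hb)
  · have h1 := one_le_sq_B hκ (P.mem y) (TT.tan y) (TT.unit y) hu huu
    rcases lt_trichotomy (B κ u (TT.T y)) 0 with h | h | h
    · obtain ⟨D⟩ := exists_exData' hκ P H TT hK
      have hF : P.Fut TT.T y u := ⟨hu, huu, h⟩
      obtain ⟨ν, hν⟩ := Dev.failsAt_of_not_tendsto hκ P D hF hb1 σ hσ h0 hl hn
      exact hnf TT D y u b1 ν hν hF
    · rw [h] at h1; norm_num at h1
    · obtain ⟨D⟩ := exists_exData' hκ P H TT.neg hK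
      have hF : P.Fut TT.neg.T y u := ⟨hu, huu, by
        show B κ u (-TT.T y) < 0
        rw [B_neg_right]; linarith⟩
      obtain ⟨ν, hν⟩ := Dev.failsAt_of_not_tendsto hκ P D hF hb1 σ hσ h0 hl hn
      exact hnf TT.neg D y u b1 ν hν hF

theorem PC_of_TC {κ : ℝ} {m : ℕ} (hκ : κ = -1 ∨ κ = 0 ∨ κ = 1) {Y : Type*}
    [TopologicalSpace Y] [T2Space Y] (P : Dev κ m Y) (h : P.TC) : P.PC :=
  fun c _ _ hab hc _ hlim => Dev.tendsto_of_TC hκ P h c hab hc hlim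

theorem path_conv {κ : ℝ} {m : ℕ} (hκ : κ = -1 ∨ κ = 0 ∨ κ = 1) (hm : 1 ≤ m) {Y : Type*}
    [TopologicalSpace Y] [T2Space Y] [ConnectedSpace Y] (P : Dev κ m Y) {Γ : Type*} [Group Γ]
    [MulAction Γ Y] [ContinuousConstSMul Γ Y] [ProperlyDiscontinuousSMul Γ Y]
    (hfree : ∀ (γ : Γ) (y : Y), γ • y = y → γ = 1) (H : Hol P Γ) (hK : Coc Γ Y) : P.PC := by
  rcases hκ with h | h | h
  · refine PC_of_TC (Or.inl h) P (TC_of_no_fail (Or.inl h) P H hK ?_)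
    intro TT D y0 u0 b0 ν0 hF hu
    exact Dev.no_fail (Or.inl h) P hfree hK D hF hu
  · refine PC_of_TC (Or.inr (Or.inl h)) P (TC_of_no_fail (Or.inr (Or.inl h)) P H hK ?_)
    intro TT D y0 u0 b0 ν0 hF hu
    exact Dev.no_fail (Or.inr h) P hfree hK D hF hu
  · subst h
    rcases Nat.lt_or_ge m 2 with hm2 | hm2
    · obtain rfl : m = 1 := by omega
      obtain ⟨P', ⟨H'⟩, hPC⟩ := Dev.exists_swap P H
      apply hPC
      refine PC_of_TC (Or.inl rfl) P' (TC_of_no_fail (Or.inl rfl) P' H' hK ?_)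
      intro TT D y0 u0 b0 ν0 hF hu
      exact Dev.no_fail (Or.inl rfl) P' hfree hK D hF hu
    · refine PC_of_TC (Or.inr (Or.inr rfl)) P (TC_of_no_fail (Or.inr (Or.inr rfl)) P H hK ?_)
      intro TT D y0 u0 b0 ν0 hF hu
      exact Dev.no_fail_pos hm2 P hfree hK D hF hu

/-- completeness of all metrics `e^{2f} g₀` -/
theorem conformal_complete {κ : ℝ} {m : ℕ} (hκ : κ = -1 ∨ κ = 0 ∨ κ = 1) (hm : 1 ≤ m) {Y : Type*}
    [TopologicalSpace Y] [T2Space Y] [ConnectedSpace Y] (P : Dev κ m Y) {Γ : Type*} [Group Γ]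
    [MulAction Γ Y] [ContinuousConstSMul Γ Y] [ProperlyDiscontinuousSMul Γ Y]
    (hfree : ∀ (γ : Γ) (y : Y), γ • y = y → γ = 1) (H : Hol P Γ) (hK : Coc Γ Y)
    (f : Y → ℝ) (hf : P.Sm f) (hinv : ∀ (γ : Γ) y, f (γ • y) = f y)
    (c : ℝ → Y) (a b : ℝ) (hab : a < b) (hc : P.IsGeod f c (Ioo a b)) :
    ∃ c' : ℝ → Y, P.IsGeod f c' univ ∧ EqOn c' c (Ioo a b) := by
  obtain ⟨TT⟩ := exists_TF hκ P H hK
  have hPC := path_conv hκ hm P hfree H hK
  refine Dev.geod_complete_of_extend P f ?_ c a b hab hc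
  intro c a b hab hc
  have hs0 : a < (a + b) / 2 := by linarith
  have hs0b : (a + b) / 2 < b := by linarith
  obtain ⟨M, hM⟩ := Dev.IsGeod.velocity_bounded hκ P TT hK hf hinv c hc hs0 hs0b
  have hxd : ∀ s ∈ Ico ((a + b) / 2) b, HasDerivAt (P.p ∘ c) (deriv (P.p ∘ c) s) s := fun s hs =>
    (hc.2 s ⟨lt_of_lt_of_le hs0 hs.1, hs.2⟩).1.hasDerivAt
  obtain ⟨x₁, hx₁⟩ := tendsto_of_bdd_deriv hs0b hxd M hM
  obtain ⟨y₁, hy₁⟩ := hPC c ((a + b) / 2) b hs0b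
    (hc.1.mono fun s hs => ⟨lt_of_lt_of_le hs0 hs.1, hs.2⟩) x₁ hx₁
  exact Dev.IsGeod.extend_right hκ P hf c hab hc hy₁ M hs0b (fun t ht _ => hM t ht)

end Pool.Agent.Helper107.LC
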