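import Mathlib
import Pool.Agent.Helper107.LC.Asm2
set_option autoImplicit false
open Set Filter Topology
open scoped ContDiff

namespace Pool.Agent.Helper107.LC

/-- right extension from an arbitrary open interval -/
theorem Dev.extend_right_interval {κ : ℝ} {m : ℕ} {Y : Type*}
    [TopologicalSpace Y] (P : Dev κ m Y) (f : Y → ℝ)
    (hext : ∀ (c : ℝ → Y) (a b : ℝ), a < b → P.IsGeod f c (Ioo a b) →
      ∃ b' > b, ∃ c' : ℝ → Y, P.IsGeod f c' (Ioo a b') ∧ EqOn c' c (Ioo a b))
    (c : ℝ → Y) (I : Set ℝ) (hI : IsOpen I) (hIc : I.OrdConnected) (t0 : ℝ) (ht0 : t0 ∈ I)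
    (hc : P.IsGeod f c I) :
    ∃ c' : ℝ → Y, P.IsGeod f c' (I ∪ Ioi t0) ∧ EqOn c' c I := by
  classical
  by_cases hb : BddAbove I
  · have hlub := isLUB_csSup ⟨t0, ht0⟩ hb
    set b := sSup I with hbdef
    have hlt : ∀ t ∈ I, t < b := by
      intro t ht
      obtain ⟨ε, hε, hball⟩ := Metric.isOpen_iff.mp hI t ht
      have : t + ε / 2 ∈ I := hball (by
        rw [Metric.mem_ball, Real.dist_eq]; rw [show t + ε / 2 - t = ε / 2 by ring, abs_of_pos (by linarith)]
        linarith)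
      have := hlub.1 this
      linarith
    have hsub : Ioo t0 b ⊆ I := by
      intro t ht
      obtain ⟨s, hs, hts, -⟩ := hlub.exists_between ht.2
      exact hIc.out ht0 hs ⟨ht.1.le, hts.le⟩
    have hc0 : P.IsGeod f c (Ioo t0 b) := ⟨hc.1.mono hsub, fun t ht => hc.2 t (hsub ht)⟩
    obtain ⟨c1, hc1, he1⟩ := P.extend_right f hext c t0 b (hlt t0 ht0) hc0
    have hc1' := (P.isGeod_iff isOpen_Ioi).1 hc1
    have hcI := (P.isGeod_iff hI).1 hc
    set c2 : ℝ → Y := fun t => if t < b then c t else c1 t with hc2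
    have h2I : ∀ t, t < b → c2 t = c t := fun t ht => by simp only [hc2]; rw [if_pos ht]
    have h21 : ∀ t, t0 < t → c2 t = c1 t := by
      intro t ht
      simp only [hc2]
      split_ifs with h
      · exact (he1 ⟨ht, h⟩).symm
      · rfl
    refine ⟨c2, ?_, fun t ht => h2I t (hlt t ht)⟩
    rw [P.isGeod_iff (hI.union isOpen_Ioi)]
    rintro t (ht | ht)
    · refine P.GAt_congr ?_ (hcI t ht)
      filter_upwards [hI.mem_nhds ht] with s hs
      exact (h2I s (hlt s hs)).symm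
    · refine P.GAt_congr ?_ (hc1' t ht)
      filter_upwards [isOpen_Ioi.mem_nhds ht] with s hs
      exact (h21 s hs).symm
  · have : Ioi t0 ⊆ I := by
      intro t ht
      rw [not_bddAbove_iff] at hb
      obtain ⟨s, hs, hts⟩ := hb t
      exact hIc.out ht0 hs ⟨le_of_lt ht, hts.le⟩
    rw [union_eq_self_of_subset_right this]
    exact ⟨c, hc, fun _ _ => rfl⟩

theorem Dev.geod_complete_interval {κ : ℝ} {m : ℕ} {Y : Type*}
    [TopologicalSpace Y] (P : Dev κ m Y) (f : Y → ℝ)
    (hext : ∀ (c : ℝ → Y) (a b : ℝ), a < b → P.IsGeod f c (Ioo a b) →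
      ∃ b' > b, ∃ c' : ℝ → Y, P.IsGeod f c' (Ioo a b') ∧ EqOn c' c (Ioo a b))
    (c : ℝ → Y) (I : Set ℝ) (hI : IsOpen I) (hIc : I.OrdConnected) (hne : I.Nonempty)
    (hc : P.IsGeod f c I) :
    ∃ c' : ℝ → Y, P.IsGeod f c' univ ∧ EqOn c' c I := by
  classical
  obtain ⟨t0, ht0⟩ := hne
  obtain ⟨c1, hc1, he1⟩ := P.extend_right_interval f hext c I hI hIc t0 ht0 hc
  have hI1 : IsOpen (I ∪ Ioi t0) := hI.union isOpen_Ioi
  have hI1c : (I ∪ Ioi t0).OrdConnected := by
    refine ⟨?_⟩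
    intro x hx y hy z hz
    rcases lt_or_ge t0 z with h | h
    · exact Or.inr h
    · left
      rcases hx with hx | hx
      · exact hIc.out hx ht0 ⟨hz.1, h⟩
      · exact absurd (lt_of_lt_of_le (show t0 < x from hx) (hz.1.trans h)) (lt_irrefl _)
  set J : Set ℝ := (fun s : ℝ => -s) ⁻¹' (I ∪ Ioi t0) with hJ
  have hJo : IsOpen J := hI1.preimage continuous_neg
  have hJc : J.OrdConnected := hI1c.preimage_anti (fun a b h => neg_le_neg h)
  have hc2 : P.IsGeod f (fun s => c1 (-s)) J := by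
    rw [P.isGeod_iff hJo]
    intro t ht
    exact P.GAt_neg ((P.isGeod_iff hI1).1 hc1 (-t) ht)
  have ht0' : -t0 ∈ J := by
    show - -t0 ∈ I ∪ Ioi t0
    rw [neg_neg]; exact Or.inl ht0
  obtain ⟨c3, hc3, he3⟩ := P.extend_right_interval f hext _ J hJo hJc (-t0) ht0' hc2
  refine ⟨fun t => c3 (-t), ?_, ?_⟩
  · rw [P.isGeod_iff isOpen_univ]
    intro t _
    refine P.GAt_neg ((P.isGeod_iff (hJo.union isOpen_Ioi)).1 hc3 (-t) ?_)
    rcases lt_or_ge t0 t with h | h
    · left
      show - -t ∈ I ∪ Ioi t0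
      rw [neg_neg]; exact Or.inr h
    · rcases eq_or_lt_of_le h with h' | h'
      · left; rw [h']; exact ht0'
      · right; show -t0 < -t; linarith
  · intro t ht
    have h1 : -t ∈ J := by
      show - -t ∈ I ∪ Ioi t0
      rw [neg_neg]; exact Or.inl ht
    have := he3 h1
    simp only [neg_neg] at this
    rw [show (fun t => c3 (-t)) t = c3 (-t) from rfl, this]
    exact he1 ht

/-- cocompactness from compactness of the orbit space -/
theorem coc_of_compact {κ : ℝ} {m : ℕ} {Y : Type*} [TopologicalSpace Y] (P : Dev κ m Y)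
    {Γ : Type*} [Group Γ] [MulAction Γ Y] [ContinuousConstSMul Γ Y]
    (hM : CompactSpace (MulAction.orbitRel.Quotient Γ Y)) : Coc Γ Y := by
  have hXc : IsClosed (X κ m) := by
    have hc : Continuous fun x : V m => Q κ x x := by
      unfold Q
      fun_prop
    exact isClosed_eq hc continuous_const
  have : LocallyCompactSpace (X κ m) := hXc.isClosedEmbedding_subtypeVal.locallyCompactSpace
  have hcn : ∀ y : Y, ∃ K : Set Y, IsCompact K ∧ K ∈ 𝓝 y := by
    intro y
    obtain ⟨e, hy, he⟩ := P.lh y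
    have h1 : e.target ∈ 𝓝 (e y) := e.open_target.mem_nhds (e.map_source hy)
    obtain ⟨K, hK1, hK2, hK3⟩ := local_compact_nhds h1
    refine ⟨e.symm '' K, hK3.image_of_continuousOn (e.continuousOn_symm.mono hK2), ?_⟩
    have h2 : e.symm '' K = e.source ∩ e ⁻¹' K := by
      rw [e.symm_image_eq_source_inter_preimage hK2]
    rw [h2]
    exact Filter.inter_mem (e.open_source.mem_nhds hy) ((e.continuousAt hy).preimage_mem_nhds hK1)
  choose K hKc hKn using hcn
  let π : Y → MulAction.orbitRel.Quotient Γ Y := Quotient.mk _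
  have hopen : IsOpenMap π := isOpenMap_quotient_mk'_mul
  have hcov : (univ : Set (MulAction.orbitRel.Quotient Γ Y)) ⊆ ⋃ y, π '' (interior (K y)) := by
    intro q _
    obtain ⟨y, rfl⟩ := Quotient.exists_rep q
    exact mem_iUnion.mpr ⟨y, ⟨y, mem_interior_iff_mem_nhds.mpr (hKn y), rfl⟩⟩
  obtain ⟨s, hs⟩ := isCompact_univ.elim_finite_subcover _ (fun y => hopen _ isOpen_interior) hcov
  refine ⟨⋃ y ∈ s, K y, s.isCompact_biUnion fun y _ => hKc y, ?_⟩
  intro y
  have := hs (mem_univ (π y))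
  simp only [mem_iUnion] at this
  obtain ⟨z, hz, w, hw, hwy⟩ := this
  have hrel : (MulAction.orbitRel Γ Y).r w y := Quotient.exact hwy
  obtain ⟨γ, hγ⟩ := hrel
  refine ⟨γ, mem_biUnion hz ?_⟩
  have : γ • y = w := hγ
  rw [this]
  exact interior_subset hw

end Pool.Agent.Helper107.LC
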