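import Mathlib
import Pool.Agent.Helper107.LC.Base
set_option autoImplicit false
open Set Filter Topology
open scoped ContDiff Manifold

/-!
Smooth Lorentzian metrics, curvature and geodesics on a manifold, in local coordinates.
`R m = EuclideanSpace ℝ (Fin (m+1))`.
-/
namespace Pool.Agent.Helper107.LC

/-- directional derivatives -/
noncomputable def DR {m : ℕ} (F : R m → ℝ) (y a : R m) : ℝ := deriv (fun s : ℝ => F (y + s • a)) 0
noncomputable def DV {m : ℕ} (F : R m → R m) (y a : R m) : R m := deriv (fun s : ℝ => F (y + s • a)) 0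

/-- `F` is smooth on `O` -/
def SmoothR {m : ℕ} (O : Set (R m)) (F : R m → ℝ) : Prop := ContDiffOn ℝ ∞ F O

/-- `β` is a symmetric bilinear form -/
def IsSymBil {m : ℕ} (β : R m → R m → ℝ) : Prop :=
  (∀ v, IsLinearMap ℝ fun u => β u v) ∧ ∀ u v, β u v = β v u

/-- `β` has signature `(-,+,...,+)`: there are `m+1` vectors `b_i` with `β(b_i,b_j) = ±δ_ij`, with sign
`-` only for `i=j=0` -/
def IsLor {m : ℕ} (β : R m → R m → ℝ) : Prop :=
  ∃ b : Fin (m + 1) → R m, ∀ i j, β (b i) (b j) = if i = j then (if i = 0 then -1 else 1) else 0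

/-- `G` is a smooth Lorentzian metric on the open set `O` of `ℝ^{m+1}`; `G y u v = g_y(u,v)` -/
def LMetric {m : ℕ} (O : Set (R m)) (G : R m → R m → R m → ℝ) : Prop :=
  (∀ u v, SmoothR O fun y => G y u v) ∧ ∀ y ∈ O, IsSymBil (G y) ∧ IsLor (G y)

/-- `C y u v` are the Christoffel symbols of `G` (Koszul formula for constant vector fields) -/
def IsChristoffel {m : ℕ} (O : Set (R m)) (G : R m → R m → R m → ℝ) (C : R m → R m → R m → R m) : Prop :=
  ∀ y ∈ O, ∀ u v w, 2 * G y (C y u v) w =
    DR (fun z => G z v w) y u + DR (fun z => G z u w) y v - DR (fun z => G z u v) y w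

/-- the curvature tensor `R(u,v)w` computed from the Christoffel symbols -/
noncomputable def Riem {m : ℕ} (C : R m → R m → R m → R m) (y u v w : R m) : R m :=
  DV (fun z => C z v w) y u - DV (fun z => C z u w) y v + C y u (C y v w) - C y v (C y u w)

/-- the metric `G` on `O` has constant sectional curvature `K`: `R(u,v)w = K (g(v,w)u - g(u,w)v)` -/
def ConstCurv {m : ℕ} (K : ℝ) (O : Set (R m)) (G : R m → R m → R m → ℝ) : Prop :=
  ∃ C, IsChristoffel O G C ∧ ∀ y ∈ O, ∀ u v w, Riem C y u v w = K • (G y v w • u - G y u w • v)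

section mfd
variable {m : ℕ} {M : Type*} [TopologicalSpace M]

/-- change of coordinates of a metric from the chart `e'` to the chart `e` -/
def Compat (e e' : OpenPartialHomeomorph M (R m)) (G G' : R m → R m → R m → ℝ) : Prop :=
  ∀ x ∈ e.source ∩ e'.source, ∀ u v,
    G (e x) u v = G' (e' x) (DV (e' ∘ e.symm) (e x) u) (DV (e' ∘ e.symm) (e x) v)

/-- a smooth Lorentzian metric on the manifold `M`: coordinate expressions `G e` in the charts `e` of the
atlas, transforming as a tensor -/
structure LorentzMetric (m : ℕ) (M : Type*) [TopologicalSpace M] [ChartedSpace (R m) M] where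
  G : OpenPartialHomeomorph M (R m) → R m → R m → R m → ℝ
  metric : ∀ e ∈ atlas (R m) M, LMetric e.target (G e)
  compat : ∀ e ∈ atlas (R m) M, ∀ e' ∈ atlas (R m) M, Compat e e' (G e) (G e')

/-- `y : ℝ → ℝ^{m+1}` is twice differentiable at `t`, with first derivative `v` near `t` and second
derivative `a` at `t` -/
def Deriv2 {m : ℕ} (y v : ℝ → R m) (a : R m) (t : ℝ) : Prop :=
  (∀ᶠ s in 𝓝 t, HasDerivAt y (v s) s) ∧ HasDerivAt v a t

/-- geodesic equation at a point `y` with velocity `v`, acceleration `a`: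
`g(a,w) + D_v g(v,w) = D_w g(v,v) / 2`, i.e. `a + Γ(v,v) = 0` -/
def GeodEq {m : ℕ} (G : R m → R m → R m → ℝ) (y v a : R m) : Prop :=
  ∀ w, G y a w + DR (fun z => G z v w) y v = (1 / 2) * DR (fun z => G z v v) y w

variable [ChartedSpace (R m) M]

/-- `c` is a geodesic on `I` (any causal type, affine parameter) -/
def LorentzMetric.IsGeodesic (g : LorentzMetric m M) (c : ℝ → M) (I : Set ℝ) : Prop :=
  ContinuousOn c I ∧ ∀ t ∈ I, ∀ e ∈ atlas (R m) M, c t ∈ e.source →
    ∃ v a, Deriv2 (e ∘ c) v a t ∧ GeodEq (g.G e) (e (c t)) (v t) a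

/-- smooth function on `M` -/
def SmoothFun (m : ℕ) {M : Type*} [TopologicalSpace M] [ChartedSpace (R m) M] (f : M → ℝ) : Prop :=
  ContMDiff (𝓡 (m + 1)) 𝓘(ℝ, ℝ) ∞ f

/-- the metric `e^{2f} g` has constant sectional curvature `K` -/
def LorentzMetric.ConfConst (g : LorentzMetric m M) (f : M → ℝ) (K : ℝ) : Prop :=
  ∀ e ∈ atlas (R m) M,
    ConstCurv K e.target fun y u v => Real.exp (2 * f (e.symm y)) * g.G e y u v
end mfd

end Pool.Agent.Helper107.LC
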