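import Mathlib
import Pool.Agent.Helper107.LC.MDefs
set_option autoImplicit false
open Set Filter Topology
open scoped ContDiff Manifold

namespace Pool.Agent.Helper107.LC

/-- local theory: a metric of constant curvature `κ` in coordinates -/
structure CCMetric (κ : ℝ) (m : ℕ) (O : Set (R m)) (G : R m → R m →L[ℝ] R m →L[ℝ] ℝ)
    (C : R m → R m →L[ℝ] R m →L[ℝ] R m) : Prop where
  isOpen : IsOpen O
  smooth : ContDiffOn ℝ ∞ G O
  symm : ∀ y ∈ O, ∀ u v, G y u v = G y v u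
  /-- Lorentzian signature -/
  lorentz : ∀ y ∈ O, ∃ b : Module.Basis (Fin (m + 1)) ℝ (R m), ∀ i j,
    G y (b i) (b j) = if i = j then (if i = 0 then -1 else 1) else 0
  smoothC : ContDiffOn ℝ ∞ C O
  /-- `C` are the Christoffel symbols -/
  christoffel : ∀ y ∈ O, ∀ u v w, 2 * G y (C y u v) w =
    (fderiv ℝ G y u) v w + (fderiv ℝ G y v) u w - (fderiv ℝ G y w) u v
  /-- constant sectional curvature: `R(u,v)w = κ (G(v,w) u - G(u,w) v)` -/
  curv : ∀ y ∈ O, ∀ u v w,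
    (fderiv ℝ C y u) v w - (fderiv ℝ C y v) u w + C y u (C y v w) - C y v (C y u w)
      = κ • (G y v w • u - G y u w • v)

/-- linear automorphisms inducing an isometry of the model space -/
def IsIso (κ : ℝ) {m : ℕ} (A : V m ≃ₗ[ℝ] V m) : Prop :=
  (∀ v w, Q κ (A v) (A w) = Q κ v w) ∧
  ∀ x ∈ X κ m, ∀ v w, Q κ x v = 0 → Q κ x w = 0 → B κ (A v) (A w) = B κ v w

/-- `Φ` is a smooth local isometry from the metric `G` near `y` to the model space -/
def LocIso (κ : ℝ) {m : ℕ} (G : R m → R m → R m → ℝ) (Φ : R m → V m) (y : R m) : Prop :=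
  ∀ᶠ z in 𝓝 y, ContDiffAt ℝ ∞ Φ z ∧ Φ z ∈ X κ m ∧
    ∀ u v, B κ (fderiv ℝ Φ z u) (fderiv ℝ Φ z v) = G z u v

end Pool.Agent.Helper107.LC
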