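import Mathlib
import Pool.Agent.Helper107.LC.MDefs2
set_option autoImplicit false
open Set Filter Topology
open scoped ContDiff Manifold

namespace Pool.Agent.Helper107.LC

theorem IsIso.mem {κ : ℝ} {m : ℕ} {A : V m ≃ₗ[ℝ] V m} (hA : IsIso κ A) {x : V m} (hx : x ∈ X κ m) :
    A x ∈ X κ m := by
  show Q κ (A x) (A x) = 1
  rw [hA.1]; exact hx

theorem IsIso.symm {κ : ℝ} {m : ℕ} {A : V m ≃ₗ[ℝ] V m} (hA : IsIso κ A) : IsIso κ A.symm := by
  have h1 : ∀ v w, Q κ (A.symm v) (A.symm w) = Q κ v w := by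
    intro v w
    rw [← hA.1, A.apply_symm_apply, A.apply_symm_apply]
  refine ⟨h1, ?_⟩
  intro x hx v w hv hw
  have hx' : A.symm x ∈ X κ m := by
    show Q κ (A.symm x) (A.symm x) = 1
    rw [h1]; exact hx
  have := hA.2 (A.symm x) hx' (A.symm v) (A.symm w) (by rw [h1]; exact hv) (by rw [h1]; exact hw)
  rw [A.apply_symm_apply, A.apply_symm_apply] at this
  exact this.symm

theorem IsIso.mul {κ : ℝ} {m : ℕ} {A A' : V m ≃ₗ[ℝ] V m} (hA : IsIso κ A) (hA' : IsIso κ A') :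
    IsIso κ (A * A') := by
  refine ⟨fun v w => ?_, fun x hx v w hv hw => ?_⟩
  · show Q κ (A (A' v)) (A (A' w)) = _
    rw [hA.1, hA'.1]
  · show B κ (A (A' v)) (A (A' w)) = _
    rw [hA.2 (A' x) (hA'.mem hx) _ _ (by rw [hA'.1]; exact hv) (by rw [hA'.1]; exact hw),
      hA'.2 x hx v w hv hw]

/-- the isometry group of the model space -/
def IsoG (κ : ℝ) (m : ℕ) : Subgroup (V m ≃ₗ[ℝ] V m) where
  carrier := {A | IsIso κ A}
  mul_mem' := fun ha hb => IsIso.mul ha hb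
  one_mem' := ⟨fun _ _ => rfl, fun _ _ _ _ _ _ => rfl⟩
  inv_mem' := fun ha => IsIso.symm ha

instance {κ : ℝ} {m : ℕ} : MulAction (IsoG κ m) (X κ m) where
  smul A x := ⟨A.1 x.1, IsIso.mem A.2 x.2⟩
  one_smul x := rfl
  mul_smul A A' x := rfl

theorem IsoG.smul_coe {κ : ℝ} {m : ℕ} (A : IsoG κ m) (x : X κ m) : ((A • x : X κ m) : V m) = A.1 x.1 := rfl

instance {κ : ℝ} {m : ℕ} : ContinuousConstSMul (IsoG κ m) (X κ m) where
  continuous_const_smul A := by
    refine Continuous.subtype_mk ?_ _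
    have h : Continuous (A.1 : V m → V m) :=
      LinearMap.continuous_of_finiteDimensional (A.1 : V m →ₗ[ℝ] V m)
    exact h.comp continuous_subtype_val

end Pool.Agent.Helper107.LC
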