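import Mathlib
set_option autoImplicit false
open Set Filter Topology
open scoped ContDiff Manifold

namespace Pool.Agent.Helper107.LC

universe u v w
theorem zag1_uniq {M : Type u} {X' : Type v} {G0 : Type w} [TopologicalSpace M]
    [Group G0] [MulAction G0 X']
    (Adm : (M → X') → M → Prop)
    (h_free : ∀ φ x (g : G0), Adm φ x → ((fun x' => g • φ x') =ᶠ[𝓝 x] φ) → g = 1)
    (φ : M → X') (x : M) (hφ : Adm φ x) (g g' : G0)
    (h : (fun x' => g • φ x') =ᶠ[𝓝 x] fun x' => g' • φ x') : g = g' := by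
  have h1 : (fun x' => (g'⁻¹ * g) • φ x') =ᶠ[𝓝 x] φ := by
    filter_upwards [h] with y hy
    rw [mul_smul, hy, inv_smul_smul]
  have h2 := h_free φ x _ hφ h1
  rw [inv_mul_eq_one] at h2
  exact h2.symm

/-- the bundle core -/
noncomputable def zag1_Z {M : Type u} {G0 : Type w} [TopologicalSpace M] [Group G0]
    [TopologicalSpace G0] [DiscreteTopology G0] (U : M → Set M) (hUo : ∀ i, IsOpen (U i))
    (hUm : ∀ i, i ∈ U i) (gg : M → M → M → G0) (h1 : ∀ i, ∀ x ∈ U i, gg i i x = 1)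
    (h2 : ∀ i j k, ∀ x ∈ U i ∩ U j ∩ U k, gg i j x * gg j k x = gg i k x)
    (h3 : ∀ i j, ∀ x ∈ U i ∩ U j, ∀ᶠ y in 𝓝 x, y ∈ U i ∩ U j → gg i j y = gg i j x) :
    FiberBundleCore M M G0 where
  baseSet := U
  isOpen_baseSet := hUo
  indexAt := id
  mem_baseSet_at := hUm
  coordChange i j x A := A * gg i j x
  coordChange_self i x hx v := by rw [h1 i x hx, mul_one]
  continuousOn_coordChange i j := by
    rintro ⟨x, A⟩ hxA
    have hx : x ∈ U i ∩ U j := hxA.1
    have hc : ContinuousWithinAt (fun p : M × G0 => p.2 * gg i j x)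
        ((U i ∩ U j) ×ˢ univ) (x, A) := by
      have hcc : Continuous (fun p : M × G0 => p.2 * gg i j x) :=
        (continuous_of_discreteTopology (f := fun B : G0 => B * gg i j x)).comp continuous_snd
      exact hcc.continuousWithinAt
    refine hc.congr_of_eventuallyEq ?_ rfl
    have h4 : ∀ᶠ p : M × G0 in 𝓝 (x, A), p.1 ∈ U i ∩ U j → gg i j p.1 = gg i j x :=
      (continuous_fst.tendsto (x, A)).eventually (h3 i j x hx)
    filter_upwards [mem_nhdsWithin_of_mem_nhds h4, self_mem_nhdsWithin] with p hp hp2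
    show p.2 * gg i j p.1 = p.2 * gg i j x
    rw [hp hp2.1]
  coordChange_comp i j k x hx v := by
    show v * gg i j x * gg j k x = v * gg i k x
    rw [mul_assoc, h2 i j k x hx]

/-- the fibre coordinate -/
def zag1_c {M : Type u} {G0 : Type w} [TopologicalSpace M] [TopologicalSpace G0]
    (Z : FiberBundleCore M M G0) (e : Z.TotalSpace) : G0 := e.2

/-- a point of the total space -/
def zag1_m {M : Type u} {G0 : Type w} [TopologicalSpace M] [TopologicalSpace G0]
    (Z : FiberBundleCore M M G0) (x : M) (A : G0) : Z.TotalSpace := ⟨x, A⟩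

theorem zag1_mc {M : Type u} {G0 : Type w} [TopologicalSpace M] [TopologicalSpace G0]
    (Z : FiberBundleCore M M G0) (e : Z.TotalSpace) : zag1_m Z e.1 (zag1_c Z e) = e := rfl

theorem zag1_inj {M : Type u} {G0 : Type w} [TopologicalSpace M] [TopologicalSpace G0]
    (Z : FiberBundleCore M M G0) (x : M) (A B : G0) (h : zag1_m Z x A = zag1_m Z x B) : A = B :=
  congrArg (zag1_c Z) h

theorem zag1_main {M : Type u} {X' : Type v} {G0 : Type w} [TopologicalSpace M]
    [TopologicalSpace X'] [Group G0] [MulAction G0 X'] [ContinuousConstSMul G0 X']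
    [TopologicalSpace G0] [DiscreteTopology G0]
    (Adm : (M → X') → M → Prop)
    (h_smul : ∀ (g : G0) φ x, Adm φ x → Adm (fun x' => g • φ x') x)
    (h_free : ∀ φ x (g : G0), Adm φ x → ((fun x' => g • φ x') =ᶠ[𝓝 x] φ) → g = 1)
    (h_lh : ∀ φ x, Adm φ x → ∃ e : OpenPartialHomeomorph M X', x ∈ e.source ∧ EqOn φ e e.source)
    (φ : M → M → X') (U : M → Set M) (hUo : ∀ i, IsOpen (U i)) (hUm : ∀ i, i ∈ U i)
    (hA : ∀ i, ∀ x ∈ U i, Adm (φ i) x) (gg : M → M → M → G0)
    (hgg : ∀ i j x, x ∈ U i ∩ U j → φ i =ᶠ[𝓝 x] fun x' => gg i j x • φ j x') :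
    ∃ (E : Type (max u w)) (_ : TopologicalSpace E) (_ : MulAction G0 E) (π : E → M) (p : E → X'),
      ContinuousConstSMul G0 E ∧ IsCoveringMap π ∧ Function.Surjective π ∧ IsLocalHomeomorph p ∧
      (∀ (g : G0) (e : E), p (g • e) = g • p e) ∧ (∀ (g : G0) (e : E), π (g • e) = π e) ∧
      (∀ (g : G0) (e : E), g • e = e → g = 1) ∧ (∀ e e' : E, π e = π e' → ∃ g : G0, g • e = e') ∧
      ∀ e : E, ∃ φ, Adm φ (π e) ∧ ∀ᶠ e' in 𝓝 e, p e' = φ (π e') := by
  have u1 : ∀ i, ∀ x ∈ U i, gg i i x = 1 := fun i x hx =>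
    h_free (φ i) x _ (hA i x hx) (hgg i i x ⟨hx, hx⟩).symm
  have u2 : ∀ i j k, ∀ x ∈ U i ∩ U j ∩ U k, gg i j x * gg j k x = gg i k x := by
    intro i j k x hx
    apply zag1_uniq Adm h_free (φ k) x (hA k x hx.2)
    filter_upwards [hgg i j x hx.1, hgg j k x ⟨hx.1.2, hx.2⟩, hgg i k x ⟨hx.1.1, hx.2⟩]
      with y y1 y2 y3
    rw [mul_smul, ← y2, ← y1, y3]
  have u3 : ∀ i j, ∀ x ∈ U i ∩ U j, ∀ᶠ y in 𝓝 x, y ∈ U i ∩ U j → gg i j y = gg i j x := by
    intro i j x hx
    have h := eventually_eventually_nhds.2 (hgg i j x hx)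
    filter_upwards [h] with y hy hyU
    apply zag1_uniq Adm h_free (φ j) y (hA j y hyU.2)
    filter_upwards [hy, hgg i j y hyU] with z z1 z2
    rw [← z1, ← z2]
  set Z := zag1_Z U hUo hUm gg u1 u2 u3 with hZ
  let act : MulAction G0 Z.TotalSpace :=
    { smul := fun g e => zag1_m Z e.1 (g * zag1_c Z e)
      one_smul := by
        intro e
        show zag1_m Z e.1 (1 * zag1_c Z e) = e
        rw [one_mul]
        rfl
      mul_smul := by
        intro g h e
        show zag1_m Z e.1 (g * h * zag1_c Z e) = zag1_m Z e.1 (g * (h * zag1_c Z e))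
        rw [mul_assoc] }
  let p : Z.TotalSpace → X' := fun e => zag1_c Z e • φ e.1 e.1
  have hloc : ∀ (e : Z.TotalSpace) (i : M), e.1 ∈ U i →
      (Z.localTriv i) e = (e.1, zag1_c Z e * gg e.1 i e.1) := fun e i _ => rfl
  have hsrc : ∀ (e : Z.TotalSpace) (i : M), e.1 ∈ U i → (Z.localTriv i).source ∈ 𝓝 e :=
    fun e i h => (Z.localTriv i).open_source.mem_nhds h
  have hcontAt : ∀ (e : Z.TotalSpace) (i : M), e.1 ∈ U i → ContinuousAt (Z.localTriv i) e :=
    fun e i h => (Z.localTriv i).continuousOn_toFun.continuousAt (hsrc e i h)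
  -- neighbourhoods
  have hnbd : ∀ e : Z.TotalSpace, ∀ᶠ e' in 𝓝 e, p e' = zag1_c Z e • φ e.1 e'.1 := by
    intro e
    have hU := hUm e.1
    have h1 : ∀ᶠ e' in 𝓝 e, ((Z.localTriv e.1) e').2 = zag1_c Z e := by
      have h2 : ((Z.localTriv e.1) e).2 = zag1_c Z e := by
        show zag1_c Z e * gg e.1 e.1 e.1 = zag1_c Z e
        rw [u1 e.1 e.1 hU, mul_one]
      have h3 : ContinuousAt (fun e' => ((Z.localTriv e.1) e').2) e :=
        continuous_snd.continuousAt.comp (hcontAt e e.1 hU)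
      have h4 : {zag1_c Z e} ∈ 𝓝 (((Z.localTriv e.1) e).2) := by
        rw [h2]
        exact (isOpen_discrete _).mem_nhds rfl
      exact h3.eventually_mem h4
    filter_upwards [h1, hsrc e e.1 hU] with e' h1' h2'
    have h2'' : e'.1 ∈ U e.1 := h2'
    have h5 : zag1_c Z e' * gg e'.1 e.1 e'.1 = zag1_c Z e := h1'
    have h6 := (hgg e'.1 e.1 e'.1 ⟨hUm _, h2''⟩).self_of_nhds
    show zag1_c Z e' • φ e'.1 e'.1 = zag1_c Z e • φ e.1 e'.1
    rw [h6, ← mul_smul, h5]
  have hcov : IsCoveringMap Z.proj := FiberBundle.isCoveringMap (F := G0) (E := Z.Fiber)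
  refine ⟨Z.TotalSpace, inferInstance, act, Z.proj, p, ?_, hcov, ?_, ?_, ?_, ?_, ?_, ?_, ?_⟩
  · refine ⟨fun g => ?_⟩
    rw [continuous_iff_continuousAt]
    intro e
    have hU := hUm e.1
    have hpre : (fun e' : Z.TotalSpace => g • e') ⁻¹' (Z.localTriv e.1).source ∈ 𝓝 e :=
      hsrc e e.1 hU
    have h1 := (Z.localTriv e.1).toOpenPartialHomeomorph.continuousAt_iff_continuousAt_comp_left
      (f := fun e' : Z.TotalSpace => g • e') (x := e) hpre
    rw [h1]
    have h2 : ((Z.localTriv e.1).toOpenPartialHomeomorph ∘ fun e' : Z.TotalSpace => g • e') =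
        (fun q : M × G0 => (q.1, g * q.2)) ∘ (Z.localTriv e.1) := by
      funext e'
      show ((e'.1, (g * zag1_c Z e') * gg e'.1 e.1 e'.1) : M × G0) =
        (e'.1, g * (zag1_c Z e' * gg e'.1 e.1 e'.1))
      rw [mul_assoc]
    rw [h2]
    have h3 : Continuous (fun q : M × G0 => (q.1, g * q.2)) :=
      continuous_fst.prodMk
        ((continuous_of_discreteTopology (f := fun B : G0 => g * B)).comp continuous_snd)
    exact h3.continuousAt.comp (hcontAt e e.1 hU)
  · intro x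
    exact ⟨zag1_m Z x 1, rfl⟩
  · apply IsLocalHomeomorph.mk
    intro e
    obtain ⟨eπ, he1, he2⟩ := hcov.isLocalHomeomorph e
    obtain ⟨e1, h1, h2⟩ := h_lh (φ e.1) e.1 (hA e.1 e.1 (hUm _))
    obtain ⟨N, hN, hNo, heN⟩ := _root_.mem_nhds_iff.1 (hnbd e)
    refine ⟨(eπ.restrOpen N hNo).trans
      (e1.trans (Homeomorph.smul (zag1_c Z e)).toOpenPartialHomeomorph), ?_, ?_⟩
    · have h3 : eπ e = e.1 := (congrFun he2 e).symm
      simp only [OpenPartialHomeomorph.trans_source, OpenPartialHomeomorph.restrOpen_source,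
        Set.mem_inter_iff, Set.mem_preimage]
      refine ⟨⟨he1, heN⟩, ?_, trivial⟩
      show eπ e ∈ e1.source
      rw [h3]
      exact h1
    · intro y hy
      simp only [OpenPartialHomeomorph.trans_source, OpenPartialHomeomorph.restrOpen_source,
        Set.mem_inter_iff, Set.mem_preimage] at hy
      obtain ⟨⟨hy1, hy2⟩, hy3, _⟩ := hy
      have h3 : eπ y = y.1 := (congrFun he2 y).symm
      have h4 : eπ y ∈ e1.source := hy3
      have h5 : p y = zag1_c Z e • φ e.1 y.1 := hN hy2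
      show p y = zag1_c Z e • e1 (eπ y)
      rw [h5, h3, h2 (h3 ▸ h4)]
  · intro g e
    show (g * zag1_c Z e) • φ e.1 e.1 = g • (zag1_c Z e • φ e.1 e.1)
    rw [mul_smul]
  · intro g e
    rfl
  · intro g e h
    have h1 : zag1_m Z e.1 (g * zag1_c Z e) = zag1_m Z e.1 (zag1_c Z e) := h
    have h2 := zag1_inj Z _ _ _ h1
    exact mul_eq_right.1 h2
  · rintro ⟨x, A⟩ ⟨x', A'⟩ h
    have h' : x = x' := h
    subst h'
    refine ⟨zag1_c Z ⟨x, A'⟩ * (zag1_c Z ⟨x, A⟩)⁻¹, ?_⟩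
    show zag1_m Z x (zag1_c Z ⟨x, A'⟩ * (zag1_c Z ⟨x, A⟩)⁻¹ * zag1_c Z ⟨x, A⟩) = ⟨x, A'⟩
    rw [inv_mul_cancel_right]
    rfl
  · intro e
    exact ⟨fun x' => zag1_c Z e • φ e.1 x', h_smul _ _ _ (hA e.1 e.1 (hUm _)), hnbd e⟩

/-- germ covering: a principal covering of `M` built from a rigid class of local homeomorphisms -/
theorem exists_germ_cover {M : Type u} {X' : Type v} {G0 : Type w} [TopologicalSpace M]
    [TopologicalSpace X'] [Group G0] [MulAction G0 X'] [ContinuousConstSMul G0 X']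
    (Adm : (M → X') → M → Prop)
    (h_open : ∀ φ x, Adm φ x → ∀ᶠ x' in 𝓝 x, Adm φ x')
    (h_smul : ∀ (g : G0) φ x, Adm φ x → Adm (fun x' => g • φ x') x)
    (h_ex : ∀ x, ∃ φ, Adm φ x)
    (h_rigid : ∀ φ φ' x, Adm φ x → Adm φ' x → ∃ g : G0, φ' =ᶠ[𝓝 x] fun x' => g • φ x')
    (h_free : ∀ φ x (g : G0), Adm φ x → ((fun x' => g • φ x') =ᶠ[𝓝 x] φ) → g = 1)
    (h_lh : ∀ φ x, Adm φ x → ∃ e : OpenPartialHomeomorph M X', x ∈ e.source ∧ EqOn φ e e.source) :
    ∃ (E : Type (max u w)) (_ : TopologicalSpace E) (_ : MulAction G0 E) (π : E → M) (p : E → X'),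
      ContinuousConstSMul G0 E ∧ IsCoveringMap π ∧ Function.Surjective π ∧ IsLocalHomeomorph p ∧
      (∀ (g : G0) (e : E), p (g • e) = g • p e) ∧ (∀ (g : G0) (e : E), π (g • e) = π e) ∧
      (∀ (g : G0) (e : E), g • e = e → g = 1) ∧ (∀ e e' : E, π e = π e' → ∃ g : G0, g • e = e') ∧
      ∀ e : E, ∃ φ, Adm φ (π e) ∧ ∀ᶠ e' in 𝓝 e, p e' = φ (π e') := by
  classical
  letI : TopologicalSpace G0 := ⊥
  haveI : DiscreteTopology G0 := ⟨rfl⟩
  choose φ hφ using h_ex
  have hsp : ∀ i j x, x ∈ interior {x | Adm (φ i) x} ∩ interior {x | Adm (φ j) x} →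
      ∃ g : G0, φ i =ᶠ[𝓝 x] fun x' => g • φ j x' := fun i j x hx =>
    h_rigid (φ j) (φ i) x (interior_subset hx.2) (interior_subset hx.1)
  refine zag1_main Adm h_smul h_free h_lh φ (fun i => interior {x | Adm (φ i) x})
    (fun i => isOpen_interior) (fun i => mem_interior_iff_mem_nhds.2 (h_open _ _ (hφ i)))
    (fun i x hx => interior_subset hx)
    (fun i j x => if h : x ∈ interior {x | Adm (φ i) x} ∩ interior {x | Adm (φ j) x} then
      (hsp i j x h).choose else 1) ?_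
  intro i j x hx
  have h := (hsp i j x hx).choose_spec
  simp only [dif_pos hx]
  exact h

end Pool.Agent.Helper107.LC
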