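import Mathlib
set_option autoImplicit false
open Set Filter Topology
open scoped ContDiff Manifold

namespace Pool.Agent.Helper107.LC

universe u v w
/-- a component of a principal covering -/
theorem zag2_lpc {E M : Type*} [TopologicalSpace E] [TopologicalSpace M]
    [LocallyPathConnectedSpace M] {π : E → M} (h : IsLocalHomeomorph π) :
    LocallyPathConnectedSpace E := by
  refine ⟨fun e => ⟨fun t => ⟨fun ht => ?_, fun ⟨s, ⟨hs, _⟩, hst⟩ => mem_of_superset hs hst⟩⟩⟩
  obtain ⟨φ, heφ, hφ⟩ := h e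
  have h1 : φ.target ∩ φ.symm ⁻¹' t ∈ 𝓝 (φ e) := by
    apply inter_mem
    · exact φ.open_target.mem_nhds (φ.map_source heφ)
    · exact (φ.tendsto_symm heφ) ht
  obtain ⟨s, ⟨hs1, hs2⟩, hs3⟩ :=
    (LocallyPathConnectedSpace.path_connected_basis (φ e)).mem_iff.mp h1
  have hs3' : s ⊆ φ.target ∩ φ.symm ⁻¹' t := hs3
  refine ⟨φ.symm '' s, ⟨?_, ?_⟩, ?_⟩
  · have := φ.symm.image_mem_nhds (x := φ e) (φ.map_source heφ) hs1
    rwa [φ.left_inv heφ] at this
  · exact hs2.image' (φ.symm.continuousOn.mono (fun z hz => (hs3' hz).1))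
  · rintro _ ⟨z, hz, rfl⟩
    exact (hs3' hz).2

theorem zag2_fin {Y M Γ : Type*} [TopologicalSpace Y] [TopologicalSpace M] [T2Space M] [Group Γ]
    [MulAction Γ Y] [ContinuousConstSMul Γ Y] (q : Y → M) (hq : Continuous q)
    (hinv : ∀ (γ : Γ) (y : Y), q (γ • y) = q y)
    (hf : ∀ y y' : Y, q y = q y' → ∃ γ : Γ, γ • y = y')
    (hdis : ∀ y : Y, ∃ U ∈ 𝓝 y, ∀ γ : Γ, ((γ • ·) '' U ∩ U).Nonempty → γ = 1) :
    ProperlyDiscontinuousSMul Γ Y := by
  refine ⟨?_⟩
  intro K L hK hL
  have hKL := hK.prod hL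
  have hP : {γ : Γ | ∃ k : Y, (k, γ • k) ∈ K ×ˢ L}.Finite := by
    refine hKL.induction_on (p := fun S => {γ : Γ | ∃ k : Y, (k, γ • k) ∈ S}.Finite) ?_ ?_ ?_ ?_
    · simp
    · intro S T hST hT
      exact hT.subset (fun γ ⟨k, hk⟩ => ⟨k, hST hk⟩)
    · intro S T hS hT
      refine (hS.union hT).subset ?_
      rintro γ ⟨k, hk | hk⟩
      · exact Or.inl ⟨k, hk⟩
      · exact Or.inr ⟨k, hk⟩
    · rintro ⟨k, l⟩ _
      by_cases hkl : q k = q l
      · obtain ⟨γ0, rfl⟩ := hf k l hkl
        obtain ⟨N, hN, hN'⟩ := hdis k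
        refine ⟨N ×ˢ ((γ0⁻¹ • ·) ⁻¹' N), mem_nhdsWithin_of_mem_nhds (prod_mem_nhds hN ?_), ?_⟩
        · have hc : ContinuousAt (fun y : Y => γ0⁻¹ • y) (γ0 • k) :=
            (continuous_const_smul γ0⁻¹).continuousAt
          apply hc
          show N ∈ 𝓝 (γ0⁻¹ • γ0 • k)
          rw [inv_smul_smul]; exact hN
        · refine (Set.finite_singleton γ0).subset ?_
          rintro γ ⟨n, hn1, hn2⟩
          have h1 : (γ0⁻¹ * γ) = 1 := by
            apply hN'
            refine ⟨γ0⁻¹ • γ • n, ⟨n, hn1, ?_⟩, hn2⟩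
            show (γ0⁻¹ * γ) • n = _
            rw [mul_smul]
          rw [mem_singleton_iff]
          have := inv_mul_eq_one.mp h1
          exact this.symm
      · obtain ⟨U, V, hU, hV, hkU, hlV, hUV⟩ := t2_separation hkl
        refine ⟨(q ⁻¹' U) ×ˢ (q ⁻¹' V), mem_nhdsWithin_of_mem_nhds (prod_mem_nhds
          ((hU.preimage hq).mem_nhds hkU) ((hV.preimage hq).mem_nhds hlV)), ?_⟩
        refine Set.finite_empty.subset ?_
        rintro γ ⟨n, hn1, hn2⟩
        have h2 : q (γ • n) ∈ V := hn2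
        rw [hinv] at h2
        exact (Set.disjoint_left.mp hUV) hn1 h2
  refine hP.subset ?_
  intro γ hγ
  obtain ⟨_, ⟨k, hk, rfl⟩, hl⟩ := hγ
  exact ⟨k, hk, hl⟩

/-- a component of a principal covering -/
theorem exists_component_cover {M : Type u} {X' : Type v} {G0 : Type w} {E : Type (max u w)}
    [TopologicalSpace M] [T2Space M] [CompactSpace M] [ConnectedSpace M] [LocallyPathConnectedSpace M]
    [TopologicalSpace X'] [Group G0] [MulAction G0 X'] [TopologicalSpace E] [MulAction G0 E]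
    [ContinuousConstSMul G0 E] (π : E → M) (p : E → X')
    (hπ : IsCoveringMap π) (hs : Function.Surjective π) (hp : IsLocalHomeomorph p)
    (h1 : ∀ (g : G0) (e : E), p (g • e) = g • p e) (h2 : ∀ (g : G0) (e : E), π (g • e) = π e)
    (h3 : ∀ (g : G0) (e : E), g • e = e → g = 1) (h4 : ∀ e e' : E, π e = π e' → ∃ g : G0, g • e = e')
    (Adm : (M → X') → M → Prop) (h5 : ∀ e : E, ∃ φ, Adm φ (π e) ∧ ∀ᶠ e' in 𝓝 e, p e' = φ (π e')) :
    ∃ (Y : Type (max u w)) (_ : TopologicalSpace Y) (Γ : Subgroup G0) (_ : MulAction Γ Y)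
      (q : Y → M) (r : Y → X'),
      T2Space Y ∧ ConnectedSpace Y ∧ ContinuousConstSMul Γ Y ∧ ProperlyDiscontinuousSMul Γ Y ∧
      CompactSpace (MulAction.orbitRel.Quotient Γ Y) ∧ IsCoveringMap q ∧ Function.Surjective q ∧
      IsLocalHomeomorph r ∧ (∀ (γ : Γ) (y : Y), r (γ • y) = (γ : G0) • r y) ∧
      (∀ (γ : Γ) (y : Y), q (γ • y) = q y) ∧ (∀ (γ : Γ) (y : Y), γ • y = y → γ = 1) ∧
      ∀ y : Y, ∃ φ, Adm φ (q y) ∧ ∀ᶠ y' in 𝓝 y, r y' = φ (q y') := by
  have hlpc : LocallyPathConnectedSpace E := zag2_lpc hπ.isLocalHomeomorph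
  have hpcM : PathConnectedSpace M := PathConnectedSpace.of_locallyPathConnectedSpace
  obtain ⟨x0⟩ : Nonempty M := inferInstance
  obtain ⟨e0, -⟩ := hs x0
  -- T2
  have hT2 : T2Space E := by
    rw [t2Space_iff]
    intro a b hab
    by_cases hπab : π a = π b
    · exact hπ.isSeparatedMap a b hπab hab
    · obtain ⟨U, V, hU, hV, haU, hbV, hUV⟩ := t2_separation hπab
      exact ⟨π ⁻¹' U, π ⁻¹' V, hU.preimage hπ.continuous, hV.preimage hπ.continuous, haU, hbV,
        hUV.preimage π⟩
  have hcomp : ∀ (g : G0) (a b : E), a ∈ connectedComponent b →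
      g • a ∈ connectedComponent (g • b) := by
    intro g a b hab
    exact (continuous_const_smul g).image_connectedComponent_subset b ⟨a, hab, rfl⟩
  let Yset : Set E := connectedComponent e0
  have hYo : IsOpen Yset := isOpen_connectedComponent
  let Γ : Subgroup G0 :=
    { carrier := {g | g • e0 ∈ connectedComponent e0}
      one_mem' := by
        show (1 : G0) • e0 ∈ connectedComponent e0
        rw [one_smul]; exact mem_connectedComponent
      mul_mem' := by
        intro g h hg hh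
        show (g * h) • e0 ∈ connectedComponent e0
        rw [mul_smul, connectedComponent_eq hg]
        exact hcomp g _ _ hh
      inv_mem' := by
        intro g hg
        show g⁻¹ • e0 ∈ connectedComponent e0
        have h6 : e0 ∈ connectedComponent (g • e0) := by
          rw [← connectedComponent_eq hg]; exact mem_connectedComponent
        have := hcomp g⁻¹ _ _ h6
        rwa [inv_smul_smul] at this }
  have hΓY : ∀ (γ : Γ) (y : Yset), (γ : G0) • (y : E) ∈ Yset := by
    intro γ y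
    have h6 : (γ : G0) • e0 ∈ connectedComponent e0 := γ.2
    have h7 := hcomp (γ : G0) _ _ y.2
    rw [← connectedComponent_eq h6] at h7
    exact h7
  let act : MulAction Γ Yset :=
    { smul := fun γ y => ⟨(γ : G0) • (y : E), hΓY γ y⟩
      one_smul := fun y => Subtype.ext (one_smul G0 (y : E))
      mul_smul := fun γ γ' y => Subtype.ext (mul_smul (γ : G0) (γ' : G0) (y : E)) }
  have hact : ∀ (γ : Γ) (y : Yset), ((γ • y : Yset) : E) = (γ : G0) • (y : E) := fun γ y => rfl
  let q : Yset → M := fun y => π y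
  let r : Yset → X' := fun y => p y
  have hcs : ContinuousConstSMul Γ Yset := ⟨fun γ => by
    apply Continuous.subtype_mk
    exact (continuous_const_smul (γ : G0)).comp continuous_subtype_val⟩
  have hqc : Continuous q := hπ.continuous.comp continuous_subtype_val
  have hqs : Function.Surjective q := by
    intro x
    obtain ⟨γ⟩ := hpcM.joined (π e0) x
    obtain ⟨L, hL1, hL2⟩ := hπ.exists_path_lifts γ.toContinuousMap e0 (by simp)
    have hmem : L 1 ∈ connectedComponent e0 := by
      have hpre : IsPreconnected (Set.range L) := isPreconnected_range L.continuous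
      exact hpre.subset_connectedComponent ⟨0, hL2⟩ ⟨1, rfl⟩
    refine ⟨⟨L 1, hmem⟩, ?_⟩
    have := congrFun hL1 1
    show π (L 1) = x
    simpa using this
  have hqo : IsOpenMap q := hπ.isOpenMap.comp hYo.isOpenMap_subtype_val
  have hfib : ∀ y y' : Yset, q y = q y' → ∃ γ : Γ, γ • y = y' := by
    intro y y' hyy
    obtain ⟨g, hg⟩ := h4 y y' hyy
    have hgΓ : g ∈ Γ := by
      show g • e0 ∈ connectedComponent e0
      have h6 : e0 ∈ connectedComponent (y : E) := by
        rw [← connectedComponent_eq y.2]; exact mem_connectedComponent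
      have h7 := hcomp g _ _ h6
      rw [hg, ← connectedComponent_eq y'.2] at h7
      exact h7
    exact ⟨⟨g, hgΓ⟩, Subtype.ext hg⟩
  have hinv : ∀ (γ : Γ) (y : Yset), q (γ • y) = q y := fun γ y => h2 _ _
  have hcan : IsCancelSMul G0 E := ⟨fun g g' e h => by
    have : (g'⁻¹ * g) • e = e := by rw [mul_smul, h, inv_smul_smul]
    have := h3 _ _ this
    exact (inv_mul_eq_one.mp this).symm⟩
  have hπq : IsQuotientCoveringMap π G0 :=
    (isQuotientCoveringMap_iff_isCoveringMap_and π G0).mpr ⟨hπ, hs, inferInstance, hcan,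
      fun {a b} => ⟨fun h => by
        obtain ⟨g, hg⟩ := h4 b a h.symm
        exact ⟨g, hg⟩, fun ⟨g, hg⟩ => by
        have hg' : g • b = a := hg
        rw [← hg', h2]⟩⟩
  have hdis : ∀ y : Yset, ∃ U ∈ 𝓝 y, ∀ γ : Γ, ((γ • ·) '' U ∩ U).Nonempty → γ = 1 := by
    intro y
    obtain ⟨U, hU, hU'⟩ := hπq.disjoint (y : E)
    refine ⟨Subtype.val ⁻¹' U, continuous_subtype_val.continuousAt hU, ?_⟩
    rintro γ ⟨_, ⟨z, hz, rfl⟩, hz'⟩
    apply Subtype.ext
    apply hU'
    exact ⟨(γ : G0) • (z : E), ⟨z, hz, rfl⟩, hz'⟩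
  have hqq : Topology.IsQuotientMap q := hqo.isQuotientMap hqc hqs
  have hqQ : IsQuotientCoveringMap q Γ :=
    (isQuotientCoveringMap_iff q Γ).mpr ⟨hqq, hcs, fun {a b} => ⟨fun h => by
        obtain ⟨g, hg⟩ := hfib b a h.symm
        exact ⟨g, hg⟩, fun ⟨g, hg⟩ => by
        have hg' : g • b = a := hg
        rw [← hg', hinv]⟩, hdis⟩
  refine ⟨Yset, inferInstance, Γ, act, q, r, inferInstance,
    Subtype.connectedSpace isConnected_connectedComponent, hcs,
    zag2_fin q hqc hinv hfib hdis, ?_, hqQ.isCoveringMap, hqs,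
    hp.comp hYo.isOpenEmbedding_subtypeVal.isLocalHomeomorph, fun γ y => h1 _ _, hinv, ?_, ?_⟩
  · let f : M → MulAction.orbitRel.Quotient Γ Yset :=
      fun x => Quotient.mk _ (Function.surjInv hqs x)
    have hfq : f ∘ q = fun y => (Quotient.mk _ y : MulAction.orbitRel.Quotient Γ Yset) := by
      funext y
      apply Quotient.sound
      show Function.surjInv hqs (q y) ∈ MulAction.orbit Γ y
      obtain ⟨γ, hγ⟩ := hfib y (Function.surjInv hqs (q y)) (Function.surjInv_eq hqs (q y)).symm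
      exact ⟨γ, hγ⟩
    have hfc : Continuous f := by
      rw [hqq.continuous_iff, hfq]
      exact continuous_quotient_mk'
    have hfs : Function.Surjective f := by
      intro z
      induction z using Quotient.inductionOn with
      | h y => exact ⟨q y, congrFun hfq y⟩
    refine ⟨?_⟩
    rw [← hfs.range_eq]
    exact isCompact_range hfc
  · intro γ y hγ
    apply Subtype.ext
    apply h3 _ (y : E)
    exact congrArg Subtype.val hγ
  · intro y
    obtain ⟨φ, hφ1, hφ2⟩ := h5 (y : E)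
    exact ⟨φ, hφ1, (continuous_subtype_val.tendsto y).eventually hφ2⟩

end Pool.Agent.Helper107.LC
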