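import Mathlib
import Pool.Agent.Helper107.LC.MDefs2
set_option autoImplicit false
open Set Filter Topology
open scoped ContDiff Manifold

namespace Pool.Agent.Helper107.LC

/-! auxiliary lemmas for the bundling -/
section bridgeGeneric
set_option maxSynthPendingDepth 3
variable {X : Type*} [NormedAddCommGroup X] [NormedSpace ℝ X]

theorem bridge_line {F : Type*} [NormedAddCommGroup F] [NormedSpace ℝ F] {f : X → F}
    {L : X →L[ℝ] F} {y : X} (h : HasFDerivAt f L y) (a : X) :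
    deriv (fun s : ℝ => f (y + s • a)) 0 = L a := by
  have h1 : HasDerivAt (fun s : ℝ => y + s • a) a 0 := by
    have h2 : HasDerivAt (fun s : ℝ => s • a) a 0 := by
      simpa using (hasDerivAt_id (0 : ℝ)).smul_const a
    exact h2.const_add y
  have h3 : HasFDerivAt f L (y + (0 : ℝ) • a) := by
    rw [zero_smul, add_zero]
    exact h
  exact (h3.comp_hasDerivAt (0 : ℝ) h1).deriv

theorem bridge_deriv {F : Type*} [NormedAddCommGroup F] [NormedSpace ℝ F]
    {A : X → X →L[ℝ] X →L[ℝ] F} {A' : X →L[ℝ] (X →L[ℝ] X →L[ℝ] F)} {y : X}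
    (h : HasFDerivAt A A' y) {f : X → F} {v w : X} (he : ∀ᶠ z in 𝓝 y, f z = A z v w) (u : X) :
    deriv (fun s : ℝ => f (y + s • u)) 0 = A' u v w := by
  have h1 : HasFDerivAt (fun z => A z v w)
      (((ContinuousLinearMap.apply ℝ F w).comp
        (ContinuousLinearMap.apply ℝ (X →L[ℝ] F) v)).comp A') y :=
    (((ContinuousLinearMap.apply ℝ F w).comp
        (ContinuousLinearMap.apply ℝ (X →L[ℝ] F) v)).hasFDerivAt).comp y h
  have h2 := h1.congr_of_eventuallyEq he
  exact bridge_line h2 u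

/-- the Koszul form -/
noncomputable def bridgeK (F : X →L[ℝ] (X →L[ℝ] X →L[ℝ] ℝ)) : X →L[ℝ] (X →L[ℝ] X →L[ℝ] ℝ) :=
  (1 / 2 : ℝ) • (F + (ContinuousLinearMap.flipₗᵢ ℝ X X (X →L[ℝ] ℝ)) F
    - ((ContinuousLinearMap.flipₗᵢ ℝ X X ℝ).toContinuousLinearEquiv :
        (X →L[ℝ] X →L[ℝ] ℝ) →L[ℝ] (X →L[ℝ] X →L[ℝ] ℝ)).comp
      ((ContinuousLinearMap.flipₗᵢ ℝ X X (X →L[ℝ] ℝ)) F))

theorem bridgeK_apply (F : X →L[ℝ] (X →L[ℝ] X →L[ℝ] ℝ)) (u v w : X) :
    bridgeK F u v w = (1 / 2 : ℝ) * (F u v w + F v u w - F w u v) := rfl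

theorem bridgeK_smooth {O : Set X} {F : X → (X →L[ℝ] (X →L[ℝ] X →L[ℝ] ℝ))}
    (hF : ContDiffOn ℝ ∞ F O) : ContDiffOn ℝ ∞ (fun y => bridgeK (F y)) O := by
  unfold bridgeK
  have h1 : ContDiffOn ℝ ∞
      (fun y => (ContinuousLinearMap.flipₗᵢ ℝ X X (X →L[ℝ] ℝ)) (F y)) O :=
    (ContinuousLinearMap.flipₗᵢ ℝ X X (X →L[ℝ] ℝ)).contDiff.comp_contDiffOn hF
  exact ((hF.add h1).sub (contDiffOn_const.clm_comp h1)).const_smul (1 / 2 : ℝ)

theorem bridge_equiv [FiniteDimensional ℝ X] (A : X →L[ℝ] (X →L[ℝ] ℝ))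
    (hA : Function.Injective A) :
    ∃ e : X ≃L[ℝ] (X →L[ℝ] ℝ), (e : X →L[ℝ] (X →L[ℝ] ℝ)) = A := by
  have hfin : Module.finrank ℝ X = Module.finrank ℝ (X →L[ℝ] ℝ) := by
    have h1 := (LinearMap.toContinuousLinearMap :
      (X →ₗ[ℝ] ℝ) ≃ₗ[ℝ] (X →L[ℝ] ℝ)).finrank_eq
    rw [← h1]
    exact Subspace.dual_finrank_eq.symm
  set e : X ≃ₗ[ℝ] (X →L[ℝ] ℝ) :=
    LinearMap.linearEquivOfInjective (A : X →ₗ[ℝ] (X →L[ℝ] ℝ)) hA hfin with he
  refine ⟨e.toContinuousLinearEquiv, ?_⟩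
  ext x : 1
  rfl

theorem bridge_christoffel [FiniteDimensional ℝ X] {O : Set X} (hO : IsOpen O)
    {A : X → X →L[ℝ] X →L[ℝ] ℝ} (hA : ContDiffOn ℝ ∞ A O)
    (hinj : ∀ y ∈ O, Function.Injective (A y)) :
    ∃ C' : X → X →L[ℝ] X →L[ℝ] X, ContDiffOn ℝ ∞ C' O ∧
      ∀ y ∈ O, ∀ u v w, 2 * A y (C' y u v) w =
        (fderiv ℝ A y u) v w + (fderiv ℝ A y v) u w - (fderiv ℝ A y w) u v := by
  have : CompleteSpace X := FiniteDimensional.complete ℝ X
  have hF : ContDiffOn ℝ ∞ (fderiv ℝ A) O := hA.fderiv_of_isOpen hO (by simp)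
  refine ⟨fun y => ((ContinuousLinearMap.compL ℝ X (X →L[ℝ] ℝ) X)
      (ContinuousLinearMap.inverse (A y))).comp (bridgeK (fderiv ℝ A y)), ?_, ?_⟩
  · have hinv : ContDiffOn ℝ ∞ (fun y => ContinuousLinearMap.inverse (A y)) O := by
      intro y hy
      obtain ⟨e, he⟩ := bridge_equiv (A y) (hinj y hy)
      have h1 : ContDiffAt ℝ ∞ ContinuousLinearMap.inverse (A y) := by
        rw [← he]
        exact contDiffAt_map_inverse e
      exact (h1.comp y (hA.contDiffAt (hO.mem_nhds hy))).contDiffWithinAt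
    exact ((ContinuousLinearMap.compL ℝ X (X →L[ℝ] ℝ) X).contDiff.comp_contDiffOn
      hinv).clm_comp (bridgeK_smooth hF)
  · intro y hy u v w
    obtain ⟨e, he⟩ := bridge_equiv (A y) (hinj y hy)
    have h2 : A y (ContinuousLinearMap.inverse (A y) (bridgeK (fderiv ℝ A y) u v))
        = bridgeK (fderiv ℝ A y) u v := by
      rw [← he, ContinuousLinearMap.inverse_equiv]
      exact e.apply_symm_apply _
    show 2 * A y (ContinuousLinearMap.inverse (A y) (bridgeK (fderiv ℝ A y) u v)) w = _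
    rw [h2, bridgeK_apply]
    ring

/-- the bundled metric -/
noncomputable def bridgeG [FiniteDimensional ℝ X] {n : ℕ} (e : Module.Basis (Fin n) ℝ X)
    (G : X → X → X → ℝ) (y : X) : X →L[ℝ] X →L[ℝ] ℝ :=
  ∑ i : Fin n, ∑ j : Fin n, G y (e i) (e j) •
      ((LinearMap.toContinuousLinearMap (e.coord i)).smulRight
        (LinearMap.toContinuousLinearMap (e.coord j)))

theorem bridge_lin {n : ℕ} (e : Module.Basis (Fin n) ℝ X) {φ : X → ℝ} (h : IsLinearMap ℝ φ)
    (u : X) : φ u = ∑ i : Fin n, e.repr u i * φ (e i) := by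
  conv_lhs => rw [← e.sum_repr u]
  have h1 := map_sum (IsLinearMap.mk' φ h) (fun i => e.repr u i • e i) Finset.univ
  simp only [IsLinearMap.mk'_apply] at h1
  rw [h1]
  apply Finset.sum_congr rfl
  intro i _
  rw [h.map_smul, smul_eq_mul]

theorem bridge_G_eq [FiniteDimensional ℝ X] {n : ℕ} (e : Module.Basis (Fin n) ℝ X)
    {G : X → X → X → ℝ} {y : X} (h1 : ∀ v, IsLinearMap ℝ fun u => G y u v)
    (h2 : ∀ u v, G y u v = G y v u) (u v : X) :
    bridgeG e G y u v = G y u v := by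
  rw [bridge_lin e (h1 v) u]
  unfold bridgeG
  simp only [sum_apply, smul_apply, ContinuousLinearMap.smulRight_apply]
  apply Finset.sum_congr rfl
  intro i _
  rw [h2 (e i) v, bridge_lin e (h1 (e i)) v, Finset.mul_sum]
  apply Finset.sum_congr rfl
  intro j _
  rw [h2 (e j)]
  show G y (e i) (e j) * (e.coord i u * e.coord j v) = _
  rw [Module.Basis.coord_apply, Module.Basis.coord_apply]
  ring

theorem bridge_G_smooth [FiniteDimensional ℝ X] {n : ℕ} (e : Module.Basis (Fin n) ℝ X)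
    {O : Set X} {G : X → X → X → ℝ} (hG : ∀ u v, ContDiffOn ℝ ∞ (fun y => G y u v) O) :
    ContDiffOn ℝ ∞ (bridgeG e G) O := by
  unfold bridgeG
  refine ContDiffOn.sum fun i _ => ContDiffOn.sum fun j _ => ?_
  exact ContDiffOn.smul (hG _ _) contDiffOn_const

end bridgeGeneric

section bridgeFinal
set_option maxSynthPendingDepth 3
/-- a family of vectors as in `IsLor` is a basis -/
theorem bridge_basis {m : ℕ} {β : R m → R m → ℝ} (hβ : IsSymBil β) (b : Fin (m + 1) → R m)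
    (hb : ∀ i j, β (b i) (b j) = if i = j then (if i = 0 then -1 else 1) else 0) :
    ∃ B : Module.Basis (Fin (m + 1)) ℝ (R m), ∀ i, B i = b i := by
  have hli : LinearIndependent ℝ b := by
    rw [Fintype.linearIndependent_iff]
    intro g hg j
    have h1 : β (∑ i, g i • b i) (b j) = 0 := by
      rw [hg]
      exact (hβ.1 (b j)).map_zero
    have h2 := map_sum (IsLinearMap.mk' _ (hβ.1 (b j))) (fun i => g i • b i) Finset.univ
    simp only [IsLinearMap.mk'_apply] at h2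
    rw [h2] at h1
    have h3 : ∑ i, β (g i • b i) (b j) = g j * (if j = 0 then -1 else 1) := by
      rw [Finset.sum_eq_single j]
      · rw [(hβ.1 (b j)).map_smul, hb, if_pos rfl, smul_eq_mul]
      · intro i _ hij
        rw [(hβ.1 (b j)).map_smul, hb, if_neg hij, smul_zero]
      · intro h
        exact absurd (Finset.mem_univ j) h
    rw [h3] at h1
    rcases mul_eq_zero.mp h1 with h | h
    · exact h
    · exfalso
      split_ifs at h <;> norm_num at h
  have hcard : Fintype.card (Fin (m + 1)) = Module.finrank ℝ (R m) := by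
    rw [finrank_euclideanSpace]
  refine ⟨basisOfLinearIndependentOfCardEqFinrank hli hcard, ?_⟩
  intro i
  rw [coe_basisOfLinearIndependentOfCardEqFinrank]

theorem bridge_inj {m : ℕ} {β : R m → R m → ℝ} (hβ : IsSymBil β) (hL : IsLor β) (x : R m)
    (hx : ∀ w, β x w = 0) : x = 0 := by
  obtain ⟨b, hb⟩ := hL
  obtain ⟨B, hB⟩ := bridge_basis hβ b hb
  have h1 : ∀ j, B.repr x j = 0 := by
    intro j
    have h2 := hx (b j)
    rw [← B.sum_repr x] at h2
    have h3 := map_sum (IsLinearMap.mk' _ (hβ.1 (b j))) (fun i => B.repr x i • B i) Finset.univ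
    simp only [IsLinearMap.mk'_apply] at h3
    rw [h3] at h2
    have h4 : ∑ i, β (B.repr x i • B i) (b j) = B.repr x j * (if j = 0 then -1 else 1) := by
      rw [Finset.sum_eq_single j]
      · rw [(hβ.1 (b j)).map_smul, hB, hb, if_pos rfl, smul_eq_mul]
      · intro i _ hij
        rw [(hβ.1 (b j)).map_smul, hB, hb, if_neg hij, smul_zero]
      · intro h
        exact absurd (Finset.mem_univ j) h
    rw [h4] at h2
    rcases mul_eq_zero.mp h2 with h | h
    · exact h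
    · exfalso
      split_ifs at h <;> norm_num at h
  have h5 : B.repr x = 0 := by
    ext j
    rw [h1 j]
    rfl
  exact (LinearEquiv.map_eq_zero_iff _).mp h5

theorem bridge_final {κ : ℝ} {m : ℕ} {O : Set (R m)} (hO : IsOpen O)
    {G : R m → R m → R m → ℝ} (hG : LMetric O G) (h : ConstCurv κ O G) :
    ∃ (G' : R m → R m →L[ℝ] R m →L[ℝ] ℝ) (C' : R m → R m →L[ℝ] R m →L[ℝ] R m),
      CCMetric κ m O G' C' ∧ ∀ y ∈ O, ∀ u v, G' y u v = G y u v := by
  obtain ⟨C, hC, hcurv⟩ := h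
  set e : Module.Basis (Fin (m + 1)) ℝ (R m) := (EuclideanSpace.basisFun (Fin (m + 1)) ℝ).toBasis
    with he
  obtain ⟨A, hA⟩ : ∃ A : R m → R m →L[ℝ] R m →L[ℝ] ℝ, A = bridgeG e G := ⟨_, rfl⟩
  have hGs : ContDiffOn ℝ ∞ A O := by
    rw [hA]
    exact bridge_G_smooth e hG.1
  have hGe : ∀ y ∈ O, ∀ u v, A y u v = G y u v := fun y hy u v => by
    rw [hA]
    exact bridge_G_eq e (hG.2 y hy).1.1 (hG.2 y hy).1.2 u v
  have hinj : ∀ y ∈ O, Function.Injective (A y) := by
    intro y hy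
    rw [injective_iff_map_eq_zero]
    intro x hx
    apply bridge_inj (hG.2 y hy).1 (hG.2 y hy).2
    intro w
    rw [← hGe y hy, hx]
    rfl
  obtain ⟨C', hCs, hCk⟩ := bridge_christoffel hO hGs hinj
  have hdiff : ∀ y ∈ O, HasFDerivAt A (fderiv ℝ A y) y := by
    intro y hy
    exact ((hGs.differentiableOn (by simp)).differentiableAt (hO.mem_nhds hy)).hasFDerivAt
  have hDR : ∀ y ∈ O, ∀ u v w, DR (fun z => G z v w) y u = fderiv ℝ A y u v w := by
    intro y hy u v w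
    refine bridge_deriv (f := fun z => G z v w) (v := v) (w := w) (hdiff y hy) ?_ u
    filter_upwards [hO.mem_nhds hy] with z hz
    exact (hGe z hz v w).symm
  have hCe : ∀ y ∈ O, ∀ u v, C' y u v = C y u v := by
    intro y hy u v
    apply hinj y hy
    ext w
    have h1 := hCk y hy u v w
    have h2 := hC y hy u v w
    rw [hDR y hy, hDR y hy, hDR y hy] at h2
    rw [hGe y hy (C y u v) w]
    linarith
  have hCdiff : ∀ y ∈ O, HasFDerivAt C' (fderiv ℝ C' y) y := by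
    intro y hy
    exact ((hCs.differentiableOn (by simp)).differentiableAt (hO.mem_nhds hy)).hasFDerivAt
  have hDV : ∀ y ∈ O, ∀ u v w, DV (fun z => C z v w) y u = fderiv ℝ C' y u v w := by
    intro y hy u v w
    refine bridge_deriv (f := fun z => C z v w) (v := v) (w := w) (hCdiff y hy) ?_ u
    filter_upwards [hO.mem_nhds hy] with z hz
    exact (hCe z hz v w).symm
  refine ⟨A, C', ⟨hO, hGs, ?_, ?_, hCs, hCk, ?_⟩, hGe⟩
  · intro y hy u v
    rw [hGe y hy, hGe y hy]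
    exact (hG.2 y hy).1.2 u v
  · intro y hy
    obtain ⟨b, hb⟩ := (hG.2 y hy).2
    obtain ⟨B, hB⟩ := bridge_basis (hG.2 y hy).1 b hb
    refine ⟨B, fun i j => ?_⟩
    rw [hGe y hy, hB, hB]
    exact hb i j
  · intro y hy u v w
    have h1 := hcurv y hy u v w
    unfold Riem at h1
    rw [hDV y hy, hDV y hy] at h1
    rw [hCe y hy, hCe y hy, hCe y hy, hCe y hy, hGe y hy, hGe y hy]
    exact h1

end bridgeFinal

/-- from elementary coordinate expressions to bundled continuous bilinear maps -/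
theorem ConstCurv.ccMetric {κ : ℝ} {m : ℕ} {O : Set (R m)} (hO : IsOpen O)
    {G : R m → R m → R m → ℝ} (hG : LMetric O G) (h : ConstCurv κ O G) :
    ∃ (G' : R m → R m →L[ℝ] R m →L[ℝ] ℝ) (C' : R m → R m →L[ℝ] R m →L[ℝ] R m),
      CCMetric κ m O G' C' ∧ ∀ y ∈ O, ∀ u v, G' y u v = G y u v :=
  bridge_final hO hG h

end Pool.Agent.Helper107.LC
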