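import Mathlib
import Pool.Agent.Helper107.LC.MDefs2
set_option autoImplicit false
open Set Filter Topology
open scoped ContDiff Manifold

namespace Pool.Agent.Helper107.LC

section chg
variable {κ : ℝ} {m : ℕ} {M : Type*} [TopologicalSpace M] [ChartedSpace (R m) M]

theorem chg_DV {F : R m → R m} {y : R m} (h : DifferentiableAt ℝ F y) (a : R m) :
    DV F y a = fderiv ℝ F y a := by
  have := h.lineDeriv_eq_fderiv (v := a)
  rw [← this]
  rfl

/-- being a local isometry does not depend on the chart -/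
theorem LocIso.change_chart [IsManifold (𝓡 (m + 1)) ∞ M] (g : LorentzMetric m M)
    {e e' : OpenPartialHomeomorph M (R m)} (he : e ∈ atlas (R m) M) (he' : e' ∈ atlas (R m) M)
    {x : M} (hx : x ∈ e.source) (hx' : x ∈ e'.source) {φ : M → V m}
    (h : LocIso κ (g.G e) (fun y => φ (e.symm y)) (e x)) :
    LocIso κ (g.G e') (fun y => φ (e'.symm y)) (e' x) := by
  have h1 : ContMDiffOn (𝓡 (m + 1)) (𝓡 (m + 1)) ∞ e e.source :=
    contMDiffOn_of_mem_maximalAtlas (IsManifold.subset_maximalAtlas he)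
  have h2 : ContMDiffOn (𝓡 (m + 1)) (𝓡 (m + 1)) ∞ e'.symm e'.target :=
    contMDiffOn_symm_of_mem_maximalAtlas (IsManifold.subset_maximalAtlas he')
  have hWo : IsOpen (e'.target ∩ e'.symm ⁻¹' e.source) := e'.isOpen_inter_preimage_symm e.open_source
  have h3 : ContMDiffOn (𝓡 (m + 1)) (𝓡 (m + 1)) ∞ (e ∘ e'.symm) (e'.target ∩ e'.symm ⁻¹' e.source) :=
    h1.comp (h2.mono inter_subset_left) (fun y hy => hy.2)
  have h4 : ContDiffOn ℝ ∞ (e ∘ e'.symm) (e'.target ∩ e'.symm ⁻¹' e.source) :=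
    contMDiffOn_iff_contDiffOn.mp h3
  have hxW : e' x ∈ e'.target ∩ e'.symm ⁻¹' e.source := by
    refine ⟨e'.map_source hx', ?_⟩
    show e'.symm (e' x) ∈ e.source
    rw [e'.left_inv hx']
    exact hx
  have hτx : (e ∘ e'.symm) (e' x) = e x := by
    show e (e'.symm (e' x)) = e x
    rw [e'.left_inv hx']
  have hτc : ContinuousAt (e ∘ e'.symm) (e' x) := (h4.contDiffAt (hWo.mem_nhds hxW)).continuousAt
  have hev : ∀ᶠ y' in 𝓝 (e' x), ContDiffAt ℝ ∞ (fun y => φ (e.symm y)) ((e ∘ e'.symm) y') ∧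
      φ (e.symm ((e ∘ e'.symm) y')) ∈ X κ m ∧
      ∀ u v, B κ (fderiv ℝ (fun y => φ (e.symm y)) ((e ∘ e'.symm) y') u)
        (fderiv ℝ (fun y => φ (e.symm y)) ((e ∘ e'.symm) y') v) = g.G e ((e ∘ e'.symm) y') u v := by
    have h5 : Tendsto (e ∘ e'.symm) (𝓝 (e' x)) (𝓝 (e x)) := by
      have := hτc.tendsto
      rwa [hτx] at this
    exact h5.eventually h
  filter_upwards [hev, hWo.mem_nhds hxW] with y' hy' hyW
  obtain ⟨k1, k2, k3⟩ := hy'
  have hτd : ContDiffAt ℝ ∞ (e ∘ e'.symm) y' := h4.contDiffAt (hWo.mem_nhds hyW)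
  have hτdiff : DifferentiableAt ℝ (e ∘ e'.symm) y' := hτd.differentiableAt (by simp)
  have heq : (fun y => φ (e'.symm y)) =ᶠ[𝓝 y'] ((fun y => φ (e.symm y)) ∘ (e ∘ e'.symm)) := by
    filter_upwards [hWo.mem_nhds hyW] with z hz
    show φ (e'.symm z) = φ (e.symm (e (e'.symm z)))
    rw [e.left_inv hz.2]
  have hfd : fderiv ℝ (fun y => φ (e'.symm y)) y' =
      (fderiv ℝ (fun y => φ (e.symm y)) ((e ∘ e'.symm) y')).comp (fderiv ℝ (e ∘ e'.symm) y') := by
    rw [heq.fderiv_eq]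
    exact fderiv_comp y' (k1.differentiableAt (by simp)) hτdiff
  refine ⟨(k1.comp y' hτd).congr_of_eventuallyEq heq, ?_, ?_⟩
  · have h6 := heq.self_of_nhds
    simp only at h6 ⊢
    rw [h6]
    exact k2
  · intro u v
    rw [hfd]
    have h7 := k3 (fderiv ℝ (e ∘ e'.symm) y' u) (fderiv ℝ (e ∘ e'.symm) y' v)
    have h8 := g.compat e' he' e he (e'.symm y') ⟨e'.map_target hyW.1, hyW.2⟩ u v
    rw [e'.right_inv hyW.1, chg_DV hτdiff, chg_DV hτdiff] at h8
    rw [h8]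
    exact h7
end chg

end Pool.Agent.Helper107.LC
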