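import Mathlib
set_option autoImplicit false
open Set Filter Topology
open scoped ContDiff

namespace Pool.Agent.Helper107.LC

section frob
open MeasureTheory

/-- extension of a curve on `[0,1]` to the real line -/
noncomputable def fr_ext {X : Type*} [TopologicalSpace X] (β : C(unitInterval, X)) (r : ℝ) : X :=
  β (projIcc 0 1 zero_le_one r)

theorem fr_ext_cont {X : Type*} [TopologicalSpace X] (β : C(unitInterval, X)) : Continuous (fr_ext β) :=
  β.continuous.comp continuous_projIcc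

theorem fr_ext_mem {X : Type*} [TopologicalSpace X] (β : C(unitInterval, X)) {r : ℝ}
    (h : r ∈ Icc (0 : ℝ) 1) : fr_ext β r = β ⟨r, h⟩ := by
  unfold fr_ext; rw [projIcc_of_mem _ h]

/-- the Picard map -/
noncomputable def fr_pic {X : Type*} [NormedAddCommGroup X] [NormedSpace ℝ X] (L : ℝ → X →L[ℝ] X)
    (hL : Continuous L) (x0 : X) (β : C(unitInterval, X)) : C(unitInterval, X) :=
  ⟨fun s => x0 + ∫ r in (0 : ℝ)..s, L r (fr_ext β r),
    continuous_const.add ((intervalIntegral.continuous_primitive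
      (fun a b => (hL.clm_apply (fr_ext_cont β)).intervalIntegrable a b) 0).comp continuous_subtype_val)⟩

theorem fr_pic_iter {X : Type*} [NormedAddCommGroup X] [NormedSpace ℝ X] (L : ℝ → X →L[ℝ] X)
    (hL : Continuous L) (x0 : X) {K : ℝ} (hK : 0 ≤ K) (hb : ∀ r ∈ Icc (0 : ℝ) 1, ‖L r‖ ≤ K)
    (β γ : C(unitInterval, X)) (n : ℕ) (s : unitInterval) :
    ‖((fr_pic L hL x0)^[n] β) s - ((fr_pic L hL x0)^[n] γ) s‖ ≤ K ^ n * (s : ℝ) ^ n / n.factorial * ‖β - γ‖ := by
  induction n generalizing s with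
  | zero =>
    simp only [Function.iterate_zero, id_eq, pow_zero, one_mul, Nat.factorial_zero, Nat.cast_one, div_one]
    exact (β - γ).norm_coe_le_norm s
  | succ n ih =>
    rw [Function.iterate_succ_apply', Function.iterate_succ_apply']
    set b := (fr_pic L hL x0)^[n] β
    set c := (fr_pic L hL x0)^[n] γ
    have h1 : (fr_pic L hL x0 b) s - (fr_pic L hL x0 c) s = ∫ r in (0 : ℝ)..s, L r (fr_ext b r - fr_ext c r) := by
      simp only [fr_pic, ContinuousMap.coe_mk, add_sub_add_left_eq_sub]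
      rw [← intervalIntegral.integral_sub ((hL.clm_apply (fr_ext_cont b)).intervalIntegrable _ _)
        ((hL.clm_apply (fr_ext_cont c)).intervalIntegrable _ _)]
      simp only [map_sub]
    rw [h1]
    have hs0 : (0 : ℝ) ≤ s := s.2.1
    have h2 : ∀ r ∈ Ioc (0 : ℝ) s, ‖L r (fr_ext b r - fr_ext c r)‖ ≤ K ^ (n + 1) * r ^ n / n.factorial * ‖β - γ‖ := by
      intro r hr
      have hr' : r ∈ Icc (0 : ℝ) 1 := ⟨hr.1.le, hr.2.trans s.2.2⟩
      refine ((L r).le_opNorm _).trans ?_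
      rw [fr_ext_mem b hr', fr_ext_mem c hr']
      have h3 := ih ⟨r, hr'⟩
      calc ‖L r‖ * ‖b ⟨r, hr'⟩ - c ⟨r, hr'⟩‖ ≤ K * (K ^ n * r ^ n / n.factorial * ‖β - γ‖) :=
            mul_le_mul (hb r hr') h3 (norm_nonneg _) hK
        _ = K ^ (n + 1) * r ^ n / n.factorial * ‖β - γ‖ := by ring
    have h4 : ‖∫ r in (0 : ℝ)..s, L r (fr_ext b r - fr_ext c r)‖ ≤
        ∫ r in (0 : ℝ)..s, K ^ (n + 1) * r ^ n / n.factorial * ‖β - γ‖ := by
      apply intervalIntegral.norm_integral_le_of_norm_le hs0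
      · exact Filter.Eventually.of_forall h2
      · exact Continuous.intervalIntegrable (by fun_prop) _ _
    refine h4.trans (le_of_eq ?_)
    have h5 : ∀ r : ℝ, K ^ (n + 1) * r ^ n / n.factorial * ‖β - γ‖ = (K ^ (n + 1) / n.factorial * ‖β - γ‖) * r ^ n := by
      intro r; ring
    simp_rw [h5]
    rw [intervalIntegral.integral_const_mul, integral_pow]
    rw [Nat.factorial_succ]
    push_cast
    have hf : ((n.factorial : ℕ) : ℝ) ≠ 0 := by exact_mod_cast n.factorial_ne_zero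
    have hn : (n : ℝ) + 1 ≠ 0 := by positivity
    field_simp
    ring

theorem fr_lin_exists {X : Type*} [NormedAddCommGroup X] [NormedSpace ℝ X] [CompleteSpace X]
    (L : ℝ → X →L[ℝ] X) (hL : Continuous L) (x0 : X) :
    ∃ G : ℝ → X, G 0 = x0 ∧ ∀ t ∈ Icc (0 : ℝ) 1, HasDerivAt G (L t (G t)) t := by
  obtain ⟨K, hK⟩ := isCompact_Icc.exists_bound_of_continuousOn (s := Icc (0 : ℝ) 1) hL.continuousOn
  have hK0 : 0 ≤ |K| := abs_nonneg K
  have hb : ∀ r ∈ Icc (0 : ℝ) 1, ‖L r‖ ≤ |K| := fun r hr => (hK r hr).trans (le_abs_self K)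
  obtain ⟨n, hn⟩ : ∃ n : ℕ, |K| ^ n / n.factorial < 1 / 2 := by
    have := FloorSemiring.tendsto_pow_div_factorial_atTop |K|
    exact (this.eventually (gt_mem_nhds (by norm_num : (0 : ℝ) < 1 / 2))).exists
  have hc : ContractingWith (1 / 2 : NNReal) (fr_pic L hL x0)^[n] := by
    refine ⟨by rw [← NNReal.coe_lt_coe]; norm_num, LipschitzWith.of_dist_le_mul fun β γ => ?_⟩
    rw [dist_eq_norm, dist_eq_norm, ContinuousMap.norm_le _ (by positivity)]
    intro s
    have h1 := fr_pic_iter L hL x0 hK0 hb β γ n s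
    have h2 : (s : ℝ) ^ n ≤ 1 := pow_le_one₀ s.2.1 s.2.2
    have h3 : |K| ^ n * (s : ℝ) ^ n / n.factorial ≤ |K| ^ n / n.factorial := by
      apply div_le_div_of_nonneg_right _ (by positivity)
      have : 0 ≤ |K| ^ n := by positivity
      nlinarith
    calc _ ≤ |K| ^ n * (s : ℝ) ^ n / n.factorial * ‖β - γ‖ := h1
      _ ≤ (1 / 2) * ‖β - γ‖ := mul_le_mul_of_nonneg_right (h3.trans hn.le) (norm_nonneg _)
      _ = _ := by norm_num
  have hfix := hc.isFixedPt_fixedPoint_iterate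
  set β := hc.fixedPoint (fr_pic L hL x0)^[n] with hβ
  have hval : ∀ s : unitInterval, β s = x0 + ∫ r in (0 : ℝ)..s, L r (fr_ext β r) := by
    intro s
    have h1 : fr_pic L hL x0 β = β := hfix
    conv_lhs => rw [← h1]
    rfl
  refine ⟨fun t => x0 + ∫ r in (0 : ℝ)..t, L r (fr_ext β r), by simp, ?_⟩
  intro t ht
  have hcont : Continuous (fun r => L r (fr_ext β r)) := hL.clm_apply (fr_ext_cont β)
  have h1 := (intervalIntegral.integral_hasDerivAt_right (hcont.intervalIntegrable 0 t)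
    hcont.stronglyMeasurable.stronglyMeasurableAtFilter hcont.continuousAt).const_add x0
  have h2 : x0 + ∫ r in (0 : ℝ)..t, L r (fr_ext β r) = fr_ext β t := by
    rw [fr_ext_mem β ht, hval]
  simp only [h2]
  exact h1


/-- quadratic Taylor estimate on a closed ball -/
theorem fr_taylor {E' W : Type*} [NormedAddCommGroup E'] [NormedSpace ℝ E'] [FiniteDimensional ℝ E']
    [NormedAddCommGroup W] [NormedSpace ℝ W] (y0 : E') {r ρ : ℝ} (hρ : ρ < r) (A : E' → W)
    (hA : ContDiffOn ℝ ∞ A (Metric.ball y0 r)) :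
    ∃ C0 C1 C2 : ℝ, 0 ≤ C0 ∧ 0 ≤ C1 ∧ 0 ≤ C2 ∧
      (∀ x ∈ Metric.closedBall y0 ρ, ‖A x‖ ≤ C0) ∧
      (∀ x ∈ Metric.closedBall y0 ρ, ‖fderiv ℝ A x‖ ≤ C1) ∧
      (∀ a ∈ Metric.closedBall y0 ρ, ∀ b ∈ Metric.closedBall y0 ρ, ‖A b - A a‖ ≤ C1 * ‖b - a‖) ∧
      (∀ a ∈ Metric.closedBall y0 ρ, ∀ b ∈ Metric.closedBall y0 ρ,
        ‖A b - A a - fderiv ℝ A a (b - a)‖ ≤ C2 * ‖b - a‖ ^ 2) := by
  haveI : ProperSpace E' := FiniteDimensional.proper ℝ E'
  have hsub : Metric.closedBall y0 ρ ⊆ Metric.ball y0 r := Metric.closedBall_subset_ball hρ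
  have hcomp : IsCompact (Metric.closedBall y0 ρ) := isCompact_closedBall y0 ρ
  have hconv : Convex ℝ (Metric.closedBall y0 ρ) := convex_closedBall y0 ρ
  have hop : IsOpen (Metric.ball y0 r) := Metric.isOpen_ball
  have hA1 : ContDiffOn ℝ ∞ (fderiv ℝ A) (Metric.ball y0 r) := hA.fderiv_of_isOpen hop (by norm_cast)
  have hA2 : ContDiffOn ℝ ∞ (fderiv ℝ (fderiv ℝ A)) (Metric.ball y0 r) := hA1.fderiv_of_isOpen hop (by norm_cast)
  obtain ⟨C0, h0⟩ := hcomp.exists_bound_of_continuousOn (hA.continuousOn.mono hsub)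
  obtain ⟨C1, h1⟩ := hcomp.exists_bound_of_continuousOn (hA1.continuousOn.mono hsub)
  obtain ⟨C2, h2⟩ := hcomp.exists_bound_of_continuousOn (f := fderiv ℝ (fderiv ℝ A)) (hA2.continuousOn.mono hsub)
  have hdA : ∀ x ∈ Metric.closedBall y0 ρ, HasFDerivAt A (fderiv ℝ A x) x := fun x hx =>
    ((hA.differentiableOn (by norm_num)).differentiableAt (hop.mem_nhds (hsub hx))).hasFDerivAt
  have hdA1 : ∀ x ∈ Metric.closedBall y0 ρ, HasFDerivAt (fderiv ℝ A) (fderiv ℝ (fderiv ℝ A) x) x := fun x hx =>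
    ((hA1.differentiableOn (by norm_num)).differentiableAt (hop.mem_nhds (hsub hx))).hasFDerivAt
  refine ⟨|C0|, |C1|, |C2|, abs_nonneg _, abs_nonneg _, abs_nonneg _,
    fun x hx => (h0 x hx).trans (le_abs_self _), fun x hx => (h1 x hx).trans (le_abs_self _), ?_, ?_⟩
  · intro a ha b hb
    exact hconv.norm_image_sub_le_of_norm_hasFDerivWithin_le (f := A) (f' := fderiv ℝ A)
      (fun x hx => (hdA x hx).hasFDerivWithinAt) (fun x hx => (h1 x hx).trans (le_abs_self _)) ha hb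
  · intro a ha b hb
    have hseg : segment ℝ a b ⊆ Metric.closedBall y0 ρ := hconv.segment_subset ha hb
    have hlip : ∀ x ∈ segment ℝ a b, ‖fderiv ℝ A x - fderiv ℝ A a‖ ≤ |C2| * ‖b - a‖ := by
      intro x hx
      have h3 := hconv.norm_image_sub_le_of_norm_hasFDerivWithin_le (f := fderiv ℝ A) (f' := fderiv ℝ (fderiv ℝ A))
        (fun x hx => (hdA1 x hx).hasFDerivWithinAt) (fun x hx => (h2 x hx).trans (le_abs_self _)) ha (hseg hx)
      refine h3.trans (mul_le_mul_of_nonneg_left ?_ (abs_nonneg _))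
      rw [segment_eq_image'] at hx
      obtain ⟨θ, hθ, rfl⟩ := hx
      rw [add_sub_cancel_left, norm_smul, Real.norm_of_nonneg hθ.1]
      exact mul_le_of_le_one_left (norm_nonneg _) hθ.2
    have h4 := (convex_segment a b).norm_image_sub_le_of_norm_hasFDerivWithin_le'
      (f := A) (f' := fderiv ℝ A) (φ := fderiv ℝ A a) (C := |C2| * ‖b - a‖)
      (fun z hz => (hdA z (hseg hz)).hasFDerivWithinAt) hlip (left_mem_segment ℝ _ _) (right_mem_segment ℝ _ _)
    refine h4.trans (le_of_eq (by ring))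

/-- paths -/
theorem fr_path {E' F' V' : Type*} [NormedAddCommGroup E'] [NormedSpace ℝ E']
    [FiniteDimensional ℝ E'] [NormedAddCommGroup F'] [NormedSpace ℝ F'] [FiniteDimensional ℝ F']
    [NormedAddCommGroup V'] [NormedSpace ℝ V'] [FiniteDimensional ℝ V']
    (y0 : E') {r : ℝ} (A : E' → E' →L[ℝ] F' →L[ℝ] F')
    (hA : ContDiffOn ℝ ∞ A (Metric.ball y0 r)) (Ψ0 : F' →L[ℝ] V') (z : E') (hz : z ∈ Metric.ball y0 r) :
    ∃ g : ℝ → (F' →L[ℝ] V'), g 0 = Ψ0 ∧ ∀ s ∈ Icc (0 : ℝ) 1,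
      HasDerivAt g ((g s).comp (A (y0 + s • (z - y0)) (z - y0))) s := by
  haveI : CompleteSpace V' := FiniteDimensional.complete ℝ V'
  set p : ℝ → E' := fun s => y0 + ((projIcc (0 : ℝ) 1 zero_le_one s : unitInterval) : ℝ) • (z - y0) with hp
  have hpc : Continuous p := by
    apply continuous_const.add
    exact (continuous_subtype_val.comp continuous_projIcc).smul continuous_const
  have hpm : ∀ s, p s ∈ Metric.ball y0 r := by
    intro s
    rw [Metric.mem_ball, dist_eq_norm] at hz ⊢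
    simp only [hp, add_sub_cancel_left, norm_smul]
    have h1 := (projIcc (0 : ℝ) 1 zero_le_one s).2
    rw [Real.norm_of_nonneg h1.1]
    exact lt_of_le_of_lt (mul_le_of_le_one_left (norm_nonneg _) h1.2) hz
  have hAc : Continuous (fun s => A (p s) (z - y0)) := by
    have h1 : Continuous (fun s => A (p s)) := by
      rw [← continuousOn_univ]
      exact hA.continuousOn.comp hpc.continuousOn (fun s _ => hpm s)
    exact h1.clm_apply continuous_const
  set L : ℝ → (F' →L[ℝ] V') →L[ℝ] (F' →L[ℝ] V') :=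
    fun s => (ContinuousLinearMap.compL ℝ F' F' V').flip (A (p s) (z - y0)) with hL
  have hLc : Continuous L := (ContinuousLinearMap.continuous _).comp hAc
  obtain ⟨g, h0, h1⟩ := fr_lin_exists L hLc Ψ0
  refine ⟨g, h0, fun s hs => ?_⟩
  have h2 := h1 s hs
  have h3 : p s = y0 + s • (z - y0) := by
    simp only [hp]
    rw [projIcc_of_mem _ hs]
  simp only [hL, ContinuousLinearMap.flip_apply, ContinuousLinearMap.compL_apply, h3] at h2
  exact h2


set_option maxHeartbeats 2000000 in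
theorem fr_est {E' F' V' : Type*} [NormedAddCommGroup E'] [NormedSpace ℝ E']
    [FiniteDimensional ℝ E'] [NormedAddCommGroup F'] [NormedSpace ℝ F'] [FiniteDimensional ℝ F']
    [NormedAddCommGroup V'] [NormedSpace ℝ V'] [FiniteDimensional ℝ V']
    (y0 : E') {r : ℝ} (A : E' → E' →L[ℝ] F' →L[ℝ] F')
    (hA : ContDiffOn ℝ ∞ A (Metric.ball y0 r))
    (hflat : ∀ y ∈ Metric.ball y0 r, ∀ u v : E', ∀ w : F',
      (fderiv ℝ A y v) u w - (fderiv ℝ A y u) v w + A y v (A y u w) - A y u (A y v w) = 0)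
    (Ψ0 : F' →L[ℝ] V') (g : E' → ℝ → (F' →L[ℝ] V')) (hg0 : ∀ z ∈ Metric.ball y0 r, g z 0 = Ψ0)
    (hg : ∀ z ∈ Metric.ball y0 r, ∀ s ∈ Icc (0 : ℝ) 1,
      HasDerivAt (g z) ((g z s).comp (A (y0 + s • (z - y0)) (z - y0))) s)
    (y : E') (hy : y ∈ Metric.ball y0 r) :
    ∃ C δ : ℝ, 0 ≤ C ∧ 0 < δ ∧ ∀ u : E', ‖u‖ < δ → y + u ∈ Metric.ball y0 r ∧
      ‖g (y + u) 1 - g y 1 - (g y 1).comp (A y u)‖ ≤ C * ‖u‖ ^ 2 := by
  have hy' : ‖y - y0‖ < r := by rwa [Metric.mem_ball, dist_eq_norm] at hy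
  obtain ⟨ρ, hρ1, hρ2⟩ := exists_between hy'
  have hρ0 : 0 ≤ ρ := (norm_nonneg _).trans hρ1.le
  obtain ⟨C0, C1, C2, hC0, hC1, hC2, b0, b1, bl, bt⟩ := fr_taylor y0 hρ2 A hA
  have hcont : ContinuousOn (g y) (Icc (0 : ℝ) 1) := fun s hs => (hg y hy s hs).continuousAt.continuousWithinAt
  obtain ⟨B', hB'⟩ := isCompact_Icc.exists_bound_of_continuousOn hcont
  set B := |B'| with hBdef
  have hB0 : 0 ≤ B := abs_nonneg _
  have hB : ∀ s ∈ Icc (0 : ℝ) 1, ‖g y s‖ ≤ B := fun s hs => (hB' s hs).trans (le_abs_self _)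
  set K : ℝ := C0 * ρ + 1 with hK
  have hK0 : 0 < K := by positivity
  set Q : ℝ := B * (C2 * ρ + C1) + B * C0 * (C1 * ρ + C0) with hQ
  have hQ0 : 0 ≤ Q := by positivity
  refine ⟨Q / K * (Real.exp (K * 1) - 1), ρ - ‖y - y0‖, ?_, by linarith, ?_⟩
  · apply mul_nonneg (by positivity)
    have : (1 : ℝ) ≤ Real.exp (K * 1) := Real.one_le_exp (by positivity)
    linarith
  intro u hu
  set z := y + u with hz
  set d := y - y0 with hd
  have hzd : z - y0 = d + u := by rw [hz, hd]; abel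
  have hdn : ‖d‖ ≤ ρ := hρ1.le
  have hdun : ‖d + u‖ ≤ ρ := (norm_add_le _ _).trans (by linarith)
  have hzb : z ∈ Metric.ball y0 r := by
    rw [Metric.mem_ball, dist_eq_norm, hzd]; exact lt_of_le_of_lt hdun hρ2
  refine ⟨hzb, ?_⟩
  have hγ : ∀ s ∈ Icc (0 : ℝ) 1, y0 + s • d ∈ Metric.closedBall y0 ρ := by
    intro s hs
    rw [Metric.mem_closedBall, dist_eq_norm, add_sub_cancel_left, norm_smul, Real.norm_of_nonneg hs.1]
    exact (mul_le_of_le_one_left (norm_nonneg _) hs.2).trans hdn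
  have hζ : ∀ s ∈ Icc (0 : ℝ) 1, y0 + s • (d + u) ∈ Metric.closedBall y0 ρ := by
    intro s hs
    rw [Metric.mem_closedBall, dist_eq_norm, add_sub_cancel_left, norm_smul, Real.norm_of_nonneg hs.1]
    exact (mul_le_of_le_one_left (norm_nonneg _) hs.2).trans hdun
  have hsub : Metric.closedBall y0 ρ ⊆ Metric.ball y0 r := Metric.closedBall_subset_ball hρ2
  set Ef : ℝ → (F' →L[ℝ] V') := fun s => g z s - g y s - s • (g y s).comp (A (y0 + s • d) u) with hEf
  set Ed : ℝ → (F' →L[ℝ] V') := fun s => (g z s).comp (A (y0 + s • (d + u)) (d + u))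
    - (g y s).comp (A (y0 + s • d) d)
    - (s • (((g y s).comp (A (y0 + s • d) d)).comp (A (y0 + s • d) u)
        + (g y s).comp ((fderiv ℝ A (y0 + s • d) d) u)) + (1 : ℝ) • (g y s).comp (A (y0 + s • d) u)) with hEd'
  have hEd : ∀ s ∈ Icc (0 : ℝ) 1, HasDerivAt Ef (Ed s) s := by
    intro s hs
    have h1 := hg z hzb s hs
    rw [hzd] at h1
    have h2 := hg y hy s hs
    have hAd : HasFDerivAt A (fderiv ℝ A (y0 + s • d)) (y0 + s • d) :=
      ((hA.differentiableOn (by norm_num)).differentiableAt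
        (Metric.isOpen_ball.mem_nhds (hsub (hγ s hs)))).hasFDerivAt
    have hγd : HasDerivAt (fun s : ℝ => y0 + s • d) d s := by
      simpa using ((hasDerivAt_id s).smul_const d).const_add y0
    have h3 : HasDerivAt (fun s : ℝ => A (y0 + s • d)) (fderiv ℝ A (y0 + s • d) d) s := by
      have h3' := (HasFDerivAt.comp (g := A) (f := fun s : ℝ => y0 + s • d) s hAd hγd.hasFDerivAt).hasDerivAt
      simpa [Function.comp_def] using h3'
    have h4 : HasDerivAt (fun s : ℝ => A (y0 + s • d) u) ((fderiv ℝ A (y0 + s • d) d) u) s := by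
      simpa using h3.clm_apply (hasDerivAt_const s u)
    have h5 := (h2.clm_comp h4)
    have h6 := (hasDerivAt_id s).smul h5
    exact (h1.sub h2).sub h6
  have hbound : ∀ s ∈ Icc (0 : ℝ) 1, ‖Ed s‖ ≤ K * ‖Ef s‖ + Q * ‖u‖ ^ 2 := by
    intro s hs
    set G := g y s with hG
    set Z := g z s with hZ
    set Av := A (y0 + s • d) with hAv
    set Az := A (y0 + s • (d + u)) with hAz
    set D := fderiv ℝ A (y0 + s • d) with hD
    set R1 : F' →L[ℝ] F' := Az (d + u) - Av d - Av u - s • (D u d) with hR1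
    set R2 : F' →L[ℝ] F' := Az (d + u) - Av d with hR2
    have hfl : ∀ w, D u d w = D d u w - Av u (Av d w) + Av d (Av u w) := by
      intro w
      have := hflat (y0 + s • d) (hsub (hγ s hs)) d u w
      have h2 : D u d w - D d u w + Av u (Av d w) - Av d (Av u w) = 0 := this
      have h3 : D u d w = (D u d w - D d u w + Av u (Av d w) - Av d (Av u w)) + (D d u w - Av u (Av d w) + Av d (Av u w)) := by abel
      rw [h3, h2, zero_add]
    have hid : Ed s = (Ef s).comp (Az (d + u)) + G.comp R1 + s • ((G.comp (Av u)).comp R2) := by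
      ext w
      simp only [hEd', hEf, hR1, hR2, sub_apply, add_apply,
        smul_apply, ContinuousLinearMap.comp_apply, map_sub, map_add, map_smul, hfl,
        ← hG, ← hZ, ← hAv, ← hAz, ← hD]
      module
    rw [hid]
    have n1 : ‖Az (d + u)‖ ≤ C0 * ρ := by
      refine (Az.le_opNorm _).trans ?_
      exact mul_le_mul (b0 _ (hζ s hs)) hdun (norm_nonneg _) hC0
    have hdiff : (y0 + s • (d + u)) - (y0 + s • d) = s • u := by rw [smul_add]; abel
    have hsu : ‖s • u‖ ≤ ‖u‖ := by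
      rw [norm_smul, Real.norm_of_nonneg hs.1]; exact mul_le_of_le_one_left (norm_nonneg _) hs.2
    have l1 : ‖Az - Av‖ ≤ C1 * ‖u‖ := by
      have := bl _ (hγ s hs) _ (hζ s hs)
      rw [hdiff] at this
      exact this.trans (mul_le_mul_of_nonneg_left hsu hC1)
    have l2 : ‖Az - Av - D (s • u)‖ ≤ C2 * ‖u‖ ^ 2 := by
      have := bt _ (hγ s hs) _ (hζ s hs)
      rw [hdiff] at this
      refine this.trans (mul_le_mul_of_nonneg_left ?_ hC2)
      exact pow_le_pow_left₀ (norm_nonneg _) hsu 2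
    have r1 : R1 = (Az - Av - D (s • u)) d + (Az - Av) u := by
      rw [hR1, hR2]
      simp only [sub_apply, map_add, map_smul, smul_apply]
      module
    have r2 : R2 = (Az - Av) (d + u) + Av u := by
      rw [hR2]
      simp only [sub_apply, map_add]
      module
    have nR1 : ‖R1‖ ≤ (C2 * ρ + C1) * ‖u‖ ^ 2 := by
      rw [r1]
      refine (norm_add_le _ _).trans ?_
      have e1 : ‖(Az - Av - D (s • u)) d‖ ≤ C2 * ‖u‖ ^ 2 * ρ :=
        ((Az - Av - D (s • u)).le_opNorm d).trans (mul_le_mul l2 hdn (norm_nonneg _) (by positivity))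
      have e2 : ‖(Az - Av) u‖ ≤ C1 * ‖u‖ * ‖u‖ :=
        ((Az - Av).le_opNorm u).trans (mul_le_mul_of_nonneg_right l1 (norm_nonneg _))
      calc _ ≤ C2 * ‖u‖ ^ 2 * ρ + C1 * ‖u‖ * ‖u‖ := add_le_add e1 e2
        _ = _ := by ring
    have nAvu : ‖Av u‖ ≤ C0 * ‖u‖ :=
      (Av.le_opNorm u).trans (mul_le_mul_of_nonneg_right (b0 _ (hγ s hs)) (norm_nonneg _))
    have nR2 : ‖R2‖ ≤ (C1 * ρ + C0) * ‖u‖ := by
      rw [r2]
      refine (norm_add_le _ _).trans ?_
      have e1 : ‖(Az - Av) (d + u)‖ ≤ C1 * ‖u‖ * ρ :=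
        ((Az - Av).le_opNorm (d + u)).trans (mul_le_mul l1 hdun (norm_nonneg _) (by positivity))
      calc _ ≤ C1 * ‖u‖ * ρ + C0 * ‖u‖ := add_le_add e1 nAvu
        _ = _ := by ring
    have nG : ‖G‖ ≤ B := hB s hs
    have t1 : ‖(Ef s).comp (Az (d + u))‖ ≤ K * ‖Ef s‖ := by
      refine (ContinuousLinearMap.opNorm_comp_le _ _).trans ?_
      have := norm_nonneg (Ef s)
      nlinarith
    have t2 : ‖G.comp R1‖ ≤ B * ((C2 * ρ + C1) * ‖u‖ ^ 2) :=
      (ContinuousLinearMap.opNorm_comp_le _ _).trans (mul_le_mul nG nR1 (norm_nonneg _) hB0)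
    have t3 : ‖s • ((G.comp (Av u)).comp R2)‖ ≤ B * (C0 * ‖u‖) * ((C1 * ρ + C0) * ‖u‖) := by
      rw [norm_smul, Real.norm_of_nonneg hs.1]
      refine (mul_le_of_le_one_left (norm_nonneg _) hs.2).trans ?_
      refine (ContinuousLinearMap.opNorm_comp_le _ _).trans ?_
      refine mul_le_mul ?_ nR2 (norm_nonneg _) (by positivity)
      exact (ContinuousLinearMap.opNorm_comp_le _ _).trans (mul_le_mul nG nAvu (norm_nonneg _) hB0)
    calc _ ≤ ‖(Ef s).comp (Az (d + u)) + G.comp R1‖ + ‖s • ((G.comp (Av u)).comp R2)‖ := norm_add_le _ _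
      _ ≤ ‖(Ef s).comp (Az (d + u))‖ + ‖G.comp R1‖ + ‖s • ((G.comp (Av u)).comp R2)‖ := by
          gcongr; exact norm_add_le _ _
      _ ≤ K * ‖Ef s‖ + B * ((C2 * ρ + C1) * ‖u‖ ^ 2) + B * (C0 * ‖u‖) * ((C1 * ρ + C0) * ‖u‖) := by
          gcongr
      _ = K * ‖Ef s‖ + Q * ‖u‖ ^ 2 := by rw [hQ]; ring
  have hE0 : ‖Ef 0‖ ≤ 0 := by
    simp only [hEf, zero_smul, sub_zero, hg0 z hzb, hg0 y hy, sub_self, norm_zero, le_refl]
  have hgr := norm_le_gronwallBound_of_norm_deriv_right_le (f := Ef) (f' := Ed) (δ := 0) (K := K)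
    (ε := Q * ‖u‖ ^ 2) (a := 0) (b := 1)
    (fun s hs => (hEd s hs).continuousAt.continuousWithinAt)
    (fun s hs => (hEd s (Ico_subset_Icc_self hs)).hasDerivWithinAt) hE0
    (fun s hs => hbound s (Ico_subset_Icc_self hs)) 1 (right_mem_Icc.2 zero_le_one)
  have hE1 : Ef 1 = g (y + u) 1 - g y 1 - (g y 1).comp (A y u) := by
    have e1 : y0 + (1 : ℝ) • d = y := by rw [one_smul, hd]; abel
    show g z 1 - g y 1 - (1 : ℝ) • (g y 1).comp (A (y0 + (1 : ℝ) • d) u) = _
    rw [e1, one_smul]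
  rw [hE1] at hgr
  refine hgr.trans (le_of_eq ?_)
  rw [gronwallBound_of_K_ne_0 hK0.ne']
  simp only [sub_zero, zero_mul, zero_add]
  ring

theorem fr_smooth {E' F' V' : Type*} [NormedAddCommGroup E'] [NormedSpace ℝ E']
    [NormedAddCommGroup F'] [NormedSpace ℝ F']
    [NormedAddCommGroup V'] [NormedSpace ℝ V']
    (y0 : E') {r : ℝ} (A : E' → E' →L[ℝ] F' →L[ℝ] F')
    (hA : ContDiffOn ℝ ∞ A (Metric.ball y0 r)) (Ψ : E' → F' →L[ℝ] V')
    (hd : ∀ y ∈ Metric.ball y0 r, HasFDerivAt Ψ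
      (((ContinuousLinearMap.compL ℝ F' F' V') (Ψ y)).comp (A y)) y) :
    ContDiffOn ℝ ∞ Ψ (Metric.ball y0 r) := by
  rw [contDiffOn_infty]
  intro n
  induction n with
  | zero =>
    rw [Nat.cast_zero, contDiffOn_zero]
    exact fun y hy => (hd y hy).continuousAt.continuousWithinAt
  | succ n ih =>
    push_cast
    rw [contDiffOn_succ_iff_fderiv_of_isOpen Metric.isOpen_ball]
    refine ⟨fun y hy => (hd y hy).differentiableAt.differentiableWithinAt, by simp, ?_⟩
    have h1 : ContDiffOn ℝ n (fun y => ((ContinuousLinearMap.compL ℝ F' F' V') (Ψ y)).comp (A y)) (Metric.ball y0 r) := by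
      apply ContDiffOn.clm_comp
      · exact (ContinuousLinearMap.contDiff _).comp_contDiffOn ih
      · exact hA.of_le (by exact_mod_cast le_top)
    exact h1.congr (fun y hy => (hd y hy).fderiv)

end frob

/-- Frobenius theorem for flat linear systems on a ball -/
theorem frobenius_linear {E' F' V' : Type*} [NormedAddCommGroup E'] [NormedSpace ℝ E']
    [FiniteDimensional ℝ E'] [NormedAddCommGroup F'] [NormedSpace ℝ F'] [FiniteDimensional ℝ F']
    [NormedAddCommGroup V'] [NormedSpace ℝ V'] [FiniteDimensional ℝ V']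
    (y0 : E') {r : ℝ} (hr : 0 < r) (A : E' → E' →L[ℝ] F' →L[ℝ] F')
    (hA : ContDiffOn ℝ ∞ A (Metric.ball y0 r))
    (hflat : ∀ y ∈ Metric.ball y0 r, ∀ u v : E', ∀ w : F',
      (fderiv ℝ A y v) u w - (fderiv ℝ A y u) v w + A y v (A y u w) - A y u (A y v w) = 0)
    (Ψ0 : F' →L[ℝ] V') :
    ∃ Ψ : E' → F' →L[ℝ] V', ContDiffOn ℝ ∞ Ψ (Metric.ball y0 r) ∧ Ψ y0 = Ψ0 ∧
      ∀ y ∈ Metric.ball y0 r, ∀ u : E', ∀ w : F', (fderiv ℝ Ψ y u) w = Ψ y (A y u w) := by
  classical
  have hex := fr_path (V' := V') y0 A hA Ψ0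
  choose g hg0 hg using hex
  set gg : E' → ℝ → (F' →L[ℝ] V') := fun z => if h : z ∈ Metric.ball y0 r then g z h else fun _ => 0 with hgg
  have e : ∀ z (h : z ∈ Metric.ball y0 r), gg z = g z h := fun z h => by simp only [hgg, h, dif_pos]
  have hgg0 : ∀ z ∈ Metric.ball y0 r, gg z 0 = Ψ0 := fun z h => by rw [e z h]; exact hg0 z h
  have hgg1 : ∀ z ∈ Metric.ball y0 r, ∀ s ∈ Icc (0 : ℝ) 1,
      HasDerivAt (gg z) ((gg z s).comp (A (y0 + s • (z - y0)) (z - y0))) s := fun z h s hs => by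
    rw [e z h]; exact hg z h s hs
  set Ψ : E' → F' →L[ℝ] V' := fun z => gg z 1 with hΨ
  have hd : ∀ y ∈ Metric.ball y0 r, HasFDerivAt Ψ
      (((ContinuousLinearMap.compL ℝ F' F' V') (Ψ y)).comp (A y)) y := by
    intro y hy
    obtain ⟨C, δ, hC, hδ, hest⟩ := fr_est y0 A hA hflat Ψ0 gg hgg0 hgg1 y hy
    rw [hasFDerivAt_iff_isLittleO_nhds_zero]
    have hO : (fun h => Ψ (y + h) - Ψ y - (((ContinuousLinearMap.compL ℝ F' F' V') (Ψ y)).comp (A y)) h)
        =O[𝓝 0] fun h : E' => ‖h‖ ^ 2 := by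
      apply Asymptotics.IsBigO.of_bound C
      filter_upwards [Metric.ball_mem_nhds (0 : E') hδ] with h hh
      rw [mem_ball_zero_iff] at hh
      have := (hest h hh).2
      rw [Real.norm_of_nonneg (by positivity)]
      exact this
    refine hO.trans_isLittleO ?_
    have : (fun h : E' => ‖h‖ ^ 2) =o[𝓝 0] fun h : E' => ‖h‖ := by
      have h2 := (Asymptotics.isLittleO_pow_id (𝕜 := ℝ) (n := 2) (by norm_num)).comp_tendsto
        (tendsto_norm_zero (E := E'))
      exact h2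
    exact Asymptotics.isLittleO_norm_right.1 this
  refine ⟨Ψ, fr_smooth y0 A hA Ψ hd, ?_, ?_⟩
  · have hy0 : y0 ∈ Metric.ball y0 r := Metric.mem_ball_self hr
    have hconst : ∀ s ∈ Icc (0 : ℝ) 1, gg y0 s = gg y0 0 := by
      apply constant_of_has_deriv_right_zero
      · exact fun s hs => (hgg1 y0 hy0 s hs).continuousAt.continuousWithinAt
      · intro s hs
        have := hgg1 y0 hy0 s (Ico_subset_Icc_self hs)
        rw [sub_self, map_zero, ContinuousLinearMap.comp_zero] at this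
        exact this.hasDerivWithinAt
    simp only [hΨ]
    rw [hconst 1 (right_mem_Icc.2 zero_le_one), hgg0 y0 hy0]
  · intro y hy u w
    rw [(hd y hy).fderiv]
    rfl

end Pool.Agent.Helper107.LC
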