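import Mathlib
import Pool.Agent.Helper107.LC.MDefs2
import Pool.Agent.Helper107.LC.MFrob
set_option autoImplicit false
open Set Filter Topology
open scoped ContDiff

namespace Pool.Agent.Helper107.LC



theorem dev_par {F₁ : Type*} [NormedAddCommGroup F₁] [NormedSpace ℝ F₁] [FiniteDimensional ℝ F₁]
    (h : ℝ → F₁ →ₗ[ℝ] F₁ →ₗ[ℝ] ℝ) (a : ℝ → F₁ →ₗ[ℝ] F₁)
    (ha : ∀ w, ContinuousOn (fun t => a t w) (Icc (0:ℝ) 1))
    (hder : ∀ t ∈ Icc (0:ℝ) 1, ∀ w w', HasDerivAt (fun t => h t w w')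
      (h t (a t w) w' + h t w (a t w')) t)
    (h0 : ∀ w w', h 0 w w' = 0) : ∀ t ∈ Icc (0:ℝ) 1, ∀ w w', h t w w' = 0 := by
  let e := Module.finBasis ℝ F₁
  have hcoord : ∀ k i, ∃ c : ℝ, ∀ t ∈ Icc (0:ℝ) 1, ‖e.coord k (a t (e i))‖ ≤ c := by
    intro k i
    have hc : ContinuousOn (fun t => e.coord k (a t (e i))) (Icc (0:ℝ) 1) :=
      (LinearMap.continuous_of_finiteDimensional (e.coord k)).comp_continuousOn (ha (e i))
    exact isCompact_Icc.exists_bound_of_continuousOn hc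
  choose c hc using hcoord
  obtain ⟨K, hK⟩ : ∃ K : ℝ, K = ∑ k, ∑ i, |c k i| := ⟨_, rfl⟩
  have hK0 : 0 ≤ K := by
    rw [hK]
    exact Finset.sum_nonneg fun k _ => Finset.sum_nonneg fun i _ => abs_nonneg _
  have hb : ∀ k i, ∀ t ∈ Icc (0:ℝ) 1, ‖e.coord k (a t (e i))‖ ≤ K := by
    intro k i t ht
    refine (hc k i t ht).trans ((le_abs_self _).trans ?_)
    rw [hK]
    refine (Finset.single_le_sum (f := fun i => |c k i|) (fun i _ => abs_nonneg _)
      (Finset.mem_univ i)).trans ?_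
    exact Finset.single_le_sum (f := fun k => ∑ i, |c k i|)
      (fun k _ => Finset.sum_nonneg fun i _ => abs_nonneg _) (Finset.mem_univ k)
  have hexp : ∀ t i, a t (e i) = ∑ k, e.coord k (a t (e i)) • e k := by
    intro t i
    exact (e.sum_repr (a t (e i))).symm
  obtain ⟨f, hf⟩ : ∃ f : ℝ → (Fin (Module.finrank ℝ F₁) × Fin (Module.finrank ℝ F₁)) → ℝ,
    f = fun t p => h t (e p.1) (e p.2) := ⟨_, rfl⟩
  obtain ⟨f', hf'⟩ : ∃ f' : ℝ → (Fin (Module.finrank ℝ F₁) × Fin (Module.finrank ℝ F₁)) → ℝ,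
    f' = fun t p => h t (a t (e p.1)) (e p.2) + h t (e p.1) (a t (e p.2)) := ⟨_, rfl⟩
  have hfd : ∀ t ∈ Icc (0:ℝ) 1, HasDerivAt f (f' t) t := by
    intro t ht
    rw [hf, hf']
    exact hasDerivAt_pi.2 fun p => hder t ht (e p.1) (e p.2)
  have hle : ∀ (t : ℝ) (p : Fin (Module.finrank ℝ F₁) × Fin (Module.finrank ℝ F₁)),
      ‖h t (e p.1) (e p.2)‖ ≤ ‖f t‖ := by
    intro t p
    have h1 := norm_le_pi_norm (f t) p
    rw [hf] at h1 ⊢
    exact h1
  have hbound : ∀ t ∈ Ico (0:ℝ) 1, ‖f' t‖ ≤ (2 * (Module.finrank ℝ F₁ * K)) * ‖f t‖ := by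
    intro t ht
    have ht' : t ∈ Icc (0:ℝ) 1 := ⟨ht.1, ht.2.le⟩
    have hft : 0 ≤ ‖f t‖ := norm_nonneg (f t)
    refine (pi_norm_le_iff_of_nonneg (by positivity)).2 fun p => ?_
    rw [hf']
    show ‖h t (a t (e p.1)) (e p.2) + h t (e p.1) (a t (e p.2))‖ ≤ _
    have e1 : ‖h t (a t (e p.1)) (e p.2)‖ ≤ Module.finrank ℝ F₁ * K * ‖f t‖ := by
      rw [hexp t p.1, map_sum, LinearMap.sum_apply]
      refine (norm_sum_le _ _).trans ?_
      have : ∀ k ∈ (Finset.univ : Finset (Fin (Module.finrank ℝ F₁))),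
          ‖h t (e.coord k (a t (e p.1)) • e k) (e p.2)‖ ≤ K * ‖f t‖ := by
        intro k _
        rw [map_smul, LinearMap.smul_apply, norm_smul]
        exact mul_le_mul (hb k p.1 t ht') (hle t (k, p.2)) (norm_nonneg _) hK0
      refine (Finset.sum_le_sum this).trans (le_of_eq ?_)
      rw [Finset.sum_const, Finset.card_univ, Fintype.card_fin, nsmul_eq_mul]
      ring
    have e2 : ‖h t (e p.1) (a t (e p.2))‖ ≤ Module.finrank ℝ F₁ * K * ‖f t‖ := by
      rw [hexp t p.2, map_sum]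
      refine (norm_sum_le _ _).trans ?_
      have : ∀ k ∈ (Finset.univ : Finset (Fin (Module.finrank ℝ F₁))),
          ‖h t (e p.1) (e.coord k (a t (e p.2)) • e k)‖ ≤ K * ‖f t‖ := by
        intro k _
        rw [map_smul, norm_smul]
        exact mul_le_mul (hb k p.2 t ht') (hle t (p.1, k)) (norm_nonneg _) hK0
      refine (Finset.sum_le_sum this).trans (le_of_eq ?_)
      rw [Finset.sum_const, Finset.card_univ, Fintype.card_fin, nsmul_eq_mul]
      ring
    refine (norm_add_le _ _).trans ((add_le_add e1 e2).trans (le_of_eq ?_))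
    ring
  have hzero : ∀ t ∈ Icc (0:ℝ) 1, f t = 0 := by
    refine eq_zero_of_abs_deriv_le_mul_abs_self_of_eq_zero_right (f' := f')
      (K := 2 * (Module.finrank ℝ F₁ * K))
      (fun t ht => (hfd t ht).continuousAt.continuousWithinAt)
      (fun t ht => (hfd t ⟨ht.1, ht.2.le⟩).hasDerivWithinAt) ?_ hbound
    funext p
    rw [hf]
    exact h0 _ _
  intro t ht w w'
  have h1 : h t = 0 := by
    refine e.ext fun i => e.ext fun j => ?_
    have h2 := congrFun (hzero t ht) (i, j)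
    rw [hf] at h2
    exact h2
  rw [h1]
  rfl

noncomputable def dev_K1 (m : ℕ) : (R m →L[ℝ] R m) →L[ℝ] ((R m × ℝ) →L[ℝ] (R m × ℝ)) :=
  (ContinuousLinearMap.compL ℝ (R m × ℝ) (R m) (R m × ℝ) (ContinuousLinearMap.inl ℝ (R m) ℝ)).comp
    ((ContinuousLinearMap.compL ℝ (R m × ℝ) (R m) (R m)).flip (ContinuousLinearMap.fst ℝ (R m) ℝ))

noncomputable def dev_K2 (κ : ℝ) (m : ℕ) : (R m →L[ℝ] ℝ) →L[ℝ] ((R m × ℝ) →L[ℝ] (R m × ℝ)) :=
  (-κ) • ((ContinuousLinearMap.compL ℝ (R m × ℝ) ℝ (R m × ℝ) (ContinuousLinearMap.inr ℝ (R m) ℝ)).comp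
    ((ContinuousLinearMap.compL ℝ (R m × ℝ) (R m) ℝ).flip (ContinuousLinearMap.fst ℝ (R m) ℝ)))

noncomputable def dev_A0 (m : ℕ) : R m →L[ℝ] ((R m × ℝ) →L[ℝ] (R m × ℝ)) :=
  (ContinuousLinearMap.compL ℝ (R m × ℝ) (R m) (R m × ℝ) (ContinuousLinearMap.inl ℝ (R m) ℝ)).comp
    ((ContinuousLinearMap.smulRightL ℝ (R m × ℝ) (R m)) (ContinuousLinearMap.snd ℝ (R m) ℝ))

theorem dev_K1_apply (m : ℕ) (T : R m →L[ℝ] R m) (w : R m × ℝ) :
    dev_K1 m T w = (T w.1, 0) := rfl

theorem dev_K2_apply (κ : ℝ) (m : ℕ) (T : R m →L[ℝ] ℝ) (w : R m × ℝ) :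
    dev_K2 κ m T w = (0, -κ * T w.1) := by
  have h : dev_K2 κ m T w = (-κ) • ((0 : R m), T w.1) := rfl
  rw [h, Prod.smul_mk, smul_zero, smul_eq_mul]

theorem dev_A0_apply (m : ℕ) (u : R m) (w : R m × ℝ) : dev_A0 m u w = (w.2 • u, 0) := rfl

/-- the connection matrix -/
noncomputable def dev_A (κ : ℝ) {m : ℕ} (C : R m → R m →L[ℝ] R m →L[ℝ] R m)
    (G : R m → R m →L[ℝ] R m →L[ℝ] ℝ) (y : R m) : R m →L[ℝ] (R m × ℝ) →L[ℝ] (R m × ℝ) :=
  (dev_K1 m).comp (C y) + dev_A0 m + (dev_K2 κ m).comp (G y)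

theorem dev_A_apply (κ : ℝ) {m : ℕ} (C : R m → R m →L[ℝ] R m →L[ℝ] R m)
    (G : R m → R m →L[ℝ] R m →L[ℝ] ℝ) (y u : R m) (w : R m × ℝ) : dev_A κ C G y u w =
      (C y u w.1 + w.2 • u, -κ * G y u w.1) := by
  have h : dev_A κ C G y u w = dev_K1 m (C y u) w + dev_A0 m u w + dev_K2 κ m (G y u) w := rfl
  rw [h, dev_K1_apply, dev_K2_apply, dev_A0_apply]
  ext
  · simp
  · simp

theorem dev_A_smooth (κ : ℝ) {m : ℕ} {S : Set (R m)} {C : R m → R m →L[ℝ] R m →L[ℝ] R m}
    {G : R m → R m →L[ℝ] R m →L[ℝ] ℝ} (hC : ContDiffOn ℝ ∞ C S) (hG : ContDiffOn ℝ ∞ G S) :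
    ContDiffOn ℝ ∞ (dev_A κ C G) S := by
  have h1 : ContDiffOn ℝ ∞ (fun y => (dev_K1 m).comp (C y)) S := contDiffOn_const.clm_comp hC
  have h2 : ContDiffOn ℝ ∞ (fun y => (dev_K2 κ m).comp (G y)) S := contDiffOn_const.clm_comp hG
  exact (h1.add contDiffOn_const).add h2

/-- derivative along a line of a CLM valued map -/
theorem dev_line {m : ℕ} {F₁ F₂ : Type*} [NormedAddCommGroup F₁] [NormedSpace ℝ F₁]
    [NormedAddCommGroup F₂] [NormedSpace ℝ F₂] {H : R m → R m →L[ℝ] F₁ →L[ℝ] F₂} {y x : R m} {t : ℝ}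
    (hH : DifferentiableAt ℝ H (y + t • x)) (u : R m) (w : F₁) :
    HasDerivAt (fun t : ℝ => H (y + t • x) u w) ((fderiv ℝ H (y + t • x) x) u w) t := by
  have hline : HasDerivAt (fun t : ℝ => y + t • x) x t := by
    simpa using ((hasDerivAt_id t).smul_const x).const_add y
  have h1 := hH.hasFDerivAt.clm_apply (hasFDerivAt_const u (y + t • x))
  have h2 := h1.clm_apply (hasFDerivAt_const w (y + t • x))
  have h3 := h2.comp_hasDerivAt t hline
  refine HasDerivAt.congr_deriv h3 ?_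
  simp

/-- derivative along a line of a CLM valued map -/
theorem dev_line1 {m : ℕ} {F₁ F₂ : Type*} [NormedAddCommGroup F₁] [NormedSpace ℝ F₁]
    [NormedAddCommGroup F₂] [NormedSpace ℝ F₂] {H : R m → F₁ →L[ℝ] F₂} {y x : R m} {t : ℝ}
    (hH : DifferentiableAt ℝ H (y + t • x)) (w : F₁) :
    HasDerivAt (fun t : ℝ => H (y + t • x) w) ((fderiv ℝ H (y + t • x) x) w) t := by
  have hline : HasDerivAt (fun t : ℝ => y + t • x) x t := by
    simpa using ((hasDerivAt_id t).smul_const x).const_add y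
  have h1 := hH.hasFDerivAt.clm_apply (hasFDerivAt_const w (y + t • x))
  have h3 := h1.comp_hasDerivAt t hline
  refine HasDerivAt.congr_deriv h3 ?_
  simp

theorem dev_A_deriv (κ : ℝ) {m : ℕ} {C : R m → R m →L[ℝ] R m →L[ℝ] R m}
    {G : R m → R m →L[ℝ] R m →L[ℝ] ℝ} {y : R m} (hC : DifferentiableAt ℝ C y)
    (hG : DifferentiableAt ℝ G y) (hA : DifferentiableAt ℝ (dev_A κ C G) y) (v u : R m)
    (w : R m × ℝ) : (fderiv ℝ (dev_A κ C G) y v) u w =
      ((fderiv ℝ C y v) u w.1, -κ * (fderiv ℝ G y v) u w.1) := by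
  have hy : y + (0:ℝ) • v = y := by simp
  have h1 := dev_line (t := 0) (x := v) (by rw [hy]; exact hA) u w
  have h2 := ((dev_line (t := 0) (x := v) (by rw [hy]; exact hC) u w.1).add_const (w.2 • u)).prodMk
    ((dev_line (t := 0) (x := v) (by rw [hy]; exact hG) u w.1).const_mul (-κ))
  rw [hy] at h1 h2
  have e : (fun t : ℝ => dev_A κ C G (y + t • v) u w) = fun t =>
      (C (y + t • v) u w.1 + w.2 • u, -κ * G (y + t • v) u w.1) := by
    funext t; rw [dev_A_apply]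
  rw [e] at h1
  exact h1.unique h2

/-- `Q` as a continuous bilinear map -/
noncomputable def dev_QB (κ : ℝ) (m : ℕ) : V m →L[ℝ] V m →L[ℝ] ℝ :=
  (LinearMap.mk₂ ℝ (Q κ) Q_add_left Q_smul_left Q_add_right Q_smul_right).toContinuousBilinearMap

theorem dev_QB_apply (κ : ℝ) (m : ℕ) (x y : V m) : dev_QB κ m x y = Q κ x y := rfl

/-- `B` as a continuous bilinear map -/
noncomputable def dev_BB (κ : ℝ) (m : ℕ) : V m →L[ℝ] V m →L[ℝ] ℝ :=
  (LinearMap.mk₂ ℝ (B κ) B_add_left B_smul_left B_add_right B_smul_right).toContinuousBilinearMap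

theorem dev_BB_apply (κ : ℝ) (m : ℕ) (x y : V m) : dev_BB κ m x y = B κ x y := rfl

theorem dev_expand {m : ℕ} {G : R m →L[ℝ] R m →L[ℝ] ℝ} (b : Module.Basis (Fin (m + 1)) ℝ (R m))
    (hb : ∀ i j, G (b i) (b j) = if i = j then (if i = 0 then -1 else 1) else 0) (x y : R m) :
    G x y = -(b.coord 0 x * b.coord 0 y) + ∑ i : Fin m, b.coord i.succ x * b.coord i.succ y := by
  have hx : x = ∑ i, b.coord i x • b i := (b.sum_repr x).symm
  have hy : y = ∑ i, b.coord i y • b i := (b.sum_repr y).symm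
  have h1 : G x y = ∑ i, b.coord i x * ∑ j, b.coord j y * G (b i) (b j) := by
    conv_lhs => rw [hx, map_sum]
    rw [ContinuousLinearMap.sum_apply]
    refine Finset.sum_congr rfl fun i _ => ?_
    rw [map_smul, ContinuousLinearMap.smul_apply, smul_eq_mul]
    congr 1
    conv_lhs => rw [hy, map_sum]
    refine Finset.sum_congr rfl fun j _ => ?_
    rw [map_smul, smul_eq_mul]
  have h2 : ∀ i, ∑ j, b.coord j y * G (b i) (b j) = b.coord i y * (if i = 0 then -1 else 1) := by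
    intro i
    rw [Finset.sum_eq_single i]
    · rw [hb, if_pos rfl]
    · intro j _ hji
      rw [hb, if_neg (Ne.symm hji), mul_zero]
    · intro hi
      exact absurd (Finset.mem_univ i) hi
  rw [h1]
  simp only [h2]
  rw [Fin.sum_univ_succ, if_pos rfl]
  have h3 : ∀ i : Fin m, b.coord i.succ x * (b.coord i.succ y * (if i.succ = 0 then -1 else 1)) =
      b.coord i.succ x * b.coord i.succ y := by
    intro i
    rw [if_neg (Fin.succ_ne_zero i), mul_one]
  simp only [h3]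
  ring

theorem dev_nondeg {m : ℕ} {G : R m →L[ℝ] R m →L[ℝ] ℝ} (b : Module.Basis (Fin (m + 1)) ℝ (R m))
    (hb : ∀ i j, G (b i) (b j) = if i = j then (if i = 0 then -1 else 1) else 0) (x : R m)
    (hx : ∀ y, G x y = 0) : x = 0 := by
  refine b.ext_elem fun j => ?_
  have h1 := hx (b j)
  have hx' : x = ∑ i, b.coord i x • b i := (b.sum_repr x).symm
  have h2 : G x (b j) = b.coord j x * (if j = 0 then -1 else 1) := by
    conv_lhs => rw [hx', map_sum]
    rw [ContinuousLinearMap.sum_apply, Finset.sum_eq_single j]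
    · rw [map_smul, ContinuousLinearMap.smul_apply, smul_eq_mul, hb, if_pos rfl]
    · intro i _ hij
      rw [map_smul, ContinuousLinearMap.smul_apply, hb, if_neg hij, smul_zero]
    · intro hi
      exact absurd (Finset.mem_univ j) hi
  rw [h2] at h1
  have h3 : b.coord j x = 0 := by
    split_ifs at h1
    · linarith
    · linarith
  show b.coord j x = b.repr 0 j
  rw [h3]
  simp

/-- initial value -/
noncomputable def dev_P0 {m : ℕ} (b : Module.Basis (Fin (m + 1)) ℝ (R m)) :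
    (R m × ℝ) →ₗ[ℝ] V m :=
  LinearMap.prod ((b.coord 0).comp (LinearMap.fst ℝ (R m) ℝ))
    (LinearMap.prod (((EuclideanSpace.equiv (Fin m) ℝ).symm.toLinearEquiv.toLinearMap).comp
      ((LinearMap.pi fun i : Fin m => b.coord i.succ).comp (LinearMap.fst ℝ (R m) ℝ)))
      (LinearMap.snd ℝ (R m) ℝ))

theorem dev_P0_form {m : ℕ} {G : R m →L[ℝ] R m →L[ℝ] ℝ} (b : Module.Basis (Fin (m + 1)) ℝ (R m))
    (hb : ∀ i j, G (b i) (b j) = if i = j then (if i = 0 then -1 else 1) else 0) (w w' : R m × ℝ) :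
    -((dev_P0 b w).1 * (dev_P0 b w').1) + inner ℝ (dev_P0 b w).2.1 (dev_P0 b w').2.1 =
      G w.1 w'.1 := by
  rw [dev_expand b hb, PiLp.inner_apply]
  congr 1
  refine Finset.sum_congr rfl fun i _ => ?_
  show inner ℝ (b.coord i.succ w.1) (b.coord i.succ w'.1) = _
  rw [real_inner_eq_re_inner]
  simp [mul_comm]

theorem dev_symmD {κ : ℝ} {m : ℕ} {O : Set (R m)}
    {G : R m → R m →L[ℝ] R m →L[ℝ] ℝ} {C : R m → R m →L[ℝ] R m →L[ℝ] R m}
    (h : CCMetric κ m O G C) {y : R m} (hy : y ∈ O) (x u v : R m) :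
    (fderiv ℝ G y x) u v = (fderiv ℝ G y x) v u := by
  have hy0 : y + (0:ℝ) • x = y := by simp
  have hGd : DifferentiableAt ℝ G (y + (0:ℝ) • x) := by
    rw [hy0]
    exact (h.smooth.contDiffAt (h.isOpen.mem_nhds hy)).differentiableAt (by simp)
  have hline : HasDerivAt (fun t : ℝ => y + t • x) x 0 := by
    simpa using ((hasDerivAt_id (0:ℝ)).smul_const x).const_add y
  have key : ∀ p q : R m, HasDerivAt (fun t : ℝ => G (y + t • x) p q) ((fderiv ℝ G y x) p q) 0 := by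
    intro p q
    have h1 := dev_line hGd p q
    rw [hy0] at h1
    exact h1
  have hev : (fun t : ℝ => G (y + t • x) u v) =ᶠ[𝓝 0] (fun t : ℝ => G (y + t • x) v u) := by
    have hc : Filter.Tendsto (fun t : ℝ => y + t • x) (𝓝 0) (𝓝 y) := by
      have h3 := hline.continuousAt.tendsto
      simpa using h3
    filter_upwards [hc (h.isOpen.mem_nhds hy)] with t ht
    exact h.symm _ ht u v
  exact ((key u v).congr_of_eventuallyEq hev.symm).unique (key v u)

theorem dev_symmC {κ : ℝ} {m : ℕ} {O : Set (R m)}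
    {G : R m → R m →L[ℝ] R m →L[ℝ] ℝ} {C : R m → R m →L[ℝ] R m →L[ℝ] R m}
    (h : CCMetric κ m O G C) {y : R m} (hy : y ∈ O) (u v : R m) : C y u v = C y v u := by
  obtain ⟨b, hb⟩ := h.lorentz y hy
  have h1 : C y u v - C y v u = 0 := by
    refine dev_nondeg b hb _ fun w => ?_
    have e1 := h.christoffel y hy u v w
    have e2 := h.christoffel y hy v u w
    have e3 := dev_symmD h hy w u v
    rw [map_sub]
    show G y (C y u v) w - G y (C y v u) w = 0
    linarith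
  exact sub_eq_zero.1 h1

theorem dev_compat {κ : ℝ} {m : ℕ} {O : Set (R m)}
    {G : R m → R m →L[ℝ] R m →L[ℝ] ℝ} {C : R m → R m →L[ℝ] R m →L[ℝ] R m}
    (h : CCMetric κ m O G C) {y : R m} (hy : y ∈ O) (u v w : R m) :
    (fderiv ℝ G y u) v w = G y (C y u v) w + G y v (C y u w) := by
  have e1 := h.christoffel y hy u v w
  have e2 := h.christoffel y hy u w v
  rw [h.symm y hy v (C y u w)]
  have s1 := dev_symmD h hy u v w
  have s2 := dev_symmD h hy v u w
  have s3 := dev_symmD h hy w u v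
  linarith

set_option maxHeartbeats 4000000 in
/-- existence of local isometries into the model space -/
theorem CCMetric.exists_dev {κ : ℝ} {m : ℕ} (hκ : κ = -1 ∨ κ = 0 ∨ κ = 1) {O : Set (R m)}
    {G : R m → R m →L[ℝ] R m →L[ℝ] ℝ} {C : R m → R m →L[ℝ] R m →L[ℝ] R m}
    (h : CCMetric κ m O G C) {y0 : R m} (hy0 : y0 ∈ O) :
    ∃ r > 0, Metric.ball y0 r ⊆ O ∧ ∃ Φ : R m → V m, ContDiffOn ℝ ∞ Φ (Metric.ball y0 r) ∧
      (∀ y ∈ Metric.ball y0 r, Φ y ∈ X κ m) ∧
      ∀ y ∈ Metric.ball y0 r, ∀ u v, B κ (fderiv ℝ Φ y u) (fderiv ℝ Φ y v) = G y u v := by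
  obtain ⟨r, hr, hball⟩ := Metric.isOpen_iff.1 h.isOpen y0 hy0
  have hCd : ∀ y ∈ Metric.ball y0 r, DifferentiableAt ℝ C y := fun y hy =>
    (h.smoothC.contDiffAt (h.isOpen.mem_nhds (hball hy))).differentiableAt (by simp)
  have hGd : ∀ y ∈ Metric.ball y0 r, DifferentiableAt ℝ G y := fun y hy =>
    (h.smooth.contDiffAt (h.isOpen.mem_nhds (hball hy))).differentiableAt (by simp)
  have hA' : ContDiffOn ℝ ∞ (dev_A κ C G) (Metric.ball y0 r) :=
    dev_A_smooth κ (h.smoothC.mono hball) (h.smooth.mono hball)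
  have hAD' : ∀ y ∈ Metric.ball y0 r, ∀ v u w, (fderiv ℝ (dev_A κ C G) y v) u w =
      ((fderiv ℝ C y v) u w.1, -κ * (fderiv ℝ G y v) u w.1) := by
    intro y hy v u w
    exact dev_A_deriv κ (hCd y hy) (hGd y hy)
      ((hA'.contDiffAt (Metric.isOpen_ball.mem_nhds hy)).differentiableAt (by simp)) v u w
  obtain ⟨A, hAdef⟩ : ∃ A : R m → R m →L[ℝ] (R m × ℝ) →L[ℝ] (R m × ℝ),
      A = dev_A κ C G := ⟨_, rfl⟩
  have hAv : ∀ y u w, A y u w = (C y u w.1 + w.2 • u, -κ * G y u w.1) := by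
    intro y u w
    rw [hAdef]
    exact dev_A_apply κ C G y u w
  have hA : ContDiffOn ℝ ∞ A (Metric.ball y0 r) := by
    rw [hAdef]
    exact hA'
  have hAd : ∀ y ∈ Metric.ball y0 r, ∀ v u w, (fderiv ℝ A y v) u w =
      ((fderiv ℝ C y v) u w.1, -κ * (fderiv ℝ G y v) u w.1) := by
    rw [hAdef]
    exact hAD'
  have hflat : ∀ y ∈ Metric.ball y0 r, ∀ u v : R m, ∀ w : R m × ℝ,
      (fderiv ℝ A y v) u w - (fderiv ℝ A y u) v w + A y v (A y u w) - A y u (A y v w) = 0 := by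
    intro y hy u v w
    have hyO := hball hy
    rw [hAd y hy, hAd y hy]
    simp only [hAv]
    have hcurv := h.curv y hyO v u w.1
    have hsC := dev_symmC h hyO u v
    have hsG := h.symm y hyO u v
    have c1 := dev_compat h hyO v u w.1
    have c2 := dev_compat h hyO u v w.1
    ext1
    · show (fderiv ℝ C y v) u w.1 - (fderiv ℝ C y u) v w.1 +
        (C y v (C y u w.1 + w.2 • u) + (-κ * G y u w.1) • v) -
        (C y u (C y v w.1 + w.2 • v) + (-κ * G y v w.1) • u) = 0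
      rw [map_add, map_add, map_smul, map_smul, hsC]
      have e : (fderiv ℝ C y v) u w.1 - (fderiv ℝ C y u) v w.1 +
        (C y v (C y u w.1) + w.2 • C y v u + (-κ * G y u w.1) • v) -
        (C y u (C y v w.1) + w.2 • C y v u + (-κ * G y v w.1) • u) =
        ((fderiv ℝ C y v) u w.1 - (fderiv ℝ C y u) v w.1 + C y v (C y u w.1) - C y u (C y v w.1)) -
        κ • (G y u w.1 • v - G y v w.1 • u) := by module
      rw [e, hcurv, sub_self]
    · show -κ * (fderiv ℝ G y v) u w.1 - -κ * (fderiv ℝ G y u) v w.1 +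
        -κ * G y v (C y u w.1 + w.2 • u) - -κ * G y u (C y v w.1 + w.2 • v) = 0
      rw [map_add, map_add, map_smul, map_smul, smul_eq_mul, smul_eq_mul, c1, c2, hsC,
        h.symm y hyO v u]
      ring
  obtain ⟨b, hb⟩ := h.lorentz y0 hy0
  obtain ⟨Ψ, hΨs, hΨ0, hΨd⟩ := frobenius_linear y0 hr A hA hflat
    (LinearMap.toContinuousLinearMap (dev_P0 b))
  have hΨD : ∀ y ∈ Metric.ball y0 r, DifferentiableAt ℝ Ψ y := fun y hy =>
    (hΨs.contDiffAt (Metric.isOpen_ball.mem_nhds hy)).differentiableAt (by simp)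
  have hΨ0v : ∀ w, Ψ y0 w = dev_P0 b w := fun w => by rw [hΨ0]; rfl
  -- the segment
  have hseg : ∀ y ∈ Metric.ball y0 r, ∀ t ∈ Icc (0:ℝ) 1, y0 + t • (y - y0) ∈ Metric.ball y0 r := by
    intro y hy t ht
    rw [Metric.mem_ball, dist_eq_norm] at hy ⊢
    rw [add_sub_cancel_left, norm_smul, Real.norm_eq_abs, abs_of_nonneg ht.1]
    calc t * ‖y - y0‖ ≤ 1 * ‖y - y0‖ := mul_le_mul_of_nonneg_right ht.2 (norm_nonneg _)
      _ < r := by rw [one_mul]; exact hy
  have hΨt : ∀ y ∈ Metric.ball y0 r, ∀ t ∈ Icc (0:ℝ) 1, ∀ w,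
      HasDerivAt (fun t : ℝ => Ψ (y0 + t • (y - y0)) w)
        (Ψ (y0 + t • (y - y0)) (A (y0 + t • (y - y0)) (y - y0) w)) t := by
    intro y hy t ht w
    have h2 := dev_line1 (hΨD _ (hseg y hy t ht)) w
    rw [hΨd _ (hseg y hy t ht)] at h2
    exact h2
  have hGt : ∀ y ∈ Metric.ball y0 r, ∀ t ∈ Icc (0:ℝ) 1, ∀ p q,
      HasDerivAt (fun t : ℝ => G (y0 + t • (y - y0)) p q)
        ((fderiv ℝ G (y0 + t • (y - y0)) (y - y0)) p q) t := by
    intro y hy t ht p q
    exact dev_line (hGd _ (hseg y hy t ht)) p q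
  have hsegc : ∀ y : R m, Continuous (fun t : ℝ => y0 + t • (y - y0)) := by
    intro y; fun_prop
  have hAc : ∀ y ∈ Metric.ball y0 r, ∀ w, ContinuousOn (fun t : ℝ => A (y0 + t • (y - y0)) (y - y0) w)
      (Icc (0:ℝ) 1) := by
    intro y hy w
    have h1 : ContinuousOn (fun t : ℝ => A (y0 + t • (y - y0))) (Icc (0:ℝ) 1) :=
      hA.continuousOn.comp (hsegc y).continuousOn (hseg y hy)
    exact (h1.clm_apply continuousOn_const).clm_apply continuousOn_const
  have hCc : ∀ y ∈ Metric.ball y0 r, ∀ w, ContinuousOn (fun t : ℝ => C (y0 + t • (y - y0)) (y - y0) w)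
      (Icc (0:ℝ) 1) := by
    intro y hy w
    have h1 : ContinuousOn (fun t : ℝ => C (y0 + t • (y - y0))) (Icc (0:ℝ) 1) :=
      (h.smoothC.mono hball).continuousOn.comp (hsegc y).continuousOn (hseg y hy)
    exact (h1.clm_apply continuousOn_const).clm_apply continuousOn_const
  -- claim 1
  have claim1 : ∀ y ∈ Metric.ball y0 r, ∀ w w',
      Q κ (Ψ y w) (Ψ y w') = κ * G y w.1 w'.1 + w.2 * w'.2 := by
    intro y hy w w'
    obtain ⟨hh, hhv⟩ : ∃ hh : ℝ → (R m × ℝ) →ₗ[ℝ] (R m × ℝ) →ₗ[ℝ] ℝ, ∀ t w w', hh t w w' =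
        Q κ (Ψ (y0 + t • (y - y0)) w) (Ψ (y0 + t • (y - y0)) w') -
        (κ * G (y0 + t • (y - y0)) w.1 w'.1 + w.2 * w'.2) := by
      refine ⟨fun t => LinearMap.mk₂ ℝ (fun w w' : R m × ℝ =>
        Q κ (Ψ (y0 + t • (y - y0)) w) (Ψ (y0 + t • (y - y0)) w') -
        (κ * G (y0 + t • (y - y0)) w.1 w'.1 + w.2 * w'.2)) ?_ ?_ ?_ ?_, fun _ _ _ => rfl⟩
      · intro a b c
        simp only [map_add, Q_add_left, Prod.fst_add, Prod.snd_add]
        show _ - (κ * (G (y0 + t • (y - y0)) a.1 c.1 + G (y0 + t • (y - y0)) b.1 c.1) + _) = _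
        ring
      · intro s a c
        simp only [map_smul, Q_smul_left, Prod.smul_fst, Prod.smul_snd, smul_eq_mul]
        show _ - (κ * (s * (G (y0 + t • (y - y0)) a.1 c.1)) + _) = _
        ring
      · intro a b c
        simp only [map_add, Q_add_right, Prod.fst_add, Prod.snd_add]
        ring
      · intro s a c
        simp only [map_smul, Q_smul_right, Prod.smul_fst, Prod.smul_snd, smul_eq_mul]
        ring
    have hz := dev_par hh (fun t => (A (y0 + t • (y - y0)) (y - y0) : (R m × ℝ) →ₗ[ℝ] (R m × ℝ)))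
      (hAc y hy) ?_ ?_ 1 ⟨zero_le_one, le_rfl⟩ w w'
    · rw [hhv, one_smul, add_sub_cancel] at hz
      linarith
    · intro t ht w w'
      have hyt := hball (hseg y hy t ht)
      have q1 : HasDerivAt (fun t : ℝ => dev_QB κ m (Ψ (y0 + t • (y - y0)) w)
          (Ψ (y0 + t • (y - y0)) w')) (dev_QB κ m (Ψ (y0 + t • (y - y0))
            (A (y0 + t • (y - y0)) (y - y0) w)) (Ψ (y0 + t • (y - y0)) w') +
          dev_QB κ m (Ψ (y0 + t • (y - y0)) w) (Ψ (y0 + t • (y - y0))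
            (A (y0 + t • (y - y0)) (y - y0) w'))) t := by
        have h1 := ((hasDerivAt_const t (dev_QB κ m)).clm_apply (hΨt y hy t ht w)).clm_apply
          (hΨt y hy t ht w')
        simpa using h1
      have q2 := ((hGt y hy t ht w.1 w'.1).const_mul κ).add_const (w.2 * w'.2)
      have q3 := q1.sub q2
      have e : (fun t => hh t w w') = fun t => dev_QB κ m (Ψ (y0 + t • (y - y0)) w)
          (Ψ (y0 + t • (y - y0)) w') - (κ * G (y0 + t • (y - y0)) w.1 w'.1 + w.2 * w'.2) := by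
        funext s; rw [hhv]; rfl
      have e2 : hh t (A (y0 + t • (y - y0)) (y - y0) w) w' +
          hh t w (A (y0 + t • (y - y0)) (y - y0) w') = dev_QB κ m (Ψ (y0 + t • (y - y0))
            (A (y0 + t • (y - y0)) (y - y0) w)) (Ψ (y0 + t • (y - y0)) w') +
          dev_QB κ m (Ψ (y0 + t • (y - y0)) w) (Ψ (y0 + t • (y - y0))
            (A (y0 + t • (y - y0)) (y - y0) w')) -
            κ * (fderiv ℝ G (y0 + t • (y - y0)) (y - y0)) w.1 w'.1 := by
        rw [hhv, hhv]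
        simp only [dev_QB_apply, hAv]
        rw [dev_compat h hyt, h.symm _ hyt (y - y0) w.1]
        rw [map_add, map_add, map_smul, map_smul]
        show _ - (κ * (G (y0 + t • (y - y0)) (C (y0 + t • (y - y0)) (y - y0) w.1) w'.1 +
          w.2 * G (y0 + t • (y - y0)) (y - y0) w'.1) + _) + _ = _
        rw [smul_eq_mul]
        ring
      rw [e]
      show HasDerivAt _ (hh t (A (y0 + t • (y - y0)) (y - y0) w) w' +
          hh t w (A (y0 + t • (y - y0)) (y - y0) w')) t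
      rw [e2]
      exact q3
    · intro w w'
      rw [hhv, zero_smul, add_zero, hΨ0v, hΨ0v, ← dev_P0_form b hb w w']
      show Q κ (dev_P0 b w) (dev_P0 b w') - _ = 0
      unfold Q
      show κ * _ + w.2 * w'.2 - _ = 0
      ring
  -- claim 2
  have claim2 : ∀ y ∈ Metric.ball y0 r, ∀ p q : R m,
      B κ (Ψ y (p, 0)) (Ψ y (q, 0)) = G y p q := by
    intro y hy p q
    by_cases hk0 : κ = 0
    · obtain ⟨hh, hhv⟩ : ∃ hh : ℝ → R m →ₗ[ℝ] R m →ₗ[ℝ] ℝ, ∀ t p q, hh t p q =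
        B κ (Ψ (y0 + t • (y - y0)) (p, 0)) (Ψ (y0 + t • (y - y0)) (q, 0)) -
        G (y0 + t • (y - y0)) p q := by
        have ea : ∀ a c : R m, ((a + c, (0:ℝ)) : R m × ℝ) = (a, 0) + (c, 0) := by
          intro a c; simp
        have es : ∀ (s : ℝ) (a : R m), ((s • a, (0:ℝ)) : R m × ℝ) = s • (a, (0:ℝ)) := by
          intro s a; simp
        refine ⟨fun t => LinearMap.mk₂ ℝ (fun p q : R m =>
          B κ (Ψ (y0 + t • (y - y0)) (p, 0)) (Ψ (y0 + t • (y - y0)) (q, 0)) -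
          G (y0 + t • (y - y0)) p q) ?_ ?_ ?_ ?_, fun _ _ _ => rfl⟩
        · intro a b c
          rw [ea, map_add, B_add_left, map_add]
          show _ - (G (y0 + t • (y - y0)) a c + G (y0 + t • (y - y0)) b c) = _
          ring
        · intro s a c
          rw [es, map_smul, B_smul_left, map_smul, smul_eq_mul]
          show _ - s * (G (y0 + t • (y - y0)) a c) = _
          ring
        · intro a b c
          rw [ea, map_add, B_add_right, map_add]
          ring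
        · intro s a c
          rw [es, map_smul, B_smul_right, map_smul, smul_eq_mul, smul_eq_mul]
          ring
      have hz := dev_par hh (fun t => (C (y0 + t • (y - y0)) (y - y0) : R m →ₗ[ℝ] R m))
        (hCc y hy) ?_ ?_ 1 ⟨zero_le_one, le_rfl⟩ p q
      · rw [hhv, one_smul, add_sub_cancel] at hz
        linarith
      · intro t ht p q
        have hyt := hball (hseg y hy t ht)
        have q1 : HasDerivAt (fun t : ℝ => dev_BB κ m (Ψ (y0 + t • (y - y0)) (p, 0))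
            (Ψ (y0 + t • (y - y0)) (q, 0))) (dev_BB κ m (Ψ (y0 + t • (y - y0))
              (A (y0 + t • (y - y0)) (y - y0) (p, 0))) (Ψ (y0 + t • (y - y0)) (q, 0)) +
            dev_BB κ m (Ψ (y0 + t • (y - y0)) (p, 0)) (Ψ (y0 + t • (y - y0))
              (A (y0 + t • (y - y0)) (y - y0) (q, 0)))) t := by
          have h1 := ((hasDerivAt_const t (dev_BB κ m)).clm_apply (hΨt y hy t ht (p, 0))).clm_apply
            (hΨt y hy t ht (q, 0))
          simpa using h1
        have q3 := q1.sub (hGt y hy t ht p q)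
        have hA0 : ∀ z p, A z (y - y0) (p, 0) = (C z (y - y0) p, 0) := by
          intro z p
          rw [hAv, hk0]
          simp
        rw [hA0, hA0] at q3
        have e : (fun t => hh t p q) = fun t => dev_BB κ m (Ψ (y0 + t • (y - y0)) (p, 0))
            (Ψ (y0 + t • (y - y0)) (q, 0)) - G (y0 + t • (y - y0)) p q := by
          funext s; rw [hhv]; rfl
        have e2 : hh t (C (y0 + t • (y - y0)) (y - y0) p) q +
            hh t p (C (y0 + t • (y - y0)) (y - y0) q) =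
            dev_BB κ m (Ψ (y0 + t • (y - y0)) (C (y0 + t • (y - y0)) (y - y0) p, 0))
              (Ψ (y0 + t • (y - y0)) (q, 0)) +
            dev_BB κ m (Ψ (y0 + t • (y - y0)) (p, 0)) (Ψ (y0 + t • (y - y0))
              (C (y0 + t • (y - y0)) (y - y0) q, 0)) -
              (fderiv ℝ G (y0 + t • (y - y0)) (y - y0)) p q := by
          rw [hhv, hhv]
          simp only [dev_BB_apply]
          rw [dev_compat h hyt]
          ring
        rw [e]
        show HasDerivAt _ (hh t (C (y0 + t • (y - y0)) (y - y0) p) q +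
            hh t p (C (y0 + t • (y - y0)) (y - y0) q)) t
        rw [e2]
        exact q3
      · intro p q
        rw [hhv, zero_smul, add_zero, hΨ0v, hΨ0v, ← dev_P0_form b hb (p, 0) (q, 0)]
        unfold B
        rw [hk0]
        ring
    · have h1 := claim1 y hy (p, 0) (q, 0)
      rw [Q_eq_B] at h1
      have hk2 : κ ^ 2 = 1 := by
        rcases hκ with h2 | h2 | h2
        · rw [h2]; norm_num
        · exact absurd h2 hk0
        · rw [h2]; norm_num
      rw [hk2] at h1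
      have h3 : κ * B κ (Ψ y (p, 0)) (Ψ y (q, 0)) = κ * G y p q := by
        have h4 : κ * G y ((p, (0:ℝ)) : R m × ℝ).1 ((q, (0:ℝ)) : R m × ℝ).1 +
          ((p, (0:ℝ)) : R m × ℝ).2 * ((q, (0:ℝ)) : R m × ℝ).2 = κ * G y p q := by
          simp
        rw [h4] at h1
        linarith
      exact mul_left_cancel₀ hk0 h3
  refine ⟨r, hr, hball, fun y => Ψ y (0, 1), ?_, ?_, ?_⟩
  · exact hΨs.clm_apply contDiffOn_const
  · intro y hy
    show Q κ (Ψ y (0, 1)) (Ψ y (0, 1)) = 1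
    rw [claim1 y hy]
    simp
  · intro y hy u v
    have hd : ∀ x, fderiv ℝ (fun y => Ψ y ((0, 1) : R m × ℝ)) y x = Ψ y (x, 0) := by
      intro x
      have h1 := (hΨD y hy).hasFDerivAt.clm_apply (hasFDerivAt_const ((0, 1) : R m × ℝ) y)
      rw [h1.fderiv]
      have h2 : (fderiv ℝ Ψ y x) ((0, 1) : R m × ℝ) = Ψ y (x, 0) := by
        rw [hΨd y hy, hAv]
        simp
      rw [← h2]
      simp
    rw [hd, hd]
    exact claim2 y hy u v

end Pool.Agent.Helper107.LC
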