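import Mathlib
import Pool.Agent.Helper107.LC.MDefs2
set_option autoImplicit false
open Set Filter Topology
open scoped ContDiff Manifold

namespace Pool.Agent.Helper107.LC

section surj
variable {κ : ℝ} {m : ℕ} {G : R m → R m → R m → ℝ} {Φ : R m → V m} {y : R m}

theorem surj_deriv (φ : ℝ → V m) (d : V m) (t : ℝ) (h : HasDerivAt φ d t) :
    HasDerivAt (fun s => Q κ (φ s) (φ s)) (2 * Q κ (φ t) d) t := by
  have h1 : HasDerivAt (fun s => (φ s).1) d.1 t :=
    (ContinuousLinearMap.fst ℝ ℝ (E m × ℝ)).hasFDerivAt.comp_hasDerivAt t h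
  have h2 : HasDerivAt (fun s => (φ s).2) d.2 t :=
    (ContinuousLinearMap.snd ℝ ℝ (E m × ℝ)).hasFDerivAt.comp_hasDerivAt t h
  have h21 : HasDerivAt (fun s => (φ s).2.1) d.2.1 t :=
    (ContinuousLinearMap.fst ℝ (E m) ℝ).hasFDerivAt.comp_hasDerivAt t h2
  have h22 : HasDerivAt (fun s => (φ s).2.2) d.2.2 t :=
    (ContinuousLinearMap.snd ℝ (E m) ℝ).hasFDerivAt.comp_hasDerivAt t h2
  have h3 := ((((h1.mul h1).neg).add (h21.inner ℝ h21)).const_mul κ).add (h22.mul h22)
  have e : 2 * Q κ (φ t) d = κ * (-(d.1 * (φ t).1 + (φ t).1 * d.1) +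
      (inner ℝ (φ t).2.1 d.2.1 + inner ℝ d.2.1 (φ t).2.1)) +
      (d.2.2 * (φ t).2.2 + (φ t).2.2 * d.2.2) := by
    rw [real_inner_comm d.2.1 (φ t).2.1]
    simp only [Q]
    rw [real_inner_comm d.2.1 (φ t).2.1]
    ring
  rw [e]
  exact h3

theorem LocIso.tan (hΦ : LocIso κ G Φ y) (u : R m) : Q κ (Φ y) (fderiv ℝ Φ y u) = 0 := by
  have h0 := hΦ.self_of_nhds
  have hd : DifferentiableAt ℝ Φ y := h0.1.differentiableAt (by simp)
  have hline : HasDerivAt (fun s : ℝ => y + s • u) u 0 := by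
    have := ((hasDerivAt_id (0 : ℝ)).smul_const u).const_add y
    simpa using this
  have e0 : y + (0 : ℝ) • u = y := by simp
  have hφ : HasDerivAt (fun s : ℝ => Φ (y + s • u)) (fderiv ℝ Φ y u) 0 := by
    have h1 : HasFDerivAt Φ (fderiv ℝ Φ y) (y + (0 : ℝ) • u) := by
      rw [e0]
      exact hd.hasFDerivAt
    exact h1.comp_hasDerivAt (0 : ℝ) hline
  have h2 := surj_deriv (κ := κ) _ _ _ hφ
  have h3 : (fun s : ℝ => Q κ (Φ (y + s • u)) (Φ (y + s • u))) =ᶠ[𝓝 0] fun _ => (1 : ℝ) := by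
    have hc : Tendsto (fun s : ℝ => y + s • u) (𝓝 0) (𝓝 y) := by
      have := hline.continuousAt.tendsto
      rwa [e0] at this
    filter_upwards [hc.eventually hΦ] with s hs
    exact hs.2.1
  have h4 : HasDerivAt (fun s : ℝ => Q κ (Φ (y + s • u)) (Φ (y + s • u))) 0 0 :=
    (hasDerivAt_const (0 : ℝ) (1 : ℝ)).congr_of_eventuallyEq h3
  have h5 := h2.unique h4
  rw [e0] at h5
  linarith

theorem LocIso.inj (hL : IsLor (G y)) (hΦ : LocIso κ G Φ y) :
    Function.Injective (fderiv ℝ Φ y) := by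
  obtain ⟨b, hb⟩ := hL
  have h0 := hΦ.self_of_nhds.2.2
  obtain ⟨β, hβ⟩ : ∃ β : R m → (R m →ₗ[ℝ] ℝ), ∀ v u,
      β v u = B κ (fderiv ℝ Φ y u) (fderiv ℝ Φ y v) := by
    refine ⟨fun v =>
      { toFun := fun u => B κ (fderiv ℝ Φ y u) (fderiv ℝ Φ y v)
        map_add' := fun u u' => ?_
        map_smul' := fun c u => ?_ }, fun v u => rfl⟩
    · rw [map_add, B_add_left]
    · rw [map_smul, B_smul_left]
      rfl
  have hβb : ∀ i j, β (b j) (b i) = if i = j then (if i = 0 then -1 else 1) else 0 := by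
    intro i j
    rw [hβ, h0, hb]
  have hsum : ∀ (c : Fin (m + 1) → ℝ) (j : Fin (m + 1)),
      β (b j) (∑ i, c i • b i) = c j * (if j = 0 then -1 else 1) := by
    intro c j
    rw [map_sum, Finset.sum_eq_single j]
    · rw [map_smul, hβb, if_pos rfl, smul_eq_mul]
    · intro i _ hij
      rw [map_smul, hβb, if_neg hij, smul_zero]
    · intro h
      exact absurd (Finset.mem_univ j) h
  have hsg : ∀ j : Fin (m + 1), (if j = 0 then (-1 : ℝ) else 1) ≠ 0 := by
    intro j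
    split_ifs <;> norm_num
  have hli : LinearIndependent ℝ b := by
    rw [Fintype.linearIndependent_iff]
    intro c hc j
    have h1 := hsum c j
    rw [hc, map_zero] at h1
    rcases mul_eq_zero.mp h1.symm with h2 | h2
    · exact h2
    · exact absurd h2 (hsg j)
  have hcard : Fintype.card (Fin (m + 1)) = Module.finrank ℝ (R m) := by simp
  obtain ⟨b', hb'⟩ : ∃ b' : Module.Basis (Fin (m + 1)) ℝ (R m), ∀ i, b' i = b i :=
    ⟨basisOfLinearIndependentOfCardEqFinrank hli hcard, fun i => by simp⟩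
  rw [injective_iff_map_eq_zero]
  intro u hu
  have h2 : u = ∑ i, b'.repr u i • b i := by
    conv_lhs => rw [← b'.sum_repr u]
    exact Finset.sum_congr rfl fun i _ => by rw [hb']
  have h3 : ∀ j, b'.repr u j = 0 := by
    intro j
    have h4 := hsum (fun i => b'.repr u i) j
    rw [← h2, hβ, hu, B_zero_left] at h4
    rcases mul_eq_zero.mp h4.symm with h5 | h5
    · exact h5
    · exact absurd h5 (hsg j)
  rw [h2]
  exact Finset.sum_eq_zero fun i _ => by rw [h3, zero_smul]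

theorem LocIso.surj (hκ : κ = -1 ∨ κ = 0 ∨ κ = 1) (hL : IsLor (G y)) (hΦ : LocIso κ G Φ y) (w : V m)
    (hw : Q κ (Φ y) w = 0) : ∃ u, fderiv ℝ Φ y u = w := by
  have hinj := LocIso.inj hL hΦ
  have htan := LocIso.tan hΦ
  have hx : Q κ (Φ y) (Φ y) = 1 := hΦ.self_of_nhds.2.1
  obtain ⟨q, hq⟩ : ∃ q : V m →ₗ[ℝ] ℝ, ∀ w, q w = Q κ (Φ y) w := by
    refine ⟨{ toFun := fun w => Q κ (Φ y) w
              map_add' := fun u u' => Q_add_right _ _ _
              map_smul' := fun c u => Q_smul_right _ _ _ }, fun w => rfl⟩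
  have hqs : Function.Surjective q := by
    intro c
    refine ⟨c • Φ y, ?_⟩
    rw [map_smul, hq, hx, smul_eq_mul, mul_one]
  have h1 := LinearMap.finrank_range_add_finrank_ker q
  rw [LinearMap.range_eq_top.mpr hqs, finrank_top, Module.finrank_self, Module.finrank_prod,
    Module.finrank_prod, Module.finrank_self, finrank_euclideanSpace_fin] at h1
  have h2 : Module.finrank ℝ (LinearMap.range (fderiv ℝ Φ y : R m →ₗ[ℝ] V m)) = m + 1 := by
    rw [LinearMap.finrank_range_of_inj hinj]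
    simp
  have hle : LinearMap.range (fderiv ℝ Φ y : R m →ₗ[ℝ] V m) ≤ LinearMap.ker q := by
    rintro _ ⟨u, rfl⟩
    rw [LinearMap.mem_ker, hq]
    exact htan u
  have heq := Submodule.eq_of_le_of_finrank_eq hle (by omega)
  have hwk : w ∈ LinearMap.ker q := by
    rw [LinearMap.mem_ker, hq]
    exact hw
  rw [← heq] at hwk
  obtain ⟨u, hu⟩ := hwk
  exact ⟨u, hu⟩
end surj

end Pool.Agent.Helper107.LC
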