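import Mathlib
import Pool.Agent.Helper107.LC.MSurj
set_option autoImplicit false
open Set Filter Topology
open scoped ContDiff Manifold

namespace Pool.Agent.Helper107.LC

/-- derivative of a composition with a linear automorphism -/
theorem free_hasFDerivAt {m : ℕ} {Φ : R m → V m} {y : R m} (A : V m ≃ₗ[ℝ] V m)
    (h : DifferentiableAt ℝ Φ y) :
    HasFDerivAt (fun z => A (Φ z))
      ((LinearMap.toContinuousLinearMap (A : V m →ₗ[ℝ] V m)).comp (fderiv ℝ Φ y)) y := by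
  have h1 := (LinearMap.toContinuousLinearMap (A : V m →ₗ[ℝ] V m)).hasFDerivAt
    (x := Φ y)
  exact h1.comp y h.hasFDerivAt

theorem free_diff {κ : ℝ} {m : ℕ} {G : R m → R m → R m → ℝ}
    {Φ : R m → V m} {y : R m} (hΦ : LocIso κ G Φ y) : DifferentiableAt ℝ Φ y :=
  hΦ.self_of_nhds.1.differentiableAt (by simp)

/-- a linear automorphism fixing a local isometry is the identity -/
theorem LocIso.free {κ : ℝ} (hκ : κ = -1 ∨ κ = 0 ∨ κ = 1) {m : ℕ} {G : R m → R m → R m → ℝ}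
    {Φ : R m → V m} {y : R m} (hL : IsLor (G y)) (hΦ : LocIso κ G Φ y) (A : V m ≃ₗ[ℝ] V m)
    (hA : ∀ᶠ z in 𝓝 y, A (Φ z) = Φ z) : A = 1 := by
  have hx : A (Φ y) = Φ y := hA.self_of_nhds
  have hX : Φ y ∈ X κ m := hΦ.self_of_nhds.2.1
  have hd := free_diff hΦ
  have h1 := free_hasFDerivAt A hd
  have h2 : HasFDerivAt (fun z => A (Φ z)) (fderiv ℝ Φ y) y :=
    hd.hasFDerivAt.congr_of_eventuallyEq hA
  have h3 := h1.unique h2
  have h4 : ∀ u, A (fderiv ℝ Φ y u) = fderiv ℝ Φ y u := by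
    intro u
    have := congrArg (fun L : R m →L[ℝ] V m => L u) h3
    exact this
  apply LinearEquiv.ext
  intro w
  obtain ⟨u, hu⟩ := LocIso.surj hκ hL hΦ (tg κ (Φ y) w) (Q_tg hX w)
  have h5 : A (tg κ (Φ y) w) = tg κ (Φ y) w := by
    rw [← hu]
    exact h4 u
  have h6 : A w = w := by
    conv_lhs => rw [← tg_add_normal (κ := κ) (Φ y) w]
    rw [map_add, map_smul, h5, hx, tg_add_normal]
  exact h6

/-- composing a local isometry with an isometry of the model space -/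
theorem LocIso.comp_iso {κ : ℝ} {m : ℕ} {G : R m → R m → R m → ℝ}
    {Φ : R m → V m} {y : R m} (hΦ : LocIso κ G Φ y) (A : V m ≃ₗ[ℝ] V m) (hA : IsIso κ A) :
    LocIso κ G (fun z => A (Φ z)) y := by
  have hev : ∀ᶠ z in 𝓝 y, LocIso κ G Φ z := Filter.Eventually.eventually_nhds hΦ
  unfold LocIso
  filter_upwards [hev] with z hz
  obtain ⟨h1, h2, h3⟩ := hz.self_of_nhds
  refine ⟨?_, ?_, ?_⟩
  · exact (LinearMap.toContinuousLinearMap (A : V m →ₗ[ℝ] V m)).contDiff.contDiffAt.comp z h1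
  · change Q κ (A (Φ z)) (A (Φ z)) = 1
    rw [hA.1]
    exact h2
  · intro u v
    rw [(free_hasFDerivAt A (free_diff hz)).fderiv, ← h3 u v]
    exact hA.2 (Φ z) h2 _ _ (LocIso.tan hz u) (LocIso.tan hz v)

end Pool.Agent.Helper107.LC
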