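import Mathlib
import Pool.Agent.Helper107.LC.MSurj
set_option autoImplicit false
open Set Filter Topology
open scoped ContDiff Manifold

namespace Pool.Agent.Helper107.LC

section geoa
variable {κ : ℝ} {m : ℕ}

theorem geoa_hasDerivAt_B {f g : ℝ → V m} {f' g' : V m} {s : ℝ} (hf : HasDerivAt f f' s)
    (hg : HasDerivAt g g' s) :
    HasDerivAt (fun r => B κ (f r) (g r)) (B κ f' (g s) + B κ (f s) g') s := by
  have hf1 : HasDerivAt (fun r => (f r).1) f'.1 s := by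
    have := (ContinuousLinearMap.fst ℝ ℝ (E m × ℝ)).hasFDerivAt.comp_hasDerivAt s hf
    exact this
  have hf2 : HasDerivAt (fun r => (f r).2) f'.2 s := by
    have := (ContinuousLinearMap.snd ℝ ℝ (E m × ℝ)).hasFDerivAt.comp_hasDerivAt s hf
    exact this
  have hf21 : HasDerivAt (fun r => (f r).2.1) f'.2.1 s := by
    have := (ContinuousLinearMap.fst ℝ (E m) ℝ).hasFDerivAt.comp_hasDerivAt s hf2
    exact this
  have hf22 : HasDerivAt (fun r => (f r).2.2) f'.2.2 s := by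
    have := (ContinuousLinearMap.snd ℝ (E m) ℝ).hasFDerivAt.comp_hasDerivAt s hf2
    exact this
  have hg1 : HasDerivAt (fun r => (g r).1) g'.1 s := by
    have := (ContinuousLinearMap.fst ℝ ℝ (E m × ℝ)).hasFDerivAt.comp_hasDerivAt s hg
    exact this
  have hg2 : HasDerivAt (fun r => (g r).2) g'.2 s := by
    have := (ContinuousLinearMap.snd ℝ ℝ (E m × ℝ)).hasFDerivAt.comp_hasDerivAt s hg
    exact this
  have hg21 : HasDerivAt (fun r => (g r).2.1) g'.2.1 s := by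
    have := (ContinuousLinearMap.fst ℝ (E m) ℝ).hasFDerivAt.comp_hasDerivAt s hg2
    exact this
  have hg22 : HasDerivAt (fun r => (g r).2.2) g'.2.2 s := by
    have := (ContinuousLinearMap.snd ℝ (E m) ℝ).hasFDerivAt.comp_hasDerivAt s hg2
    exact this
  have h1 := (hf1.mul hg1).neg
  have h2 := hf21.inner ℝ hg21
  have h3 := (hf22.mul hg22).const_mul κ
  have h := (h1.add h2).add h3
  have e : B κ f' (g s) + B κ (f s) g' =
      -(f'.1 * (g s).1 + (f s).1 * g'.1) + (inner ℝ (f s).2.1 g'.2.1 + inner ℝ f'.2.1 (g s).2.1)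
        + κ * (f'.2.2 * (g s).2.2 + (f s).2.2 * g'.2.2) := by
    simp only [B]; ring
  rw [e]
  exact h

/-- derivative of the metric along a line -/
theorem geoa_DR_G0 {G0 : R m → R m → R m → ℝ} {Φ : R m → V m} {z0 : R m}
    (hΦ : LocIso κ G0 Φ z0) (u w c : R m) :
    HasDerivAt (fun s : ℝ => G0 (z0 + s • c) u w)
      (B κ (fderiv ℝ (fderiv ℝ Φ) z0 c u) (fderiv ℝ Φ z0 w)
        + B κ (fderiv ℝ Φ z0 u) (fderiv ℝ (fderiv ℝ Φ) z0 c w)) 0 := by
  have h0 := hΦ.self_of_nhds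
  have hC : ContDiffAt ℝ ∞ Φ z0 := h0.1
  have hC1 : ContDiffAt ℝ 1 (fderiv ℝ Φ) z0 := hC.fderiv_right (by norm_cast)
  have hdd : DifferentiableAt ℝ (fderiv ℝ Φ) z0 := hC1.differentiableAt (by norm_num)
  have hline : HasDerivAt (fun s : ℝ => z0 + s • c) c 0 := by
    have := ((hasDerivAt_id (0:ℝ)).smul_const c).const_add z0
    simpa using this
  have hz : (fun s : ℝ => z0 + s • c) 0 = z0 := by simp
  have hD : HasDerivAt (fun s : ℝ => fderiv ℝ Φ (z0 + s • c)) (fderiv ℝ (fderiv ℝ Φ) z0 c) 0 := by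
    have h1 : HasFDerivAt (fderiv ℝ Φ) (fderiv ℝ (fderiv ℝ Φ) z0) ((fun s : ℝ => z0 + s • c) 0) := by
      rw [hz]; exact hdd.hasFDerivAt
    exact h1.comp_hasDerivAt (0:ℝ) hline
  have hDu : ∀ u, HasDerivAt (fun s : ℝ => fderiv ℝ Φ (z0 + s • c) u)
      (fderiv ℝ (fderiv ℝ Φ) z0 c u) 0 := by
    intro u
    have := hD.clm_apply (hasDerivAt_const (0:ℝ) u)
    simpa using this
  have h := geoa_hasDerivAt_B (κ := κ) (hDu u) (hDu w)
  simp only [zero_smul, add_zero] at h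
  refine h.congr_of_eventuallyEq ?_
  have hcont : Tendsto (fun s : ℝ => z0 + s • c) (𝓝 0) (𝓝 z0) := by
    have := hline.continuousAt.tendsto
    simpa using this
  filter_upwards [hcont.eventually hΦ] with s hs
  exact (hs.2.2 u w).symm

end geoa

/-- geodesic equation in a chart implies the geodesic equation in the ambient model -/
theorem geod_chart_to_model {κ : ℝ} (hκ : κ = -1 ∨ κ = 0 ∨ κ = 1) {m : ℕ} {O : Set (R m)}
    (hO : IsOpen O) {G0 G : R m → R m → R m → ℝ} (hG0 : LMetric O G0) {ψ : R m → ℝ}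
    (hG : ∀ z ∈ O, ∀ u v, G z u v = Real.exp (2 * ψ z) * G0 z u v)
    {y : ℝ → R m} {t : ℝ} (hyO : y t ∈ O) (hψ : ContDiffAt ℝ ∞ ψ (y t))
    {Φ : R m → V m} (hΦ : LocIso κ G0 Φ (y t))
    {Ψ : V m → ℝ} (hΨ : ContDiff ℝ ∞ Ψ) (hψΨ : ∀ᶠ z in 𝓝 (y t), ψ z = Ψ (Φ z))
    {v : ℝ → R m} {a : R m} (h2 : Deriv2 y v a t) (hgeo : GeodEq G (y t) (v t) a) :
    (∀ᶠ s in 𝓝 t, DifferentiableAt ℝ (fun s => Φ (y s)) s) ∧
    DifferentiableAt ℝ (deriv fun s => Φ (y s)) t ∧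
    ∀ w, Q κ (Φ (y t)) w = 0 →
      B κ (deriv (deriv fun s => Φ (y s)) t) w
        + 2 * fderiv ℝ Ψ (Φ (y t)) (deriv (fun s => Φ (y s)) t) * B κ (deriv (fun s => Φ (y s)) t) w
      = B κ (deriv (fun s => Φ (y s)) t) (deriv (fun s => Φ (y s)) t) * fderiv ℝ Ψ (Φ (y t)) w := by
  set z0 := y t with hz0
  have h0 := hΦ.self_of_nhds
  have hC : ContDiffAt ℝ ∞ Φ z0 := h0.1
  have hmem : Φ z0 ∈ X κ m := h0.2.1
  have hiso : ∀ u v, B κ (fderiv ℝ Φ z0 u) (fderiv ℝ Φ z0 v) = G0 z0 u v := h0.2.2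
  have hC1 : ContDiffAt ℝ 1 (fderiv ℝ Φ) z0 := hC.fderiv_right (by norm_cast)
  have hdd : DifferentiableAt ℝ (fderiv ℝ Φ) z0 := hC1.differentiableAt (by norm_num)
  have hsym : ∀ u w, fderiv ℝ (fderiv ℝ Φ) z0 u w = fderiv ℝ (fderiv ℝ Φ) z0 w u := by
    have := hC.isSymmSndFDerivAt (by rw [minSmoothness_of_isRCLikeNormedField]; norm_cast)
    intro u w
    exact this u w
  obtain ⟨hy1, hy2⟩ := h2
  have hyt : HasDerivAt y (v t) t := hy1.self_of_nhds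
  have hyc : Tendsto y (𝓝 t) (𝓝 z0) := hyt.continuousAt.tendsto
  have hx1 : ∀ᶠ s in 𝓝 t, HasDerivAt (fun s => Φ (y s)) (fderiv ℝ Φ (y s) (v s)) s := by
    filter_upwards [hy1, hyc.eventually hΦ] with s hs1 hs2
    have hd : DifferentiableAt ℝ Φ (y s) := hs2.1.differentiableAt (by simp)
    exact hd.hasFDerivAt.comp_hasDerivAt s hs1
  have hder : deriv (fun s => Φ (y s)) =ᶠ[𝓝 t] fun s => fderiv ℝ Φ (y s) (v s) := by
    filter_upwards [hx1] with s hs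
    exact hs.deriv
  have hx2 : HasDerivAt (fun s => fderiv ℝ Φ (y s) (v s))
      (fderiv ℝ (fderiv ℝ Φ) z0 (v t) (v t) + fderiv ℝ Φ z0 a) t := by
    have h1 : HasDerivAt (fun s => fderiv ℝ Φ (y s)) (fderiv ℝ (fderiv ℝ Φ) z0 (v t)) t :=
      hdd.hasFDerivAt.comp_hasDerivAt t hyt
    exact h1.clm_apply hy2
  have hx2' : HasDerivAt (deriv (fun s => Φ (y s)))
      (fderiv ℝ (fderiv ℝ Φ) z0 (v t) (v t) + fderiv ℝ Φ z0 a) t :=
    hx2.congr_of_eventuallyEq hder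
  refine ⟨hx1.mono fun s hs => hs.differentiableAt, hx2'.differentiableAt, ?_⟩
  intro w hw
  obtain ⟨om, rfl⟩ := LocIso.surj hκ (hG0.2 z0 hyO).2 hΦ w hw
  have e1 : deriv (fun s => Φ (y s)) t = fderiv ℝ Φ z0 (v t) := hder.self_of_nhds
  have e2 : deriv (deriv (fun s => Φ (y s))) t
      = fderiv ℝ (fderiv ℝ Φ) z0 (v t) (v t) + fderiv ℝ Φ z0 a := hx2'.deriv
  rw [e1, e2]
  -- derivative of `ψ`
  have hdψ : ∀ c : R m, HasDerivAt (fun s : ℝ => ψ (z0 + s • c))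
      (fderiv ℝ Ψ (Φ z0) (fderiv ℝ Φ z0 c)) 0 := by
    intro c
    have hline : HasDerivAt (fun s : ℝ => z0 + s • c) c 0 := by
      have := ((hasDerivAt_id (0:ℝ)).smul_const c).const_add z0
      simpa using this
    have hz : (fun s : ℝ => z0 + s • c) 0 = z0 := by simp
    have hcomp : HasFDerivAt (fun z => Ψ (Φ z)) ((fderiv ℝ Ψ (Φ z0)).comp (fderiv ℝ Φ z0)) z0 := by
      have hΨd : DifferentiableAt ℝ Ψ (Φ z0) := (hΨ.differentiable (by simp)) (Φ z0)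
      have hΦd : DifferentiableAt ℝ Φ z0 := hC.differentiableAt (by simp)
      exact hΨd.hasFDerivAt.comp z0 hΦd.hasFDerivAt
    have hψd : HasFDerivAt ψ ((fderiv ℝ Ψ (Φ z0)).comp (fderiv ℝ Φ z0)) z0 :=
      hcomp.congr_of_eventuallyEq hψΨ
    have h1 : HasFDerivAt ψ ((fderiv ℝ Ψ (Φ z0)).comp (fderiv ℝ Φ z0))
        ((fun s : ℝ => z0 + s • c) 0) := by
      rw [hz]; exact hψd
    exact h1.comp_hasDerivAt (0:ℝ) hline
  have hDRG : ∀ u w c : R m, DR (fun z => G z u w) z0 c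
      = Real.exp (2 * ψ z0) * (2 * (fderiv ℝ Ψ (Φ z0) (fderiv ℝ Φ z0 c)) * G0 z0 u w
        + (B κ (fderiv ℝ (fderiv ℝ Φ) z0 c u) (fderiv ℝ Φ z0 w)
        + B κ (fderiv ℝ Φ z0 u) (fderiv ℝ (fderiv ℝ Φ) z0 c w))) := by
    intro u w c
    have h1 := geoa_DR_G0 hΦ u w c
    have h3 := ((hdψ c).const_mul 2).exp
    have h4 := h3.mul h1
    simp only [zero_smul, add_zero] at h4
    have hline : Tendsto (fun s : ℝ => z0 + s • c) (𝓝 0) (𝓝 z0) := by
      have hl : HasDerivAt (fun s : ℝ => z0 + s • c) c 0 := by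
        have := ((hasDerivAt_id (0:ℝ)).smul_const c).const_add z0
        simpa using this
      have := hl.continuousAt.tendsto
      simpa using this
    have h5 : HasDerivAt (fun s : ℝ => G (z0 + s • c) u w)
        (Real.exp (2 * ψ z0) * (2 * (fderiv ℝ Ψ (Φ z0) (fderiv ℝ Φ z0 c))) * G0 z0 u w
        + Real.exp (2 * ψ z0) * (B κ (fderiv ℝ (fderiv ℝ Φ) z0 c u) (fderiv ℝ Φ z0 w)
        + B κ (fderiv ℝ Φ z0 u) (fderiv ℝ (fderiv ℝ Φ) z0 c w))) 0 := by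
      refine h4.congr_of_eventuallyEq ?_
      filter_upwards [hline.eventually (hO.mem_nhds hyO)] with s hs
      exact hG _ hs u w
    show deriv (fun s : ℝ => G (z0 + s • c) u w) 0 = _
    rw [h5.deriv]
    ring
  have hE := hgeo om
  rw [hDRG, hDRG, hG z0 hyO] at hE
  have hexp : Real.exp (2 * ψ z0) ≠ 0 := (Real.exp_pos _).ne'
  have hE2 : G0 z0 a om + (2 * (fderiv ℝ Ψ (Φ z0) (fderiv ℝ Φ z0 (v t))) * G0 z0 (v t) om
        + (B κ (fderiv ℝ (fderiv ℝ Φ) z0 (v t) (v t)) (fderiv ℝ Φ z0 om)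
        + B κ (fderiv ℝ Φ z0 (v t)) (fderiv ℝ (fderiv ℝ Φ) z0 (v t) om)))
      = (1/2) * (2 * (fderiv ℝ Ψ (Φ z0) (fderiv ℝ Φ z0 om)) * G0 z0 (v t) (v t)
        + (B κ (fderiv ℝ (fderiv ℝ Φ) z0 om (v t)) (fderiv ℝ Φ z0 (v t))
        + B κ (fderiv ℝ Φ z0 (v t)) (fderiv ℝ (fderiv ℝ Φ) z0 om (v t)))) := by
    apply mul_left_cancel₀ hexp
    linear_combination hE
  rw [B_comm (fderiv ℝ (fderiv ℝ Φ) z0 om (v t)) (fderiv ℝ Φ z0 (v t)), hsym om (v t)] at hE2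
  rw [B_add_left, hiso a om, hiso (v t) om, hiso (v t) (v t)]
  linear_combination hE2

end Pool.Agent.Helper107.LC
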