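import Mathlib
import Pool.Agent.Helper107.LC.MSurj
set_option autoImplicit false
open Set Filter Topology
open scoped ContDiff Manifold

namespace Pool.Agent.Helper107.LC

section homeo
variable {κ : ℝ} {m : ℕ} {G : R m → R m → R m → ℝ} {Φ : R m → V m} {y : R m}

theorem homeo_F (T : V m →L[ℝ] R m) (hT : ∀ u, T (fderiv ℝ Φ y u) = u) (hΦ : LocIso κ G Φ y) :
    ∃ F : OpenPartialHomeomorph (R m) (R m), y ∈ F.source ∧ (∀ z, F z = T (Φ z)) ∧
      ∀ z ∈ F.source, ContDiffAt ℝ ∞ Φ z ∧ Φ z ∈ X κ m ∧ ContDiffAt ℝ ∞ F.symm (F z) := by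
  have hΦy := hΦ.self_of_nhds
  set f : R m → R m := fun z => T (Φ z) with hfd
  have hfz : ∀ z, ContDiffAt ℝ ∞ Φ z → ContDiffAt ℝ ∞ f z := fun z hz =>
    T.contDiff.contDiffAt.comp z hz
  have hf : ContDiffAt ℝ ∞ f y := hfz y hΦy.1
  have hd : HasFDerivAt Φ (fderiv ℝ Φ y) y := (hΦy.1.differentiableAt (by simp)).hasFDerivAt
  have hf' : HasFDerivAt f ((ContinuousLinearEquiv.refl ℝ (R m) : R m ≃L[ℝ] R m) :
      R m →L[ℝ] R m) y := by
    have h : HasFDerivAt f (T.comp (fderiv ℝ Φ y)) y := T.hasFDerivAt.comp y hd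
    have e : T.comp (fderiv ℝ Φ y) = ((ContinuousLinearEquiv.refl ℝ (R m) : R m ≃L[ℝ] R m) :
      R m →L[ℝ] R m) := by
      ext1 u
      exact hT u
    rw [e] at h
    exact h
  set F := hf.toOpenPartialHomeomorph f hf' (by simp) with hF
  have hyF : y ∈ F.source := hf.mem_toOpenPartialHomeomorph_source hf' _
  have hFc : ∀ z, F z = f z := fun z => rfl
  have hcont : ContinuousAt (fderiv ℝ f) y :=
    (hf.fderiv_right (m := 0) (by simp)).continuousAt
  have hinv : ∀ᶠ z in 𝓝 y, fderiv ℝ f z ∈ range ((↑) : (R m ≃L[ℝ] R m) → (R m →L[ℝ] R m)) := by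
    apply hcont.eventually_mem
    rw [hf'.fderiv]
    exact ContinuousLinearEquiv.nhds _
  obtain ⟨s, hs, hso, hys⟩ := eventually_nhds_iff.1 (hΦ.and hinv)
  refine ⟨F.restrOpen s hso, ?_, fun z => rfl, ?_⟩
  · rw [OpenPartialHomeomorph.restrOpen_source]
    exact ⟨hyF, hys⟩
  · intro z hz
    rw [OpenPartialHomeomorph.restrOpen_source] at hz
    obtain ⟨⟨h1, h2, -⟩, e, he⟩ := hs z hz.2
    refine ⟨h1, h2, ?_⟩
    have hsymm : F.symm (F z) = z := F.left_inv hz.1
    have h3 : ContDiffAt ℝ ∞ F.symm (F z) := by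
      refine F.contDiffAt_symm (F.map_source hz.1) (f₀' := e) ?_ ?_
      · rw [hsymm, he]
        exact ((hfz z h1).differentiableAt (by simp)).hasFDerivAt
      · rw [hsymm]
        exact hfz z h1
    exact h3

theorem homeo_T (hL : IsLor (G y)) (hΦ : LocIso κ G Φ y) :
    ∃ T : V m →L[ℝ] R m, ∀ u, T (fderiv ℝ Φ y u) = u := by
  obtain ⟨T0, hT0⟩ := LinearMap.exists_leftInverse_of_injective
    ((fderiv ℝ Φ y : R m →L[ℝ] V m) : R m →ₗ[ℝ] V m)
    (LinearMap.ker_eq_bot.2 (LocIso.inj hL hΦ))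
  exact ⟨LinearMap.toContinuousLinearMap T0, fun u => LinearMap.congr_fun hT0 u⟩

theorem homeo_tgadd (x0 v w : V m) : tg κ x0 (v + w) = tg κ x0 v + tg κ x0 w := by
  simp only [tg, Q_add_right, add_smul]
  abel

theorem homeo_tgsmul (x0 v : V m) (c : ℝ) : tg κ x0 (c • v) = c • tg κ x0 v := by
  simp only [tg, Q_smul_right, smul_sub, smul_smul]

/-- the tangential projection as a linear map -/
noncomputable def homeo_tgL (κ : ℝ) {m : ℕ} (x0 : V m) : V m →ₗ[ℝ] V m where
  toFun := tg κ x0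
  map_add' := homeo_tgadd x0
  map_smul' c v := homeo_tgsmul x0 v c

theorem homeo_Qcont (x0 : V m) : Continuous (fun x : V m => Q κ x0 x) := by
  unfold Q
  fun_prop

theorem homeo_unique (x0 : V m) (hx0 : x0 ∈ X κ m) (x x' : V m) (hx : x ∈ X κ m) (hx' : x' ∈ X κ m)
    (h : 0 < Q κ x0 x) (h' : 0 < Q κ x0 x') (ht : tg κ x0 x = tg κ x0 x') : x = x' := by
  have key : ∀ x : V m, x ∈ X κ m → (Q κ x0 x) ^ 2 = 1 - Q κ (tg κ x0 x) (tg κ x0 x) := by
    intro x hx
    have h1 : Q κ x0 x0 = 1 := hx0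
    have h2 : Q κ x x = 1 := hx
    simp only [tg, Q_sub_left, Q_sub_right, Q_smul_left, Q_smul_right, h1, h2, Q_comm x x0]
    ring
  have h3 : (Q κ x0 x) ^ 2 = (Q κ x0 x') ^ 2 := by rw [key x hx, key x' hx', ht]
  have h4 : Q κ x0 x = Q κ x0 x' := (sq_eq_sq₀ h.le h'.le).1 h3
  rw [← tg_add_normal (κ := κ) x0 x, ← tg_add_normal (κ := κ) x0 x', ht, h4]

/-- a smooth left inverse of a local isometry, defined on the ambient space -/
theorem LocIso.exists_leftInv (hL : IsLor (G y)) (hΦ : LocIso κ G Φ y) :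
    ∃ σ : V m → R m, ContDiff ℝ ∞ σ ∧ ∀ᶠ z in 𝓝 y, σ (Φ z) = z := by
  obtain ⟨T, hT⟩ := homeo_T hL hΦ
  obtain ⟨F, hyF, hF1, hF2⟩ := homeo_F T hT hΦ
  have hΦc : ContinuousAt Φ y := (hF2 y hyF).1.continuousAt
  set O : Set (V m) := T ⁻¹' (F '' F.source) with hO
  have hOo : IsOpen O := (F.isOpen_image_of_subset_source F.open_source subset_rfl).preimage
    T.continuous
  have hyO : Φ y ∈ O := ⟨y, hyF, hF1 y⟩
  obtain ⟨r, hr, hrO⟩ := Metric.isOpen_iff.1 hOo (Φ y) hyO
  let χ : ContDiffBump (Φ y) := ⟨r / 4, r / 2, by positivity, by linarith⟩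
  refine ⟨fun w => χ w • F.symm (T w), ?_, ?_⟩
  · rw [contDiff_iff_contDiffAt]
    intro w
    by_cases hw : w ∈ O
    · obtain ⟨z, hz, hzw⟩ := hw
      have h1 : ContDiffAt ℝ ∞ (fun w => F.symm (T w)) w := by
        have h2 := (hF2 z hz).2.2
        rw [hzw] at h2
        exact h2.comp w T.contDiff.contDiffAt
      exact χ.contDiff.contDiffAt.smul h1
    · have h1 : (fun w => χ w • F.symm (T w)) =ᶠ[𝓝 w] fun _ => (0 : R m) := by
        have h2 : w ∉ Metric.closedBall (Φ y) (r / 2) := by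
          intro h3
          exact hw (hrO (Metric.closedBall_subset_ball (by linarith) h3))
        filter_upwards [Metric.isClosed_closedBall.isOpen_compl.mem_nhds h2] with w' hw'
        have h4 : χ w' = 0 := by
          have h5 : w' ∉ Function.support χ := by
            rw [χ.support_eq]
            intro h6
            exact hw' (Metric.ball_subset_closedBall h6)
          exact Function.notMem_support.1 h5
        rw [h4, zero_smul]
      exact contDiffAt_const.congr_of_eventuallyEq h1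
  · have h1 : ∀ᶠ z in 𝓝 y, Φ z ∈ Metric.closedBall (Φ y) (r / 4) :=
      hΦc.eventually_mem (Metric.closedBall_mem_nhds _ (by positivity))
    filter_upwards [h1, F.open_source.mem_nhds hyF] with z hz1 hz2
    have h2 : χ (Φ z) = 1 := χ.one_of_mem_closedBall hz1
    rw [h2, one_smul, ← hF1 z]
    exact F.left_inv hz2

/-- a local isometry is a local homeomorphism onto an open part of the model space -/
theorem LocIso.exists_homeo (hκ : κ = -1 ∨ κ = 0 ∨ κ = 1) (hL : IsLor (G y)) (hΦ : LocIso κ G Φ y) :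
    ∃ e : OpenPartialHomeomorph (R m) (X κ m), y ∈ e.source ∧ ∀ z ∈ e.source, (e z : V m) = Φ z := by
  classical
  obtain ⟨T0, hT0⟩ := homeo_T hL hΦ
  set x0 := Φ y with hx0d
  have hx0 : x0 ∈ X κ m := hΦ.self_of_nhds.2.1
  have hx0' : Q κ x0 x0 = 1 := hx0
  let T : V m →L[ℝ] R m := T0.comp (LinearMap.toContinuousLinearMap (homeo_tgL κ x0))
  have hTa : ∀ w, T w = T0 (tg κ x0 w) := fun w => rfl
  have hT : ∀ u, T (fderiv ℝ Φ y u) = u := by
    intro u
    rw [hTa, tg_of_tan (LocIso.tan hΦ u), hT0]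
  obtain ⟨F, hyF, hF1, hF2⟩ := homeo_F T hT hΦ
  have hΦc : ContinuousOn Φ F.source := fun z hz => (hF2 z hz).1.continuousAt.continuousWithinAt
  -- shrink
  set W : Set (R m) := F.source ∩ Φ ⁻¹' {x | 0 < Q κ x0 x} with hW
  have hWo : IsOpen W := hΦc.isOpen_inter_preimage F.open_source
    (isOpen_lt continuous_const (homeo_Qcont x0))
  have hyW : y ∈ W := by
    refine ⟨hyF, ?_⟩
    show 0 < Q κ x0 (Φ y)
    rw [← hx0d, hx0']
    exact one_pos
  have hWF : W ⊆ F.source := inter_subset_left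
  have huniq : ∀ x x' : V m, x ∈ X κ m → x' ∈ X κ m → 0 < Q κ x0 x → 0 < Q κ x0 x' →
      T x = T x' → x = x' := by
    intro x x' hx hx' h h' hTT
    refine homeo_unique x0 hx0 x x' hx hx' h h' ?_
    obtain ⟨u, hu⟩ := LocIso.surj hκ hL hΦ (tg κ x0 x) (Q_tg hx0 x)
    obtain ⟨u', hu'⟩ := LocIso.surj hκ hL hΦ (tg κ x0 x') (Q_tg hx0 x')
    rw [hTa, hTa, ← hu, ← hu', hT0, hT0] at hTT
    rw [← hu, ← hu', hTT]
  let tf : R m → X κ m := fun z => if h : Φ z ∈ X κ m then ⟨Φ z, h⟩ else ⟨x0, hx0⟩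
  have htf : ∀ z ∈ F.source, (tf z : V m) = Φ z := by
    intro z hz
    have h1 : tf z = ⟨Φ z, (hF2 z hz).2.1⟩ := dif_pos (hF2 z hz).2.1
    rw [h1]
  let e : OpenPartialHomeomorph (R m) (X κ m) :=
    { toFun := tf
      invFun := fun x => F.symm (T x)
      source := W
      target := {x | 0 < Q κ x0 x ∧ T x ∈ F '' W}
      map_source' := by
        intro z hz
        refine ⟨?_, z, hz, ?_⟩
        · rw [htf z (hWF hz)]
          exact hz.2
        · rw [htf z (hWF hz), hF1]
      map_target' := by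
        rintro x ⟨-, z, hz, hzx⟩
        show F.symm (T x) ∈ W
        rw [← hzx, F.left_inv (hWF hz)]
        exact hz
      left_inv' := by
        intro z hz
        show F.symm (T (tf z)) = z
        rw [htf z (hWF hz), ← hF1, F.left_inv (hWF hz)]
      right_inv' := by
        rintro x ⟨hx1, z, hz, hzx⟩
        show tf (F.symm (T x)) = x
        rw [← hzx, F.left_inv (hWF hz)]
        apply Subtype.ext
        rw [htf z (hWF hz)]
        refine huniq _ _ (hF2 z (hWF hz)).2.1 x.2 hz.2 hx1 ?_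
        rw [← hF1, hzx]
      open_source := hWo
      open_target := by
        refine IsOpen.inter ?_ ?_
        · exact isOpen_lt continuous_const ((homeo_Qcont x0).comp continuous_subtype_val)
        · exact (F.isOpen_image_of_subset_source hWo hWF).preimage
            (T.continuous.comp continuous_subtype_val)
      continuousOn_toFun := by
        rw [Topology.IsInducing.subtypeVal.continuousOn_iff]
        refine (hΦc.mono hWF).congr fun z hz => ?_
        exact htf z (hWF hz)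
      continuousOn_invFun := by
        refine F.continuousOn_symm.comp (T.continuous.comp continuous_subtype_val).continuousOn ?_
        rintro x ⟨-, z, hz, hzx⟩
        show T x ∈ F.target
        rw [← hzx]
        exact F.map_source (hWF hz) }
  exact ⟨e, hyW, fun z hz => htf z (hWF hz)⟩
end homeo

end Pool.Agent.Helper107.LC
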