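import Mathlib
import Pool.Agent.Helper107.LC.MHomeo
set_option autoImplicit false
open Set Filter Topology
open scoped ContDiff Manifold

namespace Pool.Agent.Helper107.LC

theorem geob_two' : (2 : WithTop ℕ∞) ≤ ∞ := by
  have h : ((2 : ℕ∞) : WithTop ℕ∞) ≤ ((⊤ : ℕ∞) : WithTop ℕ∞) := WithTop.coe_le_coe.2 le_top
  exact h

theorem geob_two : (1 : WithTop ℕ∞) + 1 ≤ ∞ := by
  have h : (1 : WithTop ℕ∞) + 1 = 2 := by norm_num
  rw [h]; exact geob_two'

theorem geob_ev {m : ℕ} {P : R m → Prop} {y0 : R m} (h : ∀ᶠ z in 𝓝 y0, P z) (c : R m) :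
    ∀ᶠ s : ℝ in 𝓝 0, P (y0 + s • c) := by
  have h1 : Continuous (fun s : ℝ => y0 + s • c) := by fun_prop
  have h2 : Tendsto (fun s : ℝ => y0 + s • c) (𝓝 0) (𝓝 y0) := by
    have := h1.tendsto 0
    simpa using this
  exact h2.eventually h

/-- `B` as a linear map -/
noncomputable def geob_BL (κ : ℝ) (m : ℕ) : V m →ₗ[ℝ] V m →ₗ[ℝ] ℝ :=
  LinearMap.mk₂ ℝ (B κ) B_add_left B_smul_left B_add_right B_smul_right

theorem geob_B_deriv {κ : ℝ} {m : ℕ} {p q : ℝ → V m} {p' q' : V m} {s : ℝ}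
    (hp : HasDerivAt p p' s) (hq : HasDerivAt q q' s) :
    HasDerivAt (fun s => B κ (p s) (q s)) (B κ (p s) q' + B κ p' (q s)) s := by
  let Bc : V m →L[ℝ] V m →L[ℝ] ℝ := LinearMap.toContinuousLinearMap
    ((LinearMap.toContinuousLinearMap : (V m →ₗ[ℝ] ℝ) ≃ₗ[ℝ] (V m →L[ℝ] ℝ)).toLinearMap ∘ₗ
      geob_BL κ m)
  have h := Bc.hasDerivAt_of_bilinear (fun _ => hp) (fun _ => hq)
  exact h

/-- geodesic equation in the ambient model implies the geodesic equation in a chart -/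
theorem geod_model_to_chart {κ : ℝ} (hκ : κ = -1 ∨ κ = 0 ∨ κ = 1) {m : ℕ} {O : Set (R m)}
    (hO : IsOpen O) {G0 G : R m → R m → R m → ℝ} (hG0 : LMetric O G0) {ψ : R m → ℝ}
    (hG : ∀ z ∈ O, ∀ u v, G z u v = Real.exp (2 * ψ z) * G0 z u v)
    {y : ℝ → R m} {t : ℝ} (hyO : y t ∈ O) (hyc : ContinuousAt y t) (hψ : ContDiffAt ℝ ∞ ψ (y t))
    {Φ : R m → V m} (hΦ : LocIso κ G0 Φ (y t))
    {Ψ : V m → ℝ} (hΨ : ContDiff ℝ ∞ Ψ) (hψΨ : ∀ᶠ z in 𝓝 (y t), ψ z = Ψ (Φ z))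
    {x : ℝ → V m} (hx : ∀ᶠ s in 𝓝 t, x s = Φ (y s))
    (h1 : ∀ᶠ s in 𝓝 t, DifferentiableAt ℝ x s) (h2 : DifferentiableAt ℝ (deriv x) t)
    (h3 : ∀ w, Q κ (x t) w = 0 →
      B κ (deriv (deriv x) t) w + 2 * fderiv ℝ Ψ (x t) (deriv x t) * B κ (deriv x t) w
      = B κ (deriv x t) (deriv x t) * fderiv ℝ Ψ (x t) w) :
    ∃ v a, Deriv2 y v a t ∧ GeodEq G (y t) (v t) a := by
  have hL : IsLor (G0 (y t)) := (hG0.2 _ hyO).2
  obtain ⟨σ, hσ, hσΦ⟩ := LocIso.exists_leftInv hL hΦ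
  have hσ1 : Differentiable ℝ σ := hσ.differentiable (by simp)
  have hσ2 : Differentiable ℝ (fderiv ℝ σ) :=
    (hσ.fderiv_right (m := 1) geob_two).differentiable one_ne_zero
  have hΦev : ∀ᶠ z in 𝓝 (y t), ContDiffAt ℝ ∞ Φ z := hΦ.mono fun z hz => hz.1
  have hΦc : ContDiffAt ℝ ∞ Φ (y t) := hΦev.self_of_nhds
  have hxt : x t = Φ (y t) := hx.self_of_nhds
  have hyx : ∀ᶠ s in 𝓝 t, y s = σ (x s) := by
    filter_upwards [hyc.eventually hσΦ, hx] with s hs1 hs2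
    rw [hs2, hs1]
  set v : ℝ → R m := fun s => fderiv ℝ σ (x s) (deriv x s) with hv
  have hyd : ∀ᶠ s in 𝓝 t, HasDerivAt y (v s) s := by
    filter_upwards [hyx.eventually_nhds, h1] with s hs1 hs2
    have h5 : HasDerivAt (σ ∘ x) (fderiv ℝ σ (x s) (deriv x s)) s :=
      (hσ1 (x s)).hasFDerivAt.comp_hasDerivAt s hs2.hasDerivAt
    exact h5.congr_of_eventuallyEq hs1
  have hvd : DifferentiableAt ℝ v t := by
    have h5 : DifferentiableAt ℝ (fun s => fderiv ℝ σ (x s)) t :=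
      (hσ2 (x t)).comp t h1.self_of_nhds
    exact h5.clm_apply h2
  set a : R m := deriv v t with ha
  have hva : HasDerivAt v a t := hvd.hasDerivAt
  refine ⟨v, a, ⟨hyd, hva⟩, ?_⟩
  -- second derivative of Φ
  have hΦ1 : DifferentiableAt ℝ (fderiv ℝ Φ) (y t) :=
    (hΦc.fderiv_right (m := 1) geob_two).differentiableAt one_ne_zero
  set D : R m →L[ℝ] V m := fderiv ℝ Φ (y t) with hD
  set D2 : R m →L[ℝ] R m →L[ℝ] V m := fderiv ℝ (fderiv ℝ Φ) (y t) with hD2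
  have hF : HasFDerivAt (fderiv ℝ Φ) D2 (y t) := hΦ1.hasFDerivAt
  have hsym : ∀ u w, D2 u w = D2 w u := by
    intro u w
    have hs : IsSymmSndFDerivAt ℝ Φ (y t) :=
      hΦc.isSymmSndFDerivAt (by simpa using geob_two')
    exact hs.eq u w
  have hdx : deriv x =ᶠ[𝓝 t] fun s => fderiv ℝ Φ (y s) (v s) := by
    filter_upwards [hx.eventually_nhds, hyd, hyc.eventually hΦev] with s hs1 hs2 hs3
    have h5 : HasDerivAt (Φ ∘ y) (fderiv ℝ Φ (y s) (v s)) s :=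
      ((hs3.differentiableAt (by simp)).hasFDerivAt).comp_hasDerivAt s hs2
    have h6 : HasDerivAt x (fderiv ℝ Φ (y s) (v s)) s := h5.congr_of_eventuallyEq hs1
    exact h6.deriv
  have hdxt : deriv x t = D (v t) := hdx.self_of_nhds
  have hddx : deriv (deriv x) t = D2 (v t) (v t) + D a := by
    have h5 : HasDerivAt (fun s => fderiv ℝ Φ (y s)) (D2 (v t)) t :=
      hF.comp_hasDerivAt t hyd.self_of_nhds
    have h6 : HasDerivAt (fun s => fderiv ℝ Φ (y s) (v s)) (D2 (v t) (v t) + D a) t :=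
      h5.clm_apply hva
    exact (h6.congr_of_eventuallyEq hdx).deriv
  have hBG : ∀ u w, B κ (D u) (D w) = G0 (y t) u w := hΦ.self_of_nhds.2.2
  -- derivative of ψ
  have hψd : ∀ c : R m, HasDerivAt (fun s : ℝ => ψ (y t + s • c)) (fderiv ℝ Ψ (x t) (D c)) 0 := by
    intro c
    have h5 : HasFDerivAt (Ψ ∘ Φ) ((fderiv ℝ Ψ (Φ (y t))).comp D) (y t) :=
      ((hΨ.differentiable (by simp)) (Φ (y t))).hasFDerivAt.comp (y t)
        ((hΦc.differentiableAt (by simp)).hasFDerivAt)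
    have h6 : HasDerivAt (fun s : ℝ => (Ψ ∘ Φ) (y t + s • c)) (((fderiv ℝ Ψ (Φ (y t))).comp D) c) 0 :=
      h5.hasLineDerivAt c
    rw [hxt]
    refine h6.congr_of_eventuallyEq ?_
    exact geob_ev hψΨ c
  -- derivative of G0
  have hG0d : ∀ u w c : R m, HasDerivAt (fun s : ℝ => G0 (y t + s • c) u w)
      (B κ (D u) (D2 c w) + B κ (D2 c u) (D w)) 0 := by
    intro u w c
    have h5 : HasDerivAt (fun s : ℝ => fderiv ℝ Φ (y t + s • c)) (D2 c) 0 := hF.hasLineDerivAt c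
    have h6 : ∀ u, HasDerivAt (fun s : ℝ => fderiv ℝ Φ (y t + s • c) u) (D2 c u) 0 := by
      intro u
      have h7 := h5.clm_apply (hasDerivAt_const (0 : ℝ) u)
      simpa using h7
    have h8 := geob_B_deriv (κ := κ) (h6 u) (h6 w)
    have h9 : fderiv ℝ Φ (y t + (0 : ℝ) • c) = D := by simp [hD]
    simp only [h9] at h8
    refine h8.congr_of_eventuallyEq ?_
    filter_upwards [geob_ev hΦ c] with s hs
    exact (hs.2.2 u w).symm
  have hGd : ∀ u w c : R m, DR (fun z => G z u w) (y t) c = Real.exp (2 * ψ (y t)) *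
      (2 * fderiv ℝ Ψ (x t) (D c) * G0 (y t) u w + (B κ (D u) (D2 c w) + B κ (D2 c u) (D w))) := by
    intro u w c
    have h5 := (((hψd c).const_mul 2).exp).mul (hG0d u w c)
    have h6 : HasDerivAt (fun s : ℝ => G (y t + s • c) u w)
        (Real.exp (2 * ψ (y t + (0 : ℝ) • c)) * (2 * fderiv ℝ Ψ (x t) (D c)) *
          G0 (y t + (0 : ℝ) • c) u w + Real.exp (2 * ψ (y t + (0 : ℝ) • c)) *
          (B κ (D u) (D2 c w) + B κ (D2 c u) (D w))) 0 := by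
      refine h5.congr_of_eventuallyEq ?_
      filter_upwards [geob_ev (hO.mem_nhds hyO) c] with s hs
      exact hG _ hs u w
    have h7 : DR (fun z => G z u w) (y t) c = _ := h6.deriv
    rw [h7]
    simp only [zero_smul, add_zero]
    ring
  intro w
  have hQ : Q κ (x t) (D w) = 0 := by
    rw [hxt]
    exact LocIso.tan hΦ w
  have h4 := h3 (D w) hQ
  rw [hddx, hdxt, B_add_left, hBG, hBG, hBG] at h4
  rw [hG _ hyO, hGd, hGd]
  have e1 : B κ (D (v t)) (D2 (v t) w) = B κ (D2 w (v t)) (D (v t)) := by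
    rw [hsym (v t) w, B_comm]
  have e2 : B κ (D (v t)) (D2 w (v t)) = B κ (D2 w (v t)) (D (v t)) := B_comm _ _
  rw [e1, e2]
  have hE : 0 < Real.exp (2 * ψ (y t)) := Real.exp_pos _
  linear_combination Real.exp (2 * ψ (y t)) * h4

end Pool.Agent.Helper107.LC
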