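import Mathlib
set_option autoImplicit false
open Set Filter Topology
open scoped ContDiff Manifold

namespace Pool.Agent.Helper107.LC

/-- lifting of paths defined on an open interval -/
theorem exists_lift_interval {M Y : Type*} [TopologicalSpace M] [TopologicalSpace Y] {π : Y → M}
    (hπ : IsCoveringMap π) (hs : Function.Surjective π) {I : Set ℝ} (hI : IsOpen I)
    (hIc : I.OrdConnected) (hne : I.Nonempty) {c : ℝ → M} (hc : ContinuousOn c I) :
    ∃ c' : ℝ → Y, ContinuousOn c' I ∧ ∀ t ∈ I, π (c' t) = c t :=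
  by
  classical
  obtain ⟨t0, ht0⟩ := hne
  obtain ⟨y0, hy0⟩ := hs (c t0)
  have hconv : Convex ℝ I := hIc.convex
  have : ContractibleSpace I := hconv.contractibleSpace ⟨t0, ht0⟩
  have : LocallyPathConnectedSpace I := hI.locallyPathConnectedSpace
  have : SimplyConnectedSpace I := inferInstance
  obtain ⟨F, ⟨hF0, hF⟩, -⟩ := hπ.existsUnique_continuousMap_lifts
    (⟨I.domRestrict c, continuousOn_iff_continuous_domRestrict.1 hc⟩ : C(I, M)) ⟨t0, ht0⟩ y0 hy0
  refine ⟨fun t => if h : t ∈ I then F ⟨t, h⟩ else y0, ?_, ?_⟩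
  · rw [continuousOn_iff_continuous_domRestrict]
    have e : I.domRestrict (fun t => if h : t ∈ I then F ⟨t, h⟩ else y0) = F := by
      funext t
      simp [Set.domRestrict, t.2]
    rw [e]
    exact F.continuous
  · intro t ht
    simp only [ht, dif_pos]
    exact congrFun hF ⟨t, ht⟩

end Pool.Agent.Helper107.LC
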