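import Mathlib
import Pool.Agent.Helper107.LC.MSurj
set_option autoImplicit false
open Set Filter Topology
open scoped ContDiff Manifold

namespace Pool.Agent.Helper107.LC

section rigid
variable {κ : ℝ} {m : ℕ}

/-- `B` as a continuous bilinear map -/
noncomputable def rigid_Bc (κ : ℝ) (m : ℕ) : V m →L[ℝ] V m →L[ℝ] ℝ :=
  LinearMap.toContinuousLinearMap
    { toFun := fun x => LinearMap.toContinuousLinearMap
        { toFun := fun y => B κ x y
          map_add' := fun y z => B_add_right x y z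
          map_smul' := fun a y => B_smul_right a x y }
      map_add' := fun x y => by
        ext z <;> simp [B_add_left]
      map_smul' := fun a x => by
        ext z <;> simp [B_smul_left] }

theorem rigid_Bc_apply (x y : V m) : rigid_Bc κ m x y = B κ x y := rfl

/-- `Q` as a continuous bilinear map -/
noncomputable def rigid_Qc (κ : ℝ) (m : ℕ) : V m →L[ℝ] V m →L[ℝ] ℝ :=
  LinearMap.toContinuousLinearMap
    { toFun := fun x => LinearMap.toContinuousLinearMap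
        { toFun := fun y => Q κ x y
          map_add' := fun y z => Q_add_right x y z
          map_smul' := fun a y => Q_smul_right a x y }
      map_add' := fun x y => by
        ext z <;> simp [Q_add_left]
      map_smul' := fun a x => by
        ext z <;> simp [Q_smul_left] }

theorem rigid_Qc_apply (x y : V m) : rigid_Qc κ m x y = Q κ x y := rfl

variable {O : Set (R m)}
    {G : R m → R m →L[ℝ] R m →L[ℝ] ℝ} {C : R m → R m →L[ℝ] R m →L[ℝ] R m}
    {Φ : R m → V m} {y : R m}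

theorem rigid_lor (h : CCMetric κ m O G C) (hy : y ∈ O) : IsLor (fun u v => G y u v) := by
  obtain ⟨b, hb⟩ := h.lorentz y hy
  exact ⟨b, hb⟩

theorem rigid_nondeg (h : CCMetric κ m O G C) (hy : y ∈ O) (a : R m) (ha : ∀ w, G y a w = 0) :
    a = 0 := by
  obtain ⟨b, hb⟩ := h.lorentz y hy
  have h1 : ∀ j, b.repr a j = 0 := by
    intro j
    have h2 := ha (b j)
    rw [← b.sum_repr a] at h2
    rw [map_sum, ContinuousLinearMap.sum_apply] at h2
    simp only [map_smul, ContinuousLinearMap.smul_apply, hb, smul_eq_mul] at h2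
    rw [Finset.sum_eq_single j] at h2
    · by_cases hj : j = 0
      · simp [hj] at h2; rw [hj]; exact h2
      · simpa [hj] using h2
    · intro i _ hij
      simp [hij]
    · intro hj; exact absurd (Finset.mem_univ j) hj
  rw [← b.sum_repr a]
  simp [h1]

theorem rigid_hasFDerivAt_apply (hΦ : ContDiffAt ℝ ∞ Φ y) (v : R m) :
    HasFDerivAt (fun z => fderiv ℝ Φ z v) ((fderiv ℝ (fderiv ℝ Φ) y).flip v) y := by
  have h12 : (1 + 1 : WithTop ℕ∞) ≤ ∞ := by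
    have : ((2 : ℕ∞) : WithTop ℕ∞) ≤ ((⊤ : ℕ∞) : WithTop ℕ∞) := by exact_mod_cast le_top
    rw [one_add_one_eq_two]; exact this
  have h1 : ContDiffAt ℝ 1 (fderiv ℝ Φ) y := hΦ.fderiv_right h12
  have h2 : DifferentiableAt ℝ (fderiv ℝ Φ) y := h1.differentiableAt (by norm_num)
  have h3 := (ContinuousLinearMap.apply ℝ (V m) v).hasFDerivAt.comp y h2.hasFDerivAt
  refine h3.congr_fderiv ?_
  ext u <;> simp

theorem rigid_gauss (hκ : κ = -1 ∨ κ = 0 ∨ κ = 1) (h : CCMetric κ m O G C) (hy : y ∈ O)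
    (hΦ : LocIso κ (fun y u v => G y u v) Φ y) (u v : R m) :
    fderiv ℝ (fderiv ℝ Φ) y u v = fderiv ℝ Φ y (C y u v) - (κ * G y u v) • Φ y := by
  have hC : ContDiffAt ℝ ∞ Φ y := hΦ.self_of_nhds.1
  have hX : Φ y ∈ X κ m := hΦ.self_of_nhds.2.1
  have hB : ∀ u v, B κ (fderiv ℝ Φ y u) (fderiv ℝ Φ y v) = G y u v := hΦ.self_of_nhds.2.2
  have hsym : ∀ u v, fderiv ℝ (fderiv ℝ Φ) y u v = fderiv ℝ (fderiv ℝ Φ) y v u := by
    have h2 : ((2 : ℕ∞) : WithTop ℕ∞) ≤ ((⊤ : ℕ∞) : WithTop ℕ∞) := by exact_mod_cast le_top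
    have := hC.isSymmSndFDerivAt (by simpa using h2)
    exact fun u v => this u v
  have htan : ∀ v, Q κ (Φ y) (fderiv ℝ Φ y v) = 0 := fun v => hΦ.tan v
  -- derivative of Q(Φ, DΦ v) = 0
  have hQ : Q κ (Φ y) (fderiv ℝ (fderiv ℝ Φ) y u v) = - (κ * G y u v) := by
    have h1 : HasFDerivAt (fun z => rigid_Qc κ m (Φ z) (fderiv ℝ Φ z v)) _ y :=
      (rigid_Qc κ m).hasFDerivAt_of_bilinear (hC.differentiableAt (by simp)).hasFDerivAt
        (rigid_hasFDerivAt_apply hC v)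
    have h2 : (fun z => rigid_Qc κ m (Φ z) (fderiv ℝ Φ z v)) =ᶠ[𝓝 y] fun _ => 0 := by
      filter_upwards [hΦ.eventually_nhds] with z hz
      rw [rigid_Qc_apply]
      exact LocIso.tan hz v
    have h3 := h1.congr_of_eventuallyEq h2.symm
    have h4 := h3.unique (hasFDerivAt_const (0:ℝ) y)
    have h5 := congrArg (fun L => L u) h4
    simp only [ContinuousLinearMap.add_apply, ContinuousLinearMap.precompR_apply,
      ContinuousLinearMap.precompL_apply, ContinuousLinearMap.flip_apply, rigid_Qc_apply,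
      ContinuousLinearMap.zero_apply, ContinuousLinearMap.compL_apply,
      ContinuousLinearMap.comp_apply] at h5
    have h6 := Q_tan hκ hX (htan u) (fderiv ℝ Φ y v) (htan v)
    rw [hB] at h6
    linarith
  have hG : ∀ u v w, (fderiv ℝ G y u) v w =
      B κ (fderiv ℝ (fderiv ℝ Φ) y u v) (fderiv ℝ Φ y w) +
      B κ (fderiv ℝ Φ y v) (fderiv ℝ (fderiv ℝ Φ) y u w) := by
    intro u v w
    have h1 : HasFDerivAt (fun z => rigid_Bc κ m (fderiv ℝ Φ z v) (fderiv ℝ Φ z w)) _ y :=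
      (rigid_Bc κ m).hasFDerivAt_of_bilinear (rigid_hasFDerivAt_apply hC v)
        (rigid_hasFDerivAt_apply hC w)
    have h2 : (fun z => rigid_Bc κ m (fderiv ℝ Φ z v) (fderiv ℝ Φ z w)) =ᶠ[𝓝 y]
        fun z => G z v w := by
      filter_upwards [hΦ] with z hz
      rw [rigid_Bc_apply]
      exact hz.2.2 v w
    have h3 := h1.congr_of_eventuallyEq h2.symm
    have hGd : DifferentiableAt ℝ G y :=
      ((h.smooth y hy).contDiffAt (h.isOpen.mem_nhds hy)).differentiableAt (by simp)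
    have h4 : HasFDerivAt (fun z => G z v w)
        (((fderiv ℝ G y).flip v).flip w) y := by
      have h5 := hGd.hasFDerivAt.clm_apply (hasFDerivAt_const v y)
      have h6 := h5.clm_apply (hasFDerivAt_const w y)
      refine h6.congr_fderiv ?_
      ext u; simp
    have h5 := congrArg (fun L => L u) (h4.unique h3)
    simp only [ContinuousLinearMap.add_apply, ContinuousLinearMap.precompR_apply,
      ContinuousLinearMap.precompL_apply, ContinuousLinearMap.flip_apply, rigid_Bc_apply,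
      ContinuousLinearMap.compL_apply, ContinuousLinearMap.comp_apply] at h5
    rw [h5]; ring
  set D2 := fderiv ℝ (fderiv ℝ Φ) y with hD2
  have hN0 : Q κ (Φ y) (D2 u v + (κ * G y u v) • Φ y) = 0 := by
    have : Q κ (Φ y) (Φ y) = 1 := hX
    rw [Q_add_right, Q_smul_right, hQ, this]; ring
  obtain ⟨a, ha⟩ := LocIso.surj hκ (rigid_lor h hy) hΦ _ hN0
  have hκB : ∀ w, κ * B κ (Φ y) (fderiv ℝ Φ y w) = 0 := by
    intro w
    have h1 := Q_eq_B (κ := κ) (Φ y) (fderiv ℝ Φ y w)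
    rw [htan w] at h1
    rcases hκ with hk | hk | hk
    · subst hk; linarith
    · subst hk; ring
    · subst hk; linarith
  have hka : a = C y u v := by
    have : a - C y u v = 0 := by
      apply rigid_nondeg h hy
      intro w
      rw [map_sub, ContinuousLinearMap.sub_apply]
      have h1 : G y a w = B κ (D2 u v) (fderiv ℝ Φ y w) := by
        rw [← hB, ha, B_add_left, B_smul_left]
        have := hκB w
        linear_combination (G y u v) * this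
      have h2 := h.christoffel y hy u v w
      rw [hG u v w, hG v u w, hG w u v, hsym v u, hsym w u, hsym w v] at h2
      rw [h1]
      have c1 := B_comm (κ := κ) (fderiv ℝ Φ y v) (D2 u w)
      linarith
    exact sub_eq_zero.mp this
  rw [← hka, ha]; simp

theorem rigid_bdd {W : Type*} [NormedAddCommGroup W] {f : ℝ → W}
    (hf : ContinuousOn f (Icc 0 1)) : ∃ M, 0 ≤ M ∧ ∀ t ∈ Icc (0:ℝ) 1, ‖f t‖ ≤ M := by
  obtain ⟨M, hM⟩ := isCompact_Icc.exists_bound_of_continuousOn hf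
  exact ⟨M, (norm_nonneg _).trans (hM 0 ⟨le_rfl, zero_le_one⟩), hM⟩

/-- uniqueness of local isometries with given 1-jet -/
theorem rigid_unique (hκ : κ = -1 ∨ κ = 0 ∨ κ = 1) (h : CCMetric κ m O G C) {y0 : R m}
    (hy0 : y0 ∈ O) {Φ Φ' : R m → V m}
    (hΦ : LocIso κ (fun y u v => G y u v) Φ y0) (hΦ' : LocIso κ (fun y u v => G y u v) Φ' y0)
    (h0 : Φ y0 = Φ' y0) (h1 : fderiv ℝ Φ y0 = fderiv ℝ Φ' y0) : ∀ᶠ z in 𝓝 y0, Φ z = Φ' z := by
  have hev : ∀ᶠ z in 𝓝 y0, LocIso κ (fun y u v => G y u v) Φ z ∧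
      LocIso κ (fun y u v => G y u v) Φ' z ∧ z ∈ O := by
    filter_upwards [hΦ.eventually_nhds, hΦ'.eventually_nhds, h.isOpen.mem_nhds hy0] with z a b c
    exact ⟨a, b, c⟩
  obtain ⟨r, hr, hball⟩ := Metric.eventually_nhds_iff_ball.mp hev
  refine Metric.eventually_nhds_iff_ball.mpr ⟨r, hr, fun z hz => ?_⟩
  set e : R m := z - y0 with he
  have hγ : ∀ t ∈ Icc (0:ℝ) 1, y0 + t • e ∈ Metric.ball y0 r := by
    intro t ht
    rw [Metric.mem_ball, dist_eq_norm] at hz ⊢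
    rw [add_sub_cancel_left, norm_smul, Real.norm_eq_abs, abs_of_nonneg ht.1]
    calc t * ‖e‖ ≤ 1 * ‖e‖ := mul_le_mul_of_nonneg_right ht.2 (norm_nonneg _)
      _ < r := by rw [one_mul]; exact hz
  have hγd : ∀ t : ℝ, HasDerivAt (fun t : ℝ => y0 + t • e) e t := by
    intro t
    have := ((hasDerivAt_id t).smul_const e).const_add y0
    simpa using this
  have hγc : Continuous (fun t : ℝ => y0 + t • e) := by fun_prop
  have hγO : MapsTo (fun t : ℝ => y0 + t • e) (Icc (0:ℝ) 1) O :=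
    fun t ht => (hball _ (hγ t ht)).2.2
  obtain ⟨M1, hM10, hM1⟩ : ∃ M, 0 ≤ M ∧ ∀ t ∈ Icc (0:ℝ) 1, ‖C (y0 + t • e)‖ ≤ M :=
    rigid_bdd (W := R m →L[ℝ] R m →L[ℝ] R m)
      (h.smoothC.continuousOn.comp hγc.continuousOn hγO)
  obtain ⟨M2, hM20, hM2⟩ : ∃ M, 0 ≤ M ∧ ∀ t ∈ Icc (0:ℝ) 1, ‖G (y0 + t • e)‖ ≤ M :=
    rigid_bdd (W := R m →L[ℝ] R m →L[ℝ] ℝ)
      (h.smooth.continuousOn.comp hγc.continuousOn hγO)
  -- the difference of the 1-jets
  let F : ℝ → V m × (R m →L[ℝ] V m) := fun t =>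
    (Φ (y0 + t • e) - Φ' (y0 + t • e), fderiv ℝ Φ (y0 + t • e) - fderiv ℝ Φ' (y0 + t • e))
  let F' : ℝ → V m × (R m →L[ℝ] V m) := fun t =>
    (fderiv ℝ Φ (y0 + t • e) e - fderiv ℝ Φ' (y0 + t • e) e,
      fderiv ℝ (fderiv ℝ Φ) (y0 + t • e) e - fderiv ℝ (fderiv ℝ Φ') (y0 + t • e) e)
  have hder : ∀ t ∈ Icc (0:ℝ) 1, HasDerivAt F (F' t) t := by
    intro t ht
    obtain ⟨l1, l2, -⟩ := hball _ (hγ t ht)
    have key : ∀ Ψ : R m → V m, ContDiffAt ℝ ∞ Ψ (y0 + t • e) →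
        HasDerivAt (fun t : ℝ => Ψ (y0 + t • e)) (fderiv ℝ Ψ (y0 + t • e) e) t ∧
        HasDerivAt (fun t : ℝ => fderiv ℝ Ψ (y0 + t • e)) (fderiv ℝ (fderiv ℝ Ψ) (y0 + t • e) e) t := by
      intro Ψ hΨ
      have h12 : (1 + 1 : WithTop ℕ∞) ≤ ∞ := by
        have : ((2 : ℕ∞) : WithTop ℕ∞) ≤ ((⊤ : ℕ∞) : WithTop ℕ∞) := by exact_mod_cast le_top
        rw [one_add_one_eq_two]; exact this
      have h1 : ContDiffAt ℝ 1 (fderiv ℝ Ψ) (y0 + t • e) := hΨ.fderiv_right h12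
      exact ⟨(hΨ.differentiableAt (by simp)).hasFDerivAt.comp_hasDerivAt t (hγd t),
        (h1.differentiableAt (by norm_num)).hasFDerivAt.comp_hasDerivAt t (hγd t)⟩
    obtain ⟨a1, a2⟩ := key Φ l1.self_of_nhds.1
    obtain ⟨b1, b2⟩ := key Φ' l2.self_of_nhds.1
    exact (a1.sub b1).prodMk (a2.sub b2)
  have hbound : ∀ t ∈ Icc (0:ℝ) 1, ‖F' t‖ ≤ (‖e‖ + M1 * ‖e‖ + |κ| * M2 * ‖e‖) * ‖F t‖ := by
    intro t ht
    obtain ⟨l1, l2, l3⟩ := hball _ (hγ t ht)
    have hM1' : ‖C (y0 + t • e)‖ ≤ M1 := hM1 t ht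
    have hM2' : ‖G (y0 + t • e)‖ ≤ M2 := hM2 t ht
    set x := y0 + t • e with hx
    have hF1 : ‖Φ x - Φ' x‖ ≤ ‖F t‖ := norm_fst_le (F t)
    have hF2 : ‖fderiv ℝ Φ x - fderiv ℝ Φ' x‖ ≤ ‖F t‖ := norm_snd_le (F t)
    have hFn : 0 ≤ ‖F t‖ := norm_nonneg _
    have he0 : 0 ≤ ‖e‖ := norm_nonneg _
    have hk0 : 0 ≤ |κ| := abs_nonneg _
    have c1 : ‖fderiv ℝ Φ x e - fderiv ℝ Φ' x e‖ ≤ ‖e‖ * ‖F t‖ := by
      rw [← ContinuousLinearMap.sub_apply]
      calc _ ≤ ‖fderiv ℝ Φ x - fderiv ℝ Φ' x‖ * ‖e‖ := ContinuousLinearMap.le_opNorm _ _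
        _ ≤ ‖F t‖ * ‖e‖ := mul_le_mul_of_nonneg_right hF2 he0
        _ = _ := mul_comm _ _
    have c2 : ‖fderiv ℝ (fderiv ℝ Φ) x e - fderiv ℝ (fderiv ℝ Φ') x e‖ ≤
        (M1 * ‖e‖ + |κ| * M2 * ‖e‖) * ‖F t‖ := by
      refine ContinuousLinearMap.opNorm_le_bound _ (by positivity) fun v => ?_
      rw [ContinuousLinearMap.sub_apply, rigid_gauss hκ h l3 l1, rigid_gauss hκ h l3 l2]
      have e1 : fderiv ℝ Φ x (C x e v) - (κ * G x e v) • Φ x -
          (fderiv ℝ Φ' x (C x e v) - (κ * G x e v) • Φ' x) =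
          (fderiv ℝ Φ x - fderiv ℝ Φ' x) (C x e v) - (κ * G x e v) • (Φ x - Φ' x) := by
        rw [ContinuousLinearMap.sub_apply, smul_sub]; abel
      rw [e1]
      have d1 : ‖C x e v‖ ≤ M1 * ‖e‖ * ‖v‖ :=
        (ContinuousLinearMap.le_opNorm₂ (C x) e v).trans (by gcongr)
      have d2 : ‖G x e v‖ ≤ M2 * ‖e‖ * ‖v‖ :=
        (ContinuousLinearMap.le_opNorm₂ (G x) e v).trans (by gcongr)
      have d3 : ‖(fderiv ℝ Φ x - fderiv ℝ Φ' x) (C x e v)‖ ≤ ‖F t‖ * (M1 * ‖e‖ * ‖v‖) :=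
        (ContinuousLinearMap.le_opNorm _ _).trans (by gcongr)
      have d4 : ‖(κ * G x e v) • (Φ x - Φ' x)‖ ≤ |κ| * (M2 * ‖e‖ * ‖v‖) * ‖F t‖ := by
        rw [norm_smul, norm_mul, Real.norm_eq_abs κ]
        gcongr
      calc _ ≤ _ := norm_sub_le _ _
        _ ≤ ‖F t‖ * (M1 * ‖e‖ * ‖v‖) + |κ| * (M2 * ‖e‖ * ‖v‖) * ‖F t‖ := add_le_add d3 d4
        _ = _ := by ring
    have c3 : ‖F' t‖ = max ‖fderiv ℝ Φ x e - fderiv ℝ Φ' x e‖
        ‖fderiv ℝ (fderiv ℝ Φ) x e - fderiv ℝ (fderiv ℝ Φ') x e‖ := rfl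
    rw [c3]
    apply max_le
    · refine c1.trans ?_
      apply mul_le_mul_of_nonneg_right _ hFn
      have : 0 ≤ M1 * ‖e‖ + |κ| * M2 * ‖e‖ := by positivity
      linarith
    · refine c2.trans ?_
      apply mul_le_mul_of_nonneg_right _ hFn
      linarith
  have hzero := eq_zero_of_abs_deriv_le_mul_abs_self_of_eq_zero_right (f := F) (f' := F')
    (K := ‖e‖ + M1 * ‖e‖ + |κ| * M2 * ‖e‖) (a := 0) (b := 1)
    (fun t ht => (hder t ht).continuousAt.continuousWithinAt)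
    (fun t ht => (hder t ⟨ht.1, ht.2.le⟩).hasDerivWithinAt)
    (by simp [F, h0, h1]) (fun t ht => hbound t ⟨ht.1, ht.2.le⟩) 1 ⟨zero_le_one, le_rfl⟩
  have h3 : Φ (y0 + (1:ℝ) • e) - Φ' (y0 + (1:ℝ) • e) = 0 := congrArg Prod.fst hzero
  rw [one_smul, he, add_sub_cancel] at h3
  exact sub_eq_zero.mp h3

/-- the linear isomorphism given by a 1-jet -/
theorem rigid_frame (hκ : κ = -1 ∨ κ = 0 ∨ κ = 1) (h : CCMetric κ m O G C) (hy : y ∈ O)
    (hΦ : LocIso κ (fun y u v => G y u v) Φ y) :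
    ∃ T : (R m × ℝ) ≃ₗ[ℝ] V m, (∀ u s, T (u, s) = fderiv ℝ Φ y u + s • Φ y) ∧
      ∀ p q, Q κ (T p) (T q) = κ * G y p.1 q.1 + p.2 * q.2 := by
  have hX : Φ y ∈ X κ m := hΦ.self_of_nhds.2.1
  have hX1 : Q κ (Φ y) (Φ y) = 1 := hX
  have hB : ∀ u v, B κ (fderiv ℝ Φ y u) (fderiv ℝ Φ y v) = G y u v := hΦ.self_of_nhds.2.2
  have htan : ∀ v, Q κ (Φ y) (fderiv ℝ Φ y v) = 0 := fun v => hΦ.tan v
  let T0 : (R m × ℝ) →ₗ[ℝ] V m :=
    (fderiv ℝ Φ y).toLinearMap.coprod (LinearMap.toSpanSingleton ℝ (V m) (Φ y))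
  have hT0 : ∀ u s, T0 (u, s) = fderiv ℝ Φ y u + s • Φ y := by
    intro u s; simp [T0]
  have hinj : Function.Injective T0 := by
    rw [injective_iff_map_eq_zero]
    rintro ⟨u, s⟩ hus
    rw [hT0] at hus
    have h1 : Q κ (Φ y) (fderiv ℝ Φ y u + s • Φ y) = s := by
      rw [Q_add_right, Q_smul_right, htan, hX1]; ring
    rw [hus, Q_zero_right] at h1
    subst h1
    rw [zero_smul, add_zero] at hus
    have h2 : u = 0 := LocIso.inj (rigid_lor h hy) hΦ (by rw [hus, map_zero])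
    rw [h2]; rfl
  have hdim : Module.finrank ℝ (R m × ℝ) = Module.finrank ℝ (V m) := by
    simp only [Module.finrank_prod, finrank_euclideanSpace, Fintype.card_fin, Module.finrank_self]
    ring
  refine ⟨T0.linearEquivOfInjective hinj hdim, fun u s => ?_, ?_⟩
  · rw [LinearMap.linearEquivOfInjective_apply]; exact hT0 u s
  · rintro ⟨u, s⟩ ⟨v, t⟩
    rw [LinearMap.linearEquivOfInjective_apply, LinearMap.linearEquivOfInjective_apply, hT0, hT0]
    have h1 := Q_tan hκ hX (htan u) (fderiv ℝ Φ y v) (htan v)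
    rw [hB] at h1
    simp only [Q_add_left, Q_add_right, Q_smul_left, Q_smul_right, htan, hX1,
      Q_comm (fderiv ℝ Φ y u) (Φ y), h1]
    ring

end rigid

/-- rigidity of local isometries into the model space -/
theorem CCMetric.rigid {κ : ℝ} {m : ℕ} (hκ : κ = -1 ∨ κ = 0 ∨ κ = 1) {O : Set (R m)}
    {G : R m → R m →L[ℝ] R m →L[ℝ] ℝ} {C : R m → R m →L[ℝ] R m →L[ℝ] R m}
    (h : CCMetric κ m O G C) {y0 : R m} (hy0 : y0 ∈ O) {Φ Φ' : R m → V m}
    (hΦ : LocIso κ (fun y u v => G y u v) Φ y0) (hΦ' : LocIso κ (fun y u v => G y u v) Φ' y0) :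
    ∃ A : V m ≃ₗ[ℝ] V m, IsIso κ A ∧ ∀ᶠ z in 𝓝 y0, Φ' z = A (Φ z) := by
  obtain ⟨T, hT, hTQ⟩ := rigid_frame hκ h hy0 hΦ
  obtain ⟨T', hT', hTQ'⟩ := rigid_frame hκ h hy0 hΦ'
  set A : V m ≃ₗ[ℝ] V m := T.symm.trans T' with hA
  have hAT : ∀ p, A (T p) = T' p := by intro p; simp [hA]
  have hAx : A (Φ y0) = Φ' y0 := by
    have h1 := hT 0 1
    have h2 := hT' 0 1
    rw [map_zero, zero_add, one_smul] at h1 h2
    rw [← h1, ← h2, hAT]
  have hAD : ∀ u, A (fderiv ℝ Φ y0 u) = fderiv ℝ Φ' y0 u := by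
    intro u
    have h1 := hT u 0
    have h2 := hT' u 0
    rw [zero_smul, add_zero] at h1 h2
    rw [← h1, ← h2, hAT]
  have hAQ : ∀ v w, Q κ (A v) (A w) = Q κ v w := by
    intro v w
    obtain ⟨p, rfl⟩ := T.surjective v
    obtain ⟨q, rfl⟩ := T.surjective w
    rw [hAT, hAT, hTQ, hTQ']
  have hAB : ∀ x ∈ X κ m, ∀ v w, Q κ x v = 0 → Q κ x w = 0 → B κ (A v) (A w) = B κ v w := by
    intro x hx v w hv hw
    have hx1 : Q κ x x = 1 := hx
    rcases hκ with hk | hk | hk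
    · subst hk
      have h1 := Q_eq_B (κ := (-1:ℝ)) v w
      have h2 := Q_eq_B (κ := (-1:ℝ)) (A v) (A w)
      rw [hAQ] at h2
      linarith
    · have hx0 : x.2.2 ≠ 0 := by
        subst hk
        intro h0
        simp [Q, h0] at hx1
      have hlift : ∀ v, Q κ x v = 0 → ∃ u, fderiv ℝ Φ y0 u = v := by
        intro v hv
        apply LocIso.surj (Or.inr (Or.inl hk)) (rigid_lor h hy0) hΦ
        subst hk
        have hv2 : x.2.2 * v.2.2 = 0 := by simpa [Q] using hv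
        have hv3 : v.2.2 = 0 := (mul_eq_zero.mp hv2).resolve_left hx0
        simp [Q, hv3]
      obtain ⟨u, rfl⟩ := hlift v hv
      obtain ⟨u', rfl⟩ := hlift w hw
      rw [hAD, hAD]
      exact (hΦ'.self_of_nhds.2.2 u u').trans (hΦ.self_of_nhds.2.2 u u').symm
    · subst hk
      have h1 := Q_eq_B (κ := (1:ℝ)) v w
      have h2 := Q_eq_B (κ := (1:ℝ)) (A v) (A w)
      rw [hAQ] at h2
      linarith
  refine ⟨A, ⟨hAQ, hAB⟩, ?_⟩
  let Ac : V m →L[ℝ] V m := LinearMap.toContinuousLinearMap A.toLinearMap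
  have hAc : ∀ v, Ac v = A v := fun v => rfl
  have hfd : ∀ z, ContDiffAt ℝ ∞ Φ z →
      fderiv ℝ (fun z => A (Φ z)) z = Ac.comp (fderiv ℝ Φ z) := by
    intro z hz
    exact (Ac.hasFDerivAt.comp z (hz.differentiableAt (by simp)).hasFDerivAt).fderiv
  have hL : LocIso κ (fun y u v => G y u v) (fun z => A (Φ z)) y0 := by
    filter_upwards [hΦ.eventually_nhds] with z hz
    obtain ⟨z1, z2, z3⟩ := hz.self_of_nhds
    refine ⟨?_, ?_, ?_⟩
    · exact Ac.contDiff.contDiffAt.comp z z1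
    · show Q κ (A (Φ z)) (A (Φ z)) = 1
      rw [hAQ]; exact z2
    · intro u v
      rw [hfd z z1]
      show B κ (A (fderiv ℝ Φ z u)) (A (fderiv ℝ Φ z v)) = G z u v
      rw [hAB (Φ z) z2 _ _ (LocIso.tan hz u) (LocIso.tan hz v)]
      exact z3 u v
  refine rigid_unique hκ h hy0 hΦ' hL hAx.symm ?_
  rw [hfd y0 hΦ.self_of_nhds.1]
  ext1 u
  show _ = A (fderiv ℝ Φ y0 u)
  rw [hAD]

end Pool.Agent.Helper107.LC
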