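import Mathlib
import Pool.Agent.Helper107.LC.Asm3
set_option autoImplicit false
open Set Filter Topology
open scoped ContDiff

/-!
Short restatement of the definitions (smooth functions, geodesics, holonomy) on a space `Y` with a
developing map, with small terms.
-/
namespace Pool.Agent.Helper107.LC

variable {κ : ℝ} {m : ℕ} {Y : Type*} [TopologicalSpace Y]

/-- `G` is a smooth function on the ambient space with `f = G ∘ p` near `y` -/
def IsExt (P : Dev κ m Y) (f : Y → ℝ) (y : Y) (G : V m → ℝ) : Prop :=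
  ContDiff ℝ ∞ G ∧ ∀ᶠ y' in 𝓝 y, f y' = G (P.p y')

/-- smooth functions on `Y` -/
def SmoothOn (P : Dev κ m Y) (f : Y → ℝ) : Prop := ∀ y, ∃ G, IsExt P f y G

/-- derivative of `G` at `x` in direction `v` -/
noncomputable def DD (G : V m → ℝ) (x v : V m) : ℝ := fderiv ℝ G x v

/-- velocity and acceleration of the developed curve `p ∘ c` -/
noncomputable def velo (P : Dev κ m Y) (c : ℝ → Y) (t : ℝ) : V m := deriv (fun s => P.p (c s)) t
noncomputable def acce (P : Dev κ m Y) (c : ℝ → Y) (t : ℝ) : V m := deriv (velo P c) t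

/-- `p ∘ c` is twice differentiable at `t` -/
def TwiceDiff (P : Dev κ m Y) (c : ℝ → Y) (t : ℝ) : Prop :=
  DifferentiableAt ℝ (fun s => P.p (c s)) t ∧ DifferentiableAt ℝ (velo P c) t

/-- `c` is, on the set `I`, a geodesic (affinely parametrised, of any causal type) of the metric
`e^{2f} g₀` on `Y`, `g₀` being the pull back by `p` of the metric of the model space: with `x = p ∘ c`
and `f = G ∘ p` locally, `∇_{x'} x' + 2 df(x') x' = g₀(x',x') grad f`, tested against tangent vectors. -/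
def IsGeodesic (P : Dev κ m Y) (f : Y → ℝ) (c : ℝ → Y) (I : Set ℝ) : Prop :=
  ContinuousOn c I ∧ ∀ t ∈ I, TwiceDiff P c t ∧ ∀ G, IsExt P f (c t) G →
    ∀ w, Q κ (P.p (c t)) w = 0 →
      B κ (acce P c t) w + 2 * DD G (P.p (c t)) (velo P c t) * B κ (velo P c t) w
        = B κ (velo P c t) (velo P c t) * DD G (P.p (c t)) w

/-- holonomy: `p` is equivariant with respect to a representation `ρ` of `Γ` by linear maps inducing
isometries of the model space -/
structure Holonomy (P : Dev κ m Y) (Γ : Type*) [Group Γ] [MulAction Γ Y] where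
  ρ : Γ → V m → V m
  lin : ∀ γ, IsLinearMap ℝ (ρ γ)
  one : ∀ v, ρ 1 v = v
  mul : ∀ a b v, ρ (a * b) v = ρ a (ρ b v)
  Qinv : ∀ γ v w, Q κ (ρ γ v) (ρ γ w) = Q κ v w
  Binv : ∀ γ x v w, x ∈ X κ m → Q κ x v = 0 → Q κ x w = 0 → B κ (ρ γ v) (ρ γ w) = B κ v w
  eqv : ∀ γ y, P.p (γ • y) = ρ γ (P.p y)

/-- the linear equivalence of a holonomy element -/
noncomputable def Holonomy.equiv {P : Dev κ m Y} {Γ : Type*} [Group Γ] [MulAction Γ Y]
    (H : Holonomy P Γ) (γ : Γ) : V m ≃ₗ[ℝ] V m where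
  toFun := H.ρ γ
  map_add' := (H.lin γ).map_add
  map_smul' := (H.lin γ).map_smul
  invFun := H.ρ γ⁻¹
  left_inv := fun v => by rw [← H.mul, inv_mul_cancel, H.one]
  right_inv := fun v => by rw [← H.mul, mul_inv_cancel, H.one]

noncomputable def Holonomy.toHol {P : Dev κ m Y} {Γ : Type*} [Group Γ] [MulAction Γ Y]
    (H : Holonomy P Γ) : Hol P Γ where
  ρ :=
    { toFun := H.equiv
      map_one' := by ext1 v; exact H.one v
      map_mul' := fun a b => by ext1 v; exact H.mul a b v }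
  Qinv := H.Qinv
  Binv := H.Binv
  eqv := H.eqv

theorem velo_tan (P : Dev κ m Y) {c : ℝ → Y} {t : ℝ}
    (h : DifferentiableAt ℝ (fun s => P.p (c s)) t) : Q κ (P.p (c t)) (velo P c t) = 0 := by
  have h1 := h.hasDerivAt
  have h2 := h232_hasDerivAt_Q (κ := κ) h1 h1
  have h3 : (fun s => Q κ (P.p (c s)) (P.p (c s))) = fun _ => (1:ℝ) := by
    funext s; exact P.mem (c s)
  rw [h3] at h2
  have h4 := h2.unique (hasDerivAt_const t (1:ℝ))
  rw [Q_comm (deriv (fun s => P.p (c s)) t)] at h4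
  show Q κ (P.p (c t)) (deriv (fun s => P.p (c s)) t) = 0
  linarith

theorem isGeodesic_iff (hκ : κ = -1 ∨ κ = 0 ∨ κ = 1) (P : Dev κ m Y) {f : Y → ℝ}
    (hf : SmoothOn P f) {c : ℝ → Y} {I : Set ℝ} :
    IsGeodesic P f c I ↔ P.IsGeod f c I := by
  unfold IsGeodesic Dev.IsGeod
  refine and_congr Iff.rfl (forall_congr' fun t => forall_congr' fun ht => ?_)
  have e1 : (P.p ∘ c) = fun s => P.p (c s) := rfl
  have e2 : deriv (P.p ∘ c) = velo P c := rfl
  have e3 : deriv (deriv (P.p ∘ c)) t = acce P c t := rfl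
  rw [e3, e2, e1]
  constructor
  · rintro ⟨⟨h1, h2⟩, h3⟩
    refine ⟨h1, h2, fun w hw => ?_⟩
    obtain ⟨G, hG⟩ := hf (c t)
    have := h3 G hG w hw
    rw [P.d_eq hκ f (c t) G hG.1 hG.2 w hw, P.d_eq hκ f (c t) G hG.1 hG.2 _ (velo_tan P h1)]
    exact this
  · rintro ⟨h1, h2, h3⟩
    refine ⟨⟨h1, h2⟩, fun G hG w hw => ?_⟩
    have := h3 w hw
    rw [P.d_eq hκ f (c t) G hG.1 hG.2 w hw, P.d_eq hκ f (c t) G hG.1 hG.2 _ (velo_tan P h1)] at this
    exact this

/-- main theorem with the short definitions -/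
theorem slim_complete (hκ : κ = -1 ∨ κ = 0 ∨ κ = 1) (hm : 1 ≤ m)
    {Y : Type*} [TopologicalSpace Y] [T2Space Y] [ConnectedSpace Y] (P : Dev κ m Y)
    {Γ : Type*} [Group Γ] [MulAction Γ Y] [ContinuousConstSMul Γ Y] [ProperlyDiscontinuousSMul Γ Y]
    (hfree : ∀ (γ : Γ) (y : Y), γ • y = y → γ = 1) (H : Holonomy P Γ)
    (hM : CompactSpace (MulAction.orbitRel.Quotient Γ Y))
    (f : Y → ℝ) (hf : SmoothOn P f) (hinv : ∀ (γ : Γ) (y : Y), f (γ • y) = f y)
    (I : Set ℝ) (hI : IsOpen I) (hIc : I.OrdConnected) (hne : I.Nonempty)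
    (c : ℝ → Y) (hc : IsGeodesic P f c I) :
    ∃ c' : ℝ → Y, IsGeodesic P f c' univ ∧ EqOn c' c I := by
  rw [isGeodesic_iff hκ P hf] at hc
  simp only [isGeodesic_iff hκ P hf]
  have hf' : P.Sm f := hf
  have hK := coc_of_compact P (Γ := Γ) hM
  obtain ⟨TT⟩ := exists_TF hκ P H.toHol hK
  have hPC := path_conv hκ hm P hfree H.toHol hK
  refine Dev.geod_complete_interval P f ?_ c I hI hIc hne hc
  intro c a b hab hc
  have hs0 : a < (a + b) / 2 := by linarith
  have hs0b : (a + b) / 2 < b := by linarith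
  obtain ⟨M, hM⟩ := Dev.IsGeod.velocity_bounded hκ P TT hK hf' hinv c hc hs0 hs0b
  have hxd : ∀ s ∈ Ico ((a + b) / 2) b, HasDerivAt (P.p ∘ c) (deriv (P.p ∘ c) s) s := fun s hs =>
    (hc.2 s ⟨lt_of_lt_of_le hs0 hs.1, hs.2⟩).1.hasDerivAt
  obtain ⟨x₁, hx₁⟩ := tendsto_of_bdd_deriv hs0b hxd M hM
  obtain ⟨y₁, hy₁⟩ := hPC c ((a + b) / 2) b hs0b
    (hc.1.mono fun s hs => ⟨lt_of_lt_of_le hs0 hs.1, hs.2⟩) x₁ hx₁
  exact Dev.IsGeod.extend_right hκ P hf' c hab hc hy₁ M hs0b (fun t ht _ => hM t ht)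

end Pool.Agent.Helper107.LC
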