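import Mathlib
import Pool.Agent.Helper107.LC.IsoG
import Pool.Agent.Helper107.LC.Slim
import Pool.Agent.Helper107.LC.MHomeo
import Pool.Agent.Helper107.LC.MRigid
import Pool.Agent.Helper107.LC.MBridge
import Pool.Agent.Helper107.LC.MFree
import Pool.Agent.Helper107.LC.MGeoA
import Pool.Agent.Helper107.LC.MGeoB
import Pool.Agent.Helper107.LC.MChg
import Pool.Agent.Helper107.LC.MAg1
import Pool.Agent.Helper107.LC.MAg2
import Pool.Agent.Helper107.LC.MLift
import Pool.Agent.Helper107.LC.MDev
set_option autoImplicit false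
open Set Filter Topology
open scoped ContDiff Manifold

namespace Pool.Agent.Helper107.LC
universe u v w

/-! ## auxiliary facts on smooth functions in charts -/
section aux
variable {κ : ℝ} {m : ℕ}

theorem exists_cutoff {F : R m → ℝ} {x : R m} {U : Set (R m)} (hU : IsOpen U) (hx : x ∈ U)
    (hF : ContDiffOn ℝ ∞ F U) : ∃ F1 : R m → ℝ, ContDiff ℝ ∞ F1 ∧ F1 =ᶠ[𝓝 x] F := by
  obtain ⟨ε, hε, hball⟩ := Metric.isOpen_iff.mp hU x hx
  let χ : ContDiffBump x := ⟨ε / 3, ε / 2, by positivity, by linarith⟩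
  refine ⟨fun z => χ z * F z, ?_, ?_⟩
  · rw [contDiff_iff_contDiffAt]
    intro z
    by_cases hz : z ∈ U
    · exact χ.contDiffAt.mul (hF.contDiffAt (hU.mem_nhds hz))
    · have hz2 : z ∉ Metric.closedBall x (ε / 2) := fun h => hz (hball (by
        rw [Metric.mem_closedBall] at h; rw [Metric.mem_ball]; linarith))
      have h0 : (fun z => χ z * F z) =ᶠ[𝓝 z] fun _ => 0 := by
        filter_upwards [(Metric.isClosed_closedBall.isOpen_compl).mem_nhds hz2] with z' hz'
        have : χ z' = 0 := by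
          apply χ.zero_of_le_dist
          have : ¬ dist z' x ≤ ε / 2 := hz'
          exact le_of_lt (not_le.mp this)
        rw [this, zero_mul]
      exact contDiffAt_const.congr_of_eventuallyEq h0
  · filter_upwards [χ.eventuallyEq_one] with z hz
    rw [hz]; simp

theorem LocIso.congr {G : R m → R m → R m → ℝ} {Φ Φ' : R m → V m} {y : R m}
    (h : LocIso κ G Φ y) (he : Φ' =ᶠ[𝓝 y] Φ) : LocIso κ G Φ' y := by
  filter_upwards [h, he.eventually_nhds] with z hz hez
  refine ⟨hz.1.congr_of_eventuallyEq hez, ?_, fun u v => ?_⟩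
  · rw [hez.self_of_nhds]; exact hz.2.1
  · rw [Filter.EventuallyEq.fderiv_eq hez]; exact hz.2.2 u v

theorem LocIso.congr_metric {G G' : R m → R m → R m → ℝ} {Φ : R m → V m} {y : R m}
    (h : LocIso κ G Φ y) (he : ∀ᶠ z in 𝓝 y, ∀ u v, G' z u v = G z u v) : LocIso κ G' Φ y := by
  filter_upwards [h, he] with z hz hez
  exact ⟨hz.1, hz.2.1, fun u v => by rw [hez]; exact hz.2.2 u v⟩

theorem X_nonempty (κ : ℝ) (m : ℕ) : ((0, 0, 1) : V m) ∈ X κ m := by
  show Q κ ((0, 0, 1) : V m) (0, 0, 1) = 1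
  simp [Q]

/-- curvature under constant scaling -/
theorem ConstCurv.scale {K c : ℝ} (hc : c ≠ 0) {O : Set (R m)} {G : R m → R m → R m → ℝ}
    (h : ConstCurv K O G) : ConstCurv (K / c) O (fun y u v => c * G y u v) := by
  obtain ⟨C, h1, h2⟩ := h
  refine ⟨C, ?_, ?_⟩
  · intro y hy u v w
    have e : ∀ F : R m → ℝ, ∀ a, DR (fun z => c * F z) y a = c * DR F y a := by
      intro F a
      unfold DR
      exact deriv_const_mul_field (u := c) (v := fun s : ℝ => F (y + s • a)) (x := (0:ℝ))
    rw [e, e, e]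
    have := h1 y hy u v w
    linear_combination c * this
  · intro y hy u v w
    rw [h2 y hy u v w]
    have : ∀ a b : ℝ, (K / c) • ((c * a) • u - (c * b) • v) = K • (a • u - b • v) := by
      intro a b
      rw [smul_sub, smul_sub, smul_smul, smul_smul, smul_smul, smul_smul]
      congr 2 <;> field_simp
    exact (this _ _).symm
end aux

section conf
variable {m : ℕ} {M : Type*} [TopologicalSpace M] [ChartedSpace (R m) M]

theorem SmoothFun.chart [IsManifold (𝓡 (m + 1)) ∞ M] {f : M → ℝ} (hf : SmoothFun m f)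
    {e : OpenPartialHomeomorph M (R m)} (he : e ∈ atlas (R m) M) :
    ContDiffOn ℝ ∞ (fun y => f (e.symm y)) e.target := by
  have h1 : ContMDiffOn (𝓡 (m + 1)) (𝓡 (m + 1)) ∞ e.symm e.target :=
    contMDiffOn_symm_of_mem_maximalAtlas (IsManifold.subset_maximalAtlas he)
  have h2 : ContMDiffOn (𝓡 (m + 1)) 𝓘(ℝ, ℝ) ∞ (f ∘ e.symm) e.target :=
    ContMDiff.comp_contMDiffOn hf h1
  exact h2.contDiffOn

theorem SmoothFun.add_const {f : M → ℝ} (hf : SmoothFun m f) (c : ℝ) :
    SmoothFun m (fun x => f x + c) := by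
  unfold SmoothFun at *
  exact hf.add contMDiff_const

/-- conformal change of a metric -/
noncomputable def LorentzMetric.conf [IsManifold (𝓡 (m + 1)) ∞ M] (g : LorentzMetric m M) {f : M → ℝ}
    (hf : SmoothFun m f) : LorentzMetric m M where
  G e y u v := Real.exp (2 * f (e.symm y)) * g.G e y u v
  metric e he := by
    obtain ⟨h1, h2⟩ := g.metric e he
    refine ⟨fun u v => ?_, fun y hy => ⟨⟨fun v => ⟨fun a b => ?_, fun c a => ?_⟩, fun a b => ?_⟩, ?_⟩⟩
    · have := hf.chart he
      exact ((contDiffOn_const.mul this).exp).mul (h1 u v)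
    · show Real.exp (2 * f (e.symm y)) * g.G e y (a + b) v =
        Real.exp (2 * f (e.symm y)) * g.G e y a v + Real.exp (2 * f (e.symm y)) * g.G e y b v
      rw [((h2 y hy).1.1 v).map_add a b]; ring
    · show Real.exp (2 * f (e.symm y)) * g.G e y (c • a) v =
        c • (Real.exp (2 * f (e.symm y)) * g.G e y a v)
      rw [((h2 y hy).1.1 v).map_smul c a, smul_eq_mul, smul_eq_mul]; ring
    · show Real.exp (2 * f (e.symm y)) * g.G e y a b = Real.exp (2 * f (e.symm y)) * g.G e y b a
      rw [(h2 y hy).1.2 a b]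
    · obtain ⟨b, hb⟩ := (h2 y hy).2
      have hl := (h2 y hy).1.1
      have hs := (h2 y hy).1.2
      refine ⟨fun i => Real.exp (-f (e.symm y)) • b i, fun i j => ?_⟩
      have e1 : g.G e y (Real.exp (-f (e.symm y)) • b i) (Real.exp (-f (e.symm y)) • b j)
          = Real.exp (-f (e.symm y)) * (Real.exp (-f (e.symm y)) * g.G e y (b i) (b j)) := by
        rw [(hl _).map_smul, hs, (hl _).map_smul, hs (b j) (b i), smul_eq_mul, smul_eq_mul]
      show Real.exp (2 * f (e.symm y)) * g.G e y (Real.exp (-f (e.symm y)) • b i)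
        (Real.exp (-f (e.symm y)) • b j) = _
      rw [e1, hb i j]
      have e2 : Real.exp (2 * f (e.symm y)) * (Real.exp (-f (e.symm y)) * Real.exp (-f (e.symm y))) = 1 := by
        rw [← Real.exp_add, ← Real.exp_add]
        rw [show 2 * f (e.symm y) + (-f (e.symm y) + -f (e.symm y)) = 0 by ring, Real.exp_zero]
      calc _ = (Real.exp (2 * f (e.symm y)) * (Real.exp (-f (e.symm y)) * Real.exp (-f (e.symm y)))) *
          (if i = j then (if i = 0 then -1 else 1) else 0) := by ring
        _ = _ := by rw [e2, one_mul]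
  compat e he e' he' := by
    intro x hx u v
    have h := g.compat e he e' he' x hx u v
    show Real.exp (2 * f (e.symm (e x))) * g.G e (e x) u v =
      Real.exp (2 * f (e'.symm (e' x))) * g.G e' (e' x) _ _
    rw [e.left_inv hx.1, e'.left_inv hx.2, h]

end conf

section adm
variable {κ : ℝ} {m : ℕ} {M : Type*} [TopologicalSpace M] [ChartedSpace (R m) M]

/-- admissible maps: local isometries to the model space -/
def Adm (κ : ℝ) (h : LorentzMetric m M) (φ : M → X κ m) (x : M) : Prop :=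
  ∀ e ∈ atlas (R m) M, x ∈ e.source → LocIso κ (h.G e) (fun y => (φ (e.symm y) : V m)) (e x)

variable [IsManifold (𝓡 (m + 1)) ∞ M] (h : LorentzMetric m M)

theorem Adm.of_chart {φ : M → X κ m} {x : M} {e : OpenPartialHomeomorph M (R m)}
    (he : e ∈ atlas (R m) M) (hx : x ∈ e.source)
    (h1 : LocIso κ (h.G e) (fun y => (φ (e.symm y) : V m)) (e x)) : Adm κ h φ x := by
  intro e' he' hx'
  exact LocIso.change_chart h he he' hx hx' (φ := fun x => (φ x : V m)) h1

theorem Adm.eventually {φ : M → X κ m} {x : M} (h1 : Adm κ h φ x) : ∀ᶠ x' in 𝓝 x, Adm κ h φ x' := by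
  have he : chartAt (R m) x ∈ atlas (R m) M := chart_mem_atlas _ x
  have hx : x ∈ (chartAt (R m) x).source := mem_chart_source _ x
  have h2 := h1 _ he hx
  have h3 : ∀ᶠ z in 𝓝 (chartAt (R m) x x), LocIso κ (h.G (chartAt (R m) x))
      (fun y => (φ ((chartAt (R m) x).symm y) : V m)) z := Filter.Eventually.eventually_nhds h2
  have h4 := ((chartAt (R m) x).continuousAt hx).eventually h3
  filter_upwards [h4, (chartAt (R m) x).open_source.mem_nhds hx] with x' h5 h6
  exact Adm.of_chart h he h6 h5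

theorem Adm.smul {φ : M → X κ m} {x : M} (h1 : Adm κ h φ x) (A : IsoG κ m) :
    Adm κ h (fun x' => A • φ x') x := by
  intro e he hx
  exact LocIso.comp_iso (h1 e he hx) A.1 A.2

/-- metric of the chart as a bundled metric of constant curvature -/
theorem exists_cc (hcc : ∀ e ∈ atlas (R m) M, ConstCurv κ e.target (h.G e))
    {e : OpenPartialHomeomorph M (R m)} (he : e ∈ atlas (R m) M) :
    ∃ (G' : R m → R m →L[ℝ] R m →L[ℝ] ℝ) (C' : R m → R m →L[ℝ] R m →L[ℝ] R m),
      CCMetric κ m e.target G' C' ∧ ∀ y ∈ e.target, ∀ u v, G' y u v = h.G e y u v :=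
  ConstCurv.ccMetric e.open_target (h.metric e he) (hcc e he)

theorem Adm.exists (hκ : κ = -1 ∨ κ = 0 ∨ κ = 1)
    (hcc : ∀ e ∈ atlas (R m) M, ConstCurv κ e.target (h.G e)) (x : M) :
    ∃ φ : M → X κ m, Adm κ h φ x := by
  classical
  have he : chartAt (R m) x ∈ atlas (R m) M := chart_mem_atlas _ x
  have hx : x ∈ (chartAt (R m) x).source := mem_chart_source _ x
  set e := chartAt (R m) x with hedef
  obtain ⟨G', C', hC, hG'⟩ := exists_cc h hcc he
  have hex : e x ∈ e.target := e.map_source hx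
  obtain ⟨r, hr, hsub, Φ, hΦ1, hΦ2, hΦ3⟩ := CCMetric.exists_dev hκ hC hex
  have hball : Metric.ball (e x) r ∈ 𝓝 (e x) := Metric.ball_mem_nhds _ hr
  have hloc : LocIso κ (h.G e) Φ (e x) := by
    filter_upwards [hball] with z hz
    refine ⟨hΦ1.contDiffAt (Metric.isOpen_ball.mem_nhds hz), hΦ2 z hz, fun u v => ?_⟩
    rw [hΦ3 z hz u v, hG' z (hsub hz)]
  refine ⟨fun x' => if hx' : Φ (e x') ∈ X κ m then ⟨Φ (e x'), hx'⟩ else ⟨(0, 0, 1), X_nonempty κ m⟩, ?_⟩
  refine Adm.of_chart h he hx (hloc.congr ?_)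
  filter_upwards [hball, e.open_target.mem_nhds hex] with z hz hz2
  have h1 : e (e.symm z) = z := e.right_inv hz2
  have h2 : Φ (e (e.symm z)) ∈ X κ m := by rw [h1]; exact hΦ2 z hz
  simp only [dif_pos h2]
  rw [h1]

theorem Adm.rigid (hκ : κ = -1 ∨ κ = 0 ∨ κ = 1)
    (hcc : ∀ e ∈ atlas (R m) M, ConstCurv κ e.target (h.G e)) {φ φ' : M → X κ m} {x : M}
    (h1 : Adm κ h φ x) (h2 : Adm κ h φ' x) :
    ∃ A : IsoG κ m, φ' =ᶠ[𝓝 x] fun x' => A • φ x' := by
  have he : chartAt (R m) x ∈ atlas (R m) M := chart_mem_atlas _ x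
  have hx : x ∈ (chartAt (R m) x).source := mem_chart_source _ x
  set e := chartAt (R m) x with hedef
  obtain ⟨G', C', hC, hG'⟩ := exists_cc h hcc he
  have hex : e x ∈ e.target := e.map_source hx
  have hev : ∀ᶠ z in 𝓝 (e x), ∀ u v, (fun y u v => G' y u v) z u v = h.G e z u v := by
    filter_upwards [e.open_target.mem_nhds hex] with z hz u v
    exact hG' z hz u v
  obtain ⟨A, hA, hev2⟩ := CCMetric.rigid hκ hC hex ((h1 e he hx).congr_metric hev)
    ((h2 e he hx).congr_metric hev)
  refine ⟨⟨A, hA⟩, ?_⟩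
  have h4 := (e.continuousAt hx).eventually hev2
  filter_upwards [h4, e.open_source.mem_nhds hx] with x' h5 h6
  apply Subtype.ext
  rw [e.left_inv h6] at h5
  exact h5

theorem Adm.free (hκ : κ = -1 ∨ κ = 0 ∨ κ = 1) {φ : M → X κ m} {x : M}
    (h1 : Adm κ h φ x) (A : IsoG κ m) (hA : (fun x' => A • φ x') =ᶠ[𝓝 x] φ) : A = 1 := by
  have he : chartAt (R m) x ∈ atlas (R m) M := chart_mem_atlas _ x
  have hx : x ∈ (chartAt (R m) x).source := mem_chart_source _ x
  set e := chartAt (R m) x with hedef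
  have hex : e x ∈ e.target := e.map_source hx
  apply Subtype.ext
  refine LocIso.free hκ ((h.metric e he).2 _ hex).2 (h1 e he hx) A.1 ?_
  have hc : Tendsto e.symm (𝓝 (e x)) (𝓝 x) := by
    have := e.continuousAt_symm hex
    unfold ContinuousAt at this
    rwa [e.left_inv hx] at this
  filter_upwards [hc.eventually hA] with z hz
  exact congrArg Subtype.val hz

theorem Adm.homeo (hκ : κ = -1 ∨ κ = 0 ∨ κ = 1) {φ : M → X κ m} {x : M} (h1 : Adm κ h φ x) :
    ∃ e : OpenPartialHomeomorph M (X κ m), x ∈ e.source ∧ EqOn φ e e.source := by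
  have he : chartAt (R m) x ∈ atlas (R m) M := chart_mem_atlas _ x
  have hx : x ∈ (chartAt (R m) x).source := mem_chart_source _ x
  set e := chartAt (R m) x with hedef
  have hex : e x ∈ e.target := e.map_source hx
  obtain ⟨e0, h2, h3⟩ := LocIso.exists_homeo hκ ((h.metric e he).2 _ hex).2 (h1 e he hx)
  refine ⟨e.trans e0, ?_, ?_⟩
  · rw [OpenPartialHomeomorph.trans_source]
    exact ⟨hx, h2⟩
  · intro x' hx'
    rw [OpenPartialHomeomorph.trans_source] at hx'
    apply Subtype.ext
    have h4 := h3 (e x') hx'.2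
    rw [OpenPartialHomeomorph.coe_trans, Function.comp_apply, h4, e.left_inv hx'.1]
end adm

section final
variable {κ : ℝ} {m : ℕ} {M : Type u} [TopologicalSpace M] [ChartedSpace (R m) M]
  [IsManifold (𝓡 (m + 1)) ∞ M]

/-- everything needed about the developing map, in one chart at a point -/
theorem ext_in_chart (hκ : κ = -1 ∨ κ = 0 ∨ κ = 1) (h : LorentzMetric m M) {f : M → ℝ}
    (hf : SmoothFun m f) {φ : M → X κ m} {x : M} (h1 : Adm κ h φ x) :
    ∃ G : V m → ℝ, ContDiff ℝ ∞ G ∧ ∀ᶠ x' in 𝓝 x, f x' = G (φ x') := by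
  have he : chartAt (R m) x ∈ atlas (R m) M := chart_mem_atlas _ x
  have hx : x ∈ (chartAt (R m) x).source := mem_chart_source _ x
  set e := chartAt (R m) x with hedef
  have hex : e x ∈ e.target := e.map_source hx
  obtain ⟨F1, hF1, hF1e⟩ := exists_cutoff e.open_target hex (hf.chart he)
  obtain ⟨σ, hσ, hσe⟩ := LocIso.exists_leftInv ((h.metric e he).2 _ hex).2 (h1 e he hx)
  refine ⟨F1 ∘ σ, hF1.comp hσ, ?_⟩
  have h2 := (e.continuousAt hx).eventually (hF1e.and hσe)
  filter_upwards [h2, e.open_source.mem_nhds hx] with x' h3 h4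
  obtain ⟨h5, h6⟩ := h3
  rw [e.left_inv h4] at h5 h6
  show f x' = F1 (σ (φ x'))
  rw [h6, h5]

theorem manifold_complete_kappa (hκ : κ = -1 ∨ κ = 0 ∨ κ = 1) (hm : 1 ≤ m) [T2Space M] [CompactSpace M]
    [ConnectedSpace M] (g : LorentzMetric m M) {f : M → ℝ} (hf : SmoothFun m f)
    (hcc : g.ConfConst f κ) (I : Set ℝ) (hI : IsOpen I) (hIc : I.OrdConnected) (hne : I.Nonempty)
    (c : ℝ → M) (hc : g.IsGeodesic c I) : ∃ c' : ℝ → M, g.IsGeodesic c' univ ∧ EqOn c' c I := by
  haveI : LocallyPathConnectedSpace M := ChartedSpace.locallyPathConnectedSpace (R m) M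
  set h : LorentzMetric m M := g.conf hf with hh
  have hcc' : ∀ e ∈ atlas (R m) M, ConstCurv κ e.target (h.G e) := hcc
  obtain ⟨E0, topE, actE, π, p, a1, a2, a3, a4, a5, a6, a7, a8, a9⟩ :=
    exists_germ_cover (G0 := IsoG κ m) (Adm κ h)
      (fun φ x h1 => Adm.eventually h h1) (fun g φ x h1 => Adm.smul h h1 g)
      (fun x => Adm.exists h hκ hcc' x) (fun φ φ' x h1 h2 => Adm.rigid h hκ hcc' h1 h2)
      (fun φ x g h1 hg => Adm.free h hκ h1 g hg) (fun φ x h1 => Adm.homeo h hκ h1)
  obtain ⟨Y, topY, Γ, actY, q, r, b1, b2, b3, b4, b5, b6, b7, b8, b9, b10, b11, b12⟩ :=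
    exists_component_cover π p a2 a3 a4 a5 a6 a7 a8 (Adm κ h) a9
  -- the developing map
  let P : Dev κ m Y := ⟨fun y => (r y : V m), fun y => (r y).2, b8⟩
  let H : Holonomy P Γ :=
    { ρ := fun γ v => (γ : IsoG κ m).1 v
      lin := fun γ => ⟨fun a b => map_add _ a b, fun c a => map_smul _ c a⟩
      one := fun v => rfl
      mul := fun a b v => rfl
      Qinv := fun γ v w => (γ : IsoG κ m).2.1 v w
      Binv := fun γ x v w hx hv hw => (γ : IsoG κ m).2.2 x hx v w hv hw
      eqv := fun γ y => by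
        show ((r (γ • y) : X κ m) : V m) = _
        rw [b9]; rfl }
  -- the conformal factor
  set F : Y → ℝ := fun y => -f (q y) with hF
  have hqc : Continuous q := b6.continuous
  have hqo : IsOpenMap q := b6.isOpenMap
  have hf' : SmoothFun m (fun x => -f x) := by
    unfold SmoothFun at *
    exact hf.neg
  have hFs : SmoothOn P F := by
    intro y
    obtain ⟨φ, hφ, hev⟩ := b12 y
    obtain ⟨G, hG, hGe⟩ := ext_in_chart hκ h hf' hφ
    refine ⟨G, hG, ?_⟩
    filter_upwards [hev, hqc.continuousAt.eventually hGe] with y' h1 h2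
    show -f (q y') = G (r y' : V m)
    rw [h1]; exact h2
  have hFinv : ∀ (γ : Γ) (y : Y), F (γ • y) = F y := fun γ y => by
    show -f (q (γ • y)) = -f (q y)
    rw [b10]
  -- relation between the metrics
  have hgh : ∀ e ∈ atlas (R m) M, ∀ z ∈ e.target, ∀ u v, g.G e z u v =
      Real.exp (2 * (-f (e.symm z))) * h.G e z u v := by
    intro e he z hz u v
    show g.G e z u v = Real.exp (2 * (-f (e.symm z))) * (Real.exp (2 * f (e.symm z)) * g.G e z u v)
    rw [← mul_assoc, ← Real.exp_add]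
    rw [show 2 * (-f (e.symm z)) + 2 * f (e.symm z) = 0 by ring, Real.exp_zero, one_mul]
  -- lift the geodesic
  obtain ⟨c1, hc1, hc1q⟩ := exists_lift_interval b6 b7 hI hIc hne hc.1
  have hc1g : IsGeodesic P F c1 I := by
    refine ⟨hc1, ?_⟩
    intro t ht
    obtain ⟨φ, hφ, hev⟩ := b12 (c1 t)
    rw [hc1q t ht] at hφ
    have he : chartAt (R m) (c t) ∈ atlas (R m) M := chart_mem_atlas _ _
    have hx : c t ∈ (chartAt (R m) (c t)).source := mem_chart_source _ _
    set e := chartAt (R m) (c t) with hedef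
    have hex : e (c t) ∈ e.target := e.map_source hx
    have hct : ContinuousAt c t := hc.1.continuousAt (hI.mem_nhds ht)
    have hc1t : ContinuousAt c1 t := hc1.continuousAt (hI.mem_nhds ht)
    obtain ⟨v, a, hd2, hge⟩ := hc.2 t ht e he hx
    -- p ∘ c1 = Φ ∘ (e ∘ c) near t
    have hloc : ∀ᶠ s in 𝓝 t, (fun s => P.p (c1 s)) s = (fun s => (φ (e.symm ((e ∘ c) s)) : V m)) s := by
      filter_upwards [hc1t.eventually hev, hI.mem_nhds ht, hct.eventually (e.open_source.mem_nhds hx)]
        with s h1 h2 h3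
      show (r (c1 s) : V m) = (φ (e.symm (e (c s))) : V m)
      rw [e.left_inv h3, h1, hc1q s h2]
    have key : ∀ G : V m → ℝ, IsExt P F (c1 t) G → _ := fun G hG =>
      geod_chart_to_model hκ e.open_target (h.metric e he) (ψ := fun z => -f (e.symm z))
        (hgh e he) (y := e ∘ c) (t := t) hex
        ((hf'.chart he).contDiffAt (e.open_target.mem_nhds hex)) (hφ e he hx) hG.1
        (by
          -- ψ z = G (Φ z) near e (c t)
          have h1 : ∀ᶠ y' in 𝓝 (c1 t), -f (q y') = G (φ (q y') : V m) := by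
            filter_upwards [hG.2, hev] with y' h1 h2
            have h3 : F y' = G (r y' : V m) := h1
            rw [h2] at h3
            exact h3
          have h2 : ∀ᶠ x' in 𝓝 (q (c1 t)), -f x' = G (φ x' : V m) := by
            rw [← b6.isLocalHomeomorph.map_nhds_eq (c1 t)]
            exact h1
          rw [hc1q t ht] at h2
          have hcs : Tendsto e.symm (𝓝 (e (c t))) (𝓝 (c t)) := by
            have := e.continuousAt_symm hex
            unfold ContinuousAt at this
            rwa [e.left_inv hx] at this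
          exact hcs.eventually h2) hd2 hge
    obtain ⟨G0, hG0⟩ := hFs (c1 t)
    have hder : ∀ᶠ s in 𝓝 t, velo P c1 s = deriv (fun s => (φ (e.symm ((e ∘ c) s)) : V m)) s := by
      filter_upwards [Filter.Eventually.eventually_nhds hloc] with s hs
      exact Filter.EventuallyEq.deriv_eq hs
    obtain ⟨k1, k2, -⟩ := key G0 hG0
    refine ⟨⟨?_, ?_⟩, ?_⟩
    · exact (k1.self_of_nhds).congr_of_eventuallyEq hloc
    · exact k2.congr_of_eventuallyEq hder
    · intro G hG w hw
      obtain ⟨-, -, k3⟩ := key G hG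
      have e1 : P.p (c1 t) = (φ (e.symm ((e ∘ c) t)) : V m) := hloc.self_of_nhds
      have e2 : velo P c1 t = deriv (fun s => (φ (e.symm ((e ∘ c) s)) : V m)) t := hder.self_of_nhds
      have e3 : acce P c1 t = deriv (deriv (fun s => (φ (e.symm ((e ∘ c) s)) : V m))) t :=
        Filter.EventuallyEq.deriv_eq hder
      rw [e1, e2, e3]
      rw [e1] at hw
      exact k3 w hw
  -- extend upstairs
  obtain ⟨c2, hc2, hc2e⟩ := slim_complete hκ hm P b11 H b5 F hFs hFinv I hI hIc hne c1 hc1g
  refine ⟨fun t => q (c2 t), ⟨?_, ?_⟩, ?_⟩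
  · exact hqc.comp_continuousOn hc2.1
  · intro t _ e he hx
    obtain ⟨φ, hφ, hev⟩ := b12 (c2 t)
    obtain ⟨G, hG⟩ := hFs (c2 t)
    have hex : e (q (c2 t)) ∈ e.target := e.map_source hx
    have hc2t : ContinuousAt c2 t := hc2.1.continuousAt univ_mem
    have hqt : ContinuousAt (fun s => q (c2 s)) t := hqc.continuousAt.comp hc2t
    obtain ⟨⟨k1, k2⟩, k3⟩ := hc2.2 t (mem_univ _)
    refine geod_model_to_chart hκ e.open_target (h.metric e he) (ψ := fun z => -f (e.symm z))
      (hgh e he) (y := e ∘ fun t => q (c2 t)) (t := t) hex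
      (ContinuousAt.comp (f := fun s => q (c2 s)) (g := e) (x := t) (e.continuousAt hx) hqt)
      ((hf'.chart he).contDiffAt (e.open_target.mem_nhds hex)) (hφ e he hx) hG.1 ?_
      (x := fun s => P.p (c2 s)) ?_ ?_ k2 ?_
    · have h1 : ∀ᶠ y' in 𝓝 (c2 t), -f (q y') = G (φ (q y') : V m) := by
        filter_upwards [hG.2, hev] with y' h1 h2
        have h3 : F y' = G (r y' : V m) := h1
        rw [h2] at h3
        exact h3
      have h2 : ∀ᶠ x' in 𝓝 (q (c2 t)), -f x' = G (φ x' : V m) := by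
        rw [← b6.isLocalHomeomorph.map_nhds_eq (c2 t)]
        exact h1
      have hcs : Tendsto e.symm (𝓝 (e (q (c2 t)))) (𝓝 (q (c2 t))) := by
        have := e.continuousAt_symm hex
        unfold ContinuousAt at this
        rwa [e.left_inv hx] at this
      exact hcs.eventually h2
    · filter_upwards [hc2t.eventually hev, hqt.eventually (e.open_source.mem_nhds hx)] with s h1 h2
      show (r (c2 s) : V m) = (φ (e.symm (e (q (c2 s)))) : V m)
      rw [e.left_inv h2, h1]
    · exact Filter.Eventually.of_forall fun s => ((hc2.2 s (mem_univ _)).1).1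
    · intro w hw
      exact k3 G hG w hw
  · intro t ht
    show q (c2 t) = c t
    rw [hc2e ht, hc1q t ht]

/-- main theorem on manifolds -/
theorem manifold_complete (hm : 1 ≤ m) [T2Space M] [CompactSpace M]
    [ConnectedSpace M] (g : LorentzMetric m M) (K : ℝ) (f : M → ℝ) (hf : SmoothFun m f)
    (hcc : g.ConfConst f K) (I : Set ℝ) (hI : IsOpen I) (hIc : I.OrdConnected) (hne : I.Nonempty)
    (c : ℝ → M) (hc : g.IsGeodesic c I) : ∃ c' : ℝ → M, g.IsGeodesic c' univ ∧ EqOn c' c I := by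
  rcases eq_or_ne K 0 with hK | hK
  · subst hK
    exact manifold_complete_kappa (Or.inr (Or.inl rfl)) hm g hf hcc I hI hIc hne c hc
  · have hpos : 0 < |K| := abs_pos.mpr hK
    have hκ : K / |K| = -1 ∨ K / |K| = 0 ∨ K / |K| = 1 := by
      rcases lt_or_gt_of_ne hK with h | h
      · left; rw [abs_of_neg h]; field_simp
      · right; right; rw [abs_of_pos h]; field_simp
    have hf2 : SmoothFun m (fun x => f x + Real.log |K| / 2) := hf.add_const _
    refine manifold_complete_kappa hκ hm g hf2 ?_ I hI hIc hne c hc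
    intro e he
    have h1 := (hcc e he).scale (c := |K|) hpos.ne'
    have h2 : (fun y u v => |K| * (Real.exp (2 * f (e.symm y)) * g.G e y u v)) =
        fun y u v => Real.exp (2 * (f (e.symm y) + Real.log |K| / 2)) * g.G e y u v := by
      funext y u v
      rw [show 2 * (f (e.symm y) + Real.log |K| / 2) = Real.log |K| + 2 * f (e.symm y) by ring,
        Real.exp_add, Real.exp_log hpos]
      ring
    rw [h2] at h1
    exact h1
end final

end Pool.Agent.Helper107.LC
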